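import Pool.Agent.Mg.F8339a4.Gdfdc48

/-! API: eventual bounds for the data `Dat`. -/

open MeasureTheory Filter Topology Set

namespace Pool.Agent.MP_8339a4_an

theorem mul_exp_neg_le_EAb (t : ℝ) : t * Real.exp (-t) ≤ 2 * Real.exp (-(t / 2)) := by
  have h1 : t / 2 + 1 ≤ Real.exp (t / 2) := Real.add_one_le_exp _
  have h2 : Real.exp (t / 2) * Real.exp (-t) = Real.exp (-(t / 2)) := by
    rw [← Real.exp_add]; congr 1; ring
  have h3 := Real.exp_pos (-t)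
  nlinarith

theorem abs_mul_ph1_le_EAb {r A K : ℝ} (hr : 0 < r) (hK : 0 < K) (hA : 0 ≤ A) (y : ℝ) :
    |y| * ph1 r A K y ≤ 2 * Real.exp (A / K) * Real.exp (-(r * |y| / K / 2)) := by
  have h1 : P1 ((r * y - A) / K) ≤ Real.exp (A / K) * Real.exp (-(r * |y| / K)) := by
    refine (P1_le_exp _).trans ?_
    rw [← Real.exp_add]
    apply Real.exp_le_exp.mpr
    rw [abs_div, abs_of_pos hK]
    have h2 : |r * y| - |A| ≤ |r * y - A| := abs_sub_abs_le_abs_sub _ _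
    rw [abs_mul, abs_of_pos hr, abs_of_nonneg hA] at h2
    have h3 : (r * |y| - A) / K ≤ |r * y - A| / K := div_le_div_of_nonneg_right h2 hK.le
    rw [sub_div] at h3
    linarith
  have h4 := mul_exp_neg_le_EAb (r * |y| / K)
  have h5 : 0 ≤ r * |y| / K := by positivity
  have h6 := Real.exp_pos (A / K)
  calc |y| * ph1 r A K y = r * |y| / K * P1 ((r * y - A) / K) := by unfold ph1; ring
    _ ≤ r * |y| / K * (Real.exp (A / K) * Real.exp (-(r * |y| / K))) :=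
        mul_le_mul_of_nonneg_left h1 h5
    _ = Real.exp (A / K) * (r * |y| / K * Real.exp (-(r * |y| / K))) := by ring
    _ ≤ Real.exp (A / K) * (2 * Real.exp (-(r * |y| / K / 2))) :=
        mul_le_mul_of_nonneg_left h4 h6.le
    _ = _ := by ring

namespace Dat

variable (X : Dat) {s B : ℝ}

theorem f_le_Kf_EAb (hs : X.s0 < s) : X.f s ≤ X.Kf s := by
  have h := qf_le_qK (X.r_pos hs) X.K_pos (X.A s) (X.h1 hs).2.1
  have h1 : X.r s / X.K ≤ 1 := by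
    rw [div_le_one X.K_pos]
    have := X.r_le_K hs
    have := X.r_pos hs
    linarith
  have h2 := qK_nonneg (X.r s) (X.A s) X.K (X.ey s)
  exact h.trans (mul_le_of_le_one_left h2 h1)

theorem Kf_le_EAb (hs : X.s0 < s) : X.Kf s ≤ ∫ y, X.ey s y ^ 2 := by
  refine integral_mono_of_nonneg (Eventually.of_forall fun y => ?_)
    (integrable_sq2 (X.h1 hs).2.1) (Eventually.of_forall fun y => ?_)
  · exact mul_nonneg (ph_pos _ _ _ _).le (sq_nonneg _)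
  · exact mul_le_of_le_one_left (sq_nonneg _) (ph_lt_one _ _ _ _).le

theorem tendsto_log_EAb {p : ℝ} (hp : 0 < p) :
    Tendsto (fun s => (1 + X.A s) / s ^ p) atTop (𝓝 0) := by
  have h1 : Tendsto (fun s : ℝ => Real.log s / s ^ p) atTop (𝓝 0) :=
    (isLittleO_log_rpow_atTop hp).tendsto_div_nhds_zero
  have h2 : Tendsto (fun s : ℝ => (s ^ p)⁻¹) atTop (𝓝 0) :=
    (tendsto_rpow_atTop hp).inv_tendsto_atTop
  have h3 := h2.add (h1.const_mul X.CA)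
  rw [mul_zero, add_zero] at h3
  refine h3.congr fun s => ?_
  unfold Dat.A AA
  ring

theorem ev_gt : ∀ᶠ s in atTop, X.s0 < s := eventually_gt_atTop _
theorem ev_sup {δ : ℝ} (hδ : 0 < δ) : ∀ᶠ s in atTop, ∀ y, |X.e s y| ≤ δ := by
  have h1 : Tendsto (fun s => 2 * (Real.sqrt X.M * Real.sqrt (∫ y, X.ey s y ^ 2))) atTop
      (𝓝 0) := by
    have := (X.st.ey0.sqrt.const_mul (Real.sqrt X.M)).const_mul 2
    simpa using this
  filter_upwards [h1.eventually (gt_mem_nhds (pow_pos hδ 2)), X.ev_gt] with s h hs y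
  refine abs_le_of_sq_le_sq ?_ hδ.le
  refine ((X.h1 hs).sq_le y).trans (le_trans ?_ h.le)
  have h2 : Real.sqrt (∫ y, X.e s y ^ 2) ≤ Real.sqrt X.M := Real.sqrt_le_sqrt (X.st.mass s hs)
  exact mul_le_mul_of_nonneg_left (mul_le_mul_of_nonneg_right h2 (Real.sqrt_nonneg _))
    (by norm_num)
theorem ev_ey {δ : ℝ} (hδ : 0 < δ) : ∀ᶠ s in atTop, ∫ y, X.ey s y ^ 2 ≤ δ :=
  (X.st.ey0.eventually (gt_mem_nhds hδ)).mono fun _ h => h.le
theorem ev_par {δ : ℝ} (hδ : 0 < δ) : ∀ᶠ s in atTop, |X.β s| ≤ δ ∧ |X.γ s| ≤ δ := by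
  have h1 : Tendsto (fun s => X.Cp * N0 (X.e s)) atTop (𝓝 0) := by
    simpa using X.st.n0.const_mul X.Cp
  filter_upwards [h1.eventually (gt_mem_nhds (pow_pos hδ 2)), X.ev_gt] with s h hs
  have h2 := X.st.par s hs
  exact ⟨abs_le_of_sq_le_sq (by nlinarith [sq_nonneg (X.γ s)]) hδ.le,
    abs_le_of_sq_le_sq (by nlinarith [sq_nonneg (X.β s)]) hδ.le⟩
theorem ev_f {δ : ℝ} (hδ : 0 < δ) : ∀ᶠ s in atTop, X.f s ≤ δ ∧ X.Kf s ≤ δ := by
  filter_upwards [X.ev_ey hδ, X.ev_gt] with s h hs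
  have h1 := (X.Kf_le_EAb hs).trans h
  exact ⟨(X.f_le_Kf_EAb hs).trans h1, h1⟩
theorem par_le : ∃ C : ℝ, 0 ≤ C ∧ ∀ s, X.s0 < s → X.β s ^ 2 + X.γ s ^ 2 ≤ C * X.N s :=
  ⟨max X.Cp 0, le_max_right _ _, fun s hs => (X.st.par s hs).trans
    (mul_le_mul_of_nonneg_right (le_max_left _ _) (N0_nonneg _))⟩
theorem tau_pos (hs : 0 < s) : 0 < X.tau s := Real.rpow_pos_of_pos hs _
theorem exp_le_tau (hs : 1 ≤ s) : Real.exp (-(X.A s / X.K)) ≤ X.tau s := by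
  unfold Dat.tau Dat.A AA
  rw [Real.rpow_def_of_pos (by linarith)]
  apply Real.exp_le_exp.mpr
  have h1 : 0 ≤ Real.log s := Real.log_nonneg hs
  have h2 : 2 * X.κ + 10 ≤ X.CA / X.K := by
    rw [le_div_iff₀ X.K_pos]; exact X.pr.hCA
  have h3 := mul_le_mul_of_nonneg_left h2 h1
  have h4 : X.CA * Real.log s / X.K = Real.log s * (X.CA / X.K) := by ring
  rw [h4]
  linarith
theorem tau_le (hs : 1 ≤ s) {p : ℝ} (hp : -13 ≤ p) : X.tau s ≤ s ^ p := by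
  unfold Dat.tau
  apply Real.rpow_le_rpow_of_exponent_le hs
  have := X.pr.hκ
  linarith
theorem tau_le_lam : ∃ C : ℝ, 0 ≤ C ∧ ∀ s, X.s0 < s → X.tau s ≤ C * X.lam s ^ 2 := by
  refine ⟨1 / X.r0 ^ 2, by positivity, fun s hs => ?_⟩
  have h0 := X.r0_pos
  have h1 := X.one_lt hs
  have hs0 : 0 < s := by linarith
  have h2 : X.r0 ≤ X.lam s * s ^ X.κ := (X.st.rate s hs).1
  have h3 : X.tau s ≤ s ^ (-(2 * X.κ)) := by
    unfold Dat.tau
    apply Real.rpow_le_rpow_of_exponent_le h1.le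
    linarith
  have h4 : s ^ (-(2 * X.κ)) * (s ^ X.κ) ^ 2 = 1 := by
    rw [sq, ← Real.rpow_add hs0, ← Real.rpow_add hs0]
    have : -(2 * X.κ) + (X.κ + X.κ) = 0 := by ring
    rw [this, Real.rpow_zero]
  have h5 : X.r0 ^ 2 ≤ (X.lam s * s ^ X.κ) ^ 2 := pow_le_pow_left₀ h0.le h2 2
  have h6 : 0 < s ^ (-(2 * X.κ)) := Real.rpow_pos_of_pos hs0 _
  have h7 : s ^ (-(2 * X.κ)) * X.r0 ^ 2 ≤ X.lam s ^ 2 := by
    calc s ^ (-(2 * X.κ)) * X.r0 ^ 2 ≤ s ^ (-(2 * X.κ)) * (X.lam s * s ^ X.κ) ^ 2 :=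
          mul_le_mul_of_nonneg_left h5 h6.le
      _ = X.lam s ^ 2 * (s ^ (-(2 * X.κ)) * (s ^ X.κ) ^ 2) := by ring
      _ = _ := by rw [h4, mul_one]
  refine h3.trans ?_
  rw [one_div, inv_mul_eq_div, le_div_iff₀ (pow_pos h0 2)]
  exact h7
theorem A_div_le_EAb (hB : 1000 * X.CA ≤ B) (hs : 1 ≤ s) : X.A s / B ≤ Real.log s / 1000 := by
  have h0 := X.CA_pos
  have hB0 : 0 < B := by linarith
  have h1 : 0 ≤ Real.log s := Real.log_nonneg hs
  unfold Dat.A AA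
  rw [div_le_div_iff₀ hB0 (by norm_num)]
  nlinarith
theorem exp_le_Lm (hB : 1000 * X.CA ≤ B) (hs : 1 ≤ s) : Real.exp (X.A s / B) ≤ Lm s := by
  unfold Lm
  rw [Real.rpow_def_of_pos (by linarith)]
  apply Real.exp_le_exp.mpr
  have h1 : 0 ≤ Real.log s := Real.log_nonneg hs
  have := X.A_div_le_EAb hB hs
  linarith
theorem exp_log_le_Lm (hB : 1000 * X.CA ≤ B) : ∃ C : ℝ, 0 ≤ C ∧ ∀ s, 1 ≤ s →
    Real.exp (2 * (X.A s / B)) * (1 + X.A s) ^ 2 ≤ C * Lm s := by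
  refine ⟨(1 + 400 * X.CA) ^ 2, sq_nonneg _, fun s hs => ?_⟩
  have h0 := X.CA_pos
  have hs0 : 0 < s := by linarith
  have h1 : 0 ≤ Real.log s := Real.log_nonneg hs
  have h2 := X.A_div_le_EAb hB hs
  have h3 : Real.log s / 400 + 1 ≤ Real.exp (Real.log s / 400) := Real.add_one_le_exp _
  have h4 : 1 + X.A s ≤ (1 + 400 * X.CA) * Real.exp (Real.log s / 400) := by
    unfold Dat.A AA
    nlinarith
  have h5 : (1 + X.A s) ^ 2 ≤ ((1 + 400 * X.CA) * Real.exp (Real.log s / 400)) ^ 2 :=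
    pow_le_pow_left₀ (by have := X.A_nonneg hs; linarith) h4 2
  have h6 : Real.exp (2 * (X.A s / B)) * Real.exp (Real.log s / 400) ^ 2 ≤ Lm s := by
    unfold Lm
    rw [Real.rpow_def_of_pos hs0, sq, ← Real.exp_add, ← Real.exp_add]
    apply Real.exp_le_exp.mpr
    linarith
  calc Real.exp (2 * (X.A s / B)) * (1 + X.A s) ^ 2
      ≤ Real.exp (2 * (X.A s / B)) * ((1 + 400 * X.CA) * Real.exp (Real.log s / 400)) ^ 2 :=
        mul_le_mul_of_nonneg_left h5 (Real.exp_pos _).le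
    _ = (1 + 400 * X.CA) ^ 2 * (Real.exp (2 * (X.A s / B)) * Real.exp (Real.log s / 400) ^ 2) := by
        ring
    _ ≤ _ := mul_le_mul_of_nonneg_left h6 (sq_nonneg _)
theorem ev_log {ε : ℝ} (hε : 0 < ε) : ∀ᶠ s in atTop, (1 + X.A s) / s ≤ ε := by
  filter_upwards [(X.tendsto_log_EAb one_pos).eventually (gt_mem_nhds hε)] with s h
  rw [Real.rpow_one] at h
  exact h.le
theorem ev_log_sq : ∀ᶠ s in atTop, ((1 + X.A s) / s) ^ 2 ≤ s ^ (-(3 : ℝ) / 2) := by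
  filter_upwards [(X.tendsto_log_EAb (p := 1 / 4) (by norm_num)).eventually
    (gt_mem_nhds one_pos), eventually_ge_atTop (1 : ℝ)] with s h hs
  have hs0 : 0 < s := by linarith
  have h1 : 0 < s ^ ((1 : ℝ) / 4) := Real.rpow_pos_of_pos hs0 _
  rw [div_lt_one h1] at h
  have h2 : (1 + X.A s) ^ 2 ≤ (s ^ ((1 : ℝ) / 4)) ^ 2 :=
    pow_le_pow_left₀ (by have := X.A_nonneg hs; linarith) h.le 2
  have h3 : (s ^ ((1 : ℝ) / 4)) ^ 2 = s ^ (-(3 : ℝ) / 2) * s ^ 2 := by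
    rw [← Real.rpow_natCast, ← Real.rpow_natCast, ← Real.rpow_mul hs0.le, ← Real.rpow_add hs0]
    norm_num
  rw [div_pow, div_le_iff₀ (pow_pos hs0 2), ← h3]
  exact h2
theorem ev_exp_neg (hB : 0 < B) {ε : ℝ} (hε : 0 < ε) :
    ∀ᶠ s in atTop, Real.exp (-(X.A s / B)) ≤ ε := by
  have h1 : Tendsto (fun s => X.A s / B) atTop atTop :=
    (Real.tendsto_log_atTop.const_mul_atTop X.CA_pos).atTop_div_const hB
  have h2 := Real.tendsto_exp_neg_atTop_nhds_zero.comp h1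
  exact (h2.eventually (gt_mem_nhds hε)).mono fun _ h => h.le
/-- Far tails of the step `φ` are negligible. -/
theorem ev_tail {ε : ℝ} (hε : 0 < ε) : ∀ᶠ s in atTop, ∀ y,
    |X.dr s y| * ph1 (X.r s) (X.A s) X.K y ≤ ε * ph1 (X.r s) (X.A s) X.K y + X.tau s := by
  have hκ := X.κ_pos
  have hK := X.K_pos
  have h0 := X.r0_pos
  have hC := X.CA_pos
  obtain ⟨c, hc, hce⟩ : ∃ c : ℝ, 0 < c ∧ c * (4 * X.κ * X.K) = X.r0 * ε :=
    ⟨X.r0 * ε / (4 * X.κ * X.K), by positivity, by field_simp⟩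
  have t1 := (tendsto_rpow_mul_exp_neg_mul_atTop_nhds_zero (X.CA / X.K + (2 * X.κ + 10)) c
    hc).const_mul (2 * X.κ)
  rw [mul_zero] at t1
  filter_upwards [t1.eventually (gt_mem_nhds one_pos), X.ev_gt,
    eventually_ge_atTop (2 * X.CA / (X.r0 * ε))] with s h1 hs h2 y
  have hs1 := X.one_lt hs
  have hs0 : 0 < s := by linarith
  have hr := X.r_pos hs
  have hr0 := X.r_ge hs
  have hp := ph1_pos hr hK (X.A s) y
  have ht := X.tau_pos hs0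
  have d1 : |X.dr s y| ≤ X.κ * |y| / s + ε / 2 := by
    unfold Dat.dr
    refine (abs_sub _ _).trans (add_le_add ?_ ?_)
    · rw [abs_div, abs_mul, abs_of_pos hκ, abs_of_pos hs0]
    · rw [abs_of_pos (by positivity), div_le_iff₀ (by positivity)]
      rw [div_le_iff₀ (by positivity)] at h2
      have : s * (X.r0 * ε) ≤ s * (X.r s * ε) := by gcongr
      nlinarith
  by_cases hy : X.κ * |y| / s ≤ ε / 2
  · have : |X.dr s y| ≤ ε := by linarith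
    have := mul_le_mul_of_nonneg_right this hp.le
    linarith
  · push Not at hy
    rw [lt_div_iff₀ hs0] at hy
    have e1 := abs_mul_ph1_le_EAb hr hK (X.A_nonneg hs1.le) y
    have e2 : c * s ≤ X.r s * |y| / X.K / 2 := by
      rw [div_div, le_div_iff₀ (by positivity)]
      have a1 : X.r0 * |y| ≤ X.r s * |y| := by gcongr
      have a2 : X.κ * (c * s * (X.K * 2)) ≤ X.κ * (X.r0 * |y|) := by
        have : X.κ * (c * s * (X.K * 2)) = c * (4 * X.κ * X.K) * (s / 2) := by ring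
        rw [this, hce]
        nlinarith
      exact (le_of_mul_le_mul_left a2 hκ).trans a1
    have e3 : Real.exp (-(X.r s * |y| / X.K / 2)) ≤ Real.exp (-c * s) :=
      Real.exp_le_exp.mpr (by linarith)
    have e4 : Real.exp (X.A s / X.K) = s ^ (X.CA / X.K) := by
      rw [Real.rpow_def_of_pos hs0]
      unfold Dat.A AA
      congr 1; ring
    have e5 : s ^ (X.CA / X.K) = s ^ (X.CA / X.K + (2 * X.κ + 10)) * X.tau s := by
      unfold Dat.tau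
      rw [← Real.rpow_add hs0]
      congr 1; ring
    have e6 : X.κ * (|y| * ph1 (X.r s) (X.A s) X.K y) ≤ X.tau s := by
      have b1 : 0 < s ^ (X.CA / X.K) := Real.rpow_pos_of_pos hs0 _
      calc X.κ * (|y| * ph1 (X.r s) (X.A s) X.K y)
          ≤ X.κ * (2 * Real.exp (X.A s / X.K) * Real.exp (-(X.r s * |y| / X.K / 2))) :=
            mul_le_mul_of_nonneg_left e1 hκ.le
        _ ≤ X.κ * (2 * s ^ (X.CA / X.K) * Real.exp (-c * s)) := by
            rw [e4]; gcongr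
        _ = 2 * X.κ * (s ^ (X.CA / X.K + (2 * X.κ + 10)) * Real.exp (-c * s)) * X.tau s := by
            rw [e5]; ring
        _ ≤ 1 * X.tau s := mul_le_mul_of_nonneg_right h1.le ht.le
        _ = _ := one_mul _
    have e7 : X.κ * |y| / s * ph1 (X.r s) (X.A s) X.K y
        ≤ X.κ * (|y| * ph1 (X.r s) (X.A s) X.K y) := by
      have : X.κ * |y| / s ≤ X.κ * |y| := div_le_self (by positivity) hs1.le
      calc _ ≤ X.κ * |y| * ph1 (X.r s) (X.A s) X.K y := mul_le_mul_of_nonneg_right this hp.le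
        _ = _ := by ring
    have e8 := mul_le_mul_of_nonneg_right d1 hp.le
    nlinarith [mul_pos hε hp]
theorem dr_sq : ∃ C : ℝ, 0 ≤ C ∧ ∀ s, X.s0 < s →
    ∫ y, ph1 (X.r s) (X.A s) X.K y * X.dr s y ^ 2 ≤ C * ((1 + X.A s) / s) ^ 2 := by
  have hK := X.K_pos
  have h0 := X.r0_pos
  refine ⟨(4 * X.κ ^ 2 + 16 * X.κ ^ 2 * X.K ^ 2 + 2 * X.CA ^ 2) / X.r0 ^ 2, by positivity,
    fun s hs => ?_⟩
  have hs1 := X.one_lt hs
  have hs0 : 0 < s := by linarith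
  have hr := X.r_pos hs
  have hr0 := X.r_ge hs
  have hA := X.A_nonneg hs1.le
  have i0 : Integrable (ph1 (X.r s) (X.A s) X.K) := (expD_ph1 hr hK _).integrable
  have i2 : Integrable (fun y => ph1 (X.r s) (X.A s) X.K y * y ^ 2) :=
    ((expD_ph1 hr hK (X.A s)).id_mul.id_mul.congr fun y => by ring).integrable
  have m1 : ∫ y, ph1 (X.r s) (X.A s) X.K y * X.dr s y ^ 2
      ≤ ∫ y, (2 * (X.κ / s) ^ 2 * (ph1 (X.r s) (X.A s) X.K y * y ^ 2)
        + 2 * (X.CA / (s * X.r s)) ^ 2 * ph1 (X.r s) (X.A s) X.K y) := by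
    refine integral_mono_of_nonneg (Eventually.of_forall fun y => ?_)
      ((i2.const_mul _).add (i0.const_mul _)) (Eventually.of_forall fun y => ?_)
    · exact mul_nonneg (ph1_pos hr hK _ _).le (sq_nonneg _)
    · have hp := ph1_pos hr hK (X.A s) y
      have : X.dr s y ^ 2 ≤ 2 * (X.κ / s * y) ^ 2 + 2 * (X.CA / (s * X.r s)) ^ 2 := by
        have e : X.dr s y = X.κ / s * y - X.CA / (s * X.r s) := by unfold Dat.dr; ring
        rw [e]
        nlinarith [sq_nonneg (X.κ / s * y + X.CA / (s * X.r s))]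
      have := mul_le_mul_of_nonneg_left this hp.le
      show ph1 (X.r s) (X.A s) X.K y * X.dr s y ^ 2 ≤ 2 * (X.κ / s) ^ 2 *
        (ph1 (X.r s) (X.A s) X.K y * y ^ 2)
        + 2 * (X.CA / (s * X.r s)) ^ 2 * ph1 (X.r s) (X.A s) X.K y
      linarith
  rw [integral_add (i2.const_mul _) (i0.const_mul _), integral_const_mul, integral_const_mul,
    integral_ph1 hr hK] at m1
  have m2 := mul_le_mul_of_nonneg_left (integral_ph1_sq hr hK (X.A s))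
    (show 0 ≤ 2 * (X.κ / s) ^ 2 by positivity)
  have m3 : 2 * (X.κ / s) ^ 2 * (2 * (X.A s / X.r s) ^ 2 + 8 * (X.K / X.r s) ^ 2)
      + 2 * (X.CA / (s * X.r s)) ^ 2 * 1
      = (4 * X.κ ^ 2 * X.A s ^ 2 + 16 * X.κ ^ 2 * X.K ^ 2 + 2 * X.CA ^ 2) / X.r s ^ 2
        / s ^ 2 := by
    field_simp
    ring
  have m4 : (4 * X.κ ^ 2 * X.A s ^ 2 + 16 * X.κ ^ 2 * X.K ^ 2 + 2 * X.CA ^ 2) / X.r s ^ 2
      ≤ (4 * X.κ ^ 2 + 16 * X.κ ^ 2 * X.K ^ 2 + 2 * X.CA ^ 2) * (1 + X.A s) ^ 2 / X.r0 ^ 2 := by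
    have a1 : X.A s ^ 2 ≤ (1 + X.A s) ^ 2 := by nlinarith
    have a2 : 1 ≤ (1 + X.A s) ^ 2 := by nlinarith
    have a3 : 4 * X.κ ^ 2 * X.A s ^ 2 ≤ 4 * X.κ ^ 2 * (1 + X.A s) ^ 2 := by gcongr
    have a4 : (16 * X.κ ^ 2 * X.K ^ 2 + 2 * X.CA ^ 2) * 1
        ≤ (16 * X.κ ^ 2 * X.K ^ 2 + 2 * X.CA ^ 2) * (1 + X.A s) ^ 2 := by gcongr
    gcongr
    linarith
  have m5 := div_le_div_of_nonneg_right m4 (pow_pos hs0 2).le
  calc _ ≤ _ := m1
    _ ≤ (4 * X.κ ^ 2 * X.A s ^ 2 + 16 * X.κ ^ 2 * X.K ^ 2 + 2 * X.CA ^ 2) / X.r s ^ 2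
        / s ^ 2 := by rw [← m3]; linarith
    _ ≤ _ := m5
    _ = _ := by rw [div_pow]; ring
theorem f_nonneg (hs : X.s0 < s) : 0 ≤ X.f s := qf_nonneg (X.r_pos hs) X.K_pos _ _
theorem f_le_Kf (hs : X.s0 < s) : X.f s ≤ X.Kf s := X.f_le_Kf_EAb hs
theorem Kf_nonneg (s : ℝ) : 0 ≤ X.Kf s := qK_nonneg _ _ _ _
theorem k6_nonneg (s : ℝ) : 0 ≤ X.k6 s := q6_nonneg _ _ _ _
theorem N_nonneg (s : ℝ) : 0 ≤ X.N s := N0_nonneg _
theorem D_nonneg (B s : ℝ) : 0 ≤ X.D B s :=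
  integral_nonneg fun y => mul_nonneg (mul_nonneg (mul_nonneg (Real.exp_pos _).le
    (ph_pos _ _ _ _).le) (sub_nonneg.mpr (ph_lt_one _ _ _ y).le)) (by positivity)
/-- `∫ φ' e² ≤ a² + C f`. -/
theorem ph1_sq : ∃ C : ℝ, 0 ≤ C ∧ ∀ s, X.s0 < s →
    ∫ y, ph1 (X.r s) (X.A s) X.K y * X.e s y ^ 2 ≤ X.a s ^ 2 + C * X.f s := by
  have hK := X.K_pos
  have h0 := X.r0_pos
  refine ⟨16 * (X.K / X.r0) ^ 2, by positivity, fun s hs => ?_⟩
  have hr := X.r_pos hs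
  have hr0 := X.r_ge hs
  have hf := X.f_nonneg hs
  refine (poin_sq hr hK (X.A s) (X.h1 hs)).trans ?_
  show X.a s ^ 2 + 16 * (X.K / X.r s) ^ 2 * X.f s ≤ _
  gcongr
theorem zl {L : ℝ} (hL : 0 < L) : ∃ C : ℝ, 0 ≤ C ∧ ∀ s, X.s0 < s →
    ∫ y, ph (X.r s) (X.A s) X.K y * P1 ((X.r s * y - X.A s) / L) * X.e s y ^ 2
      ≤ C * (X.a s ^ 2 + X.Kf s) := by
  obtain ⟨C, hC, h⟩ := zlem (r1 := X.r1) X.r0_pos X.K_pos hL
  exact ⟨C, hC, fun s hs => h _ _ _ _ (X.r_ge hs) (X.r_le hs) (X.h1 hs)⟩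

end Dat

end Pool.Agent.MP_8339a4_an
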