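import Pool.Agent.Mg.F8339a4.G1d67fe
import Pool.Agent.Mg.F8339a4.G64ccb6
import Pool.Agent.Mg.F8339a4.Ge88a2e

section



end

section

/-! Continuity in time of the scalar quantities. -/

open MeasureTheory Filter Topology Set

namespace Pool.Agent.MP_8339a4_an

theorem ut_ph_Cont (X : Dat) {s L : ℝ} (hs : X.s0 < s) (hL : 0 < L) :
    UT (𝓝 s) (fun z y => ph (X.r z) (X.A z) L y) (fun y => ph (X.r s) (X.A s) L y) :=
  (mw_ph (X.hasDerivAt_r hs) (X.hasDerivAt_A hs) (X.r_pos hs) hL).ut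

theorem ut_ph1_Cont (X : Dat) {s L : ℝ} (hs : X.s0 < s) (hL : 0 < L) :
    UT (𝓝 s) (fun z y => ph1 (X.r z) (X.A z) L y) (fun y => ph1 (X.r s) (X.A s) L y) :=
  (mw_ph1 (X.hasDerivAt_r hs) (X.hasDerivAt_A hs) (X.r_pos hs) hL).ut

theorem ut_WW_Cont (X : Dat) {s B : ℝ} (hs : X.s0 < s) (hB : 0 < B) :
    UT (𝓝 s) (fun z y => WW (X.r z) (X.A z) B y) (fun y => WW (X.r s) (X.A s) B y) :=
  (UT.of_tendsto ((X.hasDerivAt_A hs).div_const B).exp.continuousAt).mul (ut_ph_Cont X hs hB)

theorem l1_hH_Cont (X : Dat) {s : ℝ} (hs : X.s0 < s) :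
    L1T (𝓝 s) (fun z y => X.ey z y ^ 2 + X.e z y ^ 2 - PP y (X.e z y))
      (fun y => X.ey s y ^ 2 + X.e s y ^ 2 - PP y (X.e s y)) := by
  have h := (X.st.flow s hs).h1t
  have a1 := (X.h1tU hs).pow 4
  have a2 := L1T.const (l := 𝓝 s) (expD_Q.pow 5).integrable
  have a3 := ((L2T.const (expD_Q.pow 4).memLp).mul h.l2).const_mul 6
  exact ((h.l2y.sq.add h.l2.sq).sub (((a1.sub a2).sub a3).const_mul (1 / 3))).congr
    (Eventually.of_forall fun _ _ => by unfold PP; ring) (fun _ => by unfold PP; ring)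

theorem cont : ContStmt := by
  intro X B hB s hs
  have h := (X.st.flow s hs).h1t
  have hU := X.h1tU hs
  have w0 := ut_ph_Cont X hs X.K_pos
  have w1 := ut_ph1_Cont X hs X.K_pos
  have w2 := ut_WW_Cont X hs hB
  refine ⟨(h.l2y.sq.ut_mul w1).tendsto_integral, (hU.en.mul_ut w0).tendsto_integral,
    ((h.l2.sq.add h.l2y.sq).ut_mul (w2.mul ((UT.const (Bdd.const 1)).sub w0))).tendsto_integral,
    ?_⟩
  exact ((l1_hH_Cont X hs).mul_ut w2).tendsto_integral.sub
    (hU.l2.sq.mul_ut (w2.mul w0)).tendsto_integral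

end Pool.Agent.MP_8339a4_an

end

section

/-! The bound on `J_R` and `J_L`. -/

open MeasureTheory Filter Topology Set

namespace Pool.Agent.MP_8339a4_an

/-- A quantity at most `1` and at most `exp ((A - r0 u)/K)` is dominated by one exponential. -/
theorem min_le_BdJ {r0 A K u m : ℝ} (_h0 : 0 < r0) (hA : 0 ≤ A) (hK : 0 < K)
    (h : (m ≤ 1 ∧ r0 * u ≤ A) ∨ (m ≤ Real.exp ((A - r0 * u) / K) ∧ A ≤ r0 * u)) :
    m ≤ 3 * Real.exp (-(r0 / (A + K) * u)) := by
  have hT : 0 < A + K := by linarith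
  have e3 : Real.exp 1 ≤ 3 := by
    have := Real.exp_one_lt_d9
    linarith
  have key : m ≤ Real.exp (1 + -(r0 / (A + K) * u)) := by
    rcases h with ⟨h1, h2⟩ | ⟨h1, h2⟩
    · refine h1.trans (Real.one_le_exp ?_)
      have : r0 / (A + K) * u ≤ 1 := by
        rw [div_mul_eq_mul_div, div_le_one hT]
        linarith
      linarith
    · refine h1.trans (Real.exp_le_exp.2 ?_)
      have e : 1 + -(r0 / (A + K) * u) = (A + K - r0 * u) / (A + K) := by
        field_simp
        ring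
      rw [e, div_le_div_iff₀ hK hT]
      nlinarith [mul_nonneg hA (sub_nonneg.2 h2), sq_nonneg K]
  rw [Real.exp_add] at key
  exact key.trans (mul_le_mul_of_nonneg_right e3 (Real.exp_pos _).le)

theorem ph_anti_BdJ {r K A A' : ℝ} (hK : 0 < K) (h : A ≤ A') (y : ℝ) :
    ph r A' K y ≤ ph r A K y := by
  unfold ph
  apply P0_mono
  apply div_le_div_of_nonneg_right _ hK.le
  linarith

theorem env_BdJ {r A K B : ℝ} (h : WP r A K B) (y : ℝ) {t : ℝ}
    (ht : |t| ≤ 8 * Real.exp (-(|y| / 2))) :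
    t ^ 2 ≤ 256 * Real.exp (-(1 / 2 * |y|)) * pM r A K B y := by
  have h1 := h.pM_env y
  have h2 : t ^ 2 ≤ (8 * Real.exp (-(|y| / 2))) ^ 2 := by
    rw [← sq_abs t]
    exact pow_le_pow_left₀ (abs_nonneg t) ht 2
  have h3 : (8 * Real.exp (-(|y| / 2))) ^ 2
      ≤ 256 * Real.exp (-(1 / 2 * |y|)) * (Real.exp (-(|y| / 100)) / 4) := by
    have e1 : (8 * Real.exp (-(|y| / 2))) ^ 2 = 64 * Real.exp (-(|y| / 2) + -(|y| / 2)) := by
      rw [Real.exp_add]; ring
    have e2 : 256 * Real.exp (-(1 / 2 * |y|)) * (Real.exp (-(|y| / 100)) / 4)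
        = 64 * Real.exp (-(1 / 2 * |y|) + -(|y| / 100)) := by
      rw [Real.exp_add]; ring
    rw [e1, e2]
    have := abs_nonneg y
    have : Real.exp (-(|y| / 2) + -(|y| / 2)) ≤ Real.exp (-(1 / 2 * |y|) + -(|y| / 100)) :=
      Real.exp_le_exp.2 (by linarith)
    linarith
  have h4 : 256 * Real.exp (-(1 / 2 * |y|)) * (Real.exp (-(|y| / 100)) / 4)
      ≤ 256 * Real.exp (-(1 / 2 * |y|)) * pM r A K B y :=
    mul_le_mul_of_nonneg_left h1 (by positivity)
  linarith

theorem left_BdJ {r A K B r0 : ℝ} (h : WP r A K B) (h0 : 0 < r0) (hr : r0 ≤ r) {y : ℝ}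
    (hy : y ≤ 0) : ph r (-A) K y ^ 2
      ≤ 12 * Real.exp (A / B) * Real.exp (-(r0 / (A + K) * |y|)) * pM r A K B y := by
  have hK := h.K_pos
  have hB := h.B_pos
  have hA := h.hA
  have hr0 := h.hr
  have hry : r * y ≤ 0 := mul_nonpos_of_nonneg_of_nonpos hr0.le hy
  have h1 := h.pM_left (y := y) (by linarith)
  have hy' : |y| = -y := abs_of_nonpos hy
  have hp := ph_pos r (-A) K y
  have hp1 := ph_lt_one r (-A) K y
  have hrr : r * y ≤ r0 * y := by nlinarith
  -- the quantity to be bounded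
  have key : ph r (-A) K y ^ 2 * Real.exp (-((r * y + A) / B))
      ≤ 3 * Real.exp (-(r0 / (A + K) * |y|)) := by
    rcases le_total 0 (r * y + A) with hx | hx
    · refine min_le_BdJ h0 hA hK (Or.inl ⟨?_, by rw [hy']; linarith⟩)
      have a1 : Real.exp (-((r * y + A) / B)) ≤ 1 :=
        Real.exp_le_one_iff.2 (by have := div_nonneg hx hB.le; linarith)
      have a2 : ph r (-A) K y ^ 2 ≤ 1 := by nlinarith
      exact mul_le_one₀ a2 (Real.exp_pos _).le a1
    · have a1 : ph r (-A) K y ≤ Real.exp ((r * y + A) / K) := by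
        have := P0_le_exp ((r * y - -A) / K)
        rw [sub_neg_eq_add] at this
        unfold ph
        rw [sub_neg_eq_add]
        exact this
      have a2 : -((r * y + A) / B) ≤ -((r * y + A) / K) := by
        rw [← neg_div, ← neg_div]
        exact div_le_div_of_nonneg_left (by linarith) hK (by have := h.hB; linarith)
      have a3 : ph r (-A) K y ^ 2 * Real.exp (-((r * y + A) / B)) ≤ Real.exp ((r * y + A) / K) := by
        calc ph r (-A) K y ^ 2 * Real.exp (-((r * y + A) / B))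
            ≤ Real.exp ((r * y + A) / K) ^ 2 * Real.exp (-((r * y + A) / K)) :=
              mul_le_mul (pow_le_pow_left₀ hp.le a1 2) (Real.exp_le_exp.2 a2)
                (Real.exp_pos _).le (by positivity)
          _ = Real.exp ((r * y + A) / K) := by
              rw [Real.exp_neg]
              field_simp
      rcases le_total (r0 * |y|) A with hz | hz
      · refine min_le_BdJ h0 hA hK (Or.inl ⟨a3.trans ?_, hz⟩)
        exact Real.exp_le_one_iff.2 (div_nonpos_of_nonpos_of_nonneg hx hK.le)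
      · refine min_le_BdJ h0 hA hK (Or.inr ⟨a3.trans (Real.exp_le_exp.2 ?_), hz⟩)
        apply div_le_div_of_nonneg_right _ hK.le
        rw [hy']
        linarith
  have e1 : Real.exp (-((r * y + A) / B)) * (Real.exp (A / B) * Real.exp (r * y / B)) = 1 := by
    rw [← Real.exp_add, ← Real.exp_add, Real.exp_eq_one_iff]
    ring
  calc ph r (-A) K y ^ 2
      = ph r (-A) K y ^ 2 * Real.exp (-((r * y + A) / B))
        * (Real.exp (A / B) * Real.exp (r * y / B)) := by rw [mul_assoc, e1, mul_one]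
    _ ≤ 3 * Real.exp (-(r0 / (A + K) * |y|)) * (Real.exp (A / B) * (4 * pM r A K B y)) := by
        refine mul_le_mul key ?_ (by positivity) (by positivity)
        exact mul_le_mul_of_nonneg_left (by linarith) (Real.exp_pos _).le
    _ = _ := by ring

theorem right_BdJ {r A K B r0 : ℝ} (h : WP r A K B) (h0 : 0 < r0) (hr : r0 ≤ r) {y : ℝ}
    (hy : 0 ≤ y) : (1 - ph r A K y) ^ 2
      ≤ 12 * Real.exp (A / B) * Real.exp (-(r0 / (A + K) * |y|)) * pM r A K B y := by
  have hK := h.K_pos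
  have hB := h.B_pos
  have hA := h.hA
  have hy' : |y| = y := abs_of_nonneg hy
  have hp := ph_pos r A K y
  have hp1 := ph_lt_one r A K y
  have hW := h.half_le_WW hy
  have hrr : r0 * y ≤ r * y := mul_le_mul_of_nonneg_right hr hy
  have key : 1 - ph r A K y ≤ 3 * Real.exp (-(r0 / (A + K) * |y|)) := by
    rcases le_total (r0 * |y|) A with hz | hz
    · exact min_le_BdJ h0 hA hK (Or.inl ⟨by linarith, hz⟩)
    · refine min_le_BdJ h0 hA hK (Or.inr ⟨(one_sub_P0_le_exp _).trans (Real.exp_le_exp.2 ?_), hz⟩)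
      rw [← neg_div]
      apply div_le_div_of_nonneg_right _ hK.le
      rw [hy']
      linarith
  have e1 : 1 ≤ Real.exp (A / B) := Real.one_le_exp (div_nonneg hA hB.le)
  have e2 : 1 - ph r A K y ≤ 2 * pM r A K B y := by
    unfold pM
    nlinarith
  have hpM := pM_pos r A K B y
  have hE := Real.exp_pos (-(r0 / (A + K) * |y|))
  calc (1 - ph r A K y) ^ 2 = (1 - ph r A K y) * (1 - ph r A K y) := sq _
    _ ≤ 3 * Real.exp (-(r0 / (A + K) * |y|)) * (2 * pM r A K B y) :=
        mul_le_mul key e2 (by linarith) (by positivity)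
    _ ≤ _ := by nlinarith [mul_pos hE hpM]

theorem pt_BdJ {r A K B r0 A' : ℝ} (h : WP r A K B) (h0 : 0 < r0) (hr : r0 ≤ r)
    (h1 : -A ≤ A') (h2 : A' ≤ A) (y : ℝ) :
    (rho y - mm * ph r A' K y) ^ 2 / pM r A K B y ≤ 512 * Real.exp (-(1 / 2 * |y|))
      + 24 * mm ^ 2 * Real.exp (A / B) * Real.exp (-(r0 / (A + K) * |y|)) := by
  have hK := h.K_pos
  have hpM := pM_pos r A K B y
  rw [div_le_iff₀ hpM]
  have hp := ph_pos r A' K y
  have hp1 := ph_lt_one r A' K y
  rcases le_total y 0 with hy | hy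
  · have a1 := env_BdJ h y (abs_rho_le hy)
    have a2 := left_BdJ h h0 hr hy
    have a3 : ph r A' K y ^ 2 ≤ ph r (-A) K y ^ 2 :=
      pow_le_pow_left₀ hp.le (ph_anti_BdJ hK h1 y) 2
    have a4 := mul_le_mul_of_nonneg_left (a3.trans a2) (sq_nonneg mm)
    nlinarith [sq_nonneg (rho y + mm * ph r A' K y)]
  · have a1 := env_BdJ h y (abs_rho_sub_le hy)
    have a2 := right_BdJ h h0 hr hy
    have a3 : (1 - ph r A' K y) ^ 2 ≤ (1 - ph r A K y) ^ 2 :=
      pow_le_pow_left₀ (by linarith) (by have := ph_anti_BdJ (r := r) hK h2 y; linarith) 2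
    have a4 := mul_le_mul_of_nonneg_left (a3.trans a2) (sq_nonneg mm)
    nlinarith [sq_nonneg ((rho y - mm) - mm * (1 - ph r A' K y))]

theorem static_BdJ {r A K B r0 A' : ℝ} (h : WP r A K B) (h0 : 0 < r0) (hr : r0 ≤ r)
    (h1 : -A ≤ A') (h2 : A' ≤ A) {e ey : ℝ → ℝ} (he : IsH1 e ey) :
    qJ r A' K e ^ 2 ≤ (2048 + 48 * mm ^ 2 * ((1 + K) / r0))
      * (Real.exp (2 * (A / B)) * (1 + A) ^ 2) * qD r A K B e ey := by
  have hK := h.K_pos
  have hB := h.B_pos
  have hA := h.hA
  have hT : 0 < A + K := by linarith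
  have hc : 0 < r0 / (A + K) := div_pos h0 hT
  have t := test_rho_ph h.hr hK A'
  have j1 := (ExpD.exp_neg_abs (c := 1 / 2) (by norm_num)).integrable
  have j2 := (ExpD.exp_neg_abs hc).integrable
  have j3 := (j1.const_mul 512).add (j2.const_mul (24 * mm ^ 2 * Real.exp (A / B)))
  have i0 : Integrable (fun y => e y * (rho y - mm * ph r A' K y)) :=
    integrable_mul2 he.1 t.e0.memLp
  have i1 : Integrable (fun y => pM r A K B y * e y ^ 2) :=
    integrable_bdd_mul (integrable_sq2 he.1) (bdd_pM r A K B)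
  have i1' : Integrable (fun y => pM r A K B y * (e y ^ 2 + ey y ^ 2)) :=
    integrable_bdd_mul ((integrable_sq2 he.1).add (integrable_sq2 he.2.1)) (bdd_pM r A K B)
  have i2 : Integrable (fun y => (rho y - mm * ph r A' K y) ^ 2 / pM r A K B y) := by
    refine j3.mono' ?_ (Eventually.of_forall fun y => ?_)
    · exact ((t.e0.1.pow 2).div (bdd_pM r A K B).1
        (fun y => (pM_pos r A K B y).ne')).aestronglyMeasurable
    · rw [Real.norm_eq_abs, abs_of_nonneg (div_nonneg (sq_nonneg _) (pM_pos r A K B y).le)]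
      exact pt_BdJ h h0 hr h1 h2 y
  have c1 := csd (w := pM r A K B) (f := e) (g := fun y => rho y - mm * ph r A' K y)
    (pM_pos r A K B) i0 i1 i2
  have c2 : ∫ y, pM r A K B y * e y ^ 2 ≤ qD r A K B e ey := by
    refine integral_mono i1 i1' fun y => ?_
    have := mul_nonneg (pM_pos r A K B y).le (sq_nonneg (ey y))
    simp only
    linarith
  have c3 : ∫ y, (rho y - mm * ph r A' K y) ^ 2 / pM r A K B y
      ≤ 2048 + 48 * mm ^ 2 * Real.exp (A / B) * ((A + K) / r0) := by
    refine (integral_mono i2 j3 (pt_BdJ h h0 hr h1 h2)).trans (le_of_eq ?_)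
    have := integral_add (j1.const_mul 512) (j2.const_mul (24 * mm ^ 2 * Real.exp (A / B)))
    simp only [Pi.add_apply]
    rw [this, integral_const_mul, integral_const_mul, integral_exp_neg_abs (by norm_num),
      integral_exp_neg_abs hc]
    field_simp
    ring
  have e1 : 1 ≤ Real.exp (A / B) := Real.one_le_exp (div_nonneg hA hB.le)
  have e2 : Real.exp (A / B) ≤ Real.exp (2 * (A / B)) :=
    Real.exp_le_exp.2 (by have := div_nonneg hA hB.le; linarith)
  have e3 : (A + K) / r0 ≤ (1 + K) / r0 * (1 + A) ^ 2 := by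
    rw [div_mul_eq_mul_div]
    apply div_le_div_of_nonneg_right _ h0.le
    nlinarith [mul_nonneg hA hK.le, sq_nonneg A, mul_nonneg hK.le (sq_nonneg A)]
  have e4 : 1 ≤ Real.exp (2 * (A / B)) * (1 + A) ^ 2 :=
    one_le_mul_of_one_le_of_one_le (e1.trans e2) (by nlinarith)
  have e5 : Real.exp (A / B) * ((A + K) / r0)
      ≤ Real.exp (2 * (A / B)) * ((1 + K) / r0 * (1 + A) ^ 2) :=
    mul_le_mul e2 e3 (by positivity) (by positivity)
  have c4 : 2048 + 48 * mm ^ 2 * Real.exp (A / B) * ((A + K) / r0)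
      ≤ (2048 + 48 * mm ^ 2 * ((1 + K) / r0)) * (Real.exp (2 * (A / B)) * (1 + A) ^ 2) := by
    have := mul_le_mul_of_nonneg_left e5 (sq_nonneg mm)
    nlinarith
  have n1 : 0 ≤ ∫ y, (rho y - mm * ph r A' K y) ^ 2 / pM r A K B y :=
    integral_nonneg fun y => div_nonneg (sq_nonneg _) (pM_pos r A K B y).le
  have n2 := qD_nonneg r A K B e ey
  unfold qJ
  refine c1.trans ?_
  rw [mul_comm _ (qD r A K B e ey)]
  exact mul_le_mul c2 (c3.trans c4) n1 n2

theorem bdJ : BdJStmt := by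
  intro X B hB
  obtain ⟨C, hC0, hC⟩ := X.exp_log_le_Lm hB
  refine ⟨2 * ((2048 + 48 * mm ^ 2 * ((1 + X.K) / X.r0)) * C), ?_⟩
  filter_upwards [X.ev_gt] with s hs
  have hw := X.wp hs hB
  have hA := hw.hA
  have hK := X.K_pos
  have h0 := X.r0_pos
  have a1 := static_BdJ hw h0 (X.r_ge hs) (A' := X.A s) (by linarith) le_rfl (X.h1 hs)
  have a2 := static_BdJ hw h0 (X.r_ge hs) (A' := -X.A s) le_rfl (by linarith) (X.h1 hs)
  have a3 := hC s (X.one_lt hs).le
  have n2 := X.D_nonneg B s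
  have a4 : (2048 + 48 * mm ^ 2 * ((1 + X.K) / X.r0))
      * (Real.exp (2 * (X.A s / B)) * (1 + X.A s) ^ 2) * X.D B s
      ≤ (2048 + 48 * mm ^ 2 * ((1 + X.K) / X.r0)) * (C * Lm s) * X.D B s :=
    mul_le_mul_of_nonneg_right (mul_le_mul_of_nonneg_left a3 (by positivity)) n2
  unfold Dat.JR Dat.JL
  unfold Dat.D at a4 ⊢
  nlinarith

end Pool.Agent.MP_8339a4_an

end

section

/-! Static bounds on `D`, `MM - 2 μ` and `Nw`. -/

open MeasureTheory Filter Topology Set

namespace Pool.Agent.MP_8339a4_an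

theorem intD_BdM (r A K B : ℝ) {e ey : ℝ → ℝ} (he : IsH1 e ey) :
    Integrable (fun y => pM r A K B y * (e y ^ 2 + ey y ^ 2)) :=
  integrable_bdd_mul ((integrable_sq2 he.1).add (integrable_sq2 he.2.1)) (bdd_pM r A K B)

theorem qD_le_BdM (r A K B : ℝ) {e ey : ℝ → ℝ} (he : IsH1 e ey) :
    qD r A K B e ey ≤ Real.exp (A / B) * ((∫ y, e y ^ 2) + ∫ y, ey y ^ 2) := by
  have i1 := integrable_sq2 he.1
  have i2 := integrable_sq2 he.2.1
  rw [← integral_add i1 i2, ← integral_const_mul]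
  refine integral_mono (intD_BdM r A K B he) ((i1.add i2).const_mul _) fun y => ?_
  exact mul_le_mul_of_nonneg_right ((pM_le_WW r A K B y).trans (WW_le r A B y)) (by positivity)

theorem tiny_BdM {r A K B : ℝ} (h : WP r A K B) (y : ℝ) {e : ℝ} (he : |e| ≤ 1) :
    |((Q y + e) ^ 2 - e ^ 2) * (ph r (-A) K y - ph r A K y - 1)|
      ≤ 8 * Real.exp (-(A / K)) * (Real.exp (|y| / 10) * (1 + y ^ 2) * Q y) := by
  have h1 := abs_sq_sub_le y he
  have h2 := ph_le_tiny h.hr h.hK A y
  have h3 := one_sub_chi_le_tiny h.hr h.hK A y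
  have h4 := ph_pos r A K y
  have h5 := ph_lt_one r (-A) K y
  have hq := Q_pos y
  have hE := Real.exp_pos (-(A / K))
  have h6 : Real.exp (|y| / 100) ≤ Real.exp (|y| / 10) * (1 + y ^ 2) := by
    have a1 : Real.exp (|y| / 100) ≤ Real.exp (|y| / 10) :=
      Real.exp_le_exp.mpr (by have := abs_nonneg y; linarith)
    have a2 := Real.exp_pos (|y| / 10)
    nlinarith [sq_nonneg y]
  have h7 : |ph r (-A) K y - ph r A K y - 1|
      ≤ 2 * (Real.exp (-(A / K)) * (Real.exp (|y| / 10) * (1 + y ^ 2))) := by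
    have a3 := mul_le_mul_of_nonneg_left h6 hE.le
    rw [abs_le]
    constructor <;> linarith
  rw [abs_mul]
  calc |(Q y + e) ^ 2 - e ^ 2| * |ph r (-A) K y - ph r A K y - 1|
      ≤ (4 * Q y) * (2 * (Real.exp (-(A / K)) * (Real.exp (|y| / 10) * (1 + y ^ 2)))) :=
        mul_le_mul h1 h7 (abs_nonneg _) (by positivity)
    _ = _ := by ring

theorem qM_BdM {r A K B : ℝ} (h : WP r A K B) {e ey : ℝ → ℝ} (he : IsH1 e ey)
    (h1 : ∀ y, |e y| ≤ 1) :
    |qM r A K e - 2 * mu e|
      ≤ 4 * Real.exp (A / B) * qD r A K B e ey + 160 * Real.exp (-(A / K)) := by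
  have bw : Bdd (fun y => ph r (-A) K y - ph r A K y) := (bdd_ph r (-A) K).sub (bdd_ph r A K)
  have bw1 : Bdd (fun y => ph r (-A) K y - ph r A K y - 1) := bw.sub (Bdd.const 1)
  have iU : Integrable (fun y => (Q y + e y) ^ 2) := integrable_sq2 (isH1_Q.add he).1
  have ie : Integrable (fun y => e y ^ 2) := integrable_sq2 he.1
  have iQ : Integrable (fun y => Q y ^ 2) := integrable_sq2 expD_Q.memLp
  have ieQ : Integrable (fun y => e y * Q y) := integrable_mul2 he.1 expD_Q.memLp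
  have j0 := integrable_mul_bdd iU bw
  have j1 := integrable_mul_bdd ie bw
  have j2 : Integrable (fun y => ((Q y + e y) ^ 2 - e y ^ 2)
      * (ph r (-A) K y - ph r A K y - 1)) := integrable_mul_bdd (iU.sub ie) bw1
  have key : qM r A K e - 2 * mu e = (∫ y, e y ^ 2 * (ph r (-A) K y - ph r A K y))
      + ∫ y, ((Q y + e y) ^ 2 - e y ^ 2) * (ph r (-A) K y - ph r A K y - 1) := by
    have j3 : Integrable (fun y => (Q y + e y) ^ 2 * (ph r (-A) K y - ph r A K y) - Q y ^ 2) :=
      j0.sub iQ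
    unfold qM mu
    rw [← integral_sub j0 iQ, ← integral_const_mul, ← integral_sub j3 (ieQ.const_mul 2),
      ← integral_add j1 j2]
    refine integral_congr_ae (Eventually.of_forall fun y => ?_)
    simp only
    ring
  have b1 : 0 ≤ ∫ y, e y ^ 2 * (ph r (-A) K y - ph r A K y) :=
    integral_nonneg fun y => mul_nonneg (sq_nonneg _) (h.chi_sub_nonneg y)
  have b2 : (∫ y, e y ^ 2 * (ph r (-A) K y - ph r A K y))
      ≤ 4 * Real.exp (A / B) * qD r A K B e ey := by
    unfold qD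
    rw [← integral_const_mul]
    refine integral_mono j1 ((intD_BdM r A K B he).const_mul _) fun y => ?_
    have a1 := h.chi_sub_le y
    have a2 : 0 ≤ 4 * Real.exp (A / B) * pM r A K B y := by
      have := pM_pos r A K B y
      positivity
    have a3 := mul_le_mul_of_nonneg_left a1 (sq_nonneg (e y))
    have a4 := mul_nonneg a2 (sq_nonneg (ey y))
    simp only
    nlinarith
  have b3 : |∫ y, ((Q y + e y) ^ 2 - e y ^ 2) * (ph r (-A) K y - ph r A K y - 1)|
      ≤ 160 * Real.exp (-(A / K)) := by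
    refine abs_integral_le_integral_abs.trans ?_
    have a1 : (∫ y, |((Q y + e y) ^ 2 - e y ^ 2) * (ph r (-A) K y - ph r A K y - 1)|)
        ≤ ∫ y, 8 * Real.exp (-(A / K)) * (Real.exp (|y| / 10) * (1 + y ^ 2) * Q y) :=
      integral_mono j2.abs (expD_env.integrable.const_mul _) fun y => tiny_BdM h y (h1 y)
    rw [integral_const_mul] at a1
    have a2 := integral_env_le
    have a3 := Real.exp_pos (-(A / K))
    nlinarith
  rw [key]
  have b4 := abs_le.mp b3
  have a3 := Real.exp_pos (-(A / K))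
  rw [abs_le]
  constructor <;> linarith [b4.1, b4.2]

theorem P1_le_BdM {r A K B r1 : ℝ} (h : WP r A K B) (hr : r ≤ r1) (y : ℝ) :
    P1 (y / (B / r1)) ≤ 4 * pM r A K B y + 8 * (ph r A K y * P1 ((r * y - A) / B)) := by
  have hB := h.B_pos
  have hr0 := h.hr
  have hr1 : 0 < r1 := hr0.trans_le hr
  have e1 : |y / (B / r1)| = r1 * |y| / B := by
    rw [abs_div, abs_of_pos (div_pos hB hr1)]
    field_simp
  have h0 := P1_le_exp (y / (B / r1))
  rw [e1] at h0
  have p1 := pM_pos r A K B y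
  have p2 := ph_pos r A K y
  have p3 := P1_pos ((r * y - A) / B)
  have q1 : r * |y| ≤ r1 * |y| := mul_le_mul_of_nonneg_right hr (abs_nonneg y)
  rcases le_total (r * y) A with hy | hy
  · have a1 := h.pM_left hy
    have a2 : Real.exp (-(r1 * |y| / B)) ≤ Real.exp (r * y / B) := by
      refine Real.exp_le_exp.mpr ?_
      rw [← neg_div]
      refine div_le_div_of_nonneg_right ?_ hB.le
      have := mul_le_mul_of_nonneg_left (neg_abs_le y) hr0.le
      linarith
    have := mul_pos p2 p3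
    linarith
  · have a1 := half_le_ph h.K_pos hy
    have a2 : Real.exp (-(r1 * |y| / B)) ≤ Real.exp (-|(r * y - A) / B|) := by
      refine Real.exp_le_exp.mpr (neg_le_neg ?_)
      rw [abs_of_nonneg (div_nonneg (sub_nonneg.mpr hy) hB.le)]
      refine div_le_div_of_nonneg_right ?_ hB.le
      have := mul_le_mul_of_nonneg_left (le_abs_self y) hr0.le
      have := h.hA
      linarith
    have a3 := exp_le_P1 ((r * y - A) / B)
    have a4 := mul_le_mul_of_nonneg_right a1 p3.le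
    linarith

theorem Nw_BdM {r A K B r1 : ℝ} (h : WP r A K B) (hr : r ≤ r1) {e ey : ℝ → ℝ}
    (he : IsH1 e ey) :
    Nw (B / r1) e ey ≤ 4 * qD r A K B e ey
      + 8 * (∫ y, ph r A K y * P1 ((r * y - A) / B) * e y ^ 2) + 2 * qK r A K ey := by
  have i1 := integrable_sq2 he.1
  have i2 := integrable_sq2 he.2.1
  have bP : Bdd (fun y => P1 (y / (B / r1))) := expD_P1.bdd.comp (by fun_prop)
  have bP2 : Bdd (fun y => ph r A K y * P1 ((r * y - A) / B)) :=
    (bdd_ph r A K).mul (expD_P1.bdd.comp (by fun_prop))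
  have j0 : Integrable (fun y => P1 (y / (B / r1)) * (e y ^ 2 + ey y ^ 2)) :=
    integrable_bdd_mul (i1.add i2) bP
  have j1 := (intD_BdM r A K B he).const_mul 4
  have j2 : Integrable (fun y => 8 * (ph r A K y * P1 ((r * y - A) / B) * e y ^ 2)) :=
    (integrable_bdd_mul i1 bP2).const_mul 8
  have j3 : Integrable (fun y => 2 * (ph r A K y * ey y ^ 2)) :=
    (integrable_bdd_mul i2 (bdd_ph r A K)).const_mul 2
  have j4 : Integrable (fun y => 4 * (pM r A K B y * (e y ^ 2 + ey y ^ 2))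
      + 8 * (ph r A K y * P1 ((r * y - A) / B) * e y ^ 2)) := j1.add j2
  unfold Nw qD qK
  rw [← integral_const_mul, ← integral_const_mul, ← integral_const_mul, ← integral_add j1 j2,
    ← integral_add j4 j3]
  refine integral_mono j0 (j4.add j3) fun y => ?_
  have a1 := mul_le_mul_of_nonneg_right (P1_le_BdM h hr y)
    (add_nonneg (sq_nonneg (e y)) (sq_nonneg (ey y)))
  have a2 := mul_le_mul_of_nonneg_left (P1_le_quarter ((r * y - A) / B))
    (mul_nonneg (ph_pos r A K y).le (sq_nonneg (ey y)))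
  simp only
  nlinarith

theorem bdM : BdMStmt := by
  intro X B hB
  have hB0 : 0 < B := by have := X.CA_pos; linarith
  obtain ⟨Cz, hCz, hz⟩ := X.zl hB0
  have hM := X.M_nonneg
  refine ⟨X.M + 1 + 160 + (8 * Cz + 2), ?_⟩
  filter_upwards [X.ev_gt, X.ev_sup one_pos, X.ev_ey one_pos] with s hs h1 h2
  have w := X.wp hs hB
  have he := X.h1 hs
  have hs1 := (X.one_lt hs).le
  have hL := X.exp_le_Lm hB hs1
  have hL1 := one_le_Lm hs1
  have hτ := X.exp_le_tau hs1
  have hτ0 := (X.tau_pos (by linarith : (0 : ℝ) < s)).le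
  have hD := X.D_nonneg B s
  have hK := X.Kf_nonneg s
  have h6 := X.k6_nonneg s
  have hE := Real.exp_pos (X.A s / B)
  refine ⟨?_, ?_, ?_⟩
  · have a1 := qD_le_BdM (X.r s) (X.A s) X.K B he
    have a2 := X.st.mass s hs
    have a3 : Real.exp (X.A s / B) * ((∫ y, X.e s y ^ 2) + ∫ y, X.ey s y ^ 2)
        ≤ Real.exp (X.A s / B) * (X.M + 1) :=
      mul_le_mul_of_nonneg_left (by linarith) hE.le
    have a4 : Real.exp (X.A s / B) * (X.M + 1) ≤ Lm s * (X.M + 1) :=
      mul_le_mul_of_nonneg_right hL (by linarith)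
    have a5 : 0 ≤ (160 + (8 * Cz + 2)) * Lm s := by positivity
    change qD (X.r s) (X.A s) X.K B (X.e s) (X.ey s) ≤ _
    nlinarith
  · have a1 := qM_BdM w he h1
    change |X.MM s - 2 * X.μ s| ≤ 4 * Real.exp (X.A s / B) * X.D B s
      + 160 * Real.exp (-(X.A s / X.K)) at a1
    have a2 := mul_le_mul_of_nonneg_right hL hD
    have a3 : 0 ≤ Lm s * X.D B s := by positivity
    have a4 : 0 ≤ (X.M + 1 + (8 * Cz + 2)) * (Lm s * X.D B s + X.tau s) := by positivity
    nlinarith
  · have a1 := Nw_BdM w (X.r_le hs) he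
    change Nw (B / X.r1) (X.e s) (X.ey s) ≤ 4 * X.D B s
      + 8 * (∫ y, ph (X.r s) (X.A s) X.K y * P1 ((X.r s * y - X.A s) / B) * X.e s y ^ 2)
      + 2 * X.Kf s at a1
    have a2 := hz s hs
    have a3 := sq_nonneg (X.a s)
    have a4 : 0 ≤ (X.M + 1 + 160) * (X.a s ^ 2 + X.Kf s + X.k6 s + X.tau s) := by positivity
    have a5 : 0 ≤ Cz * (X.k6 s + X.tau s) := by positivity
    unfold Dat.Z
    nlinarith

end Pool.Agent.MP_8339a4_an

end

section

/-! The quantity `μ = ∫ e Q` tends to zero and its derivative is quadratic. -/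

open MeasureTheory Filter Topology Set

namespace Pool.Agent.MP_8339a4_an

theorem static_MuJ {e ey : ℝ → ℝ} (h : IsH1 e ey) (he : ∀ y, |e y| ≤ 1)
    (ho : ∫ y, e y * Q1 y = 0) (β γ : ℝ) :
    |rhs0 β γ e Q Q1 Q3| ≤ β ^ 2 + 90 * N0 e := by
  have cQ : Continuous Q := expD_Q.1
  have ce : Continuous e := h.continuous
  have iN : Integrable fun y => Q y * e y ^ 2 := integrable_bdd_mul (integrable_sq2 h.1) expD_Q.bdd
  have bN : ∀ y, ‖NN y (e y) * Q1 y‖ ≤ 50 * (Q y * e y ^ 2) := fun y => by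
    rw [Real.norm_eq_abs, abs_mul]
    have := mul_le_mul (abs_NN_le y (he y)) (abs_Q1_le y) (abs_nonneg _) (by positivity)
    linarith
  have cN : Continuous fun y => NN y (e y) * Q1 y := by
    refine Continuous.mul ?_ expD_Q1.1
    unfold NN
    fun_prop
  have i1 : Integrable fun y => NN y (e y) * Q1 y :=
    (iN.const_mul 50).mono' cN.aestronglyMeasurable (ae_of_all _ bN)
  have i2 : Integrable fun y => Q y * LQ y := integrable_mul2 expD_Q.memLp expD_LQ.memLp
  have i3 : Integrable fun y => Q y * Q1 y := integrable_mul2 expD_Q.memLp expD_Q1.memLp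
  have i4 : Integrable fun y => e y * LQ y := integrable_mul2 h.1 expD_LQ.memLp
  have i5 : Integrable fun y => e y * Q1 y := integrable_mul2 h.1 expD_Q1.memLp
  have e1 : rhs0 β γ e Q Q1 Q3 = (∫ y, NN y (e y) * Q1 y) + β * ∫ y, e y * LQ y := by
    have e2 : rhs0 β γ e Q Q1 Q3 = ∫ y, (NN y (e y) * Q1 y - β * (Q y * LQ y) + γ * (Q y * Q1 y)
        + β * (e y * LQ y) - γ * (e y * Q1 y)) := by
      unfold rhs0
      refine integral_congr_ae (ae_of_all _ fun y => ?_)
      have := L_Q1 y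
      dsimp only
      rw [show Q3 y - Q1 y + V y * Q1 y = 0 by linarith, show Q y / 2 + y * Q1 y = LQ y from rfl]
      ring
    have j1 : Integrable fun y => NN y (e y) * Q1 y - β * (Q y * LQ y) := i1.sub (i2.const_mul _)
    have j2 : Integrable fun y => NN y (e y) * Q1 y - β * (Q y * LQ y) + γ * (Q y * Q1 y) :=
      j1.add (i3.const_mul _)
    have j3 : Integrable fun y => NN y (e y) * Q1 y - β * (Q y * LQ y) + γ * (Q y * Q1 y)
        + β * (e y * LQ y) := j2.add (i4.const_mul _)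
    rw [e2, integral_sub j3 (i5.const_mul _), integral_add j2 (i4.const_mul _),
      integral_add j1 (i3.const_mul _), integral_sub i1 (i2.const_mul _)]
    simp only [integral_const_mul, integral_Q_LQ, integral_Q_Q1, ho]
    ring
  have b1 : |∫ y, NN y (e y) * Q1 y| ≤ 50 * N0 e := by
    have := norm_integral_le_of_norm_le (iN.const_mul 50) (ae_of_all _ bN)
    rwa [integral_const_mul] at this
  have b2 : (∫ y, e y * LQ y) ^ 2 ≤ 40 * 1 ^ 2 * N0 e :=
    sq_integral_le_N0 h.1 expD_LQ.1 fun y => by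
      have h1 : 1 ≤ Real.exp (|y| / 20) := Real.one_le_exp (by positivity)
      have h2 : 0 ≤ (1 + |y|) * Q y := mul_nonneg (by positivity) (Q_pos y).le
      nlinarith [abs_LQ_le y]
  rw [e1, abs_le]
  rw [abs_le] at b1
  have n0 := N0_nonneg e
  constructor
  · nlinarith [sq_nonneg (β + ∫ y, e y * LQ y), sq_nonneg β]
  · nlinarith [sq_nonneg (β - ∫ y, e y * LQ y), sq_nonneg β]

theorem muJ : MuStmt := by
  intro X
  constructor
  · have h1 : Tendsto (fun s => Real.sqrt (4 * N0 (X.e s))) atTop (𝓝 0) := by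
      simpa using (X.st.n0.const_mul 4).sqrt
    refine squeeze_zero_norm' ?_ h1
    filter_upwards [X.ev_gt] with s hs
    exact Real.abs_le_sqrt (mu_sq_le (X.h1 hs).1)
  · obtain ⟨C, -, hC⟩ := X.par_le
    refine ⟨C + 90, ?_⟩
    filter_upwards [X.ev_gt, X.ev_sup one_pos] with s hs he
    have fl := X.st.flow s hs
    refine ⟨_, fl.d0 Q Q1 Q2 Q3 test_Q, ?_⟩
    have := static_MuJ (X.h1 hs) he fl.orth.self_of_nhds.2 (X.β s) (X.γ s)
    have h2 := hC s hs
    rw [one_mul]
    unfold Dat.N at *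
    nlinarith [sq_nonneg (X.γ s)]

end Pool.Agent.MP_8339a4_an

end
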