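import Pool.Agent.Mg.F8339a4.Gaa52d0
import Pool.Agent.Mg.F8339a4.G100cd9

section

/-! Tools for the existence of modulation parameters. -/

open MeasureTheory Filter Topology Set

namespace Pool.Agent.MP_8339a4_an

noncomputable section

/-- Zeros of maps close to the identity. -/
theorem ift_ModA {l : Filter ℝ} (F : ℝ → ℝ × ℝ → ℝ × ℝ) (x0 : ℝ × ℝ) {δ : ℝ} (hδ : 0 < δ)
    (hA : ∀ᶠ t in l, ∀ x ∈ Metric.closedBall x0 δ, ∀ y ∈ Metric.closedBall x0 δ,
      ‖F t y - F t x - (y - x)‖ ≤ 1 / 2 * ‖y - x‖)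
    (h0 : Tendsto (fun t => F t x0) l (𝓝 0)) :
    ∃ x : ℝ → ℝ × ℝ, Tendsto x l (𝓝 x0) ∧ ∀ᶠ t in l, x t ∈ Metric.closedBall x0 δ ∧
      F t (x t) = 0 ∧ ∀ y ∈ Metric.closedBall x0 δ, ‖x t - y‖ ≤ 2 * ‖F t y‖ := by
  have h1 : ∀ᶠ t in l, ‖F t x0‖ < δ / 2 := by
    have := h0.norm
    rw [norm_zero] at this
    exact this.eventually (gt_mem_nhds (half_pos hδ))
  have key : ∀ t, ∃ x : ℝ × ℝ, ((∀ x ∈ Metric.closedBall x0 δ, ∀ y ∈ Metric.closedBall x0 δ,
      ‖F t y - F t x - (y - x)‖ ≤ 1 / 2 * ‖y - x‖) ∧ ‖F t x0‖ < δ / 2) →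
      x ∈ Metric.closedBall x0 δ ∧ F t x = 0 ∧
        ∀ y ∈ Metric.closedBall x0 δ, ‖x - y‖ ≤ 2 * ‖F t y‖ := by
    intro t
    by_cases h : (∀ x ∈ Metric.closedBall x0 δ, ∀ y ∈ Metric.closedBall x0 δ,
      ‖F t y - F t x - (y - x)‖ ≤ 1 / 2 * ‖y - x‖) ∧ ‖F t x0‖ < δ / 2
    swap
    · exact ⟨x0, fun h' => absurd h' h⟩
    have h2 : ApproximatesLinearOn (F t) (ContinuousLinearMap.id ℝ (ℝ × ℝ))
        (Metric.closedBall x0 δ) (1 / 2) := by
      intro x hx y hy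
      simpa using h.1 y hy x hx
    obtain ⟨x, hx, hx0⟩ := h2.surjOn_closedBall_of_nonlinearRightInverse
      ⟨id, 1, by simp, by simp⟩ hδ.le subset_rfl (show (0 : ℝ × ℝ) ∈ _ by
        rw [Metric.mem_closedBall, dist_zero_left]
        have := h.2
        push_cast
        linarith)
    refine ⟨x, fun _ => ⟨hx, hx0, fun y hy => ?_⟩⟩
    have h3 := h.1 y hy x hx
    rw [hx0] at h3
    have h4 : ‖x - y‖ ≤ ‖0 - F t y - (x - y)‖ + ‖F t y‖ := by
      have : x - y = -(0 - F t y - (x - y)) - F t y := by abel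
      calc ‖x - y‖ = ‖-(0 - F t y - (x - y)) - F t y‖ := by rw [← this]
        _ ≤ ‖-(0 - F t y - (x - y))‖ + ‖F t y‖ := norm_sub_le _ _
        _ = _ := by rw [norm_neg]
    linarith
  choose x hx using key
  have h5 := (hA.and h1).mono fun t ht => hx t ht
  refine ⟨x, ?_, h5⟩
  rw [tendsto_iff_norm_sub_tendsto_zero]
  refine squeeze_zero' (Eventually.of_forall fun _ => norm_nonneg _)
    (h5.mono fun t ht => ht.2.2 x0 (Metric.mem_closedBall_self hδ.le)) ?_
  simpa using h0.norm.const_mul 2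

/-- Mean value inequality along segments. -/
theorem seg_ModA (H Ha Hb : ℝ × ℝ → ℝ) (S : Set (ℝ × ℝ)) (hS : Convex ℝ S)
    (hd : ∀ (p q : ℝ → ℝ) (p' q' s : ℝ), HasDerivAt p p' s → HasDerivAt q q' s →
      (p s, q s) ∈ S →
      HasDerivAt (fun z => H (p z, q z)) (Ha (p s, q s) * p' + Hb (p s, q s) * q') s)
    (α β ε : ℝ) (hab : ∀ x ∈ S, |Ha x - α| ≤ ε ∧ |Hb x - β| ≤ ε) :
    ∀ x ∈ S, ∀ y ∈ S, |H y - H x - (α * (y.1 - x.1) + β * (y.2 - x.2))| ≤ 2 * ε * ‖y - x‖ := by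
  intro x hx y hy
  set d1 := y.1 - x.1 with hd1
  set d2 := y.2 - x.2 with hd2
  have hm : ∀ s ∈ Icc (0 : ℝ) 1, (x.1 + s * d1, x.2 + s * d2) ∈ S := by
    intro s hs
    have := hS.add_smul_sub_mem hx hy hs
    exact this
  have hp : ∀ c d s : ℝ, HasDerivAt (fun z => c + z * d) d s := fun c d s => by
    simpa using ((hasDerivAt_id s).mul_const d).const_add c
  have h1 := norm_image_sub_le_of_norm_deriv_le_segment_01'
    (f := fun s => H (x.1 + s * d1, x.2 + s * d2) - s * (α * d1 + β * d2))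
    (f' := fun s => Ha (x.1 + s * d1, x.2 + s * d2) * d1 + Hb (x.1 + s * d1, x.2 + s * d2) * d2
      - (α * d1 + β * d2)) (C := 2 * ε * ‖y - x‖)
    (fun s hs => by
      have h2 := (hd _ _ _ _ s (hp x.1 d1 s) (hp x.2 d2 s) (hm s hs)).sub
        ((hasDerivAt_id s).mul_const (α * d1 + β * d2))
      rw [one_mul] at h2
      exact h2.hasDerivWithinAt)
    (fun s hs => by
      obtain ⟨ha, hb⟩ := hab _ (hm s ⟨hs.1, hs.2.le⟩)
      have e1 : |d1| ≤ ‖y - x‖ := norm_fst_le (y - x)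
      have e2 : |d2| ≤ ‖y - x‖ := norm_snd_le (y - x)
      have e3 : Ha (x.1 + s * d1, x.2 + s * d2) * d1 + Hb (x.1 + s * d1, x.2 + s * d2) * d2
          - (α * d1 + β * d2) = (Ha (x.1 + s * d1, x.2 + s * d2) - α) * d1 +
            (Hb (x.1 + s * d1, x.2 + s * d2) - β) * d2 := by ring
      have e0 : 0 ≤ ε := (abs_nonneg _).trans ha
      rw [Real.norm_eq_abs, e3]
      refine (abs_add_le _ _).trans ?_
      rw [abs_mul, abs_mul]
      have e4 := mul_le_mul ha e1 (abs_nonneg _) e0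
      have e5 := mul_le_mul hb e2 (abs_nonneg _) e0
      linarith)
  have e6 : (x.1 + 1 * d1, x.2 + 1 * d2) = y := by
    ext <;> simp [hd1, hd2]
  have e7 : (x.1 + 0 * d1, x.2 + 0 * d2) = x := by
    ext <;> simp
  simp only [e6, e7, Real.norm_eq_abs] at h1
  convert h1 using 2
  ring

/-- Bounded in `L^2` and converging to `Q` in the weighted sense. -/
def WK_ModA {α : Type} (l : Filter α) (f : α → ℝ → ℝ) : Prop :=
  (∃ M : ℝ, ∀ᶠ z in l, MemLp (f z) 2 volume ∧ ∫ y, f z y ^ 2 ≤ M) ∧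
    ∀ c : ℝ, 0 < c → Tendsto (fun z => ∫ y, ((f z y - Q y) * Real.exp (-(c * |y|))) ^ 2) l (𝓝 0)

theorem WK_comp_ModA {α β : Type} {l : Filter α} {l' : Filter β} {f : α → ℝ → ℝ}
    (h : WK_ModA l f) {τ : β → α} (hτ : Tendsto τ l' l) : WK_ModA l' (fun z => f (τ z)) := by
  obtain ⟨⟨M, hM⟩, h2⟩ := h
  exact ⟨⟨M, hτ.eventually hM⟩, fun c hc => (h2 c hc).comp hτ⟩

theorem WK_of_loc_ModA {α : Type} {l : Filter α} {f : α → ℝ → ℝ} {M : ℝ}
    (hM : ∀ᶠ z in l, MemLp (f z) 2 volume ∧ ∫ y, f z y ^ 2 ≤ M)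
    (h : ∀ R : ℝ, 0 < R → Tendsto (fun z => ∫ y in (-R)..R, (f z y - Q y) ^ 2) l (𝓝 0)) :
    WK_ModA l f := by
  refine ⟨⟨M, hM⟩, fun c hc => ?_⟩
  set M' : ℝ := 2 * M + 2 * ∫ y, Q y ^ 2 with hM'
  rw [Metric.tendsto_nhds]
  intro ε hε
  have h1 : Tendsto (fun R : ℝ => Real.exp (-(c * R)) * M') atTop (𝓝 (0 * M')) :=
    (Real.tendsto_exp_neg_atTop_nhds_zero.comp (tendsto_id.const_mul_atTop hc)).mul_const M'
  rw [zero_mul] at h1
  obtain ⟨R, hR, hR0⟩ := ((h1.eventually (gt_mem_nhds (half_pos hε))).and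
    (eventually_gt_atTop 0)).exists
  filter_upwards [hM, (h R hR0).eventually (gt_mem_nhds (half_pos hε))] with z hz h2
  have m1 : MemLp (fun y => f z y - Q y) 2 volume := hz.1.sub expD_Q.memLp
  have i1 := integrable_sq2 m1
  have i2 := integrable_sq2 (memLp_mul_bdd m1 (ExpD.exp_neg_abs hc).bdd)
  have h3 : ∫ y, (f z y - Q y) ^ 2 ≤ M' := by
    calc ∫ y, (f z y - Q y) ^ 2 ≤ ∫ y, (2 * f z y ^ 2 + 2 * Q y ^ 2) :=
          integral_mono i1 (((integrable_sq2 hz.1).const_mul 2).add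
            ((integrable_sq2 expD_Q.memLp).const_mul 2)) fun y => by
              nlinarith [sq_nonneg (f z y + Q y)]
      _ = 2 * (∫ y, f z y ^ 2) + 2 * ∫ y, Q y ^ 2 := by
          rw [integral_add ((integrable_sq2 hz.1).const_mul 2)
            ((integrable_sq2 expD_Q.memLp).const_mul 2), integral_const_mul, integral_const_mul]
      _ ≤ M' := by linarith [hz.2]
  have h4 : ∫ y, ((f z y - Q y) * Real.exp (-(c * |y|))) ^ 2 ≤
      (∫ y in (-R)..R, (f z y - Q y) ^ 2) + Real.exp (-(c * R)) * ∫ y, (f z y - Q y) ^ 2 := by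
    rw [intervalIntegral.integral_of_le (by linarith), ← integral_indicator measurableSet_Ioc,
      ← integral_const_mul, ← integral_add (i1.indicator measurableSet_Ioc) (i1.const_mul _)]
    refine integral_mono i2 ((i1.indicator measurableSet_Ioc).add (i1.const_mul _)) fun y => ?_
    have e1 : Real.exp (-(c * |y|)) ≤ 1 := Real.exp_le_one_iff.2 (by
      have := mul_nonneg hc.le (abs_nonneg y)
      linarith)
    have e2 := Real.exp_pos (-(c * |y|))
    have e3 := Real.exp_pos (-(c * R))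
    have e4 := sq_nonneg (f z y - Q y)
    have e5 : Real.exp (-(c * |y|)) ^ 2 ≤ Real.exp (-(c * |y|)) := by nlinarith
    simp only [mul_pow]
    by_cases hy : y ∈ Ioc (-R) R
    · rw [indicator_of_mem hy]
      nlinarith [mul_nonneg e3.le e4, mul_le_mul_of_nonneg_left (e5.trans e1) e4]
    · rw [indicator_of_notMem hy]
      have e6 : R ≤ |y| := by
        rw [mem_Ioc, not_and_or, not_lt, not_le] at hy
        rcases hy with hy | hy
        · exact le_abs.2 (Or.inr (by linarith))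
        · exact le_abs.2 (Or.inl hy.le)
      have e7 : Real.exp (-(c * |y|)) ≤ Real.exp (-(c * R)) :=
        Real.exp_le_exp.2 (by nlinarith)
      nlinarith [mul_le_mul_of_nonneg_left (e5.trans e7) e4]
  have h5 : 0 ≤ ∫ y, ((f z y - Q y) * Real.exp (-(c * |y|))) ^ 2 :=
    integral_nonneg fun y => sq_nonneg _
  have h6 := mul_le_mul_of_nonneg_left h3 (Real.exp_pos (-(c * R))).le
  rw [Real.dist_eq, sub_zero, abs_of_nonneg h5]
  linarith

/-- Weak times strong convergence. -/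
theorem WS_ModA {α : Type} {l : Filter α} {f g : α → ℝ → ℝ} {g0 : ℝ → ℝ} (h : WK_ModA l f)
    (hg : L2T l g g0) (e0 : ExpD g0) :
    Tendsto (fun z => ∫ y, f z y * g z y) l (𝓝 (∫ y, Q y * g0 y)) := by
  obtain ⟨⟨M, hM⟩, h2⟩ := h
  obtain ⟨C, c, hc, hC⟩ := e0.2
  have hc2 : 0 < c / 2 := half_pos hc
  have e1 : ExpD fun y => g0 y * Real.exp (c / 2 * |y|) := by
    refine ⟨e0.1.mul (by fun_prop), C, c / 2, hc2, fun y => ?_⟩
    rw [abs_mul, abs_of_pos (Real.exp_pos _)]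
    calc |g0 y| * Real.exp (c / 2 * |y|) ≤ C * Real.exp (-(c * |y|)) * Real.exp (c / 2 * |y|) :=
          mul_le_mul_of_nonneg_right (hC y) (Real.exp_pos _).le
      _ = C * Real.exp (-(c / 2 * |y|)) := by
          rw [mul_assoc, ← Real.exp_add]
          congr 2
          ring
  rw [tendsto_iff_norm_sub_tendsto_zero]
  have h3 : Tendsto (fun z => Real.sqrt M * Real.sqrt (∫ y, (g z y - g0 y) ^ 2) +
      Real.sqrt (∫ y, ((f z y - Q y) * Real.exp (-(c / 2 * |y|))) ^ 2) *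
        Real.sqrt (∫ y, (g0 y * Real.exp (c / 2 * |y|)) ^ 2)) l (𝓝 0) := by
    have := (hg.2.2.sqrt.const_mul (Real.sqrt M)).add ((h2 _ hc2).sqrt.mul_const
      (Real.sqrt (∫ y, (g0 y * Real.exp (c / 2 * |y|)) ^ 2)))
    simpa using this
  refine squeeze_zero' (Eventually.of_forall fun _ => norm_nonneg _) ?_ h3
  filter_upwards [hM, hg.1] with z hz hz'
  have m1 : MemLp (fun y => g z y - g0 y) 2 volume := hz'.sub hg.2.1
  have m2 : MemLp (fun y => (f z y - Q y) * Real.exp (-(c / 2 * |y|))) 2 volume :=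
    memLp_mul_bdd (hz.1.sub expD_Q.memLp) (ExpD.exp_neg_abs hc2).bdd
  have h4 : (∫ y, f z y * g z y) - ∫ y, Q y * g0 y = (∫ y, f z y * (g z y - g0 y)) +
      ∫ y, ((f z y - Q y) * Real.exp (-(c / 2 * |y|))) * (g0 y * Real.exp (c / 2 * |y|)) := by
    rw [← integral_sub (integrable_mul2 hz.1 hz') (integrable_mul2 expD_Q.memLp hg.2.1),
      ← integral_add (integrable_mul2 hz.1 m1) (integrable_mul2 m2 e1.memLp)]
    refine integral_congr_ae (Eventually.of_forall fun y => ?_)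
    have e2 : Real.exp (-(c / 2 * |y|)) * Real.exp (c / 2 * |y|) = 1 := by
      rw [← Real.exp_add, neg_add_cancel, Real.exp_zero]
    simp only
    linear_combination (-(f z y - Q y) * g0 y) * e2
  rw [Real.norm_eq_abs, h4]
  refine (abs_add_le _ _).trans (add_le_add ((cs2_abs hz.1 m1).trans ?_) (cs2_abs m2 e1.memLp))
  exact mul_le_mul_of_nonneg_right (Real.sqrt_le_sqrt hz.2) (Real.sqrt_nonneg _)

/-- Pairing with a dilated and translated profile. -/
def GG_ModA (θ f : ℝ → ℝ) (x : ℝ × ℝ) : ℝ := ∫ y, f y * θ (x.1 ^ 2 * y + x.2)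

/-- The same with an extra factor `y`. -/
def GA_ModA (θ f : ℝ → ℝ) (x : ℝ × ℝ) : ℝ := ∫ y, f y * (y * θ (x.1 ^ 2 * y + x.2))

theorem deriv_ModA {θ θ1 f : ℝ → ℝ} (hθ : ∀ y, HasDerivAt θ (θ1 y) y) (e0 : ExpD θ)
    (e1 : ExpD θ1) (hf : MemLp f 2 volume) {p q : ℝ → ℝ} {p' q' s : ℝ} (hp : HasDerivAt p p' s)
    (hq : HasDerivAt q q' s) (h0 : p s ≠ 0) :
    HasDerivAt (fun z => GG_ModA θ f (p z, q z))
      (2 * p s * GA_ModA θ1 f (p s, q s) * p' + GG_ModA θ1 f (p s, q s) * q') s := by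
  have h1 : p s ^ 2 ≠ 0 := pow_ne_zero 2 h0
  have hp2 : HasDerivAt (fun z => p z ^ 2) (2 * p s * p') s := by
    simpa using hp.fun_pow 2
  have h2 := mov_l2 (ρ := fun _ => f) (L2T.const hf) (me_profile hθ e1 hp2 hq h1)
    (e0.comp_affine h1 (q s)).memLp (hasDerivAt_const s _)
  have m1 := (e1.comp_affine h1 (q s)).memLp
  have m2 := (e1.comp_affine h1 (q s)).id_mul.memLp
  refine h2.congr_deriv (Eq.symm ?_)
  unfold GA_ModA GG_ModA
  rw [zero_add, mul_assoc, mul_comm _ p', ← mul_assoc, ← integral_const_mul, mul_comm _ q',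
    ← integral_const_mul, ← integral_add ((integrable_mul2 hf m2).const_mul _)
      ((integrable_mul2 hf m1).const_mul _)]
  refine integral_congr_ae (Eventually.of_forall fun y => ?_)
  simp only
  ring

theorem l2_prof_ModA {α : Type} {l : Filter α} {x : α → ℝ × ℝ} (hx : Tendsto x l (𝓝 (1, 0)))
    {θ : ℝ → ℝ} (e0 : ExpD θ) : L2T l (fun z y => θ ((x z).1 ^ 2 * y + (x z).2)) θ := by
  have h1 : Tendsto (fun z => (x z).1 ^ 2) l (𝓝 1) := by
    simpa using ((continuous_fst.tendsto _).comp hx).pow 2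
  have h2 : Tendsto (fun z => (x z).2) l (𝓝 0) := (continuous_snd.tendsto _).comp hx
  exact ((L2T.const e0.memLp).comp_affine one_ne_zero h1 h2).congr
    (Eventually.of_forall fun _ _ => rfl) fun y => by simp

theorem GG_tendsto_ModA {α : Type} {l : Filter α} {f : α → ℝ → ℝ} (h : WK_ModA l f)
    {x : α → ℝ × ℝ} (hx : Tendsto x l (𝓝 (1, 0))) {θ : ℝ → ℝ} (e0 : ExpD θ) :
    Tendsto (fun z => GG_ModA θ (f z) (x z)) l (𝓝 (∫ y, Q y * θ y)) :=
  WS_ModA h (l2_prof_ModA hx e0) e0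

theorem GA_tendsto_ModA {α : Type} {l : Filter α} {f : α → ℝ → ℝ} (h : WK_ModA l f)
    {x : α → ℝ × ℝ} (hx : Tendsto x l (𝓝 (1, 0))) {θ : ℝ → ℝ} (e0 : ExpD θ) :
    Tendsto (fun z => GA_ModA θ (f z) (x z)) l (𝓝 (∫ y, Q y * (y * θ y))) := by
  have h1 : Tendsto (fun z => (x z).1 ^ 2) l (𝓝 1) := by
    simpa using ((continuous_fst.tendsto _).comp hx).pow 2
  have h2 : Tendsto (fun z => (x z).2) l (𝓝 0) := (continuous_snd.tendsto _).comp hx
  have h3 : ∀ᶠ z in l, (x z).1 ^ 2 ≠ 0 := h1.eventually_ne one_ne_zero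
  have h4 := ((l2_prof_ModA hx e0.id_mul).sub
    ((l2_prof_ModA hx e0).ut_mul (UT.of_tendsto h2))).ut_mul
      (UT.of_tendsto (h1.inv₀ one_ne_zero))
  refine WS_ModA h (h4.congr (h3.mono fun z hz y => ?_) fun y => by simp) e0.id_mul
  have hz' : (x z).1 ≠ 0 := fun h => hz (by simp [h])
  field_simp
  ring

end

end Pool.Agent.MP_8339a4_an

end

section

/-! Existence of continuous modulation parameters. -/

open MeasureTheory Filter Topology Set

namespace Pool.Agent.MP_8339a4_an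

noncomputable section

theorem int1_ModA : ∫ y, Q y * C0 y = ∫ y, Q y ^ 4 :=
  integral_congr_ae (Eventually.of_forall fun y => by simp only [C0]; ring)

theorem int2_ModA : ∫ y, Q y * (y * C1 y) = -(3 / 4 * ∫ y, Q y ^ 4) := by
  have h : ∀ y, Q y * (y * C1 y) = 3 * (LQ y * C0 y) - 3 / 2 * Q y ^ 4 := fun y => by
    simp only [C0, C1, LQ, Q1]
    ring
  simp only [h]
  rw [integral_sub ((integrable_mul2 expD_LQ.memLp expD_C0.memLp).const_mul _)
    ((expD_Q.pow 3).integrable.const_mul _), integral_const_mul, integral_const_mul,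
    integral_LQ_C0]
  ring

theorem int3_ModA : ∫ y, Q y * C1 y = 0 := by
  have h : ∀ y, Q y * C1 y = 3 * (Q1 y * C0 y) := fun y => by
    simp only [C0, C1, Q1]
    ring
  simp only [h]
  rw [integral_const_mul, integral_Q1_C0, mul_zero]

theorem int4_ModA : ∫ y, Q y * (y * Q2 y) = 0 := by
  have h := integral_neg_eq_self (fun y => Q y * (y * Q2 y)) volume
  have h1 : ∀ y, Q (-y) * (-y * Q2 (-y)) = -(Q y * (y * Q2 y)) := fun y => by
    simp only [Q2, Q_neg]
    ring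
  simp only [h1] at h
  rw [integral_neg] at h
  linarith

theorem int5_ModA : ∫ y, Q y * Q2 y = -∫ y, Q1 y ^ 2 := by
  have h := isH1_Q.ibp test_Q.h2
  simp only [← sq] at h
  linarith

/-- The normalised orthogonality conditions. -/
def FF_ModA (f : ℝ → ℝ) (x : ℝ × ℝ) : ℝ × ℝ :=
  ((x.1 * GG_ModA C0 f x - ∫ y, Q y ^ 4) / (-((∫ y, Q y ^ 4) / 2)),
    GG_ModA Q1 f x / (-∫ y, Q1 y ^ 2))

theorem ball_ModA {δ : ℝ} (hδ : δ ≤ 1 / 2) {x : ℝ × ℝ}
    (hx : x ∈ Metric.closedBall ((1 : ℝ), (0 : ℝ)) δ) : 0 < x.1 := by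
  have h1 : |x.1 - 1| ≤ ‖x - ((1 : ℝ), (0 : ℝ))‖ := norm_fst_le (x - ((1 : ℝ), (0 : ℝ)))
  rw [Metric.mem_closedBall, dist_eq_norm] at hx
  have := (abs_le.1 (h1.trans hx)).1
  linarith

theorem approx_ModA {l : Filter ℝ} {U : ℝ → ℝ → ℝ} (h : WK_ModA l U) :
    ∃ δ : ℝ, 0 < δ ∧ δ ≤ 1 / 2 ∧ ∀ᶠ t in l, ∀ x ∈ Metric.closedBall ((1 : ℝ), (0 : ℝ)) δ,
      ∀ y ∈ Metric.closedBall ((1 : ℝ), (0 : ℝ)) δ,
        ‖FF_ModA (U t) y - FF_ModA (U t) x - (y - x)‖ ≤ 1 / 2 * ‖y - x‖ := by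
  set k1 : ℝ := ∫ y, Q y ^ 4 with hk1
  set k2 : ℝ := ∫ y, Q1 y ^ 2 with hk2
  have p1 : k1 ≠ 0 := integral_Q4_pos.ne'
  have p2 : k2 ≠ 0 := integral_Q1_sq_pos.ne'
  have hw : WK_ModA (l ×ˢ 𝓝 ((1 : ℝ), (0 : ℝ))) (fun z => U z.1) := WK_comp_ModA h tendsto_fst
  have hx : Tendsto (fun z : ℝ × ℝ × ℝ => z.2) (l ×ˢ 𝓝 ((1 : ℝ), (0 : ℝ))) (𝓝 (1, 0)) :=
    tendsto_snd
  have hc : Tendsto (fun z : ℝ × ℝ × ℝ => z.2.1) (l ×ˢ 𝓝 ((1 : ℝ), (0 : ℝ))) (𝓝 1) :=
    (continuous_fst.tendsto _).comp hx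
  have t1 := ((GG_tendsto_ModA hw hx expD_C0).add
    (hc.mul ((hc.const_mul 2).mul (GA_tendsto_ModA hw hx expD_C1)))).div_const (-(k1 / 2))
  have t2 := (hc.mul (GG_tendsto_ModA hw hx expD_C1)).div_const (-(k1 / 2))
  have t3 := ((hc.const_mul 2).mul (GA_tendsto_ModA hw hx expD_Q2)).div_const (-k2)
  have t4 := (GG_tendsto_ModA hw hx expD_Q2).div_const (-k2)
  rw [int1_ModA, int2_ModA, ← hk1, show (k1 + 1 * (2 * 1 * -(3 / 4 * k1))) / -(k1 / 2) = 1 by
    field_simp; ring] at t1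
  rw [int3_ModA, mul_zero, zero_div] at t2
  rw [int4_ModA, mul_zero, zero_div] at t3
  rw [int5_ModA, ← hk2, div_self (neg_ne_zero.2 p2)] at t4
  have q : (0 : ℝ) < 1 / 4 := by norm_num
  obtain ⟨pa, hpa, ε, hε, hb⟩ := Metric.eventually_prod_nhds_iff.1
    (((Metric.tendsto_nhds.1 t1 _ q).and (Metric.tendsto_nhds.1 t2 _ q)).and
      ((Metric.tendsto_nhds.1 t3 _ q).and (Metric.tendsto_nhds.1 t4 _ q)))
  obtain ⟨M, hM⟩ := h.1
  refine ⟨min (ε / 2) (1 / 2), lt_min (half_pos hε) (by norm_num), min_le_right _ _, ?_⟩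
  filter_upwards [hpa, hM] with t ht hm x hx y hy
  have hin : ∀ x ∈ Metric.closedBall ((1 : ℝ), (0 : ℝ)) (min (ε / 2) (1 / 2)),
      dist x ((1 : ℝ), (0 : ℝ)) < ε := fun x hx =>
    lt_of_le_of_lt (hx.trans (min_le_left _ _)) (half_lt_self hε)
  have s1 := seg_ModA (fun x => (x.1 * GG_ModA C0 (U t) x - k1) / (-(k1 / 2)))
    (fun x => (GG_ModA C0 (U t) x + x.1 * (2 * x.1 * GA_ModA C1 (U t) x)) / (-(k1 / 2)))
    (fun x => x.1 * GG_ModA C1 (U t) x / (-(k1 / 2))) _ (convex_closedBall _ _)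
    (fun p q p' q' s hp hq hs => by
      have h0 := (ball_ModA (min_le_right _ _) hs).ne'
      refine (((hp.mul (deriv_ModA hasDerivAt_C0 expD_C0 expD_C1 hm.1 hp hq h0)).sub_const
        k1).div_const (-(k1 / 2))).congr_deriv ?_
      ring)
    1 0 (1 / 4) (fun x hx => by
      have := hb ht (hin x hx)
      exact ⟨this.1.1.le, this.1.2.le⟩) x hx y hy
  have s2 := seg_ModA (fun x => GG_ModA Q1 (U t) x / (-k2))
    (fun x => 2 * x.1 * GA_ModA Q2 (U t) x / (-k2))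
    (fun x => GG_ModA Q2 (U t) x / (-k2)) _ (convex_closedBall _ _)
    (fun p q p' q' s hp hq hs => by
      have h0 := (ball_ModA (min_le_right _ _) hs).ne'
      refine ((deriv_ModA hasDerivAt_Q1 expD_Q1 expD_Q2 hm.1 hp hq h0).div_const
        (-k2)).congr_deriv ?_
      ring)
    0 1 (1 / 4) (fun x hx => by
      have := hb ht (hin x hx)
      exact ⟨this.2.1.le, this.2.2.le⟩) x hx y hy
  rw [one_mul, zero_mul, add_zero] at s1
  rw [one_mul, zero_mul, zero_add] at s2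
  rw [Prod.norm_def, max_le_iff]
  constructor
  · exact le_trans s1 (le_of_eq (by ring))
  · exact le_trans s2 (le_of_eq (by ring))

theorem FF0_ModA {l : Filter ℝ} {U : ℝ → ℝ → ℝ} (h : WK_ModA l U) :
    Tendsto (fun t => FF_ModA (U t) (1, 0)) l (𝓝 0) := by
  have t1 := (((GG_tendsto_ModA h tendsto_const_nhds expD_C0).const_mul 1).sub_const
    (∫ y, Q y ^ 4)).div_const (-((∫ y, Q y ^ 4) / 2))
  have t2 := (GG_tendsto_ModA h tendsto_const_nhds expD_Q1).div_const (-∫ y, Q1 y ^ 2)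
  rw [int1_ModA, one_mul, sub_self, zero_div] at t1
  rw [integral_Q_Q1, zero_div] at t2
  exact t1.prodMk_nhds t2

theorem FFc_ModA {l : Filter ℝ} {U : ℝ → ℝ → ℝ} {g : ℝ → ℝ} (h : L2T l U g) {x : ℝ × ℝ}
    (hx : x.1 ≠ 0) : Tendsto (fun t => FF_ModA (U t) x) l (𝓝 (FF_ModA g x)) := by
  have h1 : ∀ θ, ExpD θ → Tendsto (fun t => GG_ModA θ (U t) x) l (𝓝 (GG_ModA θ g x)) :=
    fun θ e => (h.mul (L2T.const (e.comp_affine (pow_ne_zero 2 hx) x.2).memLp)).tendsto_integral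
  exact ((((h1 C0 expD_C0).const_mul x.1).sub_const _).div_const _).prodMk_nhds
    ((h1 Q1 expD_Q1).div_const _)

theorem N0_ModA {l : Filter ℝ} {U : ℝ → ℝ → ℝ} (h : WK_ModA l U) {a b s : ℝ → ℝ}
    (ha : Tendsto a l (𝓝 1)) (hb : Tendsto b l (𝓝 0)) (hs : Tendsto s l (𝓝 1)) :
    Tendsto (fun z => N0 (fun y => s z * U z (a z * y + b z) - Q y)) l (𝓝 0) := by
  obtain ⟨⟨M, hM⟩, h2⟩ := h
  have q : (0 : ℝ) < 1 / 4 := by norm_num
  have l1 : L2T l (fun z y => (U z y - Q y) * Real.exp (-(1 / 4 * |y|))) (fun _ => 0) :=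
    ⟨hM.mono fun z hz => memLp_mul_bdd (hz.1.sub expD_Q.memLp) (ExpD.exp_neg_abs q).bdd,
      ExpD.zero.memLp, by simpa only [sub_zero] using h2 _ q⟩
  have l2 := l1.comp_affine one_ne_zero ha hb
  have l3 := ((L2T.const expD_Q.memLp).comp_affine one_ne_zero ha hb).ut_mul (UT.of_tendsto hs)
  have t := (l2.2.2.const_mul (16 * Real.exp (1 / 2))).add (l3.2.2.const_mul (8 / 3))
  simp only [mul_zero, add_zero, sub_zero, one_mul] at t
  refine squeeze_zero' (Eventually.of_forall fun _ => N0_nonneg _) ?_ t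
  filter_upwards [hM, l2.1, l3.1, Metric.tendsto_nhds.1 ha 1 one_pos,
    Metric.tendsto_nhds.1 hb 1 one_pos, Metric.tendsto_nhds.1 hs 1 one_pos] with z hz m2 m3 e1 e2 e3
  rw [Real.dist_eq, abs_lt] at e1 e3
  rw [Real.dist_eq, sub_zero] at e2
  have a0 : a z ≠ 0 := by linarith [e1.1] |> fun h : 0 < a z => h.ne'
  have i2 := (integrable_sq2 m2).const_mul (16 * Real.exp (1 / 2))
  have i3 : Integrable fun y => 8 / 3 * (s z * Q (a z * y + b z) - Q y) ^ 2 := by
    simpa only [Pi.sub_apply] using (integrable_sq2 (m3.sub expD_Q.memLp)).const_mul (8 / 3)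
  have i1 : Integrable fun y => Q y * (s z * U z (a z * y + b z) - Q y) ^ 2 :=
    integrable_bdd_mul (integrable_sq2
      (((memLp_comp_affine hz.1 a0 (b z)).const_mul (s z)).sub expD_Q.memLp)) expD_Q.bdd
  unfold N0
  rw [← integral_const_mul, ← integral_const_mul, ← integral_add i2 i3]
  refine integral_mono i1 (i2.add i3) fun y => ?_
  have f1 : |a z * y + b z| ≤ 2 * |y| + 1 := by
    refine (abs_add_le _ _).trans ?_
    rw [abs_mul, abs_of_pos (by linarith : 0 < a z)]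
    nlinarith [abs_nonneg y]
  have f2 : Q y ≤ 2 * Real.exp (1 / 2) * Real.exp (-(1 / 4 * |a z * y + b z|)) ^ 2 := by
    refine (Q_le_exp y).trans ?_
    rw [sq, mul_assoc, ← Real.exp_add, ← Real.exp_add]
    exact mul_le_mul_of_nonneg_left (Real.exp_le_exp.2 (by linarith)) zero_le_two
  have f3 : s z ^ 2 ≤ 4 := by nlinarith
  have f4 := Q_le y
  have f5 := (Q_pos y).le
  simp only
  set A := U z (a z * y + b z) - Q (a z * y + b z) with hA
  set B := s z * Q (a z * y + b z) - Q y with hB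
  have f6 : s z * U z (a z * y + b z) - Q y = s z * A + B := by rw [hA, hB]; ring
  have f7 : (s z * A + B) ^ 2 ≤ 8 * A ^ 2 + 2 * B ^ 2 := by
    nlinarith [sq_nonneg (s z * A - B), mul_le_mul_of_nonneg_right f3 (sq_nonneg A)]
  rw [f6, mul_pow A]
  nlinarith [mul_le_mul_of_nonneg_left f7 f5, mul_le_mul_of_nonneg_right f2 (sq_nonneg A),
    mul_le_mul_of_nonneg_right f4 (sq_nonneg B)]

theorem orth_ModA {f θ : ℝ → ℝ} (hf : MemLp f 2 volume) (e0 : ExpD θ) {x : ℝ × ℝ}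
    (hx : 0 < x.1) : ∫ y, (x.1⁻¹ * f ((x.1 ^ 2)⁻¹ * y + -x.2 / x.1 ^ 2) - Q y) * θ y =
      x.1 * GG_ModA θ f x - ∫ y, Q y * θ y := by
  have h1 : 0 < x.1 ^ 2 := pow_pos hx 2
  have h2 := integral_comp_affine
    (fun y => x.1⁻¹ * f ((x.1 ^ 2)⁻¹ * y + -x.2 / x.1 ^ 2) * θ y) h1 x.2
  have h3 : ∀ y, (x.1 ^ 2)⁻¹ * (x.1 ^ 2 * y + x.2) + -x.2 / x.1 ^ 2 = y := fun y => by
    field_simp
    ring
  simp only [h3, mul_assoc] at h2
  rw [integral_const_mul, eq_div_iff h1.ne'] at h2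
  simp only [sub_mul]
  rw [integral_sub (integrable_mul2 ((memLp_comp_affine hf (inv_pos.2 h1).ne' _).const_mul _)
    e0.memLp) (integrable_mul2 expD_Q.memLp e0.memLp)]
  simp only [mul_assoc]
  rw [← h2]
  unfold GG_ModA
  field_simp

theorem modA (hc : ConsStmt) : ModAStmt := by
  intro T ν u ux lt st x0 hP
  let U : ℝ → ℝ → ℝ := fun t y => Real.sqrt (lt t) * u t (lt t * y + st t)
  have hI : ∀ᶠ t in 𝓝[<] (0 : ℝ), t ∈ Ioo T 0 := Ioo_mem_nhdsLT hP.neg
  have hm : ∀ t ∈ Ico T (0 : ℝ), MemLp (U t) 2 volume := fun t ht =>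
    (memLp_comp_affine (hP.sol.h1 t ht).1 (hP.pos t ht).ne' (st t)).const_mul _
  have hw : WK_ModA (𝓝[<] 0) U := by
    refine WK_of_loc_ModA (M := ∫ x, u T x ^ 2) (hI.mono fun t ht => ?_) hP.conv
    have ht' : t ∈ Ico T (0 : ℝ) := ⟨ht.1.le, ht.2⟩
    refine ⟨hm t ht', le_of_eq ?_⟩
    have h0 := hP.pos t ht'
    rw [← (hc _ u ux hP.sol T t ht.1.le fun s hs => ⟨hs.1, hs.2.trans_lt ht.2⟩).1]
    simp only [U, mul_pow, Real.sq_sqrt h0.le]
    rw [integral_const_mul, integral_comp_affine (fun x => u t x ^ 2) h0]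
    field_simp
  obtain ⟨δ, hδ, hδ', hA⟩ := approx_ModA hw
  obtain ⟨x, hx, hev⟩ := ift_ModA (fun t => FF_ModA (U t)) (1, 0) hδ hA (FF0_ModA hw)
  obtain ⟨T1, hT1, hsub⟩ := (mem_nhdsLT_iff_exists_Ioo_subset' hP.neg).1 (hev.and hI)
  have hx1 : Tendsto (fun t => (x t).1) (𝓝[<] 0) (𝓝 1) := (continuous_fst.tendsto _).comp hx
  have hx2 : Tendsto (fun t => (x t).2) (𝓝[<] 0) (𝓝 0) := (continuous_snd.tendsto _).comp hx
  have ha : Tendsto (fun t => ((x t).1 ^ 2)⁻¹) (𝓝[<] 0) (𝓝 1) := by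
    simpa using (hx1.pow 2).inv₀ (by simp)
  have hb : Tendsto (fun t => -(x t).2 / (x t).1 ^ 2) (𝓝[<] 0) (𝓝 0) := by
    have := hx2.neg.div (hx1.pow 2) (by simp)
    rw [neg_zero, zero_div] at this
    exact this
  have hs : Tendsto (fun t => (x t).1⁻¹) (𝓝[<] 0) (𝓝 1) := by
    simpa using hx1.inv₀ one_ne_zero
  let lam : ℝ → ℝ := fun t => lt t / (x t).1 ^ 2
  let sig : ℝ → ℝ := fun t => st t - lt t * (x t).2 / (x t).1 ^ 2
  have hres : ∀ t ∈ Ioo T1 (0 : ℝ), resc u lam sig t = fun y =>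
      (x t).1⁻¹ * U t (((x t).1 ^ 2)⁻¹ * y + -(x t).2 / (x t).1 ^ 2) - Q y := by
    intro t ht
    have c0 := ball_ModA hδ' (hsub ht).1.1
    funext y
    have e1 : lt t * (((x t).1 ^ 2)⁻¹ * y + -(x t).2 / (x t).1 ^ 2) + st t =
        lam t * y + sig t := by
      simp only [lam, sig]
      ring
    have e2 : Real.sqrt (lam t) = (x t).1⁻¹ * Real.sqrt (lt t) := by
      simp only [lam]
      rw [Real.sqrt_div' _ (sq_nonneg _), Real.sqrt_sq c0.le]
      ring
    simp only [resc, U]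
    rw [e1, e2, mul_assoc]
  have hI1 : ∀ᶠ t in 𝓝[<] (0 : ℝ), t ∈ Ioo T1 0 := Ioo_mem_nhdsLT hT1
  refine ⟨max T T1, lam, sig, le_max_left _ _, max_lt hP.neg hT1, fun t ht => ?_, ?_, ?_, ?_⟩
  · have ht1 : t ∈ Ioo T1 (0 : ℝ) := ⟨(le_max_right _ _).trans_lt ht.1, ht.2⟩
    obtain ⟨⟨hb1, hz, -⟩, ht2⟩ := hsub ht1
    have ht' : t ∈ Ico T (0 : ℝ) := ⟨ht2.1.le, ht2.2⟩
    have c0 := ball_ModA hδ' hb1
    have hn : Ico T (0 : ℝ) ∈ 𝓝 t := Ico_mem_nhds ht2.1 ht2.2
    have clt : ContinuousAt lt t := hP.clt.continuousAt hn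
    have cst : ContinuousAt st t := hP.cst.continuousAt hn
    have hU : L2T (𝓝 t) U (U t) := by
      have h1 := (hP.sol.h1t ht').l2
      rw [nhdsWithin_eq_nhds.2 hn] at h1
      exact (h1.comp_affine (hP.pos t ht').ne' clt cst).ut_mul (UT.of_tendsto clt.sqrt)
    have cx : ContinuousAt x t := by
      have h1 := FFc_ModA hU c0.ne'
      rw [hz] at h1
      rw [ContinuousAt, tendsto_iff_norm_sub_tendsto_zero]
      refine squeeze_zero' (Eventually.of_forall fun _ => norm_nonneg _)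
        (Filter.mem_of_superset (Ioo_mem_nhds ht1.1 ht1.2) fun z hz' =>
          (hsub hz').1.2.2 (x t) hb1) ?_
      simpa using h1.norm.const_mul 2
    have c1 : ContinuousAt (fun t => (x t).1 ^ 2) t := cx.fst.pow 2
    have c2 : (x t).1 ^ 2 ≠ 0 := pow_ne_zero 2 c0.ne'
    have z1 := congrArg Prod.fst hz
    have z2 := congrArg Prod.snd hz
    simp only [FF_ModA, Prod.fst_zero, Prod.snd_zero, div_eq_zero_iff, neg_eq_zero] at z1 z2
    refine ⟨div_pos (hP.pos t ht') (pow_pos c0 2), clt.div c1 c2,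
      cst.sub ((clt.mul cx.snd).div c1 c2), ?_, ?_⟩
    · rw [hres t ht1, orth_ModA (hm t ht') expD_C0 c0, int1_ModA]
      rcases z1 with z1 | z1 | z1
      · exact z1
      · exact absurd z1 integral_Q4_pos.ne'
      · exact absurd z1 two_ne_zero
    · rw [hres t ht1, orth_ModA (hm t ht') expD_Q1 c0, integral_Q_Q1,
        z2.resolve_right integral_Q1_sq_pos.ne', mul_zero, sub_zero]
  · refine ha.congr' (hI.mono fun t ht => ?_)
    have := (hP.pos t ⟨ht.1.le, ht.2⟩).ne'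
    simp only [lam]
    field_simp
  · refine hb.congr' (hI.mono fun t ht => ?_)
    have := (hP.pos t ⟨ht.1.le, ht.2⟩).ne'
    simp only [sig]
    field_simp
    ring
  · refine (N0_ModA hw ha hb hs).congr' (hI1.mono fun t ht => ?_)
    simp only [hres t ht]

end

end Pool.Agent.MP_8339a4_an

end

section

/-! The drift terms in the derivative of the functional `F`. -/

open MeasureTheory Filter Topology Set

namespace Pool.Agent.MP_8339a4_an

variable {r A K B : ℝ}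

theorem pow6_I4 {e : ℝ} (he : |e| ≤ 1) : e ^ 2 ≤ 1 ∧ e ^ 6 ≤ e ^ 2 ∧ 0 ≤ e ^ 6 := by
  have e2 : e ^ 2 ≤ 1 := (sq_le_one_iff_abs_le_one e).2 he
  have e4 : (e ^ 2) ^ 2 ≤ 1 := pow_le_one₀ (sq_nonneg e) e2
  refine ⟨e2, ?_, by positivity⟩
  calc e ^ 6 = e ^ 2 * (e ^ 2) ^ 2 := by ring
    _ ≤ e ^ 2 * 1 := mul_le_mul_of_nonneg_left e4 (sq_nonneg e)
    _ = e ^ 2 := mul_one _

theorem PP_le_I4 (y : ℝ) {e : ℝ} (he : |e| ≤ 1) : |PP y e| ≤ 54 * e ^ 2 := by
  obtain ⟨_, e6, _⟩ := pow6_I4 he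
  have h1 := abs_PP_le y he
  have h2 := mul_le_mul_of_nonneg_right (Q_le y) (sq_nonneg e)
  have h3 := sq_nonneg e
  linarith

theorem PP_W_I4 (r A K B y : ℝ) {e : ℝ} (he : |e| ≤ 1) :
    |PP y e| * WW r A B y ≤ 54 * (pM r A K B y * e ^ 2)
      + Real.exp (A / B) * (40 * (Q y * ph r A K y) + ph r A K y * e ^ 6) := by
  obtain ⟨e2, _, e0⟩ := pow6_I4 he
  have hQ := Q_pos y
  have hp := ph_pos r A K y
  have a2 : |PP y e| ≤ 40 * Q y + e ^ 6 := by
    have h1 := abs_PP_le y he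
    have h2 := mul_le_mul_of_nonneg_left e2 hQ.le
    linarith
  calc |PP y e| * WW r A B y
      = |PP y e| * pM r A K B y + |PP y e| * (WW r A B y * ph r A K y) := by
        rw [← mul_add, ← WW_eq]
    _ ≤ 54 * e ^ 2 * pM r A K B y + (40 * Q y + e ^ 6) * (Real.exp (A / B) * ph r A K y) :=
        add_le_add (mul_le_mul_of_nonneg_right (PP_le_I4 y he) (pM_pos r A K B y).le)
          (mul_le_mul a2 (mul_le_mul_of_nonneg_right (WW_le r A B y) hp.le)
            (mul_pos (WW_pos r A B y) hp).le (by positivity))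
    _ = _ := by ring

theorem t1_I4 (r A K B y p : ℝ) {e : ℝ} (he : |e| ≤ 1) :
    hH y e p * WW r A B y - (Q y + e) ^ 2 * om r A K B y
      ≤ 55 * (pM r A K B y * (e ^ 2 + p ^ 2)) + Real.exp (A / B) *
        (ph r A K y * p ^ 2 + ph r A K y * e ^ 6 + 44 * (Q y * ph r A K y)) := by
  have hp := ph_pos r A K y
  have hW := WW_pos r A B y
  have hM := pM_pos r A K B y
  have h0 := mul_le_mul_of_nonneg_right (WW_le r A B y) hp.le
  have h1 := PP_W_I4 r A K B y he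
  have h2 := mul_le_mul_of_nonneg_right (neg_le_abs (PP y e)) hW.le
  have h3 : -((Q y + e) ^ 2 - e ^ 2) * (WW r A B y * ph r A K y)
      ≤ 4 * Q y * (Real.exp (A / B) * ph r A K y) :=
    mul_le_mul ((neg_le_abs _).trans (abs_sq_sub_le y he)) h0 (mul_pos hW hp).le
      (by have := Q_pos y; positivity)
  have h4 := mul_le_mul_of_nonneg_right h0 (sq_nonneg p)
  have h5 := mul_nonneg hM.le (sq_nonneg p)
  have e1 : hH y e p * WW r A B y - (Q y + e) ^ 2 * om r A K B y =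
      pM r A K B y * (e ^ 2 + p ^ 2) + WW r A B y * ph r A K y * p ^ 2
        + -PP y e * WW r A B y + -((Q y + e) ^ 2 - e ^ 2) * (WW r A B y * ph r A K y) := by
    unfold hH om pM
    ring
  rw [e1]
  linarith

theorem t3_I4 (h : WP r A K B) (y p : ℝ) {e : ℝ} (he : |e| ≤ 1) :
    -(hH y e p * WW1 r A B y - (Q y + e) ^ 2 * om1 r A K B y)
      ≤ 54 * (pM r A K B y * (e ^ 2 + p ^ 2)) + Real.exp (A / B) *
        (ph r A K y * e ^ 6 + ph1 r A K y * e ^ 2 + ph r A K y * P1 ((r * y - A) / B) * e ^ 2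
          + 44 * (Q y * ph r A K y)) := by
  have hW := WW1_pos h.hr h.B_pos A y
  have hM := pM_pos r A K B y
  have hQ := Q_pos y
  have h1 := PP_W_I4 r A K B y he
  have h2 : PP y e * WW1 r A B y ≤ |PP y e| * WW r A B y :=
    mul_le_mul (le_abs_self _) (h.WW1_le_WW y) hW.le (abs_nonneg _)
  have h3 : ((Q y + e) ^ 2 - e ^ 2) * om1 r A K B y
      ≤ 4 * Q y * (Real.exp (A / B) * ph r A K y) :=
    mul_le_mul ((le_abs_self _).trans (abs_sq_sub_le y he)) (h.om1_le_ph y) (h.om1_pos y).le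
      (by positivity)
  have h4 := mul_le_mul_of_nonneg_right (h.om1_le y) (sq_nonneg e)
  have h5 := mul_nonneg hM.le (sq_nonneg p)
  have h6 := mul_nonneg hW.le (sq_nonneg p)
  have h7 := mul_nonneg hW.le (sq_nonneg e)
  unfold hH
  linarith

theorem yQ_I4 (y : ℝ) : |y| * Q y ≤ 5 := by
  have h1 := env_le y
  have h2 : 1 ≤ Real.exp (|y| / 10) := Real.one_le_exp (by positivity)
  have h3 : 2 * |y| ≤ 1 + y ^ 2 := by
    rw [← sq_abs y]
    nlinarith [sq_nonneg (|y| - 1)]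
  have hQ := Q_pos y
  have h4 : 1 * (2 * |y|) * Q y ≤ Real.exp (|y| / 10) * (1 + y ^ 2) * Q y :=
    mul_le_mul_of_nonneg_right (mul_le_mul h2 h3 (by positivity) (by positivity)) hQ.le
  linarith

theorem t2_I4 (h : WP r A K B) (y p : ℝ) {e a η : ℝ} (he : |e| ≤ 1) (ha0 : 0 ≤ a) (ha : a ≤ η)
    (haA : a * A ≤ η * r) (haB : a * (1 + A / B) ≤ 1) :
    a * y * (WW1 r A B y * (p ^ 2 + (1 - ph r A K y) * e ^ 2 - PP y e)
        - WW r A B y * ph1 r A K y * e ^ 2)
      ≤ 402 * η * (pM r A K B y * (e ^ 2 + p ^ 2)) + Real.exp (A / B) *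
        (16 * (ph r A K y * p ^ 2) + 880 * (ph r A K y * P1 ((r * y - A) / (2 * B)) * e ^ 2)) := by
  obtain ⟨_, e6, _⟩ := pow6_I4 he
  have hW := WW_pos r A B y
  have hW1 := WW1_pos h.hr h.B_pos A y
  have hM := pM_pos r A K B y
  have hQ := Q_pos y
  have hp := ph_pos r A K y
  have hp' := ph_lt_one r A K y
  have hp1 := ph1_pos h.hr h.K_pos A y
  have hP := P1_pos ((r * y - A) / (2 * B))
  have hη : 0 ≤ η := ha0.trans ha
  have he2 := sq_nonneg e
  have hp2 := sq_nonneg p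
  have hS : 0 ≤ pM r A K B y * (e ^ 2 + p ^ 2) := by positivity
  have hE : 0 ≤ Real.exp (A / B) * (16 * (ph r A K y * p ^ 2)
      + 880 * (ph r A K y * P1 ((r * y - A) / (2 * B)) * e ^ 2)) := by positivity
  have hu : p ^ 2 + (1 - ph r A K y) * e ^ 2 - PP y e ≤ p ^ 2 + 55 * e ^ 2 := by
    have k1 := (neg_le_abs _).trans (PP_le_I4 y he)
    have k2 := mul_nonneg hp.le he2
    linarith
  rcases le_total y 0 with hy | hy
  · have hry : r * y ≤ A := (mul_nonpos_of_nonneg_of_nonpos h.hr.le hy).trans h.hA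
    have k0 := h.WW_le_pM hry
    have k1 : -(p ^ 2 + (1 - ph r A K y) * e ^ 2 - PP y e) ≤ 40 * Q y * e ^ 2 := by
      have j1 := (le_abs_self _).trans (abs_PP_le y he)
      have j2 := mul_le_mul_of_nonneg_right (ph_le_half h.K_pos hry) he2
      linarith
    have k2 : WW1 r A B y * -(p ^ 2 + (1 - ph r A K y) * e ^ 2 - PP y e)
        ≤ 2 * pM r A K B y * (40 * Q y * e ^ 2) :=
      (mul_le_mul_of_nonneg_left k1 hW1.le).trans
        (mul_le_mul_of_nonneg_right ((h.WW1_le_WW y).trans k0) (by positivity))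
    have k3 := mul_le_mul_of_nonneg_left k2 (neg_nonneg.2 hy)
    have k4 : -y * Q y ≤ 5 := by
      rw [← abs_of_nonpos hy]
      exact yQ_I4 y
    have k5 := mul_le_mul_of_nonneg_right k4 (mul_nonneg hM.le he2)
    have k6 : -y * ph1 r A K y ≤ 1 := (neg_mul_ph1_le h.hr h.K_pos A hy).trans
      (Real.exp_le_one_iff.2 (neg_nonpos.2 (div_nonneg h.hA h.K_pos.le)))
    have k7 : -y * ph1 r A K y * (WW r A B y * e ^ 2) ≤ 1 * (2 * pM r A K B y * e ^ 2) :=
      mul_le_mul k6 (mul_le_mul_of_nonneg_right k0 he2) (by positivity) zero_le_one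
    have k8 := mul_nonneg hM.le hp2
    have k9 : y * (WW1 r A B y * (p ^ 2 + (1 - ph r A K y) * e ^ 2 - PP y e)
        - WW r A B y * ph1 r A K y * e ^ 2) ≤ 402 * (pM r A K B y * (e ^ 2 + p ^ 2)) := by
      linarith
    have k10 := mul_le_mul_of_nonneg_left k9 ha0
    have k11 := mul_le_mul_of_nonneg_right ha hS
    linarith
  · have k0 : 0 ≤ a * y * (WW r A B y * ph1 r A K y * e ^ 2) := by positivity
    have k1 : a * y * (WW1 r A B y * (p ^ 2 + (1 - ph r A K y) * e ^ 2 - PP y e))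
        ≤ a * y * (WW1 r A B y * (p ^ 2 + 55 * e ^ 2)) :=
      mul_le_mul_of_nonneg_left (mul_le_mul_of_nonneg_left hu hW1.le) (by positivity)
    rcases le_total (r * y) A with hry | hry
    · have k2 : a * y ≤ η := by
        have j1 := mul_le_mul_of_nonneg_left hry ha0
        exact le_of_mul_le_mul_right (by linarith) h.hr
      have k3 : a * y * (WW1 r A B y * (p ^ 2 + 55 * e ^ 2))
          ≤ η * (2 * pM r A K B y * (55 * (e ^ 2 + p ^ 2))) :=
        mul_le_mul k2 (mul_le_mul ((h.WW1_le_WW y).trans (h.WW_le_pM hry)) (by linarith)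
          (by positivity) (by positivity)) (by positivity) hη
      have k4 := mul_nonneg hη hS
      linarith
    · have k2 := mul_le_mul_of_nonneg_left (h.mul_WW1_right hry) ha0
      have k3 := mul_le_mul_of_nonneg_right haB (show 0 ≤ 16 * Real.exp (A / B) *
        (ph r A K y * P1 ((r * y - A) / (2 * B))) by positivity)
      have k4 : a * y * WW1 r A B y
          ≤ 16 * Real.exp (A / B) * (ph r A K y * P1 ((r * y - A) / (2 * B))) := by linarith
      have k5 := mul_le_mul_of_nonneg_right k4 (show 0 ≤ p ^ 2 + 55 * e ^ 2 by positivity)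
      have k6 : P1 ((r * y - A) / (2 * B)) ≤ 1 := (P1_le_quarter _).trans (by norm_num)
      have k7 := mul_le_mul_of_nonneg_left k6
        (show 0 ≤ Real.exp (A / B) * (ph r A K y * p ^ 2) by positivity)
      have k8 := mul_nonneg hη hS
      linarith

theorem pt_I4 (h : WP r A K B) (y p : ℝ) {e a b c η : ℝ} (he : |e| ≤ 1) (ha0 : 0 ≤ a)
    (ha : a ≤ η) (haA : a * A ≤ η * r) (haB : a * (1 + A / B) ≤ 1) (hb0 : 0 ≤ b) (hb : b ≤ η)
    (hc0 : 0 ≤ c) (hc : c ≤ η) (hη : η ≤ 1) :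
    hH y e p * (c * WW r A B y + (a * y - b) * WW1 r A B y)
      - (Q y + e) ^ 2 * (c * om r A K B y + (a * y - b) * om1 r A K B y)
      ≤ 511 * η * (pM r A K B y * (e ^ 2 + p ^ 2)) + 1000 * Real.exp (A / B) *
        (ph r A K y * p ^ 2 + ph r A K y * e ^ 6 + ph1 r A K y * e ^ 2
          + ph r A K y * P1 ((r * y - A) / B) * e ^ 2
          + ph r A K y * P1 ((r * y - A) / (2 * B)) * e ^ 2
          + Real.exp (-(A / K)) * (Real.exp (|y| / 10) * (1 + y ^ 2) * Q y)) := by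
  have hM := pM_pos r A K B y
  have hQ := Q_pos y
  have hp := ph_pos r A K y
  have hp1 := ph1_pos h.hr h.K_pos A y
  have hP := P1_pos ((r * y - A) / (2 * B))
  have hP' := P1_pos ((r * y - A) / B)
  have hS : 0 ≤ pM r A K B y * (e ^ 2 + p ^ 2) := by positivity
  have h1 := mul_le_mul_of_nonneg_left (t1_I4 r A K B y p he) hc0
  have h3 := mul_le_mul_of_nonneg_left (t3_I4 h y p he) hb0
  have h2 := t2_I4 h y p he ha0 ha haA haB
  have g1 := mul_le_mul_of_nonneg_right hc hS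
  have g3 := mul_le_mul_of_nonneg_right hb hS
  have f1 := mul_le_mul_of_nonneg_right (hc.trans hη) (show 0 ≤ Real.exp (A / B) *
    (ph r A K y * p ^ 2 + ph r A K y * e ^ 6 + 44 * (Q y * ph r A K y)) by positivity)
  have f3 := mul_le_mul_of_nonneg_right (hb.trans hη) (show 0 ≤ Real.exp (A / B) *
    (ph r A K y * e ^ 6 + ph1 r A K y * e ^ 2 + ph r A K y * P1 ((r * y - A) / B) * e ^ 2
      + 44 * (Q y * ph r A K y)) by positivity)
  have h4 : -(a * y * (((Q y + e) ^ 2 - e ^ 2) * om1 r A K B y))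
      ≤ 1 * |y| * (4 * Q y * (Real.exp (A / B) * ph r A K y)) := by
    refine (neg_le_abs _).trans ?_
    rw [abs_mul, abs_mul, abs_mul, abs_of_nonneg ha0, abs_of_pos (h.om1_pos y)]
    exact mul_le_mul (mul_le_mul_of_nonneg_right (ha.trans hη) (abs_nonneg y))
      (mul_le_mul (abs_sq_sub_le y he) (h.om1_le_ph y) (h.om1_pos y).le (by positivity))
      (mul_nonneg (abs_nonneg _) (h.om1_pos y).le) (by positivity)
  have h5 : (88 + 4 * |y|) * ph r A K y
      ≤ 1000 * (1 + y ^ 2) * (Real.exp (-(A / K)) * Real.exp (|y| / 10)) := by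
    refine mul_le_mul ?_ ((ph_le_tiny h.hr h.hK A y).trans (mul_le_mul_of_nonneg_left
      (Real.exp_le_exp.2 ?_) (by positivity))) hp.le (by positivity)
    · rw [← sq_abs y]
      nlinarith [sq_nonneg (|y| - 1), sq_nonneg (|y|)]
    · have := abs_nonneg y
      linarith
  have h6 := mul_le_mul_of_nonneg_left h5 (show 0 ≤ Real.exp (A / B) * Q y by positivity)
  have n1 : 0 ≤ Real.exp (A / B) * (ph r A K y * p ^ 2) := by positivity
  have n2 : 0 ≤ Real.exp (A / B) * (ph r A K y * e ^ 6) := by positivity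
  have n3 : 0 ≤ Real.exp (A / B) * (ph1 r A K y * e ^ 2) := by positivity
  have n4 : 0 ≤ Real.exp (A / B) * (ph r A K y * P1 ((r * y - A) / B) * e ^ 2) := by positivity
  have n5 : 0 ≤ Real.exp (A / B) * (ph r A K y * P1 ((r * y - A) / (2 * B)) * e ^ 2) := by
    positivity
  have e1 : hH y e p * (c * WW r A B y + (a * y - b) * WW1 r A B y)
      - (Q y + e) ^ 2 * (c * om r A K B y + (a * y - b) * om1 r A K B y)
      = c * (hH y e p * WW r A B y - (Q y + e) ^ 2 * om r A K B y)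
        + b * -(hH y e p * WW1 r A B y - (Q y + e) ^ 2 * om1 r A K B y)
        + a * y * (WW1 r A B y * (p ^ 2 + (1 - ph r A K y) * e ^ 2 - PP y e)
          - WW r A B y * ph1 r A K y * e ^ 2)
        + -(a * y * (((Q y + e) ^ 2 - e ^ 2) * om1 r A K B y)) := by
    unfold hH om1
    ring
  rw [e1]
  linarith

theorem st_I4 (h : WP r A K B) {e ey : ℝ → ℝ} (h1 : IsH1 e ey) {a b c η : ℝ}
    (he : ∀ y, |e y| ≤ 1) (ha0 : 0 ≤ a) (ha : a ≤ η) (haA : a * A ≤ η * r)
    (haB : a * (1 + A / B) ≤ 1) (hb0 : 0 ≤ b) (hb : b ≤ η) (hc0 : 0 ≤ c) (hc : c ≤ η)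
    (hη : η ≤ 1) :
    ∫ y, (hH y (e y) (ey y) * (c * WW r A B y + (a * y - b) * WW1 r A B y)
      - (Q y + e y) ^ 2 * (c * om r A K B y + (a * y - b) * om1 r A K B y))
      ≤ 511 * η * qD r A K B e ey + 1000 * Real.exp (A / B) *
        (qK r A K ey + q6 r A K e + (∫ y, ph1 r A K y * e y ^ 2)
          + (∫ y, ph r A K y * P1 ((r * y - A) / B) * e y ^ 2)
          + (∫ y, ph r A K y * P1 ((r * y - A) / (2 * B)) * e y ^ 2)
          + Real.exp (-(A / K)) * 20) := by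
  have s1 := integrable_sq2 h1.1
  have s2 := integrable_sq2 h1.2.1
  have b1 : ∀ L : ℝ, Bdd (fun y => ph r A K y * P1 ((r * y - A) / L)) := fun L =>
    (bdd_ph r A K).mul (expD_P1.bdd.comp (g := fun y => (r * y - A) / L) (by fun_prop))
  have i0 : Integrable (fun y => pM r A K B y * (e y ^ 2 + ey y ^ 2)) :=
    integrable_bdd_mul (s1.add s2) (bdd_pM r A K B)
  have i1 : Integrable (fun y => ph r A K y * ey y ^ 2) := integrable_bdd_mul s2 (bdd_ph r A K)
  have i2 : Integrable (fun y => ph r A K y * e y ^ 6) :=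
    integrable_bdd_mul (h1.integrable_pow 4) (bdd_ph r A K)
  have i3 : Integrable (fun y => ph1 r A K y * e y ^ 2) :=
    integrable_bdd_mul s1 (expD_ph1 h.hr h.K_pos A).bdd
  have i4 : Integrable (fun y => ph r A K y * P1 ((r * y - A) / B) * e y ^ 2) :=
    integrable_bdd_mul s1 (b1 B)
  have i5 : Integrable (fun y => ph r A K y * P1 ((r * y - A) / (2 * B)) * e y ^ 2) :=
    integrable_bdd_mul s1 (b1 (2 * B))
  have i6 : Integrable (fun y : ℝ =>
      Real.exp (-(A / K)) * (Real.exp (|y| / 10) * (1 + y ^ 2) * Q y)) :=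
    expD_env.integrable.const_mul _
  have j2 : Integrable (fun y => ph r A K y * ey y ^ 2 + ph r A K y * e y ^ 6) := i1.add i2
  have j3 : Integrable (fun y => ph r A K y * ey y ^ 2 + ph r A K y * e y ^ 6
      + ph1 r A K y * e y ^ 2) := j2.add i3
  have j4 : Integrable (fun y => ph r A K y * ey y ^ 2 + ph r A K y * e y ^ 6
      + ph1 r A K y * e y ^ 2 + ph r A K y * P1 ((r * y - A) / B) * e y ^ 2) := j3.add i4
  have j5 : Integrable (fun y => ph r A K y * ey y ^ 2 + ph r A K y * e y ^ 6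
      + ph1 r A K y * e y ^ 2 + ph r A K y * P1 ((r * y - A) / B) * e y ^ 2
      + ph r A K y * P1 ((r * y - A) / (2 * B)) * e y ^ 2) := j4.add i5
  have j6 : Integrable (fun y => ph r A K y * ey y ^ 2 + ph r A K y * e y ^ 6
      + ph1 r A K y * e y ^ 2 + ph r A K y * P1 ((r * y - A) / B) * e y ^ 2
      + ph r A K y * P1 ((r * y - A) / (2 * B)) * e y ^ 2
      + Real.exp (-(A / K)) * (Real.exp (|y| / 10) * (1 + y ^ 2) * Q y)) := j5.add i6
  have hη0 : 0 ≤ η := ha0.trans ha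
  have key : ∫ y, (hH y (e y) (ey y) * (c * WW r A B y + (a * y - b) * WW1 r A B y)
      - (Q y + e y) ^ 2 * (c * om r A K B y + (a * y - b) * om1 r A K B y))
      ≤ ∫ y, (511 * η * (pM r A K B y * (e y ^ 2 + ey y ^ 2)) + 1000 * Real.exp (A / B) *
        (ph r A K y * ey y ^ 2 + ph r A K y * e y ^ 6
          + ph1 r A K y * e y ^ 2 + ph r A K y * P1 ((r * y - A) / B) * e y ^ 2
          + ph r A K y * P1 ((r * y - A) / (2 * B)) * e y ^ 2
          + Real.exp (-(A / K)) * (Real.exp (|y| / 10) * (1 + y ^ 2) * Q y))) := by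
    by_cases hI : Integrable (fun y =>
        hH y (e y) (ey y) * (c * WW r A B y + (a * y - b) * WW1 r A B y)
          - (Q y + e y) ^ 2 * (c * om r A K B y + (a * y - b) * om1 r A K B y))
    · exact integral_mono hI ((i0.const_mul _).add (j6.const_mul _)) fun y =>
        pt_I4 h y (ey y) (he y) ha0 ha haA haB hb0 hb hc0 hc hη
    · rw [integral_undef hI]
      refine integral_nonneg fun y => ?_
      have hM := pM_pos r A K B y
      have hQ := Q_pos y
      have hp := ph_pos r A K y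
      have hp1 := ph1_pos h.hr h.K_pos A y
      have hP := P1_pos ((r * y - A) / (2 * B))
      have hP' := P1_pos ((r * y - A) / B)
      positivity
  rw [integral_add (i0.const_mul _) (j6.const_mul _), integral_const_mul, integral_const_mul,
    integral_add j5 i6, integral_add j4 i5, integral_add j3 i4, integral_add j2 i3,
    integral_add i1 i2, integral_const_mul] at key
  refine key.trans ?_
  unfold qD qK q6
  gcongr
  exact integral_env_le

theorem i4 : I4Stmt := by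
  intro X B hB
  have hK := X.K_ge
  have hB1 : 1 ≤ B := by
    have := X.B_ge hB
    linarith
  have hB0 : 0 < B := by linarith
  obtain ⟨C1, c1, h1⟩ := X.ph1_sq
  obtain ⟨C2, c2, h2⟩ := X.zl hB0
  obtain ⟨C3, c3, h3⟩ := X.zl (L := 2 * B) (by linarith)
  refine ⟨1000 * (20 + C1 + C2 + C3), fun ε hε => ?_⟩
  have hr0 := X.r0_pos
  have hκ := X.κ_pos
  have hCA := X.CA_pos
  obtain ⟨η, η0, η1, ηε⟩ : ∃ η : ℝ, 0 < η ∧ η ≤ 1 ∧ 511 * η ≤ ε :=
    ⟨min 1 (ε / 511), lt_min one_pos (by positivity), min_le_left _ _, by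
      have := min_le_right 1 (ε / 511)
      linarith⟩
  filter_upwards [X.ev_gt, X.ev_sup one_pos, X.ev_log (div_pos η0 hκ),
    X.ev_log (div_pos (mul_pos η0 hr0) hκ), X.ev_log (div_pos η0 hCA),
    X.ev_log (div_pos (mul_pos η0 hr0) hCA)] with s hs he l1 l2 l3 l4
  have hs1 := X.one_lt hs
  have hs0 : 0 < s := by linarith
  have hA := X.A_nonneg hs1.le
  have hr := X.r_pos hs
  have hrr := mul_le_mul_of_nonneg_left (X.r_ge hs) η0.le
  rw [div_le_div_iff₀ hs0 (by assumption)] at l1 l2 l3 l4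
  have m1 := mul_nonneg hA hκ.le
  have m2 := mul_nonneg hA hCA.le
  have m3 := mul_le_mul_of_nonneg_right hrr hs0.le
  have m4 := mul_le_mul_of_nonneg_right η1 hs0.le
  have key := st_I4 (X.wp hs hB) (X.h1 hs) (a := X.κ / s) (b := X.CA / (s * X.r s))
    (c := X.CA / (s * B)) (η := η) he (by positivity) (by rw [div_le_iff₀ hs0]; linarith)
    (by rw [div_mul_eq_mul_div, div_le_iff₀ hs0]; linarith)
    (by
      have k1 : X.A s / B ≤ X.A s := div_le_self hA hB1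
      have k2 := mul_le_mul_of_nonneg_left k1 hκ.le
      rw [div_mul_eq_mul_div, div_le_iff₀ hs0]
      linarith)
    (by positivity) (by rw [div_le_iff₀ (by positivity)]; linarith) (by positivity)
    (by
      have k1 := mul_le_mul_of_nonneg_left hB1 (mul_pos η0 hs0).le
      rw [div_le_iff₀ (by positivity)]
      linarith) η1
  have e1 : X.I4 B s = ∫ y, (hH y (X.e s y) (X.ey s y) *
      (X.CA / (s * B) * WW (X.r s) (X.A s) B y
        + (X.κ / s * y - X.CA / (s * X.r s)) * WW1 (X.r s) (X.A s) B y)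
      - (Q y + X.e s y) ^ 2 * (X.CA / (s * B) * om (X.r s) (X.A s) X.K B y
        + (X.κ / s * y - X.CA / (s * X.r s)) * om1 (X.r s) (X.A s) X.K B y)) := by
    unfold Dat.I4 Dat.dr
    simp only [div_mul_eq_mul_div X.κ s]
  rw [e1]
  refine key.trans (add_le_add (mul_le_mul_of_nonneg_right ηε (X.D_nonneg B s)) ?_)
  have z1 := h1 s hs
  have z2 := h2 s hs
  have z3 := h3 s hs
  have z4 := X.exp_le_tau hs1.le
  have z5 := mul_le_mul_of_nonneg_left (X.f_le_Kf hs) c1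
  have p1 := sq_nonneg (X.a s)
  have p2 := X.Kf_nonneg s
  have p3 := X.k6_nonneg s
  have p4 := (X.tau_pos hs0).le
  have q1 := mul_nonneg c1 (add_nonneg (add_nonneg p1 p3) p4)
  have q2 := mul_nonneg c2 (add_nonneg p3 p4)
  have q3 := mul_nonneg c3 (add_nonneg p3 p4)
  have hZ : X.Kf s + X.k6 s + (∫ y, ph1 (X.r s) (X.A s) X.K y * X.e s y ^ 2)
      + (∫ y, ph (X.r s) (X.A s) X.K y * P1 ((X.r s * y - X.A s) / B) * X.e s y ^ 2)
      + (∫ y, ph (X.r s) (X.A s) X.K y * P1 ((X.r s * y - X.A s) / (2 * B)) * X.e s y ^ 2)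
      + Real.exp (-(X.A s / X.K)) * 20 ≤ (20 + C1 + C2 + C3) * X.Z s := by
    unfold Dat.Z
    linarith
  have hZ0 : 0 ≤ (20 + C1 + C2 + C3) * X.Z s := by
    unfold Dat.Z
    positivity
  have f1 := mul_le_mul_of_nonneg_left hZ (Real.exp_pos (X.A s / B)).le
  have f2 := mul_le_mul_of_nonneg_right (X.exp_le_Lm hB hs1.le) hZ0
  change 1000 * Real.exp (X.A s / B) * (X.Kf s + X.k6 s + _ + _ + _ + _) ≤ _
  linarith

end Pool.Agent.MP_8339a4_an

end
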