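import Pool.Agent.Mg.F8339a4.Gaa52d0

section

/-! Coercivity of the linearised operator. -/

open MeasureTheory Filter Topology Set

namespace Pool.Agent.MP_8339a4_an

variable {f fy g gy z zy : ℝ → ℝ}

theorem prim_tn_C1 : IsPrim tn (fun y => 2 * sc y) :=
  IsPrim.of_hasDerivAt hasDerivAt_tn (expD_sc.const_mul 2).1

theorem lin3_C1 (i1 : Integrable f) (i2 : Integrable g) (i3 : Integrable z) (a b : ℝ) :
    ∫ y, (f y + a * g y + b * z y) = (∫ y, f y) + a * (∫ y, g y) + b * ∫ y, z y := by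
  rw [← integral_const_mul, ← integral_const_mul, ← integral_add i1 (i2.const_mul a)]
  exact integral_add (i1.add (i2.const_mul a)) (i3.const_mul b)

theorem exp2_C1 (hf : MemLp f 2 volume) (hg : MemLp g 2 volume) (t : ℝ) :
    ∫ y, (f y - t * g y) ^ 2 = (∫ y, f y ^ 2) - 2 * t * (∫ y, f y * g y) + t ^ 2 * ∫ y, g y ^ 2 := by
  rw [sub_eq_add_neg (∫ y, f y ^ 2), ← neg_mul,
    ← lin3_C1 (integrable_sq2 hf) (integrable_mul2 hf hg) (integrable_sq2 hg)]
  exact integral_congr_ae (.of_forall fun y => by simp only; ring)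

theorem memA_C1 (h : IsH1 f fy) (c : ℝ) : MemLp (fun y => fy y + c * tn y * f y) 2 volume :=
  h.2.1.add (memLp_bdd_mul h.1 (bdd_tn.const_mul c))

theorem sqA_C1 (h : IsH1 f fy) (c : ℝ) : ∫ y, (fy y + c * tn y * f y) ^ 2 =
    (∫ y, fy y ^ 2) + c ^ 2 * (∫ y, f y ^ 2) - (c ^ 2 + 2 * c) * ∫ y, sc y * f y ^ 2 := by
  have i1 := integrable_sq2 h.2.1
  have i2 := integrable_sq2 h.1
  have i3 := integrable_bdd_mul i2 expD_sc.bdd
  rw [sub_eq_add_neg, ← neg_mul, ← lin3_C1 i1 i2 i3]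
  refine (((h.isPrim.mul h.isPrim).mul prim_tn_C1).const_mul c).integral_eq
    ((integrable_mul_bdd (integrable_mul2 h.1 h.1) bdd_tn).const_mul c)
    (integrable_sq2 (memA_C1 h c)) ((i1.add (i2.const_mul _)).add (i3.const_mul _)) fun y => ?_
  simp only [sc]
  ring

theorem hardy_C1 (h : IsH1 g gy) :
    ∃ t : ℝ, ∫ y, (g y - t * Q y) ^ 2 ≤ 4 * ∫ y, (gy y + 1 * tn y * g y) ^ 2 := by
  have hQ := fun y => (Q_pos y).ne'
  have p1 : IsPrim (fun y => (Q y)⁻¹) (fun y => tn y * (Q y)⁻¹) :=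
    IsPrim.of_hasDerivAt (fun y => ((hasDerivAt_Q y).fun_inv (hQ y)).congr_deriv (by
      have := hQ y
      rw [Q1]
      field_simp)) (bdd_tn.1.mul (expD_Q.1.inv₀ hQ))
  have p2 := h.isPrim.mul p1
  obtain ⟨E, hE⟩ : ∃ E : ℝ → ℝ, ∀ y, E y = Real.exp (-(|y - 0| / (1 / 2))) := ⟨_, fun _ => rfl⟩
  have e1 : ∀ y, E y = Real.exp (-|y|) ^ 2 := fun y => by
    rw [hE, ← Real.exp_nat_mul]
    congr 1
    simp only [sub_zero]
    push_cast
    ring
  have b1 : ∀ y, E y * (Q y)⁻¹ ^ 2 ≤ 1 := fun y => by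
    rw [e1, inv_pow, ← div_eq_mul_inv, div_le_one (pow_pos (Q_pos y) 2)]
    exact pow_le_pow_left₀ (Real.exp_pos _).le (exp_le_Q y) 2
  have b2 : ∀ y, 1 ≤ 4 * (E y * (Q y)⁻¹ ^ 2) := fun y => by
    rw [e1, inv_pow, ← div_eq_mul_inv, ← mul_div_assoc, one_le_div (pow_pos (Q_pos y) 2)]
    have := pow_le_pow_left₀ (Q_pos y).le (Q_le_exp y) 2
    linarith [mul_pow 2 (Real.exp (-|y|)) 2]
  have bw : Bdd fun y => E y * (Q y)⁻¹ ^ 2 := by
    refine ⟨?_, 1, fun y => ?_⟩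
    · simp only [e1]
      exact ((Real.continuous_exp.comp continuous_abs.neg).pow 2).mul ((expD_Q.1.inv₀ hQ).pow 2)
    · rw [abs_of_nonneg (by linarith [b2 y])]
      exact b1 y
  have m1 : MemLp (fun y => g y - g 0 * (Q 0)⁻¹ * Q y) 2 volume :=
    h.1.sub (expD_Q.memLp.const_mul _)
  have j1 := integrable_bdd_mul (integrable_sq2 m1) bw
  have j2 := integrable_bdd_mul (integrable_sq2 (memA_C1 h 1)) bw
  have q1 : ∀ y, E y * (g y * (Q y)⁻¹ - g 0 * (Q 0)⁻¹) ^ 2 =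
      E y * (Q y)⁻¹ ^ 2 * (g y - g 0 * (Q 0)⁻¹ * Q y) ^ 2 := fun y => by
    have := hQ y
    field_simp
  have q2 : ∀ y, E y * (gy y * (Q y)⁻¹ + g y * (tn y * (Q y)⁻¹)) ^ 2 =
      E y * (Q y)⁻¹ ^ 2 * (gy y + 1 * tn y * g y) ^ 2 := fun y => by ring
  have H := expHardy (L := 1 / 2) (p := 0) (by norm_num) p2
    (by
      simp only [← hE]
      exact (integrable_bdd_mul (integrable_sq2 h.1) bw).congr (.of_forall fun y => by
        simp only; ring))
    (by simpa only [← hE, q2] using j2)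
  simp only [← hE, q1, q2] at H
  refine ⟨g 0 * (Q 0)⁻¹, ?_⟩
  have l1 := integral_mono (integrable_sq2 m1) (j1.const_mul 4) fun y => by
    have := mul_le_mul_of_nonneg_right (b2 y) (sq_nonneg (g y - g 0 * (Q 0)⁻¹ * Q y))
    simp only
    linarith
  have l2 := integral_mono j2 (integrable_sq2 (memA_C1 h 1)) fun y => by
    have := mul_le_mul_of_nonneg_right (b1 y) (sq_nonneg (gy y + 1 * tn y * g y))
    simp only
    linarith
  rw [integral_const_mul] at l1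
  linarith

theorem bound_C1 (h : IsH1 z zy) (h0 : ∫ y, z y * C0 y = 0) :
    ∃ M : ℝ, ∀ y, |∫ x in Iic y, z x * C0 x| ≤ M * C0 y := by
  obtain ⟨-, M, hM⟩ := h.bdd
  have i0 := integrable_mul2 h.1 expD_C0.memLp
  have hM0 : 0 ≤ M := (abs_nonneg _).trans (hM 0)
  have b : ∀ x u : ℝ, -|x| ≤ u → ‖z x * C0 x‖ ≤ 8 * M * Real.exp (3 * u) := fun x u hu => by
    have h1 := pow_le_pow_left₀ (Q_pos x).le ((Q_le_exp x).trans
      (mul_le_mul_of_nonneg_left (Real.exp_le_exp.2 hu) two_pos.le)) 3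
    rw [mul_pow, ← Real.exp_nat_mul] at h1
    rw [Real.norm_eq_abs, abs_mul, C0, abs_of_pos (pow_pos (Q_pos x) 3)]
    have := mul_le_mul (hM x) h1 (pow_pos (Q_pos x) 3).le hM0
    push_cast at this
    linarith
  refine ⟨8 * M / 3, fun y => ?_⟩
  have c : Real.exp (3 * -|y|) ≤ C0 y := by
    have h1 := pow_le_pow_left₀ (Real.exp_pos _).le (exp_le_Q y) 3
    rw [← Real.exp_nat_mul] at h1
    exact_mod_cast h1
  refine le_trans ?_ (mul_le_mul_of_nonneg_left c (by positivity))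
  rcases le_total y 0 with hy | hy
  · have := norm_integral_le_of_norm_le (μ := volume.restrict (Iic y))
      ((integrableOn_exp_mul_Iic (a := 3) three_pos y).const_mul (8 * M))
      (.of_forall fun x => b x x (neg_abs_le x))
    rw [integral_const_mul, integral_exp_mul_Iic three_pos] at this
    rw [abs_of_nonpos hy, neg_neg]
    exact this.trans_eq (by ring)
  · have := norm_integral_le_of_norm_le (μ := volume.restrict (Ioi y))
      ((integrableOn_exp_mul_Ioi (a := -3) (by norm_num) y).const_mul (8 * M))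
      (.of_forall fun x => (b x (-x) (neg_le_neg (le_abs_self x))).trans_eq (by ring_nf))
    rw [integral_const_mul, integral_exp_mul_Ioi (by norm_num)] at this
    have e := intervalIntegral.integral_Iic_add_Ioi (b := y) i0.integrableOn i0.integrableOn
    rw [abs_of_nonneg hy, eq_neg_of_add_eq_zero_left (e.trans h0), abs_neg]
    exact this.trans_eq (by ring_nf)

theorem exg_C1 (h : IsH1 z zy) (h0 : ∫ y, z y * C0 y = 0) :
    ∃ g : ℝ → ℝ, IsH1 g fun y => 3 * tn y * g y - z y := by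
  obtain ⟨M, hM⟩ := bound_C1 h h0
  have i0 := integrable_mul2 h.1 expD_C0.memLp
  have hp : ∀ y, 0 < C0 y := fun y => pow_pos (Q_pos y) 3
  have p0 : IsPrim (fun y => ∫ x in Iic y, z x * C0 x) fun x => z x * C0 x :=
    ⟨fun _ _ => i0.intervalIntegrable, fun _ _ =>
      intervalIntegral.integral_Iic_sub_Iic i0.integrableOn i0.integrableOn⟩
  have p1 : IsPrim (fun y => (C0 y)⁻¹) (fun y => 3 * tn y * (C0 y)⁻¹) :=
    IsPrim.of_hasDerivAt (fun y => ((hasDerivAt_C0 y).fun_inv (hp y).ne').congr_deriv (by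
      have := (Q_pos y).ne'
      rw [C1, C0]
      field_simp)) ((bdd_tn.const_mul 3).1.mul (expD_C0.1.inv₀ fun y => (hp y).ne'))
  obtain ⟨g, p2, hb⟩ : ∃ g : ℝ → ℝ, IsPrim g (fun y => 3 * tn y * g y - z y) ∧
      ∀ y, |g y| ≤ M := by
    refine ⟨_, (p0.mul p1).neg.congr (fun _ => rfl) fun y => ?_, fun y => ?_⟩
    · have := (hp y).ne'
      field_simp
      ring
    · rw [abs_neg, abs_mul, abs_inv, abs_of_pos (hp y), ← div_eq_mul_inv, div_le_iff₀ (hp y)]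
      exact hM y
  have cg := p2.continuous
  have p3 := (p2.mul p2).mul prim_tn_C1
  have iz := integrable_sq2 h.1
  have ig : Integrable fun y => g y ^ 2 := by
    refine integrable_of_intervalIntegral_norm_bounded (l := atTop) (a := fun N : ℝ => -N)
      (b := fun N => N) (2 * M ^ 2 + ∫ y, z y ^ 2)
      (fun N => ((cg.pow 2).intervalIntegrable _ _).1) tendsto_neg_atTop_atBot tendsto_id ?_
    filter_upwards [eventually_ge_atTop 0] with N hN
    have hN' : -N ≤ N := by linarith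
    have l1 := intervalIntegral.integral_mono_on hN'
      ((cg.pow 2).norm.intervalIntegrable _ _) ((p3.1 (-N) N).add iz.intervalIntegrable)
      fun y _ => by
        rw [Pi.pow_apply, Real.norm_of_nonneg (sq_nonneg _), sc]
        have h1 : tn y ^ 2 ≤ 1 := (sq_le_one_iff_abs_le_one _).2 (abs_tn_lt y).le
        nlinarith [sq_nonneg (z y - tn y * g y), sq_nonneg (tn y * g y), sq_nonneg (g y)]
    rw [intervalIntegral.integral_add (p3.1 (-N) N) iz.intervalIntegrable, ← p3.2] at l1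
    have l2 : ∫ y in (-N)..N, z y ^ 2 ≤ ∫ y, z y ^ 2 := by
      rw [intervalIntegral.integral_of_le hN']
      exact setIntegral_le_integral iz (.of_forall fun y => sq_nonneg _)
    have l3 : ∀ y, |g y * g y * tn y| ≤ M ^ 2 := fun y => by
      rw [abs_mul, abs_mul]
      have := mul_le_mul (mul_le_mul (hb y) (hb y) (abs_nonneg _) ((abs_nonneg _).trans (hb y)))
        (abs_tn_lt y).le (abs_nonneg _) (mul_self_nonneg M)
      linarith
    refine l1.trans ?_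
    linarith [abs_le.1 (l3 N), abs_le.1 (l3 (-N))]
  have mg : MemLp g 2 volume := (memLp_two_iff_integrable_sq cg.aestronglyMeasurable).2 ig
  exact ⟨g, IsH1.of_isPrim p2 mg ((memLp_bdd_mul mg (bdd_tn.const_mul 3)).sub h.1)⟩

theorem key_C1 (h : IsH1 z zy) (h0 : ∫ y, z y * C0 y = 0) :
    33 / 4 * ∫ y, z y ^ 2 ≤ (∫ y, (zy y + 3 * tn y * z y) ^ 2)
      + (∫ y, Q y ^ 2)⁻¹ * (∫ y, z y * Q1 y) ^ 2 := by
  obtain ⟨g, hg⟩ := exg_C1 h h0
  obtain ⟨t, ht⟩ := hardy_C1 hg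
  have hn : 0 < ∫ y, Q y ^ 2 := by
    rw [integral_Q_sq]
    positivity
  have e2 : ∫ y, (zy y + 3 * tn y * z y) * g y = ∫ y, z y ^ 2 :=
    (h.isPrim.mul hg.isPrim).integral_eq (integrable_mul2 h.1 hg.1)
      (integrable_mul2 (memA_C1 h 3) hg.1) (integrable_sq2 h.1) fun y => by ring
  have e3 := sqA_C1 hg (-3)
  have e3' := sqA_C1 hg 1
  have e3'' : ∫ y, (3 * tn y * g y - z y + -3 * tn y * g y) ^ 2 = ∫ y, z y ^ 2 :=
    integral_congr_ae (.of_forall fun y => by simp only; ring)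
  have e4 : ∫ y, -2 * (g y * Q y) = ∫ y, z y * Q1 y :=
    (hg.isPrim.mul test_Q1.h1.isPrim).integral_eq (integrable_mul2 hg.1 expD_Q1.memLp)
      ((integrable_mul2 hg.1 expD_Q.memLp).const_mul _) (integrable_mul2 h.1 expD_Q1.memLp)
      fun y => by
        rw [Q1, Q2]
        linear_combination 3 * g y * Q y * tn_sq y
  rw [integral_const_mul] at e4
  rw [exp2_C1 hg.1 expD_Q.memLp] at ht
  have l1 : 0 ≤ ∫ y, (zy y + 3 * tn y * z y - 33 / 4 * g y) ^ 2 :=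
    integral_nonneg fun y => sq_nonneg _
  rw [exp2_C1 (memA_C1 h 3) hg.1, e2] at l1
  rw [← e4]
  generalize (∫ y, g y * Q y) = m at *
  generalize (∫ y, Q y ^ 2) = n at *
  have l2 : 2 * t * m - t ^ 2 * n ≤ n⁻¹ * m ^ 2 := by
    rw [← div_eq_inv_mul, le_div_iff₀ hn]
    nlinarith [sq_nonneg (m - t * n)]
  have l3 : 0 ≤ n⁻¹ * m ^ 2 := by positivity
  have l4 : n⁻¹ * (-2 * m) ^ 2 = 4 * (n⁻¹ * m ^ 2) := by ring
  linarith

theorem c1 : C1Stmt := by
  have hn : 0 < ∫ y, Q y ^ 2 := by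
    rw [integral_Q_sq]
    positivity
  have hN : 0 < ∫ y, C0 y ^ 2 :=
    integral_pos_of_integrable_nonneg_nonzero (x := 0) (expD_C0.1.pow 2)
      (integrable_sq2 expD_C0.memLp) (fun y => sq_nonneg _) (pow_pos (pow_pos (Q_pos 0) 3) 2).ne'
  refine ⟨1 / 61, 9 * (∫ y, C0 y ^ 2)⁻¹ + (∫ y, Q y ^ 2)⁻¹, by norm_num, by positivity,
    fun e ey h => ?_⟩
  obtain ⟨al, hal⟩ : ∃ al : ℝ, al * ∫ y, C0 y ^ 2 = ∫ y, e y * C0 y :=
    ⟨_, div_mul_cancel₀ _ hN.ne'⟩
  have hz := h.sub (test_C0.h1.const_mul al)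
  have sp : ∀ {w : ℝ → ℝ}, MemLp w 2 volume → ∫ y, (e y - al * C0 y) * w y =
      (∫ y, e y * w y) - al * ∫ y, w y * C0 y := fun hw => by
    rw [← integral_const_mul, ← integral_sub (integrable_mul2 h.1 hw)
      ((integrable_mul2 hw expD_C0.memLp).const_mul al)]
    exact integral_congr_ae (.of_forall fun y => by simp only; ring)
  have k := key_C1 hz (by rw [sp expD_C0.memLp, ← hal]; simp only [sq, sub_self])
  have e1 : ∫ y, (ey y - al * C1 y + 3 * tn y * (e y - al * C0 y)) ^ 2 =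
      ∫ y, (ey y + 3 * tn y * e y) ^ 2 :=
    integral_congr_ae (.of_forall fun y => by simp only [C0, C1]; ring)
  rw [e1, sqA_C1 h, exp2_C1 h.1 expD_C0.memLp, sp expD_Q1.memLp, integral_Q1_C0, mul_zero,
    sub_zero] at k
  have i1 := integrable_sq2 h.1
  have i2 := integrable_sq2 h.2.1
  have i3 := integrable_bdd_mul i1 expD_sc.bdd
  have e2 : ∫ y, (ey y ^ 2 + e y ^ 2 - V y * e y ^ 2) =
      (∫ y, ey y ^ 2) + 1 * (∫ y, e y ^ 2) + -15 * ∫ y, sc y * e y ^ 2 := by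
    rw [← lin3_C1 i2 i1 i3]
    exact integral_congr_ae (.of_forall fun y => by simp only [V_eq]; ring)
  have l1 := integral_mono i3 i1 fun y => mul_le_of_le_one_left (sq_nonneg _) (sc_le_one y)
  rw [e2, integral_add i1 i2, ← hal]
  rw [← hal] at k
  generalize (∫ y, C0 y ^ 2) = N at *
  generalize (∫ y, Q y ^ 2) = n at *
  generalize (∫ y, e y * Q1 y) = m at *
  have l2 : (9 * N⁻¹ + n⁻¹) * ((al * N) ^ 2 + m ^ 2) =
      9 * (al ^ 2 * N) + 9 * (N⁻¹ * m ^ 2) + n⁻¹ * (al * N) ^ 2 + n⁻¹ * m ^ 2 := by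
    field_simp
    ring
  have l3 : 0 ≤ N⁻¹ * m ^ 2 := by positivity
  have l4 : 0 ≤ n⁻¹ * (al * N) ^ 2 := by positivity
  have l5 : 0 ≤ n⁻¹ * m ^ 2 := by positivity
  have l6 : 0 ≤ al ^ 2 * N := by positivity
  have l7 : 2 * al * (al * N) = 2 * (al ^ 2 * N) := by ring
  linarith

end Pool.Agent.MP_8339a4_an

end

section

/-! Weighted coercivity of the linearised operator for a slowly varying weight. -/

open MeasureTheory Filter Topology Set

namespace Pool.Agent.MP_8339a4_an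

theorem exp_C1w (t : ℝ) : |Real.exp t - 1| ≤ |t| * Real.exp |t| := by
  rcases le_total 0 t with h | h
  · have h1 := Real.add_one_le_exp (-t)
    have h2 : Real.exp t * Real.exp (-t) = 1 := by rw [← Real.exp_add]; simp
    have h3 := Real.one_le_exp h
    have h4 := mul_le_mul_of_nonneg_left h1 (Real.exp_pos t).le
    rw [abs_of_nonneg h, abs_of_nonneg (by linarith)]
    nlinarith
  · have h1 := Real.add_one_le_exp t
    have h2 : Real.exp t ≤ 1 := Real.exp_le_one_iff.2 h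
    have h3 := Real.one_le_exp (abs_nonneg t)
    have h4 := mul_le_mul_of_nonneg_left h3 (abs_nonneg t)
    rw [abs_of_nonpos (by linarith : Real.exp t - 1 ≤ 0)]
    have h5 : |t| = -t := abs_of_nonpos h
    linarith

theorem log_C1w {x ε : ℝ} (hε : ε ≤ 1 / 2) (h : |x - 1| ≤ ε) : |Real.log x| ≤ 2 * ε := by
  obtain ⟨h1, h2⟩ := abs_le.1 h
  have hx : 0 < x := by linarith
  have h3 := Real.log_le_sub_one_of_pos hx
  have h4 := Real.one_sub_inv_le_log_of_pos hx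
  have h0 : 0 ≤ ε := (abs_nonneg _).trans h
  have h5 : x⁻¹ ≤ 1 + 2 * ε := by
    rw [inv_le_iff_one_le_mul₀ hx]
    nlinarith
  rw [abs_le]
  constructor <;> linarith

theorem env_C1w {ψ ψ1 : ℝ → ℝ} {ε : ℝ} (hε : ε ≤ 1 / 20) (hd : ∀ y, HasDerivAt ψ (ψ1 y) y)
    (hp : ∀ y, 0 < ψ y) (hb : ∀ y, |ψ1 y| ≤ ε * ψ y) (h0 : |ψ 0 - 1| ≤ ε) (y : ℝ) :
    |1 - (Real.sqrt (ψ y))⁻¹| ≤ 2 * ε * (Real.exp (|y| / 20) * (1 + |y|)) := by
  have e0 : 0 ≤ ε := (abs_nonneg _).trans h0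
  have hL : ∀ x, HasDerivAt (fun x => Real.log (ψ x)) (ψ1 x / ψ x) x := fun x =>
    (hd x).log (hp x).ne'
  have h1 : ‖Real.log (ψ y) - Real.log (ψ 0)‖ ≤ ε * ‖y - 0‖ :=
    convex_univ.norm_image_sub_le_of_norm_hasDerivWithin_le (f := fun x => Real.log (ψ x))
      (f' := fun x => ψ1 x / ψ x) (fun x _ => (hL x).hasDerivWithinAt) (fun x _ => by
        rw [Real.norm_eq_abs, abs_div, abs_of_pos (hp x), div_le_iff₀ (hp x)]
        exact hb x) (mem_univ 0) (mem_univ y)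
  rw [sub_zero, Real.norm_eq_abs, Real.norm_eq_abs] at h1
  have h2 := log_C1w (by linarith) h0
  have h3 : |Real.log (ψ y)| ≤ ε * |y| + 2 * ε := by
    have := abs_add_le (Real.log (ψ y) - Real.log (ψ 0)) (Real.log (ψ 0))
    rw [sub_add_cancel] at this
    linarith
  have h4 : (Real.sqrt (ψ y))⁻¹ = Real.exp (-(Real.log (ψ y) / 2)) := by
    rw [Real.exp_neg, Real.exp_half, Real.exp_log (hp y)]
  have h5 : |-(Real.log (ψ y) / 2)| ≤ ε * (1 + |y|) := by
    rw [abs_neg, abs_div, abs_two]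
    nlinarith [abs_nonneg y]
  have h6 : Real.exp |-(Real.log (ψ y) / 2)| ≤ 2 * Real.exp (|y| / 20) := by
    have a1 : |-(Real.log (ψ y) / 2)| ≤ 1 / 20 + |y| / 20 := by nlinarith [abs_nonneg y]
    have a2 : Real.exp (1 / 20 : ℝ) ≤ 2 := by
      have := Real.exp_bound_div_one_sub_of_interval (x := 1 / 20) (by norm_num) (by norm_num)
      linarith [show (1 : ℝ) / (1 - 1 / 20) ≤ 2 by norm_num]
    refine (Real.exp_le_exp.2 a1).trans ?_
    rw [Real.exp_add]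
    exact mul_le_mul_of_nonneg_right a2 (Real.exp_pos _).le
  rw [h4, abs_sub_comm]
  refine (exp_C1w _).trans ?_
  refine (mul_le_mul h5 h6 (Real.exp_pos _).le (by positivity)).trans (le_of_eq ?_)
  ring

theorem lin_C1w {ζ e g : ℝ → ℝ} {ε : ℝ} (hε : 0 ≤ ε) (hc : Continuous ζ) (hp : ∀ y, 0 < ζ y)
    (hz : ∀ y, |1 - (ζ y)⁻¹| ≤ 2 * ε * (Real.exp (|y| / 20) * (1 + |y|)))
    (he : MemLp e 2 volume) (hw : MemLp (fun y => e y * ζ y) 2 volume) (hg : ExpD g)
    (hQ : ∀ y, |g y| ≤ 2 * Q y) :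
    (∫ y, e y * ζ y * g y) ^ 2
      ≤ 2 * (∫ y, e y * g y) ^ 2 + 2000 * ε ^ 2 * ∫ y, (e y * ζ y) ^ 2 := by
  have h1 := sq_integral_le_N0 (g := fun y => (1 - (ζ y)⁻¹) * g y) (C := 4 * ε) hw
    ((continuous_const.sub (hc.inv₀ fun y => (hp y).ne')).mul hg.1) fun y => by
      rw [abs_mul]
      refine (mul_le_mul (hz y) (hQ y) (abs_nonneg _) (by positivity)).trans (le_of_eq ?_)
      ring
  have h2 : ∫ y, e y * ζ y * ((1 - (ζ y)⁻¹) * g y)
      = (∫ y, e y * ζ y * g y) - ∫ y, e y * g y := by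
    rw [← integral_sub (integrable_mul2 hw hg.memLp) (integrable_mul2 he hg.memLp)]
    refine integral_congr_ae (ae_of_all _ fun y => ?_)
    have := (hp y).ne'
    field_simp
  have h3 : N0 (fun y => e y * ζ y) ≤ 4 / 3 * ∫ y, (e y * ζ y) ^ 2 := by
    unfold N0
    rw [← integral_const_mul]
    exact integral_mono_of_nonneg (ae_of_all _ fun y => mul_nonneg (Q_pos y).le (sq_nonneg _))
      ((integrable_sq2 hw).const_mul _)
      (ae_of_all _ fun y => mul_le_mul_of_nonneg_right (Q_le y) (sq_nonneg _))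
  have h4 : 0 ≤ ∫ y, (e y * ζ y) ^ 2 := integral_nonneg fun y => sq_nonneg _
  rw [h2] at h1
  have h5 := mul_le_mul_of_nonneg_left h3 (sq_nonneg ε)
  have h6 := mul_nonneg (sq_nonneg ε) h4
  nlinarith [sq_nonneg ((∫ y, e y * ζ y * g y) - 2 * ∫ y, e y * g y)]

theorem pt_C1w {z z1 a b ε : ℝ} (h0 : 0 ≤ ε) (h1 : ε ≤ 1) (hz : 0 ≤ z)
    (h : |z1| ≤ ε / 2 * z) :
    |(b * z + a * z1) ^ 2 - z ^ 2 * b ^ 2| ≤ ε * (z ^ 2 * (a ^ 2 + b ^ 2)) := by
  obtain ⟨h2, h3⟩ := abs_le.1 h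
  have h4 : z1 ^ 2 ≤ (ε / 2 * z) ^ 2 := sq_le_sq' h2 h3
  have h5 : |2 * (a * b) * (z * z1)| ≤ (a ^ 2 + b ^ 2) * (z * (ε / 2 * z)) := by
    rw [abs_mul]
    refine mul_le_mul ?_ ?_ (abs_nonneg _) (by positivity)
    · rw [abs_le]
      constructor <;> nlinarith [sq_nonneg (a - b), sq_nonneg (a + b)]
    · rw [abs_mul, abs_of_nonneg hz]
      exact mul_le_mul_of_nonneg_left h hz
  obtain ⟨h6, h7⟩ := abs_le.1 h5
  have h8 := mul_le_mul_of_nonneg_left h4 (sq_nonneg a)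
  have h9 : a ^ 2 * (ε / 2 * z) ^ 2 ≤ ε / 2 * (z ^ 2 * (a ^ 2 + b ^ 2)) := by
    have a1 : 0 ≤ ε * (z ^ 2 * b ^ 2) := by positivity
    have a2 : 0 ≤ ε * (z ^ 2 * a ^ 2) := by positivity
    have a3 := mul_le_mul_of_nonneg_right h1 a2
    nlinarith
  have h10 : 0 ≤ a ^ 2 * z1 ^ 2 := by positivity
  have h11 : 0 ≤ ε * (z ^ 2 * (a ^ 2 + b ^ 2)) := by positivity
  rw [abs_le]
  constructor <;> nlinarith

theorem core_C1w {c C ε : ℝ} (hc : 0 < c) (hC : 0 ≤ C) (e0 : 0 < ε) (e1 : ε ≤ 1 / 20)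
    (e2 : ε * (2 * (c + 1 + 4000 * C)) ≤ c)
    (h : ∀ e ey : ℝ → ℝ, IsH1 e ey →
      c * ∫ y, (e y ^ 2 + ey y ^ 2) ≤ (∫ y, (ey y ^ 2 + e y ^ 2 - V y * e y ^ 2))
        + C * ((∫ y, e y * C0 y) ^ 2 + (∫ y, e y * Q1 y) ^ 2))
    {ζ ζ1 e ey : ℝ → ℝ} (dz : ∀ y, HasDerivAt ζ (ζ1 y) y) (bz : Bdd ζ) (bz1 : Bdd ζ1)
    (sp : ∀ y, 0 < ζ y) (lz : ∀ y, |ζ1 y| ≤ ε / 2 * ζ y)
    (hz : ∀ y, |1 - (ζ y)⁻¹| ≤ 2 * ε * (Real.exp (|y| / 20) * (1 + |y|))) (he : IsH1 e ey) :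
    c / 2 * ∫ y, ζ y ^ 2 * (e y ^ 2 + ey y ^ 2)
      ≤ (∫ y, ζ y ^ 2 * (ey y ^ 2 + e y ^ 2 - V y * e y ^ 2))
        + 2 * C * ((∫ y, e y * C0 y) ^ 2 + (∫ y, e y * Q1 y) ^ 2) := by
  have hw := he.mul_bdd dz bz bz1
  have h1 := h _ _ hw
  have l1 := lin_C1w e0.le bz.1 sp hz he.1 hw.1 expD_C0 fun y => by
    have a1 := Q_pos y
    have a2 := Q_le y
    have a3 : Q y ^ 2 ≤ 2 := by nlinarith
    unfold C0
    rw [abs_of_pos (pow_pos a1 3)]
    nlinarith
  have l2 := lin_C1w e0.le bz.1 sp hz he.1 hw.1 expD_Q1 fun y => by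
    linarith [abs_Q1_le y, Q_pos y]
  have pt := fun y => abs_le.1 (pt_C1w (a := e y) (b := ey y) e0.le (by linarith) (sp y).le (lz y))
  have i1 := integrable_sq2 he.1
  have i2 := integrable_sq2 he.2.1
  have j1 := integrable_sq2 hw.1
  have j2 := integrable_sq2 hw.2.1
  have iN : Integrable fun y => ζ y ^ 2 * (e y ^ 2 + ey y ^ 2) :=
    integrable_bdd_mul (i1.add i2) (bz.pow 2)
  have iB : Integrable fun y => ζ y ^ 2 * (ey y ^ 2 + e y ^ 2 - V y * e y ^ 2) :=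
    integrable_bdd_mul ((i2.add i1).sub (integrable_bdd_mul i1 expD_V.bdd)) (bz.pow 2)
  have k1 : (1 - ε) * ∫ y, ζ y ^ 2 * (e y ^ 2 + ey y ^ 2)
      ≤ ∫ y, ((e y * ζ y) ^ 2 + (ey y * ζ y + e y * ζ1 y) ^ 2) := by
    rw [← integral_const_mul]
    refine integral_mono (iN.const_mul _) (j1.add j2) fun y => ?_
    have := (pt y).1
    simp only
    nlinarith
  have k2 : ∫ y, ((ey y * ζ y + e y * ζ1 y) ^ 2 + (e y * ζ y) ^ 2 - V y * (e y * ζ y) ^ 2)
      ≤ (∫ y, ζ y ^ 2 * (ey y ^ 2 + e y ^ 2 - V y * e y ^ 2))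
        + ε * ∫ y, ζ y ^ 2 * (e y ^ 2 + ey y ^ 2) := by
    rw [← integral_const_mul, ← integral_add iB (iN.const_mul _)]
    refine integral_mono ((j2.add j1).sub (integrable_bdd_mul j1 expD_V.bdd))
      (iB.add (iN.const_mul _)) fun y => ?_
    have := (pt y).2
    simp only
    nlinarith
  have k3 : ∫ y, (e y * ζ y) ^ 2 ≤ ∫ y, ζ y ^ 2 * (e y ^ 2 + ey y ^ 2) := by
    refine integral_mono j1 iN fun y => ?_
    have : 0 ≤ ζ y ^ 2 * ey y ^ 2 := by positivity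
    simp only
    nlinarith
  have k4 : 0 ≤ ∫ y, ζ y ^ 2 * (e y ^ 2 + ey y ^ 2) := integral_nonneg fun y => by positivity
  generalize ∫ y, ζ y ^ 2 * (e y ^ 2 + ey y ^ 2) = N at *
  generalize ∫ y, (e y * ζ y) ^ 2 = M at *
  have m0 : ε ^ 2 ≤ ε := by nlinarith
  have m1 : ε ^ 2 * M ≤ ε * N :=
    (mul_le_mul_of_nonneg_left k3 (sq_nonneg ε)).trans (mul_le_mul_of_nonneg_right m0 k4)
  have m2 := mul_le_mul_of_nonneg_left (add_le_add l1 l2) hC
  have m3 := mul_le_mul_of_nonneg_left m1 hC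
  have m4 := mul_le_mul_of_nonneg_left k1 hc.le
  have m5 := mul_le_mul_of_nonneg_right e2 k4
  linarith

theorem c1w (h : C1Stmt) : C1wStmt := by
  obtain ⟨c, C, hc, hC, h⟩ := h
  refine ⟨c / 2, 2 * C, min (1 / 20) (c / (2 * (c + 1 + 4000 * C))), by positivity,
    by positivity, by positivity, ?_⟩
  have e0 : 0 < min (1 / 20) (c / (2 * (c + 1 + 4000 * C))) := by positivity
  have e1 : min (1 / 20) (c / (2 * (c + 1 + 4000 * C))) ≤ 1 / 20 := min_le_left _ _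
  have e2 : min (1 / 20) (c / (2 * (c + 1 + 4000 * C))) * (2 * (c + 1 + 4000 * C)) ≤ c :=
    (le_div_iff₀ (by positivity)).1 (min_le_right _ _)
  generalize min (1 / 20) (c / (2 * (c + 1 + 4000 * C))) = ε at e0 e1 e2 ⊢
  intro ψ ψ1 hd hc1 hb hp hl h0 e ey he
  have sp : ∀ y, 0 < Real.sqrt (ψ y) := fun y => Real.sqrt_pos.2 (hp y)
  have ss : ∀ y, Real.sqrt (ψ y) ^ 2 = ψ y := fun y => Real.sq_sqrt (hp y).le
  have dz : ∀ y, HasDerivAt (fun y => Real.sqrt (ψ y)) (ψ1 y / (2 * Real.sqrt (ψ y))) y :=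
    fun y => (hd y).sqrt (hp y).ne'
  have lz : ∀ y, |ψ1 y / (2 * Real.sqrt (ψ y))| ≤ ε / 2 * Real.sqrt (ψ y) := fun y => by
    have := sp y
    rw [abs_div, abs_of_pos (by positivity : 0 < 2 * Real.sqrt (ψ y)),
      div_le_iff₀ (by positivity)]
    refine (hl y).trans (le_of_eq ?_)
    conv_lhs => rw [← ss y]
    ring
  have bz : Bdd (fun y => Real.sqrt (ψ y)) := by
    obtain ⟨k1, K, k2⟩ := hb
    refine ⟨k1.sqrt, Real.sqrt K, fun y => ?_⟩
    rw [abs_of_pos (sp y)]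
    exact Real.sqrt_le_sqrt ((le_abs_self _).trans (k2 y))
  have bz1 : Bdd (fun y => ψ1 y / (2 * Real.sqrt (ψ y))) := by
    obtain ⟨k1, K, k2⟩ := bz
    refine ⟨hc1.div (continuous_const.mul k1) fun y => (mul_pos two_pos (sp y)).ne',
      ε / 2 * K, fun y => (lz y).trans ?_⟩
    exact mul_le_mul_of_nonneg_left ((le_abs_self _).trans (k2 y)) (by positivity)
  have := core_C1w hc hC e0 e1 e2 h dz bz bz1 sp lz (env_C1w e1 hd hp hl h0) he
  simpa only [ss] using this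

end Pool.Agent.MP_8339a4_an

end

section

/-! Coercivity of the weighted quadratic form. -/

open MeasureTheory Filter Topology Set

namespace Pool.Agent.MP_8339a4_an

theorem w_C2 (y : ℝ) : Real.exp (-(|y - 0| / (1 / 6))) ≤ sc y * Q y ^ 2 ∧
    sc y * Q y ^ 2 ≤ 16 * Real.exp (-(|y - 0| / (1 / 6))) := by
  have e : Real.exp (-(|y - 0| / (1 / 6))) = Real.exp (-(4 * |y|)) * Real.exp (-|y|) ^ 2 := by
    rw [← Real.exp_nat_mul, ← Real.exp_add, sub_zero]
    congr 1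
    push_cast
    ring
  rw [e]
  constructor
  · exact mul_le_mul (exp_le_sc y) (pow_le_pow_left₀ (Real.exp_pos _).le (exp_le_Q y) 2)
      (by positivity) (sc_pos y).le
  · have := mul_le_mul (sc_le_exp y) (pow_le_pow_left₀ (Q_pos y).le (Q_le_exp y) 2)
      (by positivity) (by positivity)
    linarith

theorem wq_C2 (y : ℝ) : Real.exp (-(|y - 0| / (1 / 6))) / Q y ^ 2 ≤ sc y := by
  rw [div_le_iff₀ (pow_pos (Q_pos y) 2)]
  exact (w_C2 y).1

theorem bdd_C2 : Bdd fun y => Real.exp (-(|y - 0| / (1 / 6))) / Q y ^ 2 := by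
  refine ⟨Continuous.div (by fun_prop) (expD_Q.1.pow 2) fun y => (pow_pos (Q_pos y) 2).ne', 1,
    fun y => ?_⟩
  rw [abs_of_nonneg (by positivity)]
  exact (wq_C2 y).trans (sc_le_one y)

theorem hardy_C2 {h hy : ℝ → ℝ} (H : IsH1 h hy) :
    ∫ y, sc y * (h y - h 0 / Q 0 * Q y) ^ 2 ≤ 2 * ∫ y, sc y * (hy y + tn y * h y) ^ 2 := by
  have hq : ∀ y, Q y ≠ 0 := fun y => (Q_pos y).ne'
  have mg : MemLp (fun y => hy y + tn y * h y) 2 volume := H.2.1.add (memLp_bdd_mul H.1 bdd_tn)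
  have mj : MemLp (fun y => h y - h 0 / Q 0 * Q y) 2 volume :=
    H.1.sub (expD_Q.const_mul _).memLp
  have p1 : IsPrim (fun y => (Q y)⁻¹) (fun y => tn y / Q y) := by
    refine IsPrim.of_hasDerivAt (fun y => ((hasDerivAt_Q y).inv (hq y)).congr_deriv ?_)
      (bdd_tn.1.div expD_Q.1 hq)
    have := hq y
    rw [Q1]
    field_simp
  have p2 : IsPrim (fun y => h y / Q y) (fun y => (hy y + tn y * h y) / Q y) :=
    (H.isPrim.mul p1).congr (fun y => (div_eq_mul_inv _ _).symm) fun y => by ring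
  have i1 := integrable_bdd_mul (integrable_sq2 H.1) bdd_C2
  have i2 := integrable_bdd_mul (integrable_sq2 mg) bdd_C2
  have i3 := integrable_bdd_mul (integrable_sq2 mj) bdd_C2
  have e : ∀ f : ℝ → ℝ, (fun y => Real.exp (-(|y - 0| / (1 / 6))) * (f y / Q y) ^ 2) =
      fun y => Real.exp (-(|y - 0| / (1 / 6))) / Q y ^ 2 * f y ^ 2 := fun f => funext fun y => by
    ring
  have e3 : (fun y => Real.exp (-(|y - 0| / (1 / 6))) * (h y / Q y - h 0 / Q 0) ^ 2) =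
      fun y => Real.exp (-(|y - 0| / (1 / 6))) / Q y ^ 2 * (h y - h 0 / Q 0 * Q y) ^ 2 :=
    funext fun y => by
      have := hq y
      field_simp
  have k := expHardy (p := 0) (by norm_num : (0 : ℝ) < 1 / 6) p2 (by rw [e]; exact i1)
    (by rw [e]; exact i2)
  rw [e3, e] at k
  have k1 : ∫ y, sc y * (h y - h 0 / Q 0 * Q y) ^ 2 ≤
      ∫ y, 16 * (Real.exp (-(|y - 0| / (1 / 6))) / Q y ^ 2 * (h y - h 0 / Q 0 * Q y) ^ 2) := by
    refine integral_mono (integrable_bdd_mul (integrable_sq2 mj) expD_sc.bdd) (i3.const_mul 16)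
      fun y => ?_
    beta_reduce
    rw [← mul_assoc]
    refine mul_le_mul_of_nonneg_right ?_ (sq_nonneg _)
    rw [← mul_div_assoc, le_div_iff₀ (pow_pos (Q_pos y) 2)]
    exact (w_C2 y).2
  have k2 : ∫ y, Real.exp (-(|y - 0| / (1 / 6))) / Q y ^ 2 * (hy y + tn y * h y) ^ 2 ≤
      ∫ y, sc y * (hy y + tn y * h y) ^ 2 :=
    integral_mono i2 (integrable_bdd_mul (integrable_sq2 mg) expD_sc.bdd) fun y =>
      mul_le_mul_of_nonneg_right (wq_C2 y) (sq_nonneg _)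
  have k3 : 0 ≤ ∫ y, sc y * (hy y + tn y * h y) ^ 2 :=
    integral_nonneg fun y => mul_nonneg (sc_pos y).le (sq_nonneg _)
  rw [integral_const_mul] at k1
  linarith

theorem c2 : C2Stmt := by
  have h4 := integral_Q4_pos
  have hI : 0 ≤ ∫ y, C0 y ^ 2 / sc y :=
    integral_nonneg fun y => div_nonneg (sq_nonneg _) (sc_pos y).le
  have h2 : 0 ≤ ∫ y, sc y * Q y ^ 2 :=
    integral_nonneg fun y => mul_nonneg (sc_pos y).le (sq_nonneg _)
  have iI : Integrable fun y => C0 y ^ 2 / sc y := by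
    refine ((expD_Q.pow 1).const_mul 3).integrable.congr (Eventually.of_forall fun y => ?_)
    have := (sc_pos y).ne'
    have h5 := Q_pow4 y
    simp only [C0]
    field_simp
    linear_combination (-Q y ^ 2) * h5
  set I4 := ∫ y, Q y ^ 4 with hI4
  set I := ∫ y, C0 y ^ 2 / sc y with hII
  set I2 := ∫ y, sc y * Q y ^ 2 with hI2
  have hb : 0 ≤ 12 * I2 / I4 ^ 2 := by positivity
  have hb' : 12 * I2 / I4 ^ 2 * I4 ^ 2 = 12 * I2 := by field_simp
  generalize 12 * I2 / I4 ^ 2 = b at hb hb'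
  have hD : 0 < 2 * (6 + b * I) + 2 := by positivity
  refine ⟨(2 * (6 + b * I) + 2)⁻¹, (2 * (6 + b * I) + 2)⁻¹ * b, by positivity, by positivity,
    fun h hy H => ?_⟩
  have k0 := hardy_C2 H
  generalize h 0 / Q 0 = κ at k0
  have mg : MemLp (fun y => hy y + tn y * h y) 2 volume := H.2.1.add (memLp_bdd_mul H.1 bdd_tn)
  have mj : MemLp (fun y => h y - κ * Q y) 2 volume := H.1.sub (expD_Q.const_mul _).memLp
  have ig := integrable_bdd_mul (integrable_sq2 mg) expD_sc.bdd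
  have ij := integrable_bdd_mul (integrable_sq2 mj) expD_sc.bdd
  have iq : Integrable fun y => sc y * Q y ^ 2 :=
    integrable_bdd_mul (integrable_sq2 expD_Q.memLp) expD_sc.bdd
  have k1 := csd sc_pos (integrable_mul2 mj expD_C0.memLp) ij iI
  have k2 : ∫ y, (h y - κ * Q y) * C0 y = (∫ y, h y * C0 y) - κ * I4 := by
    rw [hI4, ← integral_const_mul, ← integral_sub (integrable_mul2 H.1 expD_C0.memLp)
      ((expD_Q.pow 3).const_mul κ).integrable]
    refine integral_congr_ae (Eventually.of_forall fun y => ?_)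
    simp only [C0]
    ring
  have k3 : ∫ y, sc y * (h y ^ 2 + hy y ^ 2) ≤ ∫ y, (6 * (sc y * (h y - κ * Q y) ^ 2) +
      6 * κ ^ 2 * (sc y * Q y ^ 2) + 2 * (sc y * (hy y + tn y * h y) ^ 2)) := by
    refine integral_mono (integrable_bdd_mul ((integrable_sq2 H.1).add (integrable_sq2 H.2.1))
      expD_sc.bdd) (((ij.const_mul 6).add (iq.const_mul _)).add (ig.const_mul 2)) fun y => ?_
    have t1 : tn y ^ 2 ≤ 1 := by
      have := sc_pos y
      rw [sc] at this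
      linarith
    have t2 : h y ^ 2 + hy y ^ 2 ≤ 6 * (h y - κ * Q y) ^ 2 + 6 * κ ^ 2 * Q y ^ 2 +
        2 * (hy y + tn y * h y) ^ 2 := by
      nlinarith [sq_nonneg (h y - 2 * (κ * Q y)), sq_nonneg (hy y + 2 * (tn y * h y)),
        mul_le_mul_of_nonneg_right t1 (sq_nonneg (h y))]
    have := mul_le_mul_of_nonneg_left t2 (sc_pos y).le
    beta_reduce
    linarith
  have ia : Integrable fun y => 6 * (sc y * (h y - κ * Q y) ^ 2) +
      6 * κ ^ 2 * (sc y * Q y ^ 2) := (ij.const_mul 6).add (iq.const_mul _)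
  rw [integral_add ia (ig.const_mul 2), integral_add (ij.const_mul 6) (iq.const_mul _),
    integral_const_mul, integral_const_mul, integral_const_mul] at k3
  rw [k2, ← hII] at k1
  rw [← hI2] at k3
  have k4 : 0 ≤ ∫ y, sc y * (hy y + tn y * h y) ^ 2 :=
    integral_nonneg fun y => mul_nonneg (sc_pos y).le (sq_nonneg _)
  generalize ∫ y, sc y * (hy y + tn y * h y) ^ 2 = S at *
  generalize ∫ y, sc y * (h y - κ * Q y) ^ 2 = J at *
  generalize ∫ y, h y * C0 y = a at *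
  generalize ∫ y, sc y * (h y ^ 2 + hy y ^ 2) = T at *
  have k5 : (κ * I4) ^ 2 ≤ 2 * a ^ 2 + 2 * (J * I) := by nlinarith [sq_nonneg (2 * a - κ * I4)]
  have k6 : 6 * κ ^ 2 * I2 ≤ b * a ^ 2 + b * I * J := by
    have := mul_le_mul_of_nonneg_left k5 hb
    have e : b * (κ * I4) ^ 2 = 12 * κ ^ 2 * I2 := by linear_combination κ ^ 2 * hb'
    linarith
  have k7 : b * I * J ≤ b * I * (2 * S) := mul_le_mul_of_nonneg_left k0 (by positivity)
  rw [mul_assoc, inv_mul_le_iff₀ hD, mul_add, mul_inv_cancel_left₀ hD.ne']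
  linarith

end Pool.Agent.MP_8339a4_an

end
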