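import Pool.Agent.MP_8339a4_an.Defs

section

/-! Working definitions for the proof (none of them occurs in the final statement). -/

open MeasureTheory Filter Topology Set

namespace Pool.Agent.MP_8339a4_an

noncomputable section

/-! ### Function classes -/

/-- `f` is a primitive of the locally integrable function `g`. -/
def IsPrim (f g : ℝ → ℝ) : Prop :=
  (∀ a b : ℝ, IntervalIntegrable g volume a b) ∧ ∀ a b : ℝ, f b - f a = ∫ x in a..b, g x

/-- Bounded continuous. -/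
def Bdd (f : ℝ → ℝ) : Prop := Continuous f ∧ ∃ C : ℝ, ∀ y, |f y| ≤ C

/-- Continuous with exponential decay. -/
def ExpD (f : ℝ → ℝ) : Prop :=
  Continuous f ∧ ∃ C c : ℝ, 0 < c ∧ ∀ y, |f y| ≤ C * Real.exp (-(c * |y|))

/-- `C^3` function with its first three derivatives. -/
structure Sm3 (f f1 f2 f3 : ℝ → ℝ) : Prop where
  d1 : ∀ y, HasDerivAt f (f1 y) y
  d2 : ∀ y, HasDerivAt f1 (f2 y) y
  d3 : ∀ y, HasDerivAt f2 (f3 y) y
  c3 : Continuous f3

/-- Test function: `C^3`, exponentially decaying with three derivatives. -/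
structure Test (f f1 f2 f3 : ℝ → ℝ) : Prop where
  sm : Sm3 f f1 f2 f3
  e0 : ExpD f
  e1 : ExpD f1
  e2 : ExpD f2
  e3 : ExpD f3

/-- Weight: `C^3`, bounded with three derivatives, `y W'(y)` bounded. -/
structure Wt (f f1 f2 f3 : ℝ → ℝ) : Prop where
  sm : Sm3 f f1 f2 f3
  b0 : Bdd f
  b1 : Bdd f1
  b2 : Bdd f2
  b3 : Bdd f3
  by1 : Bdd (fun y => y * f1 y)

/-- The upper right Dini derivative of `f` at `s` is at most `c`. -/
def DiniLe (f : ℝ → ℝ) (s c : ℝ) : Prop := ∀ r, c < r → ∀ᶠ z in 𝓝[>] s, slope f s z < r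

/-! ### Modes of convergence of families of functions along a filter -/

/-- Uniform convergence of bounded continuous functions. -/
def UT {α : Type} (l : Filter α) (f : α → ℝ → ℝ) (g : ℝ → ℝ) : Prop :=
  (∀ᶠ z in l, Bdd (f z)) ∧ Bdd g ∧ ∀ ε : ℝ, 0 < ε → ∀ᶠ z in l, ∀ y, |f z y - g y| ≤ ε

/-- Convergence in `L^2`. -/
def L2T {α : Type} (l : Filter α) (f : α → ℝ → ℝ) (g : ℝ → ℝ) : Prop :=
  (∀ᶠ z in l, MemLp (f z) 2 volume) ∧ MemLp g 2 volume ∧
    Tendsto (fun z => ∫ y, (f z y - g y) ^ 2) l (𝓝 0)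

/-- Convergence in `L^1`. -/
def L1T {α : Type} (l : Filter α) (f : α → ℝ → ℝ) (g : ℝ → ℝ) : Prop :=
  (∀ᶠ z in l, Integrable (f z)) ∧ Integrable g ∧
    Tendsto (fun z => ∫ y, |f z y - g y|) l (𝓝 0)

/-- Convergence in `H^1`. -/
def H1T {α : Type} (l : Filter α) (f fy : α → ℝ → ℝ) (g gy : ℝ → ℝ) : Prop :=
  (∀ᶠ z in l, IsH1 (f z) (fy z)) ∧ IsH1 g gy ∧
    Tendsto (fun z => ∫ y, ((f z y - g y) ^ 2 + (fy z y - gy y) ^ 2)) l (𝓝 0)

/-- Moving bounded weight: pointwise time derivative `wt` at time `s`, uniform Lipschitz bound. -/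
def MW (w : ℝ → ℝ → ℝ) (wt : ℝ → ℝ) (s : ℝ) : Prop :=
  (∀ᶠ z in 𝓝 s, Bdd (w z)) ∧ Continuous wt ∧ (∀ y, HasDerivAt (fun z => w z y) (wt y) s) ∧
    ∃ C : ℝ, ∀ᶠ z in 𝓝 s, ∀ y, |w z y - w s y| ≤ C * |z - s|

/-- Moving weight with an exponentially decaying Lipschitz envelope. -/
def ME (w : ℝ → ℝ → ℝ) (wt : ℝ → ℝ) (s : ℝ) : Prop :=
  (∀ᶠ z in 𝓝 s, Continuous (w z)) ∧ Continuous wt ∧
    (∀ y, HasDerivAt (fun z => w z y) (wt y) s) ∧
    ∃ C c : ℝ, 0 < c ∧ ∀ᶠ z in 𝓝 s, ∀ y, |w z y - w s y| ≤ C * |z - s| * Real.exp (-(c * |y|))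

/-! ### The soliton and related functions -/

/-- `tanh (2y) = -Q'/Q`. -/
def tn (y : ℝ) : ℝ := Real.tanh (2 * y)
/-- `sech^2 (2y)`. -/
def sc (y : ℝ) : ℝ := 1 - tn y ^ 2
def Q1 (y : ℝ) : ℝ := -(tn y * Q y)
def Q2 (y : ℝ) : ℝ := Q y - Q y ^ 5
/-- The potential of the linearised operator `L = -∂² + 1 - V`. -/
def V (y : ℝ) : ℝ := 5 * Q y ^ 4
def V1 (y : ℝ) : ℝ := -(4 * tn y * V y)
def Q3 (y : ℝ) : ℝ := Q1 y * (1 - V y)
def Q4 (y : ℝ) : ℝ := Q2 y * (1 - V y) - Q1 y * V1 y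
/-- `Q^3` and its derivatives. -/
def C0 (y : ℝ) : ℝ := Q y ^ 3
def C1 (y : ℝ) : ℝ := -(3 * tn y * Q y ^ 3)
def C2 (y : ℝ) : ℝ := (9 - V y) * Q y ^ 3
def C3 (y : ℝ) : ℝ := tn y * (7 * V y - 27) * Q y ^ 3
/-- `ΛQ = Q/2 + yQ'` and its derivatives. -/
def LQ (y : ℝ) : ℝ := Q y / 2 + y * Q1 y
def LQ1 (y : ℝ) : ℝ := 3 / 2 * Q1 y + y * Q2 y
def LQ2 (y : ℝ) : ℝ := 5 / 2 * Q2 y + y * Q3 y
/-- Primitive of `ΛQ` vanishing at `-∞`. -/
def rho (y : ℝ) : ℝ := ∫ x in Iic y, LQ x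
/-- `∫ ΛQ`. -/
def mm : ℝ := ∫ x, LQ x
/-- The nonlinear remainder `U^5 - Q^5 - 5 Q^4 e` at the point `y`, for the value `e`. -/
def NN (y e : ℝ) : ℝ := (Q y + e) ^ 5 - Q y ^ 5 - 5 * Q y ^ 4 * e
/-- `(U^6 - Q^6 - 6 Q^5 e)/3` at the point `y`, for the value `e`. -/
def PP (y e : ℝ) : ℝ := ((Q y + e) ^ 6 - Q y ^ 6 - 6 * Q y ^ 5 * e) / 3

/-! ### The logistic function -/

def P0 (x : ℝ) : ℝ := Real.sigmoid x
def P1 (x : ℝ) : ℝ := P0 x * (1 - P0 x)
def P2 (x : ℝ) : ℝ := P1 x * (1 - 2 * P0 x)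
def P3 (x : ℝ) : ℝ := P1 x * (1 - 6 * P1 x)
def P4 (x : ℝ) : ℝ := P2 x * (1 - 12 * P1 x)

/-- The step `Ψ((r y - A)/K)` and its `y`-derivatives. -/
def ph (r A K y : ℝ) : ℝ := P0 ((r * y - A) / K)
def ph1 (r A K y : ℝ) : ℝ := r / K * P1 ((r * y - A) / K)
def ph2 (r A K y : ℝ) : ℝ := (r / K) ^ 2 * P2 ((r * y - A) / K)
def ph3 (r A K y : ℝ) : ℝ := (r / K) ^ 3 * P3 ((r * y - A) / K)
def ph4 (r A K y : ℝ) : ℝ := (r / K) ^ 4 * P4 ((r * y - A) / K)

/-! ### Right-hand sides of the local laws -/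

/-- Physical variables: mass flux density. -/
def fl1 (u ux W1 W3 : ℝ) : ℝ := -3 * ux ^ 2 * W1 + u ^ 2 * W3 + 5 / 3 * u ^ 6 * W1

/-- Physical variables: upper bound for the energy flux density (`g` is an arbitrary `H^1`
function standing for `u_xx`). -/
def fl2 (u ux g gy W1 W2 W3 : ℝ) : ℝ :=
  3 * (2 * (gy * W1 + g * W2) * ux + g ^ 2 * W1) + 20 * u ^ 4 * ux ^ 2 * W1 - u ^ 10 * W1
    - u ^ 6 * W3 / 3 + ux ^ 2 * W3

/-- Energy density. -/
def en (u ux : ℝ) : ℝ := ux ^ 2 - u ^ 6 / 3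

/-- Derivative of `∫ e θ` in rescaled variables. -/
def rhs0 (β γ : ℝ) (e θ θ1 θ3 : ℝ → ℝ) : ℝ :=
  ∫ y, (e y * (θ3 y - θ1 y + V y * θ1 y) + NN y (e y) * θ1 y - β * (LQ y * θ y)
    + γ * (Q1 y * θ y) + β * (e y * (θ y / 2 + y * θ1 y)) - γ * (e y * θ1 y))

/-- Derivative of `∫ U² W` in rescaled variables, `U = Q + e`. -/
def rhs1 (β γ : ℝ) (e ey W1 W3 : ℝ → ℝ) : ℝ :=
  ∫ y, (fl1 (Q y + e y) (Q1 y + ey y) (W1 y) (W3 y) - (1 + γ) * ((Q y + e y) ^ 2 * W1 y)
    + β * ((Q y + e y) ^ 2 * (y * W1 y)))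

/-- Upper bound for the derivative of `∫ (U_y² - U⁶/3) W` in rescaled variables. -/
def rhs2 (β γ : ℝ) (e ey g gy W W1 W2 W3 : ℝ → ℝ) : ℝ :=
  ∫ y, (fl2 (Q y + e y) (Q1 y + ey y) (g y) (gy y) (W1 y) (W2 y) (W3 y)
    - (1 + γ) * (en (Q y + e y) (Q1 y + ey y) * W1 y)
    - 2 * β * (en (Q y + e y) (Q1 y + ey y) * W y)
    + β * (en (Q y + e y) (Q1 y + ey y) * (y * W1 y)))

/-- The rescaled, modulated flow at time `s`; `w` is the speed of the clock (`w = lam^(-3)` in the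
physical time, `w = 1` in the rescaled time). -/
structure FlowAt (e ey : ℝ → ℝ → ℝ) (lam β γ : ℝ → ℝ) (w s : ℝ) : Prop where
  h1t : H1T (𝓝 s) e ey (e s) (ey s)
  pos : 0 < lam s
  dlam : HasDerivAt lam (w * (-(β s) * lam s)) s
  orth : ∀ᶠ z in 𝓝 s, (∫ y, e z y * C0 y) = 0 ∧ (∫ y, e z y * Q1 y) = 0
  d0 : ∀ θ θ1 θ2 θ3 : ℝ → ℝ, Test θ θ1 θ2 θ3 →
    HasDerivAt (fun z => ∫ y, e z y * θ y) (w * rhs0 (β s) (γ s) (e s) θ θ1 θ3) s
  d1 : ∀ W W1 W2 W3 : ℝ → ℝ, Wt W W1 W2 W3 →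
    HasDerivAt (fun z => ∫ y, (Q y + e z y) ^ 2 * W y)
      (w * rhs1 (β s) (γ s) (e s) (ey s) W1 W3) s
  d2 : ∀ W W1 W2 W3 : ℝ → ℝ, Wt W W1 W2 W3 → (∀ y, 0 ≤ W1 y) → ∀ g gy : ℝ → ℝ, IsH1 g gy →
    DiniLe (fun z => ∫ y, en (Q y + e z y) (Q1 y + ey z y) * W y) s
      (w * rhs2 (β s) (γ s) (e s) (ey s) g gy W W1 W2 W3)

/-- `∫ Q e²`. -/
def N0 (e : ℝ → ℝ) : ℝ := ∫ y, Q y * e y ^ 2
/-- `∫ e Q`. -/
def mu (e : ℝ → ℝ) : ℝ := ∫ y, e y * Q y
/-- `∫ Ψ'(y/b) (e² + e_y²)`. -/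
def Nw (b : ℝ) (e ey : ℝ → ℝ) : ℝ := ∫ y, P1 (y / b) * (e y ^ 2 + ey y ^ 2)

/-- Local mass at most `d` on all intervals of length `l`. -/
def LocM (e : ℝ → ℝ) (l d : ℝ) : Prop := ∀ x : ℝ, ∫ y in x..(x + l), e y ^ 2 ≤ d

/-- The situation in rescaled time `s → ∞`. -/
structure Setup (κ s0 r0 r1 M η d Cp : ℝ) (e ey : ℝ → ℝ → ℝ) (lam β γ : ℝ → ℝ) : Prop where
  hs0 : 1 ≤ s0
  hr0 : 0 < r0
  hη : 0 < η
  hd : d < ∫ y, Q y ^ 2
  flow : ∀ s, s0 < s → FlowAt e ey lam β γ 1 s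
  rate : ∀ s, s0 < s → r0 ≤ lam s * s ^ κ ∧ lam s * s ^ κ ≤ r1
  mass : ∀ s, s0 < s → ∫ y, e s y ^ 2 ≤ M
  loc : ∀ s, s0 < s → LocM (e s) (η / lam s) d
  n0 : Tendsto (fun s => N0 (e s)) atTop (𝓝 0)
  ey0 : Tendsto (fun s => ∫ y, ey s y ^ 2) atTop (𝓝 0)
  par : ∀ s, s0 < s → β s ^ 2 + γ s ^ 2 ≤ Cp * N0 (e s)
  mulo : ∀ s, s0 < s → -(Cp * (lam s ^ 2 + N0 (e s))) ≤ mu (e s)

/-- The situation after the reflection `(t,x) ↦ (-t,-x)`: blow-up forward in time at `t = 0`. -/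
structure Phys (T ν : ℝ) (u ux : ℝ → ℝ → ℝ) (lt st : ℝ → ℝ) (x0 : ℝ) : Prop where
  neg : T < 0
  sol : IsSol (Ico T 0) u ux
  rate : ∃ c C : ℝ, 0 < c ∧ ∀ t ∈ Ico T (0 : ℝ), c * (-t) ^ (-ν) ≤ Real.sqrt (∫ x, ux t x ^ 2) ∧
    Real.sqrt (∫ x, ux t x ^ 2) ≤ C * (-t) ^ (-ν)
  clt : ContinuousOn lt (Ico T 0)
  cst : ContinuousOn st (Ico T 0)
  pos : ∀ t ∈ Ico T (0 : ℝ), 0 < lt t
  lt0 : Tendsto lt (𝓝[<] 0) (𝓝 0)
  st0 : Tendsto st (𝓝[<] 0) (𝓝 x0)
  conv : ∀ R : ℝ, 0 < R → Tendsto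
    (fun t => ∫ y in (-R)..R, (Real.sqrt (lt t) * u t (lt t * y + st t) - Q y) ^ 2)
    (𝓝[<] 0) (𝓝 0)
  single : ∃ η d : ℝ, 0 < η ∧ d < ∫ y, Q y ^ 2 ∧ ∀ᶠ t in 𝓝[<] (0 : ℝ), ∀ x : ℝ,
    ∫ z in x..(x + η), (u t z - Q ((z - st t) / lt t) / Real.sqrt (lt t)) ^ 2 ≤ d

/-- The rescaled remainder and its derivative. -/
def resc (u : ℝ → ℝ → ℝ) (lam sig : ℝ → ℝ) (t y : ℝ) : ℝ :=
  Real.sqrt (lam t) * u t (lam t * y + sig t) - Q y
def rescy (ux : ℝ → ℝ → ℝ) (lam sig : ℝ → ℝ) (t y : ℝ) : ℝ :=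
  Real.sqrt (lam t) * lam t * ux t (lam t * y + sig t) - Q1 y

/-- Differentiable modulation parameters with the two orthogonality conditions on `(T1, 0)`. -/
structure Modu (T1 : ℝ) (u : ℝ → ℝ → ℝ) (lam sig lam' sig' : ℝ → ℝ) : Prop where
  neg : T1 < 0
  pos : ∀ t ∈ Ioo T1 (0 : ℝ), 0 < lam t
  dl : ∀ t ∈ Ioo T1 (0 : ℝ), HasDerivAt lam (lam' t) t
  ds : ∀ t ∈ Ioo T1 (0 : ℝ), HasDerivAt sig (sig' t) t
  orth : ∀ t ∈ Ioo T1 (0 : ℝ),
    (∫ y, resc u lam sig t y * C0 y) = 0 ∧ (∫ y, resc u lam sig t y * Q1 y) = 0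

/-! ### The weights and the scalar quantities at a fixed time
(`r = lam s * s^κ`, `A = CA * log s`) -/

/-- `W = e^{A/B} Ψ((ry - A)/B)` and its derivatives. -/
def WW (r A B y : ℝ) : ℝ := Real.exp (A / B) * ph r A B y
def WW1 (r A B y : ℝ) : ℝ := Real.exp (A / B) * ph1 r A B y
def WW2 (r A B y : ℝ) : ℝ := Real.exp (A / B) * ph2 r A B y
def WW3 (r A B y : ℝ) : ℝ := Real.exp (A / B) * ph3 r A B y
def WW4 (r A B y : ℝ) : ℝ := Real.exp (A / B) * ph4 r A B y
/-- `ψ_M = W (1 - φ)`. -/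
def pM (r A K B y : ℝ) : ℝ := WW r A B y * (1 - ph r A K y)

def qa (r A K : ℝ) (e : ℝ → ℝ) : ℝ := ∫ y, e y * ph1 r A K y
def qf (r A K : ℝ) (ey : ℝ → ℝ) : ℝ := ∫ y, ph1 r A K y * ey y ^ 2
def qK (r A K : ℝ) (ey : ℝ → ℝ) : ℝ := ∫ y, ph r A K y * ey y ^ 2
def q6 (r A K : ℝ) (e : ℝ → ℝ) : ℝ := ∫ y, ph r A K y * e y ^ 6
def qm (r A K : ℝ) (e : ℝ → ℝ) : ℝ := ∫ y, (Q y + e y) ^ 2 * ph r A K y
def qe (r A K : ℝ) (e ey : ℝ → ℝ) : ℝ := ∫ y, en (Q y + e y) (Q1 y + ey y) * ph r A K y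
def qaL (r A K : ℝ) (e : ℝ → ℝ) : ℝ := ∫ y, e y * (ph1 r (-A) K y - ph3 r (-A) K y)
def qD (r A K B : ℝ) (e ey : ℝ → ℝ) : ℝ := ∫ y, pM r A K B y * (e y ^ 2 + ey y ^ 2)
/-- `J_R` is `qJ r A K e`, `J_L` is `qJ r (-A) K e`. -/
def qJ (r A K : ℝ) (e : ℝ → ℝ) : ℝ := ∫ y, e y * (rho y - mm * ph r A K y)
def qM (r A K : ℝ) (e : ℝ → ℝ) : ℝ :=
  (∫ y, (Q y + e y) ^ 2 * (ph r (-A) K y - ph r A K y)) - ∫ y, Q y ^ 2
/-- `∫ W (e_y² + e² - P)` for a general weight. -/
def qH (W e ey : ℝ → ℝ) : ℝ := ∫ y, (ey y ^ 2 + e y ^ 2 - PP y (e y)) * W y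
def qF (r A K B : ℝ) (e ey : ℝ → ℝ) : ℝ :=
  qH (WW r A B) e ey - ∫ y, (Q y + e y) ^ 2 * (WW r A B y * ph r A K y)

/-- `r(s) = lam(s) s^κ`. -/
def rr (κ : ℝ) (lam : ℝ → ℝ) (s : ℝ) : ℝ := lam s * s ^ κ
/-- `A(s) = CA log s`. -/
def AA (CA s : ℝ) : ℝ := CA * Real.log s
/-- `Λ(s) = s^(1/100)`. -/
def Lm (s : ℝ) : ℝ := s ^ ((1 : ℝ) / 100)

/-- Constraints on the parameters `K`, `CA`. -/
structure Par (κ r1 K CA : ℝ) : Prop where
  hκ : 3 / 2 ≤ κ
  hK : 100 * (r1 + 1) ≤ K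
  hCA : (2 * κ + 10) * K ≤ CA

end

end Pool.Agent.MP_8339a4_an

end

section

/-! API: primitives of locally integrable functions. -/

open MeasureTheory Filter Topology Set

namespace Pool.Agent.MP_8339a4_an

variable {f g F G : ℝ → ℝ}

theorem IsPrim.eq_T1 (h : IsPrim f g) (c : ℝ) : f = fun y => f c + ∫ x in c..y, g x := by
  funext y
  have := h.2 c y
  linarith

theorem IsPrim.li_T1 (h : IsPrim f g) : LocallyIntegrable g volume := by
  intro x
  refine ⟨Ioc (x - 1) (x + 1), ?_, (h.1 (x - 1) (x + 1)).1⟩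
  exact Ioc_mem_nhds (by linarith) (by linarith)

theorem IsPrim.ac_T1 (h : IsPrim f g) (a b : ℝ) : AbsolutelyContinuousOnInterval f a b := by
  have h1 : AbsolutelyContinuousOnInterval (fun _ : ℝ => f a) a b :=
    (contDiffOn_const (c := f a)).absolutelyContinuousOnInterval
  have h2 := (h.1 a b).absolutelyContinuousOnInterval_intervalIntegral (c := a) left_mem_uIcc
  have h3 := h1.fun_add h2
  rw [← h.eq_T1 a] at h3
  exact h3

theorem of_ac_T1 (h1 : ∀ a b, AbsolutelyContinuousOnInterval f a b)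
    (h2 : ∀ᵐ y, HasDerivAt f (g y) y) (h3 : ∀ a b, IntervalIntegrable g volume a b) :
    IsPrim f g := by
  refine ⟨h3, fun a b => ?_⟩
  rw [← (h1 a b).integral_deriv_eq_sub]
  apply intervalIntegral.integral_congr_ae
  filter_upwards [h2] with y hy _
  exact hy.deriv

theorem IsH1.isPrim (h : IsH1 f g) : IsPrim f g := by
  refine ⟨fun a b => ?_, h.2.2⟩
  have h1 : LocallyIntegrable g volume := h.2.1.locallyIntegrable (by norm_num)
  exact (h1.integrableOn_isCompact isCompact_uIcc).intervalIntegrable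

theorem IsPrim.continuous (h : IsPrim f g) : Continuous f := by
  rw [h.eq_T1 0]
  exact continuous_const.add (intervalIntegral.continuous_primitive h.1 0)

theorem IsPrim.aestronglyMeasurable (h : IsPrim f g) : AEStronglyMeasurable g volume :=
  h.li_T1.aestronglyMeasurable

theorem IsPrim.ae_hasDerivAt (h : IsPrim f g) : ∀ᵐ y, HasDerivAt f (g y) y := by
  filter_upwards [_root_.LocallyIntegrable.ae_hasDerivAt_integral h.li_T1] with y hy
  have h1 := (hy 0).const_add (f 0)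
  rw [← h.eq_T1 0] at h1
  exact h1

theorem IsPrim.congr (h : IsPrim f g) (h1 : ∀ y, f y = F y) (h2 : ∀ y, g y = G y) :
    IsPrim F G := by
  have e1 : f = F := funext h1
  have e2 : g = G := funext h2
  rw [← e1, ← e2]
  exact h

theorem IsPrim.const (c : ℝ) : IsPrim (fun _ => c) (fun _ => 0) :=
  ⟨fun _ _ => intervalIntegrable_const, fun a b => by simp⟩

theorem IsPrim.add (h : IsPrim f g) (H : IsPrim F G) :
    IsPrim (fun y => f y + F y) (fun y => g y + G y) := by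
  refine ⟨fun a b => (h.1 a b).add (H.1 a b), fun a b => ?_⟩
  rw [intervalIntegral.integral_add (h.1 a b) (H.1 a b), ← h.2 a b, ← H.2 a b]
  ring

theorem IsPrim.sub (h : IsPrim f g) (H : IsPrim F G) :
    IsPrim (fun y => f y - F y) (fun y => g y - G y) := by
  refine ⟨fun a b => (h.1 a b).sub (H.1 a b), fun a b => ?_⟩
  rw [intervalIntegral.integral_sub (h.1 a b) (H.1 a b), ← h.2 a b, ← H.2 a b]
  ring

theorem IsPrim.neg (h : IsPrim f g) : IsPrim (fun y => -f y) (fun y => -g y) := by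
  refine ⟨fun a b => (h.1 a b).neg, fun a b => ?_⟩
  rw [intervalIntegral.integral_neg, ← h.2 a b]
  ring

theorem IsPrim.const_mul (h : IsPrim f g) (c : ℝ) :
    IsPrim (fun y => c * f y) (fun y => c * g y) := by
  refine ⟨fun a b => (h.1 a b).const_mul c, fun a b => ?_⟩
  rw [intervalIntegral.integral_const_mul, ← h.2 a b]
  ring

theorem IsPrim.mul (h : IsPrim f g) (H : IsPrim F G) :
    IsPrim (fun y => f y * F y) (fun y => g y * F y + f y * G y) := by
  refine of_ac_T1 (fun a b => (h.ac_T1 a b).fun_mul (H.ac_T1 a b)) ?_ (fun a b => ?_)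
  · filter_upwards [h.ae_hasDerivAt, H.ae_hasDerivAt] with y h1 h2
    exact h1.fun_mul h2
  · exact ((h.1 a b).mul_continuousOn H.continuous.continuousOn).add
      ((H.1 a b).continuousOn_mul h.continuous.continuousOn)

theorem IsPrim.of_hasDerivAt (h : ∀ y, HasDerivAt f (g y) y) (hg : Continuous g) :
    IsPrim f g :=
  ⟨fun a b => hg.intervalIntegrable a b, fun a b =>
    (intervalIntegral.integral_eq_sub_of_hasDerivAt (fun y _ => h y)
      (hg.intervalIntegrable a b)).symm⟩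

theorem ac_comp_T1 {a b : ℝ} (hf : AbsolutelyContinuousOnInterval f a b)
    (hF : ∀ x, HasDerivAt F (G x) x) (hG : Continuous G) :
    AbsolutelyContinuousOnInterval (fun y => F (f y)) a b := by
  obtain ⟨C, hC⟩ := hf.exists_bound
  obtain ⟨D, hD⟩ := (isCompact_Icc (a := -C) (b := C)).exists_bound_of_continuousOn
    hG.continuousOn
  have key : ∀ u ∈ Icc (-C) C, ∀ v ∈ Icc (-C) C, ‖F v - F u‖ ≤ D * ‖v - u‖ := fun u hu v hv =>
    (convex_Icc (-C) C).norm_image_sub_le_of_norm_hasDerivWithin_le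
      (fun x _ => (hF x).hasDerivWithinAt) hD hu hv
  have mem : ∀ x ∈ uIcc a b, f x ∈ Icc (-C) C := fun x hx => abs_le.1 (hC x hx)
  unfold AbsolutelyContinuousOnInterval at hf ⊢
  apply squeeze_zero' ?_ ?_ (by simpa using hf.const_mul D)
  · exact Filter.Eventually.of_forall <| fun _ ↦ Finset.sum_nonneg (fun i hi ↦ dist_nonneg)
  rw [eventually_inf_principal]
  filter_upwards with E hE
  rw [Finset.mul_sum]
  refine Finset.sum_le_sum fun i hi => ?_
  have h1 := hE.1 i hi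
  rw [dist_eq_norm, dist_eq_norm]
  exact key _ (mem _ h1.2) _ (mem _ h1.1)

theorem IsPrim.comp (h : IsPrim f g) (hF : ∀ x, HasDerivAt F (G x) x) (hG : Continuous G) :
    IsPrim (fun y => F (f y)) (fun y => G (f y) * g y) := by
  refine of_ac_T1 (fun a b => ac_comp_T1 (h.ac_T1 a b) hF hG) ?_ (fun a b => ?_)
  · filter_upwards [h.ae_hasDerivAt] with y h1
    exact (hF (f y)).comp y h1
  · exact (h.1 a b).continuousOn_mul (hG.comp h.continuous).continuousOn

theorem IsPrim.pow (h : IsPrim f g) (n : ℕ) :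
    IsPrim (fun y => f y ^ (n + 1)) (fun y => ((n : ℝ) + 1) * f y ^ n * g y) := by
  have h1 : ∀ x : ℝ, HasDerivAt (fun x : ℝ => x ^ (n + 1)) (((n : ℝ) + 1) * x ^ n) x := by
    intro x
    simpa using hasDerivAt_pow (n + 1) x
  exact h.comp h1 (by fun_prop)

theorem IsPrim.comp_affine (h : IsPrim f g) (a b : ℝ) :
    IsPrim (fun y => f (a * y + b)) (fun y => a * g (a * y + b)) := by
  refine ⟨fun p q => ?_, fun p q => ?_⟩
  · rcases eq_or_ne a 0 with ha | ha
    · subst ha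
      simp
    · have h1 := ((h.1 (a * p + b) (a * q + b)).comp_add_right b).comp_mul_left (c := a)
      have e1 : (a * p + b - b) / a = p := by field_simp; ring
      have e2 : (a * q + b - b) / a = q := by field_simp; ring
      rw [e1, e2] at h1
      exact h1.const_mul a
  · rw [intervalIntegral.integral_const_mul, h.2]
    exact (intervalIntegral.smul_integral_comp_mul_add g a b).symm

theorem IsPrim.lim_top_T1 (h : IsPrim f g) {p : ℝ} (i2 : IntegrableOn g (Ioi p)) :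
    Tendsto f atTop (𝓝 (f p + ∫ y in Ioi p, g y)) := by
  have h1 := (intervalIntegral_tendsto_integral_Ioi p i2 tendsto_id).const_add (f p)
  refine h1.congr fun y => ?_
  have := h.2 p y
  simp only [id]
  linarith

theorem IsPrim.lim_bot_T1 (h : IsPrim f g) {p : ℝ} (i2 : IntegrableOn g (Iic p)) :
    Tendsto f atBot (𝓝 (f p - ∫ y in Iic p, g y)) := by
  have h1 := (intervalIntegral_tendsto_integral_Iic p i2 tendsto_id).const_sub (f p)
  refine h1.congr fun y => ?_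
  have := h.2 y p
  simp only [id]
  linarith

theorem IsPrim.tendsto_atTop (h : IsPrim f g) {p : ℝ} (i1 : IntegrableOn f (Ioi p))
    (i2 : IntegrableOn g (Ioi p)) : Tendsto f atTop (𝓝 0) := by
  have h1 := h.lim_top_T1 i2
  have h2 : IntegrableAtFilter f atTop volume := ⟨Ioi p, Ioi_mem_atTop p, i1⟩
  have h3 := h2.eq_zero_of_tendsto (fun s hs => by
    rcases mem_atTop_sets.1 hs with ⟨b, hb⟩
    rw [← top_le_iff, ← Real.volume_Ici (a := b)]
    exact measure_mono hb) h1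
  rwa [h3] at h1

theorem IsPrim.tendsto_atBot (h : IsPrim f g) {p : ℝ} (i1 : IntegrableOn f (Iic p))
    (i2 : IntegrableOn g (Iic p)) : Tendsto f atBot (𝓝 0) := by
  have h1 := h.lim_bot_T1 i2
  have h2 : IntegrableAtFilter f atBot volume := ⟨Iic p, Iic_mem_atBot p, i1⟩
  have h3 := h2.eq_zero_of_tendsto (fun s hs => by
    rcases mem_atBot_sets.1 hs with ⟨b, hb⟩
    rw [← top_le_iff, ← Real.volume_Iic (a := b)]
    exact measure_mono hb) h1
  rwa [h3] at h1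

theorem IsPrim.integral_Ioi_of_tendsto (h : IsPrim f g) {p b : ℝ} (i2 : IntegrableOn g (Ioi p))
    (hb : Tendsto f atTop (𝓝 b)) : ∫ y in Ioi p, g y = b - f p := by
  have := tendsto_nhds_unique (h.lim_top_T1 i2) hb
  linarith

theorem IsPrim.integral_Iic_of_tendsto (h : IsPrim f g) {p a : ℝ} (i2 : IntegrableOn g (Iic p))
    (ha : Tendsto f atBot (𝓝 a)) : ∫ y in Iic p, g y = f p - a := by
  have := tendsto_nhds_unique (h.lim_bot_T1 i2) ha
  linarith

theorem IsPrim.integral_Ioi (h : IsPrim f g) {p : ℝ} (i1 : IntegrableOn f (Ioi p))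
    (i2 : IntegrableOn g (Ioi p)) : ∫ y in Ioi p, g y = -f p := by
  rw [h.integral_Ioi_of_tendsto i2 (h.tendsto_atTop i1 i2), zero_sub]

theorem IsPrim.integral_Iic (h : IsPrim f g) {p : ℝ} (i1 : IntegrableOn f (Iic p))
    (i2 : IntegrableOn g (Iic p)) : ∫ y in Iic p, g y = f p := by
  rw [h.integral_Iic_of_tendsto i2 (h.tendsto_atBot i1 i2), sub_zero]

theorem IsPrim.integral_of_tendsto (h : IsPrim f g) (i2 : Integrable g) {a b : ℝ}
    (ha : Tendsto f atBot (𝓝 a)) (hb : Tendsto f atTop (𝓝 b)) : ∫ y, g y = b - a := by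
  rw [← intervalIntegral.integral_Iic_add_Ioi (b := 0) i2.integrableOn i2.integrableOn,
    h.integral_Iic_of_tendsto i2.integrableOn ha, h.integral_Ioi_of_tendsto i2.integrableOn hb]
  ring

theorem IsPrim.integral_eq_zero (h : IsPrim f g) (i1 : Integrable f) (i2 : Integrable g) :
    ∫ y, g y = 0 := by
  rw [h.integral_of_tendsto i2 (h.tendsto_atBot (p := 0) i1.integrableOn i2.integrableOn)
    (h.tendsto_atTop (p := 0) i1.integrableOn i2.integrableOn), sub_zero]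

/-- Integration by parts on the line. -/
theorem IsPrim.ibp (h : IsPrim f g) (H : IsPrim F G) (i0 : Integrable (fun y => f y * F y))
    (i1 : Integrable (fun y => g y * F y)) (i2 : Integrable (fun y => f y * G y)) :
    ∫ y, g y * F y = -∫ y, f y * G y := by
  have h1 := (h.mul H).integral_eq_zero i0 (i1.add i2)
  rw [integral_add i1 i2] at h1
  linarith

/-- Two integrable functions whose difference is the derivative of an integrable primitive have the
same integral. -/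
theorem IsPrim.integral_eq (h : IsPrim f g) (i0 : Integrable f) (i1 : Integrable F)
    (i2 : Integrable G) (e : ∀ y, F y - G y = g y) : ∫ y, F y = ∫ y, G y := by
  have e1 : g = fun y => F y - G y := funext fun y => (e y).symm
  subst e1
  have h1 := h.integral_eq_zero i0 (i1.sub i2)
  rw [integral_sub i1 i2] at h1
  linarith

end Pool.Agent.MP_8339a4_an

end

section

/-! API: bounded and exponentially decaying functions, `L^2`. -/

open MeasureTheory Filter Topology Set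

namespace Pool.Agent.MP_8339a4_an

variable {f g F G w : ℝ → ℝ}

theorem nf_T2a (h : ExpD f) : ∃ C c : ℝ, 0 ≤ C ∧ 0 < c ∧
    ∀ c' ≤ c, ∀ y, |f y| ≤ C * Real.exp (-(c' * |y|)) := by
  obtain ⟨-, C, c, hc, hC⟩ := h
  refine ⟨|C|, c, abs_nonneg _, hc, fun c' h' y => (hC y).trans ?_⟩
  exact mul_le_mul (le_abs_self _)
    (Real.exp_le_exp.2 (neg_le_neg (mul_le_mul_of_nonneg_right h' (abs_nonneg _))))
    (Real.exp_pos _).le (abs_nonneg _)

theorem le_T2a (h : ExpD f) (hg : Continuous g) (C : ℝ) (e : ∀ y, |g y| ≤ C * |f y|) :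
    ExpD g := by
  obtain ⟨-, D, c, hc, hD⟩ := h
  refine ⟨hg, |C| * D, c, hc, fun y => (e y).trans ?_⟩
  rw [mul_assoc]
  exact mul_le_mul (le_abs_self _) (hD y) (abs_nonneg _) (abs_nonneg _)

theorem int_T2a {c : ℝ} (hc : 0 < c) : ∫ y : ℝ, Real.exp (-(c * |y|)) = 2 / c := by
  rw [integral_comp_abs (f := fun x => Real.exp (-(c * x)))]
  have := integral_exp_mul_Ioi (neg_neg_of_pos hc) 0
  simp only [neg_mul] at this
  rw [this]
  simp [div_eq_mul_inv]

theorem csw_T2a (hw : ∀ y, 0 ≤ w y) (i0 : Integrable (fun y => w y * (f y * g y)))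
    (i1 : Integrable (fun y => w y * f y ^ 2)) (i2 : Integrable (fun y => w y * g y ^ 2)) :
    (∫ y, w y * (f y * g y)) ^ 2 ≤ (∫ y, w y * f y ^ 2) * ∫ y, w y * g y ^ 2 := by
  have h := discrim_le_zero (a := ∫ y, w y * g y ^ 2) (b := 2 * ∫ y, w y * (f y * g y))
    (c := ∫ y, w y * f y ^ 2) fun t => by
      have h1 : 0 ≤ ∫ y, (w y * g y ^ 2 * (t * t) + 2 * t * (w y * (f y * g y)) +
          w y * f y ^ 2) := integral_nonneg fun y => by
        have := mul_nonneg (hw y) (sq_nonneg (f y + t * g y))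
        simp only [Pi.zero_apply]
        linarith
      have i3 : Integrable fun y => w y * g y ^ 2 * (t * t) + 2 * t * (w y * (f y * g y)) :=
        (i2.mul_const _).add (i0.const_mul _)
      rw [integral_add i3 i1,
        integral_add (i2.mul_const _) (i0.const_mul _), integral_mul_const,
        integral_const_mul] at h1
      linarith
  rw [discrim] at h
  linarith

theorem Bdd.const (c : ℝ) : Bdd (fun _ => c) := ⟨continuous_const, |c|, fun _ => le_rfl⟩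
theorem Bdd.add (h : Bdd f) (H : Bdd g) : Bdd (fun y => f y + g y) := by
  obtain ⟨hf, C, hC⟩ := h
  obtain ⟨hg, D, hD⟩ := H
  exact ⟨hf.add hg, C + D, fun y => (abs_add_le _ _).trans (add_le_add (hC y) (hD y))⟩
theorem Bdd.sub (h : Bdd f) (H : Bdd g) : Bdd (fun y => f y - g y) := by
  obtain ⟨hf, C, hC⟩ := h
  obtain ⟨hg, D, hD⟩ := H
  exact ⟨hf.sub hg, C + D, fun y => (abs_sub _ _).trans (add_le_add (hC y) (hD y))⟩
theorem Bdd.neg (h : Bdd f) : Bdd (fun y => -f y) := by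
  obtain ⟨hf, C, hC⟩ := h
  exact ⟨hf.neg, C, fun y => (abs_neg _).trans_le (hC y)⟩
theorem Bdd.mul (h : Bdd f) (H : Bdd g) : Bdd (fun y => f y * g y) := by
  obtain ⟨hf, C, hC⟩ := h
  obtain ⟨hg, D, hD⟩ := H
  exact ⟨hf.mul hg, C * D, fun y => (abs_mul _ _).trans_le
    (mul_le_mul (hC y) (hD y) (abs_nonneg _) ((abs_nonneg _).trans (hC y)))⟩
theorem Bdd.const_mul (h : Bdd f) (c : ℝ) : Bdd (fun y => c * f y) := (Bdd.const c).mul h
theorem Bdd.div_const (h : Bdd f) (c : ℝ) : Bdd (fun y => f y / c) := by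
  simpa only [div_eq_mul_inv] using h.mul (Bdd.const c⁻¹)
theorem Bdd.pow (h : Bdd f) (n : ℕ) : Bdd (fun y => f y ^ n) := by
  obtain ⟨hf, C, hC⟩ := h
  exact ⟨hf.pow n, C ^ n, fun y => (abs_pow _ _).trans_le
    (pow_le_pow_left₀ (abs_nonneg _) (hC y) n)⟩
theorem Bdd.abs (h : Bdd f) : Bdd (fun y => |f y|) := by
  obtain ⟨hf, C, hC⟩ := h
  exact ⟨hf.abs, C, fun y => (abs_abs _).trans_le (hC y)⟩
theorem Bdd.comp (h : Bdd f) (hg : Continuous g) : Bdd (fun y => f (g y)) := by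
  obtain ⟨hf, C, hC⟩ := h
  exact ⟨hf.comp hg, C, fun y => hC _⟩
theorem Bdd.congr (h : Bdd f) (e : ∀ y, f y = g y) : Bdd g := (funext e : f = g) ▸ h

theorem ExpD.bdd (h : ExpD f) : Bdd f := by
  obtain ⟨C, c, -, hc, hC⟩ := nf_T2a h
  exact ⟨h.1, C, fun y => by simpa using hC 0 hc.le y⟩
theorem ExpD.zero : ExpD (fun _ => 0) := ⟨continuous_const, 0, 1, one_pos, by simp⟩
theorem ExpD.add (h : ExpD f) (H : ExpD g) : ExpD (fun y => f y + g y) := by
  obtain ⟨C, c, -, hc, hC⟩ := nf_T2a h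
  obtain ⟨D, d, -, hd, hD⟩ := nf_T2a H
  refine ⟨h.1.add H.1, C + D, min c d, lt_min hc hd, fun y => (abs_add_le _ _).trans ?_⟩
  rw [add_mul]
  exact add_le_add (hC _ (min_le_left _ _) y) (hD _ (min_le_right _ _) y)
theorem ExpD.sub (h : ExpD f) (H : ExpD g) : ExpD (fun y => f y - g y) := by
  simpa only [sub_eq_add_neg] using
    h.add (le_T2a H H.1.neg 1 fun y => by simp : ExpD fun y => -g y)
theorem ExpD.neg (h : ExpD f) : ExpD (fun y => -f y) := le_T2a h h.1.neg 1 fun y => by simp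
theorem ExpD.abs (h : ExpD f) : ExpD (fun y => |f y|) := le_T2a h h.1.abs 1 fun y => by simp
theorem ExpD.const_mul (h : ExpD f) (c : ℝ) : ExpD (fun y => c * f y) :=
  le_T2a h (continuous_const.mul h.1) |c| fun _ => (abs_mul _ _).le
theorem ExpD.div_const (h : ExpD f) (c : ℝ) : ExpD (fun y => f y / c) := by
  simpa only [div_eq_inv_mul] using h.const_mul c⁻¹
theorem ExpD.mul_bdd (h : ExpD f) (H : Bdd g) : ExpD (fun y => f y * g y) := by
  obtain ⟨hg, D, hD⟩ := H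
  refine le_T2a h (h.1.mul hg) D fun y => ?_
  rw [abs_mul, mul_comm]
  exact mul_le_mul_of_nonneg_right (hD y) (abs_nonneg _)
theorem ExpD.bdd_mul (h : ExpD f) (H : Bdd g) : ExpD (fun y => g y * f y) := by
  simpa only [mul_comm] using h.mul_bdd H
theorem ExpD.id_mul (h : ExpD f) : ExpD (fun y => y * f y) := by
  obtain ⟨C, c, hC0, hc, hC⟩ := nf_T2a h
  refine ⟨continuous_id.mul h.1, 2 / c * C, c / 2, by positivity, fun y => ?_⟩
  have h1 : |y| ≤ 2 / c * Real.exp (c / 2 * |y|) := by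
    have := Real.add_one_le_exp (c / 2 * |y|)
    rw [div_mul_eq_mul_div 2, le_div_iff₀ hc]
    linarith
  have h2 : Real.exp (c / 2 * |y|) * Real.exp (-(c * |y|)) = Real.exp (-(c / 2 * |y|)) := by
    rw [← Real.exp_add]
    congr 1
    ring
  rw [abs_mul, ← h2]
  refine (mul_le_mul h1 (hC c le_rfl y) (abs_nonneg _) (by positivity)).trans_eq ?_
  ring
theorem ExpD.pow (h : ExpD f) (n : ℕ) : ExpD (fun y => f y ^ (n + 1)) := by
  simpa only [pow_succ] using h.bdd_mul (h.bdd.pow n)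
theorem ExpD.comp_affine (h : ExpD f) {a : ℝ} (ha : a ≠ 0) (b : ℝ) :
    ExpD (fun y => f (a * y + b)) := by
  obtain ⟨C, c, hC0, hc, hC⟩ := nf_T2a h
  refine ⟨h.1.comp (by fun_prop), C * Real.exp (c * |b|), c * |a|, by positivity, fun y => ?_⟩
  refine (hC c le_rfl _).trans ?_
  rw [mul_assoc, ← Real.exp_add]
  refine mul_le_mul_of_nonneg_left (Real.exp_le_exp.2 ?_) hC0
  have h1 := abs_sub (a * y + b) b
  rw [add_sub_cancel_right, abs_mul] at h1
  nlinarith
theorem ExpD.of_le (h : ExpD f) (hg : Continuous g) (C : ℝ) (e : ∀ y, |g y| ≤ C * |f y|) :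
    ExpD g := le_T2a h hg C e
theorem ExpD.congr (h : ExpD f) (e : ∀ y, f y = g y) : ExpD g := (funext e : f = g) ▸ h
theorem ExpD.exp_neg_abs {c : ℝ} (hc : 0 < c) : ExpD (fun y => Real.exp (-(c * |y|))) :=
  ⟨by fun_prop, 1, c, hc, fun y => by rw [one_mul, abs_of_pos (Real.exp_pos _)]⟩
theorem ExpD.integrable (h : ExpD f) : Integrable f := by
  obtain ⟨hf, C, c, hc, hC⟩ := h
  have h1 : Integrable fun y : ℝ => Real.exp (-(c * |y|)) :=
    Integrable.of_integral_ne_zero (by rw [int_T2a hc]; positivity)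
  exact (h1.const_mul C).mono' hf.aestronglyMeasurable (ae_of_all _ hC)
theorem ExpD.memLp (h : ExpD f) : MemLp f 2 volume :=
  (memLp_two_iff_integrable_sq h.1.aestronglyMeasurable).2 (h.pow 1).integrable
theorem integral_exp_neg_abs {c : ℝ} (hc : 0 < c) :
    ∫ y : ℝ, Real.exp (-(c * |y|)) = 2 / c := int_T2a hc

theorem memLp_mul_bdd (h : MemLp f 2 volume) (H : Bdd w) : MemLp (fun y => f y * w y) 2 volume := by
  obtain ⟨hw, C, hC⟩ := H
  refine h.of_le_mul (c := C) (h.1.mul hw.aestronglyMeasurable) (ae_of_all _ fun y => ?_)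
  rw [norm_mul, mul_comm]
  exact mul_le_mul_of_nonneg_right (hC y) (norm_nonneg _)
theorem memLp_bdd_mul (h : MemLp f 2 volume) (H : Bdd w) : MemLp (fun y => w y * f y) 2 volume := by
  simpa only [mul_comm] using memLp_mul_bdd h H
theorem integrable_mul2 (h : MemLp f 2 volume) (H : MemLp g 2 volume) :
    Integrable (fun y => f y * g y) := h.integrable_mul H
theorem integrable_sq2 (h : MemLp f 2 volume) : Integrable (fun y => f y ^ 2) := h.integrable_sq
theorem integrable_mul_bdd (h : Integrable f) (H : Bdd w) : Integrable (fun y => f y * w y) := by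
  obtain ⟨hw, C, hC⟩ := H
  exact h.mul_bdd hw.aestronglyMeasurable (ae_of_all _ hC)
theorem integrable_bdd_mul (h : Integrable f) (H : Bdd w) : Integrable (fun y => w y * f y) := by
  simpa only [mul_comm] using integrable_mul_bdd h H
theorem memLp_comp_affine (h : MemLp f 2 volume) {a : ℝ} (ha : a ≠ 0) (b : ℝ) :
    MemLp (fun y => f (a * y + b)) 2 volume := by
  have h1 := (h.comp_measurePreserving (measurePreserving_add_right volume b)).smul_measure
    (c := ENNReal.ofReal |a⁻¹|) ENNReal.ofReal_ne_top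
  rw [← Real.map_volume_mul_left ha] at h1
  exact h1.comp_of_map (by fun_prop)
theorem integral_comp_affine (f : ℝ → ℝ) {a : ℝ} (ha : 0 < a) (b : ℝ) :
    ∫ y, f (a * y + b) = (∫ x, f x) / a := by
  rw [Measure.integral_comp_mul_left (fun x => f (x + b)) a, integral_add_right_eq_self,
    abs_of_pos (inv_pos.2 ha), smul_eq_mul, div_eq_inv_mul]

/-- Cauchy-Schwarz. -/
theorem cs2 (h : MemLp f 2 volume) (H : MemLp g 2 volume) :
    (∫ y, f y * g y) ^ 2 ≤ (∫ y, f y ^ 2) * ∫ y, g y ^ 2 := by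
  simpa only [one_mul] using csw_T2a (w := fun _ => 1) (f := f) (g := g) (fun _ => zero_le_one)
    (by simpa only [one_mul] using integrable_mul2 h H)
    (by simpa only [one_mul] using integrable_sq2 h)
    (by simpa only [one_mul] using integrable_sq2 H)
theorem cs2_abs (h : MemLp f 2 volume) (H : MemLp g 2 volume) :
    |∫ y, f y * g y| ≤ Real.sqrt (∫ y, f y ^ 2) * Real.sqrt (∫ y, g y ^ 2) := by
  rw [← Real.sqrt_mul (integral_nonneg fun y => sq_nonneg _)]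
  exact Real.abs_le_sqrt (cs2 h H)
/-- Weighted Cauchy-Schwarz. -/
theorem csw (hw : ∀ y, 0 ≤ w y) (i0 : Integrable (fun y => w y * (f y * g y)))
    (i1 : Integrable (fun y => w y * f y ^ 2)) (i2 : Integrable (fun y => w y * g y ^ 2)) :
    (∫ y, w y * (f y * g y)) ^ 2 ≤ (∫ y, w y * f y ^ 2) * ∫ y, w y * g y ^ 2 :=
  csw_T2a hw i0 i1 i2
/-- Dual weighted Cauchy-Schwarz. -/
theorem csd (hw : ∀ y, 0 < w y) (i0 : Integrable (fun y => f y * g y))
    (i1 : Integrable (fun y => w y * f y ^ 2)) (i2 : Integrable (fun y => g y ^ 2 / w y)) :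
    (∫ y, f y * g y) ^ 2 ≤ (∫ y, w y * f y ^ 2) * ∫ y, g y ^ 2 / w y := by
  have e0 : ∀ y, w y * (f y * (g y / w y)) = f y * g y := fun y => by
    have := (hw y).ne'
    field_simp
  have e2 : ∀ y, w y * (g y / w y) ^ 2 = g y ^ 2 / w y := fun y => by
    have := (hw y).ne'
    field_simp
  simpa only [e0, e2] using csw_T2a (w := w) (f := f) (g := fun y => g y / w y)
    (fun y => (hw y).le) (by simpa only [e0] using i0) i1 (by simpa only [e2] using i2)

end Pool.Agent.MP_8339a4_an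

end

section

/-! API: modes of convergence of families of functions. -/

open MeasureTheory Filter Topology Set

namespace Pool.Agent.MP_8339a4_an

variable {α : Type} {l : Filter α} {f F fy : α → ℝ → ℝ} {g G gy : ℝ → ℝ}

theorem rate_T3a (h : UT l f g) :
    ∃ r : α → ℝ, Tendsto r l (𝓝 0) ∧ ∀ᶠ z in l, ∀ y, |f z y - g y| ≤ r z := by
  refine ⟨fun z => ⨆ y, |f z y - g y|, Metric.tendsto_nhds.2 fun ε hε => ?_, ?_⟩
  · filter_upwards [h.2.2 (ε / 2) (half_pos hε)] with z hz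
    rw [Real.dist_0_eq_abs, abs_of_nonneg (Real.iSup_nonneg fun y => abs_nonneg _)]
    exact (ciSup_le hz).trans_lt (half_lt_self hε)
  · filter_upwards [h.2.2 1 one_pos] with z hz y
    exact le_ciSup (f := fun y => |f z y - g y|) ⟨1, by rintro _ ⟨y, rfl⟩; exact hz y⟩ y

theorem of_rate_T3a (h1 : ∀ᶠ z in l, Bdd (f z)) (h2 : Bdd g) {r : α → ℝ} (hr : Tendsto r l (𝓝 0))
    (h : ∀ᶠ z in l, ∀ y, |f z y - g y| ≤ r z) : UT l f g := by
  refine ⟨h1, h2, fun ε hε => ?_⟩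
  filter_upwards [h, hr.eventually_lt_const hε] with z hz hz' y
  exact (hz y).trans hz'.le

theorem bound_T3a (h : UT l f g) : ∃ C : ℝ, ∀ᶠ z in l, ∀ y, |f z y| ≤ C := by
  obtain ⟨C, hC⟩ := h.2.1.2
  refine ⟨C + 1, ?_⟩
  filter_upwards [h.2.2 1 one_pos] with z hz y
  have h1 := abs_sub_abs_le_abs_sub (f z y) (g y)
  linarith [hz y, hC y]

theorem int_le_T3a {φ p q : ℝ → ℝ} (a b : ℝ) (h0 : ∀ y, 0 ≤ φ y) (i1 : Integrable p)
    (i2 : Integrable q) (h : ∀ y, φ y ≤ a * p y + b * q y) :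
    ∫ y, φ y ≤ a * (∫ y, p y) + b * ∫ y, q y := by
  rw [← integral_const_mul, ← integral_const_mul,
    ← integral_add (i1.const_mul a) (i2.const_mul b)]
  exact integral_mono_of_nonneg (Eventually.of_forall h0) ((i1.const_mul a).add (i2.const_mul b))
    (Eventually.of_forall h)

theorem l2_of_le_T3a (h1 : ∀ᶠ z in l, MemLp (f z) 2 volume) (h2 : MemLp g 2 volume) {r : α → ℝ}
    (hr : Tendsto r l (𝓝 0)) (h : ∀ᶠ z in l, ∫ y, (f z y - g y) ^ 2 ≤ r z) : L2T l f g :=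
  ⟨h1, h2, squeeze_zero' (Eventually.of_forall fun _ => integral_nonneg fun _ => sq_nonneg _) h hr⟩

theorem l1_of_le_T3a (h1 : ∀ᶠ z in l, Integrable (f z)) (h2 : Integrable g) {r : α → ℝ}
    (hr : Tendsto r l (𝓝 0)) (h : ∀ᶠ z in l, ∫ y, |f z y - g y| ≤ r z) : L1T l f g :=
  ⟨h1, h2, squeeze_zero' (Eventually.of_forall fun _ => integral_nonneg fun _ => abs_nonneg _) h hr⟩

theorem lin_T3a {r R : α → ℝ} (hr : Tendsto r l (𝓝 0)) (hR : Tendsto R l (𝓝 0)) (a b : ℝ) :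
    Tendsto (fun z => a * r z + b * R z) l (𝓝 0) := by
  simpa using (hr.const_mul a).add (hR.const_mul b)

theorem cs_T3a {u w : ℝ → ℝ} (h : MemLp u 2 volume) (H : MemLp w 2 volume) :
    Integrable (fun y => |u y| * |w y|) ∧
      ∫ y, |u y| * |w y| ≤ Real.sqrt (∫ y, u y ^ 2) * Real.sqrt (∫ y, w y ^ 2) := by
  have h1 : MemLp (fun y => |u y|) 2 volume := h.abs
  have h2 : MemLp (fun y => |w y|) 2 volume := H.abs
  have h3 := cs2_abs h1 h2
  simp only [sq_abs] at h3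
  exact ⟨integrable_mul2 h1 h2, (le_abs_self _).trans h3⟩

theorem mul_le_T3a (a b A B : ℝ) : |a * A - b * B| ≤ |a - b| * |A| + |b| * |A - B| := by
  rw [← abs_mul, ← abs_mul, show a * A - b * B = (a - b) * A + b * (A - B) by ring]
  exact abs_add_le _ _

theorem UT.const (h : Bdd g) : UT l (fun _ => g) g :=
  ⟨Eventually.of_forall fun _ => h, h, fun ε hε => Eventually.of_forall fun _ y => by
    simpa using hε.le⟩
theorem UT.of_tendsto {c : α → ℝ} {c0 : ℝ} (h : Tendsto c l (𝓝 c0)) :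
    UT l (fun z _ => c z) (fun _ => c0) :=
  ⟨Eventually.of_forall fun _ => Bdd.const _, Bdd.const _, fun ε hε =>
    (Metric.tendsto_nhds.1 h ε hε).mono fun _ hz _ => le_of_lt hz⟩
theorem UT.add (h : UT l f g) (H : UT l F G) :
    UT l (fun z y => f z y + F z y) (fun y => g y + G y) := by
  obtain ⟨r, r1, r2⟩ := rate_T3a h
  obtain ⟨R, R1, R2⟩ := rate_T3a H
  refine of_rate_T3a ((h.1.and H.1).mono fun z hz => hz.1.add hz.2) (h.2.1.add H.2.1)
    (lin_T3a r1 R1 1 1) ?_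
  filter_upwards [r2, R2] with z h1 h2 y
  have h3 := abs_le.1 (h1 y)
  have h4 := abs_le.1 (h2 y)
  exact abs_le.2 ⟨by linarith, by linarith⟩
theorem UT.sub (h : UT l f g) (H : UT l F G) :
    UT l (fun z y => f z y - F z y) (fun y => g y - G y) := by
  obtain ⟨r, r1, r2⟩ := rate_T3a h
  obtain ⟨R, R1, R2⟩ := rate_T3a H
  refine of_rate_T3a ((h.1.and H.1).mono fun z hz => hz.1.sub hz.2) (h.2.1.sub H.2.1)
    (lin_T3a r1 R1 1 1) ?_
  filter_upwards [r2, R2] with z h1 h2 y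
  have h3 := abs_le.1 (h1 y)
  have h4 := abs_le.1 (h2 y)
  exact abs_le.2 ⟨by linarith, by linarith⟩
theorem UT.mul (h : UT l f g) (H : UT l F G) :
    UT l (fun z y => f z y * F z y) (fun y => g y * G y) := by
  obtain ⟨r, r1, r2⟩ := rate_T3a h
  obtain ⟨R, R1, R2⟩ := rate_T3a H
  obtain ⟨C, hC⟩ := bound_T3a H
  obtain ⟨D, hD⟩ := h.2.1.2
  refine of_rate_T3a ((h.1.and H.1).mono fun z hz => hz.1.mul hz.2) (h.2.1.mul H.2.1)
    (lin_T3a r1 R1 C D) ?_
  filter_upwards [r2, R2, hC] with z h1 h2 h3 y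
  refine (mul_le_T3a _ _ _ _).trans (add_le_add ?_ ?_)
  · rw [mul_comm]
    exact mul_le_mul (h3 y) (h1 y) (abs_nonneg _) ((abs_nonneg _).trans (h3 y))
  · exact mul_le_mul (hD y) (h2 y) (abs_nonneg _) ((abs_nonneg _).trans (hD y))
theorem UT.const_mul (h : UT l f g) (c : ℝ) :
    UT l (fun z y => c * f z y) (fun y => c * g y) := (UT.const (Bdd.const c)).mul h
theorem UT.pow (h : UT l f g) (n : ℕ) : UT l (fun z y => f z y ^ n) (fun y => g y ^ n) := by
  induction n with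
  | zero => simpa using (UT.const (Bdd.const 1) : UT l (fun _ _ => (1 : ℝ)) fun _ => 1)
  | succ n ih => simpa only [pow_succ] using ih.mul h
theorem UT.congr (h : UT l f g) (e1 : ∀ᶠ z in l, ∀ y, f z y = F z y) (e2 : ∀ y, g y = G y) :
    UT l F G := by
  obtain rfl : g = G := funext e2
  refine ⟨(h.1.and e1).mono fun z hz => hz.1.congr hz.2, h.2.1, fun ε hε => ?_⟩
  filter_upwards [h.2.2 ε hε, e1] with z h1 h2 y
  rw [← h2 y]
  exact h1 y
theorem UT.bound (h : UT l f g) : ∃ C : ℝ, ∀ᶠ z in l, ∀ y, |f z y| ≤ C := bound_T3a h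

theorem L2T.const (h : MemLp g 2 volume) : L2T l (fun _ => g) g :=
  ⟨Eventually.of_forall fun _ => h, h, by simpa using tendsto_const_nhds⟩
theorem L2T.add (h : L2T l f g) (H : L2T l F G) :
    L2T l (fun z y => f z y + F z y) (fun y => g y + G y) := by
  refine l2_of_le_T3a ((h.1.and H.1).mono fun z hz => hz.1.add hz.2) (h.2.1.add H.2.1)
    (lin_T3a h.2.2 H.2.2 2 2) ?_
  filter_upwards [h.1, H.1] with z h1 h2
  exact int_le_T3a 2 2 (fun _ => sq_nonneg _) (integrable_sq2 (h1.sub h.2.1))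
    (integrable_sq2 (h2.sub H.2.1)) fun y => by
      nlinarith [sq_nonneg (f z y - g y - (F z y - G y))]
theorem L2T.sub (h : L2T l f g) (H : L2T l F G) :
    L2T l (fun z y => f z y - F z y) (fun y => g y - G y) := by
  refine l2_of_le_T3a ((h.1.and H.1).mono fun z hz => hz.1.sub hz.2) (h.2.1.sub H.2.1)
    (lin_T3a h.2.2 H.2.2 2 2) ?_
  filter_upwards [h.1, H.1] with z h1 h2
  exact int_le_T3a 2 2 (fun _ => sq_nonneg _) (integrable_sq2 (h1.sub h.2.1))
    (integrable_sq2 (h2.sub H.2.1)) fun y => by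
      nlinarith [sq_nonneg (f z y - g y + (F z y - G y))]
theorem L2T.const_mul (h : L2T l f g) (c : ℝ) :
    L2T l (fun z y => c * f z y) (fun y => c * g y) := by
  refine l2_of_le_T3a (h.1.mono fun z hz => hz.const_mul c) (h.2.1.const_mul c)
    (lin_T3a h.2.2 h.2.2 (c ^ 2) 0) ?_
  filter_upwards [h.1] with z h1
  exact int_le_T3a (c ^ 2) 0 (fun _ => sq_nonneg _) (integrable_sq2 (h1.sub h.2.1))
    (integrable_sq2 (h1.sub h.2.1)) fun y => le_of_eq (by ring)
theorem L2T.mul_ut (h : L2T l f g) (H : UT l F G) :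
    L2T l (fun z y => f z y * F z y) (fun y => g y * G y) := by
  obtain ⟨R, R1, R2⟩ := rate_T3a H
  obtain ⟨C, hC⟩ := bound_T3a H
  have R3 : Tendsto (fun z => R z ^ 2) l (𝓝 0) := by simpa using R1.pow 2
  refine l2_of_le_T3a ((h.1.and H.1).mono fun z hz => memLp_mul_bdd hz.1 hz.2)
    (memLp_mul_bdd h.2.1 H.2.1) (lin_T3a h.2.2 R3 (2 * C ^ 2) (2 * ∫ y, g y ^ 2)) ?_
  filter_upwards [h.1, R2, hC] with z h1 h2 h3
  refine (int_le_T3a (2 * C ^ 2) (2 * R z ^ 2) (fun _ => sq_nonneg _)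
    (integrable_sq2 (h1.sub h.2.1)) (integrable_sq2 h.2.1) fun y => ?_).trans (le_of_eq ?_)
  · have h4 : F z y ^ 2 ≤ C ^ 2 := sq_le_sq' (abs_le.1 (h3 y)).1 (abs_le.1 (h3 y)).2
    have h5 : (F z y - G y) ^ 2 ≤ R z ^ 2 := sq_le_sq' (abs_le.1 (h2 y)).1 (abs_le.1 (h2 y)).2
    have h6 := mul_le_mul_of_nonneg_right h4 (sq_nonneg (f z y - g y))
    have h7 := mul_le_mul_of_nonneg_right h5 (sq_nonneg (g y))
    rw [Pi.sub_apply]
    nlinarith [sq_nonneg ((f z y - g y) * F z y - g y * (F z y - G y))]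
  · simp only [Pi.sub_apply]
    ring
theorem L2T.ut_mul (h : L2T l f g) (H : UT l F G) :
    L2T l (fun z y => F z y * f z y) (fun y => G y * g y) := by
  simpa only [mul_comm] using h.mul_ut H
theorem L2T.congr (h : L2T l f g) (e1 : ∀ᶠ z in l, ∀ y, f z y = F z y) (e2 : ∀ y, g y = G y) :
    L2T l F G := by
  obtain rfl : g = G := funext e2
  refine ⟨(h.1.and e1).mono fun z hz => funext hz.2 ▸ hz.1, h.2.1, h.2.2.congr' ?_⟩
  filter_upwards [e1] with z hz
  simp only [hz]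
theorem L2T.mul (h : L2T l f g) (H : L2T l F G) :
    L1T l (fun z y => f z y * F z y) (fun y => g y * G y) := by
  have s1 : Tendsto (fun z => Real.sqrt (∫ y, (f z y - g y) ^ 2)) l (𝓝 0) := by
    simpa using h.2.2.sqrt
  have s2 : Tendsto (fun z => Real.sqrt (∫ y, (F z y - G y) ^ 2)) l (𝓝 0) := by
    simpa using H.2.2.sqrt
  have s3 := (s1.mul s2).add
    (lin_T3a s1 s2 (Real.sqrt (∫ y, G y ^ 2)) (Real.sqrt (∫ y, g y ^ 2)))
  rw [mul_zero, add_zero] at s3
  refine l1_of_le_T3a ((h.1.and H.1).mono fun z hz => integrable_mul2 hz.1 hz.2)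
    (integrable_mul2 h.2.1 H.2.1) s3 ?_
  filter_upwards [h.1, H.1] with z h1 h2
  have m1 : MemLp (fun y => f z y - g y) 2 volume := h1.sub h.2.1
  have m2 : MemLp (fun y => F z y - G y) 2 volume := h2.sub H.2.1
  obtain ⟨a1, a2⟩ := cs_T3a m1 m2
  obtain ⟨b1, b2⟩ := cs_T3a m1 H.2.1
  obtain ⟨c1, c2⟩ := cs_T3a h.2.1 m2
  have h3 := int_le_T3a (φ := fun y => |f z y * F z y - g y * G y|)
    (q := fun y => |f z y - g y| * |G y| + |g y| * |F z y - G y|) 1 1 (fun _ => abs_nonneg _)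
    a1 (b1.add c1) fun y => by
      have h4 := mul_le_T3a (f z y) (g y) (F z y) (G y)
      have h5 := abs_sub_abs_le_abs_sub (F z y) (G y)
      nlinarith [abs_nonneg (f z y - g y)]
  rw [integral_add b1 c1] at h3
  linarith
theorem L2T.sq (h : L2T l f g) : L1T l (fun z y => f z y ^ 2) (fun y => g y ^ 2) := by
  simpa only [pow_two] using h.mul h
theorem L1T.const (h : Integrable g) : L1T l (fun _ => g) g :=
  ⟨Eventually.of_forall fun _ => h, h, by simpa using tendsto_const_nhds⟩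
theorem L1T.add (h : L1T l f g) (H : L1T l F G) :
    L1T l (fun z y => f z y + F z y) (fun y => g y + G y) := by
  refine l1_of_le_T3a ((h.1.and H.1).mono fun z hz => hz.1.add hz.2) (h.2.1.add H.2.1)
    (lin_T3a h.2.2 H.2.2 1 1) ?_
  filter_upwards [h.1, H.1] with z h1 h2
  refine int_le_T3a 1 1 (fun _ => abs_nonneg _) (h1.sub h.2.1).abs (h2.sub H.2.1).abs fun y => ?_
  rw [one_mul, one_mul, add_sub_add_comm]
  exact abs_add_le _ _
theorem L1T.sub (h : L1T l f g) (H : L1T l F G) :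
    L1T l (fun z y => f z y - F z y) (fun y => g y - G y) := by
  refine l1_of_le_T3a ((h.1.and H.1).mono fun z hz => hz.1.sub hz.2) (h.2.1.sub H.2.1)
    (lin_T3a h.2.2 H.2.2 1 1) ?_
  filter_upwards [h.1, H.1] with z h1 h2
  refine int_le_T3a 1 1 (fun _ => abs_nonneg _) (h1.sub h.2.1).abs (h2.sub H.2.1).abs fun y => ?_
  rw [one_mul, one_mul, sub_sub_sub_comm]
  exact abs_sub _ _
theorem L1T.const_mul (h : L1T l f g) (c : ℝ) :
    L1T l (fun z y => c * f z y) (fun y => c * g y) := by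
  refine l1_of_le_T3a (h.1.mono fun z hz => hz.const_mul c) (h.2.1.const_mul c)
    (lin_T3a h.2.2 h.2.2 |c| 0) ?_
  filter_upwards [h.1] with z h1
  refine int_le_T3a |c| 0 (fun _ => abs_nonneg _) (h1.sub h.2.1).abs (h1.sub h.2.1).abs
    fun y => le_of_eq ?_
  rw [zero_mul, add_zero, ← mul_sub, abs_mul]
theorem L1T.mul_ut (h : L1T l f g) (H : UT l F G) :
    L1T l (fun z y => f z y * F z y) (fun y => g y * G y) := by
  obtain ⟨R, R1, R2⟩ := rate_T3a H
  obtain ⟨C, hC⟩ := bound_T3a H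
  refine l1_of_le_T3a ((h.1.and H.1).mono fun z hz => integrable_mul_bdd hz.1 hz.2)
    (integrable_mul_bdd h.2.1 H.2.1) (lin_T3a h.2.2 R1 C (∫ y, |g y|)) ?_
  filter_upwards [h.1, R2, hC] with z h1 h2 h3
  rw [mul_comm _ (R z)]
  refine int_le_T3a C (R z) (fun _ => abs_nonneg _) (h1.sub h.2.1).abs h.2.1.abs fun y => ?_
  refine (mul_le_T3a _ _ _ _).trans (add_le_add ?_ ?_)
  · rw [mul_comm]
    exact mul_le_mul_of_nonneg_right (h3 y) (abs_nonneg _)
  · rw [mul_comm]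
    exact mul_le_mul_of_nonneg_right (h2 y) (abs_nonneg _)
theorem L1T.ut_mul (h : L1T l f g) (H : UT l F G) :
    L1T l (fun z y => F z y * f z y) (fun y => G y * g y) := by
  simpa only [mul_comm] using h.mul_ut H
theorem L1T.congr (h : L1T l f g) (e1 : ∀ᶠ z in l, ∀ y, f z y = F z y) (e2 : ∀ y, g y = G y) :
    L1T l F G := by
  obtain rfl : g = G := funext e2
  refine ⟨(h.1.and e1).mono fun z hz => funext hz.2 ▸ hz.1, h.2.1, h.2.2.congr' ?_⟩
  filter_upwards [e1] with z hz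
  simp only [hz]
theorem L1T.tendsto_integral (h : L1T l f g) :
    Tendsto (fun z => ∫ y, f z y) l (𝓝 (∫ y, g y)) := by
  rw [tendsto_iff_norm_sub_tendsto_zero]
  refine squeeze_zero' (Eventually.of_forall fun _ => norm_nonneg _) ?_ h.2.2
  filter_upwards [h.1] with z hz
  rw [← integral_sub hz h.2.1]
  exact norm_integral_le_integral_norm _

end Pool.Agent.MP_8339a4_an

end

section

/-! API: dilations and translations in `L^2`. -/

open MeasureTheory Filter Topology Set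

namespace Pool.Agent.MP_8339a4_an

variable {α : Type} {l : Filter α} {f F fy : α → ℝ → ℝ} {g G gy : ℝ → ℝ}

theorem scale_T3b (u : ℝ → ℝ) (a b : ℝ) : ∫ y, u (a * y + b) = |a⁻¹| * ∫ x, u x := by
  rw [Measure.integral_comp_mul_left (fun x => u (x + b)) a, integral_add_right_eq_self u b,
    smul_eq_mul]

theorem cc_T3b {u : ℝ → ℝ} (hc : Continuous u) (hs : HasCompactSupport u) {a0 : ℝ} (ha0 : a0 ≠ 0)
    (b0 : ℝ) : Tendsto (fun p : ℝ × ℝ => ∫ y, (u (p.1 * y + p.2) - u (a0 * y + b0)) ^ 2)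
      (𝓝 (a0, b0)) (𝓝 0) := by
  obtain ⟨s, h1, h2, h3⟩ := local_compact_nhds (x := (a0, b0)) (n := {p : ℝ × ℝ | p.1 ≠ 0})
    ((isOpen_ne_fun continuous_fst continuous_const).mem_nhds ha0)
  have hk : IsCompact ((fun q : (ℝ × ℝ) × ℝ => (q.2 - q.1.2) / q.1.1) '' s ×ˢ tsupport u) :=
    (h3.prod hs).image_of_continuousOn
      (ContinuousOn.div (by fun_prop) (by fun_prop) fun q hq => h2 hq.1)
  have h4 : ∀ p ∈ s, ∀ y ∉ (fun q : (ℝ × ℝ) × ℝ => (q.2 - q.1.2) / q.1.1) '' s ×ˢ tsupport u,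
      u (p.1 * y + p.2) = 0 := fun p hp y hy => by
    refine image_eq_zero_of_notMem_tsupport fun h5 => hy ⟨(p, p.1 * y + p.2), ⟨hp, h5⟩, ?_⟩
    simp only [add_sub_cancel_right]
    exact mul_div_cancel_left₀ y (h2 hp)
  have h5 := (continuousOn_integral_of_compact_support (μ := volume)
    (f := fun (p : ℝ × ℝ) y => (u (p.1 * y + p.2) - u (a0 * y + b0)) ^ 2) hk
    (Continuous.continuousOn (by fun_prop)) fun p y hp hy => by
      rw [h4 p hp y hy, h4 _ (mem_of_mem_nhds h1) y hy]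
      simp).continuousAt h1
  simpa using h5.tendsto

/-- Joint continuity of dilations and translations in `L^2`. -/
theorem L2T.comp_affine (h : L2T l f g) {a b : α → ℝ} {a0 b0 : ℝ} (ha0 : a0 ≠ 0)
    (ha : Tendsto a l (𝓝 a0)) (hb : Tendsto b l (𝓝 b0)) :
    L2T l (fun z y => f z (a z * y + b z)) (fun y => g (a0 * y + b0)) := by
  obtain ⟨h1, h2, h3⟩ := h
  have hne := ha.eventually_ne ha0
  refine ⟨by filter_upwards [h1, hne] with z m n using memLp_comp_affine m n _,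
    memLp_comp_affine h2 ha0 _, tendsto_order.2 ⟨fun c hc => Eventually.of_forall fun z =>
      hc.trans_le (integral_nonneg fun y => sq_nonneg _), fun ε hε => ?_⟩⟩
  have hp : 0 < |a0⁻¹| := abs_pos.2 (inv_ne_zero ha0)
  obtain ⟨u, u1, u2, u3, u4⟩ := MemLp.exists_hasCompactSupport_integral_rpow_sub_le
    (p := 2) two_pos (f := g) (μ := volume) (by simpa using h2) (ε := ε / (16 * |a0⁻¹|))
    (by positivity)
  simp only [Real.norm_eq_abs, Real.rpow_two, sq_abs, ENNReal.ofReal_ofNat] at u2 u4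
  rw [le_div_iff₀ (by positivity)] at u2
  have hi := (ha.inv₀ ha0).abs
  have t := ((((hi.mul h3).add (hi.mul_const (∫ y, (g y - u y) ^ 2))).add
    ((cc_T3b u3 u1 ha0 b0).comp (ha.prodMk_nhds hb))).add_const
      (|a0⁻¹| * ∫ y, (g y - u y) ^ 2)).const_mul 4
  filter_upwards [h1, hne, t.eventually_lt_const (u := ε) (by linarith)] with z m n hz
  refine lt_of_le_of_lt ?_ hz
  have i1 := integrable_sq2 (memLp_comp_affine (m.sub h2) n (b z))
  have i2 := integrable_sq2 (memLp_comp_affine (h2.sub u4) n (b z))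
  have i3 := integrable_sq2 ((memLp_comp_affine u4 n (b z)).sub (memLp_comp_affine u4 ha0 b0))
  have i4 := integrable_sq2 (memLp_comp_affine (h2.sub u4) ha0 b0)
  simp only [Pi.sub_apply] at i1 i2 i3 i4
  rw [← scale_T3b _ (a z) (b z), ← scale_T3b _ (a z) (b z), ← scale_T3b _ a0 b0,
    Function.comp_apply, ← integral_add i1 i2, ← integral_add (i1.fun_add i2) i3,
    ← integral_add ((i1.fun_add i2).fun_add i3) i4, ← integral_const_mul]
  refine integral_mono_of_nonneg (Eventually.of_forall fun y => sq_nonneg _)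
    ((((i1.fun_add i2).fun_add i3).fun_add i4).const_mul 4) (Eventually.of_forall fun y => ?_)
  simp only
  generalize f z (a z * y + b z) = A
  generalize g (a z * y + b z) = B
  generalize u (a z * y + b z) = C
  generalize u (a0 * y + b0) = D
  generalize g (a0 * y + b0) = E
  nlinarith [sq_nonneg (A - B - (B - C)), sq_nonneg (A - B - (C - D)), sq_nonneg (A - B - (D - E)),
    sq_nonneg (B - C - (C - D)), sq_nonneg (B - C - (D - E)), sq_nonneg (C - D - (D - E))]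

end Pool.Agent.MP_8339a4_an

end

section

/-! API: `H^1` functions. -/

open MeasureTheory Filter Topology Set

namespace Pool.Agent.MP_8339a4_an

variable {f g F G w : ℝ → ℝ}

theorem le_integral_T2b (h : IsPrim f g) (i0 : Integrable f) (i1 : Integrable g)
    (i2 : Integrable w) (e : ∀ y, |g y| ≤ w y) (x : ℝ) : f x ≤ ∫ y, w y := by
  rw [← h.integral_Iic (p := x) i0.integrableOn i1.integrableOn]
  calc ∫ y in Iic x, g y ≤ ∫ y in Iic x, w y :=
        integral_mono i1.integrableOn i2.integrableOn fun y => (le_abs_self _).trans (e y)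
    _ ≤ ∫ y, w y :=
        setIntegral_le_integral i2 (Eventually.of_forall fun y => (abs_nonneg _).trans (e y))

theorem prim_sq_T2b (h : IsH1 f g) : IsPrim (fun y => f y ^ 2) (fun y => 2 * (f y * g y)) :=
  (h.isPrim.mul h.isPrim).congr (fun y => by ring) fun y => by ring

theorem tendsto_T2b {l : Filter ℝ} (h : Tendsto (fun y => f y ^ 2) l (𝓝 0)) :
    Tendsto f l (𝓝 0) := by
  have h1 := h.sqrt
  simp only [Real.sqrt_sq_eq_abs, Real.sqrt_zero] at h1
  exact (tendsto_zero_iff_abs_tendsto_zero f).2 h1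

theorem IsH1.continuous (h : IsH1 f g) : Continuous f := h.isPrim.continuous
theorem IsH1.sq_le (h : IsH1 f g) (x : ℝ) :
    f x ^ 2 ≤ 2 * (Real.sqrt (∫ y, f y ^ 2) * Real.sqrt (∫ y, g y ^ 2)) := by
  have a1 : MemLp (fun y => |f y|) 2 volume := h.1.abs
  have a2 : MemLp (fun y => |g y|) 2 volume := h.2.1.abs
  have h1 := le_integral_T2b (prim_sq_T2b h) (integrable_sq2 h.1)
    ((integrable_mul2 h.1 h.2.1).const_mul 2) ((integrable_mul2 a1 a2).const_mul 2)
    (fun y => by rw [abs_mul, abs_mul, abs_two]) x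
  have h2 := cs2_abs a1 a2
  simp only [sq_abs] at h2
  rw [integral_const_mul] at h1
  linarith [le_abs_self (∫ y, |f y| * |g y|)]
theorem IsH1.sq_le' (h : IsH1 f g) (x : ℝ) : f x ^ 2 ≤ ∫ y, (f y ^ 2 + g y ^ 2) :=
  le_integral_T2b (w := fun y => f y ^ 2 + g y ^ 2) (prim_sq_T2b h) (integrable_sq2 h.1)
    ((integrable_mul2 h.1 h.2.1).const_mul 2)
    ((integrable_sq2 h.1).add (integrable_sq2 h.2.1))
    (fun y => abs_le.2 ⟨by nlinarith [sq_nonneg (f y + g y)], by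
      nlinarith [sq_nonneg (f y - g y)]⟩) x
theorem IsH1.bdd (h : IsH1 f g) : Bdd f :=
  ⟨h.continuous, Real.sqrt (∫ y, (f y ^ 2 + g y ^ 2)), fun y => Real.abs_le_sqrt (h.sq_le' y)⟩
theorem IsH1.tendsto_atTop (h : IsH1 f g) : Tendsto f atTop (𝓝 0) :=
  tendsto_T2b ((prim_sq_T2b h).tendsto_atTop (p := 0) (integrable_sq2 h.1).integrableOn
    ((integrable_mul2 h.1 h.2.1).const_mul 2).integrableOn)
theorem IsH1.tendsto_atBot (h : IsH1 f g) : Tendsto f atBot (𝓝 0) :=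
  tendsto_T2b ((prim_sq_T2b h).tendsto_atBot (p := 0) (integrable_sq2 h.1).integrableOn
    ((integrable_mul2 h.1 h.2.1).const_mul 2).integrableOn)
theorem IsH1.of_isPrim (h : IsPrim f g) (h1 : MemLp f 2 volume) (h2 : MemLp g 2 volume) :
    IsH1 f g := ⟨h1, h2, h.2⟩
theorem IsH1.of_expD (h : ∀ y, HasDerivAt f (g y) y) (h1 : ExpD f) (h2 : ExpD g) : IsH1 f g :=
  IsH1.of_isPrim (IsPrim.of_hasDerivAt h h2.1) h1.memLp h2.memLp
theorem IsH1.congr (h : IsH1 f g) (h1 : ∀ y, f y = F y) (h2 : ∀ y, g y = G y) : IsH1 F G := by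
  rw [← funext h1, ← funext h2]
  exact h
theorem IsH1.zero : IsH1 (fun _ => 0) (fun _ => 0) :=
  IsH1.of_isPrim (IsPrim.const 0) MemLp.zero' MemLp.zero'
theorem IsH1.add (h : IsH1 f g) (H : IsH1 F G) :
    IsH1 (fun y => f y + F y) (fun y => g y + G y) :=
  IsH1.of_isPrim (h.isPrim.add H.isPrim) (h.1.add H.1) (h.2.1.add H.2.1)
theorem IsH1.sub (h : IsH1 f g) (H : IsH1 F G) :
    IsH1 (fun y => f y - F y) (fun y => g y - G y) :=
  IsH1.of_isPrim (h.isPrim.sub H.isPrim) (h.1.sub H.1) (h.2.1.sub H.2.1)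
theorem IsH1.neg (h : IsH1 f g) : IsH1 (fun y => -f y) (fun y => -g y) :=
  IsH1.of_isPrim h.isPrim.neg h.1.neg h.2.1.neg
theorem IsH1.const_mul (h : IsH1 f g) (c : ℝ) : IsH1 (fun y => c * f y) (fun y => c * g y) :=
  IsH1.of_isPrim (h.isPrim.const_mul c) (h.1.const_mul c) (h.2.1.const_mul c)
theorem IsH1.mul (h : IsH1 f g) (H : IsH1 F G) :
    IsH1 (fun y => f y * F y) (fun y => g y * F y + f y * G y) :=
  IsH1.of_isPrim (h.isPrim.mul H.isPrim) (memLp_mul_bdd h.1 H.bdd)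
    ((memLp_mul_bdd h.2.1 H.bdd).add (memLp_bdd_mul H.2.1 h.bdd))
theorem IsH1.pow (h : IsH1 f g) (n : ℕ) :
    IsH1 (fun y => f y ^ (n + 1)) (fun y => ((n : ℝ) + 1) * f y ^ n * g y) :=
  IsH1.of_isPrim (h.isPrim.pow n)
    (by simpa only [pow_succ] using memLp_bdd_mul h.1 (h.bdd.pow n))
    (memLp_bdd_mul h.2.1 ((h.bdd.pow n).const_mul _))
theorem IsH1.mul_bdd (h : IsH1 f g) (hF : ∀ y, HasDerivAt F (G y) y) (b0 : Bdd F) (b1 : Bdd G) :
    IsH1 (fun y => f y * F y) (fun y => g y * F y + f y * G y) :=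
  IsH1.of_isPrim (h.isPrim.mul (IsPrim.of_hasDerivAt hF b1.1)) (memLp_mul_bdd h.1 b0)
    ((memLp_mul_bdd h.2.1 b0).add (memLp_mul_bdd h.1 b1))
theorem IsH1.comp_affine (h : IsH1 f g) {a : ℝ} (ha : a ≠ 0) (b : ℝ) :
    IsH1 (fun y => f (a * y + b)) (fun y => a * g (a * y + b)) :=
  IsH1.of_isPrim (h.isPrim.comp_affine a b) (memLp_comp_affine h.1 ha b)
    ((memLp_comp_affine h.2.1 ha b).const_mul a)
theorem IsH1.memLp_pow (h : IsH1 f g) (n : ℕ) : MemLp (fun y => f y ^ (n + 1)) 2 volume :=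
  (h.pow n).1
theorem IsH1.integrable_pow (h : IsH1 f g) (n : ℕ) : Integrable (fun y => f y ^ (n + 2)) := by
  simpa only [← pow_succ] using integrable_mul2 (h.memLp_pow n) h.1
/-- Integration by parts against a bounded `C^1` function in `H^1`. -/
theorem IsH1.ibp (h : IsH1 f g) (H : IsH1 F G) : ∫ y, g y * F y = -∫ y, f y * G y :=
  h.isPrim.ibp H.isPrim (integrable_mul2 h.1 H.1) (integrable_mul2 h.2.1 H.1)
    (integrable_mul2 h.1 H.2.1)
/-- Weighted Sobolev bound. -/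
theorem IsH1.weighted_sq_le (h : IsH1 f g) {W W1 : ℝ → ℝ} {c : ℝ}
    (hW : ∀ y, HasDerivAt W (W1 y) y) (hc : Continuous W1) (b0 : Bdd W) (h0 : ∀ y, 0 ≤ W y)
    (h1 : ∀ y, |W1 y| ≤ c * W y) (hc0 : 0 ≤ c) (x : ℝ) :
    W x * f x ^ 2 ≤ (c + 1) * ∫ y, W y * (f y ^ 2 + g y ^ 2) := by
  have b1 : Bdd W1 := by
    obtain ⟨-, C, hC⟩ := b0
    exact ⟨hc, c * C, fun y => (h1 y).trans
      (mul_le_mul_of_nonneg_left ((le_abs_self _).trans (hC y)) hc0)⟩
  rw [← integral_const_mul]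
  refine le_integral_T2b (w := fun y => (c + 1) * (W y * (f y ^ 2 + g y ^ 2)))
    ((IsPrim.of_hasDerivAt hW hc).mul (prim_sq_T2b h))
    (integrable_bdd_mul (integrable_sq2 h.1) b0)
    ((integrable_bdd_mul (integrable_sq2 h.1) b1).add
      (integrable_bdd_mul ((integrable_mul2 h.1 h.2.1).const_mul 2) b0))
    ((integrable_bdd_mul ((integrable_sq2 h.1).add (integrable_sq2 h.2.1)) b0).const_mul _)
    (fun y => ?_) x
  obtain ⟨e1, e2⟩ := abs_le.1 (h1 y)
  have p1 := mul_nonneg (h0 y) (sq_nonneg (f y + g y))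
  have p2 := mul_nonneg (h0 y) (sq_nonneg (f y - g y))
  have p3 := mul_nonneg (mul_nonneg hc0 (h0 y)) (sq_nonneg (g y))
  have p4 := mul_le_mul_of_nonneg_right e1 (sq_nonneg (f y))
  have p5 := mul_le_mul_of_nonneg_right e2 (sq_nonneg (f y))
  exact abs_le.2 ⟨by nlinarith, by nlinarith⟩

end Pool.Agent.MP_8339a4_an

end

section

/-! API: test functions and weights. -/

open MeasureTheory Filter Topology Set

namespace Pool.Agent.MP_8339a4_an

variable {f g F G w : ℝ → ℝ}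

variable {f1 f2 f3 g1 g2 g3 : ℝ → ℝ}

theorem aff_T2c (h : ∀ y, HasDerivAt f (g y) y) (a b y : ℝ) :
    HasDerivAt (fun y => f (a * y + b)) (a * g (a * y + b)) y :=
  ((h (a * y + b)).comp y (((hasDerivAt_id y).const_mul a).add_const b)).congr_deriv (by ring)

theorem Sm3.c0 (h : Sm3 f f1 f2 f3) : Continuous f :=
  continuous_iff_continuousAt.2 fun y => (h.d1 y).continuousAt
theorem Sm3.c1 (h : Sm3 f f1 f2 f3) : Continuous f1 :=
  continuous_iff_continuousAt.2 fun y => (h.d2 y).continuousAt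
theorem Sm3.c2 (h : Sm3 f f1 f2 f3) : Continuous f2 :=
  continuous_iff_continuousAt.2 fun y => (h.d3 y).continuousAt
theorem Sm3.congr (h : Sm3 f f1 f2 f3) (e0 : ∀ y, f y = g y) (e1 : ∀ y, f1 y = g1 y)
    (e2 : ∀ y, f2 y = g2 y) (e3 : ∀ y, f3 y = g3 y) : Sm3 g g1 g2 g3 := by
  rwa [← funext e0, ← funext e1, ← funext e2, ← funext e3]
theorem Sm3.add (h : Sm3 f f1 f2 f3) (H : Sm3 g g1 g2 g3) : Sm3 (fun y => f y + g y)
    (fun y => f1 y + g1 y) (fun y => f2 y + g2 y) (fun y => f3 y + g3 y) :=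
  ⟨fun y => (h.d1 y).add (H.d1 y), fun y => (h.d2 y).add (H.d2 y), fun y => (h.d3 y).add (H.d3 y),
    h.c3.add H.c3⟩
theorem Sm3.const_mul (h : Sm3 f f1 f2 f3) (c : ℝ) : Sm3 (fun y => c * f y)
    (fun y => c * f1 y) (fun y => c * f2 y) (fun y => c * f3 y) :=
  ⟨fun y => (h.d1 y).const_mul c, fun y => (h.d2 y).const_mul c, fun y => (h.d3 y).const_mul c,
    continuous_const.mul h.c3⟩
theorem Sm3.mul (h : Sm3 f f1 f2 f3) (H : Sm3 g g1 g2 g3) : Sm3 (fun y => f y * g y)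
    (fun y => f1 y * g y + f y * g1 y) (fun y => f2 y * g y + 2 * (f1 y * g1 y) + f y * g2 y)
    (fun y => f3 y * g y + 3 * (f2 y * g1 y) + 3 * (f1 y * g2 y) + f y * g3 y) := by
  refine ⟨fun y => (h.d1 y).mul (H.d1 y), fun y => ?_, fun y => ?_, ?_⟩
  · exact (((h.d2 y).mul (H.d1 y)).add ((h.d1 y).mul (H.d2 y))).congr_deriv (by ring)
  · exact ((((h.d3 y).mul (H.d1 y)).add (((h.d2 y).mul (H.d2 y)).const_mul 2)).add
      ((h.d1 y).mul (H.d3 y))).congr_deriv (by ring)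
  · exact (((h.c3.mul H.c0).add (continuous_const.mul (h.c2.mul H.c1))).add
      (continuous_const.mul (h.c1.mul H.c2))).add (h.c0.mul H.c3)
theorem Sm3.comp_affine (h : Sm3 f f1 f2 f3) (a b : ℝ) : Sm3 (fun y => f (a * y + b))
    (fun y => a * f1 (a * y + b)) (fun y => a ^ 2 * f2 (a * y + b))
    (fun y => a ^ 3 * f3 (a * y + b)) := by
  refine ⟨fun y => aff_T2c h.d1 a b y, fun y => ?_, fun y => ?_, ?_⟩
  · exact ((aff_T2c h.d2 a b y).const_mul a).congr_deriv (by ring)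
  · exact ((aff_T2c h.d3 a b y).const_mul (a ^ 2)).congr_deriv (by ring)
  · exact continuous_const.mul (h.c3.comp (by fun_prop))

theorem Test.congr (h : Test f f1 f2 f3) (e0 : ∀ y, f y = g y) (e1 : ∀ y, f1 y = g1 y)
    (e2 : ∀ y, f2 y = g2 y) (e3 : ∀ y, f3 y = g3 y) : Test g g1 g2 g3 := by
  rwa [← funext e0, ← funext e1, ← funext e2, ← funext e3]
theorem Test.add (h : Test f f1 f2 f3) (H : Test g g1 g2 g3) : Test (fun y => f y + g y)
    (fun y => f1 y + g1 y) (fun y => f2 y + g2 y) (fun y => f3 y + g3 y) :=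
  ⟨h.sm.add H.sm, h.e0.add H.e0, h.e1.add H.e1, h.e2.add H.e2, h.e3.add H.e3⟩
theorem Test.const_mul (h : Test f f1 f2 f3) (c : ℝ) : Test (fun y => c * f y)
    (fun y => c * f1 y) (fun y => c * f2 y) (fun y => c * f3 y) :=
  ⟨h.sm.const_mul c, h.e0.const_mul c, h.e1.const_mul c, h.e2.const_mul c, h.e3.const_mul c⟩
theorem Test.mul_bdd (h : Test f f1 f2 f3) (H : Sm3 g g1 g2 g3) (b0 : Bdd g) (b1 : Bdd g1)
    (b2 : Bdd g2) (b3 : Bdd g3) : Test (fun y => f y * g y)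
    (fun y => f1 y * g y + f y * g1 y) (fun y => f2 y * g y + 2 * (f1 y * g1 y) + f y * g2 y)
    (fun y => f3 y * g y + 3 * (f2 y * g1 y) + 3 * (f1 y * g2 y) + f y * g3 y) :=
  ⟨h.sm.mul H, h.e0.mul_bdd b0, (h.e1.mul_bdd b0).add (h.e0.mul_bdd b1),
    ((h.e2.mul_bdd b0).add ((h.e1.mul_bdd b1).const_mul 2)).add (h.e0.mul_bdd b2),
    (((h.e3.mul_bdd b0).add ((h.e2.mul_bdd b1).const_mul 3)).add
      ((h.e1.mul_bdd b2).const_mul 3)).add (h.e0.mul_bdd b3)⟩
theorem Test.comp_affine (h : Test f f1 f2 f3) {a : ℝ} (ha : a ≠ 0) (b : ℝ) :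
    Test (fun y => f (a * y + b)) (fun y => a * f1 (a * y + b)) (fun y => a ^ 2 * f2 (a * y + b))
    (fun y => a ^ 3 * f3 (a * y + b)) :=
  ⟨h.sm.comp_affine a b, h.e0.comp_affine ha b, (h.e1.comp_affine ha b).const_mul a,
    (h.e2.comp_affine ha b).const_mul _, (h.e3.comp_affine ha b).const_mul _⟩
theorem Test.h1 (h : Test f f1 f2 f3) : IsH1 f f1 := IsH1.of_expD h.sm.d1 h.e0 h.e1
theorem Test.h2 (h : Test f f1 f2 f3) : IsH1 f1 f2 := IsH1.of_expD h.sm.d2 h.e1 h.e2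
theorem Test.h3 (h : Test f f1 f2 f3) : IsH1 f2 f3 := IsH1.of_expD h.sm.d3 h.e2 h.e3
theorem Test.wt (h : Test f f1 f2 f3) : Wt f f1 f2 f3 :=
  ⟨h.sm, h.e0.bdd, h.e1.bdd, h.e2.bdd, h.e3.bdd, h.e1.id_mul.bdd⟩

theorem Wt.congr (h : Wt f f1 f2 f3) (e0 : ∀ y, f y = g y) (e1 : ∀ y, f1 y = g1 y)
    (e2 : ∀ y, f2 y = g2 y) (e3 : ∀ y, f3 y = g3 y) : Wt g g1 g2 g3 := by
  rwa [← funext e0, ← funext e1, ← funext e2, ← funext e3]
theorem Wt.const (c : ℝ) : Wt (fun _ => c) (fun _ => 0) (fun _ => 0) (fun _ => 0) :=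
  ⟨⟨fun y => hasDerivAt_const y c, fun y => hasDerivAt_const y 0, fun y => hasDerivAt_const y 0,
    continuous_const⟩, Bdd.const c, Bdd.const 0, Bdd.const 0, Bdd.const 0,
    (Bdd.const 0).congr fun y => (mul_zero y).symm⟩
theorem Wt.of_expD (h : Sm3 f f1 f2 f3) (b0 : Bdd f) (e1 : ExpD f1) (e2 : ExpD f2)
    (e3 : ExpD f3) : Wt f f1 f2 f3 := ⟨h, b0, e1.bdd, e2.bdd, e3.bdd, e1.id_mul.bdd⟩
theorem Wt.add (h : Wt f f1 f2 f3) (H : Wt g g1 g2 g3) : Wt (fun y => f y + g y)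
    (fun y => f1 y + g1 y) (fun y => f2 y + g2 y) (fun y => f3 y + g3 y) :=
  ⟨h.sm.add H.sm, h.b0.add H.b0, h.b1.add H.b1, h.b2.add H.b2, h.b3.add H.b3,
    (h.by1.add H.by1).congr fun y => by ring⟩
theorem Wt.sub (h : Wt f f1 f2 f3) (H : Wt g g1 g2 g3) : Wt (fun y => f y - g y)
    (fun y => f1 y - g1 y) (fun y => f2 y - g2 y) (fun y => f3 y - g3 y) :=
  ⟨(h.sm.add (H.sm.const_mul (-1))).congr (fun y => by ring) (fun y => by ring)
    (fun y => by ring) (fun y => by ring), h.b0.sub H.b0, h.b1.sub H.b1, h.b2.sub H.b2,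
    h.b3.sub H.b3, (h.by1.sub H.by1).congr fun y => by ring⟩
theorem Wt.const_mul (h : Wt f f1 f2 f3) (c : ℝ) : Wt (fun y => c * f y)
    (fun y => c * f1 y) (fun y => c * f2 y) (fun y => c * f3 y) :=
  ⟨h.sm.const_mul c, h.b0.const_mul c, h.b1.const_mul c, h.b2.const_mul c, h.b3.const_mul c,
    (h.by1.const_mul c).congr fun y => by ring⟩
theorem Wt.mul (h : Wt f f1 f2 f3) (H : Wt g g1 g2 g3) : Wt (fun y => f y * g y)
    (fun y => f1 y * g y + f y * g1 y) (fun y => f2 y * g y + 2 * (f1 y * g1 y) + f y * g2 y)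
    (fun y => f3 y * g y + 3 * (f2 y * g1 y) + 3 * (f1 y * g2 y) + f y * g3 y) :=
  ⟨h.sm.mul H.sm, h.b0.mul H.b0, (h.b1.mul H.b0).add (h.b0.mul H.b1),
    ((h.b2.mul H.b0).add ((h.b1.mul H.b1).const_mul 2)).add (h.b0.mul H.b2),
    (((h.b3.mul H.b0).add ((h.b2.mul H.b1).const_mul 3)).add
      ((h.b1.mul H.b2).const_mul 3)).add (h.b0.mul H.b3),
    ((h.by1.mul H.b0).add (h.b0.mul H.by1)).congr fun y => by ring⟩
theorem Wt.comp_affine (h : Wt f f1 f2 f3) {a : ℝ} (ha : a ≠ 0) (b : ℝ) :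
    Wt (fun y => f (a * y + b)) (fun y => a * f1 (a * y + b)) (fun y => a ^ 2 * f2 (a * y + b))
    (fun y => a ^ 3 * f3 (a * y + b)) := by
  have _ha := ha
  have hc : Continuous fun y : ℝ => a * y + b := by fun_prop
  exact ⟨h.sm.comp_affine a b, h.b0.comp hc, (h.b1.comp hc).const_mul a,
    (h.b2.comp hc).const_mul _, (h.b3.comp hc).const_mul _,
    ((h.by1.comp hc).sub ((h.b1.comp hc).const_mul b)).congr fun y => by ring⟩

end Pool.Agent.MP_8339a4_an

end

section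

/-! API: the logistic function. -/

open MeasureTheory Filter Topology Set

namespace Pool.Agent.MP_8339a4_an

theorem hasDerivAt_P0 (x : ℝ) : HasDerivAt P0 (P1 x) x := Real.hasDerivAt_sigmoid x
theorem hasDerivAt_P1 (x : ℝ) : HasDerivAt P1 (P2 x) x :=
  ((hasDerivAt_P0 x).mul ((hasDerivAt_P0 x).const_sub 1)).congr_deriv (by unfold P2; ring)
theorem hasDerivAt_P2 (x : ℝ) : HasDerivAt P2 (P3 x) x :=
  ((hasDerivAt_P1 x).mul (((hasDerivAt_P0 x).const_mul 2).const_sub 1)).congr_deriv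
    (by unfold P3 P2 P1; ring)
theorem hasDerivAt_P3 (x : ℝ) : HasDerivAt P3 (P4 x) x :=
  ((hasDerivAt_P1 x).mul (((hasDerivAt_P1 x).const_mul 6).const_sub 1)).congr_deriv
    (by unfold P4; ring)
theorem P0_pos (x : ℝ) : 0 < P0 x := Real.sigmoid_pos x
theorem P0_lt_one (x : ℝ) : P0 x < 1 := Real.sigmoid_lt_one x
theorem P0_neg (x : ℝ) : P0 (-x) = 1 - P0 x := Real.sigmoid_neg x
theorem P0_mono {x y : ℝ} (h : x ≤ y) : P0 x ≤ P0 y := Real.sigmoid_le h
theorem P0_eq (x : ℝ) : P0 x = Real.exp x * (1 - P0 x) := by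
  have h := Real.sigmoid_mul_rexp_neg (-x)
  rw [neg_neg] at h
  rw [← P0_neg, mul_comm]
  exact h.symm
theorem P0_le_exp (x : ℝ) : P0 x ≤ Real.exp x := by
  have h1 := P0_eq x
  have h2 := mul_pos (Real.exp_pos x) (P0_pos x)
  linarith
theorem one_sub_P0_le_exp (x : ℝ) : 1 - P0 x ≤ Real.exp (-x) := by
  rw [← P0_neg]
  exact P0_le_exp _
theorem half_le_P0 {x : ℝ} (h : 0 ≤ x) : 1 / 2 ≤ P0 x := by
  have h1 := P0_mono h
  have h2 := P0_neg 0
  rw [neg_zero] at h2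
  linarith
theorem P0_le_half {x : ℝ} (h : x ≤ 0) : P0 x ≤ 1 / 2 := by
  have h1 := P0_mono h
  have h2 := P0_neg 0
  rw [neg_zero] at h2
  linarith
theorem exp_le_P0 {x : ℝ} (h : x ≤ 0) : Real.exp x / 2 ≤ P0 x := by
  have h1 := P0_eq x
  have h2 := mul_le_mul_of_nonneg_left (P0_le_half h) (Real.exp_pos x).le
  linarith
theorem exp_le_one_sub_P0 {x : ℝ} (h : 0 ≤ x) : Real.exp (-x) / 2 ≤ 1 - P0 x := by
  rw [← P0_neg]
  exact exp_le_P0 (neg_nonpos.2 h)
theorem P1_pos (x : ℝ) : 0 < P1 x := mul_pos (P0_pos x) (sub_pos.2 (P0_lt_one x))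
theorem P1_le_quarter (x : ℝ) : P1 x ≤ 1 / 4 := by
  unfold P1
  nlinarith [sq_nonneg (P0 x - 1 / 2)]
theorem P1_zero : P1 0 = 1 / 4 := by
  have h : P0 0 = 1 / 2 := le_antisymm (P0_le_half le_rfl) (half_le_P0 le_rfl)
  unfold P1
  rw [h]
  norm_num
theorem P1_neg (x : ℝ) : P1 (-x) = P1 x := by
  unfold P1
  rw [P0_neg]
  ring
theorem P1_le_P0 (x : ℝ) : P1 x ≤ P0 x := by
  unfold P1
  nlinarith [sq_nonneg (P0 x)]
theorem P1_le_exp (x : ℝ) : P1 x ≤ Real.exp (-|x|) := by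
  have h : P1 x = P1 (-|x|) := by
    rcases abs_choice x with h | h <;> rw [h] <;> simp [P1_neg]
  rw [h]
  exact (P1_le_P0 _).trans (P0_le_exp _)
theorem exp_le_P1 (x : ℝ) : Real.exp (-|x|) / 4 ≤ P1 x := by
  have h : P1 x = P1 (-|x|) := by
    rcases abs_choice x with h | h <;> rw [h] <;> simp [P1_neg]
  have h0 : -|x| ≤ 0 := neg_nonpos.2 (abs_nonneg x)
  have h1 := exp_le_P0 h0
  have h2 := P0_le_half h0
  have h3 := P0_pos (-|x|)
  rw [h]
  unfold P1
  nlinarith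
theorem abs_P2_le (x : ℝ) : |P2 x| ≤ P1 x := by
  have h1 := P1_pos x
  have h2 := P0_pos x
  have h3 := P0_lt_one x
  unfold P2
  rw [abs_le]
  constructor <;> nlinarith
theorem abs_P3_le (x : ℝ) : |P3 x| ≤ P1 x := by
  have h1 := P1_pos x
  have h2 := P1_le_quarter x
  unfold P3
  rw [abs_le]
  constructor <;> nlinarith
theorem abs_P4_le (x : ℝ) : |P4 x| ≤ 2 * P1 x := by
  have h1 := P1_pos x
  have h2 := P1_le_quarter x
  have h3 : |1 - 12 * P1 x| ≤ 2 := by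
    rw [abs_le]
    constructor <;> linarith
  unfold P4
  rw [abs_mul, mul_comm 2]
  exact mul_le_mul (abs_P2_le x) h3 (abs_nonneg _) h1.le
theorem c0_T5a : Continuous P0 :=
  continuous_iff_continuousAt.2 fun x => (hasDerivAt_P0 x).continuousAt
theorem c1_T5a : Continuous P1 :=
  continuous_iff_continuousAt.2 fun x => (hasDerivAt_P1 x).continuousAt
theorem c2_T5a : Continuous P2 :=
  continuous_iff_continuousAt.2 fun x => (hasDerivAt_P2 x).continuousAt
theorem c3_T5a : Continuous P3 :=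
  continuous_iff_continuousAt.2 fun x => (hasDerivAt_P3 x).continuousAt
theorem c4_T5a : Continuous P4 :=
  c2_T5a.mul (continuous_const.sub (continuous_const.mul c1_T5a))
theorem bdd_P0 : Bdd P0 :=
  ⟨c0_T5a, 1, fun y => by rw [abs_of_pos (P0_pos y)]; exact (P0_lt_one y).le⟩
theorem expD_P1 : ExpD P1 :=
  ⟨c1_T5a, 1, 1, one_pos, fun y => by
    rw [abs_of_pos (P1_pos y), one_mul, one_mul]
    exact P1_le_exp y⟩
theorem expD_P2 : ExpD P2 :=
  expD_P1.of_le c2_T5a 1 fun y => by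
    rw [abs_of_pos (P1_pos y), one_mul]
    exact abs_P2_le y
theorem expD_P3 : ExpD P3 :=
  expD_P1.of_le c3_T5a 1 fun y => by
    rw [abs_of_pos (P1_pos y), one_mul]
    exact abs_P3_le y
theorem expD_P4 : ExpD P4 :=
  expD_P1.of_le c4_T5a 2 fun y => by
    rw [abs_of_pos (P1_pos y)]
    exact abs_P4_le y
theorem tendsto_P0_atTop : Tendsto P0 atTop (𝓝 1) := Real.tendsto_sigmoid_atTop
theorem tendsto_P0_atBot : Tendsto P0 atBot (𝓝 0) := Real.tendsto_sigmoid_atBot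
theorem wt_P0 : Wt P0 P1 P2 P3 :=
  Wt.of_expD ⟨hasDerivAt_P0, hasDerivAt_P1, hasDerivAt_P2, c3_T5a⟩ bdd_P0 expD_P1 expD_P2 expD_P3
theorem test_P1 : Test P1 P2 P3 P4 :=
  ⟨⟨hasDerivAt_P1, hasDerivAt_P2, hasDerivAt_P3, c4_T5a⟩, expD_P1, expD_P2, expD_P3, expD_P4⟩
theorem integral_P1 : ∫ x, P1 x = 1 := by
  rw [(IsPrim.of_hasDerivAt hasDerivAt_P0 c1_T5a).integral_of_tendsto expD_P1.integrable
    tendsto_P0_atBot tendsto_P0_atTop, sub_zero]

end Pool.Agent.MP_8339a4_an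

end

section

/-! API: Dini derivatives. -/

open MeasureTheory Filter Topology Set

namespace Pool.Agent.MP_8339a4_an

variable {f g : ℝ → ℝ} {s c c' : ℝ}

theorem of_tendsto_T4a {φ : ℝ → ℝ} (h : ∀ᶠ z in 𝓝[>] s, slope f s z ≤ φ z)
    (H : Tendsto φ (𝓝[>] s) (𝓝 c)) : DiniLe f s c := fun r hr => by
  filter_upwards [h, H.eventually (gt_mem_nhds hr)] with z h1 h2 using h1.trans_lt h2

theorem slope_T4a (h : HasDerivWithinAt f c (Ici s) s) : Tendsto (slope f s) (𝓝[>] s) (𝓝 c) :=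
  (hasDerivWithinAt_iff_tendsto_slope' (s := Ioi s) (lt_irrefl s)).1 (h.mono Ioi_subset_Ici_self)

theorem of_forall_T4a {φ : ℝ → ℝ} (hφ : ContinuousAt φ c) (h : ∀ r, c < r → DiniLe f s (φ r)) :
    DiniLe f s (φ c) := fun r hr => by
  have h1 : ∀ᶠ x in 𝓝[>] c, φ x < r := nhdsWithin_le_nhds (hφ.eventually (gt_mem_nhds hr))
  obtain ⟨x, hx, hx'⟩ := (h1.and self_mem_nhdsWithin).exists
  exact h x hx' r hx

theorem primitive_T4a {a b : ℝ} (hab : a ≤ s) (hb : s < b) (hg : ContinuousOn g (Icc a b)) :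
    HasDerivWithinAt (fun z => ∫ t in a..z, g t) (g s) (Ici s) s := by
  have hm : Icc a b ∈ 𝓝[>] s := mem_of_superset (Ioo_mem_nhdsGT hb) fun x hx =>
    ⟨hab.trans hx.1.le, hx.2.le⟩
  refine intervalIntegral.integral_hasDerivWithinAt_right (t := Ioi s) ?_
    ⟨Icc a b, hm, hg.aestronglyMeasurable measurableSet_Icc⟩
    ((hg s ⟨hab, hb.le⟩).mono_of_mem_nhdsWithin hm)
  exact (hg.mono (by rw [uIcc_of_le hab]; exact Icc_subset_Icc le_rfl hb.le)).intervalIntegrable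

theorem DiniLe.of_hasDerivAt (h : HasDerivAt f c s) : DiniLe f s c :=
  of_tendsto_T4a (Eventually.of_forall fun _ => le_rfl) (slope_T4a h.hasDerivWithinAt)

theorem DiniLe.mono (h : DiniLe f s c) (hc : c ≤ c') : DiniLe f s c' := fun r hr => h r (hc.trans_lt hr)

theorem DiniLe.add (h : DiniLe f s c) (H : DiniLe g s c') :
    DiniLe (fun z => f z + g z) s (c + c') := fun r hr => by
  filter_upwards [h (c + (r - (c + c')) / 2) (by linarith),
    H (c' + (r - (c + c')) / 2) (by linarith)] with z h1 h2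
  have : slope (fun z => f z + g z) s z = slope f s z + slope g s z := by
    simp only [slope_def_field]
    ring
  linarith

theorem DiniLe.add_hasDerivAt (h : DiniLe f s c) (H : HasDerivAt g c' s) :
    DiniLe (fun z => f z + g z) s (c + c') := h.add (DiniLe.of_hasDerivAt H)

theorem DiniLe.sub_hasDerivAt (h : DiniLe f s c) (H : HasDerivAt g c' s) :
    DiniLe (fun z => f z - g z) s (c - c') := by
  simpa only [sub_eq_add_neg, Pi.neg_apply] using h.add_hasDerivAt H.neg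

theorem DiniLe.mul_pos (h : DiniLe f s c) (H : HasDerivAt g c' s) (hg : 0 < g s) :
    DiniLe (fun z => f z * g z) s (c * g s + f s * c') := by
  refine of_forall_T4a (φ := fun r => r * g s + f s * c') (by fun_prop) fun r hr => ?_
  have hc : Tendsto g (𝓝[>] s) (𝓝 (g s)) := H.continuousAt.tendsto.mono_left nhdsWithin_le_nhds
  refine of_tendsto_T4a (φ := fun z => r * g z + f s * slope g s z) ?_
    ((hc.const_mul r).add ((slope_T4a H.hasDerivWithinAt).const_mul _))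
  filter_upwards [h r hr, hc.eventually (lt_mem_nhds hg)] with z h1 h2
  have : slope (fun z => f z * g z) s z = slope f s z * g z + f s * slope g s z := by
    simp only [slope_def_field]
    ring
  rw [this]
  exact add_le_add (mul_le_mul_of_nonneg_right h1.le h2.le) le_rfl

theorem DiniLe.comp {τ : ℝ → ℝ} {τ' : ℝ} (h : DiniLe f (τ s) c) (H : HasDerivAt τ τ' s)
    (hτ : 0 < τ') : DiniLe (fun z => f (τ z)) s (c * τ') := by
  refine of_forall_T4a (φ := fun r => r * τ') (by fun_prop) fun r hr => ?_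
  have hs := slope_T4a H.hasDerivWithinAt
  have hp : ∀ᶠ z in 𝓝[>] s, 0 < slope τ s z := hs.eventually (lt_mem_nhds hτ)
  have hlt : ∀ᶠ z in 𝓝[>] s, τ s < τ z := by
    filter_upwards [hp, self_mem_nhdsWithin] with z h1 h2
    rw [slope_def_field, div_pos_iff_of_pos_right (sub_pos.2 h2)] at h1
    exact sub_pos.1 h1
  have ht : Tendsto τ (𝓝[>] s) (𝓝[>] (τ s)) :=
    tendsto_nhdsWithin_iff.2 ⟨H.continuousAt.tendsto.mono_left nhdsWithin_le_nhds, hlt⟩
  refine of_tendsto_T4a (φ := fun z => r * slope τ s z) ?_ (hs.const_mul r)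
  filter_upwards [ht.eventually (h r hr), hp, hlt] with z h1 h2 h3
  have : slope (fun z => f (τ z)) s z = slope f (τ s) (τ z) * slope τ s z := by
    simp only [slope_def_field]
    rw [div_mul_div_cancel₀ (sub_pos.2 h3).ne']
  rw [this]
  exact mul_le_mul_of_nonneg_right h1.le h2.le

theorem DiniLe.congr (h : DiniLe f s c) (e : ∀ᶠ z in 𝓝 s, f z = g z) : DiniLe g s c := fun r hr => by
  filter_upwards [h r hr, nhdsWithin_le_nhds e] with z h1 h2
  rwa [slope_def_field, ← h2, ← e.self_of_nhds, ← slope_def_field]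

theorem DiniLe.of_integral_le (hg : ∀ᶠ z in 𝓝[≥] s, ContinuousWithinAt g (Ici s) z)
    (h : ∀ᶠ z in 𝓝[>] s, f z - f s ≤ ∫ t in s..z, g t) : DiniLe f s (g s) := by
  obtain ⟨b, hb, hb'⟩ := mem_nhdsGE_iff_exists_Icc_subset.1 hg
  have hc : ContinuousOn g (Icc s b) := fun x hx => (hb' hx).mono Icc_subset_Ici_self
  refine of_tendsto_T4a ?_ (slope_T4a (primitive_T4a le_rfl hb hc))
  filter_upwards [h, self_mem_nhdsWithin] with z h1 h2
  rw [slope_def_field, slope_def_field, intervalIntegral.integral_same, sub_zero]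
  exact div_le_div_of_nonneg_right h1 (sub_pos.2 h2).le

theorem hasDerivAt_of_integral_eq (hg : ∀ᶠ z in 𝓝 s, ContinuousAt g z)
    (h : ∀ᶠ z in 𝓝 s, f z - f s = ∫ t in s..z, g t) : HasDerivAt f (g s) s := by
  obtain ⟨U, hU, hUo, hsU⟩ := eventually_nhds_iff.1 hg
  have h1 : HasDerivAt (fun z => ∫ t in s..z, g t) (g s) s :=
    intervalIntegral.integral_hasDerivAt_right IntervalIntegrable.refl
      (ContinuousAt.stronglyMeasurableAtFilter hUo hU s hsU) hg.self_of_nhds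
  refine (h1.const_add (f s)).congr_of_eventuallyEq ?_
  filter_upwards [h] with z hz
  linarith

/-- Integration of a Dini inequality. -/
theorem dini_le_integral {a b : ℝ} (hab : a ≤ b) (hf : ContinuousOn f (Icc a b))
    (hg : ContinuousOn g (Icc a b)) (h : ∀ x ∈ Ico a b, DiniLe f x (g x)) :
    f b - f a ≤ ∫ t in a..b, g t := by
  have hi : IntegrableOn g (uIcc a b) := by
    rw [uIcc_of_le hab]
    exact hg.integrableOn_Icc
  have hc := intervalIntegral.continuousOn_primitive_interval hi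
  rw [uIcc_of_le hab] at hc
  have := image_le_of_liminf_slope_right_le_deriv_boundary (B := fun x => f a + ∫ t in a..x, g t)
    (B' := g) hf (by simp) (continuousOn_const.add hc)
    (fun x hx => (primitive_T4a hx.1 hx.2 hg).const_add (f a))
    (fun x hx r hr => (h x hx r hr).frequently) (right_mem_Icc.2 hab)
  linarith

/-- Barrier lemma. -/
theorem dini_barrier {a b : ℝ} {B B' : ℝ → ℝ} (hf : ContinuousOn f (Icc a b))
    (h : ∀ x ∈ Ico a b, DiniLe f x (g x)) (ha : f a ≤ B a)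
    (hB : ∀ x ∈ Icc a b, HasDerivAt B (B' x) x) (hb : ∀ x ∈ Ico a b, f x = B x → g x < B' x) :
    ∀ x ∈ Icc a b, f x ≤ B x := fun _ hx =>
  image_le_of_liminf_slope_right_lt_deriv_boundary' hf
    (fun x hx r hr => (h x hx r hr).frequently) ha
    (fun x hx => (hB x hx).continuousAt.continuousWithinAt)
    (fun x hx => (hB x (Ico_subset_Icc_self hx)).hasDerivWithinAt) hb hx

/-- A function whose derivative is bounded in absolute value by a continuous function. -/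
theorem abs_sub_le_integral {a b : ℝ} (hab : a ≤ b) (hg : ContinuousOn g (Icc a b))
    (h : ∀ x ∈ Icc a b, ∃ f' : ℝ, HasDerivAt f f' x ∧ |f'| ≤ g x) :
    |f b - f a| ≤ ∫ t in a..b, g t := by
  have hf : ContinuousOn f (Icc a b) := fun x hx => by
    obtain ⟨f', h1, -⟩ := h x hx
    exact h1.continuousAt.continuousWithinAt
  have h1 := dini_le_integral hab hf hg fun x hx => by
    obtain ⟨f', h1, h2⟩ := h x (Ico_subset_Icc_self hx)
    exact (DiniLe.of_hasDerivAt h1).mono ((le_abs_self _).trans h2)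
  have h2 := dini_le_integral (f := fun x => -f x) hab hf.neg hg fun x hx => by
    obtain ⟨f', h1, h2⟩ := h x (Ico_subset_Icc_self hx)
    exact (DiniLe.of_hasDerivAt h1.neg).mono ((neg_le_abs _).trans h2)
  rw [abs_le]
  constructor <;> linarith

end Pool.Agent.MP_8339a4_an

end

section

/-! API: Hardy inequalities with exponential weights. -/

open MeasureTheory Filter Topology Set

namespace Pool.Agent.MP_8339a4_an

variable {z zy e ey : ℝ → ℝ} {L p r K : ℝ}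

theorem intSq_T8a {μ : Measure ℝ} {E : ℝ → ℝ} (hE : Continuous E) (E0 : ∀ y, 0 ≤ E y)
    (iE : Integrable E μ) (hz : Continuous z) (i1 : Integrable (fun y => E y * z y ^ 2) μ)
    (c : ℝ) : Integrable (fun y => E y * (z y - c) ^ 2) μ := by
  refine ((i1.const_mul 2).add (iE.const_mul (2 * c ^ 2))).mono'
    (hE.mul ((hz.sub continuous_const).pow 2)).aestronglyMeasurable (ae_of_all _ fun y => ?_)
  rw [Real.norm_eq_abs, abs_of_nonneg (mul_nonneg (E0 y) (sq_nonneg _)), Pi.add_apply]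
  nlinarith [mul_nonneg (E0 y) (sq_nonneg (z y + c))]

theorem core_T8a {S : Set ℝ} {c : ℝ} (hc : c ≠ 0) (h : IsPrim z zy)
    (iE : IntegrableOn (fun y => Real.exp (-((y - p) / c))) S)
    (i1 : IntegrableOn (fun y => Real.exp (-((y - p) / c)) * z y ^ 2) S)
    (i2 : IntegrableOn (fun y => Real.exp (-((y - p) / c)) * zy y ^ 2) S)
    (hS : ∀ f g : ℝ → ℝ, IsPrim f g → IntegrableOn f S → IntegrableOn g S → f p = 0 →
      ∫ y in S, g y = 0) :
    ∫ y in S, Real.exp (-((y - p) / c)) * (z y - z p) ^ 2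
      ≤ 4 * c ^ 2 * ∫ y in S, Real.exp (-((y - p) / c)) * zy y ^ 2 := by
  have hE : Continuous fun y : ℝ => Real.exp (-((y - p) / c)) := by fun_prop
  have hk : Continuous fun y => z y - z p := h.continuous.sub continuous_const
  have j1 := intSq_T8a hE (fun _ => (Real.exp_pos _).le) iE h.continuous i1 (z p)
  have j2 : Integrable (fun y => Real.exp (-((y - p) / c)) * ((z y - z p) * zy y))
      (volume.restrict S) := by
    refine (j1.add i2).mono' (hE.aestronglyMeasurable.mul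
      (hk.aestronglyMeasurable.mul h.aestronglyMeasurable.restrict)) (ae_of_all _ fun y => ?_)
    have e0 := (Real.exp_pos (-((y - p) / c))).le
    rw [Real.norm_eq_abs, abs_le, Pi.add_apply]
    constructor
    · nlinarith [mul_nonneg e0 (sq_nonneg (z y - z p + zy y)), mul_nonneg e0 (sq_nonneg (zy y)),
        mul_nonneg e0 (sq_nonneg (z y - z p))]
    · nlinarith [mul_nonneg e0 (sq_nonneg (z y - z p - zy y)), mul_nonneg e0 (sq_nonneg (zy y)),
        mul_nonneg e0 (sq_nonneg (z y - z p))]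
  have pE : IsPrim (fun y => Real.exp (-((y - p) / c)))
      (fun y => Real.exp (-((y - p) / c)) * (-(1 / c))) :=
    IsPrim.of_hasDerivAt
      (fun y => ((((hasDerivAt_id y).sub_const p).div_const c).neg).exp)
      (hE.mul continuous_const)
  have pF : IsPrim (fun y => -c * (Real.exp (-((y - p) / c)) * (z y - z p) ^ 2))
      (fun y => Real.exp (-((y - p) / c)) * (z y - z p) ^ 2
        - 2 * c * (Real.exp (-((y - p) / c)) * ((z y - z p) * zy y))) := by
    refine ((pE.mul ((h.sub (IsPrim.const (z p))).pow 1)).const_mul (-c)).congr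
      (fun y => rfl) fun y => ?_
    field_simp
    push_cast
    ring
  have h0 := hS _ _ pF (j1.const_mul _) (j1.sub (j2.const_mul _)) (by simp)
  have hle : ∫ y in S, (Real.exp (-((y - p) / c)) * (z y - z p) ^ 2
      - 4 * c ^ 2 * (Real.exp (-((y - p) / c)) * zy y ^ 2))
      ≤ ∫ y in S, 2 * (Real.exp (-((y - p) / c)) * (z y - z p) ^ 2
        - 2 * c * (Real.exp (-((y - p) / c)) * ((z y - z p) * zy y))) := by
    refine integral_mono (j1.sub (i2.const_mul _)) ((j1.sub (j2.const_mul _)).const_mul _)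
      fun y => ?_
    have := mul_nonneg (Real.exp_pos (-((y - p) / c))).le (sq_nonneg (z y - z p - 2 * c * zy y))
    dsimp only
    nlinarith
  rw [integral_const_mul, h0, integral_sub j1 (i2.const_mul _), integral_const_mul] at hle
  linarith

theorem intIoi_T8a (hL : 0 < L) : IntegrableOn (fun y => Real.exp (-((y - p) / L))) (Ioi p) := by
  have h1 : -(1 / L) < 0 := by have := one_div_pos.2 hL; linarith
  refine ((integrableOn_exp_mul_Ioi h1 p).const_mul (Real.exp (p / L))).congr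
    (ae_of_all _ fun y => ?_)
  dsimp only
  rw [← Real.exp_add]
  congr 1
  ring

theorem intIic_T8a (hL : 0 < L) : IntegrableOn (fun y => Real.exp (-((y - p) / -L))) (Iic p) := by
  refine ((integrableOn_exp_mul_Iic (one_div_pos.2 hL) p).const_mul (Real.exp (-(p / L)))).congr
    (ae_of_all _ fun y => ?_)
  dsimp only
  rw [← Real.exp_add]
  congr 1
  ring

theorem expHardy_Ioi (hL : 0 < L) (h : IsPrim z zy)
    (i1 : IntegrableOn (fun y => Real.exp (-((y - p) / L)) * z y ^ 2) (Ioi p))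
    (i2 : IntegrableOn (fun y => Real.exp (-((y - p) / L)) * zy y ^ 2) (Ioi p)) :
    ∫ y in Ioi p, Real.exp (-((y - p) / L)) * (z y - z p) ^ 2
      ≤ 4 * L ^ 2 * ∫ y in Ioi p, Real.exp (-((y - p) / L)) * zy y ^ 2 :=
  core_T8a hL.ne' h (intIoi_T8a hL) i1 i2 fun f g H j1 j2 h0 => by
    rw [H.integral_Ioi j1 j2, h0, neg_zero]

theorem expHardy (hL : 0 < L) (h : IsPrim z zy)
    (i1 : Integrable (fun y => Real.exp (-(|y - p| / L)) * z y ^ 2))
    (i2 : Integrable (fun y => Real.exp (-(|y - p| / L)) * zy y ^ 2)) :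
    ∫ y, Real.exp (-(|y - p| / L)) * (z y - z p) ^ 2
      ≤ 4 * L ^ 2 * ∫ y, Real.exp (-(|y - p| / L)) * zy y ^ 2 := by
  have eR : ∀ k : ℝ → ℝ, EqOn (fun y => Real.exp (-(|y - p| / L)) * k y)
      (fun y => Real.exp (-((y - p) / L)) * k y) (Ioi p) := fun k y hy => by
    dsimp only
    rw [abs_of_pos (sub_pos.2 hy)]
  have eL : ∀ k : ℝ → ℝ, EqOn (fun y => Real.exp (-(|y - p| / L)) * k y)
      (fun y => Real.exp (-((y - p) / -L)) * k y) (Iic p) := fun k y hy => by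
    dsimp only
    rw [abs_of_nonpos (sub_nonpos.2 hy), div_neg, neg_div]
  have iE : Integrable fun y => Real.exp (-(|y - p| / L)) := by
    rw [← integrableOn_univ, ← Iic_union_Ioi (a := p)]
    refine IntegrableOn.union ?_ ?_
    · refine (intIic_T8a hL).congr_fun (fun y hy => ?_) measurableSet_Iic
      simpa using (eL (fun _ => 1) hy).symm
    · refine (intIoi_T8a hL).congr_fun (fun y hy => ?_) measurableSet_Ioi
      simpa using (eR (fun _ => 1) hy).symm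
  have j1 := intSq_T8a (by fun_prop) (fun _ => (Real.exp_pos _).le) iE h.continuous i1 (z p)
  have hR := expHardy_Ioi hL h (i1.integrableOn.congr_fun (eR _) measurableSet_Ioi)
    (i2.integrableOn.congr_fun (eR _) measurableSet_Ioi)
  have hL' := core_T8a (neg_ne_zero.2 hL.ne') h (intIic_T8a hL)
    (i1.integrableOn.congr_fun (eL _) measurableSet_Iic)
    (i2.integrableOn.congr_fun (eL _) measurableSet_Iic) fun f g H j1 j2 h0 => by
      rw [H.integral_Iic j1 j2, h0]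
  rw [← intervalIntegral.integral_Iic_add_Ioi (b := p) j1.integrableOn j1.integrableOn,
    ← intervalIntegral.integral_Iic_add_Ioi (b := p) i2.integrableOn i2.integrableOn,
    setIntegral_congr_fun measurableSet_Iic (eL _), setIntegral_congr_fun measurableSet_Ioi (eR _),
    setIntegral_congr_fun measurableSet_Iic (eL _), setIntegral_congr_fun measurableSet_Ioi (eR _)]
  rw [neg_sq] at hL'
  linarith

end Pool.Agent.MP_8339a4_an

end
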