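import Pool.Agent.Mg.F8339a4.Gaa52d0

section

/-! G block: definitions for the regularised dual virial functional. -/

open MeasureTheory Filter Topology Set

namespace Pool.Agent.MP_8339a4_an

noncomputable section

/-- One-sided exponential average. -/
def Jk (a : ℝ) (f : ℝ → ℝ) (y : ℝ) : ℝ := ∫ t in Ioi (0 : ℝ), Real.exp (-t) * f (y + a * t)
/-- The resolvent of `1 - a² ∂²` applied to `f`. -/
def X0 (a : ℝ) (f : ℝ → ℝ) (y : ℝ) : ℝ := (Jk a f y + Jk (-a) f y) / 2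
/-- The derivative of the resolvent. -/
def X1 (a : ℝ) (f : ℝ → ℝ) (y : ℝ) : ℝ := (Jk a f y - Jk (-a) f y) / (2 * a)

/-- `u` is a bounded solution of `u - a² u'' = f`, with derivative `u1`. -/
structure Res (a : ℝ) (f u u1 : ℝ → ℝ) : Prop where
  d0 : ∀ y, HasDerivAt u (u1 y) y
  d1 : ∀ y, HasDerivAt u1 ((u y - f y) / a ^ 2) y
  bf : Bdd f
  b0 : Bdd u
  b1 : Bdd u1

/-- Slowly varying, exponentially decaying weight. -/
structure SW (w : ℝ → ℝ) : Prop where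
  ex : ExpD w
  nn : ∀ y, 0 ≤ w y
  dr : ∃ w1 : ℝ → ℝ, Continuous w1 ∧ (∀ y, HasDerivAt w (w1 y) y) ∧ ∀ y, |w1 y| ≤ 4 * w y

/-- `C^2` function decaying exponentially with two derivatives. -/
structure D2 (f f1 f2 : ℝ → ℝ) : Prop where
  d0 : ∀ y, HasDerivAt f (f1 y) y
  d1 : ∀ y, HasDerivAt f1 (f2 y) y
  e0 : ExpD f
  e1 : ExpD f1
  e2 : ExpD f2

/-- Weighted square norm. -/
def wn (w f : ℝ → ℝ) : ℝ := ∫ y, w y * f y ^ 2
/-- The weight of `Nw`. -/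
def Pb (b y : ℝ) : ℝ := P1 (y / b)

def V2 (y : ℝ) : ℝ := (16 - 24 * sc y) * V y
def V3 (y : ℝ) : ℝ := tn y * (192 * sc y - 64) * V y
def V4 (y : ℝ) : ℝ := (1920 * sc y ^ 2 - 1920 * sc y + 256) * V y

/-- The cut-off and its derivatives. -/
def chi (b y : ℝ) : ℝ := 4 * P1 (2 / b * y)
def chi1 (b y : ℝ) : ℝ := 8 / b * P2 (2 / b * y)
def chi2 (b y : ℝ) : ℝ := 16 / b ^ 2 * P3 (2 / b * y)
def chi3 (b y : ℝ) : ℝ := 32 / b ^ 3 * P4 (2 / b * y)

/-- The virial weight `tn * chi` and its derivatives. -/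
def mw (b y : ℝ) : ℝ := tn y * chi b y
def mw1 (b y : ℝ) : ℝ := 2 * sc y * chi b y + tn y * chi1 b y
def mw2 (b y : ℝ) : ℝ := -(8 * tn y * sc y) * chi b y + 2 * (2 * sc y * chi1 b y)
  + tn y * chi2 b y
def mw3 (b y : ℝ) : ℝ := (-(16 * sc y ^ 2) + 32 * tn y ^ 2 * sc y) * chi b y
  + 3 * (-(8 * tn y * sc y) * chi1 b y) + 3 * (2 * sc y * chi2 b y) + tn y * chi3 b y

/-- `hA = X L e`. -/
def hA (a : ℝ) (e : ℝ → ℝ) (y : ℝ) : ℝ :=
  (e y - X0 a e y) / a ^ 2 + X0 a (fun x => (1 - V x) * e x) y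
/-- `hB = X X L e`, `hC = hB'`, `hD = hB''`. -/
def hB (a : ℝ) (e : ℝ → ℝ) : ℝ → ℝ := X0 a (hA a e)
def hC (a : ℝ) (e : ℝ → ℝ) : ℝ → ℝ := X1 a (hA a e)
def hD (a : ℝ) (e : ℝ → ℝ) (y : ℝ) : ℝ := (hB a e y - hA a e y) / a ^ 2

/-- `gg = mw * hB` and its derivatives. -/
def gg (a b : ℝ) (e : ℝ → ℝ) (y : ℝ) : ℝ := mw b y * hB a e y
def gg1 (a b : ℝ) (e : ℝ → ℝ) (y : ℝ) : ℝ := mw1 b y * hB a e y + mw b y * hC a e y
def gg2 (a b : ℝ) (e : ℝ → ℝ) (y : ℝ) : ℝ :=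
  mw2 b y * hB a e y + 2 * (mw1 b y * hC a e y) + mw b y * hD a e y

/-- `kA = X gg` and its derivatives. -/
def kA (a b : ℝ) (e : ℝ → ℝ) : ℝ → ℝ := X0 a (gg a b e)
def kA1 (a b : ℝ) (e : ℝ → ℝ) : ℝ → ℝ := X1 a (gg a b e)
def kA2 (a b : ℝ) (e : ℝ → ℝ) (y : ℝ) : ℝ := (kA a b e y - gg a b e y) / a ^ 2
def kA3 (a b : ℝ) (e : ℝ → ℝ) (y : ℝ) : ℝ := (kA1 a b e y - gg1 a b e y) / a ^ 2
def kA4 (a b : ℝ) (e : ℝ → ℝ) (y : ℝ) : ℝ := (kA2 a b e y - gg2 a b e y) / a ^ 2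
/-- `kB = X X gg` and its derivatives. -/
def kB (a b : ℝ) (e : ℝ → ℝ) : ℝ → ℝ := X0 a (kA a b e)
def kB1 (a b : ℝ) (e : ℝ → ℝ) : ℝ → ℝ := X1 a (kA a b e)
def kB2 (a b : ℝ) (e : ℝ → ℝ) (y : ℝ) : ℝ := (kB a b e y - kA a b e y) / a ^ 2
def kB3 (a b : ℝ) (e : ℝ → ℝ) (y : ℝ) : ℝ := (kB1 a b e y - kA1 a b e y) / a ^ 2
def kB4 (a b : ℝ) (e : ℝ → ℝ) (y : ℝ) : ℝ := (kB2 a b e y - kA2 a b e y) / a ^ 2

/-- The test function `L kB` and its derivatives. -/
def th0 (a b : ℝ) (e : ℝ → ℝ) (y : ℝ) : ℝ :=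
  (kA a b e y - kB a b e y) / a ^ 2 + (1 - V y) * kB a b e y
def th1 (a b : ℝ) (e : ℝ → ℝ) (y : ℝ) : ℝ :=
  (kA1 a b e y - kB1 a b e y) / a ^ 2 - V1 y * kB a b e y + (1 - V y) * kB1 a b e y
def th2 (a b : ℝ) (e : ℝ → ℝ) (y : ℝ) : ℝ :=
  (kA2 a b e y - kB2 a b e y) / a ^ 2 - V2 y * kB a b e y - 2 * (V1 y * kB1 a b e y)
    + (1 - V y) * kB2 a b e y
def th3 (a b : ℝ) (e : ℝ → ℝ) (y : ℝ) : ℝ :=
  (kA3 a b e y - kB3 a b e y) / a ^ 2 - V3 y * kB a b e y - 3 * (V2 y * kB1 a b e y)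
    - 3 * (V1 y * kB2 a b e y) + (1 - V y) * kB3 a b e y
def th4 (a b : ℝ) (e : ℝ → ℝ) (y : ℝ) : ℝ :=
  (kA4 a b e y - kB4 a b e y) / a ^ 2 - V4 y * kB a b e y - 4 * (V3 y * kB1 a b e y)
    - 6 * (V2 y * kB2 a b e y) - 4 * (V1 y * kB3 a b e y) + (1 - V y) * kB4 a b e y

/-- The commutator error. -/
def Er (a b : ℝ) (e : ℝ → ℝ) (y : ℝ) : ℝ :=
  a ^ 2 * (6 * (V2 y * kA a b e y) + 4 * (V1 y * kA1 a b e y) - 4 * (V2 y * kB a b e y)
    - a ^ 2 * (V4 y * kB a b e y) - 4 * a ^ 2 * (V3 y * kB1 a b e y))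

/-- The virial functional. -/
def GG (a b : ℝ) (e : ℝ → ℝ) : ℝ := ∫ y, mw b y * hB a e y ^ 2

end

end Pool.Agent.MP_8339a4_an

end

section

/-! G block: weighted norms. -/

open MeasureTheory Filter Topology Set

namespace Pool.Agent.MP_8339a4_an

variable {w v f g h e ey φ : ℝ → ℝ} {b A B C : ℝ}

theorem SW.bdd (hw : SW w) : Bdd w := hw.ex.bdd

theorem SW.int_mul (hw : SW w) (hf : Bdd f) (hg : Bdd g) :
    Integrable (fun y => w y * (f y * g y)) := (hw.ex.mul_bdd (hf.mul hg)).integrable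

theorem SW.int_sq (hw : SW w) (hf : Bdd f) : Integrable (fun y => w y * f y ^ 2) :=
  (hw.ex.mul_bdd (hf.pow 2)).integrable

theorem SW.int_sq2 (hw : SW w) (hf : MemLp f 2 volume) :
    Integrable (fun y => w y * f y ^ 2) := integrable_bdd_mul hf.integrable_sq hw.bdd

theorem wn_nonneg (hw : SW w) (f : ℝ → ℝ) : 0 ≤ wn w f :=
  integral_nonneg fun y => mul_nonneg (hw.nn y) (sq_nonneg _)

theorem wn_congr (H : ∀ y, f y ^ 2 = g y ^ 2) : wn w f = wn w g := by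
  simp only [wn, H]

theorem wn_le1 (hw : SW w) (hf : Bdd f) (hg : Bdd g) (H : ∀ y, f y ^ 2 ≤ A * g y ^ 2) :
    wn w f ≤ A * wn w g := by
  rw [wn, wn, ← integral_const_mul]
  refine integral_mono (hw.int_sq hf) ((hw.int_sq hg).const_mul A) fun y => ?_
  exact (mul_le_mul_of_nonneg_left (H y) (hw.nn y)).trans_eq (mul_left_comm _ _ _)

theorem wn_le2 (hw : SW w) (hf : Bdd f) (hg : Bdd g) (hh : Bdd h)
    (H : ∀ y, f y ^ 2 ≤ A * g y ^ 2 + B * h y ^ 2) : wn w f ≤ A * wn w g + B * wn w h := by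
  rw [wn, wn, wn, ← integral_const_mul, ← integral_const_mul,
    ← integral_add ((hw.int_sq hg).const_mul A) ((hw.int_sq hh).const_mul B)]
  refine integral_mono (hw.int_sq hf)
    (((hw.int_sq hg).const_mul A).add ((hw.int_sq hh).const_mul B)) fun y => ?_
  exact (mul_le_mul_of_nonneg_left (H y) (hw.nn y)).trans_eq (by ring)

theorem wn_mono (hw : SW w) (hv : SW v) (H : ∀ y, w y ≤ C * v y) (hf : Bdd f) :
    wn w f ≤ C * wn v f := by
  rw [wn, wn, ← integral_const_mul]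
  refine integral_mono (hw.int_sq hf) ((hv.int_sq hf).const_mul C) fun y => ?_
  exact (mul_le_mul_of_nonneg_right (H y) (sq_nonneg _)).trans_eq (mul_assoc _ _ _)

theorem wn_mono2 (hw : SW w) (hv : SW v) (H : ∀ y, w y ≤ C * v y) (hf : MemLp f 2 volume) :
    wn w f ≤ C * wn v f := by
  rw [wn, wn, ← integral_const_mul]
  refine integral_mono (hw.int_sq2 hf) ((hv.int_sq2 hf).const_mul C) fun y => ?_
  exact (mul_le_mul_of_nonneg_right (H y) (sq_nonneg _)).trans_eq (mul_assoc _ _ _)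

theorem sw_sc : SW sc := by
  refine ⟨expD_sc, fun y => (sc_pos y).le, _, ((bdd_tn.const_mul 4).mul expD_sc.bdd).neg.1,
    hasDerivAt_sc, fun y => ?_⟩
  rw [abs_neg, abs_mul, abs_mul, abs_of_pos (sc_pos y), abs_of_pos four_pos]
  nlinarith [abs_tn_lt y, sc_pos y]

theorem sw_Q : SW Q :=
  ⟨expD_Q, fun y => (Q_pos y).le, Q1, expD_Q1.1, hasDerivAt_Q, fun y => by
    linarith [abs_Q1_le y, Q_pos y]⟩

theorem GB_der (hb : 1 ≤ b) : Continuous (fun y => P2 (y / b) / b) ∧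
    (∀ y, HasDerivAt (Pb b) (P2 (y / b) / b) y) ∧ ∀ y, |P2 (y / b) / b| ≤ Pb b y := by
  refine ⟨(c2_T5a.comp (continuous_id.div_const b)).div_const b, fun y => ?_, fun y => ?_⟩
  · exact ((hasDerivAt_P1 (y / b)).comp y ((hasDerivAt_id y).div_const b)).congr_deriv
      (mul_one_div _ _)
  · rw [abs_div, abs_of_pos (by linarith : 0 < b)]
    exact (div_le_self (abs_nonneg _) hb).trans (abs_P2_le _)

theorem sw_Pb (hb : 1 ≤ b) : SW (Pb b) := by
  obtain ⟨h1, h2, h3⟩ := GB_der hb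
  refine ⟨(expD_P1.comp_affine (inv_pos.2 (by linarith : 0 < b)).ne' 0).congr fun y => ?_,
    fun y => (P1_pos _).le, _, h1, h2, fun y => ?_⟩
  · rw [add_zero, inv_mul_eq_div, Pb]
  · linarith [h3 y, P1_pos (y / b), show Pb b y = P1 (y / b) from rfl]

theorem Pb_pos (b y : ℝ) : 0 < Pb b y := P1_pos _

theorem exp_le_Pb (hb : 0 < b) (y : ℝ) : Real.exp (-(|y| / b)) ≤ 4 * Pb b y := by
  have := exp_le_P1 (y / b)
  rw [abs_div, abs_of_pos hb] at this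
  rw [Pb]
  linarith

theorem Pb_le_exp (hb : 0 < b) (y : ℝ) : Pb b y ≤ Real.exp (-(|y| / b)) := by
  have := P1_le_exp (y / b)
  rwa [abs_div, abs_of_pos hb] at this

theorem Q_le_Pb (hb : 1 ≤ b) (y : ℝ) : Q y ≤ 8 * Pb b y := by
  have h1 := Real.exp_le_exp.2 (neg_le_neg (div_le_self (abs_nonneg y) hb))
  linarith [Q_le_exp y, exp_le_Pb (by linarith : 0 < b) y]

theorem sc_le_Pb (hb : 1 ≤ b) (y : ℝ) : sc y ≤ 16 * Pb b y := by
  have h1 : Real.exp (-(4 * |y|)) ≤ Real.exp (-(|y| / b)) :=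
    Real.exp_le_exp.2 (by linarith [div_le_self (abs_nonneg y) hb, abs_nonneg y])
  linarith [sc_le_exp y, exp_le_Pb (by linarith : 0 < b) y]

theorem Nw_eq (hb : 1 ≤ b) (h : IsH1 e ey) : Nw b e ey = wn (Pb b) e + wn (Pb b) ey := by
  rw [wn, wn, ← integral_add ((sw_Pb hb).int_sq2 h.1) ((sw_Pb hb).int_sq2 h.2.1)]
  simp only [Nw, Pb, mul_add]

theorem N0_eq (e : ℝ → ℝ) : N0 e = wn Q e := rfl

/-- Weighted Sobolev bound in exponential form. -/
theorem abs_le_sqrt_Nw (hb : 1 ≤ b) (h : IsH1 e ey) (y : ℝ) :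
    |e y| ≤ Real.sqrt (8 * Nw b e ey) * Real.exp (1 / (2 * b) * |y|) := by
  obtain ⟨h1, h2, h3⟩ := GB_der hb
  have hb0 : 0 < b := by linarith
  have h4 : Pb b y * e y ^ 2 ≤ (1 + 1) * Nw b e ey := h.weighted_sq_le h2 h1 (sw_Pb hb).bdd
    (sw_Pb hb).nn (fun y => (h3 y).trans_eq (one_mul _).symm) zero_le_one y
  have h5 := mul_le_mul_of_nonneg_right (exp_le_Pb hb0 y) (sq_nonneg (e y))
  have h6 : Real.exp (-(|y| / b)) * Real.exp (1 / (2 * b) * |y|) ^ 2 = 1 := by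
    rw [sq, ← Real.exp_add, ← Real.exp_add, Real.exp_eq_one_iff]
    field_simp
    ring
  rw [← Real.sqrt_sq (Real.exp_pos (1 / (2 * b) * |y|)).le, ← Real.sqrt_mul' _ (sq_nonneg _)]
  refine Real.abs_le_sqrt ?_
  have h7 := mul_le_mul_of_nonneg_right (show Real.exp (-(|y| / b)) * e y ^ 2 ≤ 8 * Nw b e ey by
    linarith) (sq_nonneg (Real.exp (1 / (2 * b) * |y|)))
  rwa [mul_right_comm, h6, one_mul] at h7

/-- The integral of a derivative vanishes. -/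
theorem int_deriv_zero (hd : ∀ y, HasDerivAt f (g y) y) (hf : ExpD f) (hg : ExpD g) :
    ∫ y, g y = 0 := zero_T7a hd (fun _ => rfl) hf hg

/-- Linear terms localised near the soliton. -/
theorem lin_le (hb : 1 ≤ b) (hf : Bdd f) (hφ : Continuous φ)
    (H : ∀ y, |φ y| ≤ C * ((1 + |y|) * Q y)) :
    (∫ y, f y * φ y) ^ 2 ≤ 320 * C ^ 2 * wn (Pb b) f := by
  have k1 : ∀ y, φ y ^ 2 / Q y ≤ 2 * C ^ 2 * (Real.exp (|y| / 10) * (1 + y ^ 2) * Q y) := by
    intro y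
    have h1 : φ y ^ 2 ≤ (C * ((1 + |y|) * Q y)) ^ 2 := by
      rw [← sq_abs (φ y)]
      exact pow_le_pow_left₀ (abs_nonneg _) (H y) 2
    have h2 : 1 ≤ Real.exp (|y| / 10) := Real.one_le_exp (by positivity)
    have h3 : (1 + |y|) ^ 2 ≤ Real.exp (|y| / 10) * (2 * (1 + y ^ 2)) := by
      nlinarith [sq_nonneg (1 - |y|), sq_abs y, sq_nonneg y]
    rw [div_le_iff₀ (Q_pos y)]
    refine h1.trans ?_
    rw [mul_pow, mul_pow]
    calc _ ≤ C ^ 2 * (Real.exp (|y| / 10) * (2 * (1 + y ^ 2)) * Q y ^ 2) := by gcongr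
      _ = _ := by ring
  have e2 : ExpD fun y => φ y ^ 2 / Q y :=
    expD_env.of_le ((hφ.pow 2).div expD_Q.1 fun y => (Q_pos y).ne') (2 * C ^ 2) fun y => by
      rw [abs_of_nonneg (div_nonneg (sq_nonneg _) (Q_pos y).le), abs_of_pos (env_pos_T7b y)]
      exact k1 y
  have e1 : ExpD φ := (expD_Q.add expD_Q.id_mul.abs).of_le hφ C fun y => by
    have := Q_pos y
    rw [abs_of_nonneg (a := Q y + _) (by positivity), abs_mul, abs_of_pos this]
    exact (H y).trans_eq (by ring)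
  have a1 := csd Q_pos (e1.bdd_mul hf).integrable (sw_Q.int_sq hf) e2.integrable
  have a2 := integral_mono e2.integrable (expD_env.integrable.const_mul (2 * C ^ 2)) k1
  rw [integral_const_mul] at a2
  have a3 : ∫ y, φ y ^ 2 / Q y ≤ 2 * C ^ 2 * 20 :=
    a2.trans (mul_le_mul_of_nonneg_left integral_env_le (by positivity))
  have a4 := mul_le_mul (wn_mono sw_Q (sw_Pb hb) (Q_le_Pb hb) hf) a3
    (integral_nonneg fun y => div_nonneg (sq_nonneg _) (Q_pos y).le)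
    (mul_nonneg (by norm_num) (wn_nonneg (sw_Pb hb) f))
  exact a1.trans (a4.trans_eq (by ring))

/-- Symmetry of the linearised operator. -/
theorem D2.selfadj {f1 f2 g1 g2 : ℝ → ℝ} (hf : D2 f f1 f2) (hg : D2 g g1 g2) :
    ∫ y, f y * (-g2 y + (1 - V y) * g y) = ∫ y, (-f2 y + (1 - V y) * f y) * g y := by
  have hV := (Bdd.const 1).sub expD_V.bdd
  have p0 := IsPrim.of_hasDerivAt hf.d0 hf.e1.1
  have p1 := IsPrim.of_hasDerivAt hf.d1 hf.e2.1
  have q0 := IsPrim.of_hasDerivAt hg.d0 hg.e1.1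
  have q1 := IsPrim.of_hasDerivAt hg.d1 hg.e2.1
  refine ((p1.mul q0).sub (p0.mul q1)).integral_eq
    ((hf.e1.mul_bdd hg.e0.bdd).sub (hf.e0.mul_bdd hg.e1.bdd)).integrable
    (hf.e0.mul_bdd (hg.e2.bdd.neg.add (hV.mul hg.e0.bdd))).integrable
    (hg.e0.bdd_mul (hf.e2.bdd.neg.add (hV.mul hf.e0.bdd))).integrable fun y => ?_
  ring

theorem Test.d2 {f1 f2 f3 : ℝ → ℝ} (h : Test f f1 f2 f3) : D2 f f1 f2 :=
  ⟨h.sm.d1, h.sm.d2, h.e0, h.e1, h.e2⟩

theorem Test.d2' {f1 f2 f3 : ℝ → ℝ} (h : Test f f1 f2 f3) : D2 f1 f2 f3 :=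
  ⟨h.sm.d2, h.sm.d3, h.e1, h.e2, h.e3⟩

theorem d2_LQ : D2 LQ LQ1 LQ2 := ⟨hasDerivAt_LQ, hasDerivAt_LQ1, expD_LQ, expD_LQ1, expD_LQ2⟩

end Pool.Agent.MP_8339a4_an

end

section

/-! G block: the potential, the cut-off and the virial weight. -/

open MeasureTheory Filter Topology Set

namespace Pool.Agent.MP_8339a4_an

variable {b : ℝ}

theorem GV_tn (y : ℝ) : tn y ^ 2 = 1 - sc y := by simp only [sc]; ring

theorem GV_fac {p c : ℝ} (y : ℝ) (h : |p| ≤ c) : |p * V y| ≤ 15 * c * sc y := by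
  rw [abs_mul, abs_of_nonneg (V_nonneg y), V_eq]
  have := mul_le_mul_of_nonneg_right h (sc_pos y).le
  linarith

theorem GV_arg (hb : 0 < b) (y : ℝ) : |2 / b * y| = 2 / b * |y| := by
  rw [abs_mul, abs_of_pos (by positivity : (0 : ℝ) < 2 / b)]

theorem GV_Pb (hb : 0 < b) (y : ℝ) : Real.exp (-(|y| / b)) ≤ 4 * Pb b y := by
  have h := exp_le_P1 (y / b)
  rw [abs_div, abs_of_pos hb] at h
  simp only [Pb]
  linarith

theorem hasDerivAt_V1 (y : ℝ) : HasDerivAt V1 (V2 y) y := by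
  have h := (((hasDerivAt_tn y).const_mul 4).fun_mul (hasDerivAt_V y)).fun_neg
  refine HasDerivAt.congr_deriv h ?_
  simp only [V1, V2]
  linear_combination (16 * V y) * GV_tn y
theorem hasDerivAt_V2 (y : ℝ) : HasDerivAt V2 (V3 y) y := by
  have h := (((hasDerivAt_sc y).const_mul 24).const_sub 16).fun_mul (hasDerivAt_V y)
  refine HasDerivAt.congr_deriv h ?_
  simp only [V1, V3]
  ring
theorem hasDerivAt_V3 (y : ℝ) : HasDerivAt V3 (V4 y) y := by
  have h := ((hasDerivAt_tn y).fun_mul (((hasDerivAt_sc y).const_mul 192).sub_const 64)).fun_mul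
    (hasDerivAt_V y)
  refine HasDerivAt.congr_deriv h ?_
  simp only [V1, V4]
  linear_combination ((256 - 1536 * sc y) * V y) * GV_tn y
theorem expD_V2 : ExpD V2 := expD_V.bdd_mul ((Bdd.const 16).sub (expD_sc.bdd.const_mul 24))
theorem expD_V3 : ExpD V3 :=
  expD_V.bdd_mul (bdd_tn.mul ((expD_sc.bdd.const_mul 192).sub (Bdd.const 64)))
theorem expD_V4 : ExpD V4 :=
  expD_V.bdd_mul ((((expD_sc.bdd.pow 2).const_mul 1920).sub (expD_sc.bdd.const_mul 1920)).add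
    (Bdd.const 256))
theorem abs_V1_le_sc (y : ℝ) : |V1 y| ≤ 60 * sc y := by
  have h := abs_V1_le y
  rw [V_eq] at h
  linarith
theorem abs_V2_le_sc (y : ℝ) : |V2 y| ≤ 240 * sc y := by
  have h0 := sc_pos y
  have h1 := sc_le_one y
  have h := GV_fac (p := 16 - 24 * sc y) (c := 16) y (abs_le.2 ⟨by linarith, by linarith⟩)
  simp only [V2]
  linarith
theorem abs_V3_le_sc (y : ℝ) : |V3 y| ≤ 1920 * sc y := by
  have h0 := sc_pos y
  have h1 := sc_le_one y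
  have h2 : |192 * sc y - 64| ≤ 128 := abs_le.2 ⟨by linarith, by linarith⟩
  have h := GV_fac (p := tn y * (192 * sc y - 64)) (c := 128) y (by
    rw [abs_mul]
    exact (mul_le_of_le_one_left (abs_nonneg _) (abs_tn_lt y).le).trans h2)
  simp only [V3]
  linarith
theorem abs_V4_le_sc (y : ℝ) : |V4 y| ≤ 3840 * sc y := by
  have h0 := sc_pos y
  have h1 := sc_le_one y
  have h := GV_fac (p := 1920 * sc y ^ 2 - 1920 * sc y + 256) (c := 256) y
    (abs_le.2 ⟨by nlinarith [sq_nonneg (sc y - 1 / 2)], by nlinarith⟩)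
  simp only [V4]
  linarith
theorem abs_one_sub_V_le (y : ℝ) : |1 - V y| ≤ 14 := abs_V_T6a y
theorem bdd_one_sub_V : Bdd (fun y => 1 - V y) := (Bdd.const 1).sub expD_V.bdd

theorem test_chi (hb : 0 < b) : Test (chi b) (chi1 b) (chi2 b) (chi3 b) := by
  have h2 : (2 / b : ℝ) ≠ 0 := by positivity
  refine ((test_P1.comp_affine h2 0).const_mul 4).congr (fun y => ?_) (fun y => ?_) (fun y => ?_)
    (fun y => ?_)
  · simp only [chi, add_zero]
  · simp only [chi1, add_zero]; ring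
  · simp only [chi2, add_zero]; ring
  · simp only [chi3, add_zero]; ring
theorem chi_pos (b y : ℝ) : 0 < chi b y := mul_pos (by norm_num) (P1_pos _)
theorem chi_le_one (b y : ℝ) : chi b y ≤ 1 := by
  have h := P1_le_quarter (2 / b * y)
  simp only [chi]
  linarith
theorem chi_le_exp (hb : 0 < b) (y : ℝ) : chi b y ≤ 4 * Real.exp (-(2 / b) * |y|) := by
  have h := P1_le_exp (2 / b * y)
  rw [GV_arg hb, ← neg_mul] at h
  simp only [chi]
  linarith
theorem chi_le_Pb (hb : 0 < b) (y : ℝ) : chi b y ≤ 16 * Pb b y := by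
  have h1 := chi_le_exp hb y
  have h2 := GV_Pb hb y
  have h3 : Real.exp (-(2 / b) * |y|) ≤ Real.exp (-(|y| / b)) := by
    refine Real.exp_le_exp.2 ?_
    have : 0 ≤ |y| / b := by positivity
    have e : -(2 / b) * |y| = -(2 * (|y| / b)) := by ring
    linarith
  linarith
theorem one_sub_chi_le (hb : 0 < b) (y : ℝ) : 1 - chi b y ≤ 2 * |y| / b := by
  have h1 := exp_le_P1 (2 / b * y)
  have h2 := Real.add_one_le_exp (-|2 / b * y|)
  have e : |2 / b * y| = 2 * |y| / b := by rw [GV_arg hb]; ring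
  simp only [chi]
  linarith
theorem abs_chi1_le (hb : 1 ≤ b) (y : ℝ) : |chi1 b y| ≤ 2 / b * chi b y := by
  have h0 : 0 < b := by linarith
  have h := mul_le_mul_of_nonneg_left (abs_P2_le (2 / b * y)) (by positivity : (0 : ℝ) ≤ 8 / b)
  simp only [chi1, chi]
  rw [abs_mul, abs_of_pos (by positivity : (0 : ℝ) < 8 / b)]
  exact h.trans (le_of_eq (by ring))
theorem abs_chi2_le (hb : 1 ≤ b) (y : ℝ) : |chi2 b y| ≤ 4 / b * chi b y := by
  have h0 : 0 < b := by linarith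
  have h1 : 16 / b ^ 2 ≤ 16 / b :=
    div_le_div_of_nonneg_left (by norm_num) h0 (le_self_pow₀ hb two_ne_zero)
  have h := mul_le_mul h1 (abs_P3_le (2 / b * y)) (abs_nonneg _) (by positivity)
  simp only [chi2, chi]
  rw [abs_mul, abs_of_pos (by positivity : (0 : ℝ) < 16 / b ^ 2)]
  exact h.trans (le_of_eq (by ring))
theorem abs_chi3_le (hb : 1 ≤ b) (y : ℝ) : |chi3 b y| ≤ 16 / b * chi b y := by
  have h0 : 0 < b := by linarith
  have h1 : 32 / b ^ 3 ≤ 32 / b :=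
    div_le_div_of_nonneg_left (by norm_num) h0 (le_self_pow₀ hb three_ne_zero)
  have h := mul_le_mul h1 (abs_P4_le (2 / b * y)) (abs_nonneg _) (by positivity)
  simp only [chi3, chi]
  rw [abs_mul, abs_of_pos (by positivity : (0 : ℝ) < 32 / b ^ 3)]
  exact h.trans (le_of_eq (by ring))
theorem sc_one_sub_chi_le (hb : 1 ≤ b) (y : ℝ) : sc y * (1 - chi b y) ≤ 32 / b * Pb b y := by
  have h0 : 0 < b := by linarith
  have a0 := abs_nonneg y
  have h1 := mul_le_mul (sc_le_exp y) (one_sub_chi_le h0 y) (sub_nonneg.2 (chi_le_one b y))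
    (by positivity)
  have h2 : |y| ≤ Real.exp (3 * |y|) := by
    have := Real.add_one_le_exp (3 * |y|)
    linarith
  have h3 : Real.exp (-(4 * |y|)) * Real.exp (3 * |y|) ≤ Real.exp (-(|y| / b)) := by
    rw [← Real.exp_add]
    have := div_le_self a0 hb
    exact Real.exp_le_exp.2 (by linarith)
  have h4 := ((mul_le_mul_of_nonneg_left h2 (Real.exp_pos (-(4 * |y|))).le).trans h3).trans
    (GV_Pb h0 y)
  have h5 := mul_le_mul_of_nonneg_left h4 (by positivity : (0 : ℝ) ≤ 8 / b)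
  refine h1.trans (le_of_eq_of_le (by ring) (h5.trans (le_of_eq (by ring))))

theorem test_mw (hb : 0 < b) : Test (mw b) (mw1 b) (mw2 b) (mw3 b) := by
  have s := expD_sc.bdd
  have b2 : Bdd (fun y => -(8 * tn y * sc y)) := ((bdd_tn.const_mul 8).mul s).neg
  have b3 : Bdd (fun y => -(16 * sc y ^ 2) + 32 * tn y ^ 2 * sc y) :=
    ((s.pow 2).const_mul 16).neg.add (((bdd_tn.pow 2).const_mul 32).mul s)
  have H : Sm3 tn (fun y => 2 * sc y) (fun y => -(8 * tn y * sc y))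
      (fun y => -(16 * sc y ^ 2) + 32 * tn y ^ 2 * sc y) := by
    refine ⟨hasDerivAt_tn, fun y => ?_, fun y => ?_, b3.1⟩
    · exact ((hasDerivAt_sc y).const_mul 2).congr_deriv (by ring)
    · exact ((((hasDerivAt_tn y).const_mul 8).fun_mul (hasDerivAt_sc y)).fun_neg).congr_deriv
        (by ring)
  refine ((test_chi hb).mul_bdd H bdd_tn (s.const_mul 2) b2 b3).congr (fun y => ?_) (fun y => ?_)
    (fun y => ?_) (fun y => ?_)
  · simp only [mw]; ring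
  · simp only [mw1]; ring
  · simp only [mw2]; ring
  · simp only [mw3]; ring
theorem abs_mw_le_chi (b y : ℝ) : |mw b y| ≤ chi b y := by
  simp only [mw]
  rw [abs_mul, abs_of_pos (chi_pos b y)]
  exact mul_le_of_le_one_left (chi_pos b y).le (abs_tn_lt y).le
theorem abs_mw1_le_chi (hb : 1 ≤ b) (y : ℝ) : |mw1 b y| ≤ 4 * chi b y := by
  have c0 := chi_pos b y
  have h1 : |2 * sc y * chi b y| ≤ 2 * chi b y := by
    rw [abs_of_pos (mul_pos (mul_pos two_pos (sc_pos y)) c0)]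
    have := mul_le_mul_of_nonneg_right (sc_le_one y) c0.le
    linarith
  have h2 : |tn y * chi1 b y| ≤ 2 * chi b y := by
    rw [abs_mul]
    refine (mul_le_of_le_one_left (abs_nonneg _) (abs_tn_lt y).le).trans
      ((abs_chi1_le hb y).trans ?_)
    exact mul_le_mul_of_nonneg_right (div_le_self (by norm_num) hb) c0.le
  simp only [mw1]
  exact (abs_add_le _ _).trans (by linarith)
theorem abs_mw_sub_tn_le (hb : 0 < b) (y : ℝ) : |mw b y - tn y| ≤ 2 * |y| / b := by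
  have e : mw b y - tn y = -(tn y * (1 - chi b y)) := by simp only [mw]; ring
  have h := sub_nonneg.2 (chi_le_one b y)
  rw [e, abs_neg, abs_mul, abs_of_nonneg h]
  exact (mul_le_of_le_one_left h (abs_tn_lt y).le).trans (one_sub_chi_le hb y)

end Pool.Agent.MP_8339a4_an

end

section

/-! G block: the virial identity with cut-off. -/

open MeasureTheory Filter Topology Set

namespace Pool.Agent.MP_8339a4_an

theorem GP2_mul_le {t x M : ℝ} (k : ℝ) (ht : |t| ≤ k) (hx : |x| ≤ M) : t * x ≤ k * M :=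
  (le_abs_self _).trans ((abs_mul t x).trans_le
    (mul_le_mul ht hx (abs_nonneg _) ((abs_nonneg _).trans ht)))

theorem GP2_c1 {b : ℝ} (hb : 1 ≤ b) (y : ℝ) : 6 * sc y - 3 * mw1 b y ≤ 1920 / b * Pb b y := by
  have hb0 : 0 < b := lt_of_lt_of_le one_pos hb
  have h1 := sc_one_sub_chi_le hb y
  have h2 := GP2_mul_le (t := -tn y) 1 (by rw [abs_neg]; exact (abs_tn_lt y).le) (abs_chi1_le hb y)
  have h3 : 1 / b * chi b y ≤ 1 / b * (16 * Pb b y) :=
    mul_le_mul_of_nonneg_left (chi_le_Pb hb0 y) (by positivity)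
  have h4 : 0 ≤ 1 / b * Pb b y := mul_nonneg (by positivity) (Pb_pos b y).le
  have e1 : 32 / b * Pb b y = 32 * (1 / b * Pb b y) := by ring
  have e2 : 1920 / b * Pb b y = 1920 * (1 / b * Pb b y) := by ring
  have e3 : 2 / b * chi b y = 2 * (1 / b * chi b y) := by ring
  have e4 : 1 / b * (16 * Pb b y) = 16 * (1 / b * Pb b y) := by ring
  rw [e2, mw1]
  rw [e1] at h1
  rw [e3] at h2
  rw [e4] at h3
  linarith

theorem GP2_c2 {b : ℝ} (hb : 1 ≤ b) (y : ℝ) :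
    mw3 b y + V1 y * mw b y - (1 - V y) * mw1 b y - 12 * sc y ^ 2 + 30 * tn y ^ 2 * sc y
      ≤ 1920 / b * Pb b y := by
  have hb0 : 0 < b := lt_of_lt_of_le one_pos hb
  have s0 := sc_pos y
  have s1 := sc_le_one y
  have t1 := (abs_tn_lt y).le
  have h1 := sc_one_sub_chi_le hb y
  have h0 : 0 ≤ sc y * (1 - chi b y) := mul_nonneg s0.le (sub_nonneg.2 (chi_le_one b y))
  have h1' : (30 - 42 * sc y) * (sc y * (1 - chi b y)) ≤ 30 * (sc y * (1 - chi b y)) :=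
    mul_le_mul_of_nonneg_right (by linarith) h0
  have h2 := GP2_mul_le (t := -(tn y * (1 + 9 * sc y))) 10 (by
    rw [abs_neg, abs_mul, abs_of_pos (by linarith : 0 < 1 + 9 * sc y)]
    nlinarith [abs_nonneg (tn y)]) (abs_chi1_le hb y)
  have h2' := GP2_mul_le (t := 6 * sc y) 6 (by rw [abs_of_pos (by linarith)]; linarith)
    (abs_chi2_le hb y)
  have h2'' := GP2_mul_le (t := tn y) 1 t1 (abs_chi3_le hb y)
  have h3 : 1 / b * chi b y ≤ 1 / b * (16 * Pb b y) :=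
    mul_le_mul_of_nonneg_left (chi_le_Pb hb0 y) (by positivity)
  have e0 : mw3 b y + V1 y * mw b y - (1 - V y) * mw1 b y - 12 * sc y ^ 2 + 30 * tn y ^ 2 * sc y
      = (30 - 42 * sc y) * (sc y * (1 - chi b y)) + -(tn y * (1 + 9 * sc y)) * chi1 b y
        + 6 * sc y * chi2 b y + tn y * chi3 b y := by
    rw [mw3, V1, mw, mw1, V_eq]
    simp only [sc]
    ring
  have e1 : 32 / b * Pb b y = 32 * (1 / b * Pb b y) := by ring
  have e2 : 1920 / b * Pb b y = 1920 * (1 / b * Pb b y) := by ring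
  have e3 : 2 / b * chi b y = 2 * (1 / b * chi b y) := by ring
  have e3' : 4 / b * chi b y = 4 * (1 / b * chi b y) := by ring
  have e3'' : 16 / b * chi b y = 16 * (1 / b * chi b y) := by ring
  have e4 : 1 / b * (16 * Pb b y) = 16 * (1 / b * Pb b y) := by ring
  rw [e0, e2]
  rw [e1] at h1
  rw [e3] at h2
  rw [e3'] at h2'
  rw [e3''] at h2''
  rw [e4] at h3
  linarith

theorem virial : ∃ C : ℝ, 0 ≤ C ∧ ∀ (b : ℝ) (h h1 h2 : ℝ → ℝ), 1 ≤ b →
    (∀ y, HasDerivAt h (h1 y) y) → (∀ y, HasDerivAt h1 (h2 y) y) → Bdd h → Bdd h1 → Bdd h2 →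
    2 * ∫ y, h1 y * (-(mw2 b y * h y + 2 * (mw1 b y * h1 y) + mw b y * h2 y)
        + (1 - V y) * (mw b y * h y))
      ≤ -6 * (∫ y, sc y * (h1 y + tn y * h y) ^ 2) + C / b * (wn (Pb b) h + wn (Pb b) h1) := by
  refine ⟨1920, by norm_num, fun b h h1 h2 hb d0 d1 b0 b1 b2 => ?_⟩
  have hb0 : 0 < b := lt_of_lt_of_le one_pos hb
  have T := test_mw hb0
  have eI : ExpD fun y => h1 y * (-(mw2 b y * h y + 2 * (mw1 b y * h1 y) + mw b y * h2 y)
      + (1 - V y) * (mw b y * h y)) :=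
    ((((T.e2.mul_bdd b0).add ((T.e1.mul_bdd b1).const_mul 2)).add (T.e0.mul_bdd b2)).neg.add
      ((T.e0.mul_bdd b0).bdd_mul bdd_one_sub_V)).bdd_mul b1
  have eS : ExpD fun y => sc y * (h1 y + tn y * h y) ^ 2 :=
    expD_sc.mul_bdd ((b1.add (bdd_tn.mul b0)).pow 2)
  have eR : ExpD fun y => (6 * sc y - 3 * mw1 b y) * h1 y ^ 2 + (mw3 b y + V1 y * mw b y
      - (1 - V y) * mw1 b y - 12 * sc y ^ 2 + 30 * tn y ^ 2 * sc y) * h y ^ 2 :=
    (((expD_sc.const_mul 6).sub (T.e1.const_mul 3)).mul_bdd (b1.pow 2)).add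
      (((((T.e3.add (T.e0.bdd_mul expD_V1.bdd)).sub (T.e1.bdd_mul bdd_one_sub_V)).sub
        ((expD_sc.pow 1).const_mul 12)).add
        (expD_sc.bdd_mul ((bdd_tn.pow 2).const_mul 30))).mul_bdd (b0.pow 2))
  have eP : ExpD fun y => -(mw2 b y * h y ^ 2) - mw b y * h1 y ^ 2
      + (1 - V y) * mw b y * h y ^ 2 + 6 * (sc y * tn y * h y ^ 2) :=
    (((T.e2.mul_bdd (b0.pow 2)).neg.sub (T.e0.mul_bdd (b1.pow 2))).add
      ((T.e0.bdd_mul bdd_one_sub_V).mul_bdd (b0.pow 2))).add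
      (((expD_sc.mul_bdd bdd_tn).mul_bdd (b0.pow 2)).const_mul 6)
  have key := int_deriv_zero (fun y => ?_) eP (((eI.const_mul 2).add (eS.const_mul 6)).sub eR)
  swap
  · have := ((((T.sm.d3 y).mul ((d0 y).pow 2)).neg.sub ((T.sm.d1 y).mul ((d1 y).pow 2))).add
      (((((hasDerivAt_V y).const_sub 1).mul (T.sm.d1 y))).mul ((d0 y).pow 2))).add
      ((((hasDerivAt_sc y).mul (hasDerivAt_tn y)).mul ((d0 y).pow 2)).const_mul 6)
    refine HasDerivAt.congr_deriv this ?_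
    simp only [Pi.pow_apply, Pi.mul_apply, Nat.cast_ofNat, Nat.add_one_sub_one, pow_one]
    ring
  have i1 := (eI.const_mul 2).integrable
  have i2 := (eS.const_mul 6).integrable
  have i12 : Integrable fun y => 2 * (h1 y * (-(mw2 b y * h y + 2 * (mw1 b y * h1 y)
      + mw b y * h2 y) + (1 - V y) * (mw b y * h y))) + 6 * (sc y * (h1 y + tn y * h y) ^ 2) :=
    i1.add i2
  rw [integral_sub i12 eR.integrable, integral_add i1 i2, integral_const_mul,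
    integral_const_mul] at key
  have j0 := (sw_Pb hb).int_sq b0
  have j1 := (sw_Pb hb).int_sq b1
  have hR := integral_mono eR.integrable ((j0.add j1).const_mul (1920 / b)) fun y => by
    have a1 := mul_le_mul_of_nonneg_right (GP2_c1 hb y) (sq_nonneg (h1 y))
    have a2 := mul_le_mul_of_nonneg_right (GP2_c2 hb y) (sq_nonneg (h y))
    simp only [Pi.add_apply]
    linarith
  simp only [Pi.add_apply] at hR
  rw [integral_const_mul, integral_add j0 j1] at hR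
  unfold wn
  linarith

end Pool.Agent.MP_8339a4_an

end

section

/-! G block: static coercivity with a localised right-hand side. -/

open MeasureTheory Filter Topology Set

namespace Pool.Agent.MP_8339a4_an

theorem GP9_pt {c ρ ψ ψ1 s σ τ t v p p1 p2 w : ℝ} (hc : 0 < c) (hρ : 0 < ρ) (hs : 0 ≤ s)
    (hσ : 0 ≤ σ) (hτ : 0 ≤ τ) (hστ : σ + τ = 1) (hr : σ * ρ = τ * s) (hψ : 0 ≤ ψ) (hψ1 : ψ ≤ 1)
    (h1 : |ψ1| ≤ c / 2 * ψ) (ht : |t| ≤ 1) (hv : 0 ≤ v) (hw : ψ * τ ≤ w) :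
    ψ * (p1 ^ 2 + p ^ 2 - v * p ^ 2)
        - ((ψ1 * σ - 4 * (t * (ψ * σ * τ))) * (p * p1) + ψ * σ * (p1 * p1 + p * p2))
      ≤ c / 2 * (ψ * (p ^ 2 + p1 ^ 2)) + 1 / (c * ρ) * (s * (-p2 + (1 - v) * p) ^ 2)
        + 7 / 2 * (w * p ^ 2 + w * p1 ^ 2) := by
  obtain ⟨L, hL⟩ : ∃ L, L = -p2 + (1 - v) * p := ⟨_, rfl⟩
  have hσ1 : σ ≤ 1 := by linarith
  have hτ1 : τ ≤ 1 := by linarith
  have hω : 0 ≤ ψ * τ := mul_nonneg hψ hτ
  have hw0 : 0 ≤ w := hω.trans hw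
  have e : ψ * (p1 ^ 2 + p ^ 2 - v * p ^ 2)
        - ((ψ1 * σ - 4 * (t * (ψ * σ * τ))) * (p * p1) + ψ * σ * (p1 * p1 + p * p2))
      = ψ * τ * p1 ^ 2 + ψ * τ * p ^ 2 - ψ * τ * (v * p ^ 2) + ψ * (σ * L * p)
        - (ψ1 * σ - 4 * (t * (ψ * σ * τ))) * (p * p1) := by
    rw [hL]
    linear_combination (-(ψ * (p1 ^ 2 + p ^ 2 - v * p ^ 2))) * hστ
  have a1 : ψ * τ * p1 ^ 2 ≤ w * p1 ^ 2 := mul_le_mul_of_nonneg_right hw (sq_nonneg _)
  have a2 : ψ * τ * p ^ 2 ≤ w * p ^ 2 := mul_le_mul_of_nonneg_right hw (sq_nonneg _)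
  have a2' : 0 ≤ ψ * τ * (v * p ^ 2) := by positivity
  have b1 : σ * L * p ≤ c / 4 * p ^ 2 + (σ * L) ^ 2 / c := by
    have : c / 4 * p ^ 2 + (σ * L) ^ 2 / c - σ * L * p = (c / 2 * p - σ * L) ^ 2 / c := by
      field_simp
      ring
    have h : 0 ≤ (c / 2 * p - σ * L) ^ 2 / c := by positivity
    linarith
  have b2 : σ ^ 2 ≤ s / ρ := by
    rw [le_div_iff₀ hρ]
    have : σ ^ 2 * ρ = σ * τ * s := by linear_combination σ * hr
    rw [this]
    exact mul_le_of_le_one_left hs (mul_le_one₀ hσ1 hτ hτ1)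
  have b3 : (σ * L) ^ 2 / c ≤ 1 / (c * ρ) * (s * L ^ 2) := by
    have : 1 / (c * ρ) * (s * L ^ 2) = s / ρ * L ^ 2 / c := by field_simp
    rw [this, mul_pow]
    gcongr
  have b4 : ψ * ((σ * L) ^ 2 / c) ≤ (σ * L) ^ 2 / c :=
    mul_le_of_le_one_left (by positivity) hψ1
  have a3 : ψ * (σ * L * p) ≤ c / 4 * (ψ * p ^ 2) + 1 / (c * ρ) * (s * L ^ 2) := by
    have := mul_le_mul_of_nonneg_left b1 hψ
    linarith
  have c1 : |ψ1 * σ - 4 * (t * (ψ * σ * τ))| ≤ c / 2 * ψ + 4 * w := by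
    have d1 : |ψ1 * σ| ≤ c / 2 * ψ := by
      rw [abs_mul, abs_of_nonneg hσ]
      exact (mul_le_of_le_one_right (abs_nonneg _) hσ1).trans h1
    have d2 : |t * (ψ * σ * τ)| ≤ w := by
      rw [abs_mul, abs_of_nonneg (by positivity : 0 ≤ ψ * σ * τ)]
      refine (mul_le_of_le_one_left (by positivity) ht).trans (le_trans ?_ hw)
      rw [mul_right_comm]
      exact mul_le_of_le_one_right hω hσ1
    have d3 := abs_le.1 d1
    have d4 := abs_le.1 d2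
    exact abs_le.2 ⟨by linarith [d3.1, d4.2], by linarith [d3.2, d4.1]⟩
  have c2 : |p * p1| ≤ (p ^ 2 + p1 ^ 2) / 2 :=
    abs_le.2 ⟨by nlinarith [sq_nonneg (p + p1)], by nlinarith [sq_nonneg (p - p1)]⟩
  have a4 : |(ψ1 * σ - 4 * (t * (ψ * σ * τ))) * (p * p1)|
      ≤ (c / 2 * ψ + 4 * w) * ((p ^ 2 + p1 ^ 2) / 2) := by
    rw [abs_mul]
    exact mul_le_mul c1 c2 (abs_nonneg _) (by positivity)
  have a5 := (abs_le.1 a4).1
  have a6 : 0 ≤ c * (ψ * p1 ^ 2) := by positivity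
  have a7 : 0 ≤ w * p ^ 2 := by positivity
  have a8 : 0 ≤ w * p1 ^ 2 := by positivity
  rw [e, ← hL]
  linarith

theorem GP9_om {ε η : ℝ} (hε : 0 < ε) (hη : 0 < η) : ∃ ρ : ℝ, 0 < ρ ∧ ∀ b : ℝ, 1 ≤ b → 2 / ε ≤ b →
    ∀ y, 4 * P1 (ε * y) * (ρ / (sc y + ρ)) ≤ η * Pb b y := by
  obtain ⟨R, hR⟩ : ∃ R : ℝ, R = 32 / (ε * η) := ⟨_, rfl⟩
  have hρ : 0 < η * Real.exp (-(5 * R)) / 4 := by positivity
  refine ⟨_, hρ, fun b hb hb2 y => ?_⟩
  generalize hρ' : η * Real.exp (-(5 * R)) / 4 = ρ at hρ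
  have hb0 : 0 < b := by linarith
  have hP := exp_le_Pb hb0 y
  have hs := sc_pos y
  have hτ0 : 0 ≤ ρ / (sc y + ρ) := by positivity
  have hP1 := P1_pos (ε * y)
  rcases le_total R |y| with h | h
  · have t1 : ρ / (sc y + ρ) ≤ 1 := (div_le_one (by positivity)).2 (by linarith)
    have t2 : P1 (ε * y) ≤ Real.exp (-(ε * |y| / 2)) * Real.exp (-(ε * |y| / 2)) := by
      have := P1_le_exp (ε * y)
      rw [abs_mul, abs_of_pos hε] at this
      rw [← Real.exp_add]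
      refine this.trans (le_of_eq ?_)
      congr 1
      ring
    have t3 : Real.exp (-(ε * |y| / 2)) ≤ 4 * Pb b y := by
      refine le_trans (Real.exp_le_exp.2 ?_) hP
      have : |y| / b ≤ ε * |y| / 2 := by
        rw [div_le_iff₀ hb0]
        have h2 : 2 ≤ b * ε := (div_le_iff₀ hε).1 hb2
        nlinarith [abs_nonneg y]
      linarith
    have t4 : Real.exp (-(ε * |y| / 2)) ≤ η / 16 := by
      have u1 : 16 / η ≤ ε * |y| / 2 := by
        have : 16 / η = ε * R / 2 := by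
          rw [hR]
          field_simp
          norm_num
        rw [this]
        gcongr
      have u2 := Real.add_one_le_exp (ε * |y| / 2)
      rw [Real.exp_neg, ← inv_div 16 η]
      exact inv_anti₀ (by positivity) (by linarith)
    have t5 := mul_le_mul t4 t3 (Real.exp_pos _).le (by positivity)
    have t6 : 4 * P1 (ε * y) * (ρ / (sc y + ρ)) ≤ 4 * P1 (ε * y) :=
      mul_le_of_le_one_right (by positivity) t1
    linarith
  · have t1 : 4 * P1 (ε * y) * (ρ / (sc y + ρ)) ≤ ρ / (sc y + ρ) :=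
      mul_le_of_le_one_left hτ0 (by linarith [P1_le_quarter (ε * y)])
    have t2 : Real.exp (-(4 * R)) ≤ sc y + ρ :=
      ((Real.exp_le_exp.2 (by linarith)).trans (exp_le_sc y)).trans (by linarith)
    have t3 : Real.exp (-R) ≤ 4 * Pb b y := by
      refine le_trans (Real.exp_le_exp.2 ?_) hP
      have : |y| / b ≤ |y| := div_le_self (abs_nonneg y) hb
      linarith
    have t4 : ρ / (sc y + ρ) ≤ η * Real.exp (-R) / 4 := by
      rw [div_le_iff₀ (by positivity)]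
      have : ρ = η * Real.exp (-R) / 4 * Real.exp (-(4 * R)) := by
        rw [← hρ', show -(5 * R) = -R + -(4 * R) by ring, Real.exp_add]
        ring
      refine this.le.trans ?_
      gcongr
    have t5 := mul_le_mul_of_nonneg_left t3 hη.le
    linarith

theorem GP9_frac {ρ : ℝ} (hρ : 0 < ρ) {f : ℝ → ℝ} (hf : Continuous f)
    (h : ∀ y, 0 ≤ f y ∧ f y ≤ sc y + ρ) : Bdd (fun y => f y / (sc y + ρ)) := by
  have hp : ∀ y, 0 < sc y + ρ := fun y => add_pos (sc_pos y) hρ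
  refine ⟨hf.div (expD_sc.1.add continuous_const) fun y => (hp y).ne', 1, fun y => ?_⟩
  rw [abs_of_nonneg (div_nonneg (h y).1 (hp y).le)]
  exact (div_le_one (hp y)).2 (h y).2

theorem static_link (h1 : C1wStmt) {η : ℝ} (hη : 0 < η) : ∃ K b0 : ℝ, 0 ≤ K ∧ 1 ≤ b0 ∧
    ∀ (b : ℝ) (p p1 p2 : ℝ → ℝ), b0 ≤ b → (∀ y, HasDerivAt p (p1 y) y) →
      (∀ y, HasDerivAt p1 (p2 y) y) → Bdd p1 → Bdd p2 → IsH1 p p1 →
      wn Q p ≤ K * wn sc (fun y => -p2 y + (1 - V y) * p y)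
        + η * (wn (Pb b) p + wn (Pb b) p1)
        + K * ((∫ y, p y * C0 y) ^ 2 + (∫ y, p y * Q1 y) ^ 2) := by
  obtain ⟨c, C, ε0, hc, hC, hε0, H⟩ := h1
  obtain ⟨ε, hε, e0, e1, e2⟩ : ∃ ε : ℝ, 0 < ε ∧ ε ≤ ε0 ∧ ε ≤ c / 2 ∧ ε ≤ 1 :=
    ⟨min ε0 (min (c / 2) 1), by positivity, min_le_left _ _,
      (min_le_right _ _).trans (min_le_left _ _), (min_le_right _ _).trans (min_le_right _ _)⟩
  obtain ⟨ρ, hρ, hom⟩ := GP9_om hε (η := c * η / 14) (by positivity)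
  refine ⟨4 / c * (1 / (c * ρ)) + 4 / c * C, max 1 (2 / ε), by positivity, le_max_left _ _,
    fun b p p1 p2 hb d0 d1 b1 b2 hp => ?_⟩
  have hb1 : 1 ≤ b := (le_max_left _ _).trans hb
  have hb2 : 2 / ε ≤ b := (le_max_right _ _).trans hb
  have b0 := hp.bdd
  obtain ⟨ψ, hψ⟩ : ∃ ψ : ℝ → ℝ, ψ = fun y => 4 * P1 (ε * y) := ⟨_, rfl⟩
  obtain ⟨ψ1, hψ1⟩ : ∃ ψ1 : ℝ → ℝ, ψ1 = fun y => 4 * (P2 (ε * y) * ε) := ⟨_, rfl⟩
  have dψ : ∀ y, HasDerivAt ψ (ψ1 y) y := fun y => by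
    rw [hψ, hψ1]
    have := ((hasDerivAt_P1 (ε * y)).comp y ((hasDerivAt_id y).const_mul ε)).const_mul 4
    simpa using this
  have eψ : ExpD ψ := by
    rw [hψ]
    exact ((expD_P1.comp_affine hε.ne' 0).const_mul 4).congr fun y => by simp
  have eψ1 : ExpD ψ1 := by
    rw [hψ1]
    exact ((expD_P2.comp_affine hε.ne' 0).const_mul (4 * ε)).congr fun y => by
      simp only [add_zero]
      ring
  have pψ : ∀ y, 0 < ψ y := fun y => by
    rw [hψ]
    exact mul_pos (by norm_num) (P1_pos _)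
  have lψ : ∀ y, ψ y ≤ 1 := fun y => by
    rw [hψ]
    have := P1_le_quarter (ε * y)
    show 4 * P1 (ε * y) ≤ 1
    linarith
  have aψ : ∀ y, |ψ1 y| ≤ ε * ψ y := fun y => by
    rw [hψ, hψ1]
    show |4 * (P2 (ε * y) * ε)| ≤ ε * (4 * P1 (ε * y))
    rw [abs_mul, abs_mul, abs_of_pos hε, abs_of_pos (by norm_num : (0 : ℝ) < 4)]
    nlinarith [abs_P2_le (ε * y)]
  have qψ : ∀ y, Q y ≤ 2 * ψ y := fun y => by
    rw [hψ]
    show Q y ≤ 2 * (4 * P1 (ε * y))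
    have u1 := Q_le_exp y
    have u2 := exp_le_P1 (ε * y)
    have u3 : Real.exp (-|y|) ≤ Real.exp (-|ε * y|) := by
      rw [Real.exp_le_exp, abs_mul, abs_of_pos hε]
      nlinarith [abs_nonneg y]
    linarith
  have H1 := H ψ ψ1 dψ eψ1.1 eψ.bdd pψ
    (fun y => (aψ y).trans (mul_le_mul_of_nonneg_right e0 (pψ y).le))
    (by rw [hψ]; simp [P1_zero, hε0.le]) p p1 hp
  have hpos : ∀ y, 0 < sc y + ρ := fun y => add_pos (sc_pos y) hρ
  obtain ⟨σ, hσ⟩ : ∃ σ : ℝ → ℝ, σ = fun y => sc y / (sc y + ρ) := ⟨_, rfl⟩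
  obtain ⟨τ, hτ⟩ : ∃ τ : ℝ → ℝ, τ = fun y => ρ / (sc y + ρ) := ⟨_, rfl⟩
  have bσ : Bdd σ := hσ ▸ GP9_frac hρ expD_sc.1 fun y => ⟨(sc_pos y).le, by linarith⟩
  have bτ : Bdd τ := hτ ▸ GP9_frac hρ continuous_const fun y => ⟨hρ.le, by linarith [sc_pos y]⟩
  have dσ : ∀ y, HasDerivAt σ (-(4 * (tn y * (σ y * τ y)))) y := fun y => by
    rw [hσ, hτ]
    refine ((hasDerivAt_sc y).fun_div ((hasDerivAt_sc y).add_const ρ) (hpos y).ne').congr_deriv ?_
    have := (hpos y).ne'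
    field_simp
    ring
  have eζ : ExpD fun y => ψ y * σ y := eψ.mul_bdd bσ
  have eΦ1 : ExpD fun y => (ψ1 y * σ y - 4 * (tn y * (ψ y * σ y * τ y))) * (p y * p1 y)
      + ψ y * σ y * (p1 y * p1 y + p y * p2 y) :=
    (((eψ1.mul_bdd bσ).sub (((eζ.mul_bdd bτ).bdd_mul bdd_tn).const_mul 4)).mul_bdd
      (b0.mul b1)).add (eζ.mul_bdd ((b1.mul b1).add (b0.mul b2)))
  have z := int_deriv_zero (f := fun y => ψ y * σ y * (p y * p1 y))
    (fun y => (((dψ y).fun_mul (dσ y)).fun_mul ((d0 y).fun_mul (d1 y))).congr_deriv (by ring))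
    (eζ.mul_bdd (b0.mul b1)) eΦ1
  have bL : Bdd fun y => -p2 y + (1 - V y) * p y := b2.neg.add (bdd_one_sub_V.mul b0)
  have iA : Integrable fun y => ψ y * (p1 y ^ 2 + p y ^ 2 - V y * p y ^ 2) :=
    (eψ.mul_bdd (((b1.pow 2).add (b0.pow 2)).sub (expD_V.bdd.mul (b0.pow 2)))).integrable
  have iB : Integrable fun y => ψ y * (p y ^ 2 + p1 y ^ 2) :=
    (eψ.mul_bdd ((b0.pow 2).add (b1.pow 2))).integrable
  have iC := sw_sc.int_sq bL
  have iD := (sw_Pb hb1).int_sq b0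
  have iE := (sw_Pb hb1).int_sq b1
  have iF : Integrable fun y => c / 2 * (ψ y * (p y ^ 2 + p1 y ^ 2))
      + 1 / (c * ρ) * (sc y * (-p2 y + (1 - V y) * p y) ^ 2) :=
    (iB.const_mul _).add (iC.const_mul _)
  have iG : Integrable fun y => Pb b y * p y ^ 2 + Pb b y * p1 y ^ 2 := iD.add iE
  have M := integral_mono (iA.sub eΦ1.integrable) (iF.add (iG.const_mul (c * η / 4))) fun y => by
    have hy := (hpos y).ne'
    have := GP9_pt (ψ1 := ψ1 y) (σ := σ y) (τ := τ y) (p := p y) (p1 := p1 y) (p2 := p2 y)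
      (w := c * η / 14 * Pb b y) hc hρ (sc_pos y).le
      (by rw [hσ]; exact div_nonneg (sc_pos y).le (hpos y).le)
      (by rw [hτ]; exact div_nonneg hρ.le (hpos y).le)
      (by rw [hσ, hτ]; field_simp) (by rw [hσ, hτ]; ring) (pψ y).le (lψ y)
      ((aψ y).trans (mul_le_mul_of_nonneg_right e1 (pψ y).le)) (abs_tn_lt y).le (V_nonneg y)
      (by rw [hψ, hτ]; exact hom b hb1 hb2 y)
    simp only [Pi.sub_apply, Pi.add_apply]
    linarith
  simp only [Pi.sub_apply, Pi.add_apply] at M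
  rw [integral_sub iA eΦ1.integrable, z, integral_add iF (iG.const_mul _),
    integral_add (iB.const_mul _) (iC.const_mul _), integral_const_mul, integral_const_mul,
    integral_const_mul, integral_add iD iE] at M
  have N : wn Q p ≤ 2 * ∫ y, ψ y * (p y ^ 2 + p1 y ^ 2) := by
    rw [← integral_const_mul]
    refine integral_mono (sw_Q.int_sq b0) (iB.const_mul 2) fun y => ?_
    have u1 := mul_le_mul_of_nonneg_right (qψ y) (sq_nonneg (p y))
    have u2 := mul_nonneg (pψ y).le (sq_nonneg (p1 y))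
    show Q y * p y ^ 2 ≤ 2 * (ψ y * (p y ^ 2 + p1 y ^ 2))
    linarith
  have w0 := wn_nonneg sw_sc (fun y => -p2 y + (1 - V y) * p y)
  unfold wn at w0 ⊢
  unfold wn at N
  generalize (∫ y, ψ y * (p y ^ 2 + p1 y ^ 2)) = I at *
  generalize (∫ y, sc y * (-p2 y + (1 - V y) * p y) ^ 2) = A at *
  generalize (∫ y, Pb b y * p y ^ 2) + (∫ y, Pb b y * p1 y ^ 2) = B at *
  have o0 : 0 ≤ (∫ y, p y * C0 y) ^ 2 + (∫ y, p y * Q1 y) ^ 2 := by positivity
  generalize (∫ y, p y * C0 y) ^ 2 + (∫ y, p y * Q1 y) ^ 2 = O at *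
  have k1 : c / 2 * I ≤ 1 / (c * ρ) * A + c * η / 4 * B + C * O := by linarith
  have k2 := mul_le_mul_of_nonneg_left k1 (by positivity : 0 ≤ 4 / c)
  have k3 : 4 / c * (c / 2 * I) = 2 * I := by
    field_simp
    norm_num
  have k4 : 4 / c * (c * η / 4 * B) = η * B := by field_simp
  have k5 : 0 ≤ 4 / c * C * A := by positivity
  have k6 : 0 ≤ 4 / c * (1 / (c * ρ)) * O := by positivity
  rw [k3, mul_add, mul_add, k4] at k2
  linarith

end Pool.Agent.MP_8339a4_an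

end
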