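import Pool.Agent.Mg.F8339a4.Gaa52d0
import Pool.Agent.Mg.F8339a4.G100cd9

section

/-! The global form of the sharp Gagliardo-Nirenberg inequality under a local mass bound. -/

open MeasureTheory Filter Topology Set

namespace Pool.Agent.MP_8339a4_an

theorem avg_NagyG {f : ℝ → ℝ} (hf : Integrable f) {l : ℝ} (hl : 0 < l) :
    Integrable (fun x => ∫ y in x..(x + l), f y) ∧ ∫ x, ∫ y in x..(x + l), f y = l * ∫ y, f y := by
  have e : (fun x => ∫ y in x..(x + l), f y) = fun x => ∫ t in Ioc (-l) 0, f (x - t) := by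
    funext x
    rw [← intervalIntegral.integral_of_le (by linarith), intervalIntegral.integral_comp_sub_left,
      sub_zero, sub_neg_eq_add]
  have h : Integrable (fun p : ℝ × ℝ => f (p.1 - p.2))
      (volume.prod (volume.restrict (Ioc (-l) 0))) := by
    simpa using (integrable_const (μ := volume.restrict (Ioc (-l) (0 : ℝ)))
      (1 : ℝ)).convolution_integrand (ContinuousLinearMap.mul ℝ ℝ) hf
  rw [e]
  refine ⟨h.integral_prod_left, ?_⟩
  rw [integral_integral_swap (f := fun x t => f (x - t)) h]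
  simp [integral_sub_right_eq_self, hl.le]

theorem four_NagyG {w wy : ℝ → ℝ} (h : IsH1 w wy) {M : ℝ} (hM : (∫ y, w y ^ 2) ≤ M) :
    ∫ y, w y ^ 4 ≤ 2 * (Real.sqrt M * Real.sqrt (∫ y, wy y ^ 2)) * M := by
  have h0 : (0 : ℝ) ≤ 2 * (Real.sqrt M * Real.sqrt (∫ y, wy y ^ 2)) := by positivity
  refine le_trans ?_ (mul_le_mul_of_nonneg_left hM h0)
  rw [← integral_const_mul]
  refine integral_mono (h.integrable_pow 2) ((h.integrable_pow 0).const_mul _) fun y => ?_
  have h1 : w y ^ 2 ≤ 2 * (Real.sqrt M * Real.sqrt (∫ y, wy y ^ 2)) :=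
    (h.sq_le y).trans (by gcongr)
  have := mul_le_mul_of_nonneg_right h1 (sq_nonneg (w y))
  dsimp only
  linarith [show w y ^ 4 = w y ^ 2 * w y ^ 2 by ring]

theorem nagyG (hI : NagyIStmt) : NagyGStmt := by
  intro M d hd
  have h0 : Real.sqrt (1 / 3) * d < Real.pi / 2 := by
    have e : Real.sqrt (1 / 3) * Real.sqrt 3 = 1 := by
      rw [← Real.sqrt_mul (by norm_num)]
      norm_num
    have := mul_lt_mul_of_pos_left (hd.trans_eq integral_Q_sq)
      (Real.sqrt_pos.2 (by norm_num : (0 : ℝ) < 1 / 3))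
    rwa [← mul_div_assoc, ← mul_assoc, e, one_mul] at this
  have h1 : ∀ᶠ q in 𝓝 (1 / 3 : ℝ), Real.sqrt q * d < Real.pi / 2 :=
    (by fun_prop : Continuous fun q => Real.sqrt q * d).continuousAt.eventually_lt
      continuousAt_const h0
  obtain ⟨q, hq1, hq2⟩ := ((h1.filter_mono nhdsWithin_le_nhds).and
    (self_mem_nhdsWithin (s := Ioi (1 / 3 : ℝ)))).exists
  have hq : 1 / 3 < q := hq2
  obtain ⟨C, hC, H⟩ := hI q d (by linarith) hq1
  obtain ⟨c, hc, hc1, hc2⟩ : ∃ c : ℝ, 0 < c ∧ 0 < 1 - 2 * c ∧ 1 + c = 3 * q * (1 - 2 * c) := by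
    have h6 : 0 < 1 + 6 * q := by linarith
    have e : 1 - 2 * ((3 * q - 1) / (1 + 6 * q)) = 3 / (1 + 6 * q) := by
      field_simp
      ring
    refine ⟨(3 * q - 1) / (1 + 6 * q), div_pos (by linarith) h6, e ▸ by positivity, ?_⟩
    rw [e]
    field_simp
    ring
  refine ⟨c, (4 * C * Real.sqrt M * M) ^ 2 / (4 * c), hc, fun l w wy hl h hM hL => ?_⟩
  have i2 : Integrable fun y => wy y ^ 2 := h.2.1.integrable_sq
  have i4 : Integrable fun y => w y ^ 4 := h.integrable_pow 2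
  have i6 : Integrable fun y => w y ^ 6 := h.integrable_pow 4
  obtain ⟨a1, a2⟩ := avg_NagyG (i2.sub (i6.const_mul q)) hl
  have a3 := integral_mono ((i4.add (i4.comp_add_right l)).const_mul C).neg a1 fun x =>
    H x (x + l) w wy (by linarith) h.isPrim i2.intervalIntegrable (hL x)
  simp only [Pi.sub_apply, Pi.neg_apply, Pi.add_apply] at a2 a3
  rw [a2, integral_neg, integral_const_mul, integral_add i4 (i4.comp_add_right l),
    integral_add_right_eq_self (fun y => w y ^ 4), integral_sub i2 (i6.const_mul q),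
    integral_const_mul] at a3
  have a4 := mul_le_mul_of_nonneg_left (four_NagyG h hM) hC
  have hM0 : 0 ≤ M := (integral_nonneg fun y => sq_nonneg _).trans hM
  have hA := Real.sq_sqrt (integral_nonneg (μ := volume) fun y => sq_nonneg (wy y))
  rw [integral_sub i2 ((i6.const_mul (1 + c)).div_const 3), integral_div, integral_const_mul, hc2]
  have hs := Real.sqrt_nonneg (∫ y, wy y ^ 2)
  generalize Real.sqrt (∫ y, wy y ^ 2) = s at *
  generalize (∫ y, wy y ^ 2) = A at *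
  generalize (∫ y, w y ^ 6) = B at *
  obtain ⟨K, hK, hK0⟩ : ∃ K, 4 * C * Real.sqrt M * M / l = K ∧ 0 ≤ K := ⟨_, rfl, by positivity⟩
  have e1 : (4 * C * Real.sqrt M * M) ^ 2 / (4 * c) / l ^ 2 = K ^ 2 / (4 * c) := by
    rw [← hK]
    ring
  have b1 : -(K * s) ≤ A - q * B := by
    refine le_of_mul_le_mul_left ?_ hl
    have : l * -(K * s) = -(2 * (C * (2 * (Real.sqrt M * s) * M))) := by
      rw [← hK]
      field_simp
      ring
    linarith
  have b2 : K * s ≤ c * A + K ^ 2 / (4 * c) := by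
    have : c * s ^ 2 + K ^ 2 / (4 * c) - K * s = (2 * c * s - K) ^ 2 / (4 * c) := by
      field_simp
      ring
    have h3 : 0 ≤ (2 * c * s - K) ^ 2 / (4 * c) := by positivity
    rw [← hA]
    linarith
  have b3 := mul_le_mul_of_nonneg_left b1 hc1.le
  have b4 : 0 ≤ c * (K * s) := by positivity
  rw [e1]
  nlinarith

end Pool.Agent.MP_8339a4_an

end

section

/-! The weighted Nagy inequality. -/

open MeasureTheory Filter Topology Set

namespace Pool.Agent.MP_8339a4_an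

theorem tail_NagyW {f : ℝ → ℝ} (hf : Integrable f) :
    ∃ G : ℝ → ℝ, IsPrim G (fun y => -f y) ∧ Bdd G ∧ Tendsto G atTop (𝓝 0) := by
  have hP : IsPrim (fun x => ∫ y in Ioi x, f y) (fun y => -f y) := by
    refine ⟨fun a b => hf.neg.intervalIntegrable, fun a b => ?_⟩
    have h := intervalIntegral.integral_Ioi_sub_Ioi' (μ := volume) (a := a) (b := b)
      hf.integrableOn hf.integrableOn
    rw [intervalIntegral.integral_neg, ← h]
    ring
  refine ⟨fun x => ∫ y in Ioi x, f y, hP, ⟨hP.continuous, ∫ y, |f y|, fun x => ?_⟩,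
    tendsto_integral_Ioi_zero tendsto_id⟩
  calc |∫ y in Ioi x, f y| ≤ ∫ y in Ioi x, |f y| := abs_integral_le_integral_abs
    _ ≤ ∫ y, |f y| := setIntegral_le_integral hf.abs (Eventually.of_forall fun y => abs_nonneg _)

theorem anti_NagyW {F g : ℝ → ℝ} (h : IsPrim F g) {a b : ℝ} (hab : a ≤ b)
    (hg : ∀ y ∈ Icc a b, g y ≤ 0) : F b ≤ F a := by
  have h1 := h.2 a b
  have h2 : 0 ≤ ∫ y in a..b, -g y :=
    intervalIntegral.integral_nonneg hab fun y hy => neg_nonneg.2 (hg y hy)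
  rw [intervalIntegral.integral_neg] at h2
  linarith

theorem nonneg_NagyW {F g : ℝ → ℝ} (h : IsPrim F g) (hg : ∀ y, g y ≤ 0)
    (h0 : Tendsto F atTop (𝓝 0)) (x : ℝ) : 0 ≤ F x :=
  le_of_tendsto h0 ((eventually_ge_atTop x).mono fun _ hN => anti_NagyW h hN fun y _ => hg y)

theorem shift_NagyW {F g : ℝ → ℝ} (h : IsPrim F g) (l : ℝ) :
    IsPrim (fun y => F (y + l)) (fun y => g (y + l)) :=
  (h.comp_affine 1 l).congr (fun y => by rw [one_mul]) (fun y => by rw [one_mul, one_mul])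

theorem window_NagyW {G : ℝ → ℝ} (h0 : Tendsto G atTop (𝓝 0)) {l : ℝ} (hl : 0 < l) :
    Tendsto (fun x => ∫ y in x..(x + l), G y) atTop (𝓝 0) := by
  rw [Metric.tendsto_atTop] at h0 ⊢
  intro ε hε
  obtain ⟨N, hN⟩ := h0 (ε / (2 * l)) (by positivity)
  refine ⟨N, fun x hx => ?_⟩
  have h1 : ‖∫ y in x..(x + l), G y‖ ≤ ε / (2 * l) * |x + l - x| := by
    apply intervalIntegral.norm_integral_le_of_norm_le_const
    intro y hy
    rw [uIoc_of_le (by linarith)] at hy
    have := hN y (by linarith [hy.1])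
    rw [dist_zero_right] at this
    exact this.le
  rw [dist_zero_right]
  have e : ε / (2 * l) * |x + l - x| = ε / 2 := by
    rw [add_sub_cancel_left, abs_of_pos hl]
    field_simp
  linarith

theorem half_NagyW {f g G H : ℝ → ℝ} {C l : ℝ} (hl : 0 < l) (hC : 0 ≤ C)
    (hG : IsPrim G (fun y => -f y)) (hH : IsPrim H (fun y => -g y)) (hg : ∀ y, 0 ≤ g y)
    (G0 : Tendsto G atTop (𝓝 0)) (H0 : Tendsto H atTop (𝓝 0))
    (hI : ∀ a b, a ≤ b → b ≤ a + l → -(C * (g a + g b)) ≤ ∫ y in a..b, f y) (p : ℝ) :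
    -(C * g p) - 3 * C / l * H p ≤ G p := by
  have cG := hG.continuous
  have hΓ : IsPrim (fun x => ∫ y in (0 : ℝ)..x, G y) G :=
    IsPrim.of_hasDerivAt (fun x => (cG.integral_hasStrictDerivAt 0 x).hasDerivAt) cG
  set Γ : ℝ → ℝ := fun x => ∫ y in (0 : ℝ)..x, G y with hΓd
  have hGf : ∀ a b, G a - G b = ∫ y in a..b, f y := by
    intro a b
    have h := hG.2 a b
    rw [intervalIntegral.integral_neg] at h
    linarith
  have hn : ∀ y, -g y ≤ 0 := fun y => neg_nonpos.2 (hg y)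
  have H1 := nonneg_NagyW hH hn H0 (p + l)
  have H2 : H (p + l) ≤ H p := anti_NagyW hH (by linarith) fun y _ => hn y
  have hΘ := ((shift_NagyW hΓ l).sub hΓ).add ((hH.add (shift_NagyW hH l)).const_mul C)
  have Θ0 : Tendsto (fun y => Γ (y + l) - Γ y + C * (H y + H (y + l))) atTop (𝓝 0) := by
    have t1 : Tendsto (fun y => Γ (y + l) - Γ y) atTop (𝓝 0) :=
      (window_NagyW G0 hl).congr fun x => (hΓ.2 x (x + l)).symm
    have t2 : Tendsto (fun y => H (y + l)) atTop (𝓝 0) :=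
      H0.comp (tendsto_atTop_add_const_right _ l tendsto_id)
    have t3 := t1.add ((H0.add t2).const_mul C)
    simpa using t3
  have A1 := nonneg_NagyW hΘ (fun y => by
    have h1 := hI y (y + l) (by linarith) le_rfl
    have h2 := hGf y (y + l)
    linarith) Θ0 p
  have hid : IsPrim (fun t : ℝ => t) (fun _ => 1) :=
    IsPrim.of_hasDerivAt (fun y => hasDerivAt_id y) continuous_const
  have hΞ := (hΓ.sub (hid.const_mul (G p + C * g p))).add (hH.const_mul C)
  have A2 := anti_NagyW hΞ (show p ≤ p + l by linarith) (fun y hy => by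
    have h1 := hI p y hy.1 hy.2
    have h2 := hGf p y
    linarith)
  have H3 := mul_le_mul_of_nonneg_left H2 hC
  have H4 := mul_nonneg hC H1
  have A3 : -(3 * C * H p) ≤ l * (G p + C * g p) := by
    linarith
  have A4 : -(3 * C * H p) / l ≤ G p + C * g p := by
    rw [div_le_iff₀ hl]
    linarith
  have e : -(3 * C * H p) / l = -(3 * C / l * H p) := by ring
  linarith

theorem ibp_NagyW {φ φ1 f G : ℝ → ℝ} (hd : ∀ y, HasDerivAt φ (φ1 y) y) (he : ExpD φ1)
    (hb : Bdd φ) (h0 : Tendsto φ atBot (𝓝 0)) (hf : Integrable f)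
    (hG : IsPrim G (fun y => -f y)) (bG : Bdd G) (G0 : Tendsto G atTop (𝓝 0)) :
    ∫ y, φ y * f y = ∫ y, φ1 y * G y := by
  have hφ : IsPrim φ φ1 := IsPrim.of_hasDerivAt hd he.1
  have i1 : Integrable (fun y => φ1 y * G y) := integrable_mul_bdd he.integrable bG
  have i2 : Integrable (fun y => φ y * -f y) := integrable_bdd_mul hf.neg hb
  obtain ⟨C1, hC1⟩ := hb.2
  obtain ⟨C2, hC2⟩ := bG.2
  have t1 : Tendsto (fun y => φ y * G y) atBot (𝓝 0) := by
    have t : Tendsto (fun y => |φ y| * C2) atBot (𝓝 0) := by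
      simpa using h0.abs.mul_const C2
    refine squeeze_zero_norm (fun y => ?_) t
    rw [Real.norm_eq_abs, abs_mul]
    exact mul_le_mul_of_nonneg_left (hC2 y) (abs_nonneg _)
  have t2 : Tendsto (fun y => φ y * G y) atTop (𝓝 0) := by
    have t : Tendsto (fun y => C1 * |G y|) atTop (𝓝 0) := by
      simpa using G0.abs.const_mul C1
    refine squeeze_zero_norm (fun y => ?_) t
    rw [Real.norm_eq_abs, abs_mul]
    exact mul_le_mul_of_nonneg_right (hC1 y) (abs_nonneg _)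
  have h := (hφ.mul hG).integral_of_tendsto (i1.add i2) t1 t2
  rw [integral_add i1 i2] at h
  have e : ∫ y, φ y * -f y = -∫ y, φ y * f y := by
    rw [← integral_neg]
    congr 1
    funext y
    ring
  linarith

theorem choose_NagyW {d : ℝ} (hd : d < ∫ y, Q y ^ 2) :
    ∃ c : ℝ, 0 < c ∧ c < 1 ∧ Real.sqrt ((1 / 3 + 2 * c) / (1 - c)) * d < Real.pi / 2 := by
  rw [integral_Q_sq] at hd
  have hc : ContinuousAt (fun c : ℝ => Real.sqrt ((1 / 3 + 2 * c) / (1 - c)) * d) 0 := by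
    fun_prop (disch := norm_num)
  have h3 : Real.sqrt (1 / 3) * Real.sqrt 3 = 1 := by
    rw [← Real.sqrt_mul (by norm_num)]
    norm_num
  have hp : 0 < Real.sqrt (1 / 3) := Real.sqrt_pos.2 (by norm_num)
  have h0 : Real.sqrt ((1 / 3 + 2 * 0) / (1 - 0)) * d < Real.pi / 2 := by
    have e : ((1 / 3 + 2 * 0) / (1 - 0) : ℝ) = 1 / 3 := by norm_num
    rw [e]
    have := mul_lt_mul_of_pos_left hd hp
    have e2 : Real.sqrt (1 / 3) * (Real.sqrt 3 * Real.pi / 2) = Real.pi / 2 := by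
      linear_combination (Real.pi / 2) * h3
    linarith
  have ev := (hc.eventually (gt_mem_nhds h0)).filter_mono (nhdsWithin_le_nhds (s := Ioi 0))
  have ev1 : ∀ᶠ c : ℝ in 𝓝[>] 0, c < 1 :=
    (gt_mem_nhds (show (0 : ℝ) < 1 by norm_num) : Iio (1 : ℝ) ∈ 𝓝 0).filter_mono
      nhdsWithin_le_nhds
  obtain ⟨c, h1, h2, h3⟩ := (ev.and (ev1.and self_mem_nhdsWithin)).exists
  exact ⟨c, h3, h2, h1⟩

theorem nagyW (hI : NagyIStmt) : NagyWStmt := by
  intro M d hd
  obtain ⟨c, hc, hc1, hq⟩ := choose_NagyW hd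
  have hc2 : 0 < 1 - c := by linarith
  set q : ℝ := (1 / 3 + 2 * c) / (1 - c) with hqd
  have hq0 : 0 < q := by positivity
  have hqe : (1 - c) * q = 1 / 3 + 2 * c := by
    rw [hqd]
    field_simp
  obtain ⟨C, hC, hN⟩ := hI q d hq0 hq
  refine ⟨c, C + 9 * C ^ 2 / (4 * c) * |M|, hc, by positivity, ?_⟩
  intro l w wy φ φ1 hl hw hM hloc hd1 he h1 hφ1 hφ0
  have hφP : IsPrim φ φ1 := IsPrim.of_hasDerivAt hd1 he.1
  have hφn : ∀ y, 0 ≤ φ y := by
    intro y
    have h := hφP.integral_Iic_of_tendsto (p := y) he.integrable.integrableOn hφ0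
    have h' : 0 ≤ ∫ x in Iic y, φ1 x := integral_nonneg fun x => h1 x
    linarith
  have bφ : Bdd φ := ⟨hφP.continuous, 1, fun y => by
    rw [abs_of_nonneg (hφn y)]; exact hφ1 y⟩
  have i2 : Integrable (fun y => w y ^ 2) := hw.integrable_pow 0
  have i4 : Integrable (fun y => w y ^ 4) := hw.integrable_pow 2
  have i6 : Integrable (fun y => w y ^ 6) := hw.integrable_pow 4
  have iy : Integrable (fun y => wy y ^ 2) := integrable_sq2 hw.2.1
  have iF : Integrable (fun y => wy y ^ 2 - q * w y ^ 6) := iy.sub (i6.const_mul q)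
  obtain ⟨G, hG, bG, G0⟩ := tail_NagyW iF
  obtain ⟨H, hH, bH, H0⟩ := tail_NagyW i4
  have key := half_NagyW hl hC hG hH (fun y => by positivity) G0 H0 (fun a b hab hb => by
    refine hN a b w wy hab hw.isPrim iy.intervalIntegrable (le_trans ?_ (hloc a))
    exact intervalIntegral.integral_mono_interval le_rfl hab hb
      (Eventually.of_forall fun y => by positivity) i2.intervalIntegrable)
  have eG := ibp_NagyW hd1 he bφ hφ0 iF hG bG G0
  have eH := ibp_NagyW hd1 he bφ hφ0 i4 hH bH H0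
  have jG : Integrable (fun y => φ1 y * G y) := integrable_mul_bdd he.integrable bG
  have jH : Integrable (fun y => φ1 y * H y) := integrable_mul_bdd he.integrable bH
  have j4 : Integrable (fun y => φ1 y * w y ^ 4) := integrable_bdd_mul i4 he.bdd
  have k2 : Integrable (fun y => φ y * w y ^ 2) := integrable_bdd_mul i2 bφ
  have k4 : Integrable (fun y => φ y * w y ^ 4) := integrable_bdd_mul i4 bφ
  have k6 : Integrable (fun y => φ y * w y ^ 6) := integrable_bdd_mul i6 bφ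
  have ky : Integrable (fun y => φ y * wy y ^ 2) := integrable_bdd_mul iy bφ
  have B1 : -(C * ∫ y, φ1 y * w y ^ 4) - 3 * C / l * ∫ y, φ1 y * H y ≤ ∫ y, φ1 y * G y := by
    have jA : Integrable (fun y => -(C * (φ1 y * w y ^ 4))) := (j4.const_mul C).neg
    have jB : Integrable (fun y => 3 * C / l * (φ1 y * H y)) := jH.const_mul _
    have m := integral_mono (jA.sub jB) jG (fun y => by
      have := mul_le_mul_of_nonneg_left (key y) (h1 y)
      simp only [Pi.sub_apply]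
      linarith)
    have e := integral_sub jA jB
    rw [integral_neg, integral_const_mul, integral_const_mul] at e
    have e' : ∫ y, ((fun y => -(C * (φ1 y * w y ^ 4))) - fun y => 3 * C / l * (φ1 y * H y)) y
        = ∫ y, (-(C * (φ1 y * w y ^ 4)) - 3 * C / l * (φ1 y * H y)) := rfl
    linarith
  have E1 : ∫ y, φ y * (wy y ^ 2 - q * w y ^ 6)
      = (∫ y, φ y * wy y ^ 2) - q * ∫ y, φ y * w y ^ 6 := by
    rw [← integral_const_mul, ← integral_sub ky (k6.const_mul q)]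
    congr 1
    funext y
    ring
  have E2 : ∫ y, φ y * (wy y ^ 2 + w y ^ 6) = (∫ y, φ y * wy y ^ 2) + ∫ y, φ y * w y ^ 6 := by
    rw [← integral_add ky k6]
    congr 1
    funext y
    ring
  have E3 : ∫ y, φ y * en (w y) (wy y)
      = (∫ y, φ y * wy y ^ 2) - 1 / 3 * ∫ y, φ y * w y ^ 6 := by
    rw [← integral_const_mul, ← integral_sub ky (k6.const_mul _)]
    congr 1
    funext y
    unfold en
    ring
  have B2 : 3 * C / l * ∫ y, φ y * w y ^ 4
      ≤ c * (∫ y, φ y * w y ^ 6) + 9 * C ^ 2 / (4 * c) / l ^ 2 * ∫ y, φ y * w y ^ 2 := by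
    rw [← integral_const_mul, ← integral_const_mul, ← integral_const_mul,
      ← integral_add (k6.const_mul _) (k2.const_mul _)]
    refine integral_mono (k4.const_mul _) ((k6.const_mul _).add (k2.const_mul _)) fun y => ?_
    have s : 0 ≤ φ y * (c * (w y * (w y ^ 2 - 3 * C / (2 * c * l))) ^ 2) :=
      mul_nonneg (hφn y) (by positivity)
    have e : φ y * (c * (w y * (w y ^ 2 - 3 * C / (2 * c * l))) ^ 2)
        = c * (φ y * w y ^ 6) + 9 * C ^ 2 / (4 * c) / l ^ 2 * (φ y * w y ^ 2)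
          - 3 * C / l * (φ y * w y ^ 4) := by
      field_simp
      ring
    simp only
    linarith
  have B3 : ∫ y, φ y * w y ^ 2 ≤ |M| := by
    refine le_trans (integral_mono k2 i2 fun y => ?_) (hM.trans (le_abs_self M))
    have := mul_le_mul_of_nonneg_right (hφ1 y) (sq_nonneg (w y))
    simp only
    linarith
  have P4 : 0 ≤ ∫ y, φ1 y * w y ^ 4 := integral_nonneg fun y => mul_nonneg (h1 y) (by positivity)
  have P5 : 0 ≤ ∫ y, φ y * w y ^ 4 := integral_nonneg fun y => mul_nonneg (hφn y) (by positivity)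
  rw [← eG, ← eH, E1] at B1
  rw [E2, E3]
  set X := ∫ y, φ y * wy y ^ 2
  set Y := ∫ y, φ y * w y ^ 6
  set Z := ∫ y, φ1 y * w y ^ 4
  set U := ∫ y, φ y * w y ^ 4
  set T := ∫ y, φ y * w y ^ 2
  have S1 := mul_le_mul_of_nonneg_left B1 hc2.le
  have S2 : 0 ≤ c * (C * Z) := by positivity
  have S3 : 0 ≤ c * (3 * C / l * U) := by positivity
  have S4 : 9 * C ^ 2 / (4 * c) / l ^ 2 * T ≤ 9 * C ^ 2 / (4 * c) / l ^ 2 * |M| :=
    mul_le_mul_of_nonneg_left B3 (by positivity)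
  have S5 : 0 ≤ 9 * C ^ 2 / (4 * c) * |M| * Z := by positivity
  have S6 : 0 ≤ C / l ^ 2 := by positivity
  have S7 : (1 - c) * (X - q * Y) = (1 - c) * X - (1 / 3 + 2 * c) * Y := by
    linear_combination (-Y) * hqe
  have S8 : (C + 9 * C ^ 2 / (4 * c) * |M|) / l ^ 2
      = C / l ^ 2 + 9 * C ^ 2 / (4 * c) / l ^ 2 * |M| := by ring
  rw [S8]
  linarith

end Pool.Agent.MP_8339a4_an

end

section

/-! The equation for the mean of `e` at the step. -/

open MeasureTheory Filter Topology Set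

namespace Pool.Agent.MP_8339a4_an

variable {r A K β γ k c C0 : ℝ} {e ey : ℝ → ℝ}

/-- The bounded factor in front of `φ' e_y`. -/
noncomputable def b_R1 (r A K γ : ℝ) (e : ℝ → ℝ) (y : ℝ) : ℝ :=
  (1 + γ) - (r / K) ^ 2 * (1 - 6 * P1 ((r * y - A) / K)) - 5 * (Q y + e y) ^ 4

/-- The terms carrying a factor `Q`. -/
noncomputable def t_R1 (r A K β γ : ℝ) (e : ℝ → ℝ) (y : ℝ) : ℝ :=
  (γ * Q1 y - β * LQ y - 5 * (((Q y + e y) ^ 4 - Q y ^ 4) * Q1 y)) * ph1 r A K y

theorem bdd_b_R1 (he : Bdd e) : Bdd (b_R1 r A K γ e) :=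
  ((Bdd.const (1 + γ)).sub (((Bdd.const 1).sub ((expD_P1.bdd.comp
    (g := fun y => (r * y - A) / K) (by fun_prop)).const_mul 6)).const_mul ((r / K) ^ 2))).sub
    (((expD_Q.bdd.add he).pow 4).const_mul 5)

theorem lin_R1 {f : ℝ → ℝ} (h : ExpD f) (k c : ℝ) : ExpD (fun y => f y * (k * y - c)) :=
  ((h.id_mul.const_mul k).sub (h.const_mul c)).congr fun y => by ring

theorem expD_g_R1 {f : ℝ → ℝ} (h : ExpD f) (he : Bdd e) :
    ExpD (fun y => f y * (b_R1 r A K γ e y - (k * y - c))) :=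
  ((h.mul_bdd (bdd_b_R1 (r := r) (A := A) (K := K) (γ := γ) he)).sub (lin_R1 h k c)).congr
    fun y => by ring

theorem ident_R1 (hr : 0 < r) (hK : 0 < K) (he : IsH1 e ey) :
    rhs0 β γ e (ph1 r A K) (ph2 r A K) (ph4 r A K)
      + (∫ y, e y * ((-β + k) * ph1 r A K y + ph2 r A K y * ((-β + k) * y - c)))
      + β * qa r A K e / 2
    = (∫ y, ph1 r A K y * (ey y * (b_R1 r A K γ e y - (k * y - c)))) + ∫ y, t_R1 r A K β γ e y := by
  have be := he.bdd
  have bQ := expD_Q.bdd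
  have e1 := expD_ph1 hr hK A
  have e2 := expD_ph2 hr hK A
  have e3 := expD_ph3 hr hK A
  have e4 := expD_ph4 hr hK A
  have bN : Bdd (fun y => NN y (e y)) :=
    (((bQ.add be).pow 5).sub (bQ.pow 5)).sub (((bQ.pow 4).const_mul 5).mul be)
  have i0 := ((((((((e4.sub e2).add (e2.bdd_mul expD_V.bdd)).bdd_mul be).add
    (e2.bdd_mul bN)).sub ((e1.bdd_mul expD_LQ.bdd).const_mul β)).add
    ((e1.bdd_mul expD_Q1.bdd).const_mul γ)).add
    ((((e1.div_const 2).add e2.id_mul).bdd_mul be).const_mul β)).sub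
    ((e2.bdd_mul be).const_mul γ)).integrable
  have i1 := (((e1.const_mul (-β + k)).add (lin_R1 e2 (-β + k) c)).bdd_mul be).integrable
  have i2 := ((e1.bdd_mul be).const_mul (β / 2)).integrable
  have i3 : Integrable fun y => ph1 r A K y * (ey y * (b_R1 r A K γ e y - (k * y - c))) :=
    (integrable_mul2 he.2.1 (expD_g_R1 (r := r) (A := A) (K := K) (γ := γ) (k := k) (c := c)
      e1 be).memLp).congr (Eventually.of_forall fun y => by ring)
  have i4 : Integrable (t_R1 r A K β γ e) :=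
    (e1.bdd_mul (((expD_Q1.bdd.const_mul γ).sub (expD_LQ.bdd.const_mul β)).sub
      (((((bQ.add be).pow 4).sub (bQ.pow 4)).mul expD_Q1.bdd).const_mul 5))).integrable
  have p1 := IsPrim.of_hasDerivAt (hasDerivAt_ph1 r A K) e2.1
  have p3 := IsPrim.of_hasDerivAt (hasDerivAt_ph3 r A K) e4.1
  have p0 : IsPrim (fun y => k * y - c) (fun _ => k) :=
    IsPrim.of_hasDerivAt (fun y => by
      simpa using ((hasDerivAt_id y).const_mul k).sub_const c) continuous_const
  have pG := (he.isPrim.mul ((p3.sub (p1.const_mul (1 + γ))).add (p1.mul p0))).add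
    ((((isH1_Q.isPrim.add he.isPrim).pow 4).sub (isH1_Q.isPrim.pow 4)).mul p1)
  have iG := ((((e3.sub (e1.const_mul (1 + γ))).add (lin_R1 e1 k c)).bdd_mul be).add
    (e1.bdd_mul (((bQ.add be).pow (4 + 1)).sub (bQ.pow (4 + 1))))).integrable
  have h := pG.integral_eq iG ((i0.add i1).add i2) (i3.add i4) fun y => by
    simp only [Pi.add_apply, b_R1, t_R1, NN, V, ph3, ph1, P3]
    push_cast
    ring
  rw [integral_add' (i0.add i1) i2, integral_add' i0 i1, integral_add' i3 i4,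
    integral_const_mul] at h
  rw [← h, rhs0, qa]
  ring

theorem abs_b_R1 (hr : 0 < r) (hK : 100 * r ≤ K) (hγ : |γ| ≤ 1) {y : ℝ} (he : |e y| ≤ 1) :
    |b_R1 r A K γ e y| ≤ 153 := by
  have h1 := ratio_le_EBa hr hK
  have h2 : 0 < r / K := div_pos hr (by linarith)
  have h3 := P1_pos ((r * y - A) / K)
  have h4 := P1_le_quarter ((r * y - A) / K)
  have h5 : (Q y + e y) ^ 4 ≤ (7 / 3) ^ 4 := by
    rw [← abs_of_nonneg (a := (Q y + e y) ^ 4) (by positivity), abs_pow]
    refine pow_le_pow_left₀ (abs_nonneg _) ((abs_add_le _ _).trans ?_) 4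
    rw [abs_of_pos (Q_pos y)]
    linarith [Q_le y]
  have h6 : 0 ≤ (Q y + e y) ^ 4 := by positivity
  have h7 : (r / K) ^ 2 ≤ 1 := by nlinarith
  have h8 : 0 ≤ (r / K) ^ 2 := sq_nonneg _
  rw [abs_le] at hγ ⊢
  unfold b_R1
  constructor <;> nlinarith [hγ.1, hγ.2]

theorem abs_t_R1 (hr : 0 < r) (hK : 100 * r ≤ K) (hβ : |β| ≤ 1) (hγ : |γ| ≤ 1) {y : ℝ}
    (he : |e y| ≤ 1) (p : ℝ) : |t_R1 r A K β γ e y| ≤ 304 * Real.exp (-(A / K)) *
      (Real.exp (|y| / 10) * (1 + y ^ 2) * Q y * (1 + p ^ 2)) := by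
  have hQ := Q_pos y
  have h0 := abs_nonneg y
  have h1 : |γ * Q1 y| ≤ 1 * Q y := by
    rw [abs_mul]
    exact mul_le_mul hγ (abs_Q1_le y) (abs_nonneg _) zero_le_one
  have h2 : |β * LQ y| ≤ 1 * ((1 + |y|) * Q y) := by
    rw [abs_mul]
    exact mul_le_mul hβ (abs_LQ_le y) (abs_nonneg _) zero_le_one
  have h3 : |((Q y + e y) ^ 4 - Q y ^ 4) * Q1 y| ≤ 30 * Q y := by
    rw [abs_mul]
    exact mul_le_mul ((abs_pow4_sub_le y he).trans (by linarith)) (abs_Q1_le y) (abs_nonneg _)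
      (by norm_num)
  have h4 : |y| ≤ 1 + y ^ 2 := by nlinarith [sq_abs y, sq_nonneg (|y| - 1)]
  have h5 : |γ * Q1 y - β * LQ y - 5 * (((Q y + e y) ^ 4 - Q y ^ 4) * Q1 y)|
      ≤ 304 * ((1 + y ^ 2) * Q y) := by
    have h6 := mul_le_mul_of_nonneg_right h4 hQ.le
    have h7 := mul_nonneg (sq_nonneg y) hQ.le
    rw [abs_le] at h1 h2 h3 ⊢
    constructor <;> nlinarith [h1.1, h1.2, h2.1, h2.2, h3.1, h3.2]
  have h6 : ph1 r A K y ≤ Real.exp (-(A / K)) * Real.exp (|y| / 10) :=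
    (ph1_le_tiny hr hK A y).trans (mul_le_mul_of_nonneg_left
      (Real.exp_le_exp.2 (by linarith)) (Real.exp_pos _).le)
  have h7 := ph1_pos hr (by linarith : 0 < K) A y
  unfold t_R1
  rw [abs_mul, abs_of_pos h7]
  refine (mul_le_mul h5 h6 h7.le (by positivity)).trans ?_
  have h8 : 0 ≤ 304 * Real.exp (-(A / K)) * (Real.exp (|y| / 10) * (1 + y ^ 2) * Q y) := by
    positivity
  nlinarith [mul_nonneg h8 (sq_nonneg p)]

theorem main_R1 (hr : 0 < r) (hK : 100 * r ≤ K) (hγ : |γ| ≤ 1) (he : IsH1 e ey)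
    (h1 : ∀ y, |e y| ≤ 1) (hd : ∫ y, ph1 r A K y * (k * y - c) ^ 2 ≤ C0) :
    |∫ y, ph1 r A K y * (ey y * (b_R1 r A K γ e y - (k * y - c)))|
      ≤ Real.sqrt (2 * 153 ^ 2 + 2 * C0) * Real.sqrt (qf r A K ey) := by
  have hK0 : 0 < K := by linarith
  have be := he.bdd
  have e1 := expD_ph1 hr hK0 A
  have e2 := expD_g_R1 (r := r) (A := A) (K := K) (γ := γ) (k := k) (c := c) e1 be
  have i2 : Integrable fun y => ph1 r A K y * (b_R1 r A K γ e y - (k * y - c)) ^ 2 :=
    ((expD_g_R1 (r := r) (A := A) (K := K) (γ := γ) (k := k) (c := c) e2 be).congr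
      fun y => by ring).integrable
  have i3 : Integrable fun y => ph1 r A K y * (k * y - c) ^ 2 :=
    ((lin_R1 (lin_R1 e1 k c) k c).congr fun y => by ring).integrable
  have h := csw (fun y => (ph1_pos hr hK0 A y).le)
    ((integrable_mul2 he.2.1 e2.memLp).congr (Eventually.of_forall fun y => by ring))
    (integrable_bdd_mul (integrable_sq2 he.2.1) e1.bdd) i2
  have h2 : ∫ y, ph1 r A K y * (b_R1 r A K γ e y - (k * y - c)) ^ 2 ≤ 2 * 153 ^ 2 + 2 * C0 := by
    have i4 := e1.integrable.const_mul (2 * 153 ^ 2)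
    have i5 := i3.const_mul 2
    refine (integral_mono i2 (i4.add i5) fun y => ?_).trans ?_
    · have h3 := abs_le.1 (abs_b_R1 (A := A) hr hK hγ (h1 y))
      have h4 : (b_R1 r A K γ e y - (k * y - c)) ^ 2 ≤ 2 * 153 ^ 2 + 2 * (k * y - c) ^ 2 := by
        nlinarith [sq_nonneg (b_R1 r A K γ e y + (k * y - c)), h3.1, h3.2]
      exact (mul_le_mul_of_nonneg_left h4 (ph1_pos hr hK0 A y).le).trans_eq
        (by simp only [Pi.add_apply]; ring)
    · rw [integral_add' i4 i5, integral_const_mul, integral_const_mul, integral_ph1 hr hK0]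
      linarith
  rw [mul_comm, ← Real.sqrt_mul (qf_nonneg hr hK0 A ey)]
  exact Real.abs_le_sqrt (h.trans (mul_le_mul_of_nonneg_left h2 (qf_nonneg hr hK0 A ey)))

theorem r1 : R1Stmt := by
  intro X
  obtain ⟨C, hC, hd⟩ := X.dr_sq
  refine ⟨Real.sqrt (2 * 153 ^ 2 + 2 * C) + 30 * 304, ?_⟩
  filter_upwards [X.ev_gt, X.ev_sup one_pos, X.ev_ey one_pos, X.ev_par one_pos, X.ev_log one_pos]
    with s hs h1 h2 h3 h4
  have hr := X.r_pos hs
  have hs1 := X.one_lt hs
  have hs0 : 0 < s := by linarith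
  have hT := test_ph1 hr X.K_pos (X.A s)
  have hD := mov_l2 (X.st.flow s hs).h1t.l2
    (me_ph1 (X.hasDerivAt_r hs) (X.hasDerivAt_A hs) hr X.K_pos) hT.e0.memLp
    ((X.st.flow s hs).d0 _ _ _ _ hT)
  refine ⟨_, hD, ?_⟩
  have e1 : ∀ y, X.r s * (-(X.β s) + X.κ / s) / X.r s * ph1 (X.r s) (X.A s) X.K y
      + ph2 (X.r s) (X.A s) X.K y * ((X.r s * (-(X.β s) + X.κ / s) * y - X.CA / s) / X.r s)
      = (-(X.β s) + X.κ / s) * ph1 (X.r s) (X.A s) X.K y + ph2 (X.r s) (X.A s) X.K y *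
        ((-(X.β s) + X.κ / s) * y - X.CA / (s * X.r s)) := fun y => by
    field_simp
  have e2 : ∀ y, X.dr s y = X.κ / s * y - X.CA / (s * X.r s) := fun y => by
    unfold Dat.dr
    ring
  have h5 : ∫ y, ph1 (X.r s) (X.A s) X.K y * (X.κ / s * y - X.CA / (s * X.r s)) ^ 2 ≤ C := by
    have h6 := hd s hs
    simp only [e2] at h6
    have h7 : 0 ≤ (1 + X.A s) / s := div_nonneg (by linarith [X.A_nonneg hs1.le]) hs0.le
    have h8 : ((1 + X.A s) / s) ^ 2 ≤ 1 := by nlinarith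
    nlinarith
  simp only [e1, one_mul]
  rw [Dat.a, ident_R1 hr X.K_pos (X.h1 hs)]
  have h6 := main_R1 hr (X.r_le_K hs) h3.2 (X.h1 hs) h1 h5
  have h7 := abs_integral_le_envp (X.h1 hs).2.1 h2 (by positivity) fun y =>
    abs_t_R1 (A := X.A s) hr (X.r_le_K hs) h3.1 h3.2 (h1 y) (X.ey s y)
  have h8 := X.exp_le_tau hs1.le
  have h9 := X.tau_pos hs0
  refine (abs_add_le _ _).trans ((add_le_add h6 h7).trans ?_)
  rw [Dat.f]
  have h10 := Real.sqrt_nonneg (2 * 153 ^ 2 + 2 * C)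
  have h11 := Real.sqrt_nonneg (qf (X.r s) (X.A s) X.K (X.ey s))
  generalize Real.sqrt (2 * 153 ^ 2 + 2 * C) = u at h10 ⊢
  generalize Real.sqrt (qf (X.r s) (X.A s) X.K (X.ey s)) = v at h11 ⊢
  nlinarith [mul_nonneg h10 h9.le]

end Pool.Agent.MP_8339a4_an

end

section

/-! Coercivity of the localised energy on the right of the step. -/

open MeasureTheory Filter Topology Set

namespace Pool.Agent.MP_8339a4_an

theorem int_en_R4 {e ey : ℝ → ℝ} (h : IsH1 e ey) : Integrable (fun y => en (e y) (ey y)) :=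
  (integrable_sq2 h.2.1).sub ((h.integrable_pow 4).div_const 3)

theorem diff_R4 {r K : ℝ} (hr : 0 < r) (hK : 100 * r ≤ K) (A : ℝ) {e ey : ℝ → ℝ} (h : IsH1 e ey)
    (he : ∀ y, |e y| ≤ 1) (h1 : ∫ y, ey y ^ 2 ≤ 1) :
    ∫ y, ph r A K y * en (e y) (ey y) ≤ qe r A K e ey + 1590 * Real.exp (-(A / K)) := by
  have i1 := integrable_bdd_mul (int_en_R4 h) (bdd_ph r A K)
  have i2 := integrable_mul_bdd (int_en_R4 (isH1_Q.add h)) (bdd_ph r A K)
  have key := abs_integral_le_envp (g := fun y => ph r A K y * en (e y) (ey y) -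
      en (Q y + e y) (Q1 y + ey y) * ph r A K y) (c := 53 * Real.exp (-(A / K))) h.2.1 h1
    (by positivity) (fun y => by
      have hQ := Q_pos y
      have a1 := abs_le.1 (abs_sqy_sub_le y (ey y))
      have a2 := abs_le.1 (abs_pow6_sub_le y (he y))
      have a3 : |en (e y) (ey y) - en (Q y + e y) (Q1 y + ey y)| ≤ 53 * (Q y * (1 + ey y ^ 2)) := by
        have : 0 ≤ Q y * ey y ^ 2 := by positivity
        rw [abs_le]
        unfold en
        constructor <;> nlinarith [a1.1, a1.2, a2.1, a2.2]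
      have a4 : ph r A K y ≤ Real.exp (-(A / K)) * (Real.exp (|y| / 10) * (1 + y ^ 2)) := by
        refine (ph_le_tiny hr hK A y).trans (mul_le_mul_of_nonneg_left ?_ (Real.exp_pos _).le)
        have b1 : Real.exp (|y| / 100) ≤ Real.exp (|y| / 10) :=
          Real.exp_le_exp.2 (by linarith [abs_nonneg y])
        exact b1.trans (le_mul_of_one_le_right (Real.exp_pos _).le (by nlinarith [sq_nonneg y]))
      rw [mul_comm (en _ _) (ph r A K y), ← mul_sub, abs_mul, abs_of_pos (ph_pos r A K y)]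
      calc _ ≤ Real.exp (-(A / K)) * (Real.exp (|y| / 10) * (1 + y ^ 2)) *
            (53 * (Q y * (1 + ey y ^ 2))) :=
            mul_le_mul a4 a3 (abs_nonneg _) (by positivity)
        _ = _ := by ring)
  rw [integral_sub i1 i2] at key
  have := (abs_le.1 key).2
  unfold qe
  linarith

theorem r4 (h : NagyWStmt) : R4Stmt := by
  intro X
  obtain ⟨c, C, hc, hC, h⟩ := h X.M X.d X.st.hd
  have hη := X.st.hη
  have hK := X.K_pos
  have hr0 := X.r0_pos
  obtain ⟨L, hL⟩ : ∃ L, L = 512 * C * (X.K / X.r0) ^ 2 := ⟨_, rfl⟩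
  have hL0 : 0 ≤ L := by rw [hL]; positivity
  obtain ⟨δ, hδ0, hδ1, hδ2⟩ : ∃ δ : ℝ, 0 < δ ∧ δ ≤ 1 ∧ L * δ ^ 2 ≤ c / 2 := by
    refine ⟨min 1 (c / (2 * (L + 1))), lt_min one_pos (by positivity), min_le_left _ _, ?_⟩
    have h0 : 0 < min 1 (c / (2 * (L + 1))) := lt_min one_pos (by positivity)
    have h1 := min_le_left 1 (c / (2 * (L + 1)))
    have h2 := (le_div_iff₀ (by positivity)).1 (min_le_right 1 (c / (2 * (L + 1))))
    generalize min 1 (c / (2 * (L + 1))) = d at h0 h1 h2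
    have h3 : L * d ^ 2 ≤ L * d := mul_le_mul_of_nonneg_left (by nlinarith) hL0
    nlinarith
  refine ⟨c / 2, 1590 + 8 * C + C / X.η ^ 2, by positivity, ?_⟩
  filter_upwards [X.ev_gt, X.ev_sup hδ0, X.ev_ey one_pos] with s hs he hy
  have hr := X.r_pos hs
  have hl := X.lam_pos hs
  have h1 := X.h1 hs
  have a1 := h (X.η / X.lam s) (X.e s) (X.ey s) (ph (X.r s) (X.A s) X.K)
    (ph1 (X.r s) (X.A s) X.K) (by positivity) h1 (X.st.mass s hs) (X.st.loc s hs)
    (hasDerivAt_ph _ _ _) (expD_ph1 hr hK _) (fun y => (ph1_pos hr hK _ y).le)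
    (fun y => (ph_lt_one _ _ _ y).le) (tendsto_ph_atBot hr hK _)
  have a2 : ∫ y, ph (X.r s) (X.A s) X.K y * (X.ey s y ^ 2 + X.e s y ^ 6) = X.Kf s + X.k6 s := by
    simp only [mul_add]
    exact integral_add (integrable_bdd_mul (integrable_sq2 h1.2.1) (bdd_ph _ _ _))
      (integrable_bdd_mul (h1.integrable_pow 4) (bdd_ph _ _ _))
  have a3 : _ ≤ X.E s + _ :=
    diff_R4 hr (X.r_le_K hs) (X.A s) h1 (fun y => (he y).trans hδ1) hy
  have a4 : _ ≤ 8 * X.a s ^ 4 + 512 * δ ^ 2 * (X.K / X.r s) ^ 2 * X.f s :=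
    poin_pow4 hr hK (X.A s) h1 he
  have a5 := X.exp_le_tau (X.one_lt hs).le
  have a6 : C / (X.η / X.lam s) ^ 2 = C / X.η ^ 2 * X.lam s ^ 2 := by field_simp
  have a7 : (X.K / X.r s) ^ 2 ≤ (X.K / X.r0) ^ 2 :=
    pow_le_pow_left₀ (by positivity) (div_le_div_of_nonneg_left hK.le hr0 (X.r_ge hs)) 2
  have f0 := X.f_nonneg hs
  have f1 := X.f_le_Kf hs
  have f2 := X.k6_nonneg s
  have f3 := (X.tau_pos (zero_lt_one.trans (X.one_lt hs))).le
  have a8 : C * (512 * δ ^ 2 * (X.K / X.r s) ^ 2 * X.f s) ≤ c / 2 * X.Kf s := by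
    calc _ = 512 * C * (X.K / X.r s) ^ 2 * δ ^ 2 * X.f s := by ring
      _ ≤ L * δ ^ 2 * X.f s := by rw [hL]; gcongr
      _ ≤ c / 2 * X.Kf s := mul_le_mul hδ2 f1 f0 (by positivity)
  have a9 := mul_le_mul_of_nonneg_left a4 hC
  rw [a2, a6] at a1
  have b1 : 0 ≤ C / X.η ^ 2 := by positivity
  generalize C / X.η ^ 2 = T at a1 b1 ⊢
  have b2 : 0 ≤ X.a s ^ 4 := by positivity
  have b3 : 0 ≤ X.lam s ^ 2 := by positivity
  nlinarith [mul_nonneg hC b3, mul_nonneg hC f3, mul_nonneg b1 b2, mul_nonneg b1 f3,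
    mul_nonneg hc.le f2]

end Pool.Agent.MP_8339a4_an

end
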