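import Pool.Agent.Mg.F8339a4.G100cd9

section

/-! The mass on the right of the step is almost decreasing. -/

open MeasureTheory Filter Topology Set

namespace Pool.Agent.MP_8339a4_an

theorem pt_R2 {y e p g p1 p3 dp τ env : ℝ} (he : |e| ≤ 1 / 10) (hg : |g| ≤ 1 / 10) (h1 : 0 ≤ p1)
    (h3 : |p3| ≤ 1 / 10 * p1) (hd : dp ≤ 1 / 10 * p1 + τ) (hq : Q y * p1 ≤ τ * env)
    (hτ : 0 ≤ τ) :
    fl1 (Q y + e) p p1 p3 - (1 + g) * ((Q y + e) ^ 2 * p1) + (Q y + e) ^ 2 * dp
      ≤ -(1 / 4) * (p1 * e ^ 2) + τ * (254 * env + 2 * Q y ^ 2 + 2 * e ^ 2) := by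
  have he1 : |e| ≤ 1 := he.trans (by norm_num)
  have a2 := (abs_le.1 (abs_sq_sub_le y he1)).1
  have a6 := (abs_le.1 (abs_pow6_sub_le y he1)).2
  have e2 : e ^ 2 ≤ 1 / 100 := by
    rw [← sq_abs]
    nlinarith [abs_nonneg e]
  have e6 : e ^ 6 ≤ 1 / 100 * e ^ 2 := by
    have : e ^ 6 = e ^ 2 * e ^ 2 * e ^ 2 := by ring
    rw [this]
    refine mul_le_mul_of_nonneg_right ?_ (sq_nonneg e)
    nlinarith [sq_nonneg e]
  have hQ := (Q_pos y).le
  have u2 : (Q y + e) ^ 2 ≤ 2 * Q y ^ 2 + 2 * e ^ 2 := by nlinarith [sq_nonneg (Q y - e)]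
  have hU := sq_nonneg (Q y + e)
  unfold fl1
  generalize (Q y + e) ^ 2 = U2 at *
  generalize (Q y + e) ^ 6 = U6 at *
  have b1 := mul_nonneg (sq_nonneg p) h1
  have b2 := mul_le_mul_of_nonneg_left (abs_le.1 h3).2 hU
  have b3 := mul_le_mul_of_nonneg_right (a6.trans_eq rfl) h1
  have b4 := mul_le_mul_of_nonneg_right e6 h1
  have b5 := mul_le_mul_of_nonneg_right (abs_le.1 hg).1 (mul_nonneg hU h1)
  have b6 := mul_le_mul_of_nonneg_left hd hU
  have b7 := mul_le_mul_of_nonneg_right a2 h1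
  have b8 := mul_le_mul_of_nonneg_left u2 hτ
  have b9 := mul_nonneg h1 (sq_nonneg e)
  have b10 := mul_nonneg hQ h1
  nlinarith

theorem r2 : R2Stmt := by
  intro X
  refine ⟨254 * 20 + 2 * (∫ y, Q y ^ 2) + 2 * X.M, ?_⟩
  have h10 : (0 : ℝ) < 1 / 10 := by norm_num
  filter_upwards [X.ev_gt, X.ev_sup h10, X.ev_par h10, X.ev_tail h10] with s hs he hp ht
  have hr := X.r_pos hs
  have hK := X.K_pos
  have hs1 := X.one_lt hs
  have hτ := (X.tau_pos (by linarith : 0 < s)).le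
  have hW := wt_ph hr hK (X.A s)
  have hm := mw_ph (X.hasDerivAt_r hs) (X.hasDerivAt_A hs) hr hK
  have hU := X.h1U hs
  refine ⟨integral_nonneg fun y => mul_nonneg (sq_nonneg _) (ph_pos _ _ _ _).le, _,
    mov_l1 ((X.h1tU hs).pow 0) hm ((X.st.flow s hs).d1 _ _ _ _ hW), ?_⟩
  have i2 := integrable_sq2 hU.1
  have j1 : Integrable fun y => fl1 (Q y + X.e s y) (Q1 y + X.ey s y) (ph1 (X.r s) (X.A s) X.K y)
      (ph3 (X.r s) (X.A s) X.K y) := ((X.h1tU hs).fl1 hW.b1 hW.b3).2.1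
  have j2 := (j1.sub ((integrable_mul_bdd i2 hW.b1).const_mul (1 + X.γ s))).add
    ((integrable_mul_bdd i2 hW.by1).const_mul (X.β s))
  have j3 := integrable_mul_bdd i2 hm.bdd_wt
  have ie := integrable_sq2 (X.h1 hs).1
  have k1 := (integrable_bdd_mul ie hW.b1).const_mul (-(1 / 4))
  have k2 := expD_env.integrable.const_mul 254
  have k3 := (integrable_sq2 expD_Q.memLp).const_mul 2
  have k4 := ie.const_mul 2
  have hrK : X.r s / X.K ≤ 1 / 100 := by
    rw [div_le_iff₀ hK]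
    linarith [X.r_le_K hs]
  have hrK0 : 0 ≤ X.r s / X.K := (div_pos hr hK).le
  have key := integral_mono (j2.add j3) (k1.add (((k2.add k3).add k4).const_mul (X.tau s)))
    (fun y => by
      have p1 := (ph1_pos hr hK (X.A s) y).le
      have h3 : |ph3 (X.r s) (X.A s) X.K y| ≤ 1 / 10 * ph1 (X.r s) (X.A s) X.K y :=
        (abs_ph3_le hr hK _ y).trans (mul_le_mul_of_nonneg_right (by nlinarith) p1)
      have hq : Q y * ph1 (X.r s) (X.A s) X.K y
          ≤ X.tau s * (Real.exp (|y| / 10) * (1 + y ^ 2) * Q y) := by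
        have c1 := ph1_le_tiny hr (X.r_le_K hs) (X.A s) y
        have c2 : Real.exp (|y| / 100) ≤ Real.exp (|y| / 10) * (1 + y ^ 2) :=
          (Real.exp_le_exp.2 (by linarith [abs_nonneg y])).trans
            (le_mul_of_one_le_right (Real.exp_pos _).le (by nlinarith [sq_nonneg y]))
        have c3 := mul_le_mul (X.exp_le_tau hs1.le) c2 (Real.exp_pos _).le hτ
        have c4 := mul_le_mul_of_nonneg_left (c1.trans c3) (Q_pos y).le
        linarith
      have h := pt_R2 (p := Q1 y + X.ey s y) (he y) hp.2 p1 h3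
        ((mul_le_mul_of_nonneg_right (le_abs_self (X.dr s y)) p1).trans (ht y)) hq hτ
      have e1 : (X.r s * (-X.β s + X.κ / s) * y - X.CA / s) / X.r s = -X.β s * y + X.dr s y := by
        unfold Dat.dr
        field_simp
        ring
      simp only [Pi.add_apply, Pi.sub_apply, e1]
      linarith)
  rw [integral_add' j2 j3, integral_add' k1 (((k2.add k3).add k4).const_mul _), integral_const_mul,
    integral_const_mul, integral_add' (k2.add k3) k4, integral_add' k2 k3, integral_const_mul,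
    integral_const_mul, integral_const_mul] at key
  have l1 := qa_sq_le hr hK (X.A s) (X.h1 hs)
  have l2 : 254 * (∫ y, Real.exp (|y| / 10) * (1 + y ^ 2) * Q y) + 2 * (∫ y, Q y ^ 2)
      + 2 * ∫ y, X.e s y ^ 2 ≤ 254 * 20 + 2 * (∫ y, Q y ^ 2) + 2 * X.M := by
    linarith [integral_env_le, X.st.mass s hs]
  have l3 := mul_le_mul_of_nonneg_left l2 hτ
  rw [one_mul]
  refine le_trans key ?_
  unfold Dat.a
  linarith

end Pool.Agent.MP_8339a4_an

end

section

/-! Coercivity and upper bound for the functional `F`. -/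

open MeasureTheory Filter Topology Set

namespace Pool.Agent.MP_8339a4_an

/-- The step times the soliton is tiny. -/
theorem phQ_E4 {r A K B : ℝ} (h : WP r A K B) (y : ℝ) : ph r A K y * Q y
    ≤ Real.exp (-(A / K)) * (Real.exp (|y| / 10) * (1 + y ^ 2) * Q y) := by
  have h1 := ph_le_tiny h.hr h.hK A y
  have h2 : Real.exp (|y| / 100) ≤ Real.exp (|y| / 10) * (1 + y ^ 2) := by
    have h3 : Real.exp (|y| / 100) ≤ Real.exp (|y| / 10) :=
      Real.exp_le_exp.2 (by linarith [abs_nonneg y])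
    nlinarith [Real.exp_pos (|y| / 10), sq_nonneg y]
  have h4 := h1.trans (mul_le_mul_of_nonneg_left h2 (Real.exp_pos _).le)
  have h5 := mul_le_mul_of_nonneg_right h4 (Q_pos y).le
  linarith

/-- Pointwise comparison of the density of `F` with the quadratic form. -/
theorem point_E4 {r A K B δ : ℝ} (h : WP r A K B) (h1 : δ ≤ 1) (y p : ℝ) {e : ℝ} (he : |e| ≤ δ) :
    |(p ^ 2 + e ^ 2 - PP y e) * WW r A B y - (Q y + e) ^ 2 * (WW r A B y * ph r A K y)
        - pM r A K B y * (p ^ 2 + e ^ 2 - V y * e ^ 2) - WW r A B y * ph r A K y * p ^ 2|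
      ≤ 30 * δ * (pM r A K B y * (e ^ 2 + p ^ 2))
        + 44 * (Real.exp (A / B) * Real.exp (-(A / K)))
          * (Real.exp (|y| / 10) * (1 + y ^ 2) * Q y)
        + Real.exp (A / B) * (ph r A K y * e ^ 6) := by
  have he1 : |e| ≤ 1 := he.trans h1
  have hM := pM_pos r A K B y
  have hφ := ph_pos r A K y
  have hW := WW_pos r A B y
  have hQ := Q_pos y
  have hΛ := Real.exp_pos (A / B)
  have ho : WW r A B y * ph r A K y ≤ Real.exp (A / B) * ph r A K y :=
    mul_le_mul_of_nonneg_right (WW_le r A B y) hφ.le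
  have ho0 : 0 < WW r A B y * ph r A K y := mul_pos hW hφ
  have e2 : e ^ 2 ≤ 1 := by nlinarith [sq_abs e, abs_nonneg e]
  have e6 : 0 ≤ e ^ 6 := by positivity
  have a1 : |pM r A K B y * (PP y e - V y * e ^ 2)|
      ≤ 30 * δ * (pM r A K B y * (e ^ 2 + p ^ 2)) := by
    rw [abs_mul, abs_of_pos hM]
    have b1 : |PP y e - V y * e ^ 2| ≤ 30 * δ * (e ^ 2 + p ^ 2) := by
      refine (abs_PP_sub_le y he1).trans ?_
      have b2 : 0 ≤ δ := (abs_nonneg e).trans he
      nlinarith [sq_nonneg e, sq_nonneg p, mul_nonneg b2 (sq_nonneg p),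
        mul_le_mul_of_nonneg_right he (sq_nonneg e)]
    have b3 := mul_le_mul_of_nonneg_left b1 hM.le
    linarith
  have a2 : |WW r A B y * ph r A K y * (PP y e + ((Q y + e) ^ 2 - e ^ 2))|
      ≤ Real.exp (A / B) * ph r A K y * (44 * Q y + e ^ 6) := by
    rw [abs_mul, abs_of_pos ho0]
    refine mul_le_mul ho ((abs_add_le _ _).trans ?_) (abs_nonneg _) (by positivity)
    have b1 := abs_PP_le y he1
    have b2 := abs_sq_sub_le y he1
    nlinarith
  have a3 := mul_le_mul_of_nonneg_left (phQ_E4 h y) hΛ.le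
  have e0 : (p ^ 2 + e ^ 2 - PP y e) * WW r A B y - (Q y + e) ^ 2 * (WW r A B y * ph r A K y)
        - pM r A K B y * (p ^ 2 + e ^ 2 - V y * e ^ 2) - WW r A B y * ph r A K y * p ^ 2
      = -(pM r A K B y * (PP y e - V y * e ^ 2))
        - WW r A B y * ph r A K y * (PP y e + ((Q y + e) ^ 2 - e ^ 2)) := by
    unfold pM
    ring
  rw [e0]
  refine (abs_sub _ _).trans ?_
  rw [abs_neg]
  linarith

theorem static_E4 {r A K B δ : ℝ} (h : WP r A K B) (h1 : δ ≤ 1) {e ey : ℝ → ℝ} (he : IsH1 e ey)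
    (hb : ∀ y, |e y| ≤ δ) :
    (∫ y, pM r A K B y * (ey y ^ 2 + e y ^ 2 - V y * e y ^ 2)) - 30 * δ * qD r A K B e ey
        - Real.exp (A / B) * (880 * Real.exp (-(A / K)) + q6 r A K e) ≤ qF r A K B e ey ∧
      qF r A K B e ey ≤ (1 + 30 * δ) * qD r A K B e ey
        + Real.exp (A / B) * (qK r A K ey + 880 * Real.exp (-(A / K)) + q6 r A K e) := by
  have hU := isH1_Q.add he
  have bo : Bdd (fun y => WW r A B y * ph r A K y) := (bdd_WW r A B).mul (bdd_ph r A K)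
  have s1 := integrable_sq2 he.1
  have s2 := integrable_sq2 he.2.1
  have iP : Integrable (fun y => PP y (e y)) := by
    have j1 := hU.integrable_pow 4
    have j2 := isH1_Q.integrable_pow 4
    have j3 := integrable_mul_bdd ((expD_Q.pow 4).const_mul 6).integrable he.bdd
    exact ((j1.sub j2).sub j3).div_const 3
  have i1 : Integrable (fun y => (ey y ^ 2 + e y ^ 2 - PP y (e y)) * WW r A B y) :=
    integrable_mul_bdd ((s2.add s1).sub iP) (bdd_WW r A B)
  have i2 : Integrable (fun y => (Q y + e y) ^ 2 * (WW r A B y * ph r A K y)) :=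
    integrable_mul_bdd (integrable_sq2 hU.1) bo
  have i3 : Integrable (fun y => pM r A K B y * (ey y ^ 2 + e y ^ 2 - V y * e y ^ 2)) :=
    integrable_bdd_mul ((s2.add s1).sub (integrable_bdd_mul s1 expD_V.bdd)) (bdd_pM r A K B)
  have i4 : Integrable (fun y => WW r A B y * ph r A K y * ey y ^ 2) := integrable_bdd_mul s2 bo
  have i5 : Integrable (fun y => pM r A K B y * (e y ^ 2 + ey y ^ 2)) :=
    integrable_bdd_mul (s1.add s2) (bdd_pM r A K B)
  have i6 := expD_env.integrable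
  have i7 : Integrable (fun y => ph r A K y * e y ^ 6) :=
    integrable_bdd_mul (he.integrable_pow 4) (bdd_ph r A K)
  have i8 : Integrable (fun y => ph r A K y * ey y ^ 2) := integrable_bdd_mul s2 (bdd_ph r A K)
  have hΛ := Real.exp_pos (A / B)
  have hτ := Real.exp_pos (-(A / K))
  have i12 : Integrable (fun y => (ey y ^ 2 + e y ^ 2 - PP y (e y)) * WW r A B y
      - (Q y + e y) ^ 2 * (WW r A B y * ph r A K y)) := i1.sub i2
  have i123 : Integrable (fun y => (ey y ^ 2 + e y ^ 2 - PP y (e y)) * WW r A B y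
      - (Q y + e y) ^ 2 * (WW r A B y * ph r A K y)
      - pM r A K B y * (ey y ^ 2 + e y ^ 2 - V y * e y ^ 2)) := i12.sub i3
  have i56 : Integrable (fun y => 30 * δ * (pM r A K B y * (e y ^ 2 + ey y ^ 2))
      + 44 * (Real.exp (A / B) * Real.exp (-(A / K)))
        * (Real.exp (|y| / 10) * (1 + y ^ 2) * Q y)) := (i5.const_mul _).add (i6.const_mul _)
  have k1 : |qF r A K B e ey - (∫ y, pM r A K B y * (ey y ^ 2 + e y ^ 2 - V y * e y ^ 2))
        - ∫ y, WW r A B y * ph r A K y * ey y ^ 2|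
      ≤ 30 * δ * qD r A K B e ey + 44 * (Real.exp (A / B) * Real.exp (-(A / K)))
          * (∫ y, Real.exp (|y| / 10) * (1 + y ^ 2) * Q y) + Real.exp (A / B) * q6 r A K e := by
    unfold qF qH qD q6
    rw [← integral_sub i1 i2, ← integral_sub i12 i3, ← integral_sub i123 i4,
      ← integral_const_mul, ← integral_const_mul, ← integral_const_mul,
      ← integral_add (i5.const_mul _) (i6.const_mul _), ← integral_add i56 (i7.const_mul _)]
    refine abs_integral_le_integral_abs.trans ?_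
    exact integral_mono (i123.sub i4).abs (i56.add (i7.const_mul _))
      fun y => point_E4 h h1 y (ey y) (hb y)
  have k2 : 0 ≤ ∫ y, WW r A B y * ph r A K y * ey y ^ 2 :=
    integral_nonneg fun y =>
      mul_nonneg (mul_pos (WW_pos r A B y) (ph_pos r A K y)).le (sq_nonneg _)
  have k3 : ∫ y, WW r A B y * ph r A K y * ey y ^ 2 ≤ Real.exp (A / B) * qK r A K ey := by
    unfold qK
    rw [← integral_const_mul]
    refine integral_mono i4 (i8.const_mul _) fun y => ?_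
    have b1 := mul_le_mul_of_nonneg_right (WW_le r A B y)
      (mul_nonneg (ph_pos r A K y).le (sq_nonneg (ey y)))
    change WW r A B y * ph r A K y * ey y ^ 2 ≤ Real.exp (A / B) * (ph r A K y * ey y ^ 2)
    linarith
  have k4 : ∫ y, pM r A K B y * (ey y ^ 2 + e y ^ 2 - V y * e y ^ 2) ≤ qD r A K B e ey := by
    refine integral_mono i3 i5 fun y => ?_
    refine mul_le_mul_of_nonneg_left ?_ (pM_pos r A K B y).le
    linarith [mul_nonneg (V_nonneg y) (sq_nonneg (e y))]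
  have k5 := mul_le_mul_of_nonneg_left integral_env_le (mul_pos hΛ hτ).le
  rw [abs_le] at k1
  constructor <;> linarith [k1.1, k1.2]

theorem e4 (h : C1wStmt) : E4Stmt := by
  obtain ⟨c, C, ε0, hc, hC, hε, H⟩ := h
  refine ⟨c / 2, ε0, by positivity, hε, fun X hX B hB => ⟨900, ?_⟩⟩
  have hB0 : 0 < B := by linarith [X.CA_pos]
  have hδ : 0 < min 1 (c / 60) := lt_min one_pos (by positivity)
  filter_upwards [X.ev_gt, X.ev_sup hδ, X.ev_exp_neg hB0 (half_pos hε)] with s hs hb hx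
  have w := X.wp hs hB
  have hs1 := (X.one_lt hs).le
  obtain ⟨k1, k2⟩ := static_E4 w (min_le_left _ _) (X.h1 hs) hb
  have hr : X.r s / X.K ≤ ε0 := by
    rw [div_le_iff₀ X.K_pos]
    exact (X.r_le hs).trans hX
  have k3 := H (pM (X.r s) (X.A s) X.K B) (pM1 (X.r s) (X.A s) X.K B) (hasDerivAt_pM _ _ _ _)
    (continuous_pM1 _ _ _ _) (bdd_pM _ _ _ _) (pM_pos _ _ _ _)
    (fun y => (w.abs_pM1_le y).trans (mul_le_mul_of_nonneg_right hr (pM_pos _ _ _ _ y).le))
    (w.abs_pM_zero.trans (by linarith)) (X.e s) (X.ey s) (X.h1 hs)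
  obtain ⟨o1, o2⟩ := (X.st.flow s hs).orth.self_of_nhds
  rw [o1, o2] at k3
  have k4 : c * X.D B s ≤ ∫ y, pM (X.r s) (X.A s) X.K B y *
      (X.ey s y ^ 2 + X.e s y ^ 2 - V y * X.e s y ^ 2) := by
    simpa [Dat.D, qD] using k3
  have hD := X.D_nonneg B s
  have hK := X.Kf_nonneg s
  have h6 := X.k6_nonneg s
  have hτ := X.exp_le_tau hs1
  have hτ0 := Real.exp_pos (-(X.A s / X.K))
  have hL := X.exp_le_Lm hB hs1
  have hL0 := Real.exp_pos (X.A s / B)
  have ha := sq_nonneg (X.a s)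
  have z1 : X.Kf s + 880 * Real.exp (-(X.A s / X.K)) + X.k6 s ≤ 900 * X.Z s := by
    unfold Dat.Z
    linarith
  have z2 : Real.exp (X.A s / B) * (X.Kf s + 880 * Real.exp (-(X.A s / X.K)) + X.k6 s)
      ≤ Lm s * (900 * X.Z s) :=
    mul_le_mul hL z1 (by positivity) (hL0.le.trans hL)
  have z3 := mul_nonneg hL0.le hK
  have d1 := mul_le_mul_of_nonneg_right (min_le_left 1 (c / 60)) hD
  have d2 := mul_le_mul_of_nonneg_right (min_le_right 1 (c / 60)) hD
  change _ - 30 * min 1 (c / 60) * X.D B s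
    - Real.exp (X.A s / B) * (880 * Real.exp (-(X.A s / X.K)) + X.k6 s) ≤ X.F B s at k1
  change X.F B s ≤ (1 + 30 * min 1 (c / 60)) * X.D B s
    + Real.exp (X.A s / B) * (X.Kf s + 880 * Real.exp (-(X.A s / X.K)) + X.k6 s) at k2
  constructor <;> linarith

end Pool.Agent.MP_8339a4_an

end

section

/-! The derivative of the left functional. -/

open MeasureTheory Filter Topology Set

namespace Pool.Agent.MP_8339a4_an

theorem am_JLJ (a b : ℝ) : |a| * |b| * 2 ≤ a ^ 2 + b ^ 2 := by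
  nlinarith [sq_nonneg (|a| - |b|), sq_abs a, sq_abs b]

theorem pt_JLJ {e L yL q v N c c1 w x τ β γ m g env : ℝ} (he : |e| ≤ 1) (hL : |L| ≤ 2 * w)
    (hyL : |yL| ≤ 2 * w) (hq : |q| ≤ w) (hv0 : 0 ≤ v) (hv : v ≤ 12 * w) (hN : |N| ≤ 50 * e ^ 2)
    (h0 : 0 ≤ c1) (h1 : c1 ≤ τ * x) (h2 : 0 ≤ c) (h3 : c ≤ τ * x) (h4 : x * w ≤ env)
    (h5 : w ≤ env) (hτ : 0 ≤ τ) (hβ : |β| ≤ 1) (hγ : |γ| ≤ 1) :
    |-(m * (e * v * c1)) + N * (L - m * c1) - β * m * L * c + γ * m * q * c + β * e * yL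
        - γ * e * L + γ * m * e * c1 - m * e * c1 * g|
      ≤ (15 * |m| * τ + β ^ 2 + γ ^ 2) * env + 102 * (w * e ^ 2) + 52 * |m| * (c1 * e ^ 2)
        + |m| * (c1 * (γ ^ 2 + g ^ 2)) := by
  have hw : 0 ≤ w := (abs_nonneg _).trans hq
  have hm := abs_nonneg m
  have hmt : 0 ≤ |m| * τ := mul_nonneg hm hτ
  have k : |m| * τ * (x * w) ≤ |m| * τ * env := mul_le_mul_of_nonneg_left h4 hmt
  have t1 : |m * (e * v * c1)| ≤ |m| * (1 * (12 * w) * (τ * x)) := by
    rw [abs_mul, abs_mul, abs_mul, abs_of_nonneg hv0, abs_of_nonneg h0]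
    gcongr
  have t2 : |N * (L - m * c1)| ≤ 50 * e ^ 2 * (2 * w + |m| * c1) := by
    rw [abs_mul]
    have : |L - m * c1| ≤ 2 * w + |m| * c1 := by
      refine (abs_sub _ _).trans ?_
      rw [abs_mul, abs_of_nonneg h0]
      linarith
    gcongr
  have t3 : |β * m * L * c| ≤ 1 * |m| * (2 * w) * (τ * x) := by
    rw [abs_mul, abs_mul, abs_mul, abs_of_nonneg h2]
    gcongr
  have t4 : |γ * m * q * c| ≤ 1 * |m| * w * (τ * x) := by
    rw [abs_mul, abs_mul, abs_mul, abs_of_nonneg h2]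
    gcongr
  have t5 : |β * e * yL| ≤ β ^ 2 * env + w * e ^ 2 := by
    rw [abs_mul, abs_mul]
    have a1 : |β| * |e| * |yL| ≤ |β| * |e| * (2 * w) := by gcongr
    have a2 := mul_le_mul_of_nonneg_right (am_JLJ β e) hw
    have a3 := mul_le_mul_of_nonneg_left h5 (sq_nonneg β)
    linarith
  have t6 : |γ * e * L| ≤ γ ^ 2 * env + w * e ^ 2 := by
    rw [abs_mul, abs_mul]
    have a1 : |γ| * |e| * |L| ≤ |γ| * |e| * (2 * w) := by gcongr
    have a2 := mul_le_mul_of_nonneg_right (am_JLJ γ e) hw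
    have a3 := mul_le_mul_of_nonneg_left h5 (sq_nonneg γ)
    linarith
  have hmc : 0 ≤ |m| * c1 := mul_nonneg hm h0
  have t7 : |γ * m * e * c1| ≤ |m| * c1 * (γ ^ 2 + e ^ 2) := by
    rw [abs_mul, abs_mul, abs_mul, abs_of_nonneg h0]
    have a2 := mul_le_mul_of_nonneg_left (am_JLJ γ e) hmc
    have a3 : 0 ≤ |m| * c1 * (|γ| * |e|) := by positivity
    linarith
  have t8 : |m * e * c1 * g| ≤ |m| * c1 * (e ^ 2 + g ^ 2) := by
    rw [abs_mul, abs_mul, abs_mul, abs_of_nonneg h0]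
    have a2 := mul_le_mul_of_nonneg_left (am_JLJ e g) hmc
    have a3 : 0 ≤ |m| * c1 * (|e| * |g|) := by positivity
    linarith
  rw [abs_le] at t1 t2 t3 t4 t5 t6 t7 t8 ⊢
  constructor <;> linarith [t1.1, t1.2, t2.1, t2.2, t3.1, t3.2, t4.1, t4.2, t5.1, t5.2, t6.1, t6.2,
    t7.1, t7.2, t8.1, t8.2]

theorem iadd_JLJ {f g : ℝ → ℝ} (h : Integrable f) (H : Integrable g) :
    Integrable (fun y => f y + g y) := h.add H

/-- The remainder density. -/
noncomputable def R_JLJ (r A K β γ a b : ℝ) (e : ℝ → ℝ) (y : ℝ) : ℝ :=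
  -(mm * (e y * V y * ph1 r (-A) K y)) + NN y (e y) * (LQ y - mm * ph1 r (-A) K y)
    - β * mm * LQ y * (1 - ph r (-A) K y) + γ * mm * Q1 y * (1 - ph r (-A) K y)
    + β * e y * (y * LQ y) - γ * e y * LQ y + γ * mm * e y * ph1 r (-A) K y
    - mm * e y * ph1 r (-A) K y * (a * y + b)

variable {r A K B β γ : ℝ} {e ey : ℝ → ℝ}

theorem R_le_JLJ (h : WP r A K B) (h1 : ∀ y, |e y| ≤ 1) (hβ : |β| ≤ 1) (hγ : |γ| ≤ 1)
    (a b y : ℝ) : |R_JLJ r A K β γ a b e y|
      ≤ (15 * |mm| * Real.exp (-(A / K)) + β ^ 2 + γ ^ 2) *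
          (Real.exp (|y| / 10) * (1 + y ^ 2) * Q y)
        + (4080 + 208 * |mm| * Real.exp (A / B)) * (pM r A K B y * (e y ^ 2 + ey y ^ 2))
        + |mm| * (γ ^ 2 + 2 * b ^ 2) * ph1 r (-A) K y
        + 2 * |mm| * a ^ 2 * (ph1 r (-A) K y * y ^ 2) := by
  have hQ := (Q_pos y).le
  have hy := abs_nonneg y
  have hy2 := sq_abs y
  have hw : 0 ≤ (1 + y ^ 2) * Q y := by positivity
  have w1 : Q y ≤ (1 + y ^ 2) * Q y := le_mul_of_one_le_left hQ (by nlinarith)
  have hL : |LQ y| ≤ 2 * ((1 + y ^ 2) * Q y) := by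
    refine (abs_LQ_le y).trans ?_
    rw [← mul_assoc]
    exact mul_le_mul_of_nonneg_right (by nlinarith [sq_nonneg (|y| - 1)]) hQ
  have hyL : |y * LQ y| ≤ 2 * ((1 + y ^ 2) * Q y) := by
    rw [abs_mul]
    refine (mul_le_mul_of_nonneg_left (abs_LQ_le y) hy).trans ?_
    rw [← mul_assoc, ← mul_assoc]
    exact mul_le_mul_of_nonneg_right (by nlinarith [sq_nonneg (|y| - 1)]) hQ
  have hv : V y ≤ 12 * ((1 + y ^ 2) * Q y) := by
    have a1 : Q y ^ 3 ≤ (4 / 3) ^ 3 := pow_le_pow_left₀ hQ (Q_le y) 3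
    have a2 := mul_le_mul_of_nonneg_right a1 hQ
    have a3 : V y = 5 * (Q y ^ 3 * Q y) := by
      rw [V]
      ring
    linarith
  have h4 : Real.exp (|y| / 100) * ((1 + y ^ 2) * Q y)
      ≤ Real.exp (|y| / 10) * (1 + y ^ 2) * Q y := by
    rw [mul_assoc]
    exact mul_le_mul_of_nonneg_right (Real.exp_le_exp.2 (by linarith)) hw
  have h5 : (1 + y ^ 2) * Q y ≤ Real.exp (|y| / 10) * (1 + y ^ 2) * Q y := by
    rw [mul_assoc]
    exact le_mul_of_one_le_left hw (Real.one_le_exp (by positivity))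
  have c0 := (ph1_pos h.hr h.K_pos (-A) y).le
  refine (pt_JLJ (m := mm) (g := a * y + b) (h1 y) hL hyL ((abs_Q1_le y).trans w1) (V_nonneg y) hv
    (abs_NN_le y (h1 y)) c0 (chi1_le_tiny h.hr h.hK A y) (sub_nonneg.2 (ph_lt_one r (-A) K y).le)
    (one_sub_chi_le_tiny h.hr h.hK A y) h4 h5 (Real.exp_pos _).le hβ hγ).trans ?_
  have hp := (pM_pos r A K B y).le
  have hm := abs_nonneg mm
  have s1 : e y ^ 2 ≤ e y ^ 2 + ey y ^ 2 := le_add_of_nonneg_right (sq_nonneg _)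
  have a1 : (1 + y ^ 2) * Q y * e y ^ 2 ≤ 40 * pM r A K B y * (e y ^ 2 + ey y ^ 2) :=
    mul_le_mul (h.Q_le_pM y) s1 (sq_nonneg _) (by positivity)
  have a2 : ph1 r (-A) K y * e y ^ 2
      ≤ 4 * Real.exp (A / B) * pM r A K B y * (e y ^ 2 + ey y ^ 2) :=
    mul_le_mul (h.chi1_le_pM y) s1 (sq_nonneg _) (by positivity)
  have a3 := mul_le_mul_of_nonneg_left a2 hm
  have a4 : (a * y + b) ^ 2 ≤ 2 * (a * y) ^ 2 + 2 * b ^ 2 := by nlinarith [sq_nonneg (a * y - b)]
  have a5 := mul_le_mul_of_nonneg_left a4 (mul_nonneg hm c0)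
  linarith

theorem R_int_JLJ (h : WP r A K B) (he : IsH1 e ey) (h1 : ∀ y, |e y| ≤ 1) (hβ : |β| ≤ 1)
    (hγ : |γ| ≤ 1) (a b : ℝ) : Integrable (R_JLJ r A K β γ a b e) ∧
      |∫ y, R_JLJ r A K β γ a b e y|
        ≤ (15 * |mm| * Real.exp (-(A / K)) + β ^ 2 + γ ^ 2) * 20
          + (4080 + 208 * |mm| * Real.exp (A / B)) * qD r A K B e ey
          + |mm| * (γ ^ 2 + 2 * b ^ 2) + 2 * |mm| * a ^ 2 * (2 * (A / r) ^ 2 + 8 * (K / r) ^ 2) := by
  have x1 := expD_ph1 h.hr h.K_pos (-A)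
  have i1 := expD_env.integrable
  have i2 : Integrable (fun y => pM r A K B y * (e y ^ 2 + ey y ^ 2)) :=
    integrable_bdd_mul ((integrable_sq2 he.1).add (integrable_sq2 he.2.1)) (bdd_pM r A K B)
  have i3 := x1.integrable
  have i4 : Integrable (fun y => ph1 r (-A) K y * y ^ 2) :=
    (x1.id_mul.id_mul.congr fun y => by ring).integrable
  have j1 := i1.const_mul (15 * |mm| * Real.exp (-(A / K)) + β ^ 2 + γ ^ 2)
  have j2 := i2.const_mul (4080 + 208 * |mm| * Real.exp (A / B))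
  have j3 := i3.const_mul (|mm| * (γ ^ 2 + 2 * b ^ 2))
  have j4 := i4.const_mul (2 * |mm| * a ^ 2)
  have j12 := iadd_JLJ j1 j2
  have j123 := iadd_JLJ j12 j3
  have j := iadd_JLJ j123 j4
  have hc : Continuous (R_JLJ r A K β γ a b e) := by
    have c1 := he.continuous
    have c2 := x1.1
    have c3 := (bdd_ph r (-A) K).1
    have c4 := expD_Q.1
    have c5 := expD_Q1.1
    have c6 := expD_V.1
    have c7 := expD_LQ.1
    unfold R_JLJ NN
    fun_prop
  have hb := fun y => R_le_JLJ (ey := ey) h h1 hβ hγ a b y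
  refine ⟨j.mono' hc.aestronglyMeasurable (Eventually.of_forall hb), ?_⟩
  refine (norm_integral_le_of_norm_le (f := R_JLJ r A K β γ a b e) j
    (Eventually.of_forall hb)).trans ?_
  rw [integral_add j123 j4, integral_add j12 j3, integral_add j1 j2, integral_const_mul, integral_const_mul, integral_const_mul,
    integral_const_mul, integral_ph1 h.hr h.K_pos, mul_one]
  have b4 := integral_ph1_sq h.hr h.K_pos (-A)
  rw [neg_div, neg_sq] at b4
  have b1 := integral_env_le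
  unfold qD
  gcongr

theorem id_JLJ (h : WP r A K B) (he : IsH1 e ey) (a b : ℝ)
    (hR : Integrable (R_JLJ r A K β γ a b e)) :
    rhs0 β γ e (fun y => rho y - mm * ph r (-A) K y) (fun y => LQ y - mm * ph1 r (-A) K y)
        (fun y => LQ2 y - mm * ph3 r (-A) K y)
      + ∫ y, e y * (0 - mm * (ph1 r (-A) K y * (-(β * y) + (a * y + b))))
      = 2 * mu e + mm ^ 2 / 2 * β + mm * qaL r A K e + β * qJ r (-A) K e / 2
        + ∫ y, R_JLJ r A K β γ a b e y := by
  have x1 := expD_ph1 h.hr h.K_pos (-A)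
  have x3 := expD_ph3 h.hr h.K_pos (-A)
  have be := he.bdd
  have i1 : Integrable (fun y => e y * Q y) := (expD_Q.bdd_mul be).integrable
  have i2 : Integrable (fun y => e y * (ph1 r (-A) K y - ph3 r (-A) K y)) :=
    ((x1.sub x3).bdd_mul be).integrable
  have i3 : Integrable (fun y => LQ y * rho y) := (expD_LQ.mul_bdd bdd_rho).integrable
  have i4 := expD_LQ.integrable
  have i5 : Integrable (fun y => Q1 y * rho y) := (expD_Q1.mul_bdd bdd_rho).integrable
  have i6 := expD_Q1.integrable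
  have i7 : Integrable (fun y => e y * (rho y - mm * ph r (-A) K y)) :=
    ((test_rho_ph h.hr h.K_pos (-A)).e0.bdd_mul be).integrable
  have i8 : Integrable (fun y => e y * (0 - mm * (ph1 r (-A) K y * (-(β * y) + (a * y + b))))) :=
    ((((x1.id_mul.const_mul (mm * (β - a))).sub (x1.const_mul (mm * b))).congr
      fun y => by ring).bdd_mul be).integrable
  have z6 : ∫ y, Q1 y = 0 := isH1_Q.isPrim.integral_eq_zero expD_Q.integrable i6
  have j1 := i1.const_mul 2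
  have j2 := i2.const_mul mm
  have j3 := i3.const_mul (-β)
  have j4 := i4.const_mul (β * mm)
  have j5 := i5.const_mul γ
  have j6 := i6.const_mul (-(γ * mm))
  have j7 := i7.const_mul (β / 2)
  have k2 := iadd_JLJ j1 j2
  have k3 := iadd_JLJ k2 j3
  have k4 := iadd_JLJ k3 j4
  have k5 := iadd_JLJ k4 j5
  have k6 := iadd_JLJ k5 j6
  have k7 := iadd_JLJ k6 j7
  have k8 := iadd_JLJ k7 hR
  have e0 : rhs0 β γ e (fun y => rho y - mm * ph r (-A) K y) (fun y => LQ y - mm * ph1 r (-A) K y)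
      (fun y => LQ2 y - mm * ph3 r (-A) K y) = ∫ y, (2 * (e y * Q y)
        + mm * (e y * (ph1 r (-A) K y - ph3 r (-A) K y)) + -β * (LQ y * rho y) + β * mm * LQ y
        + γ * (Q1 y * rho y) + -(γ * mm) * Q1 y + β / 2 * (e y * (rho y - mm * ph r (-A) K y))
        + R_JLJ r A K β γ a b e y
        - e y * (0 - mm * (ph1 r (-A) K y * (-(β * y) + (a * y + b))))) := by
    unfold rhs0 R_JLJ
    congr 1
    funext y
    linear_combination (-(e y)) * L_LQ y
  rw [e0, integral_sub k8 i8, integral_add k7 hR, integral_add k6 j7, integral_add k5 j6,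
    integral_add k4 j5, integral_add k3 j4, integral_add k2 j3, integral_add j1 j2]
  simp only [integral_const_mul, integral_LQ_rho, integral_Q1_rho, z6]
  have m0 : ∫ y, LQ y = mm := rfl
  rw [m0]
  unfold mu qaL qJ
  ring

theorem sq_JLJ {c x y u q : ℝ} (hc : 0 ≤ c) (hx : 0 ≤ x) (hu : x ≤ u) (hy : 0 ≤ y) (hq : y ≤ q) :
    (c * x * y) ^ 2 ≤ (c * q) ^ 2 * u ^ 2 := by
  have hu0 := hx.trans hu
  have : c * x * y ≤ c * u * q := by gcongr
  calc (c * x * y) ^ 2 ≤ (c * u * q) ^ 2 := by gcongr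
    _ = _ := by ring

theorem jlJ (h : BdJStmt) : JLStmt := by
  intro X B hB
  obtain ⟨C1, h1⟩ := h X B hB
  obtain ⟨C2, c2, h2⟩ := X.par_le
  have hm := abs_nonneg mm
  let q := X.r0⁻¹
  let P := |C1| + 8 * C2 * (21 + |mm|) + (4080 + 208 * |mm|)
  let S := 300 * |mm| + |mm| * (2 * (X.CA * q) ^ 2 + 4 * (X.κ * q) ^ 2 + 16 * (X.κ * X.K * q) ^ 2)
  have hP : 0 ≤ P := by positivity
  have hS : 0 ≤ S := by positivity
  refine ⟨P + S, ?_⟩
  filter_upwards [h1, X.ev_gt, X.ev_sup one_pos, X.ev_par one_pos, X.ev_log_sq] with s b1 hs b2 b3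
    b4
  have s1 := X.one_lt hs
  have s0 : 0 < s := one_pos.trans s1
  have hr := X.r_pos hs
  have hw := X.wp hs hB
  have he := X.h1 hs
  have fl := X.st.flow s hs
  have ts := test_rho_ph hr X.K_pos (-(X.A s))
  have me := ((ME.const (s := s) bdd_rho.1).sub
    ((me_ph (X.hasDerivAt_r hs) (X.hasDerivAt_A hs).neg hr X.K_pos).const_mul mm)).congr
    (w' := fun z y => rho y - mm * ph (X.r z) (-(X.A z)) X.K y)
    (wt' := fun y => 0 - mm * (ph1 (X.r s) (-(X.A s)) X.K y *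
      (-(X.β s * y) + (X.κ / s * y + X.CA / (s * X.r s)))))
    (Eventually.of_forall fun _ _ => rfl) (fun y => by
      simp only [Pi.neg_apply]
      congr 3
      field_simp
      ring)
  have hd := mov_l2 fl.h1t.l2 me ts.e0.memLp (fl.d0 _ _ _ _ ts)
  obtain ⟨iR, bR⟩ := R_int_JLJ hw he b2 b3.1 b3.2 (X.κ / s) (X.CA / (s * X.r s))
  rw [one_mul, id_JLJ hw he _ _ iR] at hd
  refine ⟨_, hd, ?_⟩
  have hD : 0 ≤ X.D B s := X.D_nonneg B s
  have hL := one_le_Lm s1.le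
  have hT : 0 ≤ s ^ (-(3 : ℝ) / 2) := by positivity
  have d1 : X.D B s ≤ Lm s * X.D B s := le_mul_of_one_le_left hD hL
  have hLD := hD.trans d1
  have d2 : X.β s ^ 2 + X.γ s ^ 2 ≤ 8 * C2 * (Lm s * X.D B s) := by
    have a1 : X.N s ≤ 8 * X.D B s := hw.N0_le he
    have a2 := mul_le_mul_of_nonneg_left (a1.trans (by linarith : _ ≤ 8 * (Lm s * X.D B s))) c2
    linarith [h2 s hs]
  have d3 : X.JL s ^ 2 ≤ |C1| * (Lm s * X.D B s) := by
    have := mul_le_mul_of_nonneg_right (le_abs_self C1) hLD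
    linarith [sq_nonneg (X.JR s)]
  have d4 : Real.exp (-(X.A s / X.K)) ≤ s ^ (-(3 : ℝ) / 2) :=
    (X.exp_le_tau s1.le).trans (X.tau_le s1.le (by norm_num))
  have d5 : Real.exp (X.A s / B) * X.D B s ≤ Lm s * X.D B s :=
    mul_le_mul_of_nonneg_right (X.exp_le_Lm hB s1.le) hD
  have hA := X.A_nonneg s1.le
  have u1 : 1 / s ≤ (1 + X.A s) / s := by
    gcongr
    linarith
  have u2 : X.A s / s ≤ (1 + X.A s) / s := by
    gcongr
    linarith
  have u3 : (X.r s)⁻¹ ≤ q := inv_anti₀ X.r0_pos (X.r_ge hs)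
  have u4 : 0 ≤ (X.r s)⁻¹ := by positivity
  have f1 : (X.CA / (s * X.r s)) ^ 2 ≤ (X.CA * q) ^ 2 * s ^ (-(3 : ℝ) / 2) := by
    refine le_trans (le_of_eq_of_le ?_ (sq_JLJ X.CA_pos.le (by positivity) u1 u4 u3))
      (mul_le_mul_of_nonneg_left b4 (sq_nonneg _))
    field_simp
  have f2 : (X.κ / s) ^ 2 * (X.A s / X.r s) ^ 2 ≤ (X.κ * q) ^ 2 * s ^ (-(3 : ℝ) / 2) := by
    refine le_trans (le_of_eq_of_le ?_ (sq_JLJ X.κ_pos.le (by positivity) u2 u4 u3))
      (mul_le_mul_of_nonneg_left b4 (sq_nonneg _))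
    field_simp
  have f3 : (X.κ / s) ^ 2 * (X.K / X.r s) ^ 2 ≤ (X.κ * X.K * q) ^ 2 * s ^ (-(3 : ℝ) / 2) := by
    refine le_trans (le_of_eq_of_le ?_
      (sq_JLJ (mul_pos X.κ_pos X.K_pos).le (by positivity) u1 u4 u3))
      (mul_le_mul_of_nonneg_left b4 (sq_nonneg _))
    field_simp
  have g0 : |X.β s * X.JL s / 2| ≤ X.β s ^ 2 + X.JL s ^ 2 := by
    rw [abs_div, abs_mul, abs_two]
    have := am_JLJ (X.β s) (X.JL s)
    have : 0 ≤ |X.β s| * |X.JL s| := by positivity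
    linarith
  have g1 := mul_le_mul_of_nonneg_left d4 hm
  have g2 := mul_le_mul_of_nonneg_left d5 hm
  have g3 := mul_le_mul_of_nonneg_left f1 hm
  have g4 := mul_le_mul_of_nonneg_left f2 hm
  have g5 := mul_le_mul_of_nonneg_left f3 hm
  have g6 : X.γ s ^ 2 ≤ 8 * C2 * (Lm s * X.D B s) := by linarith [sq_nonneg (X.β s)]
  have g7 := mul_le_mul_of_nonneg_left g6 hm
  have g8 := mul_nonneg hP hT
  have g9 := mul_nonneg hS hLD
  have key : 2 * mu (X.e s) + mm ^ 2 / 2 * X.β s + mm * qaL (X.r s) (X.A s) X.K (X.e s)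
      + X.β s * qJ (X.r s) (-(X.A s)) X.K (X.e s) / 2
      + (∫ y, R_JLJ (X.r s) (X.A s) X.K (X.β s) (X.γ s) (X.κ / s) (X.CA / (s * X.r s)) (X.e s) y)
      - (2 * X.μ s + mm ^ 2 / 2 * X.β s + mm * X.aL s) = X.β s * X.JL s / 2
      + ∫ y, R_JLJ (X.r s) (X.A s) X.K (X.β s) (X.γ s) (X.κ / s) (X.CA / (s * X.r s)) (X.e s) y := by
    unfold Dat.μ Dat.aL Dat.JL
    ring
  rw [key]
  refine (abs_add_le _ _).trans ((add_le_add g0 bR).trans ?_)
  change _ + (_ + _ * X.D B s + _ + _) ≤ _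
  simp only [P, S] at g8 g9 ⊢
  linarith [sq_nonneg (X.γ s)]

end Pool.Agent.MP_8339a4_an

end
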