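import Pool.Agent.Mg.F8339a4.G100cd9

/-! Pointwise and static bounds for the derivative of the middle mass. -/

open MeasureTheory Filter Topology Set

namespace Pool.Agent.MP_8339a4_an

theorem pt_MMJ {q e p U Uy c1 c3 p1 p3 y γ k d ω T env S W : ℝ} (hq : 0 ≤ q)
    (h2 : |U ^ 2 - e ^ 2| ≤ 4 * q) (h6 : |U ^ 6 - e ^ 6| ≤ 150 * q)
    (hy : |Uy ^ 2 - p ^ 2| ≤ 3 * q * (1 + p ^ 2)) (hc : 0 ≤ c1) (hp : 0 ≤ p1)
    (hc3 : |c3| ≤ c1) (hp3 : |p3| ≤ p1) (tc : q * (1 + p ^ 2) * c1 ≤ T * env)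
    (tp : q * (1 + p ^ 2) * p1 ≤ T * env) (hqe : q ≤ env) (hT : 0 ≤ T)
    (yc : y * c1 ≤ T) (yp : -y * p1 ≤ T) (h6c : e ^ 6 * c1 ≤ S * e ^ 2) (hW : c1 * e ^ 2 ≤ W)
    (hγ : |γ| ≤ 1) (hk : 0 ≤ k) (hd : 0 ≤ d) :
    fl1 U Uy (c1 - p1) (c3 - p3) - (1 + γ) * (U ^ 2 * (c1 - p1))
        + U ^ 2 * (c1 * (k * y + d) - p1 * (k * y - d))
      ≤ 3 * (p1 * p ^ 2) + (ω ^ 2 * (c1 - c3) - 2 * ω * (e * (c1 - c3))) + p1 * e ^ 2
        - e ^ 2 * p3 + (5 / 3 * S + 2 * k * T) * e ^ 2 + (|γ| + d) * (W + p1 * e ^ 2)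
        + (283 + 8 * k + 8 * d) * T * env := by
  have hp2 : 0 ≤ p ^ 2 := sq_nonneg p
  have qc : q * c1 ≤ T * env := by nlinarith [mul_nonneg (mul_nonneg hq hp2) hc]
  have qp : q * p1 ≤ T * env := by nlinarith [mul_nonneg (mul_nonneg hq hp2) hp]
  obtain ⟨a2, b2⟩ := abs_le.1 h2
  obtain ⟨-, b6⟩ := abs_le.1 h6
  obtain ⟨-, b7⟩ := abs_le.1 hy
  obtain ⟨ac, bc⟩ := abs_le.1 hc3
  obtain ⟨ap, bp⟩ := abs_le.1 hp3
  have hU : 0 ≤ U ^ 2 := sq_nonneg U
  have hU6 : 0 ≤ U ^ 6 := by positivity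
  have t1 : 0 ≤ Uy ^ 2 * c1 := by positivity
  have t2 : Uy ^ 2 * p1 ≤ p1 * p ^ 2 + 3 * (T * env) := by
    have := mul_le_mul_of_nonneg_right b7 hp
    nlinarith
  have t3 : -(U ^ 2 * (c1 - c3))
      ≤ ω ^ 2 * (c1 - c3) - 2 * ω * (e * (c1 - c3)) + 8 * (T * env) := by
    have h0 : 0 ≤ c1 - c3 := by linarith
    have k1 := mul_le_mul_of_nonneg_right a2 h0
    have k2 := mul_nonneg (sq_nonneg (ω - e)) h0
    have k3 : q * (c1 - c3) ≤ q * (2 * c1) := mul_le_mul_of_nonneg_left (by linarith) hq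
    nlinarith
  have t4 : U ^ 2 * (p1 - p3) ≤ p1 * e ^ 2 - e ^ 2 * p3 + 8 * (T * env) := by
    have h0 : 0 ≤ p1 - p3 := by linarith
    have k1 := mul_le_mul_of_nonneg_right b2 h0
    have k3 : q * (p1 - p3) ≤ q * (2 * p1) := mul_le_mul_of_nonneg_left (by linarith) hq
    nlinarith
  have t5 : U ^ 6 * c1 ≤ S * e ^ 2 + 150 * (T * env) := by
    have k1 := mul_le_mul_of_nonneg_right b6 hc
    nlinarith
  have t6 : 0 ≤ U ^ 6 * p1 := by positivity
  have t0 : U ^ 2 * (c1 + p1) ≤ W + p1 * e ^ 2 + 8 * (T * env) := by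
    have k1 := mul_le_mul_of_nonneg_right b2 (add_nonneg hc hp)
    nlinarith
  have hTe : 0 ≤ T * env := mul_nonneg hT (hq.trans hqe)
  have t7 : -(γ * (U ^ 2 * (c1 - p1))) ≤ |γ| * (W + p1 * e ^ 2) + 8 * (T * env) := by
    have k1 : -(γ * (U ^ 2 * c1)) ≤ |γ| * (U ^ 2 * c1) := by
      have := mul_le_mul_of_nonneg_right (neg_le_abs γ) (mul_nonneg hU hc)
      linarith
    have k2 : γ * (U ^ 2 * p1) ≤ |γ| * (U ^ 2 * p1) :=
      mul_le_mul_of_nonneg_right (le_abs_self γ) (mul_nonneg hU hp)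
    have k3 := mul_le_mul_of_nonneg_left t0 (abs_nonneg γ)
    have k4 := mul_le_mul_of_nonneg_right hγ hTe
    nlinarith
  have hUe : U ^ 2 ≤ e ^ 2 + 4 * env := by linarith
  have t8 : k * (U ^ 2 * (y * c1)) ≤ k * (T * (e ^ 2 + 4 * env)) := by
    refine mul_le_mul_of_nonneg_left ?_ hk
    have k1 := mul_le_mul_of_nonneg_left yc hU
    have k2 := mul_le_mul_of_nonneg_left hUe hT
    linarith
  have t9 : k * (U ^ 2 * (-y * p1)) ≤ k * (T * (e ^ 2 + 4 * env)) := by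
    refine mul_le_mul_of_nonneg_left ?_ hk
    have k1 := mul_le_mul_of_nonneg_left yp hU
    have k2 := mul_le_mul_of_nonneg_left hUe hT
    linarith
  have t10 := mul_le_mul_of_nonneg_left t0 hd
  unfold fl1
  linarith

theorem env_MMJ (y p T w : ℝ) (hT : 0 ≤ T) (hw : w ≤ T * Real.exp (|y| / 100)) :
    Q y * (1 + p ^ 2) * w ≤ T * (Real.exp (|y| / 10) * (1 + y ^ 2) * Q y * (1 + p ^ 2)) := by
  have hQ := (Q_pos y).le
  have h1 : Real.exp (|y| / 100) ≤ Real.exp (|y| / 10) * (1 + y ^ 2) := by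
    have a : Real.exp (|y| / 100) ≤ Real.exp (|y| / 10) :=
      Real.exp_le_exp.2 (by linarith [abs_nonneg y])
    nlinarith [Real.exp_pos (|y| / 10), sq_nonneg y]
  have h2 : w ≤ T * (Real.exp (|y| / 10) * (1 + y ^ 2)) :=
    hw.trans (mul_le_mul_of_nonneg_left h1 hT)
  have h3 : 0 ≤ Q y * (1 + p ^ 2) := by positivity
  have := mul_le_mul_of_nonneg_left h2 h3
  linarith

theorem Q_le_env_MMJ (y p : ℝ) :
    Q y ≤ Real.exp (|y| / 10) * (1 + y ^ 2) * Q y * (1 + p ^ 2) := by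
  have h := env_MMJ y p 1 1 zero_le_one (by
    rw [one_mul]; exact Real.one_le_exp (by positivity))
  nlinarith [(Q_pos y).le, sq_nonneg p]

theorem abs_ph3_le_MMJ {r K : ℝ} (hr : 0 < r) (hK : 100 * r ≤ K) (A y : ℝ) :
    |ph3 r A K y| ≤ ph1 r A K y := by
  have hK0 : 0 < K := by linarith
  have h1 : r / K ≤ 1 := (div_le_one hK0).2 (by linarith)
  have h0 : 0 ≤ r / K := by positivity
  have h2 : (r / K) ^ 2 ≤ 1 := pow_le_one₀ h0 h1
  have := mul_le_mul_of_nonneg_right h2 (ph1_pos hr hK0 A y).le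
  linarith [abs_ph3_le hr hK0 A y]

theorem abs_ph2_le_MMJ {r K : ℝ} (hr : 0 < r) (hK : 100 * r ≤ K) (A y : ℝ) :
    |ph2 r A K y| ≤ ph1 r A K y := by
  have hK0 : 0 < K := by linarith
  have h1 : r / K ≤ 1 := (div_le_one hK0).2 (by linarith)
  have := mul_le_mul_of_nonneg_right h1 (ph1_pos hr hK0 A y).le
  linarith [abs_ph2_le hr hK0 A y]

theorem chi1_right_MMJ {r A K B : ℝ} (h : WP r A K B) {y : ℝ} (hy : 0 ≤ y) :
    ph1 r (-A) K y ≤ Real.exp (-(A / K)) := by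
  have hK0 := h.K_pos
  have hr := h.hr
  have h1 : r / K ≤ 1 := (div_le_one hK0).2 (by linarith [h.hK])
  have h2 := P1_le_exp ((r * y - -A) / K)
  have h3 : Real.exp (-|(r * y - -A) / K|) ≤ Real.exp (-(A / K)) := by
    refine Real.exp_le_exp.2 (neg_le_neg (le_trans ?_ (le_abs_self _)))
    exact div_le_div_of_nonneg_right (by nlinarith [mul_nonneg hr.le hy]) hK0.le
  have h4 := mul_le_mul_of_nonneg_right h1 (P1_pos ((r * y - -A) / K)).le
  unfold ph1
  linarith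

theorem pow6_chi_MMJ {r A K B : ℝ} (h : WP r A K B) {e ey : ℝ → ℝ} (he : IsH1 e ey)
    (h1 : ∀ y, |e y| ≤ 1) (y : ℝ) : e y ^ 6 * ph1 r (-A) K y
      ≤ (64 * Real.exp (2 * (A / B)) * qD r A K B e ey ^ 2 + Real.exp (-(A / K))) * e y ^ 2 := by
  have hE := Real.exp_pos (2 * (A / B))
  have hT := Real.exp_pos (-(A / K))
  have he2 : 0 ≤ e y ^ 2 := sq_nonneg _
  have hc := (ph1_pos h.hr h.K_pos (-A) y).le
  have key : e y ^ 4 * ph1 r (-A) K y
      ≤ 64 * Real.exp (2 * (A / B)) * qD r A K B e ey ^ 2 + Real.exp (-(A / K)) := by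
    rcases le_total y 0 with hy | hy
    · have a1 := h.chi1_le_pM_sq hy
      have a2 := h.sob he y
      have a3 : (pM r A K B y * e y ^ 2) ^ 2 ≤ (2 * qD r A K B e ey) ^ 2 :=
        pow_le_pow_left₀ (mul_nonneg (pM_pos r A K B y).le he2) a2 2
      have a4 := mul_le_mul_of_nonneg_left a1 (show 0 ≤ e y ^ 4 by positivity)
      have a5 := mul_le_mul_of_nonneg_left a3 hE.le
      nlinarith
    · have a1 := chi1_right_MMJ h hy
      have a2 : e y ^ 4 ≤ 1 := by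
        have : |e y| ^ 4 ≤ 1 := pow_le_one₀ (abs_nonneg _) (h1 y)
        rwa [show |e y| ^ 4 = e y ^ 4 from Even.pow_abs (by decide) _] at this
      have a3 := mul_le_mul_of_nonneg_right a2 hc
      have a4 : 0 ≤ 64 * Real.exp (2 * (A / B)) * qD r A K B e ey ^ 2 := by positivity
      linarith
  have := mul_le_mul_of_nonneg_right key he2
  calc e y ^ 6 * ph1 r (-A) K y = e y ^ 4 * ph1 r (-A) K y * e y ^ 2 := by ring
    _ ≤ _ := this

/-- Integration by parts of the third derivative of the step. -/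
theorem ibp_MMJ {r A K Cf : ℝ} (hr : 0 < r) (hK : 100 * r ≤ K) {e ey : ℝ → ℝ} (he : IsH1 e ey)
    (hC : 0 ≤ Cf)
    (hP : ∫ y, ph1 r A K y * e y ^ 2 ≤ qa r A K e ^ 2 + Cf * qf r A K ey) :
    -∫ y, e y ^ 2 * ph3 r A K y
      ≤ 2 * (Real.sqrt (qf r A K ey) * |qa r A K e|) + 2 * (Cf + 1) * qf r A K ey := by
  have hK0 : 0 < K := by linarith
  have b1 := (expD_ph1 hr hK0 A).bdd
  have b2 := (expD_ph2 hr hK0 A).bdd
  have hH : IsH1 (ph2 r A K) (ph3 r A K) :=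
    IsH1.of_expD (hasDerivAt_ph2 r A K) (expD_ph2 hr hK0 A) (expD_ph3 hr hK0 A)
  have e1 := (he.mul he).ibp hH
  have e2 : (∫ y, e y * e y * ph3 r A K y) = ∫ y, e y ^ 2 * ph3 r A K y := by
    congr 1; funext y; ring
  have i0 : Integrable (fun y => ph1 r A K y * (|e y| * |ey y|)) :=
    integrable_bdd_mul (integrable_mul2 he.1.abs he.2.1.abs) b1
  have i1 : Integrable (fun y => ph1 r A K y * |e y| ^ 2) :=
    integrable_bdd_mul (integrable_sq2 he.1.abs) b1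
  have i2 : Integrable (fun y => ph1 r A K y * |ey y| ^ 2) :=
    integrable_bdd_mul (integrable_sq2 he.2.1.abs) b1
  have cs := csw (f := fun y => |e y|) (g := fun y => |ey y|)
    (fun y => (ph1_pos hr hK0 A y).le) i0 i1 i2
  simp only [sq_abs] at cs
  have i3 : Integrable (fun y => (ey y * e y + e y * ey y) * ph2 r A K y) :=
    integrable_mul_bdd ((integrable_mul2 he.2.1 he.1).add (integrable_mul2 he.1 he.2.1)) b2
  have m1 : (∫ y, (ey y * e y + e y * ey y) * ph2 r A K y)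
      ≤ ∫ y, 2 * (ph1 r A K y * (|e y| * |ey y|)) := by
    refine integral_mono i3 (i0.const_mul 2) (fun y => ?_)
    have a1 : (ey y * e y + e y * ey y) * ph2 r A K y ≤ 2 * (|ph2 r A K y| * (|e y| * |ey y|)) := by
      have := le_abs_self (ph2 r A K y * (e y * ey y))
      rw [abs_mul, abs_mul] at this
      linarith
    have a2 := mul_le_mul_of_nonneg_right (abs_ph2_le_MMJ hr hK A y)
      (mul_nonneg (abs_nonneg (e y)) (abs_nonneg (ey y)))
    simp only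
    linarith
  rw [integral_const_mul] at m1
  have hf : 0 ≤ qf r A K ey := qf_nonneg hr hK0 A ey
  change _ ≤ _ * qf r A K ey at cs
  set x := ∫ y, ph1 r A K y * (|e y| * |ey y|)
  set f := qf r A K ey
  set a := qa r A K e
  have hs : Real.sqrt f ^ 2 = f := Real.sq_sqrt hf
  have hs0 := Real.sqrt_nonneg f
  have hx : x ≤ Real.sqrt f * |a| + (Cf + 1) * f := by
    refine le_trans (le_abs_self x) (abs_le_of_sq_le_sq ?_ (by positivity))
    have k1 := mul_le_mul_of_nonneg_right hP hf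
    have k2 : (Real.sqrt f * |a| + (Cf + 1) * f) ^ 2
        = f * a ^ 2 + 2 * (Real.sqrt f * |a| * ((Cf + 1) * f)) + (Cf + 1) ^ 2 * f ^ 2 := by
      rw [add_sq, mul_pow, hs, sq_abs]; ring
    have k3 : 0 ≤ Real.sqrt f * |a| * ((Cf + 1) * f) := by positivity
    have k4 : Cf * f ^ 2 ≤ (Cf + 1) ^ 2 * f ^ 2 :=
      mul_le_mul_of_nonneg_right (by nlinarith) (sq_nonneg f)
    rw [k2]
    linarith
  rw [← e2]
  linarith

theorem add_MMJ {f g : ℝ → ℝ} (h : Integrable f) (H : Integrable g) :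
    Integrable (fun y => f y + g y) := h.add H

theorem sub_MMJ {f g : ℝ → ℝ} (h : Integrable f) (H : Integrable g) :
    Integrable (fun y => f y - g y) := h.sub H

/-- The static bound. -/
theorem static_MMJ {r A K B M γ k d : ℝ} (h : WP r A K B) {e ey g : ℝ → ℝ} (he : IsH1 e ey)
    (h1 : ∀ y, |e y| ≤ 1) (hey : ∫ y, ey y ^ 2 ≤ 1) (hM : ∫ y, e y ^ 2 ≤ M) (hγ : |γ| ≤ 1)
    (hk : 0 ≤ k) (hd : 0 ≤ d) (hg : Integrable g)
    (hG : ∀ y, g y = fl1 (Q y + e y) (Q1 y + ey y) (ph1 r (-A) K y - ph1 r A K y)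
        (ph3 r (-A) K y - ph3 r A K y)
      - (1 + γ) * ((Q y + e y) ^ 2 * (ph1 r (-A) K y - ph1 r A K y))
      + (Q y + e y) ^ 2 * (ph1 r (-A) K y * (k * y + d) - ph1 r A K y * (k * y - d))) (ω : ℝ) :
    ∫ y, g y ≤ 3 * qf r A K ey + (ω ^ 2 - 2 * ω * qaL r A K e)
      + (∫ y, ph1 r A K y * e y ^ 2) - (∫ y, e y ^ 2 * ph3 r A K y)
      + (5 / 3 * (64 * Real.exp (2 * (A / B)) * qD r A K B e ey ^ 2 + Real.exp (-(A / K)))
        + 2 * k * Real.exp (-(A / K))) * M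
      + (|γ| + d) * (4 * Real.exp (A / B) * qD r A K B e ey + ∫ y, ph1 r A K y * e y ^ 2)
      + (283 + 8 * k + 8 * d) * Real.exp (-(A / K)) * 30 := by
  have hr := h.hr
  have hK := h.hK
  have hK0 := h.K_pos
  have hT := Real.exp_pos (-(A / K))
  have hE1 := Real.exp_pos (A / B)
  have hE2 := Real.exp_pos (2 * (A / B))
  set T := Real.exp (-(A / K)) with hTd
  set S := 64 * Real.exp (2 * (A / B)) * qD r A K B e ey ^ 2 + T with hSd
  have hS : 0 ≤ S := by positivity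
  have xc := (expD_ph1 hr hK0 (-A)).sub (expD_ph3 hr hK0 (-A))
  have b1 := (expD_ph1 hr hK0 A).bdd
  have b3 := (expD_ph3 hr hK0 A).bdd
  have s2 := integrable_sq2 he.1
  have sy := integrable_sq2 he.2.1
  have j1 : Integrable (fun y => ph1 r A K y * ey y ^ 2) := integrable_bdd_mul sy b1
  have j2 := xc.integrable
  have j3 : Integrable (fun y => e y * (ph1 r (-A) K y - ph3 r (-A) K y)) :=
    integrable_mul2 he.1 xc.memLp
  have j4 : Integrable (fun y => ph1 r A K y * e y ^ 2) := integrable_bdd_mul s2 b1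
  have j5 : Integrable (fun y => e y ^ 2 * ph3 r A K y) := integrable_mul_bdd s2 b3
  have j6 : Integrable (fun y => pM r A K B y * (e y ^ 2 + ey y ^ 2)) :=
    integrable_bdd_mul (s2.add sy) (bdd_pM r A K B)
  have j7 := integrable_envp he.2.1
  have k1 := j1.const_mul 3
  have k2 := sub_MMJ (j2.const_mul (ω ^ 2)) (j3.const_mul (2 * ω))
  have k5 := s2.const_mul (5 / 3 * S + 2 * k * T)
  have f6 := j6.const_mul (4 * Real.exp (A / B))
  have k6 := (add_MMJ f6 j4).const_mul (|γ| + d)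
  have k7 := j7.const_mul ((283 + 8 * k + 8 * d) * T)
  have n1 := add_MMJ k1 k2
  have n2 := add_MMJ n1 j4
  have n3 := sub_MMJ n2 j5
  have n4 := add_MMJ n3 k5
  have n5 := add_MMJ n4 k6
  have hb : ∫ y, g y ≤ ∫ y, (3 * (ph1 r A K y * ey y ^ 2)
      + (ω ^ 2 * (ph1 r (-A) K y - ph3 r (-A) K y)
        - 2 * ω * (e y * (ph1 r (-A) K y - ph3 r (-A) K y))) + ph1 r A K y * e y ^ 2
      - e y ^ 2 * ph3 r A K y + (5 / 3 * S + 2 * k * T) * e y ^ 2
      + (|γ| + d) * (4 * Real.exp (A / B) * (pM r A K B y * (e y ^ 2 + ey y ^ 2))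
        + ph1 r A K y * e y ^ 2)
      + (283 + 8 * k + 8 * d) * T
        * (Real.exp (|y| / 10) * (1 + y ^ 2) * Q y * (1 + ey y ^ 2))) := by
    refine integral_mono hg (add_MMJ n5 k7) (fun y => ?_)
    have hc := (ph1_pos hr hK0 (-A) y).le
    have hp := (ph1_pos hr hK0 A y).le
    rw [hG y]
    refine pt_MMJ (Q_pos y).le (abs_sq_sub_le y (h1 y)) (abs_pow6_sub_le y (h1 y))
      (abs_sqy_sub_le y (ey y)) hc hp (abs_ph3_le_MMJ hr hK _ y) (abs_ph3_le_MMJ hr hK _ y)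
      (env_MMJ y _ T _ hT.le (chi1_le_tiny hr hK A y))
      (env_MMJ y _ T _ hT.le (ph1_le_tiny hr hK A y)) (Q_le_env_MMJ y _) hT.le ?_ ?_
      (pow6_chi_MMJ h he h1 y) ?_ hγ hk hd
    · rcases le_total 0 y with hy | hy
      · exact mul_chi1_le hr hK0 A hy
      · nlinarith
    · rcases le_total y 0 with hy | hy
      · exact neg_mul_ph1_le hr hK0 A hy
      · nlinarith
    · have a1 := mul_le_mul_of_nonneg_right (h.chi1_le_pM y) (sq_nonneg (e y))
      have a2 : 0 ≤ 4 * Real.exp (A / B) * (pM r A K B y * ey y ^ 2) :=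
        mul_nonneg (by positivity) (mul_nonneg (pM_pos r A K B y).le (sq_nonneg _))
      linarith
  have e2 : ∫ y, (ph1 r (-A) K y - ph3 r (-A) K y) = 1 := by
    rw [integral_sub (expD_ph1 hr hK0 (-A)).integrable (expD_ph3 hr hK0 (-A)).integrable,
      integral_ph1 hr hK0, integral_ph3 hr hK0, sub_zero]
  rw [integral_add n5 k7, integral_add n4 k6, integral_add n3 k5, integral_sub n2 j5,
    integral_add n1 j4, integral_add k1 k2,
    integral_sub (j2.const_mul (ω ^ 2)) (j3.const_mul (2 * ω))] at hb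
  simp only [integral_const_mul] at hb
  rw [integral_add f6 j4, integral_const_mul, e2] at hb
  have m5 := mul_le_mul_of_nonneg_left hM (show 0 ≤ 5 / 3 * S + 2 * k * T by positivity)
  have m7 := mul_le_mul_of_nonneg_left (integral_envp_le he.2.1 hey)
    (show 0 ≤ (283 + 8 * k + 8 * d) * T by positivity)
  have u1 : qf r A K ey = ∫ y, ph1 r A K y * ey y ^ 2 := rfl
  have u2 : qaL r A K e = ∫ y, e y * (ph1 r (-A) K y - ph3 r (-A) K y) := rfl
  have u3 : qD r A K B e ey = ∫ y, pM r A K B y * (e y ^ 2 + ey y ^ 2) := rfl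
  rw [← u1, ← u2, ← u3] at hb
  linarith

end Pool.Agent.MP_8339a4_an
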