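import Pool.Agent.Mg.F8339a4.Gaa52d0
import Pool.Agent.Mg.F8339a4.G100cd9

section

/-! The scalar lemma S2, by a Lyapunov function. -/

open MeasureTheory Filter Topology Set

namespace Pool.Agent.MP_8339a4_an

noncomputable section

theorem anti_S2 {s1 : ℝ} {f : ℝ → ℝ} (h : ∀ s, s1 < s → ContinuousAt f s ∧ DiniLe f s 0)
    {S T : ℝ} (hS : s1 < S) (hT : S ≤ T) : f T ≤ f S := by
  have := dini_le_integral (f := f) (g := fun _ => 0) hT
    (fun x hx => (h x (hS.trans_le hx.1)).1.continuousWithinAt) continuousOn_const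
    fun x hx => (h x (hS.trans_le hx.1)).2
  simpa using this

theorem conv_S2 {s1 p A : ℝ} {v Ψ : ℝ → ℝ} (h1 : 1 ≤ s1) (hp : 0 ≤ p)
    (h0 : ∀ s, s1 < s → 0 ≤ Ψ s) (ha : ∀ S T, s1 < S → S ≤ T → Ψ T ≤ Ψ S)
    (hv : ∀ θ, 0 < θ → ∀ S T, s1 < S → S ≤ T →
      |v T - v S| ≤ θ * (Ψ S - Ψ T) + A / θ * ((S ^ p)⁻¹) ^ 2) :
    ∃ w : ℝ, Tendsto (fun s => (v s - w) * s ^ p) atTop (𝓝 0) := by
  have hne : (Ψ '' Ioi s1).Nonempty := ⟨_, s1 + 1, by simp, rfl⟩
  have hb : BddBelow (Ψ '' Ioi s1) := ⟨0, by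
    rintro _ ⟨s, hs, rfl⟩
    exact h0 s hs⟩
  have key : ∀ ε, 0 < ε → ∃ N, s1 < N ∧ ∀ S, N ≤ S → ∀ T, S ≤ T →
      |v T - v S| * S ^ p ≤ ε := by
    intro ε hε
    have hM : 0 < 2 * (|A| + 1) / ε := by positivity
    set M := 2 * (|A| + 1) / ε with hM'
    obtain ⟨_, ⟨N, hN, rfl⟩, hlt⟩ := exists_lt_of_csInf_lt hne
      (lt_add_of_pos_right (sInf (Ψ '' Ioi s1)) (show 0 < ε / 2 / M by positivity))
    refine ⟨N, hN, fun S hS T hT => ?_⟩
    have hS1 : s1 < S := lt_of_lt_of_le hN hS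
    have hq : 0 < S ^ p := Real.rpow_pos_of_pos (by linarith) p
    have h2 := hv (M * (S ^ p)⁻¹) (by positivity) S T hS1 hT
    have h3 : sInf (Ψ '' Ioi s1) ≤ Ψ T := csInf_le hb ⟨T, hS1.trans_le hT, rfl⟩
    have h4 := ha N S hN hS
    have h5 : M * (Ψ S - Ψ T) ≤ ε / 2 := by
      have : M * (Ψ S - Ψ T) ≤ M * (ε / 2 / M) :=
        mul_le_mul_of_nonneg_left (by linarith) hM.le
      rwa [mul_div_cancel₀ _ hM.ne'] at this
    have h6 : A / M ≤ ε / 2 := by
      rw [div_le_iff₀ hM, hM']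
      have : ε / 2 * (2 * (|A| + 1) / ε) = |A| + 1 := by field_simp
      linarith [le_abs_self A]
    have h7 : (M * (S ^ p)⁻¹ * (Ψ S - Ψ T) + A / (M * (S ^ p)⁻¹) * ((S ^ p)⁻¹) ^ 2) * S ^ p =
        M * (Ψ S - Ψ T) + A / M := by field_simp
    have := mul_le_mul_of_nonneg_right h2 hq.le
    linarith
  have hc : Cauchy (map v atTop) := by
    refine Metric.cauchy_iff.2 ⟨inferInstance, fun ε hε => ?_⟩
    obtain ⟨N, hN, h⟩ := key (ε / 4) (by positivity)
    refine ⟨v '' Ici N, image_mem_map (Ici_mem_atTop N), ?_⟩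
    have h2 : ∀ T, N ≤ T → |v T - v N| ≤ ε / 4 := fun T hT => by
      have h3 := h N le_rfl T hT
      have h4 : 1 ≤ N ^ p := Real.one_le_rpow (by linarith) hp
      nlinarith [abs_nonneg (v T - v N)]
    rintro _ ⟨x, hx, rfl⟩ _ ⟨y, hy, rfl⟩
    have h3 := abs_le.1 (h2 x hx)
    have h4 := abs_le.1 (h2 y hy)
    rw [Real.dist_eq, abs_lt]
    constructor <;> linarith [h3.1, h3.2, h4.1, h4.2]
  obtain ⟨w, hw⟩ := cauchy_map_iff_exists_tendsto.1 hc
  refine ⟨w, Metric.tendsto_atTop.2 fun ε hε => ?_⟩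
  obtain ⟨N, hN, h⟩ := key (ε / 2) (by positivity)
  refine ⟨N, fun S hS => ?_⟩
  have hq : 0 < S ^ p := Real.rpow_pos_of_pos (by linarith) p
  have h2 : |w - v S| * S ^ p ≤ ε / 2 :=
    le_of_tendsto (((hw.sub_const (v S)).abs).mul_const _)
      ((eventually_ge_atTop S).mono fun T hT => h S hS T hT)
  rw [Real.dist_eq, sub_zero, abs_mul, abs_of_pos hq, abs_sub_comm]
  linarith

theorem tau_S2 {κ r0 s L : ℝ} (hκ : 0 ≤ κ) (h0 : 0 < r0) (hs : 1 ≤ s) (hL : r0 ≤ L * s ^ κ) :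
    0 < L ∧ 0 < s ^ (-(2 * κ + 10)) ∧ s ^ (-(2 * κ + 10)) ≤ (s ^ 2)⁻¹ ∧
      s ^ (-(2 * κ + 10)) * (L ^ 2)⁻¹ ≤ (r0 ^ 2)⁻¹ * (s ^ 2)⁻¹ := by
  have hs0 : 0 < s := by linarith
  have hq : 0 < s ^ κ := Real.rpow_pos_of_pos hs0 κ
  have hτ : 0 < s ^ (-(2 * κ + 10)) := Real.rpow_pos_of_pos hs0 _
  have hL0 : 0 < L := (pos_iff_pos_of_mul_pos (h0.trans_le hL)).2 hq
  have e2 : (s ^ 2)⁻¹ = s ^ (-2 : ℝ) := by
    rw [Real.rpow_neg hs0.le, Real.rpow_two]
  have e3 : s ^ (-(2 * κ + 10)) * (s ^ κ) ^ 2 ≤ (s ^ 2)⁻¹ := by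
    rw [e2, sq, ← Real.rpow_add hs0, ← Real.rpow_add hs0]
    exact Real.rpow_le_rpow_of_exponent_le hs (by linarith)
  refine ⟨hL0, hτ, ?_, ?_⟩
  · rw [e2]
    exact Real.rpow_le_rpow_of_exponent_le hs (by linarith)
  · have h1 : r0 ^ 2 ≤ (L * s ^ κ) ^ 2 := pow_le_pow_left₀ h0.le hL 2
    have h2 : (L ^ 2)⁻¹ ≤ (r0 ^ 2)⁻¹ * (s ^ κ) ^ 2 := by
      rw [inv_mul_eq_div, inv_eq_one_div, div_le_div_iff₀ (by positivity) (by positivity)]
      nlinarith
    calc _ ≤ s ^ (-(2 * κ + 10)) * ((r0 ^ 2)⁻¹ * (s ^ κ) ^ 2) :=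
          mul_le_mul_of_nonneg_left h2 hτ.le
      _ = (r0 ^ 2)⁻¹ * (s ^ (-(2 * κ + 10)) * (s ^ κ) ^ 2) := by ring
      _ ≤ _ := mul_le_mul_of_nonneg_left e3 (by positivity)

theorem vder_S2 {lam a : ℝ → ℝ} {s b a' C g : ℝ} (hL : 0 < lam s)
    (h1 : HasDerivAt lam (-b * lam s) s) (h2 : HasDerivAt a a' s)
    (h3 : |a' + b * a s / 2| ≤ C * g) :
    ∃ v', HasDerivAt (fun z => a z / Real.sqrt (lam z)) v' s ∧
      |v'| ≤ C * Real.sqrt (lam s) * (g / lam s) := by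
  have hr : 0 < Real.sqrt (lam s) := Real.sqrt_pos.2 hL
  have h4 := h2.div (h1.sqrt hL.ne') hr.ne'
  refine ⟨(a' + b * a s / 2) / Real.sqrt (lam s), ?_, ?_⟩
  · refine h4.congr_deriv ?_
    have := Real.sq_sqrt hL.le
    set r := Real.sqrt (lam s)
    rw [← this]
    field_simp
    ring
  · rw [abs_div, abs_of_pos hr, div_le_iff₀ hr]
    have := Real.sq_sqrt hL.le
    set r := Real.sqrt (lam s)
    rw [← this]
    have e : C * r * (g / r ^ 2) * r = C * g := by field_simp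
    rwa [e]

/-- The algebra of the Lyapunov inequality. -/
theorem alg_S2 {C ρ σ τ r f a v v' g H X m' : ℝ} (hC : 0 ≤ C) (hρ : 0 ≤ ρ) (hσ : 0 ≤ σ)
    (hσ1 : σ ≤ 1) (hτ : 0 < τ) (hτ1 : τ ≤ σ) (hr : 0 < r) (hτ2 : τ * ((r ^ 2) ^ 2)⁻¹ ≤ ρ * σ)
    (hf : 0 ≤ f) (ha : a = v * r) (hg : g = (Real.sqrt f + τ) / r ^ 2)
    (hv : |v'| ≤ C * r * g) (hH : v ^ 4 + 1 ≤ H) (hX : 1 ≤ X)
    (hm : m' ≤ -(a ^ 2 / 4) + C * τ) :
    ((-(f / 8) + C * (a ^ 6 + τ)) * ((r ^ 2) ^ 2)⁻¹ + (C + 1) * (4 * v ^ 3 * v')) * X +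
      H * (X * (4 * (C + 128 * (C + 1) ^ 2 * C ^ 2) * m' -
        (4 * (C + 128 * (C + 1) ^ 2 * C ^ 2) * C + (C + 1) * ρ) * σ)) ≤ -(g ^ 2 / 32) := by
  set C1 := C + 128 * (C + 1) ^ 2 * C ^ 2 with hC1
  have hC1' : 0 ≤ C1 := by positivity
  set i := ((r ^ 2) ^ 2)⁻¹ with hi
  have hi0 : 0 < i := by positivity
  have g0 : 0 ≤ g := by rw [hg]; positivity
  have g1 : g ^ 2 ≤ 2 * (f * i) + 2 * (ρ * σ) := by
    have e : g ^ 2 = (Real.sqrt f + τ) ^ 2 * i := by rw [hg, hi]; field_simp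
    have h1 : (Real.sqrt f + τ) ^ 2 ≤ 2 * f + 2 * τ := by
      nlinarith [Real.sq_sqrt hf, sq_nonneg (Real.sqrt f - τ)]
    have := mul_le_mul_of_nonneg_right h1 hi0.le
    linarith
  have a6 : a ^ 6 * i = a ^ 2 * v ^ 4 := by rw [ha, hi]; field_simp
  have v1 : (C + 1) * (4 * v ^ 3 * v') ≤
      g ^ 2 / 32 + 128 * (C + 1) ^ 2 * C ^ 2 * (a ^ 2 * v ^ 4) := by
    have h1 : v ^ 3 * v' ≤ |v ^ 3| * (C * r * g) := by
      refine (le_abs_self _).trans ?_
      rw [abs_mul]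
      exact mul_le_mul_of_nonneg_left hv (abs_nonneg _)
    have h2 : a ^ 2 * v ^ 4 = (|v ^ 3| * r) ^ 2 := by rw [mul_pow, sq_abs, ha]; ring
    have h3 := mul_le_mul_of_nonneg_left h1 (show 0 ≤ 4 * (C + 1) by positivity)
    rw [h2]
    nlinarith [sq_nonneg (g - 64 * (C + 1) * C * (|v ^ 3| * r))]
  have v4 : 0 ≤ v ^ 4 := by positivity
  have h1 : (-(f / 8) + C * (a ^ 6 + τ)) * i + (C + 1) * (4 * v ^ 3 * v') ≤
      -(g ^ 2 / 32) + H * (C1 * a ^ 2 + (C + 1) * ρ * σ) := by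
    have h2 : C * (τ * i) ≤ C * (ρ * σ) := mul_le_mul_of_nonneg_left hτ2 hC
    have h3 : C1 * a ^ 2 * v ^ 4 ≤ C1 * a ^ 2 * H :=
      mul_le_mul_of_nonneg_left (by linarith) (by positivity)
    have h4 : (C + 1) * ρ * σ * 1 ≤ (C + 1) * ρ * σ * H :=
      mul_le_mul_of_nonneg_left (by linarith) (by positivity)
    have h5 : 0 ≤ ρ * σ := by positivity
    have e : (-(f / 8) + C * (a ^ 6 + τ)) * i =
        -(f * i / 8) + C * (a ^ 2 * v ^ 4) + C * (τ * i) := by rw [← a6]; ring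
    have e2 : C1 * a ^ 2 * v ^ 4 =
        C * (a ^ 2 * v ^ 4) + 128 * (C + 1) ^ 2 * C ^ 2 * (a ^ 2 * v ^ 4) := by rw [hC1]; ring
    rw [e]
    linarith
  have h2 : 4 * C1 * m' - (4 * C1 * C + (C + 1) * ρ) * σ ≤ -(C1 * a ^ 2 + (C + 1) * ρ * σ) := by
    have h3 := mul_le_mul_of_nonneg_left hm (show 0 ≤ 4 * C1 by positivity)
    have h4 := mul_le_mul_of_nonneg_left hτ1 (show 0 ≤ 4 * C1 * C by positivity)
    linarith
  have h3 := mul_le_mul_of_nonneg_left h2 (show 0 ≤ H * X by nlinarith)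
  have h4 := mul_le_mul_of_nonneg_right h1 (show 0 ≤ X by linarith)
  have h5 : g ^ 2 / 32 * 1 ≤ g ^ 2 / 32 * X := mul_le_mul_of_nonneg_left hX (by positivity)
  linarith

theorem s2 : S2Stmt := by
  intro κ c C r0 r1 s1 lam β a f m E k hκ hc h0 h1 hl ha hm hE hk
  have ht := fun s (hs : s1 < s) =>
    tau_S2 (by linarith : 0 ≤ κ) h0 (by linarith : 1 ≤ s) (hl s hs).2.1
  have hC : 0 ≤ C := by
    obtain ⟨-, -, a', -, h2⟩ := ha (s1 + 1) (by linarith)
    have h3 := (ht (s1 + 1) (by linarith)).2.1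
    exact nonneg_of_mul_nonneg_left ((abs_nonneg _).trans h2) (by positivity)
  have hr1 : 0 ≤ r1 := by linarith [(hl (s1 + 1) (by linarith)).2.1, (hl (s1 + 1) (by linarith)).2.2]
  set ρ := (r0 ^ 2)⁻¹ with hρ
  have hρ0 : 0 ≤ ρ := by positivity
  let v : ℝ → ℝ := fun z => a z / Real.sqrt (lam z)
  let g : ℝ → ℝ := fun z => (Real.sqrt (f z) + z ^ (-(2 * κ + 10))) / lam z
  let H : ℝ → ℝ := fun z => E z * (lam z ^ 2)⁻¹ + ((C + 1) * v z ^ 4 + (C + C * ρ + 1))
  let C1 := C + 128 * (C + 1) ^ 2 * C ^ 2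
  let X : ℝ → ℝ := fun z => Real.exp (4 * C1 * m z + (4 * C1 * C + (C + 1) * ρ) * z⁻¹)
  have hv : ∀ s, s1 < s → ∃ v', HasDerivAt v v' s ∧ |v'| ≤ C * Real.sqrt (lam s) * g s :=
    fun s hs => by
      obtain ⟨-, -, a', h2, h3⟩ := ha s hs
      exact vder_S2 (ht s hs).1 (hl s hs).1 h2 h3
  have hav : ∀ s, s1 < s → a s = v s * Real.sqrt (lam s) := fun s hs =>
    (div_mul_cancel₀ _ (Real.sqrt_pos.2 (ht s hs).1).ne').symm
  have hav2 : ∀ s, s1 < s → a s ^ 2 = v s ^ 2 * lam s := fun s hs => by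
    rw [hav s hs, mul_pow, Real.sq_sqrt (ht s hs).1.le]
  have hσ : ∀ s, s1 < s → (s ^ 2)⁻¹ ≤ 1 := fun s hs =>
    inv_le_one_of_one_le₀ (one_le_pow₀ (by linarith))
  have hkH : ∀ s, s1 < s → c * k s * (lam s ^ 2)⁻¹ + (v s ^ 4 + 1) ≤ H s := fun s hs => by
    obtain ⟨h2, h3, h4, h5⟩ := ht s hs
    have h6 := mul_le_mul_of_nonneg_right (hk s hs).2 (show 0 ≤ (lam s ^ 2)⁻¹ by positivity)
    have e : (E s + C * (lam s ^ 2 + a s ^ 4 + s ^ (-(2 * κ + 10)))) * (lam s ^ 2)⁻¹ =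
        E s * (lam s ^ 2)⁻¹ + C * (1 + v s ^ 4 + s ^ (-(2 * κ + 10)) * (lam s ^ 2)⁻¹) := by
      rw [show a s ^ 4 = (a s ^ 2) ^ 2 by ring, hav2 s hs]
      field_simp
    have h7 : ρ * (s ^ 2)⁻¹ ≤ ρ * 1 := mul_le_mul_of_nonneg_left (hσ s hs) hρ0
    have h8 := mul_le_mul_of_nonneg_left (h5.trans h7) hC
    simp only [H]
    linarith
  have hk0 : ∀ s, s1 < s → 0 ≤ c * k s * (lam s ^ 2)⁻¹ := fun s hs => by
    have := (hk s hs).1
    positivity
  have hH : ∀ s, s1 < s → v s ^ 4 + 1 ≤ H s := fun s hs => by linarith [hkH s hs, hk0 s hs]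
  have hX : ∀ s, s1 < s → 1 ≤ X s := fun s hs => by
    have := (hm s hs).1
    have : 0 < s := by linarith
    exact Real.one_le_exp (by positivity)
  have hΨ : ∀ s, s1 < s → ContinuousAt (fun z => H z * X z) s ∧
      DiniLe (fun z => H z * X z) s (-(g s ^ 2 / 32)) := fun s hs => by
    obtain ⟨h2, h3, h4, h5⟩ := ht s hs
    obtain ⟨v', h6, h7⟩ := hv s hs
    obtain ⟨-, m', h8, h9⟩ := hm s hs
    have hs0 : 0 < s := by linarith
    have d1 : HasDerivAt (fun z => (lam z ^ 2)⁻¹) (2 * β s * (lam s ^ 2)⁻¹) s := by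
      refine (((hl s hs).1.fun_pow 2).fun_inv (pow_pos h2 2).ne').congr_deriv ?_
      field_simp
      ring
    have d2 : HasDerivAt (fun z => (C + 1) * v z ^ 4 + (C + C * ρ + 1))
        ((C + 1) * (4 * v s ^ 3 * v')) s := by
      refine (((h6.fun_pow 4).const_mul (C + 1)).add_const (C + C * ρ + 1)).congr_deriv ?_
      norm_num
    have d3 : HasDerivAt X (X s * (4 * C1 * m' - (4 * C1 * C + (C + 1) * ρ) * (s ^ 2)⁻¹)) s := by
      refine ((h8.const_mul (4 * C1)).fun_add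
        ((hasDerivAt_inv hs0.ne').const_mul (4 * C1 * C + (C + 1) * ρ))).exp.congr_deriv ?_
      simp only [X]
      ring
    refine ⟨(((hE s hs).1.mul d1.continuousAt).add d2.continuousAt).mul d3.continuousAt, ?_⟩
    refine (((((hE s hs).2.mul_pos d1 (by positivity)).add_hasDerivAt d2).mul_pos d3
      (Real.exp_pos _))).mono ?_
    have e := Real.sq_sqrt h2.le
    have := alg_S2 (r := Real.sqrt (lam s)) (g := g s) hC hρ0 (by positivity) (hσ s hs) h3 h4
      (Real.sqrt_pos.2 h2) (by rw [e]; exact h5) (ha s hs).2.1 (hav s hs) (by rw [e]) h7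
      (hH s hs) (hX s hs) h9
    rw [e] at this
    convert this using 3
    ring
  have hHX : ∀ s, s1 < s → H s ≤ H s * X s := fun s hs =>
    le_mul_of_one_le_right (by linarith [hH s hs, show 0 ≤ v s ^ 4 by positivity]) (hX s hs)
  have hA : ∀ S T, s1 < S → S ≤ T → H T * X T ≤ H S * X S := fun S T hS hT =>
    anti_S2 (f := fun z => H z * X z) (fun s hs => ⟨(hΨ s hs).1,
      (hΨ s hs).2.mono (neg_nonpos.2 (by positivity))⟩) hS hT
  have hκ1 : 0 < κ - 1 := by linarith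
  obtain ⟨w, hw⟩ := conv_S2 (v := v) (Ψ := fun z => H z * X z) (p := (κ - 1) / 2)
    (A := 8 * C ^ 2 * r1 / (κ - 1)) h1 (by linarith)
    (fun s hs => by linarith [hHX s hs, hH s hs, show 0 ≤ v s ^ 4 by positivity]) hA
    (fun θ hθ S T hS hT => by
      set B := 8 * C ^ 2 * r1 / (κ - 1) / θ with hB
      have hB0 : 0 ≤ B := by positivity
      have key : ∀ η : ℝ, |η| = 1 → η * v T + B * T ^ (1 - κ) + H T * X T * θ ≤
          η * v S + B * S ^ (1 - κ) + H S * X S * θ := fun η hη => by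
        have := anti_S2 (s1 := s1)
          (f := fun z => H z * X z * θ + (η * v z + B * z ^ (1 - κ))) (fun s hs => by
            obtain ⟨v', h6, h7⟩ := hv s hs
            have hs0 : 0 < s := by linarith
            have d1 := (h6.const_mul η).fun_add
              ((Real.hasDerivAt_rpow_const (x := s) (p := 1 - κ) (Or.inl hs0.ne')).const_mul B)
            refine ⟨((hΨ s hs).1.mul continuousAt_const).add d1.continuousAt,
              (((hΨ s hs).2.mul_pos (hasDerivAt_const s θ) hθ).add_hasDerivAt d1).mono ?_⟩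
            have hq : 0 < s ^ κ := Real.rpow_pos_of_pos hs0 κ
            have e1 : s ^ (1 - κ - 1) = (s ^ κ)⁻¹ := by
              rw [← Real.rpow_neg hs0.le]
              congr 1
              ring
            have e2 : B * ((1 - κ) * (s ^ κ)⁻¹) = -(8 * C ^ 2 / θ * (r1 / s ^ κ)) := by
              rw [hB]
              field_simp
              ring
            have h2 : lam s ≤ r1 / s ^ κ := (le_div_iff₀ hq).2 (hl s hs).2.2
            have h3 := mul_le_mul_of_nonneg_left h2 (show 0 ≤ 8 * C ^ 2 / θ by positivity)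
            have h4 : η * v' ≤ C * Real.sqrt (lam s) * g s := by
              refine (le_abs_self _).trans ?_
              rwa [abs_mul, hη, one_mul]
            have h5 : C * Real.sqrt (lam s) * g s ≤ g s ^ 2 / 32 * θ + 8 * C ^ 2 / θ * lam s := by
              have e := Real.sq_sqrt (ht s hs).1.le
              set r := Real.sqrt (lam s)
              rw [← e, ← sub_nonneg]
              have : g s ^ 2 / 32 * θ + 8 * C ^ 2 / θ * r ^ 2 - C * r * g s =
                  (g s * θ - 16 * C * r) ^ 2 / (32 * θ) := by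
                field_simp
                ring
              rw [this]
              positivity
            rw [e1, e2]
            linarith) hS hT
        linarith
      have hS0 : 0 < S := by linarith
      have e : ((S ^ ((κ - 1) / 2))⁻¹) ^ 2 = S ^ (1 - κ) := by
        rw [← Real.rpow_neg hS0.le, sq, ← Real.rpow_add hS0]
        congr 1
        ring
      have h2 : 0 ≤ B * T ^ (1 - κ) :=
        mul_nonneg hB0 (Real.rpow_nonneg (by linarith) _)
      have h3 := key 1 (by simp)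
      have h4 := key (-1) (by simp)
      rw [e, abs_le]
      constructor <;> linarith)
  set P := H (s1 + 1) * X (s1 + 1)
  refine ⟨max (P / c) P, w, (eventually_ge_atTop (s1 + 1)).mono fun s hs => ?_, hw⟩
  have hs' : s1 < s := by linarith
  have h2 := (ht s hs').1
  have h3 : H s ≤ P := (hHX s hs').trans (hA _ _ (by linarith) hs)
  have h4 := hkH s hs'
  constructor
  · have h5 : c * k s * (lam s ^ 2)⁻¹ ≤ P := by linarith [show 0 ≤ v s ^ 4 by positivity]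
    rw [← div_eq_mul_inv, div_le_iff₀ (by positivity)] at h5
    refine le_trans ?_ (mul_le_mul_of_nonneg_right (le_max_left _ _) (by positivity))
    rw [div_mul_eq_mul_div, le_div_iff₀ hc]
    linarith
  · rw [hav2 s hs']
    refine mul_le_mul_of_nonneg_right (le_trans ?_ (le_max_right _ _)) h2.le
    nlinarith [hH s hs', sq_nonneg (v s ^ 2 - 1)]

end

end Pool.Agent.MP_8339a4_an

end

section

/-! The energy on the right of the step. -/

open MeasureTheory Filter Topology Set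

namespace Pool.Agent.MP_8339a4_an

theorem pt_R3 (y : ℝ) {e p W1 W3 γ d τ g : ℝ} (he : |e| ≤ 1 / 10) (hγ : |γ| ≤ 1 / 10)
    (hW : 0 ≤ W1) (h3 : |W3| ≤ 1 / 10000 * W1) (hd : |d| * W1 ≤ 1 / 10 * W1 + τ) (hτ : 0 ≤ τ)
    (hg : 1 ≤ g) (hWg : W1 ≤ τ * g) :
    20 * (Q y + e) ^ 4 * (Q1 y + p) ^ 2 * W1 - (Q y + e) ^ 10 * W1 - (Q y + e) ^ 6 * W3 / 3
      + (Q1 y + p) ^ 2 * W3 - (1 + γ) * (((Q1 y + p) ^ 2 - (Q y + e) ^ 6 / 3) * W1)
      + ((Q1 y + p) ^ 2 - (Q y + e) ^ 6 / 3) * (W1 * d)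
      ≤ -(1 / 2) * (W1 * p ^ 2) + W1 * e ^ 6
        + τ * (2300 * (g * Q y * (1 + p ^ 2)) + p ^ 2 + e ^ 2) := by
  have hq := Q_pos y
  have hq1 := Q_le y
  have he1 : |e| ≤ 1 := he.trans (by norm_num)
  have a1 := abs_le.1 (abs_sqy_sub_le y p)
  have b1 := (abs_le.1 (abs_pow6_sub_le y he1)).2
  have e2 : e ^ 2 ≤ 1 / 100 := by
    have := pow_le_pow_left₀ (abs_nonneg e) he 2
    rw [sq_abs] at this
    linarith
  have e4 : e ^ 4 ≤ 1 / 10000 := by
    have := pow_le_pow_left₀ (sq_nonneg e) e2 2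
    linarith
  have e6 : e ^ 6 ≤ e ^ 2 := by
    have := mul_le_mul_of_nonneg_left e4 (sq_nonneg e)
    nlinarith [sq_nonneg e]
  have q4 : Q y ^ 4 ≤ 64 / 27 * Q y := by
    have := mul_le_mul_of_nonneg_right (pow_le_pow_left₀ hq.le hq1 3) hq.le
    linarith
  have c1 : (Q y + e) ^ 4 ≤ 19 * Q y + 1 / 1000 := by
    have h1 : (Q y + e) ^ 2 ≤ 2 * (Q y ^ 2 + e ^ 2) := by nlinarith [sq_nonneg (Q y - e)]
    have h2 := pow_le_pow_left₀ (sq_nonneg _) h1 2
    nlinarith [sq_nonneg (Q y ^ 2 - e ^ 2)]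
  have h10 : 0 ≤ (Q y + e) ^ 10 * W1 := by positivity
  have ha : 0 ≤ (Q1 y + p) ^ 2 := sq_nonneg _
  have hb : 0 ≤ (Q y + e) ^ 6 := by positivity
  generalize (Q1 y + p) ^ 2 = a at *
  generalize (Q y + e) ^ 6 = b at *
  generalize (Q y + e) ^ 4 = c at *
  generalize (Q y + e) ^ 10 = c' at *
  have hp : 0 ≤ p ^ 2 := sq_nonneg p
  have hE : Q y ≤ Q y * (1 + p ^ 2) := le_mul_of_one_le_right hq.le (by linarith)
  have a2 : Q y * a ≤ 5 * (Q y * (1 + p ^ 2)) := by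
    have h1 : Q y * (1 + p ^ 2) ≤ 4 / 3 * (1 + p ^ 2) :=
      mul_le_mul_of_nonneg_right hq1 (by linarith)
    have h2 : a ≤ 5 * (1 + p ^ 2) := by linarith
    have := mul_le_mul_of_nonneg_left h2 hq.le
    linarith
  have a3 : p ^ 2 - 3 * (Q y * (1 + p ^ 2)) ≤ a := by linarith
  have a4 : a ≤ p ^ 2 + 3 * (Q y * (1 + p ^ 2)) := by linarith
  have b2 : b ≤ e ^ 6 + 150 * (Q y * (1 + p ^ 2)) := by linarith
  have eg : g * Q y * (1 + p ^ 2) = g * (Q y * (1 + p ^ 2)) := by ring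
  rw [eg]
  have hE0 : 0 ≤ Q y * (1 + p ^ 2) := hq.le.trans hE
  generalize Q y * (1 + p ^ 2) = E at *
  have hEg : E ≤ g * E := le_mul_of_one_le_left hE0 hg
  have haW : 0 ≤ a * W1 := mul_nonneg ha hW
  have hbW : 0 ≤ b * W1 := mul_nonneg hb hW
  have t1 := mul_le_mul_of_nonneg_right c1 haW
  have t2 := mul_le_mul_of_nonneg_right a2 hW
  have t3 := mul_le_mul_of_nonneg_left (abs_le.1 h3).1 hb
  have t4 := mul_le_mul_of_nonneg_left (abs_le.1 h3).2 ha
  have t5 := mul_le_mul_of_nonneg_right (abs_le.1 hγ).1 haW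
  have t6 := mul_le_mul_of_nonneg_right (abs_le.1 hγ).2 hbW
  have d1 : d * W1 ≤ 1 / 10 * W1 + τ := (mul_le_mul_of_nonneg_right (le_abs_self d) hW).trans hd
  have d2 : -d * W1 ≤ 1 / 10 * W1 + τ := (mul_le_mul_of_nonneg_right (neg_le_abs d) hW).trans hd
  have t7 := mul_le_mul_of_nonneg_left d1 ha
  have t8 := mul_le_mul_of_nonneg_left d2 hb
  have t9 := mul_le_mul_of_nonneg_right a3 hW
  have t10 := mul_le_mul_of_nonneg_right b2 hW
  have t11 := mul_le_mul_of_nonneg_left hWg hE0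
  have t12 := mul_le_mul_of_nonneg_left a4 hτ
  have t13 := mul_le_mul_of_nonneg_left b2 hτ
  have t14 := mul_le_mul_of_nonneg_left e6 hτ
  have t15 := mul_le_mul_of_nonneg_left hEg hτ
  have t16 : 0 ≤ τ * b := mul_nonneg hτ hb
  have t17 : 0 ≤ τ * E := mul_nonneg hτ hE0
  linarith

theorem r3 : R3Stmt := by
  intro X
  have hK := X.K_pos
  have hr0 := X.r0_pos
  have hM := X.M_nonneg
  obtain ⟨δ, d0, d1, d2⟩ : ∃ δ : ℝ, 0 < δ ∧ δ ≤ 1 / 10 ∧ δ * (X.K / X.r0) ^ 2 ≤ 1 / 30000 := by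
    have h1 : 0 < (X.K / X.r0) ^ 2 := by positivity
    refine ⟨min (1 / 10) (1 / 30000 / (X.K / X.r0) ^ 2), by positivity, min_le_left _ _, ?_⟩
    exact (le_div_iff₀ h1).1 (min_le_right _ _)
  refine ⟨69033 + X.M, ?_⟩
  filter_upwards [X.ev_gt, X.ev_sup d0, X.ev_ey one_pos, X.ev_par (show (0 : ℝ) < 1 / 10 by norm_num),
    X.ev_tail (show (0 : ℝ) < 1 / 10 by norm_num)] with s hs hsup hey hpar htail
  have hr := X.r_pos hs
  have s1 := X.one_lt hs
  have hτ := (X.tau_pos (by linarith : 0 < s)).le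
  have wt := wt_ph hr hK (X.A s)
  have hw := mw_ph (X.hasDerivAt_r hs) (X.hasDerivAt_A hs) hr hK
  have hd := mov_l1_dini (X.h1tU hs).en hw ((X.st.flow s hs).d2 _ _ _ _ wt
    (fun y => (ph1_pos hr hK _ y).le) _ _ IsH1.zero)
  refine DiniLe.mono hd ?_
  have h1 := X.h1 hs
  have ien := (X.h1tU hs).en.2.1
  have ifl := ((X.h1tU hs).fl2 IsH1.zero wt.b1 wt.b2 wt.b3).2.1
  have i0 := integrable_mul_bdd ien wt.b0
  have i1 := ((ifl.sub ((integrable_mul_bdd ien wt.b1).const_mul (1 + X.γ s))).sub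
    (i0.const_mul (2 * X.β s))).add ((integrable_mul_bdd ien wt.by1).const_mul (X.β s))
  have i2 := integrable_mul_bdd ien hw.bdd_wt
  have j1 := integrable_bdd_mul (integrable_sq2 h1.2.1) wt.b1
  have j2 := integrable_bdd_mul (h1.integrable_pow 4) wt.b1
  have j3 := integrable_envp h1.2.1
  have j4 := integrable_sq2 h1.2.1
  have j5 := integrable_sq2 h1.1
  have j6 := ((j3.const_mul 2300).add j4).add j5
  have key := integral_mono ((i1.add i2).add (i0.const_mul (2 * X.β s)))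
    (((j1.const_mul (-(1 / 2))).add j2).add (j6.const_mul (X.tau s))) fun y => by
      have hrK : X.r s / X.K ≤ 1 / 100 := by
        rw [div_le_iff₀ hK]
        linarith [X.r_le_K hs]
      have hp1 := (ph1_pos hr hK (X.A s) y).le
      have g1 : Real.exp (|y| / 100) ≤ Real.exp (|y| / 10) * (1 + y ^ 2) :=
        (Real.exp_le_exp.2 (by linarith [abs_nonneg y])).trans
          (le_mul_of_one_le_right (Real.exp_pos _).le (by linarith [sq_nonneg y]))
      have := pt_R3 y (p := X.ey s y) (d := X.dr s y) ((hsup y).trans d1) hpar.2 hp1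
        ((abs_ph3_le hr hK (X.A s) y).trans (mul_le_mul_of_nonneg_right
          ((pow_le_pow_left₀ (by positivity) hrK 2).trans (by norm_num)) hp1))
        (htail y) hτ ((Real.one_le_exp (by positivity)).trans g1)
        ((ph1_le_tiny hr (X.r_le_K hs) _ y).trans
          (mul_le_mul (X.exp_le_tau s1.le) g1 (Real.exp_pos _).le hτ))
      have e1 : (X.r s * (-X.β s + X.κ / s) * y - X.CA / s) / X.r s = -X.β s * y + X.dr s y := by
        unfold Dat.dr
        field_simp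
        ring
      simp only [Pi.add_apply, Pi.sub_apply, e1, fl2, en]
      linarith
  simp only [Pi.add_apply, Pi.sub_apply] at key
  erw [integral_add (i1.add i2) (i0.const_mul _), integral_add i1 i2,
    integral_add ((j1.const_mul _).add j2) (j6.const_mul _), integral_add (j1.const_mul _) j2,
    integral_const_mul, integral_const_mul, integral_const_mul,
    integral_add ((j3.const_mul _).add j4) j5, integral_add (j3.const_mul _) j4,
    integral_const_mul] at key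
  have k1 := integral_envp_le h1.2.1 hey
  have k2 := X.st.mass s hs
  have k3 := poin_pow6 hr hK (X.A s) h1 hsup
  have hf := X.f_nonneg hs
  have k4 : δ ^ 4 * (X.K / X.r s) ^ 2 ≤ 1 / 30000 := by
    refine le_trans (mul_le_mul ?_ ?_ (by positivity) d0.le) d2
    · exact pow_le_of_le_one d0.le (by linarith) (by norm_num)
    · gcongr
      exact X.r_ge hs
  have k5 := mul_le_mul_of_nonneg_right k4 hf
  have k6 : 0 ≤ X.a s ^ 6 := by positivity
  have k7 := mul_le_mul_of_nonneg_left (show 2300 * (∫ y, Real.exp (|y| / 10) * (1 + y ^ 2) * Q y *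
    (1 + X.ey s y ^ 2)) + (∫ y, X.ey s y ^ 2) + ∫ y, X.e s y ^ 2 ≤ 69001 + X.M by linarith) hτ
  have k8 := mul_nonneg hM k6
  rw [one_mul]
  change _ ≤ -(1 / 2) * X.f s + _ + _ at key
  change _ ≤ 32 * X.a s ^ 6 + 8192 * δ ^ 4 * (X.K / X.r s) ^ 2 * X.f s at k3
  change rhs2 (X.β s) (X.γ s) (X.e s) (X.ey s) (fun _ => 0) (fun _ => 0) (ph (X.r s) (X.A s) X.K)
    (ph1 (X.r s) (X.A s) X.K) (ph2 (X.r s) (X.A s) X.K) (ph3 (X.r s) (X.A s) X.K) + _
      + 2 * X.β s * X.E s ≤ _ at key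
  linarith

end Pool.Agent.MP_8339a4_an

end

section

/-! The terms quadratic in the remainder and linear in the parameters. -/

open MeasureTheory Filter Topology Set

namespace Pool.Agent.MP_8339a4_an

theorem mono_I3 {f g : ℝ → ℝ} (hg : Integrable g) (h0 : ∀ y, 0 ≤ g y) (h : ∀ y, f y ≤ g y) :
    ∫ y, f y ≤ ∫ y, g y := by
  by_cases hf : Integrable f
  · exact integral_mono hf hg h
  · rw [integral_undef hf]
    exact integral_nonneg h0

theorem alg_I3 {β γ δ W W1 φ E P p2 e2 e6 q R : ℝ} (hβ : |β| ≤ δ) (hγ : |γ| ≤ δ) (hδ : δ ≤ 1)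
    (h1 : 0 ≤ W1) (h2 : W1 ≤ W) (h3 : W ≤ E) (h4 : W1 ≤ E * P) (φ0 : 0 ≤ φ) (φ1 : φ ≤ 1)
    (p0 : 0 ≤ p2) (e0 : 0 ≤ e2) (e60 : 0 ≤ e6) (r1 : |R| ≤ 40 * q + e6 / 3)
    (r2 : |R| ≤ 54 * e2) :
    -(γ * W1 * (p2 + e2 - R)) - 2 * β * W * (p2 - R) ≤ 163 * δ * (W * (1 - φ) * (e2 + p2)) +
      E * (3 * (φ * p2) + 55 * (φ * P * e2) + φ * e6 + 80 * (φ * q)) := by
  have δ0 : 0 ≤ δ := (abs_nonneg _).trans hβ
  have W0 : 0 ≤ W := h1.trans h2
  have E0 : 0 ≤ E := W0.trans h3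
  have φ2 : 0 ≤ 1 - φ := sub_nonneg.2 φ1
  have a1 : |p2 + e2 - R| ≤ p2 + 55 * e2 := by
    rw [abs_le] at r2 ⊢
    constructor <;> linarith [r2.1, r2.2]
  have a2 : |p2 - R| ≤ p2 + |R| := (abs_sub _ _).trans (by rw [abs_of_nonneg p0])
  have b1 : -(γ * W1 * (p2 + e2 - R)) ≤ δ * (W1 * (p2 + 55 * e2)) := by
    refine (neg_le_abs _).trans ?_
    rw [mul_assoc, abs_mul, abs_mul, abs_of_nonneg h1]
    gcongr
  have b2 : -(2 * β * W * (p2 - R)) ≤ 2 * (δ * (W * (p2 + |R|))) := by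
    refine (neg_le_abs _).trans ?_
    rw [mul_assoc, mul_assoc, abs_mul, abs_mul, abs_mul, abs_of_nonneg W0, abs_two]
    gcongr
  have c1 : δ * (W1 * (1 - φ) * (p2 + 55 * e2)) ≤ δ * (W * (1 - φ) * (55 * (e2 + p2))) := by
    gcongr
    linarith
  have c2 : δ * (W1 * (φ * p2)) ≤ 1 * (E * (φ * p2)) := by
    gcongr
    exact h2.trans h3
  have c3 : δ * (W1 * (φ * e2)) ≤ 1 * (E * P * (φ * e2)) := by gcongr
  have c4 : δ * (W * (1 - φ) * (p2 + |R|)) ≤ δ * (W * (1 - φ) * (54 * (e2 + p2))) := by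
    gcongr
    linarith
  have c5 : δ * (W * (φ * (p2 + |R|))) ≤ 1 * (E * (φ * (p2 + (40 * q + e6 / 3)))) := by gcongr
  have c6 : 0 ≤ E * (φ * e6) := by positivity
  linarith

theorem static_I3 {r A K B β γ δ : ℝ} (h : WP r A K B) {e ey : ℝ → ℝ} (he : IsH1 e ey)
    (h1 : ∀ y, |e y| ≤ 1) (h2 : ∫ y, ey y ^ 2 ≤ 1) (hβ : |β| ≤ δ) (hγ : |γ| ≤ δ) (hδ : δ ≤ 1) :
    ∫ y, hT3 β γ y (e y) (ey y) (WW r A B y) (WW1 r A B y) ≤ 163 * δ * qD r A K B e ey +
      Real.exp (A / B) * (3 * qK r A K ey + 55 * (∫ y, ph r A K y * P1 ((r * y - A) / B) * e y ^ 2)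
        + q6 r A K e + 80 * (30 * Real.exp (-(A / K)))) := by
  have δ0 : 0 ≤ δ := (abs_nonneg _).trans hβ
  have i1 : Integrable fun y => pM r A K B y * (e y ^ 2 + ey y ^ 2) :=
    integrable_bdd_mul ((integrable_sq2 he.1).add (integrable_sq2 he.2.1)) (bdd_pM r A K B)
  have i2 : Integrable fun y => ph r A K y * ey y ^ 2 :=
    integrable_bdd_mul (integrable_sq2 he.2.1) (bdd_ph r A K)
  have i3 : Integrable fun y => ph r A K y * P1 ((r * y - A) / B) * e y ^ 2 :=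
    integrable_bdd_mul (integrable_sq2 he.1)
      ((bdd_ph r A K).mul (expD_P1.bdd.comp (by fun_prop)))
  have i4 : Integrable fun y => ph r A K y * e y ^ 6 :=
    integrable_bdd_mul (he.integrable_pow 4) (bdd_ph r A K)
  have i5 : Integrable fun y => ph r A K y * (Q y * e y ^ 2) :=
    integrable_bdd_mul (integrable_bdd_mul (integrable_sq2 he.1) expD_Q.bdd) (bdd_ph r A K)
  have sq1 : ∀ y, e y ^ 2 ≤ 1 := fun y => by
    rw [← sq_abs]
    exact pow_le_one₀ (abs_nonneg _) (h1 y)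
  have t5 : ∫ y, ph r A K y * (Q y * e y ^ 2) ≤ 30 * Real.exp (-(A / K)) := by
    refine (le_abs_self _).trans (abs_integral_le_envp he.2.1 h2 (Real.exp_pos _).le fun y => ?_)
    have hq := Q_pos y
    have hp := ph_pos r A K y
    rw [abs_of_nonneg (by positivity)]
    calc ph r A K y * (Q y * e y ^ 2)
        ≤ Real.exp (-(A / K)) * Real.exp (|y| / 100) * (Q y * 1) := by
          gcongr
          · exact ph_le_tiny h.hr h.hK A y
          · exact sq1 y
      _ = Real.exp (-(A / K)) * (Real.exp (|y| / 100) * 1 * Q y * 1) := by ring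
      _ ≤ _ := by
          gcongr
          · norm_num
          · exact le_add_of_nonneg_right (sq_nonneg _)
          · exact le_add_of_nonneg_right (sq_nonneg _)
  have j1 := (i2.const_mul 3).add (i3.const_mul 55)
  have j2 := j1.add i4
  have j3 := j2.add (i5.const_mul 80)
  refine (mono_I3 ((i1.const_mul (163 * δ)).add (j3.const_mul (Real.exp (A / B))))
    (fun y => ?_) fun y => ?_).trans ?_
  · have := pM_pos r A K B y
    have := ph_pos r A K y
    have := P1_pos ((r * y - A) / B)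
    have := Q_pos y
    simp only [Pi.add_apply]
    positivity
  · have r1 := abs_PP_le y (h1 y)
    have r2 : |PP y (e y)| ≤ 54 * e y ^ 2 := by
      have := mul_le_mul_of_nonneg_right (Q_le y) (sq_nonneg (e y))
      have h6 : e y ^ 6 ≤ e y ^ 2 := by
        have := pow_le_of_le_one (sq_nonneg (e y)) (sq1 y) (n := 3) (by norm_num)
        rwa [← pow_mul] at this
      linarith [sq_nonneg (e y)]
    rw [mul_assoc] at r1
    exact alg_I3 hβ hγ hδ (WW1_pos h.hr h.B_pos A y).le (h.WW1_le_WW y) (WW_le r A B y)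
      (h.WW1_le_P1 y) (ph_pos r A K y).le (ph_lt_one r A K y).le (sq_nonneg _) (sq_nonneg _)
      (by positivity) r1 r2
  · rw [integral_add' (i1.const_mul _) (j3.const_mul _), integral_const_mul, integral_const_mul,
      integral_add' j2 (i5.const_mul _), integral_add' j1 i4,
      integral_add' (i2.const_mul _) (i3.const_mul _), integral_const_mul, integral_const_mul,
      integral_const_mul]
    unfold qD qK q6
    gcongr

theorem i3 : I3Stmt := by
  intro X B hB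
  have hB0 : 0 < B := by linarith [X.CA_pos]
  obtain ⟨C, hC, hz⟩ := X.zl hB0
  refine ⟨2400 + 55 * C, fun ε hε => ?_⟩
  have hδ : 0 < min 1 (ε / 163) := lt_min one_pos (by positivity)
  filter_upwards [X.ev_gt, X.ev_sup one_pos, X.ev_ey one_pos, X.ev_par hδ] with s hs h1 h2 h3
  have hs1 := (X.one_lt hs).le
  refine (static_I3 (X.wp hs hB) (X.h1 hs) h1 h2 h3.1 h3.2 (min_le_left _ _)).trans
    (add_le_add ?_ ?_)
  · refine mul_le_mul_of_nonneg_right ?_ (X.D_nonneg B s)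
    linarith [min_le_right 1 (ε / 163)]
  · have a1 := X.Kf_nonneg s
    have a2 := X.k6_nonneg s
    have a3 := X.tau_pos (s := s) (by linarith)
    have a4 := X.exp_le_tau hs1
    have a5 := hz s hs
    have a6 := sq_nonneg (X.a s)
    have a7 : 0 ≤ X.Z s := by
      unfold Dat.Z
      positivity
    calc _ ≤ Real.exp (X.A s / B) * ((2400 + 55 * C) * X.Z s) := by
          refine mul_le_mul_of_nonneg_left ?_ (Real.exp_pos _).le
          have b1 := mul_nonneg hC a2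
          have b2 := mul_nonneg hC a3.le
          change 3 * X.Kf s + _ + X.k6 s + _ ≤ _
          unfold Dat.Z
          nlinarith
      _ ≤ Lm s * ((2400 + 55 * C) * X.Z s) :=
          mul_le_mul_of_nonneg_right (X.exp_le_Lm hB hs1) (by positivity)
      _ = _ := by ring

end Pool.Agent.MP_8339a4_an

end
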