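import Pool.Agent.Mg.F8339a4.Gaa52d0
import Pool.Agent.Mg.F8339a4.G100cd9
import Pool.Agent.Mg.F8339a4.G4591f5

section

/-! Global coercivity of the energy. -/

open MeasureTheory Filter Topology Set

namespace Pool.Agent.MP_8339a4_an

theorem integrable_en_G0 {f g : ℝ → ℝ} (h : IsH1 f g) : Integrable (fun y => en (f y) (g y)) :=
  (integrable_sq2 h.2.1).sub ((h.integrable_pow 4).div_const 3)

theorem key_G0 {c C : ℝ} (hC : ∀ y e : ℝ, PP y e ≤ (1 + c) * e ^ 6 / 3 + C * (Q y * e ^ 2))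
    {e ey : ℝ → ℝ} (he : IsH1 e ey) :
    (∫ y, (ey y ^ 2 - (1 + c) * e y ^ 6 / 3)) ≤
      (∫ y, en (Q y + e y) (Q1 y + ey y)) + 2 * mu e + C * N0 e := by
  have i1 := integrable_en_G0 (isH1_Q.add he)
  have i2 := integrable_en_G0 isH1_Q
  have i3 := (integrable_mul2 expD_Q2.memLp he.1).const_mul 2
  have i4 := (integrable_mul2 expD_Q1.memLp he.2.1).const_mul 2
  have i5 := (integrable_mul2 he.1 expD_Q.memLp).const_mul 2
  have i6 := (integrable_bdd_mul (integrable_sq2 he.1) expD_Q.bdd).const_mul C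
  have i0 : Integrable (fun y => ey y ^ 2 - (1 + c) * e y ^ 6 / 3) :=
    (integrable_sq2 he.2.1).sub (((he.integrable_pow 4).const_mul (1 + c)).div_const 3)
  have j1 : Integrable (fun y => en (Q y + e y) (Q1 y + ey y) - en (Q y) (Q1 y)) := i1.sub i2
  have j2 : Integrable (fun y => en (Q y + e y) (Q1 y + ey y) - en (Q y) (Q1 y)
      - 2 * (Q2 y * e y)) := j1.sub i3
  have j3 : Integrable (fun y => en (Q y + e y) (Q1 y + ey y) - en (Q y) (Q1 y)
      - 2 * (Q2 y * e y) - 2 * (Q1 y * ey y)) := j2.sub i4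
  have j4 : Integrable (fun y => en (Q y + e y) (Q1 y + ey y) - en (Q y) (Q1 y)
      - 2 * (Q2 y * e y) - 2 * (Q1 y * ey y) + 2 * (e y * Q y)) := j3.add i5
  have h1 := integral_mono i0 (j4.add i6) (fun y => by
    have := hC y (e y)
    simp only [Pi.add_apply]
    unfold PP at this
    unfold en Q2
    nlinarith [this])
  simp only [Pi.add_apply] at h1
  rw [integral_add j4 i6, integral_add j3 i5, integral_sub j2 i4, integral_sub j1 i3,
    integral_sub i1 i2, integral_const_mul, integral_const_mul, integral_const_mul,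
    integral_const_mul, integral_en_Q, test_Q.h2.ibp he] at h1
  unfold mu N0
  linarith

theorem g0 (h : NagyGStmt) : G0Stmt := by
  intro M d hd
  obtain ⟨c, C, hc, h⟩ := h M d hd
  obtain ⟨C', hC⟩ := PP_le hc
  refine ⟨c, max (max C C') 0, hc, le_max_right _ _, fun l e ey hl he hM hL => ?_⟩
  have h1 := h l e ey hl he hM hL
  have h2 := key_G0 hC he
  have h3 : C / l ^ 2 ≤ max (max C C') 0 * (1 / l ^ 2) := by
    rw [div_eq_mul_one_div]
    exact mul_le_mul_of_nonneg_right ((le_max_left _ _).trans (le_max_left _ _)) (by positivity)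
  have h4 : C' * N0 e ≤ max (max C C') 0 * N0 e :=
    mul_le_mul_of_nonneg_right ((le_max_right _ _).trans (le_max_left _ _)) (N0_nonneg e)
  rw [mul_add]
  linarith

end Pool.Agent.MP_8339a4_an

end

section

/-! Control of the modulation parameters. -/

open MeasureTheory Filter Topology Set

namespace Pool.Agent.MP_8339a4_an

theorem lin_ParJ {e g : ℝ → ℝ} (he : MemLp e 2 volume) (hg : Continuous g) {C : ℝ} (hC : 0 ≤ C)
    (h : ∀ y, |g y| ≤ C * ((1 + |y|) * Q y)) : |∫ y, e y * g y| ≤ 7 * C * Real.sqrt (N0 e) := by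
  have h1 := sq_integral_le_N0 he hg (C := C) fun y => (h y).trans (by
    have h2 : 1 ≤ Real.exp (|y| / 20) := Real.one_le_exp (by positivity)
    have h3 : 0 ≤ (1 + |y|) * Q y := mul_nonneg (by positivity) (Q_pos y).le
    refine mul_le_mul_of_nonneg_left ?_ hC
    rw [mul_assoc]
    exact le_mul_of_one_le_left h3 h2)
  refine abs_le_of_sq_le_sq (h1.trans ?_) (by positivity)
  rw [mul_pow, Real.sq_sqrt (N0_nonneg e)]
  exact mul_le_mul_of_nonneg_right (by nlinarith [sq_nonneg C]) (N0_nonneg e)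

theorem gen_ParJ {θ θ1 θ2 θ3 : ℝ → ℝ} (hT : Test θ θ1 θ2 θ3) (h0 : ∀ y, |θ y| ≤ 140 * Q y)
    (h1 : ∀ y, |θ1 y| ≤ 140 * Q y) (h3 : ∀ y, |θ3 y| ≤ 140 * Q y) {e ey : ℝ → ℝ}
    (he : IsH1 e ey) (hb : ∀ y, |e y| ≤ 1) (hN : N0 e ≤ 1) {β γ : ℝ}
    (h : rhs0 β γ e θ θ1 θ3 = 0) :
    |β * (∫ y, LQ y * θ y) - γ * ∫ y, Q1 y * θ y| ≤
      30000 * Real.sqrt (N0 e) * (1 + |β| + |γ|) := by
  have hc := he.continuous
  have g1 : ExpD fun y => θ3 y - θ1 y + V y * θ1 y :=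
    (hT.e3.sub hT.e1).add (hT.e1.bdd_mul expD_V.bdd)
  have g2 : ExpD fun y => θ y / 2 + y * θ1 y := (hT.e0.div_const 2).add hT.e1.id_mul
  have bN : Bdd fun y => NN y (e y) := ⟨by
    have := expD_Q.1
    unfold NN
    fun_prop, 50, fun y => (abs_NN_le y (hb y)).trans (by
      have := sq_le_one_iff_abs_le_one (e y) |>.2 (hb y)
      linarith)⟩
  have i1 := (g1.bdd_mul he.bdd).integrable
  have i2 := (hT.e1.bdd_mul bN).integrable
  have i3 := ((hT.e0.bdd_mul expD_LQ.bdd).integrable).const_mul β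
  have i4 := ((hT.e0.bdd_mul expD_Q1.bdd).integrable).const_mul γ
  have i5 := ((g2.bdd_mul he.bdd).integrable).const_mul β
  have i6 := ((hT.e1.bdd_mul he.bdd).integrable).const_mul γ
  have j2 := i1.add i2
  have j3 := j2.sub i3
  have j4 := j3.add i4
  have j5 := j4.add i5
  unfold rhs0 at h
  erw [integral_sub j5 i6, integral_add j4 i5, integral_add j3 i4, integral_sub j2 i3,
    integral_add i1 i2] at h
  simp only [integral_const_mul] at h
  have a1 := lin_ParJ he.1 g1.1 (C := 2380) (by norm_num) fun y => by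
    have q := Q_pos y
    have v : |V y * θ1 y| ≤ 15 * (140 * Q y) := by
      rw [abs_mul, abs_of_nonneg (V_nonneg y)]
      exact mul_le_mul (V_le y) (h1 y) (abs_nonneg _) (by norm_num)
    have w := (abs_add_le (θ3 y - θ1 y) (V y * θ1 y)).trans
      (add_le_add (abs_sub (θ3 y) (θ1 y)) le_rfl)
    have := mul_nonneg (abs_nonneg y) q.le
    nlinarith [h1 y, h3 y]
  have a5 := lin_ParJ he.1 g2.1 (C := 140) (by norm_num) fun y => by
    have q := Q_pos y
    have w := abs_add_le (θ y / 2) (y * θ1 y)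
    rw [abs_div, abs_mul, abs_two] at w
    have := mul_le_mul_of_nonneg_left (h1 y) (abs_nonneg y)
    nlinarith [h0 y]
  have a6 := lin_ParJ he.1 hT.e1.1 (C := 140) (by norm_num) fun y => by
    have := mul_nonneg (abs_nonneg y) (Q_pos y).le
    nlinarith [h1 y]
  have a2 : |∫ y, NN y (e y) * θ1 y| ≤ 7000 * N0 e := by
    rw [N0, ← integral_const_mul]
    refine (abs_integral_le_integral_abs).trans (integral_mono i2.abs
      (((expD_Q.mul_bdd (he.bdd.pow 2)).integrable).const_mul _) fun y => ?_)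
    simp only [abs_mul]
    exact (mul_le_mul (abs_NN_le y (hb y)) (h1 y) (abs_nonneg _) (by positivity)).trans_eq
      (by ring)
  have n0 := Real.sqrt_nonneg (N0 e)
  have n1 : N0 e ≤ Real.sqrt (N0 e) := by
    have := Real.sq_sqrt (N0_nonneg e)
    have h5 : Real.sqrt (N0 e) ≤ 1 := Real.sqrt_le_one.2 hN
    nlinarith
  have e1 : β * (∫ y, LQ y * θ y) - γ * ∫ y, Q1 y * θ y =
      (∫ y, e y * (θ3 y - θ1 y + V y * θ1 y)) + (∫ y, NN y (e y) * θ1 y) +
        β * (∫ y, e y * (θ y / 2 + y * θ1 y)) - γ * ∫ y, e y * θ1 y := by linarith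
  rw [e1]
  have b5 := mul_le_mul_of_nonneg_left a5 (abs_nonneg β)
  have b6 := mul_le_mul_of_nonneg_left a6 (abs_nonneg γ)
  rw [← abs_mul] at b5 b6
  have c1 := mul_nonneg n0 (abs_nonneg β)
  have c2 := mul_nonneg n0 (abs_nonneg γ)
  obtain ⟨a1, a1'⟩ := abs_le.1 a1
  obtain ⟨a2, a2'⟩ := abs_le.1 a2
  obtain ⟨b5, b5'⟩ := abs_le.1 b5
  obtain ⟨b6, b6'⟩ := abs_le.1 b6
  refine abs_le.2 ⟨?_, ?_⟩ <;> nlinarith

theorem cube_ParJ (y : ℝ) {c : ℝ} (hc : |c| ≤ 78) : |c * Q y ^ 3| ≤ 140 * Q y := by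
  have q := Q_pos y
  have h : Q y ^ 2 ≤ (4 / 3) ^ 2 := pow_le_pow_left₀ q.le (Q_le y) 2
  rw [abs_mul, abs_of_pos (pow_pos q 3)]
  refine (mul_le_mul_of_nonneg_right hc (pow_pos q 3).le).trans ?_
  nlinarith

theorem zero_ParJ {f : ℝ → ℝ} {s w r : ℝ} (h : HasDerivAt f (w * r) s) (hw : w ≠ 0)
    (h0 : ∀ᶠ z in 𝓝 s, f z = 0) : r = 0 := by
  have h1 : HasDerivAt f 0 s := (hasDerivAt_const s (0 : ℝ)).congr_of_eventuallyEq h0
  exact (mul_eq_zero.1 (h.unique h1)).resolve_left hw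

theorem parJ : ParStmt := by
  obtain ⟨m, hm, m1, m2⟩ : ∃ m : ℝ, 0 < m ∧ m ≤ (∫ y, Q y ^ 4) / 4 ∧ m ≤ ∫ y, Q1 y ^ 2 :=
    ⟨_, lt_min (div_pos integral_Q4_pos four_pos) integral_Q1_sq_pos, min_le_left _ _,
      min_le_right _ _⟩
  refine ⟨min 1 ((m / 120000) ^ 2), (120000 / m) ^ 2, lt_min one_pos (by positivity),
    by positivity, fun e ey lam β γ w s F hw hb hN => ?_⟩
  have he : IsH1 (e s) (ey s) := F.h1t.2.1
  have r1 := zero_ParJ (F.d0 _ _ _ _ test_C0) hw (F.orth.mono fun _ h => h.1)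
  have r2 := zero_ParJ (F.d0 _ _ _ _ test_Q1) hw (F.orth.mono fun _ h => h.2)
  have hN1 := hN.trans (min_le_left _ _)
  have k1 := gen_ParJ test_C0
    (fun y => by simpa [C0] using cube_ParJ y (c := 1) (by norm_num))
    (fun y => by
      rw [C1, abs_neg]
      exact cube_ParJ y (by rw [abs_mul]; norm_num; linarith [abs_tn_lt y]))
    (fun y => cube_ParJ y (by
      have v : |7 * V y - 27| ≤ 78 := abs_le.2 ⟨by linarith [V_nonneg y], by linarith [V_le y]⟩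
      rw [abs_mul]
      exact (mul_le_mul (abs_tn_lt y).le v (abs_nonneg _) zero_le_one).trans_eq (one_mul _)))
    he hb hN1 r1
  have k2 := gen_ParJ test_Q1 (fun y => by linarith [abs_Q1_le y, Q_pos y])
    (fun y => by linarith [abs_Q2_le y, Q_pos y]) (fun y => by linarith [abs_Q4_le y, Q_pos y])
    he hb hN1 r2
  rw [integral_LQ_C0, integral_Q1_C0, mul_zero, sub_zero, abs_mul,
    abs_of_pos (hm.trans_le m1)] at k1
  simp only [← sq] at k2
  rw [integral_LQ_Q1, mul_zero, zero_sub, abs_neg, abs_mul, abs_of_pos (hm.trans_le m2)] at k2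
  have n0 := Real.sqrt_nonneg (N0 (e s))
  have n1 : Real.sqrt (N0 (e s)) ≤ m / 120000 :=
    Real.sqrt_le_iff.2 ⟨by positivity, hN.trans (min_le_right _ _)⟩
  have n2 := Real.sq_sqrt (N0_nonneg (e s))
  generalize Real.sqrt (N0 (e s)) = n at *
  have p1 := abs_nonneg (β s)
  have p2 := abs_nonneg (γ s)
  have t1 := mul_le_mul_of_nonneg_left m1 p1
  have t2 := mul_le_mul_of_nonneg_left m2 p2
  have t3 := mul_le_mul_of_nonneg_right n1 (add_nonneg p1 p2)
  have t4 : |β s| + |γ s| ≤ 120000 / m * n := by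
    rw [div_mul_eq_mul_div, le_div_iff₀ hm]
    nlinarith
  have t5 := pow_le_pow_left₀ (add_nonneg p1 p2) t4 2
  rw [mul_pow, n2] at t5
  nlinarith [sq_abs (β s), sq_abs (γ s), mul_nonneg p1 p2]

end Pool.Agent.MP_8339a4_an

end

section

/-! The Dini inequality for the functional `qH`. -/

open MeasureTheory Filter Topology Set

namespace Pool.Agent.MP_8339a4_an

variable {e p W W1 W2 W3 W4 : ℝ → ℝ}

theorem V1_eq_HH (y : ℝ) : V1 y = 20 * Q y ^ 3 * Q1 y := by unfold V1 V Q1; ring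

theorem prim_Q_HH : IsPrim Q Q1 := isH1_Q.isPrim
theorem prim_Q1_HH : IsPrim Q1 Q2 := test_Q.h2.isPrim
theorem prim_Q2_HH : IsPrim Q2 Q3 := test_Q.h3.isPrim
theorem prim_V_HH : IsPrim V V1 := IsPrim.of_hasDerivAt hasDerivAt_V expD_V1.1
theorem prim_id_HH : IsPrim (fun y => y) (fun _ => 1) :=
  IsPrim.of_hasDerivAt (fun y => hasDerivAt_id y) continuous_const

theorem prim_PP_HH (h : IsH1 e p) : IsPrim (fun y => PP y (e y))
    (fun y => 2 * (Q y + e y) ^ 5 * (Q1 y + p y) - 2 * Q y ^ 5 * Q1 y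
      - 10 * Q y ^ 4 * Q1 y * e y - 2 * Q y ^ 5 * p y) :=
  (((((prim_Q_HH.add h.isPrim).pow 5).sub (prim_Q_HH.pow 5)).sub
    (((prim_Q_HH.pow 4).mul h.isPrim).const_mul 6)).const_mul (1 / 3)).congr
    (fun y => by unfold PP; ring) (fun y => by push_cast; ring)

theorem prim_NN_HH (h : IsH1 e p) : IsPrim (fun y => NN y (e y))
    (fun y => 5 * (Q y + e y) ^ 4 * (Q1 y + p y) - 5 * Q y ^ 4 * Q1 y
      - 20 * Q y ^ 3 * Q1 y * e y - 5 * Q y ^ 4 * p y) :=
  ((((prim_Q_HH.add h.isPrim).pow 4).sub (prim_Q_HH.pow 4)).sub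
    (((prim_Q_HH.pow 3).mul h.isPrim).const_mul 5)).congr
    (fun y => by unfold NN; ring) (fun y => by push_cast; ring)

theorem int_PP_HH (h : IsH1 e p) : Integrable (fun y => PP y (e y)) := by
  have h1 := (((isH1_Q.add h).integrable_pow 4).sub (isH1_Q.integrable_pow 4)).sub
    ((((expD_Q.pow 4).mul_bdd h.bdd).const_mul 6).integrable)
  refine (h1.div_const 3).congr (Eventually.of_forall fun y => ?_)
  simp only [PP, Pi.sub_apply]
  ring

theorem bdd_NN_HH (h : IsH1 e p) : Bdd (fun y => NN y (e y)) :=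
  ((((isH1_Q.add h).bdd.pow 5).sub (expD_Q.bdd.pow 5)).sub
    (((expD_Q.bdd.pow 4).mul h.bdd).const_mul 5)).congr fun y => by unfold NN; ring

theorem int_hH_HH (h : IsH1 e p) : Integrable (fun y => hH y (e y) (p y)) :=
  ((integrable_sq2 h.2.1).add (integrable_sq2 h.1)).sub (int_PP_HH h)

theorem int_en_HH (h : IsH1 e p) : Integrable (fun y => en (e y) (p y)) :=
  (integrable_sq2 h.2.1).sub ((h.integrable_pow 4).div_const 3)

theorem h1t_HH (h : IsH1 e p) : H1T (⊤ : Filter Unit) (fun _ => e) (fun _ => p) e p :=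
  ⟨Eventually.of_forall fun _ => h, h, by simp⟩

theorem prim_W_HH (hW : Wt W W1 W2 W3) : IsPrim W W1 :=
  IsPrim.of_hasDerivAt hW.sm.d1 hW.b1.1
theorem prim_W1_HH (hW : Wt W W1 W2 W3) : IsPrim W1 W2 :=
  IsPrim.of_hasDerivAt hW.sm.d2 hW.b2.1
theorem prim_W2_HH (hW : Wt W W1 W2 W3) : IsPrim W2 W3 :=
  IsPrim.of_hasDerivAt hW.sm.d3 hW.b3.1

theorem static_HH (h : IsH1 e p) (hW : Wt W W1 W2 W3) :
    (∫ y, en (Q y + e y) (Q1 y + p y) * W y) + (∫ y, (Q y + e y) ^ 2 * W y)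
      + 2 * (∫ y, e y * (Q1 y * W1 y)) - (∫ y, (en (Q y) (Q1 y) + Q y ^ 2) * W y)
      = qH W e p := by
  have hU := isH1_Q.add h
  have i1 := integrable_mul_bdd (int_en_HH hU) hW.b0
  have i2 := integrable_mul_bdd (integrable_sq2 hU.1) hW.b0
  have i3 := ((expD_Q1.mul_bdd hW.b1).bdd_mul h.bdd).integrable
  have i4 : Integrable (fun y => (en (Q y) (Q1 y) + Q y ^ 2) * W y) :=
    integrable_mul_bdd ((int_en_HH isH1_Q).add (integrable_sq2 isH1_Q.1)) hW.b0
  have i5 := integrable_mul_bdd (int_hH_HH h) hW.b0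
  have i6 := (((expD_Q1.bdd_mul h.bdd).mul_bdd hW.b0).const_mul 2).integrable
  have pr := ((h.isPrim.mul prim_Q1_HH).mul (prim_W_HH hW)).const_mul 2
  have i12 : Integrable (fun y => en (Q y + e y) (Q1 y + p y) * W y + (Q y + e y) ^ 2 * W y) :=
    i1.add i2
  have i123 : Integrable (fun y => en (Q y + e y) (Q1 y + p y) * W y + (Q y + e y) ^ 2 * W y
      + 2 * (e y * (Q1 y * W1 y))) := i12.add (i3.const_mul 2)
  rw [← integral_const_mul, ← integral_add i1 i2, ← integral_add i12 (i3.const_mul 2),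
    ← integral_sub i123 i4]
  refine pr.integral_eq i6 (i123.sub i4) i5 fun y => ?_
  simp only [en, hH, PP, Q2]
  ring

theorem test_HH (hW : Wt W W1 W2 W3) (h4 : ∀ y, HasDerivAt W3 (W4 y) y) (b4 : Bdd W4) :
    Test (fun y => Q1 y * W1 y) (fun y => Q2 y * W1 y + Q1 y * W2 y)
      (fun y => Q3 y * W1 y + 2 * (Q2 y * W2 y) + Q1 y * W3 y)
      (fun y => Q4 y * W1 y + 3 * (Q3 y * W2 y) + 3 * (Q2 y * W3 y) + Q1 y * W4 y) :=
  test_Q1.mul_bdd ⟨hW.sm.d2, hW.sm.d3, h4, b4.1⟩ hW.b1 hW.b2 hW.b3 b4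

theorem g_HH (h : IsH1 e p) :
    IsH1 (fun y => Q2 y - V y * e y) (fun y => Q3 y - (V1 y * e y + V y * p y)) :=
  (test_Q.h3.sub (h.mul_bdd hasDerivAt_V expD_V.bdd expD_V1.bdd)).congr (fun y => by ring)
    (fun y => by ring)

theorem int_hT1_HH (h : IsH1 e p) (hW : Wt W W1 W2 W3) :
    Integrable (fun y => hT1 y (e y) (p y) (W1 y) (W2 y) (W3 y)) := by
  have hU := isH1_Q.add h
  have m1 : MemLp (fun y => V y * e y) 2 volume := memLp_bdd_mul h.1 expD_V.bdd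
  have m2 : MemLp (fun y => V1 y * e y + V y * p y) 2 volume :=
    (memLp_bdd_mul h.1 expD_V1.bdd).add (memLp_bdd_mul h.2.1 expD_V.bdd)
  have m3 : MemLp (fun y => (V1 y * e y + V y * p y) * W1 y + V y * e y * W2 y) 2 volume :=
    (memLp_mul_bdd m2 hW.b1).add (memLp_mul_bdd m1 hW.b2)
  have m4 : MemLp (fun y => p y - 5 * ((Q y + e y) ^ 4 * (Q1 y + p y) - Q y ^ 4 * Q1 y)) 2
      volume :=
    h.2.1.sub (((memLp_bdd_mul hU.2.1 (hU.bdd.pow 4)).sub
      (memLp_bdd_mul isH1_Q.2.1 (expD_Q.bdd.pow 4))).const_mul 5)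
  have m5 : MemLp (fun y => e y - ((Q y + e y) ^ 5 - Q y ^ 5)) 2 volume :=
    h.1.sub ((hU.memLp_pow 4).sub (isH1_Q.memLp_pow 4))
  have i1 := (integrable_mul2 m3 h.2.1).const_mul (-6)
  have i2 := (integrable_mul_bdd (integrable_sq2 m1) hW.b1).const_mul 3
  have i3 := (integrable_bdd_mul (integrable_mul2 m4 h.2.1) hW.b1).const_mul 4
  have i4 := (integrable_bdd_mul (integrable_mul2 m5 h.2.1) hW.b2).const_mul 2
  have i5 := integrable_bdd_mul (integrable_sq2 m5) hW.b1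
  have i6 := integrable_bdd_mul (integrable_sq2 h.2.1) hW.b3
  refine (((((i1.add i2).sub i3).sub i4).sub i5).add i6).congr
    (Eventually.of_forall fun y => ?_)
  simp only [hT1, Pi.add_apply, Pi.sub_apply]
  ring

theorem int_hT2_HH (h : IsH1 e p) (hW : Wt W W1 W2 W3) (β γ : ℝ) :
    Integrable (fun y => hT2 β γ y (e y) (W y) (W1 y)) :=
  (((((((expD_Q.bdd_mul h.bdd).mul_bdd hW.b0).const_mul 4).add
    ((expD_LQ1.bdd_mul (h.bdd.mul hW.b1)).const_mul 2)).const_mul β).sub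
    (((expD_Q2.bdd_mul hW.b1).mul_bdd h.bdd).const_mul (2 * γ))).congr
    fun y => by unfold hT2; ring).integrable

theorem int_hT3_HH (h : IsH1 e p) (hW : Wt W W1 W2 W3) (β γ : ℝ) :
    Integrable (fun y => hT3 β γ y (e y) (p y) (W y) (W1 y)) := by
  have i1 := (integrable_bdd_mul (int_hH_HH h) hW.b1).const_mul (-γ)
  have i0 : Integrable (fun y => p y ^ 2 - PP y (e y)) := (integrable_sq2 h.2.1).sub (int_PP_HH h)
  have i2 := (integrable_bdd_mul i0 hW.b0).const_mul (2 * β)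
  refine (i1.sub i2).congr (Eventually.of_forall fun y => ?_)
  simp only [hT3, Pi.sub_apply]
  ring

theorem dyn_HH (h : IsH1 e p) (hW : Wt W W1 W2 W3) (h4 : ∀ y, HasDerivAt W3 (W4 y) y)
    (b4 : Bdd W4) (β γ : ℝ) :
    rhs2 β γ e p (fun y => Q2 y - V y * e y) (fun y => Q3 y - (V1 y * e y + V y * p y))
        W W1 W2 W3 + rhs1 β γ e p W1 W3
      + 2 * rhs0 β γ e (fun y => Q1 y * W1 y) (fun y => Q2 y * W1 y + Q1 y * W2 y)
        (fun y => Q4 y * W1 y + 3 * (Q3 y * W2 y) + 3 * (Q2 y * W3 y) + Q1 y * W4 y)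
      = ∫ y, (hT1 y (e y) (p y) (W1 y) (W2 y) (W3 y) + hT2 β γ y (e y) (W y) (W1 y)
        + hT3 β γ y (e y) (p y) (W y) (W1 y) + β * (hH y (e y) (p y) * (y * W1 y))) := by
  have hU := isH1_Q.add h
  have hθ := test_HH hW h4 b4
  have be := h.bdd
  have ie := int_en_HH hU
  have iu := integrable_sq2 hU.1
  have j2 := ((((h1t_HH hU).fl2 (g_HH h) hW.b1 hW.b2 hW.b3).2.1.sub
    ((integrable_mul_bdd ie hW.b1).const_mul (1 + γ))).sub
    ((integrable_mul_bdd ie hW.b0).const_mul (2 * β))).add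
    ((integrable_mul_bdd ie hW.by1).const_mul β)
  have j1 := (((h1t_HH hU).fl1 hW.b1 hW.b3).2.1.sub
    ((integrable_mul_bdd iu hW.b1).const_mul (1 + γ))).add
    ((integrable_mul_bdd iu hW.by1).const_mul β)
  have j0 := ((((((((hθ.e3.sub hθ.e1).add (hθ.e1.bdd_mul expD_V.bdd)).bdd_mul be).add
    (hθ.e1.bdd_mul (bdd_NN_HH h))).sub ((hθ.e0.bdd_mul expD_LQ.bdd).const_mul β)).add
    ((hθ.e0.bdd_mul expD_Q1.bdd).const_mul γ)).add
    ((((hθ.e0.div_const 2).add hθ.e1.id_mul).bdd_mul be).const_mul β)).sub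
    ((hθ.e1.bdd_mul be).const_mul γ)).integrable
  have jG := (((int_hT1_HH h hW).add (int_hT2_HH h hW β γ)).add (int_hT3_HH h hW β γ)).add
    ((integrable_mul_bdd (int_hH_HH h) hW.by1).const_mul β)
  have pe := h.isPrim
  have pq := pe.mul prim_Q1_HH
  have eq1 := expD_Q1.bdd_mul be
  have p1 := (prim_W2_HH hW).mul ((((pe.pow 1).sub (prim_PP_HH h)).add
    ((pe.mul prim_Q2_HH).const_mul 6)).add ((prim_Q1_HH.pow 1).const_mul 2))
  have k1 := integrable_bdd_mul ((((h.integrable_pow 0).sub (int_PP_HH h)).add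
    ((expD_Q2.bdd_mul be).const_mul 6).integrable).add
    ((expD_Q1.pow 1).const_mul 2).integrable) hW.b2
  have p2 := ((prim_W1_HH hW).mul prim_Q1_HH).mul (((((prim_NN_HH h).const_mul 4).sub
    ((prim_V_HH.mul pe).const_mul 4)).sub (pe.const_mul 2)).add (prim_Q2_HH.const_mul 2))
  have k2 := ((expD_Q1.bdd_mul hW.b1).mul_bdd (((((bdd_NN_HH h).const_mul 4).sub
    ((expD_V.bdd.mul be).const_mul 4)).sub (be.const_mul 2)).add
    (expD_Q2.bdd.const_mul 2))).integrable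
  have p3 := (pq.mul (IsPrim.of_hasDerivAt h4 b4.1)).const_mul 2
  have k3 := ((eq1.mul_bdd hW.b3).const_mul 2).integrable
  have p4 := ((((prim_id_HH.mul (pq.mul (prim_W1_HH hW))).const_mul 2).sub
    ((pq.mul (prim_W_HH hW)).const_mul 4)).sub
    ((prim_Q_HH.mul prim_Q1_HH).mul (prim_W_HH hW))).const_mul β
  have k4 := (((((eq1.mul_bdd hW.b1).id_mul.const_mul 2).sub
    ((eq1.mul_bdd hW.b0).const_mul 4)).sub
    ((expD_Q.mul_bdd expD_Q1.bdd).mul_bdd hW.b0)).const_mul β).integrable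
  have p5 := (pq.mul (prim_W1_HH hW)).const_mul (2 * γ)
  have k5 := ((eq1.mul_bdd hW.b1).const_mul (2 * γ)).integrable
  have key := ((((p1.add p2).add p3).add p4).sub p5).integral_eq
    ((((k1.add k2).add k3).add k4).sub k5) ((j2.add j1).add (j0.const_mul 2)) jG (fun y => by
      simp only [Pi.add_apply, Pi.sub_apply, fl1, fl2, en, hT1, hT2, hT3, hH, PP, NN, LQ, LQ1, Q4,
        Q3, Q2, V1_eq_HH, V]
      push_cast
      linear_combination (-W3 y + γ * W1 y - β * y * W1 y - β * W y) * Q1_sq y)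
  rw [integral_add' (j2.add j1) (j0.const_mul 2), integral_add' j2 j1, integral_const_mul] at key
  exact key

theorem hh : HStmt := by
  intro e ey lam β γ s h W W1 W2 W3 W4 hW h4 b4 h0
  have hs := h.h1t.2.1
  have d := (((h.d2 W W1 W2 W3 hW h0 _ _ (g_HH hs)).add_hasDerivAt
    (h.d1 W W1 W2 W3 hW)).add_hasDerivAt
    ((h.d0 _ _ _ _ (test_HH hW h4 b4)).const_mul 2)).sub_hasDerivAt
    (hasDerivAt_const s (∫ y, (en (Q y) (Q1 y) + Q y ^ 2) * W y))
  rw [one_mul, one_mul, one_mul, sub_zero, dyn_HH hs hW h4 b4] at d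
  exact d.congr (h.h1t.1.mono fun z hz => static_HH hz hW)

end Pool.Agent.MP_8339a4_an

end

section

/-! The derivative of the mixed functional. -/

open MeasureTheory Filter Topology Set

namespace Pool.Agent.MP_8339a4_an

theorem l1t_PP_E2 (X : Dat) {s : ℝ} (hs : X.s0 < s) :
    L1T (𝓝 s) (fun z y => PP y (X.e z y)) (fun y => PP y (X.e s y)) := by
  have h := (X.st.flow s hs).h1t
  have h1 := (X.h1tU hs).pow 4
  have h2 : L1T (𝓝 s) (fun (_ : ℝ) y => Q y ^ (5 + 1)) (fun y => Q y ^ (5 + 1)) :=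
    L1T.const (expD_Q.pow 5).integrable
  have h3 := (L2T.const (l := 𝓝 s) (expD_Q.pow 4).memLp).mul h.l2
  refine (((h1.sub h2).sub (h3.const_mul 6)).const_mul (1 / 3)).congr
    (Eventually.of_forall fun z y => ?_) fun y => ?_
  · simp only [PP]
    ring
  · simp only [PP]
    ring

theorem l1t_hH_E2 (X : Dat) {s : ℝ} (hs : X.s0 < s) :
    L1T (𝓝 s) (fun z y => hH y (X.e z y) (X.ey z y)) (fun y => hH y (X.e s y) (X.ey s y)) :=
  ((X.st.flow s hs).h1t.l2y.sq.add (X.st.flow s hs).h1t.l2.sq).sub (l1t_PP_E2 X hs)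

theorem int_hT1_E2 {e p W1 W2 W3 : ℝ → ℝ} (h : IsH1 e p)
    (hU : IsH1 (fun y => Q y + e y) (fun y => Q1 y + p y)) (b1 : Bdd W1) (b2 : Bdd W2)
    (b3 : Bdd W3) : Integrable fun y => hT1 y (e y) (p y) (W1 y) (W2 y) (W3 y) := by
  have m1 : MemLp (fun y => V y * e y) 2 volume := memLp_bdd_mul h.1 expD_V.bdd
  have m2 : MemLp (fun y => V1 y * e y + V y * p y) 2 volume :=
    (memLp_bdd_mul h.1 expD_V1.bdd).add (memLp_bdd_mul h.2.1 expD_V.bdd)
  have m3 : MemLp (fun y => (V1 y * e y + V y * p y) * W1 y + V y * e y * W2 y) 2 volume :=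
    (memLp_mul_bdd m2 b1).add (memLp_mul_bdd m1 b2)
  have m4 : MemLp (fun y => (Q y + e y) ^ 4 * (Q1 y + p y) - Q y ^ 4 * Q1 y) 2 volume :=
    (memLp_bdd_mul hU.2.1 (hU.bdd.pow 4)).sub (memLp_bdd_mul expD_Q1.memLp (expD_Q.bdd.pow 4))
  have m5 : MemLp (fun y => p y - 5 * ((Q y + e y) ^ 4 * (Q1 y + p y) - Q y ^ 4 * Q1 y)) 2
      volume := h.2.1.sub (m4.const_mul 5)
  have m6 : MemLp (fun y => e y - ((Q y + e y) ^ 5 - Q y ^ 5)) 2 volume :=
    h.1.sub ((hU.memLp_pow 4).sub (expD_Q.pow 4).memLp)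
  have j1 := (integrable_mul2 m3 h.2.1).const_mul (-6)
  have j2 := (integrable_mul_bdd (integrable_sq2 m1) b1).const_mul 3
  have j3 := (integrable_mul_bdd (integrable_mul2 m5 h.2.1) b1).const_mul (-4)
  have j4 := (integrable_mul_bdd (integrable_mul2 m6 h.2.1) b2).const_mul (-2)
  have j5 := (integrable_mul_bdd (integrable_sq2 m6) b1).const_mul (-1)
  have j6 := integrable_mul_bdd (integrable_sq2 h.2.1) b3
  refine (((((j1.add j2).add j3).add j4).add j5).add j6).congr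
    (Eventually.of_forall fun y => ?_)
  simp only [hT1, Pi.add_apply]
  ring

theorem int_hT2_E2 {e W W1 : ℝ → ℝ} (β γ : ℝ) (h : MemLp e 2 volume) (b0 : Bdd W) (b1 : Bdd W1) :
    Integrable fun y => hT2 β γ y (e y) (W y) (W1 y) := by
  have j1 := (integrable_mul2 h (expD_Q.mul_bdd b0).memLp).const_mul (4 * β)
  have j2 := (integrable_mul2 h (expD_LQ1.mul_bdd b1).memLp).const_mul (2 * β)
  have j3 := (integrable_mul2 h (expD_Q2.mul_bdd b1).memLp).const_mul (-(2 * γ))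
  refine ((j1.add j2).add j3).congr (Eventually.of_forall fun y => ?_)
  simp only [hT2, Pi.add_apply]
  ring

theorem int_hT3_E2 {e p W W1 : ℝ → ℝ} (β γ : ℝ) (h : MemLp p 2 volume)
    (i1 : Integrable fun y => hH y (e y) (p y)) (i2 : Integrable fun y => PP y (e y))
    (b0 : Bdd W) (b1 : Bdd W1) : Integrable fun y => hT3 β γ y (e y) (p y) (W y) (W1 y) := by
  have j1 := (integrable_mul_bdd i1 b1).const_mul (-γ)
  have j2 := (integrable_mul_bdd (integrable_sq2 h) b0).const_mul (-(2 * β))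
  have j3 := (integrable_mul_bdd i2 b0).const_mul (2 * β)
  refine ((j1.add j2).add j3).congr (Eventually.of_forall fun y => ?_)
  simp only [hT3, Pi.add_apply]
  ring

theorem bdd_dr_E2 (X : Dat) (s k : ℝ) {W W1 W2 W3 : ℝ → ℝ} (h : Wt W W1 W2 W3) :
    Bdd fun y => k * W y + X.dr s y * W1 y := by
  refine (((h.b0.const_mul k).add (h.by1.const_mul (X.κ / s))).sub
    (h.b1.const_mul (X.CA / (s * X.r s)))).congr fun y => ?_
  simp only [Dat.dr]
  ring

theorem split_E2 {ρ G W1 : ℝ → ℝ} (β : ℝ) (i : Integrable ρ) (bG : Bdd G)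
    (b1 : Bdd fun y => y * W1 y) :
    ∫ y, ρ y * (G y - β * (y * W1 y)) = (∫ y, ρ y * G y) - β * ∫ y, ρ y * (y * W1 y) := by
  rw [← integral_const_mul, ← integral_sub (integrable_mul_bdd i bG)
    ((integrable_mul_bdd i b1).const_mul β)]
  refine integral_congr_ae (Eventually.of_forall fun y => ?_)
  ring

theorem mw_ph_E2 (X : Dat) {s K : ℝ} (hs : X.s0 < s) (hK : 0 < K) :
    MW (fun z y => ph (X.r z) (X.A z) K y)
      (fun y => ph1 (X.r s) (X.A s) K y * (X.dr s y - X.β s * y)) s := by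
  have h0 := X.r_pos hs
  have h1 : 0 < s := lt_trans one_pos (X.one_lt hs)
  refine (mw_ph (X.hasDerivAt_r hs) (X.hasDerivAt_A hs) h0 hK).congr
    (Eventually.of_forall fun _ _ => rfl) fun y => ?_
  simp only [Dat.dr]
  field_simp
  ring

theorem mw_WW_E2 (X : Dat) {s B : ℝ} (hs : X.s0 < s) (hB : 0 < B) :
    MW (fun z y => WW (X.r z) (X.A z) B y)
      (fun y => X.CA / (s * B) * WW (X.r s) (X.A s) B y + X.dr s y * WW1 (X.r s) (X.A s) B y
        - X.β s * (y * WW1 (X.r s) (X.A s) B y)) s := by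
  have h1 : 0 < s := lt_trans one_pos (X.one_lt hs)
  refine ((MW.of_scalar ((X.hasDerivAt_A hs).div_const B).exp).mul (mw_ph_E2 X hs hB)).congr
    (Eventually.of_forall fun _ _ => rfl) fun y => ?_
  simp only [WW, WW1]
  field_simp
  ring

theorem mw_om_E2 (X : Dat) {s B : ℝ} (hs : X.s0 < s) (hB : 0 < B) :
    MW (fun z y => om (X.r z) (X.A z) X.K B y)
      (fun y => X.CA / (s * B) * om (X.r s) (X.A s) X.K B y
        + X.dr s y * om1 (X.r s) (X.A s) X.K B y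
        - X.β s * (y * om1 (X.r s) (X.A s) X.K B y)) s := by
  refine ((mw_WW_E2 X hs hB).mul (mw_ph_E2 X hs X.K_pos)).congr
    (Eventually.of_forall fun _ _ => rfl) fun y => ?_
  simp only [om, om1]
  ring

theorem e2 (h : HStmt) : E2Stmt := by
  intro X B hB s hs
  have hr := X.r_pos hs
  have fl := X.st.flow s hs
  have wW := wt_WW hr hB (X.A s)
  have wo := wt_om hr X.K_pos hB (X.A s)
  have lH := l1t_hH_E2 X hs
  have lU : L1T (𝓝 s) (fun z y => (Q y + X.e z y) ^ 2) (fun y => (Q y + X.e s y) ^ 2) :=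
    (X.h1tU hs).l2.sq
  have d1 := mov_l1_dini (ρ := fun z y => hH y (X.e z y) (X.ey z y)) lH (mw_WW_E2 X hs hB)
    (h X.e X.ey X.lam X.β X.γ s fl _ _ _ _ _ wW (hasDerivAt_WW3 _ _ _) (bdd_WW4 hr hB _)
      fun y => (WW1_pos hr hB _ y).le)
  have d2 := mov_l1 (ρ := fun z y => (Q y + X.e z y) ^ 2) lU (mw_om_E2 X hs hB)
    (fl.d1 _ _ _ _ wo)
  refine (d1.sub_hasDerivAt d2).mono (le_of_eq ?_)
  have iH := lH.2.1
  have iU := lU.2.1
  have i1 := int_hT1_E2 (X.h1 hs) (X.h1U hs) wW.b1 wW.b2 wW.b3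
  have i2 := int_hT2_E2 (X.β s) (X.γ s) (X.h1 hs).1 wW.b0 wW.b1
  have i3 := int_hT3_E2 (X.β s) (X.γ s) (X.h1 hs).2.1 iH (l1t_PP_E2 X hs).2.1 wW.b0 wW.b1
  have i4 := (integrable_mul_bdd iH wW.by1).const_mul (X.β s)
  have bW := bdd_dr_E2 X s (X.CA / (s * B)) wW
  have bo := bdd_dr_E2 X s (X.CA / (s * B)) wo
  have i6 : Integrable fun y => fl1 (Q y + X.e s y) (Q1 y + X.ey s y)
      (om1 (X.r s) (X.A s) X.K B y) (om3 (X.r s) (X.A s) X.K B y)
      - (1 + X.γ s) * ((Q y + X.e s y) ^ 2 * om1 (X.r s) (X.A s) X.K B y) :=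
    ((X.h1tU hs).fl1 wo.b1 wo.b3).2.1.sub ((integrable_mul_bdd iU wo.b1).const_mul _)
  have i7 := (integrable_mul_bdd iU wo.by1).const_mul (X.β s)
  have i12 : Integrable fun y => hT1 y (X.e s y) (X.ey s y) (WW1 (X.r s) (X.A s) B y)
      (WW2 (X.r s) (X.A s) B y) (WW3 (X.r s) (X.A s) B y) + hT2 (X.β s) (X.γ s) y (X.e s y)
      (WW (X.r s) (X.A s) B y) (WW1 (X.r s) (X.A s) B y) := i1.add i2
  have i123 : Integrable fun y => hT1 y (X.e s y) (X.ey s y) (WW1 (X.r s) (X.A s) B y)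
      (WW2 (X.r s) (X.A s) B y) (WW3 (X.r s) (X.A s) B y) + hT2 (X.β s) (X.γ s) y (X.e s y)
      (WW (X.r s) (X.A s) B y) (WW1 (X.r s) (X.A s) B y) + hT3 (X.β s) (X.γ s) y (X.e s y)
      (X.ey s y) (WW (X.r s) (X.A s) B y) (WW1 (X.r s) (X.A s) B y) := i12.add i3
  rw [split_E2 _ iH bW wW.by1, split_E2 _ iU bo wo.by1, integral_add i123 i4,
    integral_add i12 i3, integral_add i1 i2, integral_const_mul, rhs1, integral_add i6 i7,
    integral_const_mul, Dat.I1, Dat.I2, Dat.I3, Dat.I4, Dat.I5,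
    integral_sub (integrable_mul_bdd iH bW) (integrable_mul_bdd iU bo)]
  ring

end Pool.Agent.MP_8339a4_an

end

section

/-! The derivative of the middle mass. -/

open MeasureTheory Filter Topology Set

namespace Pool.Agent.MP_8339a4_an

theorem deriv_MMJ (X : Dat) {s : ℝ} (hs : X.s0 < s) : ∃ g : ℝ → ℝ, Integrable g ∧
    HasDerivAt X.MM (∫ y, g y) s ∧ ∀ y, g y = fl1 (Q y + X.e s y) (Q1 y + X.ey s y)
        (ph1 (X.r s) (-(X.A s)) X.K y - ph1 (X.r s) (X.A s) X.K y)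
        (ph3 (X.r s) (-(X.A s)) X.K y - ph3 (X.r s) (X.A s) X.K y)
      - (1 + X.γ s) * ((Q y + X.e s y) ^ 2
        * (ph1 (X.r s) (-(X.A s)) X.K y - ph1 (X.r s) (X.A s) X.K y))
      + (Q y + X.e s y) ^ 2 * (ph1 (X.r s) (-(X.A s)) X.K y * (X.κ / s * y + X.CA / (s * X.r s))
        - ph1 (X.r s) (X.A s) X.K y * (X.κ / s * y - X.CA / (s * X.r s))) := by
  have hr := X.r_pos hs
  have hK := X.K_pos
  have hs0 : 0 < s := by linarith [X.one_lt hs]
  have wt := (wt_ph hr hK (-(X.A s))).sub (wt_ph hr hK (X.A s))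
  have mw := (mw_ph (a := fun z => -(X.A z)) (X.hasDerivAt_r hs) (X.hasDerivAt_A hs).neg hr
    hK).sub (mw_ph (X.hasDerivAt_r hs) (X.hasDerivAt_A hs) hr hK)
  have hU := X.h1tU hs
  have d1 := (X.st.flow s hs).d1 _ _ _ _ wt
  have d2 := mov_l1 (ρ := fun z y => (Q y + X.e z y) ^ 2) hU.l2.sq mw d1
  have s2 := integrable_sq2 (X.h1U hs).1
  have i1 := (hU.fl1 wt.b1 wt.b3).2.1
  have i2 := (integrable_mul_bdd s2 wt.b1).const_mul (1 + X.γ s)
  have i3 := (integrable_mul_bdd s2 wt.by1).const_mul (X.β s)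
  have i4 := integrable_mul_bdd s2 mw.bdd_wt
  have i5 := add_MMJ (sub_MMJ i1 i2) i3
  refine ⟨_, add_MMJ i5 i4, ?_, fun y => ?_⟩
  · rw [integral_add i5 i4]
    rw [one_mul] at d2
    exact d2.sub_const (∫ y, Q y ^ 2)
  · field_simp
    ring

theorem fin_MMJ {a f D t L s ω aL M' T E1 E2 P P3 g k d Cf Cg Ce κ c M : ℝ} (hf : 0 ≤ f)
    (hD : 0 ≤ D) (hL : 1 ≤ L) (hs : 1 ≤ s) (hT0 : 0 ≤ T) (hT : T ≤ t)
    (hE1 : E1 ≤ L) (hE2 : E2 ≤ Ce * L) (hP : P ≤ a ^ 2 + Cf * f)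
    (hP3 : -P3 ≤ 2 * (Real.sqrt f * |a|) + 2 * (Cf + 1) * f) (hg0 : 0 ≤ g)
    (hg : g ≤ Cg * Real.sqrt D) (hk : k ≤ κ) (hd0 : 0 ≤ d) (hd : d ≤ c * (1 / s))
    (hCf : 0 ≤ Cf) (hCg : 0 ≤ Cg) (hCe : 0 ≤ Ce) (hκ : 0 ≤ κ) (hc : 0 ≤ c) (hM : 0 ≤ M)
    (h : M' ≤ 3 * f + (ω ^ 2 - 2 * ω * aL) + P - P3 + (5 / 3 * (64 * E2 * D ^ 2 + T) + 2 * k * T) * M
      + (g + d) * (4 * E1 * D + P) + (283 + 8 * k + 8 * d) * T * 30) :
    M' ≤ a ^ 2 + ω ^ 2 - 2 * ω * aL + ((5 + 3 * Cf) + 107 * Ce * M + ((2 + 2 * κ) * M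
      + (283 + 8 * κ + 8 * c) * 30) + (Cg + c) * (4 + Cf)) * (Real.sqrt f * |a| + f + t
      + L * ((Real.sqrt D + 1 / s) * (D + a ^ 2 + f) + D ^ 2)) := by
  have hs1 : 1 / s ≤ 1 := (div_le_one (by linarith)).2 hs
  have hs0 : 0 ≤ 1 / s := by positivity
  have ht : 0 ≤ t := hT0.trans hT
  have hL0 : 0 ≤ L := by linarith
  have hdc : d ≤ c := by nlinarith
  set u := Real.sqrt f * |a| with hu
  have hu0 : 0 ≤ u := by positivity
  set v := L * ((Real.sqrt D + 1 / s) * (D + a ^ 2 + f)) with hv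
  have hv0 : 0 ≤ v := by positivity
  set w := L * D ^ 2 with hw
  have hw0 : 0 ≤ w := by positivity
  have eZ : L * ((Real.sqrt D + 1 / s) * (D + a ^ 2 + f) + D ^ 2) = v + w := by
    rw [hv, hw]; ring
  rw [eZ]
  have b1 : 3 * f + Cf * f + (2 * u + 2 * (Cf + 1) * f) ≤ (5 + 3 * Cf) * (u + f + t + (v + w)) := by
    have : 0 ≤ Cf * (u + t + (v + w)) := by positivity
    nlinarith
  have b2 : 5 / 3 * (64 * E2 * D ^ 2) * M ≤ 107 * Ce * M * (u + f + t + (v + w)) := by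
    have k1 : E2 * (D ^ 2 * M) ≤ Ce * L * (D ^ 2 * M) :=
      mul_le_mul_of_nonneg_right hE2 (by positivity)
    have k2 : 0 ≤ Ce * M * (u + f + t + v) := by positivity
    have k3 : 0 ≤ Ce * M * w := by positivity
    have k4 : Ce * L * (D ^ 2 * M) = Ce * M * w := by rw [hw]; ring
    linarith
  have b3 : (5 / 3 * T + 2 * k * T) * M + (283 + 8 * k + 8 * d) * T * 30
      ≤ ((2 + 2 * κ) * M + (283 + 8 * κ + 8 * c) * 30) * (u + f + t + (v + w)) := by
    have k1 : (5 / 3 + 2 * k) * M + (283 + 8 * k + 8 * d) * 30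
        ≤ (2 + 2 * κ) * M + (283 + 8 * κ + 8 * c) * 30 := by
      have := mul_le_mul_of_nonneg_right (show 5 / 3 + 2 * k ≤ 2 + 2 * κ by linarith) hM
      linarith
    have k2 := mul_le_mul_of_nonneg_right k1 hT0
    have k3 : ((2 + 2 * κ) * M + (283 + 8 * κ + 8 * c) * 30) * T
        ≤ ((2 + 2 * κ) * M + (283 + 8 * κ + 8 * c) * 30) * (u + f + t + (v + w)) :=
      mul_le_mul_of_nonneg_left (by linarith) (by positivity)
    linarith
  have b4 : (g + d) * (4 * E1 * D + P) ≤ (Cg + c) * (4 + Cf) * (u + f + t + (v + w)) := by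
    have k1 : g + d ≤ (Cg + c) * (Real.sqrt D + 1 / s) := by
      have := mul_nonneg hCg hs0
      have := mul_nonneg hc (Real.sqrt_nonneg D)
      linarith
    have k2 : 4 * E1 * D + P ≤ (4 + Cf) * (L * (D + a ^ 2 + f)) := by
      have m1 := mul_le_mul_of_nonneg_right hE1 hD
      have m2 : a ^ 2 + Cf * f ≤ L * (a ^ 2 + Cf * f) := le_mul_of_one_le_left (by positivity) hL
      have m3 : 0 ≤ L * (3 * a ^ 2 + 4 * f + Cf * (D + a ^ 2)) := by positivity
      linarith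
    have k3 := mul_le_mul_of_nonneg_left k2 (add_nonneg hg0 hd0)
    have k4 := mul_le_mul_of_nonneg_right k1
      (show 0 ≤ (4 + Cf) * (L * (D + a ^ 2 + f)) by positivity)
    have k5 : (Cg + c) * (Real.sqrt D + 1 / s) * ((4 + Cf) * (L * (D + a ^ 2 + f)))
        = (Cg + c) * (4 + Cf) * v := by rw [hv]; ring
    have k6 : (Cg + c) * (4 + Cf) * v ≤ (Cg + c) * (4 + Cf) * (u + f + t + (v + w)) :=
      mul_le_mul_of_nonneg_left (by linarith) (by positivity)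
    linarith
  linarith

theorem mmJ : MMStmt := by
  intro X B hB
  obtain ⟨Cp, hCp, hpar⟩ := X.par_le
  obtain ⟨Ce, hCe, hE⟩ := X.exp_log_le_Lm hB
  obtain ⟨Cf, hCf, hP⟩ := X.ph1_sq
  refine ⟨(5 + 3 * Cf) + 107 * Ce * X.M + ((2 + 2 * X.κ) * X.M
      + (283 + 8 * X.κ + 8 * (X.CA / X.r0)) * 30) + ((8 * Cp + 1) + X.CA / X.r0) * (4 + Cf), ?_⟩
  filter_upwards [X.ev_gt, X.ev_sup one_pos, X.ev_ey one_pos, X.ev_par one_pos] with s hs h1 hey hγ
  obtain ⟨g, hg, hd, hG⟩ := deriv_MMJ X hs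
  refine ⟨_, hd, fun ω => ?_⟩
  have hs1 : 1 ≤ s := (X.one_lt hs).le
  have hs0 : 0 < s := by linarith
  have hr := X.r_pos hs
  have hr0 := X.r0_pos
  have hCA := X.CA_pos
  have hκ := X.κ_pos
  have wp := X.wp hs hB
  have he := X.h1 hs
  have hk0 : 0 ≤ X.κ / s := by positivity
  have hd0 : 0 ≤ X.CA / (s * X.r s) := by positivity
  have main := static_MMJ wp he h1 hey (X.st.mass s hs) hγ.2 hk0 hd0 hg hG ω
  have hD := X.D_nonneg B s
  refine fin_MMJ (X.f_nonneg hs) hD (one_le_Lm hs1) hs1 (Real.exp_pos _).le (X.exp_le_tau hs1)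
    (X.exp_le_Lm hB hs1) ?_ (hP s hs) (ibp_MMJ hr (X.r_le_K hs) he hCf (hP s hs)) (abs_nonneg _)
    ?_ (div_le_self hκ.le hs1) hd0 ?_ hCf (by positivity) hCe hκ.le (by positivity) X.M_nonneg main
  · have a1 := hE s hs1
    have a2 : 1 ≤ (1 + X.A s) ^ 2 := one_le_pow₀ (by linarith [X.A_nonneg hs1])
    have a3 := mul_le_mul_of_nonneg_left a2 (Real.exp_pos (2 * (X.A s / B))).le
    linarith
  · refine abs_le_of_sq_le_sq ?_ (by positivity)
    have a1 := hpar s hs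
    have a2 : X.N s ≤ 8 * X.D B s := wp.N0_le he
    have a3 := mul_le_mul_of_nonneg_left a2 hCp
    have a4 : 8 * Cp * X.D B s ≤ (8 * Cp + 1) ^ 2 * X.D B s :=
      mul_le_mul_of_nonneg_right (by nlinarith) hD
    rw [mul_pow, Real.sq_sqrt hD]
    nlinarith [sq_nonneg (X.β s)]
  · have a1 : X.CA / X.r0 * (1 / s) = X.CA / (s * X.r0) := by field_simp
    rw [a1]
    exact div_le_div_of_nonneg_left hCA.le (by positivity)
      (mul_le_mul_of_nonneg_left (X.r_ge hs) hs0.le)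

end Pool.Agent.MP_8339a4_an

end
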