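import Pool.Agent.Mg.F8339a4.G1d67fe

section

/-! API: pointwise facts on the soliton. -/

open MeasureTheory Filter Topology Set

namespace Pool.Agent.MP_8339a4_an

theorem sc_eq_T6a (y : ℝ) : sc y = 1 / Real.cosh (2 * y) ^ 2 := by
  have h := Real.cosh_pos (2 * y)
  unfold sc tn
  rw [Real.tanh_eq_sinh_div_cosh]
  field_simp
  exact Real.cosh_sq_sub_sinh_sq _

theorem cosh_T6a (x : ℝ) : Real.exp |x| ≤ 2 * Real.cosh x ∧ Real.cosh x ≤ Real.exp |x| := by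
  rw [← Real.cosh_abs, Real.cosh_eq]
  have h1 := Real.exp_pos (-|x|)
  have h2 : Real.exp (-|x|) ≤ Real.exp |x| :=
    Real.exp_le_exp.2 (by linarith [abs_nonneg x])
  constructor <;> linarith

theorem exp_T6a (y : ℝ) : Real.exp (-(4 * |y|)) = 1 / Real.exp |2 * y| ^ 2 := by
  rw [abs_mul, abs_two, ← Real.exp_nat_mul, one_div, ← Real.exp_neg]
  congr 1
  push_cast
  ring

theorem exp4_T6a (y : ℝ) : Real.exp (-|y|) ^ 4 = Real.exp (-(4 * |y|)) := by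
  rw [← Real.exp_nat_mul]
  congr 1
  push_cast
  ring

theorem Q_pos (y : ℝ) : 0 < Q y :=
  Real.rpow_pos_of_pos (div_pos (by norm_num) (pow_pos (Real.cosh_pos _) 2)) _
theorem Q_neg (y : ℝ) : Q (-y) = Q y := by
  unfold Q
  rw [mul_neg, Real.cosh_neg]
theorem tn_neg (y : ℝ) : tn (-y) = -tn y := by
  unfold tn
  rw [mul_neg, Real.tanh_neg]
theorem Q1_neg (y : ℝ) : Q1 (-y) = -Q1 y := by
  unfold Q1
  rw [Q_neg, tn_neg]
  ring
theorem LQ_neg (y : ℝ) : LQ (-y) = LQ y := by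
  unfold LQ
  rw [Q_neg, Q1_neg]
  ring
theorem Q_pow4 (y : ℝ) : Q y ^ 4 = 3 * sc y := by
  unfold Q
  rw [← Real.rpow_natCast, ← Real.rpow_mul (div_pos (by norm_num)
    (pow_pos (Real.cosh_pos _) 2)).le, sc_eq_T6a]
  norm_num
  rw [div_eq_mul_inv]
theorem Q_sq (y : ℝ) : Q y ^ 2 = Real.sqrt 3 / Real.cosh (2 * y) := by
  have h := Real.cosh_pos (2 * y)
  refine (pow_left_inj₀ (sq_nonneg _) (by positivity) two_ne_zero).1 ?_
  rw [← pow_mul, Q_pow4, sc_eq_T6a, div_pow, Real.sq_sqrt (by norm_num)]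
  ring
theorem tn_sq (y : ℝ) : tn y ^ 2 = 1 - Q y ^ 4 / 3 := by
  rw [Q_pow4]
  unfold sc
  ring
theorem abs_tn_lt (y : ℝ) : |tn y| < 1 := Real.abs_tanh_lt_one _
theorem sc_pos (y : ℝ) : 0 < sc y := by
  rw [sc_eq_T6a]
  exact one_div_pos.2 (pow_pos (Real.cosh_pos _) 2)
theorem sc_le_one (y : ℝ) : sc y ≤ 1 := by
  unfold sc
  linarith [sq_nonneg (tn y)]
theorem sc_le_exp (y : ℝ) : sc y ≤ 4 * Real.exp (-(4 * |y|)) := by
  have h := Real.cosh_pos (2 * y)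
  have h1 := Real.exp_pos |2 * y|
  have h2 := pow_le_pow_left₀ h1.le (cosh_T6a (2 * y)).1 2
  rw [sc_eq_T6a, exp_T6a, mul_one_div, div_le_div_iff₀ (by positivity) (by positivity)]
  linarith
theorem exp_le_sc (y : ℝ) : Real.exp (-(4 * |y|)) ≤ sc y := by
  have h := Real.cosh_pos (2 * y)
  rw [sc_eq_T6a, exp_T6a]
  exact one_div_le_one_div_of_le (by positivity) (pow_le_pow_left₀ h.le (cosh_T6a (2 * y)).2 2)
theorem Q_le (y : ℝ) : Q y ≤ 4 / 3 := by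
  refine (pow_le_pow_iff_left₀ (Q_pos y).le (by norm_num) four_ne_zero).1 ?_
  rw [Q_pow4]
  linarith [sc_le_one y]
theorem Q_le_exp (y : ℝ) : Q y ≤ 2 * Real.exp (-|y|) := by
  refine (pow_le_pow_iff_left₀ (Q_pos y).le (by positivity) four_ne_zero).1 ?_
  rw [Q_pow4, mul_pow, exp4_T6a]
  linarith [sc_le_exp y, Real.exp_pos (-(4 * |y|))]
theorem exp_le_Q (y : ℝ) : Real.exp (-|y|) ≤ Q y := by
  refine (pow_le_pow_iff_left₀ (by positivity) (Q_pos y).le four_ne_zero).1 ?_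
  rw [Q_pow4, exp4_T6a]
  linarith [exp_le_sc y, sc_pos y]
theorem V_eq (y : ℝ) : V y = 15 * sc y := by
  unfold V
  rw [Q_pow4]
  ring
theorem V_nonneg (y : ℝ) : 0 ≤ V y := by
  rw [V_eq]
  linarith [sc_pos y]
theorem V_le (y : ℝ) : V y ≤ 15 := by
  rw [V_eq]
  linarith [sc_le_one y]
theorem abs_V1_le (y : ℝ) : |V1 y| ≤ 4 * V y := by
  unfold V1
  rw [abs_neg, abs_mul, abs_mul, abs_of_nonneg (V_nonneg y), abs_of_pos (by norm_num : (0 : ℝ) < 4)]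
  nlinarith [abs_tn_lt y, V_nonneg y]
theorem abs_Q1_le (y : ℝ) : |Q1 y| ≤ Q y := by
  unfold Q1
  rw [abs_neg, abs_mul, abs_of_pos (Q_pos y)]
  nlinarith [abs_tn_lt y, Q_pos y]
theorem abs_Q2_le (y : ℝ) : |Q2 y| ≤ 2 * Q y := by
  have h : Q2 y = (1 - 3 * sc y) * Q y := by
    unfold Q2
    rw [← Q_pow4]
    ring
  rw [h, abs_mul, abs_of_pos (Q_pos y)]
  refine mul_le_mul_of_nonneg_right (abs_le.2 ⟨?_, ?_⟩) (Q_pos y).le
  · linarith [sc_le_one y]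
  · linarith [sc_pos y]

theorem abs_V_T6a (y : ℝ) : |1 - V y| ≤ 14 :=
  abs_le.2 ⟨by linarith [V_le y], by linarith [V_nonneg y]⟩

theorem abs_Q3_le (y : ℝ) : |Q3 y| ≤ 14 * Q y := by
  unfold Q3
  rw [abs_mul, mul_comm 14]
  exact mul_le_mul (abs_Q1_le y) (abs_V_T6a y) (abs_nonneg _) (Q_pos y).le
theorem abs_Q4_le (y : ℝ) : |Q4 y| ≤ 88 * Q y := by
  unfold Q4
  have h0 := Q_pos y
  have h1 := mul_le_mul (abs_Q2_le y) (abs_V_T6a y) (abs_nonneg _) (by positivity)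
  have h2 := mul_le_mul (abs_Q1_le y) ((abs_V1_le y).trans
    (show 4 * V y ≤ 60 by linarith [V_le y])) (abs_nonneg _) h0.le
  have h3 := abs_sub (Q2 y * (1 - V y)) (Q1 y * V1 y)
  rw [abs_mul, abs_mul] at h3
  linarith
theorem abs_LQ_le (y : ℝ) : |LQ y| ≤ (1 + |y|) * Q y := by
  unfold LQ
  have h0 := Q_pos y
  have h1 := mul_le_mul_of_nonneg_left (abs_Q1_le y) (abs_nonneg y)
  have h3 := abs_add_le (Q y / 2) (y * Q1 y)
  rw [abs_mul, abs_of_pos (half_pos h0)] at h3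
  linarith
theorem abs_LQ1_le (y : ℝ) : |LQ1 y| ≤ 2 * (1 + |y|) * Q y := by
  unfold LQ1
  have h0 := Q_pos y
  have h1 := mul_le_mul_of_nonneg_left (abs_Q2_le y) (abs_nonneg y)
  have h2 := abs_Q1_le y
  have h3 := abs_add_le (3 / 2 * Q1 y) (y * Q2 y)
  rw [abs_mul, abs_mul, abs_of_pos (by norm_num : (0 : ℝ) < 3 / 2)] at h3
  linarith
theorem abs_LQ2_le (y : ℝ) : |LQ2 y| ≤ 14 * (1 + |y|) * Q y := by
  unfold LQ2
  have h0 := Q_pos y
  have h1 := mul_le_mul_of_nonneg_left (abs_Q3_le y) (abs_nonneg y)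
  have h2 := abs_Q2_le y
  have h3 := abs_add_le (5 / 2 * Q2 y) (y * Q3 y)
  rw [abs_mul, abs_mul, abs_of_pos (by norm_num : (0 : ℝ) < 5 / 2)] at h3
  linarith
theorem Q1_sq (y : ℝ) : Q1 y ^ 2 = Q y ^ 2 - Q y ^ 6 / 3 := by
  unfold Q1
  rw [neg_sq, mul_pow, tn_sq]
  ring

end Pool.Agent.MP_8339a4_an

end

section

/-! API: derivatives and decay of the soliton. -/

open MeasureTheory Filter Topology Set

namespace Pool.Agent.MP_8339a4_an

theorem hasDerivAt_tn (y : ℝ) : HasDerivAt tn (2 * sc y) y := by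
  have h2 : HasDerivAt (fun y : ℝ => 2 * y) 2 y := by
    simpa using (hasDerivAt_id y).const_mul (2 : ℝ)
  have hc := (Real.cosh_pos (2 * y)).ne'
  have e : tn = fun y => Real.sinh (2 * y) / Real.cosh (2 * y) :=
    funext fun y => Real.tanh_eq_sinh_div_cosh _
  have h := h2.sinh.div h2.cosh hc
  rw [sc, e]
  refine h.congr_deriv ?_
  field_simp
theorem hasDerivAt_sc (y : ℝ) : HasDerivAt sc (-(4 * tn y * sc y)) y :=
  (((hasDerivAt_tn y).fun_pow 2).const_sub 1).congr_deriv (by norm_num; ring)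
theorem hasDerivAt_Q (y : ℝ) : HasDerivAt Q (Q1 y) y := by
  have e : ∀ y, (3 * sc y) ^ ((4 : ℕ) : ℝ)⁻¹ = Q y := fun y => by
    rw [← Q_pow4, Real.pow_rpow_inv_natCast (Q_pos y).le (by norm_num)]
  have h0 : 3 * sc y ≠ 0 := (mul_pos three_pos (sc_pos y)).ne'
  have h := ((hasDerivAt_sc y).const_mul 3).rpow_const (p := ((4 : ℕ) : ℝ)⁻¹) (Or.inl h0)
  rw [Real.rpow_sub_one h0, e, funext e] at h
  refine h.congr_deriv ?_
  have := (sc_pos y).ne'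
  rw [Q1]
  push_cast
  field_simp
theorem hasDerivAt_Q1 (y : ℝ) : HasDerivAt Q1 (Q2 y) y :=
  ((hasDerivAt_tn y).fun_mul (hasDerivAt_Q y)).fun_neg.congr_deriv (by
    rw [Q1, Q2]
    linear_combination Q y * tn_sq y + 2 / 3 * Q y * Q_pow4 y)
theorem hasDerivAt_Q2 (y : ℝ) : HasDerivAt Q2 (Q3 y) y :=
  ((hasDerivAt_Q y).fun_sub ((hasDerivAt_Q y).fun_pow 5)).congr_deriv (by
    rw [Q3, V]
    norm_num
    ring)
theorem hasDerivAt_V_T6b (y : ℝ) : HasDerivAt V (V1 y) y :=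
  (((hasDerivAt_Q y).fun_pow 4).const_mul 5).congr_deriv (by
    rw [V1, V, Q1]
    norm_num
    ring)
theorem hasDerivAt_Q3 (y : ℝ) : HasDerivAt Q3 (Q4 y) y :=
  ((hasDerivAt_Q1 y).fun_mul ((hasDerivAt_V_T6b y).const_sub 1)).congr_deriv (by
    rw [Q4]
    ring)
theorem hasDerivAt_V (y : ℝ) : HasDerivAt V (V1 y) y := hasDerivAt_V_T6b y
theorem hasDerivAt_C0 (y : ℝ) : HasDerivAt C0 (C1 y) y :=
  ((hasDerivAt_Q y).fun_pow 3).congr_deriv (by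
    rw [C1, Q1]
    norm_num
    ring)
theorem hasDerivAt_C1 (y : ℝ) : HasDerivAt C1 (C2 y) y :=
  (((hasDerivAt_tn y).const_mul 3).fun_mul (hasDerivAt_C0 y)).fun_neg.congr_deriv (by
    rw [C0, C1, C2, V]
    linear_combination 9 * Q y ^ 3 * tn_sq y + 2 * Q y ^ 3 * Q_pow4 y)
theorem hasDerivAt_C2 (y : ℝ) : HasDerivAt C2 (C3 y) y :=
  (((hasDerivAt_V y).const_sub 9).fun_mul (hasDerivAt_C0 y)).congr_deriv (by
    rw [C0, C1, C3, V1]
    ring)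
theorem hasDerivAt_LQ (y : ℝ) : HasDerivAt LQ (LQ1 y) y :=
  (((hasDerivAt_Q y).div_const 2).fun_add ((hasDerivAt_id' y).fun_mul
    (hasDerivAt_Q1 y))).congr_deriv (by
    rw [LQ1]
    ring)
theorem hasDerivAt_LQ1 (y : ℝ) : HasDerivAt LQ1 (LQ2 y) y :=
  (((hasDerivAt_Q1 y).const_mul (3 / 2)).fun_add ((hasDerivAt_id' y).fun_mul
    (hasDerivAt_Q2 y))).congr_deriv (by
    rw [LQ2]
    ring)

theorem cont_T6b {f g : ℝ → ℝ} (h : ∀ y, HasDerivAt f (g y) y) : Continuous f :=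
  continuous_iff_continuousAt.2 fun y => (h y).continuousAt

theorem expD_Q_T6b : ExpD Q := ⟨cont_T6b hasDerivAt_Q, 2, 1, one_pos, fun y => by
  rw [abs_of_pos (Q_pos y), one_mul]
  exact Q_le_exp y⟩

theorem expD_V_T6b : ExpD V := (expD_Q_T6b.pow 3).const_mul 5

theorem bdd_tn : Bdd tn := ⟨cont_T6b hasDerivAt_tn, 1, fun y => (abs_tn_lt y).le⟩
theorem expD_sc : ExpD sc :=
  ((expD_Q_T6b.pow 3).div_const 3).congr fun y => by linear_combination 1 / 3 * Q_pow4 y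
theorem expD_Q : ExpD Q := expD_Q_T6b
theorem expD_Q1 : ExpD Q1 := (expD_Q.bdd_mul bdd_tn).neg
theorem expD_Q2 : ExpD Q2 := expD_Q.sub (expD_Q.pow 4)
theorem expD_Q3 : ExpD Q3 := expD_Q1.mul_bdd ((Bdd.const 1).sub expD_V_T6b.bdd)
theorem expD_Q4 : ExpD Q4 :=
  (expD_Q2.mul_bdd ((Bdd.const 1).sub expD_V_T6b.bdd)).sub
    (expD_Q1.mul_bdd (expD_V_T6b.bdd_mul (bdd_tn.const_mul 4)).neg.bdd)
theorem expD_V : ExpD V := expD_V_T6b
theorem expD_V1 : ExpD V1 := (expD_V.bdd_mul (bdd_tn.const_mul 4)).neg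
theorem expD_C0 : ExpD C0 := expD_Q.pow 2
theorem expD_C1 : ExpD C1 := (expD_C0.bdd_mul (bdd_tn.const_mul 3)).neg
theorem expD_C2 : ExpD C2 := expD_C0.bdd_mul ((Bdd.const 9).sub expD_V.bdd)
theorem expD_C3 : ExpD C3 :=
  expD_C0.bdd_mul (bdd_tn.mul ((expD_V.bdd.const_mul 7).sub (Bdd.const 27)))
theorem expD_LQ : ExpD LQ := (expD_Q.div_const 2).add expD_Q1.id_mul
theorem expD_LQ1 : ExpD LQ1 := (expD_Q1.const_mul (3 / 2)).add expD_Q2.id_mul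
theorem expD_LQ2 : ExpD LQ2 := (expD_Q2.const_mul (5 / 2)).add expD_Q3.id_mul
theorem test_Q : Test Q Q1 Q2 Q3 :=
  ⟨⟨hasDerivAt_Q, hasDerivAt_Q1, hasDerivAt_Q2, expD_Q3.1⟩, expD_Q, expD_Q1, expD_Q2, expD_Q3⟩
theorem test_Q1 : Test Q1 Q2 Q3 Q4 :=
  ⟨⟨hasDerivAt_Q1, hasDerivAt_Q2, hasDerivAt_Q3, expD_Q4.1⟩, expD_Q1, expD_Q2, expD_Q3, expD_Q4⟩
theorem test_C0 : Test C0 C1 C2 C3 :=
  ⟨⟨hasDerivAt_C0, hasDerivAt_C1, hasDerivAt_C2, expD_C3.1⟩, expD_C0, expD_C1, expD_C2, expD_C3⟩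
theorem isH1_Q : IsH1 Q Q1 := test_Q.h1

/-- `L Q' = 0`. -/
theorem L_Q1 (y : ℝ) : -Q3 y + Q1 y - V y * Q1 y = 0 := by
  rw [Q3]
  ring
/-- `L ΛQ = -2 Q`. -/
theorem L_LQ (y : ℝ) : -LQ2 y + LQ y - V y * LQ y = -2 * Q y := by
  rw [LQ2, LQ, Q3, Q2, V]
  ring
/-- `L Q³ = -8 Q³`. -/
theorem L_C0 (y : ℝ) : -C2 y + C0 y - V y * C0 y = -8 * C0 y := by
  rw [C2, C0]
  ring

end Pool.Agent.MP_8339a4_an

end

section

/-! API: pointwise bounds on the nonlinear terms. -/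

open MeasureTheory Filter Topology Set

namespace Pool.Agent.MP_8339a4_an

theorem mono_T6c (y : ℝ) {e b : ℝ} (he : |e| ≤ b) (j k : ℕ) :
    |Q y ^ j * e ^ k| ≤ (4 / 3) ^ j * b ^ k := by
  rw [abs_mul, abs_pow, abs_pow, abs_of_pos (Q_pos y)]
  exact mul_le_mul (pow_le_pow_left₀ (Q_pos y).le (Q_le y) j)
    (pow_le_pow_left₀ (abs_nonneg e) he k) (by positivity) (by positivity)

theorem mono1_T6c (y : ℝ) {e : ℝ} (he : |e| ≤ 1) (j k : ℕ) :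
    -(4 / 3) ^ j ≤ Q y ^ j * e ^ k ∧ Q y ^ j * e ^ k ≤ (4 / 3) ^ j := by
  have := mono_T6c y he j k
  rw [one_pow, mul_one] at this
  exact abs_le.1 this

theorem mono4_T6c (y e : ℝ) (j k : ℕ) (h : j + k = 4) :
    -(Q y ^ 4 + e ^ 4) ≤ Q y ^ j * e ^ k ∧ Q y ^ j * e ^ k ≤ Q y ^ 4 + e ^ 4 := by
  refine abs_le.1 ?_
  have hq := Q_pos y
  have e4 : |e| ^ 4 = e ^ 4 := Even.pow_abs (by decide) e
  rw [abs_mul, abs_pow, abs_pow, abs_of_pos hq, ← e4]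
  rcases le_total (Q y) |e| with h1 | h1
  · calc Q y ^ j * |e| ^ k ≤ |e| ^ j * |e| ^ k := by gcongr
      _ = |e| ^ 4 := by rw [← pow_add, h]
      _ ≤ _ := le_add_of_nonneg_left (by positivity)
  · calc Q y ^ j * |e| ^ k ≤ Q y ^ j * Q y ^ k := by gcongr
      _ = Q y ^ 4 := by rw [← pow_add, h]
      _ ≤ _ := le_add_of_nonneg_right (by positivity)

theorem fac_T6c {a p c : ℝ} (h1 : -c ≤ p) (h2 : p ≤ c) : |a * p| ≤ c * |a| := by
  rw [abs_mul, mul_comm]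
  exact mul_le_mul_of_nonneg_right (abs_le.2 ⟨h1, h2⟩) (abs_nonneg a)

theorem abs_NN_le (y : ℝ) {e : ℝ} (he : |e| ≤ 1) : |NN y e| ≤ 50 * e ^ 2 := by
  have h := mono1_T6c y he
  have e1 : NN y e = e ^ 2 * (10 * (Q y ^ 3 * e ^ 0) + 10 * (Q y ^ 2 * e ^ 1) +
      5 * (Q y ^ 1 * e ^ 2) + Q y ^ 0 * e ^ 3) := by
    unfold NN
    ring
  rw [e1]
  refine (fac_T6c (c := 50) ?_ ?_).trans_eq (by rw [abs_of_nonneg (sq_nonneg e)])
  · linarith [(h 3 0).1, (h 2 1).1, (h 1 2).1, (h 0 3).1]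
  · linarith [(h 3 0).2, (h 2 1).2, (h 1 2).2, (h 0 3).2]

theorem abs_pow5_sub_le (y : ℝ) {e : ℝ} (he : |e| ≤ 1) :
    |(Q y + e) ^ 5 - Q y ^ 5| ≤ 40 * |e| * (Q y ^ 4 + e ^ 4) := by
  have h := mono4_T6c y e
  have h0 : 0 ≤ Q y ^ 4 + e ^ 4 := by positivity
  have e1 : (Q y + e) ^ 5 - Q y ^ 5 = e * (5 * (Q y ^ 4 * e ^ 0) + 10 * (Q y ^ 3 * e ^ 1) +
      10 * (Q y ^ 2 * e ^ 2) + 5 * (Q y ^ 1 * e ^ 3) + Q y ^ 0 * e ^ 4) := by ring
  rw [e1]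
  refine (fac_T6c (c := 40 * (Q y ^ 4 + e ^ 4)) ?_ ?_).trans_eq (by ring)
  · linarith [(h 4 0 rfl).1, (h 3 1 rfl).1, (h 2 2 rfl).1, (h 1 3 rfl).1, (h 0 4 rfl).1]
  · linarith [(h 4 0 rfl).2, (h 3 1 rfl).2, (h 2 2 rfl).2, (h 1 3 rfl).2, (h 0 4 rfl).2]

theorem abs_pow4_sub_le (y : ℝ) {e : ℝ} (he : |e| ≤ 1) :
    |(Q y + e) ^ 4 - Q y ^ 4| ≤ 30 * |e| := by
  have h := mono1_T6c y he
  have e1 : (Q y + e) ^ 4 - Q y ^ 4 = e * (4 * (Q y ^ 3 * e ^ 0) + 6 * (Q y ^ 2 * e ^ 1) +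
      4 * (Q y ^ 1 * e ^ 2) + Q y ^ 0 * e ^ 3) := by ring
  rw [e1]
  refine fac_T6c ?_ ?_
  · linarith [(h 3 0).1, (h 2 1).1, (h 1 2).1, (h 0 3).1]
  · linarith [(h 3 0).2, (h 2 1).2, (h 1 2).2, (h 0 3).2]

theorem PP_eq_T6c (y e : ℝ) : PP y e = Q y * e ^ 2 * (5 * (Q y ^ 3 * e ^ 0) +
    20 / 3 * (Q y ^ 2 * e ^ 1) + 5 * (Q y ^ 1 * e ^ 2) + 2 * (Q y ^ 0 * e ^ 3)) + e ^ 6 / 3 := by
  unfold PP
  ring

theorem abs_PP_le (y : ℝ) {e : ℝ} (he : |e| ≤ 1) :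
    |PP y e| ≤ 40 * Q y * e ^ 2 + e ^ 6 / 3 := by
  have h := mono1_T6c y he
  have hq := Q_pos y
  rw [PP_eq_T6c]
  refine (abs_add_le _ _).trans (add_le_add ?_ (abs_of_nonneg (by positivity)).le)
  refine (fac_T6c (c := 40) ?_ ?_).trans_eq (by rw [abs_of_nonneg (by positivity)]; ring)
  · linarith [(h 3 0).1, (h 2 1).1, (h 1 2).1, (h 0 3).1]
  · linarith [(h 3 0).2, (h 2 1).2, (h 1 2).2, (h 0 3).2]

theorem abs_PP_sub_le (y : ℝ) {e : ℝ} (he : |e| ≤ 1) :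
    |PP y e - V y * e ^ 2| ≤ 30 * |e| * e ^ 2 := by
  have h := mono1_T6c y he
  have e1 : PP y e - V y * e ^ 2 = e * e ^ 2 * (20 / 3 * (Q y ^ 3 * e ^ 0) +
      5 * (Q y ^ 2 * e ^ 1) + 2 * (Q y ^ 1 * e ^ 2) + 1 / 3 * (Q y ^ 0 * e ^ 3)) := by
    unfold PP V
    ring
  rw [e1]
  refine (fac_T6c (c := 30) ?_ ?_).trans_eq
    (by rw [abs_mul, abs_of_nonneg (sq_nonneg e)]; ring)
  · linarith [(h 3 0).1, (h 2 1).1, (h 1 2).1, (h 0 3).1]
  · linarith [(h 3 0).2, (h 2 1).2, (h 1 2).2, (h 0 3).2]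

theorem PP_le {ε : ℝ} (hε : 0 < ε) :
    ∃ C : ℝ, ∀ y e : ℝ, PP y e ≤ (1 + ε) * e ^ 6 / 3 + C * (Q y * e ^ 2) := by
  refine ⟨33 * (1 + 132 / ε) ^ 3, fun y e => ?_⟩
  have hq := Q_pos y
  have hq1 := Q_le y
  have hR : 0 < 132 / ε := by positivity
  have key : ∀ b : ℝ, 1 ≤ b → |e| ≤ b → 5 * (Q y ^ 3 * e ^ 0) + 20 / 3 * (Q y ^ 2 * e ^ 1) +
      5 * (Q y ^ 1 * e ^ 2) + 2 * (Q y ^ 0 * e ^ 3) ≤ 33 * b ^ 3 := by
    intro b hb he
    have h := fun j k => (abs_le.1 (mono_T6c y he j k)).2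
    have b0 : b ^ 0 ≤ b ^ 3 := pow_le_pow_right₀ hb (by norm_num)
    have b1 : b ^ 1 ≤ b ^ 3 := pow_le_pow_right₀ hb (by norm_num)
    have b2 : b ^ 2 ≤ b ^ 3 := pow_le_pow_right₀ hb (by norm_num)
    have b3 : 0 ≤ b ^ 3 := by positivity
    linarith [h 3 0, h 2 1, h 1 2, h 0 3]
  have e4 : |e| ^ 4 = e ^ 4 := Even.pow_abs (by decide) e
  have k2 : 5 * (Q y ^ 3 * e ^ 0) + 20 / 3 * (Q y ^ 2 * e ^ 1) +
      5 * (Q y ^ 1 * e ^ 2) + 2 * (Q y ^ 0 * e ^ 3) ≤ ε / 4 * e ^ 4 + 33 * (1 + 132 / ε) ^ 3 := by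
    rcases le_total |e| (1 + 132 / ε) with h | h
    · have h1 := key _ (by linarith) h
      have h2 : 0 ≤ ε / 4 * e ^ 4 := by positivity
      linarith
    · have h1 := key |e| (by linarith) le_rfl
      have h2 : 0 ≤ 33 * (1 + 132 / ε) ^ 3 := by positivity
      have h3 : 132 ≤ |e| * ε := (div_le_iff₀ hε).1 (by linarith)
      have h4 : 33 * |e| ^ 3 ≤ ε / 4 * |e| ^ 4 := by
        have := mul_le_mul_of_nonneg_right h3 (pow_nonneg (abs_nonneg e) 3)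
        linarith
      rw [e4] at h4
      linarith
  have k3 := mul_le_mul_of_nonneg_left k2 (show 0 ≤ Q y * e ^ 2 by positivity)
  have k4 : Q y * (ε / 4 * e ^ 6) ≤ 4 / 3 * (ε / 4 * e ^ 6) :=
    mul_le_mul_of_nonneg_right hq1 (by positivity)
  rw [PP_eq_T6c]
  linarith

theorem abs_sq_sub_le (y : ℝ) {e : ℝ} (he : |e| ≤ 1) : |(Q y + e) ^ 2 - e ^ 2| ≤ 4 * Q y := by
  have h := mono1_T6c y he
  have e1 : (Q y + e) ^ 2 - e ^ 2 = Q y * (Q y ^ 1 * e ^ 0 + 2 * (Q y ^ 0 * e ^ 1)) := by ring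
  rw [e1]
  refine (fac_T6c (c := 4) ?_ ?_).trans_eq (by rw [abs_of_pos (Q_pos y)])
  · linarith [(h 1 0).1, (h 0 1).1]
  · linarith [(h 1 0).2, (h 0 1).2]

theorem abs_pow6_sub_le (y : ℝ) {e : ℝ} (he : |e| ≤ 1) :
    |(Q y + e) ^ 6 - e ^ 6| ≤ 150 * Q y := by
  have h := mono1_T6c y he
  have e1 : (Q y + e) ^ 6 - e ^ 6 = Q y * (Q y ^ 5 * e ^ 0 + 6 * (Q y ^ 4 * e ^ 1) +
      15 * (Q y ^ 3 * e ^ 2) + 20 * (Q y ^ 2 * e ^ 3) + 15 * (Q y ^ 1 * e ^ 4) +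
      6 * (Q y ^ 0 * e ^ 5)) := by ring
  rw [e1]
  refine (fac_T6c (c := 150) ?_ ?_).trans_eq (by rw [abs_of_pos (Q_pos y)])
  · linarith [(h 5 0).1, (h 4 1).1, (h 3 2).1, (h 2 3).1, (h 1 4).1, (h 0 5).1]
  · linarith [(h 5 0).2, (h 4 1).2, (h 3 2).2, (h 2 3).2, (h 1 4).2, (h 0 5).2]

theorem abs_sqy_sub_le (y p : ℝ) : |(Q1 y + p) ^ 2 - p ^ 2| ≤ 3 * Q y * (1 + p ^ 2) := by
  have h1 := abs_Q1_le y
  have h2 := abs_le.1 (h1.trans (Q_le y))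
  have e1 : (Q1 y + p) ^ 2 - p ^ 2 = Q1 y * (Q1 y + 2 * p) := by ring
  rw [e1]
  refine (fac_T6c (c := 3 * (1 + p ^ 2)) ?_ ?_).trans ?_
  · nlinarith [sq_nonneg (p + 1), sq_nonneg p]
  · nlinarith [sq_nonneg (p - 1), sq_nonneg p]
  · calc 3 * (1 + p ^ 2) * |Q1 y| ≤ 3 * (1 + p ^ 2) * Q y := by gcongr
      _ = _ := by ring

end Pool.Agent.MP_8339a4_an

end

section

/-! API: integrals of the soliton. -/

open MeasureTheory Filter Topology Set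

namespace Pool.Agent.MP_8339a4_an

theorem zero_T7a {f g G : ℝ → ℝ} (h : ∀ y, HasDerivAt f (G y) y) (e : ∀ y, G y = g y)
    (e0 : ExpD f) (e1 : ExpD g) : ∫ y, g y = 0 :=
  (IsPrim.of_hasDerivAt (fun y => (e y) ▸ h y) e1.1).integral_eq_zero e0.integrable e1.integrable

theorem pos_T7a {f : ℝ → ℝ} (h : ExpD f) (h0 : ∀ y, 0 ≤ f y) (x : ℝ) (hx : f x ≠ 0) :
    0 < ∫ y, f y :=
  integral_pos_of_integrable_nonneg_nonzero h.1 h.integrable h0 hx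

theorem prim_T7a (y : ℝ) :
    HasDerivAt (fun y => Real.sqrt 3 / 2 * Real.arctan (Real.sinh (2 * y))) (Q y ^ 2) y := by
  have h1 : HasDerivAt (fun y : ℝ => 2 * y) 2 y := by
    simpa using (hasDerivAt_id y).const_mul 2
  have h2 := (h1.sinh.arctan).const_mul (Real.sqrt 3 / 2)
  refine h2.congr_deriv ?_
  have h3 := Real.cosh_pos (2 * y)
  rw [Q_sq, add_comm, ← Real.cosh_sq]
  field_simp

theorem integral_Q_sq : ∫ y, Q y ^ 2 = Real.sqrt 3 * Real.pi / 2 := by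
  have h1 : Tendsto (fun y : ℝ => Real.sinh (2 * y)) atTop atTop :=
    Real.sinhOrderIso.tendsto_atTop.comp (tendsto_id.const_mul_atTop (by norm_num))
  have h2 : Tendsto (fun y : ℝ => Real.sinh (2 * y)) atBot atBot :=
    Real.sinhOrderIso.tendsto_atBot.comp (tendsto_id.const_mul_atBot (by norm_num))
  have h3 := ((Real.tendsto_arctan_atTop.mono_right nhdsWithin_le_nhds).comp h1).const_mul
    (Real.sqrt 3 / 2)
  have h4 := ((Real.tendsto_arctan_atBot.mono_right nhdsWithin_le_nhds).comp h2).const_mul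
    (Real.sqrt 3 / 2)
  rw [(IsPrim.of_hasDerivAt prim_T7a (expD_Q.pow 1).1).integral_of_tendsto
    (expD_Q.pow 1).integrable h4 h3]
  ring

theorem integral_Q_pos : 0 < ∫ y, Q y :=
  pos_T7a expD_Q (fun y => (Q_pos y).le) 0 (Q_pos 0).ne'

theorem integral_Q4_pos : 0 < ∫ y, Q y ^ 4 :=
  pos_T7a (expD_Q.pow 3) (fun y => (pow_pos (Q_pos y) _).le) 0 (pow_pos (Q_pos 0) _).ne'

theorem integral_Q1_sq_pos : 0 < ∫ y, Q1 y ^ 2 := by
  refine pos_T7a (expD_Q1.pow 1) (fun y => sq_nonneg _) 1 (pow_ne_zero _ ?_)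
  have h : 0 < tn 1 := by
    rw [tn, Real.tanh_eq_sinh_div_cosh]
    exact div_pos (Real.sinh_pos_iff.2 (by norm_num)) (Real.cosh_pos _)
  exact neg_ne_zero.2 (mul_pos h (Q_pos 1)).ne'

theorem integral_en_Q : ∫ y, en (Q y) (Q1 y) = 0 := by
  refine zero_T7a (f := fun y => Q y * Q1 y / 2)
    (fun y => ((hasDerivAt_Q y).mul (hasDerivAt_Q1 y)).div_const 2) (fun y => ?_)
    ((expD_Q.mul_bdd expD_Q1.bdd).div_const 2)
    (((expD_Q1.pow 1).sub ((expD_Q.pow 5).div_const 3)).congr fun y => rfl)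
  have h := Q1_sq y
  simp only [en, Q2]
  linear_combination (-1 / 2 : ℝ) * h

theorem integral_Q_Q1 : ∫ y, Q y * Q1 y = 0 := by
  refine zero_T7a (f := fun y => Q y * Q y / 2)
    (fun y => ((hasDerivAt_Q y).mul (hasDerivAt_Q y)).div_const 2) (fun y => ?_)
    ((expD_Q.mul_bdd expD_Q.bdd).div_const 2) (expD_Q.mul_bdd expD_Q1.bdd)
  ring

theorem integral_Q_LQ : ∫ y, Q y * LQ y = 0 := by
  refine zero_T7a (f := fun y => y * (Q y * Q y) / 2)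
    (fun y => ((hasDerivAt_id' y).mul ((hasDerivAt_Q y).mul (hasDerivAt_Q y))).div_const 2)
    (fun y => ?_) ((expD_Q.mul_bdd expD_Q.bdd).id_mul.div_const 2) (expD_Q.mul_bdd expD_LQ.bdd)
  simp only [LQ, Pi.mul_apply]
  ring

theorem integral_LQ_Q1 : ∫ y, LQ y * Q1 y = 0 := by
  have h := integral_neg_eq_self (fun y => LQ y * Q1 y) volume
  simp only [LQ_neg, Q1_neg, mul_neg, integral_neg] at h
  linarith

theorem integral_Q1_C0 : ∫ y, Q1 y * C0 y = 0 := by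
  refine zero_T7a (f := fun y => Q y ^ 4 / 4)
    (fun y => ((hasDerivAt_Q y).pow 4).div_const 4) (fun y => ?_)
    ((expD_Q.pow 3).div_const 4) (expD_Q1.mul_bdd expD_C0.bdd)
  simp only [C0]
  push_cast
  ring

theorem integral_LQ_C0 : ∫ y, LQ y * C0 y = (∫ y, Q y ^ 4) / 4 := by
  have i1 := expD_LQ.mul_bdd expD_C0.bdd
  have i2 := (expD_Q.pow 3).div_const 4
  have h : ∫ y, (LQ y * C0 y - Q y ^ 4 / 4) = 0 := by
    refine zero_T7a (f := fun y => y * Q y ^ 4 / 4)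
      (fun y => ((hasDerivAt_id' y).mul ((hasDerivAt_Q y).pow 4)).div_const 4) (fun y => ?_)
      ((expD_Q.pow 3).id_mul.div_const 4) (i1.sub i2)
    simp only [C0, LQ, Pi.pow_apply]
    push_cast
    ring
  rw [integral_sub i1.integrable i2.integrable, integral_div] at h
  linarith

theorem mm_eq : mm = -(∫ y, Q y) / 2 := by
  have i2 := expD_Q.div_const 2
  have h : ∫ y, (LQ y + Q y / 2) = 0 := by
    refine zero_T7a (f := fun y => y * Q y)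
      (fun y => (hasDerivAt_id' y).mul (hasDerivAt_Q y)) (fun y => ?_)
      expD_Q.id_mul (expD_LQ.add i2)
    simp only [LQ]
    ring
  rw [integral_add expD_LQ.integrable i2.integrable, integral_div] at h
  rw [mm]
  linarith

theorem mm_ne : mm ≠ 0 := by
  have h := integral_Q_pos
  rw [mm_eq]
  linarith

end Pool.Agent.MP_8339a4_an

end

section

/-! If the remainder converges in `L^2` there is no second bubble. -/

open MeasureTheory Filter Topology Set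

namespace Pool.Agent.MP_8339a4_an

theorem small_mass_Res {r : ℝ → ℝ} (hr : MemLp r 2 volume) {δ : ℝ} (hδ : 0 < δ) :
    ∃ η : ℝ, 0 < η ∧ ∀ x : ℝ, ∫ z in x..(x + η), r z ^ 2 ≤ δ := by
  have hi : Integrable (fun z => r z ^ 2) := integrable_sq2 hr
  by_contra hc
  push Not at hc
  choose x hx using fun n : ℕ => hc (1 / ((n : ℝ) + 1)) (by positivity)
  have h0 : Tendsto (fun n : ℕ => volume (Ioc (x n) (x n + 1 / ((n : ℝ) + 1)))) atTop (𝓝 0) := by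
    simp only [Real.volume_Ioc, add_sub_cancel_left]
    have := ENNReal.tendsto_ofReal tendsto_one_div_add_atTop_nhds_zero_nat
    simpa using this
  have h1 := hi.tendsto_setIntegral_nhds_zero h0
  obtain ⟨n, hn⟩ := (h1.eventually (gt_mem_nhds hδ)).exists
  have h2 := hx n
  rw [intervalIntegral.integral_of_le (by
    have : (0 : ℝ) < 1 / ((n : ℝ) + 1) := by positivity
    linarith)] at h2
  exact absurd hn (not_lt.mpr h2.le)

theorem single_of_residue {t0 x0 : ℝ} {u ux : ℝ → ℝ → ℝ} {lam sig r : ℝ → ℝ} (ht0 : 0 < t0)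
    (hs : IsSol (Ioc 0 t0) u ux) (hb : Bubble t0 u lam sig x0) (hr : MemLp r 2 volume)
    (h : Tendsto (fun t => ∫ z, (u t z - Q ((z - sig t) / lam t) / Real.sqrt (lam t) - r z) ^ 2)
      (𝓝[>] 0) (𝓝 0)) : Single u lam sig := by
  have hQ : 0 < ∫ y, Q y ^ 2 := by rw [integral_Q_sq]; positivity
  obtain ⟨q, hq⟩ : ∃ q, q = ∫ y, Q y ^ 2 := ⟨_, rfl⟩
  rw [← hq] at hQ
  obtain ⟨η, hη, hx⟩ := small_mass_Res hr (show 0 < q / 8 by positivity)
  refine ⟨η, q / 2, hη, by rw [← hq]; linarith, ?_⟩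
  filter_upwards [h.eventually (gt_mem_nhds (show 0 < q / 8 by positivity)),
    Ioc_mem_nhdsGT ht0] with t h1 ht x
  have hl := hb.pos t ht
  have mQ : MemLp (fun z => Q ((z - sig t) / lam t) / Real.sqrt (lam t)) 2 volume := by
    have e := ((expD_Q.comp_affine (a := (lam t)⁻¹) (inv_ne_zero hl.ne') (-(sig t / lam t))).div_const
      (Real.sqrt (lam t))).memLp
    refine e.ae_eq (Eventually.of_forall fun z => ?_) 
    have : (lam t)⁻¹ * z + -(sig t / lam t) = (z - sig t) / lam t := by field_simp; ring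
    simp only [this]
  have mf : MemLp (fun z => u t z - Q ((z - sig t) / lam t) / Real.sqrt (lam t)) 2 volume :=
    (hs.h1 t ht).1.sub mQ
  have i0 := integrable_sq2 mf
  have i1 : Integrable (fun z => (u t z - Q ((z - sig t) / lam t) / Real.sqrt (lam t) - r z) ^ 2) :=
    integrable_sq2 (mf.sub hr)
  have i2 := integrable_sq2 hr
  have hle : x ≤ x + η := by linarith
  have a1 : ∫ z in x..(x + η), (u t z - Q ((z - sig t) / lam t) / Real.sqrt (lam t)) ^ 2 ≤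
      ∫ z in x..(x + η), (2 * (u t z - Q ((z - sig t) / lam t) / Real.sqrt (lam t) - r z) ^ 2
        + 2 * r z ^ 2) := by
    refine intervalIntegral.integral_mono_on hle i0.intervalIntegrable
      (((i1.const_mul 2).add (i2.const_mul 2)).intervalIntegrable) fun z _ => ?_
    nlinarith [sq_nonneg (u t z - Q ((z - sig t) / lam t) / Real.sqrt (lam t) - 2 * r z)]
  rw [intervalIntegral.integral_add (i1.const_mul 2).intervalIntegrable
    (i2.const_mul 2).intervalIntegrable, intervalIntegral.integral_const_mul,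
    intervalIntegral.integral_const_mul] at a1
  have a2 : ∫ z in x..(x + η), (u t z - Q ((z - sig t) / lam t) / Real.sqrt (lam t) - r z) ^ 2 ≤
      ∫ z, (u t z - Q ((z - sig t) / lam t) / Real.sqrt (lam t) - r z) ^ 2 := by
    rw [intervalIntegral.integral_of_le hle]
    exact setIntegral_le_integral i1 (Eventually.of_forall fun z => sq_nonneg _)
  have a3 := hx x
  linarith

end Pool.Agent.MP_8339a4_an

end
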