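import Pool.Agent.Mg.F8339a4.G1d67fe

section

/-! The statements of the steps of the proof. -/

open MeasureTheory Filter Topology Set

namespace Pool.Agent.MP_8339a4_an

noncomputable section

/-! ### W block: local laws for `H^1` weak solutions -/

def P0Stmt : Prop := ∀ (I : Set ℝ) (u ux : ℝ → ℝ → ℝ), IsSol I u ux → ∀ a b : ℝ, a ≤ b →
  Icc a b ⊆ I → ∀ θ θ1 θ2 θ3 : ℝ → ℝ, Test θ θ1 θ2 θ3 →
    (∫ x, u b x * θ x) - (∫ x, u a x * θ x)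
      = ∫ t in a..b, ∫ x, (u t x * θ3 x + u t x ^ 5 * θ1 x)

def P1Stmt : Prop := ∀ (I : Set ℝ) (u ux : ℝ → ℝ → ℝ), IsSol I u ux → ∀ a b : ℝ, a ≤ b →
  Icc a b ⊆ I → ∀ W W1 W2 W3 : ℝ → ℝ, Wt W W1 W2 W3 →
    (∫ x, u b x ^ 2 * W x) - (∫ x, u a x ^ 2 * W x)
      = ∫ t in a..b, ∫ x, fl1 (u t x) (ux t x) (W1 x) (W3 x)

def P2Stmt : Prop := ∀ (I : Set ℝ) (u ux : ℝ → ℝ → ℝ), IsSol I u ux → ∀ a b : ℝ, a ≤ b →
  Icc a b ⊆ I → ∀ W W1 W2 W3 : ℝ → ℝ, Wt W W1 W2 W3 → (∀ x, 0 ≤ W1 x) →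
    ∀ g gy : ℝ → ℝ, IsH1 g gy →
    (∫ x, en (u b x) (ux b x) * W x) - (∫ x, en (u a x) (ux a x) * W x)
      ≤ ∫ t in a..b, ∫ x, fl2 (u t x) (ux t x) (g x) (gy x) (W1 x) (W2 x) (W3 x)

/-! ### Static inequalities -/

def NagyIStmt : Prop := ∀ q m0 : ℝ, 0 < q → Real.sqrt q * m0 < Real.pi / 2 →
  ∃ C : ℝ, 0 ≤ C ∧ ∀ (a b : ℝ) (w wy : ℝ → ℝ), a ≤ b → IsPrim w wy →
    IntervalIntegrable (fun y => wy y ^ 2) volume a b → (∫ y in a..b, w y ^ 2) ≤ m0 →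
    -(C * (w a ^ 4 + w b ^ 4)) ≤ ∫ y in a..b, (wy y ^ 2 - q * w y ^ 6)

def NagyGStmt : Prop := ∀ M d : ℝ, d < ∫ y, Q y ^ 2 → ∃ c C : ℝ, 0 < c ∧
  ∀ (l : ℝ) (w wy : ℝ → ℝ), 0 < l → IsH1 w wy → (∫ y, w y ^ 2) ≤ M → LocM w l d →
    c * ∫ y, wy y ^ 2 ≤ (∫ y, (wy y ^ 2 - (1 + c) * w y ^ 6 / 3)) + C / l ^ 2

def NagyWStmt : Prop := ∀ M d : ℝ, d < ∫ y, Q y ^ 2 → ∃ c C : ℝ, 0 < c ∧ 0 ≤ C ∧
  ∀ (l : ℝ) (w wy φ φ1 : ℝ → ℝ), 0 < l → IsH1 w wy → (∫ y, w y ^ 2) ≤ M → LocM w l d →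
    (∀ y, HasDerivAt φ (φ1 y) y) → ExpD φ1 → (∀ y, 0 ≤ φ1 y) → (∀ y, φ y ≤ 1) →
    Tendsto φ atBot (𝓝 0) →
    c * ∫ y, φ y * (wy y ^ 2 + w y ^ 6)
      ≤ (∫ y, φ y * en (w y) (wy y)) + C * (∫ y, φ1 y * w y ^ 4) + C / l ^ 2

def C1Stmt : Prop := ∃ c C : ℝ, 0 < c ∧ 0 ≤ C ∧ ∀ e ey : ℝ → ℝ, IsH1 e ey →
  c * ∫ y, (e y ^ 2 + ey y ^ 2) ≤ (∫ y, (ey y ^ 2 + e y ^ 2 - V y * e y ^ 2))
    + C * ((∫ y, e y * C0 y) ^ 2 + (∫ y, e y * Q1 y) ^ 2)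

def C1wStmt : Prop := ∃ c C ε0 : ℝ, 0 < c ∧ 0 ≤ C ∧ 0 < ε0 ∧ ∀ ψ ψ1 : ℝ → ℝ,
  (∀ y, HasDerivAt ψ (ψ1 y) y) → Continuous ψ1 → Bdd ψ → (∀ y, 0 < ψ y) →
  (∀ y, |ψ1 y| ≤ ε0 * ψ y) → |ψ 0 - 1| ≤ ε0 → ∀ e ey : ℝ → ℝ, IsH1 e ey →
    c * ∫ y, ψ y * (e y ^ 2 + ey y ^ 2) ≤ (∫ y, ψ y * (ey y ^ 2 + e y ^ 2 - V y * e y ^ 2))
      + C * ((∫ y, e y * C0 y) ^ 2 + (∫ y, e y * Q1 y) ^ 2)

def C2Stmt : Prop := ∃ c C : ℝ, 0 < c ∧ 0 ≤ C ∧ ∀ h hy : ℝ → ℝ, IsH1 h hy →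
  c * ∫ y, sc y * (h y ^ 2 + hy y ^ 2)
    ≤ (∫ y, sc y * (hy y + tn y * h y) ^ 2) + C * (∫ y, h y * C0 y) ^ 2

def G0Stmt : Prop := ∀ M d : ℝ, d < ∫ y, Q y ^ 2 → ∃ c C : ℝ, 0 < c ∧ 0 ≤ C ∧
  ∀ (l : ℝ) (e ey : ℝ → ℝ), 0 < l → IsH1 e ey → (∫ y, e y ^ 2) ≤ M → LocM e l d →
    c * ∫ y, ey y ^ 2
      ≤ (∫ y, en (Q y + e y) (Q1 y + ey y)) + 2 * mu e + C * (1 / l ^ 2 + N0 e)

/-! ### M block: from the hypotheses to `Setup` -/

def ConsStmt : Prop := ∀ (I : Set ℝ) (u ux : ℝ → ℝ → ℝ), IsSol I u ux → ∀ a b : ℝ, a ≤ b →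
  Icc a b ⊆ I → (∫ x, u b x ^ 2) = (∫ x, u a x ^ 2) ∧
    (∫ x, en (u b x) (ux b x)) ≤ ∫ x, en (u a x) (ux a x)

def ReflStmt : Prop := ∀ (t0 ν : ℝ) (u ux : ℝ → ℝ → ℝ) (lam sig : ℝ → ℝ) (x0 : ℝ), 0 < t0 →
  IsSol (Ioc 0 t0) u ux → PowerRate t0 ν ux → Bubble t0 u lam sig x0 →
  ((∫ x, u t0 x ^ 2) < 2 * ∫ y, Q y ^ 2 ∨ Single u lam sig) →
  Phys (-t0) ν (fun t x => u (-t) (-x)) (fun t x => -ux (-t) (-x)) (fun t => lam (-t))
    (fun t => -sig (-t)) (-x0)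

/-- Existence of continuous modulation parameters. -/
def ModAStmt : Prop := ∀ (T ν : ℝ) (u ux : ℝ → ℝ → ℝ) (lt st : ℝ → ℝ) (x0 : ℝ),
  Phys T ν u ux lt st x0 → ∃ (T1 : ℝ) (lam sig : ℝ → ℝ), T ≤ T1 ∧ T1 < 0 ∧
    (∀ t ∈ Ioo T1 (0 : ℝ), 0 < lam t ∧ ContinuousAt lam t ∧ ContinuousAt sig t ∧
      (∫ y, resc u lam sig t y * C0 y) = 0 ∧ (∫ y, resc u lam sig t y * Q1 y) = 0) ∧
    Tendsto (fun t => lam t / lt t) (𝓝[<] 0) (𝓝 1) ∧
    Tendsto (fun t => (sig t - st t) / lt t) (𝓝[<] 0) (𝓝 0) ∧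
    Tendsto (fun t => N0 (resc u lam sig t)) (𝓝[<] 0) (𝓝 0)

/-- Continuous modulation parameters are differentiable where `N0` is small. -/
def ModBStmt : Prop := ∃ δ : ℝ, 0 < δ ∧ ∀ (T : ℝ) (u ux : ℝ → ℝ → ℝ) (lam sig : ℝ → ℝ) (t : ℝ),
  IsSol (Ico T 0) u ux → T < t → t < 0 → 0 < lam t → ContinuousAt lam t → ContinuousAt sig t →
  (∀ᶠ z in 𝓝 t, (∫ y, resc u lam sig z y * C0 y) = 0 ∧ (∫ y, resc u lam sig z y * Q1 y) = 0) →
  N0 (resc u lam sig t) ≤ δ → DifferentiableAt ℝ lam t ∧ DifferentiableAt ℝ sig t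

def FlowHStmt : Prop := ∀ (T : ℝ) (u ux : ℝ → ℝ → ℝ) (lam sig : ℝ → ℝ) (t : ℝ),
  IsSol (Ico T 0) u ux → T < t → t < 0 → 0 < lam t → ContinuousAt lam t → ContinuousAt sig t →
  H1T (𝓝 t) (resc u lam sig) (rescy ux lam sig) (resc u lam sig t) (rescy ux lam sig t)

def Flow0Stmt : Prop := ∀ (T : ℝ) (u ux : ℝ → ℝ → ℝ) (lam sig : ℝ → ℝ) (t l' s' : ℝ),
  IsSol (Ico T 0) u ux → T < t → t < 0 → 0 < lam t → HasDerivAt lam l' t → HasDerivAt sig s' t →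
  ∀ θ θ1 θ2 θ3 : ℝ → ℝ, Test θ θ1 θ2 θ3 →
    HasDerivAt (fun z => ∫ y, resc u lam sig z y * θ y) ((lam t ^ 3)⁻¹ *
      rhs0 (-(lam t ^ 2 * l')) (lam t ^ 2 * s' - 1) (resc u lam sig t) θ θ1 θ3) t

def Flow1Stmt : Prop := ∀ (T : ℝ) (u ux : ℝ → ℝ → ℝ) (lam sig : ℝ → ℝ) (t l' s' : ℝ),
  IsSol (Ico T 0) u ux → T < t → t < 0 → 0 < lam t → HasDerivAt lam l' t → HasDerivAt sig s' t →
  ∀ W W1 W2 W3 : ℝ → ℝ, Wt W W1 W2 W3 →
    HasDerivAt (fun z => ∫ y, (Q y + resc u lam sig z y) ^ 2 * W y) ((lam t ^ 3)⁻¹ *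
      rhs1 (-(lam t ^ 2 * l')) (lam t ^ 2 * s' - 1) (resc u lam sig t) (rescy ux lam sig t)
        W1 W3) t

def Flow2Stmt : Prop := ∀ (T : ℝ) (u ux : ℝ → ℝ → ℝ) (lam sig : ℝ → ℝ) (t l' s' : ℝ),
  IsSol (Ico T 0) u ux → T < t → t < 0 → 0 < lam t → HasDerivAt lam l' t → HasDerivAt sig s' t →
  ∀ W W1 W2 W3 : ℝ → ℝ, Wt W W1 W2 W3 → (∀ y, 0 ≤ W1 y) → ∀ g gy : ℝ → ℝ, IsH1 g gy →
    DiniLe (fun z => ∫ y, en (Q y + resc u lam sig z y) (Q1 y + rescy ux lam sig z y) * W y) t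
      ((lam t ^ 3)⁻¹ * rhs2 (-(lam t ^ 2 * l')) (lam t ^ 2 * s' - 1) (resc u lam sig t)
        (rescy ux lam sig t) g gy W W1 W2 W3)

def SmallStmt : Prop := ∀ (T ν : ℝ) (u ux : ℝ → ℝ → ℝ) (lt st : ℝ → ℝ) (x0 : ℝ)
  (lam sig : ℝ → ℝ), Phys T ν u ux lt st x0 →
  Tendsto (fun t => lam t / lt t) (𝓝[<] 0) (𝓝 1) →
  Tendsto (fun t => (sig t - st t) / lt t) (𝓝[<] 0) (𝓝 0) →
  Tendsto lam (𝓝[<] 0) (𝓝 0) ∧ Tendsto sig (𝓝[<] 0) (𝓝 x0) ∧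
  ∃ M E η d : ℝ, 0 < η ∧ d < ∫ y, Q y ^ 2 ∧ ∀ᶠ t in 𝓝[<] (0 : ℝ),
    (∫ y, resc u lam sig t y ^ 2) ≤ M ∧ LocM (resc u lam sig t) (η / lam t) d ∧
    (∫ y, en (Q y + resc u lam sig t y) (Q1 y + rescy ux lam sig t y)) ≤ E * lam t ^ 2 ∧
    (∫ y, (Q1 y + rescy ux lam sig t y) ^ 2) = lam t ^ 2 * ∫ x, ux t x ^ 2

def ParStmt : Prop := ∃ δ C : ℝ, 0 < δ ∧ 0 ≤ C ∧ ∀ (e ey : ℝ → ℝ → ℝ) (lam β γ : ℝ → ℝ)
  (w s : ℝ), FlowAt e ey lam β γ w s → w ≠ 0 → (∀ y, |e s y| ≤ 1) → N0 (e s) ≤ δ →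
    β s ^ 2 + γ s ^ 2 ≤ C * N0 (e s)

def TimeStmt : Prop := ∀ (e ey : ℝ → ℝ → ℝ) (lam β γ τ : ℝ → ℝ) (w s τ' : ℝ),
  FlowAt e ey lam β γ w (τ s) → HasDerivAt τ τ' s → 0 < τ' →
  FlowAt (fun z => e (τ z)) (fun z => ey (τ z)) (fun z => lam (τ z)) (fun z => β (τ z))
    (fun z => γ (τ z)) (w * τ') s

/-- The situation in physical time `t ↑ 0` after modulation. -/
structure PSetup (T1 ν c0 c1 M η d Cp : ℝ) (e ey : ℝ → ℝ → ℝ) (lam β γ : ℝ → ℝ) : Prop where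
  neg : T1 < 0
  hc0 : 0 < c0
  hη : 0 < η
  hd : d < ∫ y, Q y ^ 2
  flow : ∀ t ∈ Ioo T1 (0 : ℝ), FlowAt e ey lam β γ (lam t ^ 3)⁻¹ t
  rate : ∀ t ∈ Ioo T1 (0 : ℝ), c0 * (-t) ^ ν ≤ lam t ∧ lam t ≤ c1 * (-t) ^ ν
  mass : ∀ t ∈ Ioo T1 (0 : ℝ), ∫ y, e t y ^ 2 ≤ M
  loc : ∀ t ∈ Ioo T1 (0 : ℝ), LocM (e t) (η / lam t) d
  n0 : Tendsto (fun t => N0 (e t)) (𝓝[<] 0) (𝓝 0)
  ey0 : Tendsto (fun t => ∫ y, ey t y ^ 2) (𝓝[<] 0) (𝓝 0)
  par : ∀ t ∈ Ioo T1 (0 : ℝ), β t ^ 2 + γ t ^ 2 ≤ Cp * N0 (e t)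
  mulo : ∀ t ∈ Ioo T1 (0 : ℝ), -(Cp * (lam t ^ 2 + N0 (e t))) ≤ mu (e t)

def FinAStmt : Prop := ∀ (T ν : ℝ) (u ux : ℝ → ℝ → ℝ) (lt st : ℝ → ℝ) (x0 : ℝ),
  Phys T ν u ux lt st x0 → ∃ (T1 c0 c1 M η d Cp : ℝ) (e ey : ℝ → ℝ → ℝ) (lam β γ sig : ℝ → ℝ),
    PSetup T1 ν c0 c1 M η d Cp e ey lam β γ ∧
    (∀ t ∈ Ioo T1 (0 : ℝ), HasDerivAt sig ((1 + γ t) / lam t ^ 2) t) ∧
    Tendsto sig (𝓝[<] 0) (𝓝 x0)

def FinBStmt : Prop := ∀ (T1 ν c0 c1 M η d Cp : ℝ) (e ey : ℝ → ℝ → ℝ) (lam β γ sig : ℝ → ℝ)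
  (x0 : ℝ), 0 < ν → PSetup T1 ν c0 c1 M η d Cp e ey lam β γ →
  (∀ t ∈ Ioo T1 (0 : ℝ), HasDerivAt sig ((1 + γ t) / lam t ^ 2) t) →
  Tendsto sig (𝓝[<] 0) (𝓝 x0) → 1 / 3 < ν ∧ ν < 1 / 2

def FinCStmt : Prop := ∀ (T1 ν c0 c1 M η d Cp : ℝ) (e ey : ℝ → ℝ → ℝ) (lam β γ : ℝ → ℝ),
  1 / 3 < ν → PSetup T1 ν c0 c1 M η d Cp e ey lam β γ →
  ∃ (s0 r0 r1 : ℝ) (e' ey' : ℝ → ℝ → ℝ) (lam' β' γ' : ℝ → ℝ),
    Setup (ν / (3 * ν - 1)) s0 r0 r1 M η d Cp e' ey' lam' β' γ'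

/-! ### G block: the virial estimate -/

def GSStmt : Prop := ∀ (κ s0 r0 r1 M η d Cp : ℝ) (e ey : ℝ → ℝ → ℝ) (lam β γ : ℝ → ℝ),
  Setup κ s0 r0 r1 M η d Cp e ey lam β γ → ∀ θ : ℝ, 0 < θ → ∃ Ca b0 : ℝ, 0 ≤ Ca ∧ 0 < b0 ∧
    ∀ b : ℝ, b0 ≤ b → ∃ G : ℝ → ℝ, ∀ᶠ s in atTop, |G s| ≤ Ca * Nw b (e s) (ey s) ∧
      ∃ G' : ℝ, HasDerivAt G G' s ∧ G' ≤ -N0 (e s) + θ * Nw b (e s) (ey s)

/-! ### S block: the two scalar lemmas -/

def S2Stmt : Prop := ∀ (κ c C r0 r1 s1 : ℝ) (lam β a f m E k : ℝ → ℝ),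
  3 / 2 ≤ κ → 0 < c → 0 < r0 → 1 ≤ s1 →
  (∀ s, s1 < s → HasDerivAt lam (-(β s) * lam s) s ∧ r0 ≤ lam s * s ^ κ ∧ lam s * s ^ κ ≤ r1) →
  (∀ s, s1 < s → ContinuousAt f s ∧ 0 ≤ f s ∧ ∃ a' : ℝ, HasDerivAt a a' s ∧
    |a' + β s * a s / 2| ≤ C * (Real.sqrt (f s) + s ^ (-(2 * κ + 10)))) →
  (∀ s, s1 < s → 0 ≤ m s ∧ ∃ m' : ℝ, HasDerivAt m m' s ∧
    m' ≤ -(a s ^ 2 / 4) + C * s ^ (-(2 * κ + 10))) →
  (∀ s, s1 < s → ContinuousAt E s ∧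
    DiniLe E s (-(2 * β s * E s) - f s / 8 + C * (a s ^ 6 + s ^ (-(2 * κ + 10))))) →
  (∀ s, s1 < s → 0 ≤ k s ∧ c * k s ≤ E s + C * (lam s ^ 2 + a s ^ 4 + s ^ (-(2 * κ + 10)))) →
  ∃ C' v : ℝ, (∀ᶠ s in atTop, k s ≤ C' * lam s ^ 2 ∧ a s ^ 2 ≤ C' * lam s) ∧
    Tendsto (fun s => (a s / Real.sqrt (lam s) - v) * s ^ ((κ - 1) / 2)) atTop (𝓝 0)

def S1Stmt : Prop := ∀ (κ m c C r0 r1 s1 v : ℝ) (lam β μ D a aL JR JL M Φ : ℝ → ℝ),
  3 / 2 ≤ κ → m ≠ 0 → 0 < c → 0 < r0 → 1 ≤ s1 →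
  (∀ s, s1 < s → HasDerivAt lam (-(β s) * lam s) s ∧ r0 ≤ lam s * s ^ κ ∧ lam s * s ^ κ ≤ r1) →
  (∀ s, s1 < s → ContinuousAt D s ∧ 0 ≤ D s ∧ D s ≤ C * Lm s ∧ β s ^ 2 ≤ C * D s) →
  Tendsto μ atTop (𝓝 0) →
  (∀ s, s1 < s → (∃ μ' : ℝ, HasDerivAt μ μ' s ∧ |μ'| ≤ C * D s) ∧
    -(C * (D s + s ^ (-(3 : ℝ) / 2))) ≤ μ s) →
  (∀ s, s1 < s → (∃ a' : ℝ, HasDerivAt a a' s ∧ |a'| ≤ C * (D s + s ^ (-(3 : ℝ) / 2))) ∧
    a s ^ 2 ≤ C * lam s) →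
  Tendsto (fun s => (a s / Real.sqrt (lam s) - v) * s ^ ((κ - 1) / 2)) atTop (𝓝 0) →
  (∀ s, s1 < s → JR s ^ 2 + JL s ^ 2 ≤ C * (Lm s * D s) ∧
    |M s - 2 * μ s| ≤ C * (Lm s * D s + s ^ (-(3 : ℝ) / 2))) →
  (∀ s, s1 < s → ContinuousAt Φ s ∧ c * D s - C * (Lm s * s ^ (-(3 : ℝ) / 2)) ≤ Φ s ∧
    Φ s ≤ C * (D s + Lm s * s ^ (-(3 : ℝ) / 2)) ∧
    DiniLe Φ s (-(c * D s) + C * (μ s ^ 2 + Lm s * s ^ (-(3 : ℝ) / 2)))) →
  (∀ s, s1 < s → ∃ J' : ℝ, HasDerivAt JR J' s ∧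
    |J' - (2 * μ s - m ^ 2 / 2 * β s + m * a s + β s * JR s / 2)|
      ≤ C * (D s + s ^ (-(3 : ℝ) / 2))) →
  (∀ s, s1 < s → ∃ J' : ℝ, HasDerivAt JL J' s ∧
    |J' - (2 * μ s + m ^ 2 / 2 * β s + m * aL s)| ≤ C * (Lm s * D s + s ^ (-(3 : ℝ) / 2))) →
  (∀ s, s1 < s → ∃ M' : ℝ, HasDerivAt M M' s ∧ ∀ ω : ℝ,
    M' ≤ a s ^ 2 + ω ^ 2 - 2 * ω * aL s + C * (s ^ (-(9 : ℝ) / 4)
      + Lm s * ((Real.sqrt (D s) + 1 / s) * (D s + s ^ (-(3 : ℝ) / 2)) + D s ^ 2))) →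
  κ = 2

/-! ### E block -/

/-- All the data in rescaled time, with the parameters `K`, `CA`. -/
structure Dat where
  κ : ℝ
  s0 : ℝ
  r0 : ℝ
  r1 : ℝ
  M : ℝ
  η : ℝ
  d : ℝ
  Cp : ℝ
  K : ℝ
  CA : ℝ
  e : ℝ → ℝ → ℝ
  ey : ℝ → ℝ → ℝ
  lam : ℝ → ℝ
  β : ℝ → ℝ
  γ : ℝ → ℝ
  st : Setup κ s0 r0 r1 M η d Cp e ey lam β γ
  pr : Par κ r1 K CA

namespace Dat

variable (X : Dat)

def r (s : ℝ) : ℝ := rr X.κ X.lam s
def A (s : ℝ) : ℝ := AA X.CA s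
def tau (s : ℝ) : ℝ := s ^ (-(2 * X.κ + 10))
def a (s : ℝ) : ℝ := qa (X.r s) (X.A s) X.K (X.e s)
def f (s : ℝ) : ℝ := qf (X.r s) (X.A s) X.K (X.ey s)
def Kf (s : ℝ) : ℝ := qK (X.r s) (X.A s) X.K (X.ey s)
def k6 (s : ℝ) : ℝ := q6 (X.r s) (X.A s) X.K (X.e s)
def m (s : ℝ) : ℝ := qm (X.r s) (X.A s) X.K (X.e s)
def E (s : ℝ) : ℝ := qe (X.r s) (X.A s) X.K (X.e s) (X.ey s)
def aL (s : ℝ) : ℝ := qaL (X.r s) (X.A s) X.K (X.e s)
def D (B s : ℝ) : ℝ := qD (X.r s) (X.A s) X.K B (X.e s) (X.ey s)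
def JR (s : ℝ) : ℝ := qJ (X.r s) (X.A s) X.K (X.e s)
def JL (s : ℝ) : ℝ := qJ (X.r s) (-(X.A s)) X.K (X.e s)
def MM (s : ℝ) : ℝ := qM (X.r s) (X.A s) X.K (X.e s)
def F (B s : ℝ) : ℝ := qF (X.r s) (X.A s) X.K B (X.e s) (X.ey s)
def μ (s : ℝ) : ℝ := mu (X.e s)
def N (s : ℝ) : ℝ := N0 (X.e s)
/-- The quantities living on the right of the step. -/
def Z (s : ℝ) : ℝ := X.a s ^ 2 + X.Kf s + X.k6 s + X.tau s

end Dat

/-- Density `e_y² + e² - P`. -/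
def hH (y e p : ℝ) : ℝ := p ^ 2 + e ^ 2 - PP y e

/-- Main flux density for `qH` (`e`, `p` are the values of `e`, `e_y` at `y`). -/
def hT1 (y e p W1 W2 W3 : ℝ) : ℝ :=
  6 * (-(V1 y * e + V y * p) * W1 + -(V y * e) * W2) * p + 3 * (V y * e) ^ 2 * W1
    - 4 * W1 * (p - 5 * ((Q y + e) ^ 4 * (Q1 y + p) - Q y ^ 4 * Q1 y)) * p
    - 2 * W2 * (e - ((Q y + e) ^ 5 - Q y ^ 5)) * p
    - W1 * (e - ((Q y + e) ^ 5 - Q y ^ 5)) ^ 2 + W3 * p ^ 2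

/-- Terms linear in `e` and in the parameters. -/
def hT2 (β γ y e W W1 : ℝ) : ℝ :=
  β * (4 * e * Q y * W + 2 * e * W1 * LQ1 y) - 2 * γ * W1 * Q2 y * e

/-- Terms quadratic in `e`, linear in the parameters (without the dilation of the weight). -/
def hT3 (β γ y e p W W1 : ℝ) : ℝ := -(γ * W1 * hH y e p) - 2 * β * W * (p ^ 2 - PP y e)

def HStmt : Prop := ∀ (e ey : ℝ → ℝ → ℝ) (lam β γ : ℝ → ℝ) (s : ℝ), FlowAt e ey lam β γ 1 s →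
  ∀ W W1 W2 W3 W4 : ℝ → ℝ, Wt W W1 W2 W3 → (∀ y, HasDerivAt W3 (W4 y) y) → Bdd W4 →
    (∀ y, 0 ≤ W1 y) → DiniLe (fun z => qH W (e z) (ey z)) s
      (∫ y, (hT1 y (e s y) (ey s y) (W1 y) (W2 y) (W3 y) + hT2 (β s) (γ s) y (e s y) (W y) (W1 y)
        + hT3 (β s) (γ s) y (e s y) (ey s y) (W y) (W1 y)
        + β s * (hH y (e s y) (ey s y) * (y * W1 y))))

/-- `ω = W φ` and its first and third derivatives. -/
def om (r A K B y : ℝ) : ℝ := WW r A B y * ph r A K y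
def om1 (r A K B y : ℝ) : ℝ := WW1 r A B y * ph r A K y + WW r A B y * ph1 r A K y
def om3 (r A K B y : ℝ) : ℝ := WW3 r A B y * ph r A K y + 3 * (WW2 r A B y * ph1 r A K y)
  + 3 * (WW1 r A B y * ph2 r A K y) + WW r A B y * ph3 r A K y

namespace Dat

variable (X : Dat)

/-- The slow drift `κ y / s - A'/r` of the steps centred at `A / r`. -/
def dr (s y : ℝ) : ℝ := X.κ * y / s - X.CA / (s * X.r s)

def I1 (B s : ℝ) : ℝ := ∫ y, hT1 y (X.e s y) (X.ey s y) (WW1 (X.r s) (X.A s) B y)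
  (WW2 (X.r s) (X.A s) B y) (WW3 (X.r s) (X.A s) B y)
def I2 (B s : ℝ) : ℝ := ∫ y, hT2 (X.β s) (X.γ s) y (X.e s y) (WW (X.r s) (X.A s) B y)
  (WW1 (X.r s) (X.A s) B y)
def I3 (B s : ℝ) : ℝ := ∫ y, hT3 (X.β s) (X.γ s) y (X.e s y) (X.ey s y)
  (WW (X.r s) (X.A s) B y) (WW1 (X.r s) (X.A s) B y)
def I4 (B s : ℝ) : ℝ := ∫ y, (hH y (X.e s y) (X.ey s y) *
    (X.CA / (s * B) * WW (X.r s) (X.A s) B y + X.dr s y * WW1 (X.r s) (X.A s) B y)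
  - (Q y + X.e s y) ^ 2 * (X.CA / (s * B) * om (X.r s) (X.A s) X.K B y
    + X.dr s y * om1 (X.r s) (X.A s) X.K B y))
def I5 (B s : ℝ) : ℝ := -∫ y, (fl1 (Q y + X.e s y) (Q1 y + X.ey s y)
    (om1 (X.r s) (X.A s) X.K B y) (om3 (X.r s) (X.A s) X.K B y)
  - (1 + X.γ s) * ((Q y + X.e s y) ^ 2 * om1 (X.r s) (X.A s) X.K B y))

end Dat

def ContStmt : Prop := ∀ (X : Dat) (B : ℝ), 0 < B → ∀ s, X.s0 < s →
  ContinuousAt X.f s ∧ ContinuousAt X.E s ∧ ContinuousAt (X.D B) s ∧ ContinuousAt (X.F B) s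

def R1Stmt : Prop := ∀ X : Dat, ∃ C : ℝ, ∀ᶠ s in atTop, ∃ a' : ℝ, HasDerivAt X.a a' s ∧
  |a' + X.β s * X.a s / 2| ≤ C * (Real.sqrt (X.f s) + X.tau s)

def R2Stmt : Prop := ∀ X : Dat, ∃ C : ℝ, ∀ᶠ s in atTop, 0 ≤ X.m s ∧ ∃ m' : ℝ,
  HasDerivAt X.m m' s ∧ m' ≤ -(X.a s ^ 2 / 4) + C * X.tau s

def R3Stmt : Prop := ∀ X : Dat, ∃ C : ℝ, ∀ᶠ s in atTop,
  DiniLe X.E s (-(2 * X.β s * X.E s) - X.f s / 8 + C * (X.a s ^ 6 + X.tau s))

def R4Stmt : Prop := ∀ X : Dat, ∃ c C : ℝ, 0 < c ∧ ∀ᶠ s in atTop,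
  c * (X.Kf s + X.k6 s) ≤ X.E s + C * (X.lam s ^ 2 + X.a s ^ 4 + X.tau s)

def E2Stmt : Prop := ∀ (X : Dat) (B : ℝ), 0 < B → ∀ s, X.s0 < s →
  DiniLe (X.F B) s (X.I1 B s + X.I2 B s + X.I3 B s + X.I4 B s + X.I5 B s)

def I1Stmt : Prop := ∀ X : Dat, ∃ C0 : ℝ, 0 ≤ C0 ∧ ∀ B : ℝ, 1000 * X.CA ≤ B → ∀ᶠ s in atTop,
  X.I1 B s ≤ -(X.r0 / (4 * B) * X.D B s) + C0 / B * X.N s

def I2Stmt : Prop := ∀ X : Dat, ∃ C0 : ℝ, 0 ≤ C0 ∧ ∀ B : ℝ, 1000 * X.CA ≤ B → ∃ C : ℝ,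
  ∀ᶠ s in atTop, X.I2 B s ≤ C0 / B * X.N s + C * X.μ s ^ 2

def I3Stmt : Prop := ∀ (X : Dat) (B : ℝ), 1000 * X.CA ≤ B → ∃ C : ℝ, ∀ ε : ℝ, 0 < ε →
  ∀ᶠ s in atTop, X.I3 B s ≤ ε * X.D B s + C * (Lm s * X.Z s)

def I4Stmt : Prop := ∀ (X : Dat) (B : ℝ), 1000 * X.CA ≤ B → ∃ C : ℝ, ∀ ε : ℝ, 0 < ε →
  ∀ᶠ s in atTop, X.I4 B s ≤ ε * X.D B s + C * (Lm s * X.Z s)

def I5Stmt : Prop := ∀ (X : Dat) (B : ℝ), 1000 * X.CA ≤ B → ∃ C : ℝ,
  ∀ᶠ s in atTop, X.I5 B s ≤ C * (Lm s * X.Z s)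

def E4Stmt : Prop := ∃ c ε0 : ℝ, 0 < c ∧ 0 < ε0 ∧ ∀ X : Dat, X.r1 ≤ ε0 * X.K →
  ∀ B : ℝ, 1000 * X.CA ≤ B → ∃ C : ℝ, ∀ᶠ s in atTop,
    c * X.D B s - C * (Lm s * X.Z s) ≤ X.F B s ∧ X.F B s ≤ C * (X.D B s + Lm s * X.Z s)

def JRStmt : Prop := ∀ (X : Dat) (B : ℝ), 1000 * X.CA ≤ B → ∃ C : ℝ, ∀ᶠ s in atTop,
  ∃ J' : ℝ, HasDerivAt X.JR J' s ∧
    |J' - (2 * X.μ s - mm ^ 2 / 2 * X.β s + mm * X.a s + X.β s * X.JR s / 2)|
      ≤ C * (X.D B s + X.a s ^ 2 + Real.sqrt (X.f s) + s ^ (-(3 : ℝ) / 2))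

def JLStmt : Prop := ∀ (X : Dat) (B : ℝ), 1000 * X.CA ≤ B → ∃ C : ℝ, ∀ᶠ s in atTop,
  ∃ J' : ℝ, HasDerivAt X.JL J' s ∧
    |J' - (2 * X.μ s + mm ^ 2 / 2 * X.β s + mm * X.aL s)|
      ≤ C * (Lm s * X.D B s + s ^ (-(3 : ℝ) / 2))

def MMStmt : Prop := ∀ (X : Dat) (B : ℝ), 1000 * X.CA ≤ B → ∃ C : ℝ, ∀ᶠ s in atTop,
  ∃ M' : ℝ, HasDerivAt X.MM M' s ∧ ∀ ω : ℝ,
    M' ≤ X.a s ^ 2 + ω ^ 2 - 2 * ω * X.aL s + C * (Real.sqrt (X.f s) * |X.a s| + X.f s + X.tau s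
      + Lm s * ((Real.sqrt (X.D B s) + 1 / s) * (X.D B s + X.a s ^ 2 + X.f s) + X.D B s ^ 2))

def BdJStmt : Prop := ∀ (X : Dat) (B : ℝ), 1000 * X.CA ≤ B → ∃ C : ℝ, ∀ᶠ s in atTop,
  X.JR s ^ 2 + X.JL s ^ 2 ≤ C * (Lm s * X.D B s)

def BdMStmt : Prop := ∀ (X : Dat) (B : ℝ), 1000 * X.CA ≤ B → ∃ C : ℝ, ∀ᶠ s in atTop,
  X.D B s ≤ C * Lm s ∧ |X.MM s - 2 * X.μ s| ≤ C * (Lm s * X.D B s + X.tau s) ∧
    Nw (B / X.r1) (X.e s) (X.ey s) ≤ 4 * X.D B s + C * X.Z s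

def MuStmt : Prop := ∀ X : Dat, Tendsto X.μ atTop (𝓝 0) ∧ ∃ C : ℝ, ∀ᶠ s in atTop,
  ∃ μ' : ℝ, HasDerivAt X.μ μ' s ∧ |μ'| ≤ C * X.N s

/-- The conclusion in rescaled time. -/
def MainEStmt : Prop := ∀ (κ s0 r0 r1 M η d Cp : ℝ) (e ey : ℝ → ℝ → ℝ) (lam β γ : ℝ → ℝ),
  Setup κ s0 r0 r1 M η d Cp e ey lam β γ → 3 / 2 ≤ κ → κ = 2

end

end Pool.Agent.MP_8339a4_an

end

section

/-! API: convergence in `H^1`. -/

open MeasureTheory Filter Topology Set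

namespace Pool.Agent.MP_8339a4_an

variable {α : Type} {l : Filter α} {f F fy : α → ℝ → ℝ} {g G gy : ℝ → ℝ}

theorem split_T3c {a b : ℝ → ℝ} (ha : MemLp a 2 volume) (hb : MemLp b 2 volume) :
    ∫ y, (a y ^ 2 + b y ^ 2) = (∫ y, a y ^ 2) + ∫ y, b y ^ 2 :=
  integral_add (integrable_sq2 ha) (integrable_sq2 hb)

theorem H1T.split_T3c (h1 : ∀ᶠ z in l, IsH1 (f z) (fy z)) (h0 : IsH1 g gy) :
    ∀ᶠ z in l, ∫ y, ((f z y - g y) ^ 2 + (fy z y - gy y) ^ 2) =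
      (∫ y, (f z y - g y) ^ 2) + ∫ y, (fy z y - gy y) ^ 2 :=
  h1.mono fun _ hz => Pool.Agent.MP_8339a4_an.split_T3c (hz.sub h0).1 (hz.sub h0).2.1

theorem H1T.ut (h : H1T l f fy g gy) : UT l f g := by
  refine ⟨h.1.mono fun _ hz => hz.bdd, h.2.1.bdd, fun ε hε => ?_⟩
  filter_upwards [h.1, h.2.2.eventually (gt_mem_nhds (pow_pos hε 2))] with z h1 h2 y
  exact abs_le_of_sq_le_sq (((h1.sub h.2.1).sq_le' y).trans h2.le) hε.le
theorem H1T.l2 (h : H1T l f fy g gy) : L2T l f g := by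
  refine ⟨h.1.mono fun _ hz => hz.1, h.2.1.1, squeeze_zero'
    (Eventually.of_forall fun z => integral_nonneg fun y => sq_nonneg _) ?_ h.2.2⟩
  filter_upwards [H1T.split_T3c h.1 h.2.1] with z hz
  rw [hz]
  exact le_add_of_nonneg_right (integral_nonneg fun y => sq_nonneg _)
theorem H1T.l2y (h : H1T l f fy g gy) : L2T l fy gy := by
  refine ⟨h.1.mono fun _ hz => hz.2.1, h.2.1.2.1, squeeze_zero'
    (Eventually.of_forall fun z => integral_nonneg fun y => sq_nonneg _) ?_ h.2.2⟩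
  filter_upwards [H1T.split_T3c h.1 h.2.1] with z hz
  rw [hz]
  exact le_add_of_nonneg_left (integral_nonneg fun y => sq_nonneg _)
theorem H1T.of_l2 (h1 : ∀ᶠ z in l, IsH1 (f z) (fy z)) (h0 : IsH1 g gy) (h : L2T l f g)
    (H : L2T l fy gy) : H1T l f fy g gy := by
  refine ⟨h1, h0, ?_⟩
  have := h.2.2.add H.2.2
  rw [add_zero] at this
  exact this.congr' ((H1T.split_T3c h1 h0).mono fun _ hz => hz.symm)
theorem H1T.add_const (h : H1T l f fy g gy) {q qy : ℝ → ℝ} (hq : IsH1 q qy) :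
    H1T l (fun z y => q y + f z y) (fun z y => qy y + fy z y) (fun y => q y + g y)
      (fun y => qy y + gy y) :=
  H1T.of_l2 (h.1.mono fun _ hz => hq.add hz) (hq.add h.2.1) ((L2T.const hq.1).add h.l2)
    ((L2T.const hq.2.1).add h.l2y)
theorem H1T.pow (h : H1T l f fy g gy) (n : ℕ) :
    L1T l (fun z y => f z y ^ (n + 2)) (fun y => g y ^ (n + 2)) :=
  (h.l2.sq.mul_ut (h.ut.pow n)).congr (Eventually.of_forall fun _ _ => by ring)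
    (fun _ => by ring)
theorem H1T.en (h : H1T l f fy g gy) :
    L1T l (fun z y => en (f z y) (fy z y)) (fun y => en (g y) (gy y)) :=
  (h.l2y.sq.sub ((h.pow 4).const_mul (1 / 3))).congr
    (Eventually.of_forall fun _ _ => by unfold MP_8339a4_an.en; ring)
    (fun _ => by unfold MP_8339a4_an.en; ring)
theorem H1T.fl1 (h : H1T l f fy g gy) {W1 W3 : ℝ → ℝ} (b1 : Bdd W1) (b3 : Bdd W3) :
    L1T l (fun z y => fl1 (f z y) (fy z y) (W1 y) (W3 y))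
      (fun y => fl1 (g y) (gy y) (W1 y) (W3 y)) :=
  ((((h.l2y.sq.mul_ut (UT.const b1)).const_mul (-3)).add (h.l2.sq.mul_ut (UT.const b3))).add
    (((h.pow 4).mul_ut (UT.const b1)).const_mul (5 / 3))).congr
    (Eventually.of_forall fun _ _ => by unfold MP_8339a4_an.fl1; ring)
    (fun _ => by unfold MP_8339a4_an.fl1; ring)
theorem H1T.fl2 (h : H1T l f fy g gy) {q qy W1 W2 W3 : ℝ → ℝ} (hq : IsH1 q qy) (b1 : Bdd W1)
    (b2 : Bdd W2) (b3 : Bdd W3) :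
    L1T l (fun z y => fl2 (f z y) (fy z y) (q y) (qy y) (W1 y) (W2 y) (W3 y))
      (fun y => fl2 (g y) (gy y) (q y) (qy y) (W1 y) (W2 y) (W3 y)) := by
  have a1 := (((L2T.const (l := l) (memLp_mul_bdd hq.2.1 b1)).add
    (L2T.const (memLp_mul_bdd hq.1 b2))).mul h.l2y).const_mul 6
  have a2 := (L1T.const (l := l) (integrable_mul_bdd (integrable_sq2 hq.1) b1)).const_mul 3
  have a3 := ((h.l2y.sq.mul_ut (h.ut.pow 4)).mul_ut (UT.const b1)).const_mul 20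
  have a4 := (h.pow 8).mul_ut (UT.const b1)
  have a5 := ((h.pow 4).mul_ut (UT.const b3)).const_mul (1 / 3)
  have a6 := h.l2y.sq.mul_ut (UT.const b3)
  exact (((((a1.add a2).add a3).sub a4).sub a5).add a6).congr
    (Eventually.of_forall fun _ _ => by unfold MP_8339a4_an.fl2; ring)
    (fun _ => by unfold MP_8339a4_an.fl2; ring)
theorem H1T.comp {β : Type} {l' : Filter β} {τ : β → α} (h : H1T l f fy g gy)
    (hτ : Tendsto τ l' l) : H1T l' (fun z => f (τ z)) (fun z => fy (τ z)) g gy :=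
  ⟨hτ.eventually h.1, h.2.1, h.2.2.comp hτ⟩
theorem H1T.mono {l' : Filter α} (h : H1T l f fy g gy) (hl : l' ≤ l) : H1T l' f fy g gy :=
  ⟨h.1.filter_mono hl, h.2.1, h.2.2.mono_left hl⟩

theorem IsSol.h1t {I : Set ℝ} {u ux : ℝ → ℝ → ℝ} (h : IsSol I u ux) {t : ℝ} (ht : t ∈ I) :
    H1T (𝓝[I] t) u ux (u t) (ux t) :=
  ⟨eventually_mem_nhdsWithin.mono h.h1, h.h1 t ht, h.cont t ht⟩

theorem MW.ut {w : ℝ → ℝ → ℝ} {wt : ℝ → ℝ} {s : ℝ} (h : MW w wt s) : UT (𝓝 s) w (w s) := by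
  obtain ⟨h1, -, -, C, h2⟩ := h
  refine ⟨h1, h1.self_of_nhds, fun ε hε => ?_⟩
  have h3 : Tendsto (fun z => C * |z - s|) (𝓝 s) (𝓝 0) :=
    (by fun_prop : Continuous fun z : ℝ => C * |z - s|).tendsto' s 0 (by simp)
  filter_upwards [h2, h3.eventually (gt_mem_nhds hε)] with z k1 k2 y
  exact (k1 y).trans k2.le
theorem ME.l2 {w : ℝ → ℝ → ℝ} {wt : ℝ → ℝ} {s : ℝ} (h : ME w wt s) (h2 : MemLp (w s) 2 volume) :
    L2T (𝓝 s) w (w s) := by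
  obtain ⟨h1, -, -, C, c, hc, h3⟩ := h
  have e0 := ExpD.exp_neg_abs hc
  have h4 : ∀ᶠ z in 𝓝 s, MemLp (fun y => w z y - w s y) 2 volume := by
    filter_upwards [h1, h3] with z k1 k2
    refine (e0.of_le (k1.sub h1.self_of_nhds) (C * |z - s|) fun y => ?_).memLp
    rw [abs_of_pos (Real.exp_pos _)]
    exact k2 y
  refine ⟨h4.mono fun z hz => ?_, h2, ?_⟩
  · have := hz.add h2
    have e : ((fun y => w z y - w s y) + w s) = w z := by funext y; simp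
    rwa [e] at this
  · have h5 : Tendsto (fun z => (C * |z - s|) ^ 2 * ∫ y : ℝ, Real.exp (-(c * |y|)) ^ 2)
        (𝓝 s) (𝓝 0) :=
      (by fun_prop : Continuous fun z : ℝ =>
        (C * |z - s|) ^ 2 * ∫ y : ℝ, Real.exp (-(c * |y|)) ^ 2).tendsto' s 0 (by simp)
    refine squeeze_zero' (Eventually.of_forall fun z => integral_nonneg fun y => sq_nonneg _)
      ?_ h5
    filter_upwards [h4, h3] with z k1 k2
    rw [← integral_const_mul]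
    refine integral_mono (integrable_sq2 k1) ((integrable_sq2 e0.memLp).const_mul _) fun y => ?_
    have := pow_le_pow_left₀ (abs_nonneg _) (k2 y) 2
    rw [sq_abs, mul_pow] at this
    exact this

end Pool.Agent.MP_8339a4_an

end

section

/-! API: moving weights. -/

open MeasureTheory Filter Topology Set

namespace Pool.Agent.MP_8339a4_an

variable {f g : ℝ → ℝ} {s c c' : ℝ}

variable {ρ w w' : ℝ → ℝ → ℝ} {wt wt' : ℝ → ℝ}

theorem deriv_le_T4b {k : ℝ → ℝ} {k' C : ℝ} (h : HasDerivAt k k' s) (hC : 0 ≤ C)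
    (hl : ∀ᶠ z in 𝓝 s, |k z - k s| ≤ C * |z - s|) : |k'| ≤ C :=
  h.le_of_lip' hC hl

theorem lip_T4b {k : ℝ → ℝ} {k' : ℝ} (h : HasDerivAt k k' s) :
    ∃ C : ℝ, 0 ≤ C ∧ ∀ᶠ z in 𝓝 s, |k z - k s| ≤ C * |z - s| := by
  obtain ⟨C, hC, h1⟩ := h.isBigO_sub.exists_nonneg
  exact ⟨C, hC, h1.bound⟩

theorem mw_lip_T4b (h : MW w wt s) :
    ∃ C : ℝ, 0 ≤ C ∧ ∀ᶠ z in 𝓝 s, ∀ y, |w z y - w s y| ≤ |z - s| * C := by
  obtain ⟨-, -, -, C, hC⟩ := h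
  refine ⟨|C|, abs_nonneg C, hC.mono fun z hz y => (hz y).trans ?_⟩
  rw [mul_comm]
  exact mul_le_mul_of_nonneg_left (le_abs_self C) (abs_nonneg _)

theorem me_env_T4b (h : ME w wt s) :
    ∃ E : ℝ → ℝ, ExpD E ∧ (∀ y, 0 ≤ E y) ∧ ∀ᶠ z in 𝓝 s, ∀ y, |w z y - w s y| ≤ |z - s| * E y := by
  obtain ⟨-, -, -, C, k, hk, hC⟩ := h
  refine ⟨fun y => |C| * Real.exp (-(k * |y|)), (ExpD.exp_neg_abs hk).const_mul _,
    fun y => by positivity, hC.mono fun z hz y => (hz y).trans ?_⟩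
  have h1 : C * |z - s| ≤ |z - s| * |C| := by
    rw [mul_comm]
    exact mul_le_mul_of_nonneg_left (le_abs_self C) (abs_nonneg _)
  rw [← mul_assoc]
  exact mul_le_mul_of_nonneg_right h1 (Real.exp_pos _).le

theorem me_of_env_T4b (h1 : ∀ᶠ z in 𝓝 s, Continuous (w z)) (h2 : Continuous wt)
    (h3 : ∀ y, HasDerivAt (fun z => w z y) (wt y) s) {E : ℝ → ℝ} (hE : ExpD E)
    (hl : ∀ᶠ z in 𝓝 s, ∀ y, |w z y - w s y| ≤ |z - s| * E y) : ME w wt s := by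
  obtain ⟨-, C, k, hk, hC⟩ := hE
  refine ⟨h1, h2, h3, C, k, hk, hl.mono fun z hz y => (hz y).trans ?_⟩
  calc |z - s| * E y ≤ |z - s| * (C * Real.exp (-(k * |y|))) :=
        mul_le_mul_of_nonneg_left ((le_abs_self _).trans (hC y)) (abs_nonneg _)
    _ = C * |z - s| * Real.exp (-(k * |y|)) := by ring

theorem MW.bdd_wt (h : MW w wt s) : Bdd wt := by
  obtain ⟨C, hC, hl⟩ := mw_lip_T4b h
  exact ⟨h.2.1, C, fun y => deriv_le_T4b (h.2.2.1 y) hC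
    (hl.mono fun z hz => (hz y).trans_eq (mul_comm _ _))⟩

theorem ME.expD_wt (h : ME w wt s) : ExpD wt := by
  obtain ⟨E, hE, h0, hl⟩ := me_env_T4b h
  refine hE.of_le h.2.1 1 fun y => ?_
  rw [one_mul, abs_of_nonneg (h0 y)]
  exact deriv_le_T4b (h.2.2.1 y) (h0 y) (hl.mono fun z hz => (hz y).trans_eq (mul_comm _ _))

theorem MW.congr (h : MW w wt s) (e1 : ∀ᶠ z in 𝓝 s, ∀ y, w z y = w' z y)
    (e2 : ∀ y, wt y = wt' y) : MW w' wt' s := by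
  obtain ⟨h1, h2, h3, C, hC⟩ := h
  have e0 := e1.self_of_nhds
  refine ⟨?_, ?_, fun y => ?_, C, ?_⟩
  · filter_upwards [h1, e1] with z hz ez using hz.congr ez
  · exact h2.congr e2
  · rw [← e2 y]
    exact (h3 y).congr_of_eventuallyEq (e1.mono fun z hz => (hz y).symm)
  · filter_upwards [hC, e1] with z hz ez y
    rw [← ez y, ← e0 y]
    exact hz y

theorem ME.congr (h : ME w wt s) (e1 : ∀ᶠ z in 𝓝 s, ∀ y, w z y = w' z y)
    (e2 : ∀ y, wt y = wt' y) : ME w' wt' s := by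
  obtain ⟨h1, h2, h3, C, k, hk, hC⟩ := h
  have e0 := e1.self_of_nhds
  refine ⟨?_, ?_, fun y => ?_, C, k, hk, ?_⟩
  · filter_upwards [h1, e1] with z hz ez using hz.congr ez
  · exact h2.congr e2
  · rw [← e2 y]
    exact (h3 y).congr_of_eventuallyEq (e1.mono fun z hz => (hz y).symm)
  · filter_upwards [hC, e1] with z hz ez y
    rw [← ez y, ← e0 y]
    exact hz y

theorem MW.sub (h : MW w wt s) (H : MW w' wt' s) :
    MW (fun z y => w z y - w' z y) (fun y => wt y - wt' y) s := by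
  obtain ⟨h1, h2, h3, C, hC⟩ := h
  obtain ⟨H1, H2, H3, C', hC'⟩ := H
  refine ⟨?_, h2.sub H2, fun y => (h3 y).sub (H3 y), C + C', ?_⟩
  · filter_upwards [h1, H1] with z hz Hz using hz.sub Hz
  · filter_upwards [hC, hC'] with z hz Hz y
    calc |w z y - w' z y - (w s y - w' s y)| = |(w z y - w s y) - (w' z y - w' s y)| := by
          ring_nf
      _ ≤ |w z y - w s y| + |w' z y - w' s y| := abs_sub _ _
      _ ≤ (C + C') * |z - s| := by linarith [hz y, Hz y]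

theorem MW.mul (h : MW w wt s) (H : MW w' wt' s) :
    MW (fun z y => w z y * w' z y) (fun y => wt y * w' s y + w s y * wt' y) s := by
  obtain ⟨B, hB⟩ := h.ut.bound
  obtain ⟨B', hB'⟩ := H.ut.bound
  obtain ⟨C, hC0, hC⟩ := mw_lip_T4b h
  obtain ⟨C', hC0', hC'⟩ := mw_lip_T4b H
  obtain ⟨h1, h2, h3, -⟩ := h
  obtain ⟨H1, H2, H3, -⟩ := H
  have hs := hB.self_of_nhds
  refine ⟨?_, (h2.mul H1.self_of_nhds.1).add (h1.self_of_nhds.1.mul H2),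
    fun y => (h3 y).mul (H3 y), C * B' + B * C', ?_⟩
  · filter_upwards [h1, H1] with z hz Hz using hz.mul Hz
  · filter_upwards [hC, hC', hB'] with z hz Hz bz y
    calc |w z y * w' z y - w s y * w' s y|
        = |(w z y - w s y) * w' z y + w s y * (w' z y - w' s y)| := by ring_nf
      _ ≤ |w z y - w s y| * |w' z y| + |w s y| * |w' z y - w' s y| := by
          rw [← abs_mul, ← abs_mul]
          exact abs_add_le _ _
      _ ≤ |z - s| * C * B' + B * (|z - s| * C') :=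
          add_le_add (mul_le_mul (hz y) (bz y) (abs_nonneg _) (by positivity))
            (mul_le_mul (hs y) (Hz y) (abs_nonneg _) ((abs_nonneg _).trans (hs y)))
      _ = (C * B' + B * C') * |z - s| := by ring

theorem MW.of_scalar {k : ℝ → ℝ} {k' : ℝ} (h : HasDerivAt k k' s) :
    MW (fun z _ => k z) (fun _ => k') s := by
  obtain ⟨C, -, hC⟩ := lip_T4b h
  exact ⟨Eventually.of_forall fun z => Bdd.const _, continuous_const, fun _ => h, C,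
    hC.mono fun z hz _ => hz⟩

theorem ME.const (hg : Continuous g) : ME (fun _ => g) (fun _ => 0) s :=
  ⟨Eventually.of_forall fun _ => hg, continuous_const, fun y => hasDerivAt_const s (g y), 0, 1,
    one_pos, Eventually.of_forall fun z y => by simp⟩

theorem ME.sub (h : ME w wt s) (H : ME w' wt' s) :
    ME (fun z y => w z y - w' z y) (fun y => wt y - wt' y) s := by
  obtain ⟨E, hE, -, hl⟩ := me_env_T4b h
  obtain ⟨E', hE', -, hl'⟩ := me_env_T4b H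
  refine me_of_env_T4b ?_ (h.2.1.sub H.2.1) (fun y => (h.2.2.1 y).sub (H.2.2.1 y)) (hE.add hE') ?_
  · filter_upwards [h.1, H.1] with z hz Hz using hz.sub Hz
  · filter_upwards [hl, hl'] with z hz Hz y
    calc |w z y - w' z y - (w s y - w' s y)| = |(w z y - w s y) - (w' z y - w' s y)| := by
          ring_nf
      _ ≤ |w z y - w s y| + |w' z y - w' s y| := abs_sub _ _
      _ ≤ |z - s| * (E y + E' y) := by linarith [hz y, Hz y]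

theorem ME.const_mul (h : ME w wt s) (k : ℝ) :
    ME (fun z y => k * w z y) (fun y => k * wt y) s := by
  obtain ⟨E, hE, -, hl⟩ := me_env_T4b h
  refine me_of_env_T4b ?_ (continuous_const.mul h.2.1) (fun y => (h.2.2.1 y).const_mul k)
    (hE.const_mul |k|) ?_
  · filter_upwards [h.1] with z hz using continuous_const.mul hz
  · filter_upwards [hl] with z hz y
    calc |k * w z y - k * w s y| = |k| * |w z y - w s y| := by rw [← mul_sub, abs_mul]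
      _ ≤ |k| * (|z - s| * E y) := mul_le_mul_of_nonneg_left (hz y) (abs_nonneg _)
      _ = |z - s| * (|k| * E y) := by ring

theorem ME.scalar_mul (h : ME w wt s) (h0 : ExpD (w s)) {k : ℝ → ℝ} {k' : ℝ}
    (hk : HasDerivAt k k' s) :
    ME (fun z y => k z * w z y) (fun y => k' * w s y + k s * wt y) s := by
  obtain ⟨E, hE, hE0, hl⟩ := me_env_T4b h
  obtain ⟨C, -, hC⟩ := lip_T4b hk
  have hb : ∀ᶠ z in 𝓝 s, |k z| ≤ |k s| + 1 :=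
    (hk.continuousAt.abs.tendsto.eventually (gt_mem_nhds (lt_add_one |k s|))).mono
      fun z hz => hz.le
  refine me_of_env_T4b ?_ ((continuous_const.mul h0.1).add (continuous_const.mul h.2.1))
    (fun y => hk.mul (h.2.2.1 y)) ((hE.const_mul (|k s| + 1)).add (h0.abs.const_mul C)) ?_
  · filter_upwards [h.1] with z hz using continuous_const.mul hz
  · filter_upwards [hl, hC, hb] with z hz cz bz y
    calc |k z * w z y - k s * w s y|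
        = |k z * (w z y - w s y) + (k z - k s) * w s y| := by ring_nf
      _ ≤ |k z| * |w z y - w s y| + |k z - k s| * |w s y| := by
          rw [← abs_mul, ← abs_mul]
          exact abs_add_le _ _
      _ ≤ (|k s| + 1) * (|z - s| * E y) + C * |z - s| * |w s y| :=
          add_le_add (mul_le_mul bz (hz y) (abs_nonneg _) (by positivity))
            (mul_le_mul_of_nonneg_right cz (abs_nonneg _))
      _ = |z - s| * ((|k s| + 1) * E y + C * |w s y|) := by ring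

theorem mvt_T4b {F F1 : ℝ → ℝ} (hF : ∀ x, HasDerivAt F (F1 x) x) (p q : ℝ) :
    ∃ x, |x - p| ≤ |q - p| ∧ F q - F p = F1 x * (q - p) := by
  have hc : Continuous F := continuous_iff_continuousAt.2 fun x => (hF x).continuousAt
  rcases lt_trichotomy p q with h | h | h
  · obtain ⟨x, hx, e⟩ := exists_hasDerivAt_eq_slope F F1 h hc.continuousOn fun x _ => hF x
    refine ⟨x, ?_, ?_⟩
    · rw [abs_of_pos (sub_pos.2 hx.1), abs_of_pos (sub_pos.2 h)]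
      linarith [hx.2]
    · rw [e, div_mul_cancel₀ _ (sub_pos.2 h).ne']
  · exact ⟨p, by simp, by simp [h]⟩
  · obtain ⟨x, hx, e⟩ := exists_hasDerivAt_eq_slope F F1 h hc.continuousOn fun x _ => hF x
    refine ⟨x, ?_, ?_⟩
    · rw [abs_of_neg (sub_neg.2 hx.2), abs_of_neg (sub_neg.2 h)]
      linarith [hx.1]
    · have h1 : p - q ≠ 0 := (sub_pos.2 h).ne'
      rw [e]
      field_simp
      ring

theorem prof_T4b {F F1 a b : ℝ → ℝ} {a' b' : ℝ} (hF : ∀ x, HasDerivAt F (F1 x) x)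
    (ha : HasDerivAt a a' s) (hb : HasDerivAt b b' s) (h0 : a s ≠ 0) :
    ∃ Ca Cb : ℝ, 0 ≤ Ca ∧ 0 ≤ Cb ∧ ∀ᶠ z in 𝓝 s, ∀ y, ∃ x,
      |a s| / 2 * |y| ≤ |x| + (|b s| + 1) ∧
      |F (a z * y + b z) - F (a s * y + b s)| ≤ |z - s| * (|F1 x| * (Ca * |y| + Cb)) := by
  obtain ⟨Ca, hCa, h1⟩ := lip_T4b ha
  obtain ⟨Cb, hCb, h2⟩ := lip_T4b hb
  have hpos : 0 < |a s| / 2 := half_pos (abs_pos.2 h0)
  have h3 : ∀ᶠ z in 𝓝 s, |a z - a s| < |a s| / 2 :=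
    Metric.tendsto_nhds.1 ha.continuousAt.tendsto _ hpos
  have h4 : ∀ᶠ z in 𝓝 s, |b z - b s| < 1 :=
    Metric.tendsto_nhds.1 hb.continuousAt.tendsto _ one_pos
  refine ⟨Ca, Cb, hCa, hCb, ?_⟩
  filter_upwards [h1, h2, h3, h4] with z k1 k2 k3 k4 y
  obtain ⟨x, hx, e⟩ := mvt_T4b hF (a s * y + b s) (a z * y + b z)
  have k5 : |a z * y + b z - (a s * y + b s)| ≤ |a z - a s| * |y| + |b z - b s| := by
    rw [← abs_mul]
    calc |a z * y + b z - (a s * y + b s)| = |(a z - a s) * y + (b z - b s)| := by ring_nf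
      _ ≤ _ := abs_add_le _ _
  refine ⟨x, ?_, ?_⟩
  · have k6 : |a s| * |y| ≤ |x| + |x - (a s * y + b s)| + |b s| := by
      rw [← abs_mul]
      calc |a s * y| = |x - (x - (a s * y + b s)) - b s| := by ring_nf
        _ ≤ |x - (x - (a s * y + b s))| + |b s| := abs_sub _ _
        _ ≤ _ := by linarith [abs_sub x (x - (a s * y + b s))]
    have k7 : |a z - a s| * |y| ≤ |a s| / 2 * |y| :=
      mul_le_mul_of_nonneg_right k3.le (abs_nonneg _)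
    linarith
  · have k7 : |a z - a s| * |y| ≤ Ca * |z - s| * |y| :=
      mul_le_mul_of_nonneg_right k1 (abs_nonneg _)
    rw [e, abs_mul]
    calc |F1 x| * |a z * y + b z - (a s * y + b s)|
        ≤ |F1 x| * (Ca * |z - s| * |y| + Cb * |z - s|) :=
          mul_le_mul_of_nonneg_left (by linarith) (abs_nonneg _)
      _ = |z - s| * (|F1 x| * (Ca * |y| + Cb)) := by ring

/-- A fixed profile composed with a moving affine map. -/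
theorem me_profile {F F1 a b : ℝ → ℝ} {a' b' : ℝ} (hF : ∀ x, HasDerivAt F (F1 x) x)
    (e1 : ExpD F1) (ha : HasDerivAt a a' s) (hb : HasDerivAt b b' s) (h0 : a s ≠ 0) :
    ME (fun z y => F (a z * y + b z)) (fun y => F1 (a s * y + b s) * (a' * y + b')) s := by
  have hc : Continuous F := continuous_iff_continuousAt.2 fun x => (hF x).continuousAt
  obtain ⟨Ca, Cb, hCa, hCb, hl⟩ := prof_T4b hF ha hb h0
  obtain ⟨c1, C, k, hk, hC⟩ := e1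
  have hpos : 0 < k * (|a s| / 2) := mul_pos hk (half_pos (abs_pos.2 h0))
  have hE := ExpD.exp_neg_abs hpos
  refine me_of_env_T4b (Eventually.of_forall fun z => by fun_prop) (by fun_prop)
    (fun y => (hF _).comp s ((ha.mul_const y).add hb))
    (((hE.id_mul.abs.const_mul Ca).add (hE.const_mul Cb)).const_mul
      (|C| * Real.exp (k * (|b s| + 1)))) ?_
  filter_upwards [hl] with z hz y
  obtain ⟨x, hx, e⟩ := hz y
  refine e.trans (mul_le_mul_of_nonneg_left ?_ (abs_nonneg _))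
  have k1 : |F1 x| ≤ |C| * Real.exp (k * (|b s| + 1)) * Real.exp (-(k * (|a s| / 2) * |y|)) := by
    refine (hC x).trans ?_
    rw [mul_assoc, ← Real.exp_add]
    refine mul_le_mul (le_abs_self C) (Real.exp_le_exp.2 ?_) (Real.exp_pos _).le (abs_nonneg _)
    nlinarith [mul_le_mul_of_nonneg_left hx hk.le]
  calc |F1 x| * (Ca * |y| + Cb)
      ≤ |C| * Real.exp (k * (|b s| + 1)) * Real.exp (-(k * (|a s| / 2) * |y|)) *
        (Ca * |y| + Cb) := mul_le_mul_of_nonneg_right k1 (by positivity)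
    _ = _ := by
      rw [abs_mul y, abs_of_pos (Real.exp_pos _)]
      ring

theorem mw_profile {F F1 a b : ℝ → ℝ} {a' b' : ℝ} (hF : ∀ x, HasDerivAt F (F1 x) x)
    (b0 : Bdd F) (b1 : Bdd F1) (b2 : Bdd (fun x => x * F1 x)) (ha : HasDerivAt a a' s)
    (hb : HasDerivAt b b' s) (h0 : a s ≠ 0) :
    MW (fun z y => F (a z * y + b z)) (fun y => F1 (a s * y + b s) * (a' * y + b')) s := by
  obtain ⟨Ca, Cb, hCa, hCb, hl⟩ := prof_T4b hF ha hb h0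
  obtain ⟨c1, B1, hB1⟩ := b1
  obtain ⟨-, B2, hB2⟩ := b2
  have hpos : 0 < |a s| / 2 := half_pos (abs_pos.2 h0)
  refine ⟨Eventually.of_forall fun z => b0.comp (by fun_prop), by fun_prop,
    fun y => (hF _).comp s ((ha.mul_const y).add hb),
    Ca * ((B2 + B1 * (|b s| + 1)) / (|a s| / 2)) + Cb * B1, ?_⟩
  filter_upwards [hl] with z hz y
  obtain ⟨x, hx, e⟩ := hz y
  refine e.trans ?_
  rw [mul_comm]
  refine mul_le_mul_of_nonneg_right ?_ (abs_nonneg _)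
  have k1 : |F1 x| * |y| ≤ (B2 + B1 * (|b s| + 1)) / (|a s| / 2) := by
    rw [le_div_iff₀ hpos]
    have k2 : |x| * |F1 x| ≤ B2 := by
      rw [← abs_mul]
      exact hB2 x
    have k3 : |F1 x| * (|b s| + 1) ≤ B1 * (|b s| + 1) :=
      mul_le_mul_of_nonneg_right (hB1 x) (by positivity)
    nlinarith [mul_le_mul_of_nonneg_left hx (abs_nonneg (F1 x))]
  calc |F1 x| * (Ca * |y| + Cb) = Ca * (|F1 x| * |y|) + Cb * |F1 x| := by ring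
    _ ≤ _ := add_le_add (mul_le_mul_of_nonneg_left k1 hCa)
      (mul_le_mul_of_nonneg_left (hB1 x) hCb)

theorem mov_core_T4b {E : ℝ → ℝ} (hE0 : ∀ y, 0 ≤ E y)
    (hρ : L1T (𝓝 s) (fun z y => ρ z y * E y) (fun y => ρ s y * E y))
    (hm : ∀ᶠ z in 𝓝 s, AEStronglyMeasurable (ρ z) volume)
    (hc : ∀ᶠ z in 𝓝 s, Continuous (w z)) (hd : ∀ y, HasDerivAt (fun z => w z y) (wt y) s)
    (hl : ∀ᶠ z in 𝓝 s, ∀ y, |w z y - w s y| ≤ |z - s| * E y) :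
    HasDerivAt (fun z => ∫ y, ρ z y * (w z y - w s y)) (∫ y, ρ s y * wt y) s := by
  obtain ⟨i1, i2, i3⟩ := hρ
  have hms := hm.self_of_nhds
  have hcs := hc.self_of_nhds
  have hq : ∀ᶠ z in 𝓝[≠] s, ∀ y, |(z - s)⁻¹ * (w z y - w s y)| ≤ E y := by
    filter_upwards [hl.filter_mono nhdsWithin_le_nhds, self_mem_nhdsWithin] with z hz hne y
    have h1 : 0 < |z - s| := abs_pos.2 (sub_ne_zero.2 hne)
    rw [abs_mul, abs_inv, inv_mul_le_iff₀ h1]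
    exact hz y
  have hqm : ∀ᶠ z in 𝓝[≠] s,
      AEStronglyMeasurable (fun y => (z - s)⁻¹ * (w z y - w s y)) volume := by
    filter_upwards [hc.filter_mono nhdsWithin_le_nhds] with z hz
    exact (continuous_const.mul (hz.sub hcs)).aestronglyMeasurable
  have t1 : Tendsto (fun z => ∫ y, ρ s y * ((z - s)⁻¹ * (w z y - w s y))) (𝓝[≠] s)
      (𝓝 (∫ y, ρ s y * wt y)) := by
    refine tendsto_integral_filter_of_dominated_convergence (fun y => |ρ s y * E y|) ?_ ?_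
      i2.abs (Eventually.of_forall fun y => ?_)
    · filter_upwards [hqm] with z hz using hms.mul hz
    · filter_upwards [hq] with z hz
      refine Eventually.of_forall fun y => ?_
      rw [Real.norm_eq_abs, abs_mul, abs_mul (ρ s y), abs_of_nonneg (hE0 y)]
      exact mul_le_mul_of_nonneg_left (hz y) (abs_nonneg _)
    · have := hasDerivAt_iff_tendsto_slope.1 (hd y)
      simp only [slope_fun_def_field] at this
      refine Tendsto.const_mul _ (this.congr fun z => ?_)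
      rw [div_eq_inv_mul]
  have hint : ∀ᶠ z in 𝓝[≠] s,
      Integrable (fun y => ρ z y * ((z - s)⁻¹ * (w z y - w s y))) ∧
      Integrable (fun y => ρ s y * ((z - s)⁻¹ * (w z y - w s y))) := by
    filter_upwards [hq, hqm, hm.filter_mono nhdsWithin_le_nhds,
      i1.filter_mono nhdsWithin_le_nhds] with z hz mz mz' iz
    refine ⟨iz.abs.mono' (mz'.mul mz) (Eventually.of_forall fun y => ?_),
      i2.abs.mono' (hms.mul mz) (Eventually.of_forall fun y => ?_)⟩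
    · rw [Real.norm_eq_abs, abs_mul, abs_mul (ρ z y), abs_of_nonneg (hE0 y)]
      exact mul_le_mul_of_nonneg_left (hz y) (abs_nonneg _)
    · rw [Real.norm_eq_abs, abs_mul, abs_mul (ρ s y), abs_of_nonneg (hE0 y)]
      exact mul_le_mul_of_nonneg_left (hz y) (abs_nonneg _)
  have t2 : Tendsto (fun z => (∫ y, ρ z y * ((z - s)⁻¹ * (w z y - w s y))) -
      ∫ y, ρ s y * ((z - s)⁻¹ * (w z y - w s y))) (𝓝[≠] s) (𝓝 0) := by
    refine squeeze_zero_norm' ?_ (i3.mono_left nhdsWithin_le_nhds)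
    filter_upwards [hq, hint, i1.filter_mono nhdsWithin_le_nhds] with z hz iz jz
    rw [← integral_sub iz.1 iz.2]
    refine norm_integral_le_of_norm_le (jz.sub i2).abs (Eventually.of_forall fun y => ?_)
    rw [Real.norm_eq_abs, ← sub_mul, ← sub_mul, abs_mul, abs_mul (ρ z y - ρ s y),
      abs_of_nonneg (hE0 y)]
    exact mul_le_mul_of_nonneg_left (hz y) (abs_nonneg _)
  rw [hasDerivAt_iff_tendsto_slope]
  have t3 := t2.add t1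
  rw [zero_add] at t3
  refine t3.congr fun z => ?_
  rw [sub_add_cancel, slope_def_field]
  simp only [sub_self, mul_zero, integral_zero, sub_zero]
  rw [div_eq_inv_mul, ← integral_const_mul]
  refine integral_congr_ae (Eventually.of_forall fun y => ?_)
  ring

theorem split_T4b {p u v : ℝ → ℝ} (i1 : Integrable fun y => p y * u y)
    (i2 : Integrable fun y => p y * v y) :
    (∫ y, p y * v y) + ∫ y, p y * (u y - v y) = ∫ y, p y * u y := by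
  have : ∫ y, p y * (u y - v y) = (∫ y, p y * u y) - ∫ y, p y * v y := by
    rw [← integral_sub i1 i2]
    refine integral_congr_ae (Eventually.of_forall fun y => ?_)
    ring
  rw [this]
  ring

theorem mov1_T4b (hρ : L1T (𝓝 s) ρ (ρ s)) (hw : MW w wt s) :
    HasDerivAt (fun z => ∫ y, ρ z y * (w z y - w s y)) (∫ y, ρ s y * wt y) s ∧
    ∀ᶠ z in 𝓝 s, (∫ y, ρ z y * w s y) + ∫ y, ρ z y * (w z y - w s y) = ∫ y, ρ z y * w z y := by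
  obtain ⟨C, hC, hl⟩ := mw_lip_T4b hw
  refine ⟨mov_core_T4b (E := fun _ => C) (fun _ => hC) (hρ.mul_ut (UT.const (Bdd.const C)))
    (hρ.1.mono fun z hz => hz.aestronglyMeasurable) (hw.1.mono fun z hz => hz.1) hw.2.2.1 hl, ?_⟩
  filter_upwards [hρ.1, hw.1] with z iz bz
  exact split_T4b (integrable_mul_bdd iz bz) (integrable_mul_bdd iz hw.1.self_of_nhds)

theorem mov_l1 (hρ : L1T (𝓝 s) ρ (ρ s)) (hw : MW w wt s)
    (h : HasDerivAt (fun z => ∫ y, ρ z y * w s y) c s) :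
    HasDerivAt (fun z => ∫ y, ρ z y * w z y) (c + ∫ y, ρ s y * wt y) s := by
  obtain ⟨h1, h2⟩ := mov1_T4b hρ hw
  exact (h.add h1).congr_of_eventuallyEq (h2.mono fun z hz => hz.symm)

theorem mov_l1_dini (hρ : L1T (𝓝 s) ρ (ρ s)) (hw : MW w wt s)
    (h : DiniLe (fun z => ∫ y, ρ z y * w s y) s c) :
    DiniLe (fun z => ∫ y, ρ z y * w z y) s (c + ∫ y, ρ s y * wt y) := by
  obtain ⟨h1, h2⟩ := mov1_T4b hρ hw
  exact (h.add_hasDerivAt h1).congr h2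

theorem mov_l2 (hρ : L2T (𝓝 s) ρ (ρ s)) (hw : ME w wt s) (h2 : MemLp (w s) 2 volume)
    (h : HasDerivAt (fun z => ∫ y, ρ z y * w s y) c s) :
    HasDerivAt (fun z => ∫ y, ρ z y * w z y) (c + ∫ y, ρ s y * wt y) s := by
  obtain ⟨E, hE, hE0, hl⟩ := me_env_T4b hw
  have h1 := mov_core_T4b hE0 (hρ.mul (L2T.const hE.memLp))
    (hρ.1.mono fun z hz => hz.aestronglyMeasurable) hw.1 hw.2.2.1 hl
  refine (h.add h1).congr_of_eventuallyEq ?_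
  filter_upwards [hρ.1, (hw.l2 h2).1] with z iz bz
  exact (split_T4b (integrable_mul2 iz bz) (integrable_mul2 iz h2)).symm

end Pool.Agent.MP_8339a4_an

end

section

/-! W block: mollifiers and the statements of the steps leading to `P0Stmt`, `P1Stmt`, `P2Stmt`. -/

open MeasureTheory Filter Topology Set

namespace Pool.Agent.MP_8339a4_an

noncomputable section

/-- Bump supported in the ball of radius `1/(n+1)`. -/
def bump (n : ℕ) : ContDiffBump (0 : ℝ) where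
  rIn := 1 / (2 * ((n : ℝ) + 1))
  rOut := 1 / ((n : ℝ) + 1)
  rIn_pos := by positivity
  rIn_lt_rOut := by
    have h : (0 : ℝ) < (n : ℝ) + 1 := by positivity
    exact one_div_lt_one_div_of_lt h (by linarith)

/-- `k`-th derivative of the normalised bump. -/
def ker (k n : ℕ) : ℝ → ℝ := iteratedDeriv k ((bump n).normed volume)

/-- `k`-th derivative of the mollification of `f`. -/
def mo (k n : ℕ) (f : ℝ → ℝ) (x : ℝ) : ℝ := ∫ y, ker k n (x - y) * f y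

/-- Bounded `C^3` weight (no condition on `y W'`). -/
structure Wb (f f1 f2 f3 : ℝ → ℝ) : Prop where
  sm : Sm3 f f1 f2 f3
  b0 : Bdd f
  b1 : Bdd f1
  b2 : Bdd f2
  b3 : Bdd f3

/-- Time derivative of `mo k n (u t)` when `u` solves the equation (`f = u t`). -/
def VV (k n : ℕ) (f : ℝ → ℝ) (x : ℝ) : ℝ :=
  -(mo (k + 3) n f x + mo (k + 1) n (fun y => f y ^ 5) x)

/-- Time derivative of the weighted energy of the mollified solution. -/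
def Dn (n : ℕ) (f W : ℝ → ℝ) : ℝ :=
  ∫ x, (2 * mo 1 n f x * VV 1 n f x - 2 * mo 0 n f x ^ 5 * VV 0 n f x) * W x

/-- Derivative of the commutator `ρ * f^5 - (ρ * f)^5`. -/
def cm (n : ℕ) (f : ℝ → ℝ) (x : ℝ) : ℝ :=
  mo 1 n (fun y => f y ^ 5) x - 5 * mo 0 n f x ^ 4 * mo 1 n f x

/-- Mollifiers, basic facts. -/
structure MoA : Prop where
  smooth : ∀ k n, ContDiff ℝ ((⊤ : ℕ∞) : WithTop ℕ∞) (ker k n)
  supp : ∀ k n, HasCompactSupport (ker k n)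
  kd : ∀ k n x, HasDerivAt (ker k n) (ker (k + 1) n x) x
  kz : ∀ (k n : ℕ) (x : ℝ), 1 / ((n : ℝ) + 1) ≤ |x| → ker k n x = 0
  k0 : ∀ n x, 0 ≤ ker 0 n x
  k1 : ∀ n, ∫ x, ker 0 n x = 1
  int : ∀ k n f x, MemLp f 2 volume → Integrable (fun y => ker k n (x - y) * f y)
  der : ∀ k n f x, MemLp f 2 volume → HasDerivAt (mo k n f) (mo (k + 1) n f x) x
  mem : ∀ k n f, MemLp f 2 volume → MemLp (mo k n f) 2 volume
  sq : ∀ k n, ∃ C : ℝ, 0 ≤ C ∧ ∀ f, MemLp f 2 volume →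
    (∫ x, mo k n f x ^ 2) ≤ C * (∫ x, f x ^ 2) ∧ ∀ x, mo k n f x ^ 2 ≤ C * ∫ y, f y ^ 2
  sq0 : ∀ n f, MemLp f 2 volume → (∫ x, mo 0 n f x ^ 2) ≤ ∫ x, f x ^ 2
  sub : ∀ k n f g x, MemLp f 2 volume → MemLp g 2 volume →
    mo k n (fun y => f y - g y) x = mo k n f x - mo k n g x

/-- Mollifiers, `H^1` facts and convergence. -/
structure MoB : Prop where
  bdd : ∀ k n f, MemLp f 2 volume → Bdd (mo k n f)
  h1 : ∀ k n f, MemLp f 2 volume → IsH1 (mo k n f) (mo (k + 1) n f)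
  prim : ∀ k n f g x, IsH1 f g → mo (k + 1) n f x = mo k n g x
  l2t : ∀ f, MemLp f 2 volume → L2T atTop (fun n => mo 0 n f) f
  h1t : ∀ f g, IsH1 f g → H1T atTop (fun n => mo 0 n f) (fun n => mo 1 n f) f g
  dom : ∀ n f G c x, MemLp f 2 volume → MemLp G 2 volume →
    (∀ y, |y - x| ≤ 1 → |f y| ≤ c * |G y|) → |mo 0 n f x| ≤ c * mo 0 n (fun y => |G y|) x
  loc : ∀ n f c x, MemLp f 2 volume → (∀ y, |y - x| ≤ 1 → |f y| ≤ c) → |mo 0 n f x| ≤ c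
  cl2 : ∀ k n (l : Filter ℝ) (f : ℝ → ℝ → ℝ) g, L2T l f g →
    L2T l (fun z => mo k n (f z)) (mo k n g)
  cut : ∀ k n (l : Filter ℝ) (f : ℝ → ℝ → ℝ) g, L2T l f g →
    UT l (fun z => mo k n (f z)) (mo k n g)

/-- Uniform bound on compact time intervals and continuity in time. -/
def TimA : Prop := ∀ (I : Set ℝ) (u ux : ℝ → ℝ → ℝ), IsSol I u ux → ∀ a b : ℝ, Icc a b ⊆ I →
  (∃ K : ℝ, 0 ≤ K ∧ ∀ t ∈ Icc a b, (∫ x, u t x ^ 2) ≤ K ∧ (∫ x, ux t x ^ 2) ≤ K ∧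
    ∀ x, |u t x| ≤ K) ∧
  (∀ t ∈ Icc a b, H1T (𝓝[Icc a b] t) u ux (u t) (ux t)) ∧
  (∀ t ∈ Icc a b, L2T (𝓝[Icc a b] t) (fun z y => u z y ^ 5) (fun y => u t y ^ 5)) ∧
  (∀ k n, ∀ t ∈ Icc a b, L2T (𝓝[Icc a b] t) (fun z => VV k n (u z)) (VV k n (u t)) ∧
    UT (𝓝[Icc a b] t) (fun z => VV k n (u z)) (VV k n (u t)))

/-- The mollified solution is differentiable in time with values in `L^2`. -/
def TimB : Prop := ∀ (I : Set ℝ) (u ux : ℝ → ℝ → ℝ), IsSol I u ux → ∀ a b : ℝ, Icc a b ⊆ I →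
  ∀ k n, ∀ t ∈ Ioo a b, L2T (𝓝[≠] t) (fun z y => (mo k n (u z) y - mo k n (u t) y) / (z - t))
    (VV k n (u t))

/-- Passage to the limit in integrated identities and inequalities. -/
structure LimS : Prop where
  eq : ∀ (a b B : ℝ) (d : ℕ → ℝ) (D : ℕ → ℝ → ℝ) (d0 : ℝ) (q : ℝ → ℝ), a ≤ b →
    (∀ n, ContinuousOn (D n) (Icc a b)) → (∀ n, d n = ∫ t in a..b, D n t) →
    (∀ n, ∀ t ∈ Icc a b, |D n t| ≤ B) →
    (∀ t ∈ Icc a b, Tendsto (fun n => D n t) atTop (𝓝 (q t))) → Tendsto d atTop (𝓝 d0) →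
    d0 = ∫ t in a..b, q t
  le : ∀ (a b B : ℝ) (d : ℕ → ℝ) (D : ℕ → ℝ → ℝ) (d0 : ℝ) (q : ℝ → ℝ), a ≤ b →
    (∀ n, ContinuousOn (D n) (Icc a b)) → ContinuousOn q (Icc a b) →
    (∀ n, d n = ∫ t in a..b, D n t) → (∀ n, ∀ t ∈ Icc a b, D n t ≤ B) →
    (∀ t ∈ Icc a b, ∀ ε : ℝ, 0 < ε → ∀ᶠ n in atTop, D n t ≤ q t + ε) →
    Tendsto d atTop (𝓝 d0) → d0 ≤ ∫ t in a..b, q t

/-- Energy identity in time for the mollified solution. -/
def EnA : Prop := ∀ (I : Set ℝ) (u ux : ℝ → ℝ → ℝ), IsSol I u ux → ∀ a b : ℝ, a ≤ b →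
  Icc a b ⊆ I → ∀ W : ℝ → ℝ, Bdd W → ∀ n,
    ContinuousOn (fun t => Dn n (u t) W) (Icc a b) ∧
    (∫ x, en (mo 0 n (u b) x) (mo 1 n (u b) x) * W x) -
      (∫ x, en (mo 0 n (u a) x) (mo 1 n (u a) x) * W x) = ∫ t in a..b, Dn n (u t) W

/-- Integration by parts in space. -/
def EnB : Prop := ∀ (f fy W W1 W2 W3 : ℝ → ℝ), IsH1 f fy → Wb W W1 W2 W3 → ∀ n,
  Dn n f W = ∫ x, (-3 * W1 x * mo 2 n f x ^ 2 +
    fl2 (mo 0 n f x) (mo 1 n f x) 0 0 (W1 x) (W2 x) (W3 x) +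
    2 * (W x * (mo 2 n f x + mo 0 n f x ^ 5) + W1 x * mo 1 n f x) * cm n f x)

/-- The commutator is bounded, tends to zero in `L^2`, and lives where `Φ1` lives. -/
structure CmS : Prop where
  mem : ∀ n f fy, IsH1 f fy → MemLp (cm n f) 2 volume
  bd : ∀ n f fy K, IsH1 f fy → (∫ x, fy x ^ 2) ≤ K → (∀ x, |f x| ≤ K) →
    (∫ x, cm n f x ^ 2) ≤ 100 * K ^ 9
  lim : ∀ f fy, IsH1 f fy → Tendsto (fun n => ∫ x, cm n f x ^ 2) atTop (𝓝 0)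
  loc : ∀ n f fy c x, IsH1 f fy → (∀ y, |y - x| ≤ 1 → f y ^ 4 ≤ c) →
    |cm n f x| ≤ 10 * c * mo 0 n (fun y => |fy y|) x

/-- Upper bound at a fixed time, before the limit. -/
def EnC : Prop := ∀ (W W1 W2 W3 Φ Φ1 Φ2 Φ3 g gy : ℝ → ℝ) (c θ : ℝ), Wb W W1 W2 W3 →
  (∀ x, 0 ≤ W1 x) → Wb Φ Φ1 Φ2 Φ3 → IsH1 g gy → 0 ≤ c → 0 < θ → ∃ C : ℝ, 0 ≤ C ∧
    ∀ (η : ℝ) (f fy : ℝ → ℝ), 0 < η → IsH1 f fy →
      (∀ x y, |y - x| ≤ 1 → f y ^ 4 ≤ c * Φ1 x) → (∀ x, 0 ≤ Φ1 x) → ∀ n,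
      Dn n f (fun x => W x + θ * Φ x) ≤
        (∫ x, fl2 (mo 0 n f x) (mo 1 n f x) (g x) (gy x) (W1 x) (W2 x) (W3 x)) +
        θ * (∫ x, fl2 (mo 0 n f x) (mo 1 n f x) 0 0 (Φ1 x) (Φ2 x) (Φ3 x)) +
        (∫ x, 2 * ((W x + θ * Φ x) * mo 0 n f x ^ 5 + (W1 x + θ * Φ1 x) * mo 1 n f x) * cm n f x) +
        C / η * (∫ x, cm n f x ^ 2) + C * η * ∫ x, fy x ^ 2

/-- Uniform bound and limit at a fixed time. -/
def EnD : Prop := ∀ (W W1 W2 W3 Φ Φ1 Φ2 Φ3 g gy : ℝ → ℝ) (c θ K : ℝ), Wb W W1 W2 W3 →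
  (∀ x, 0 ≤ W1 x) → Wb Φ Φ1 Φ2 Φ3 → (∀ x, 0 ≤ Φ1 x) → IsH1 g gy → 0 ≤ c → 0 < θ → ∃ B : ℝ,
    ∀ f fy : ℝ → ℝ, IsH1 f fy → (∫ x, f x ^ 2) ≤ K → (∫ x, fy x ^ 2) ≤ K → (∀ x, |f x| ≤ K) →
      (∀ x y, |y - x| ≤ 1 → f y ^ 4 ≤ c * Φ1 x) →
      (∀ n, Dn n f (fun x => W x + θ * Φ x) ≤ B) ∧
      ∀ ε : ℝ, 0 < ε → ∀ᶠ n in atTop, Dn n f (fun x => W x + θ * Φ x) ≤
        (∫ x, fl2 (f x) (fy x) (g x) (gy x) (W1 x) (W2 x) (W3 x)) +
        θ * (∫ x, fl2 (f x) (fy x) 0 0 (Φ1 x) (Φ2 x) (Φ3 x)) + ε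

/-- Convolution of a continuous family of integrable functions with a bounded kernel. -/
def KerS : Prop := ∀ (a b : ℝ) (F : ℝ → ℝ → ℝ) (k0 k1 : ℝ → ℝ), a ≤ b →
  (∀ t ∈ Icc a b, L1T (𝓝[Icc a b] t) F (F t)) → Bdd k0 →
  (Bdd (fun x => ∫ t in a..b, ∫ y, k0 (x - y) * F t y) ∧
    ∀ x, ContinuousOn (fun t => ∫ y, k0 (x - y) * F t y) (Icc a b)) ∧
  ((∀ x, HasDerivAt k0 (k1 x) x) → Bdd k1 → ∀ x,
    HasDerivAt (fun x => ∫ t in a..b, ∫ y, k0 (x - y) * F t y)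
      (∫ t in a..b, ∫ y, k1 (x - y) * F t y) x)

/-- A bounded weight whose derivative dominates `sup_t u^4`. -/
def PhiS : Prop := ∀ (I : Set ℝ) (u ux : ℝ → ℝ → ℝ), IsSol I u ux → ∀ a b : ℝ, a ≤ b →
  Icc a b ⊆ I → ∃ (Φ Φ1 Φ2 Φ3 : ℝ → ℝ) (c : ℝ), Wb Φ Φ1 Φ2 Φ3 ∧ (∀ x, 0 ≤ Φ1 x) ∧ 0 ≤ c ∧
    ∀ t ∈ Icc a b, ∀ x y, |y - x| ≤ 1 → u t y ^ 4 ≤ c * Φ1 x

end

end Pool.Agent.MP_8339a4_an

end

section

open MeasureTheory Filter Topology Set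

namespace Pool.Agent.MP_8339a4_an

theorem succ_W1a (k n : ℕ) : ker (k + 1) n = deriv (ker k n) := iteratedDeriv_succ

theorem zero_W1a (n : ℕ) : ker 0 n = (bump n).normed volume := iteratedDeriv_zero

theorem smooth_W1a (k n : ℕ) : ContDiff ℝ ((⊤ : ℕ∞) : WithTop ℕ∞) (ker k n) := by
  induction k with
  | zero => rw [zero_W1a]; exact (bump n).contDiff_normed
  | succ k ih => rw [succ_W1a]; exact (contDiff_infty_iff_deriv.1 ih).2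

theorem supp_W1a (k n : ℕ) : HasCompactSupport (ker k n) := by
  induction k with
  | zero => rw [zero_W1a]; exact (bump n).hasCompactSupport_normed
  | succ k ih => rw [succ_W1a]; exact ih.deriv

theorem tsupp_W1a (k n : ℕ) : tsupport (ker k n) ⊆ Metric.closedBall 0 (1 / ((n : ℝ) + 1)) := by
  induction k with
  | zero => rw [zero_W1a, (bump n).tsupport_normed_eq]; rfl
  | succ k ih => rw [succ_W1a]; exact tsupport_deriv_subset.trans ih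

theorem kz_W1a (k n : ℕ) (x : ℝ) (h : 1 / ((n : ℝ) + 1) ≤ |x|) : ker k n x = 0 := by
  have h1 : (Metric.closedBall (0 : ℝ) (1 / ((n : ℝ) + 1)))ᶜ ⊆ {x | ker k n x = 0} :=
    fun y hy => image_eq_zero_of_notMem_tsupport fun h2 => hy (tsupp_W1a k n h2)
  have h2 := closure_minimal h1 (isClosed_eq (smooth_W1a k n).continuous continuous_const)
  rw [closure_compl, interior_closedBall _ (by positivity)] at h2
  exact h2 (by simpa using h)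

theorem bdd_W1a {κ : ℝ → ℝ} (hc : Continuous κ) (hs : HasCompactSupport κ) : Bdd κ :=
  ⟨hc, hc.bounded_above_of_compact_support hs⟩

theorem mem_W1a {κ : ℝ → ℝ} (hc : Continuous κ) (hs : HasCompactSupport κ) (x : ℝ) :
    MemLp (fun y => κ (x - y)) 2 volume :=
  (hc.memLp_of_hasCompactSupport hs).comp_measurePreserving
    (Measure.measurePreserving_sub_left volume x)

theorem conv_W1a (k n : ℕ) (f : ℝ → ℝ) :
    mo k n f = convolution f (ker k n) (ContinuousLinearMap.mul ℝ ℝ) volume := by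
  funext x
  simp only [mo, convolution_def, ContinuousLinearMap.mul_apply', mul_comm]

theorem der_W1a (k n : ℕ) (f : ℝ → ℝ) (x : ℝ) (h : MemLp f 2 volume) :
    HasDerivAt (mo k n f) (mo (k + 1) n f x) x := by
  rw [conv_W1a, conv_W1a, succ_W1a]
  exact (supp_W1a k n).hasDerivAt_convolution_right _ (h.locallyIntegrable (by norm_num))
    ((smooth_W1a k n).of_le (by exact_mod_cast le_top)) x

theorem young_W1a (k n : ℕ) (f : ℝ → ℝ) (h : MemLp f 2 volume) :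
    Integrable (fun x => mo k n f x ^ 2) ∧
      ∫ x, mo k n f x ^ 2 ≤ (∫ x, |ker k n x|) ^ 2 * ∫ x, f x ^ 2 := by
  have hc := (smooth_W1a k n).continuous
  have hs := supp_W1a k n
  have ik : Integrable fun x => |ker k n x| := (hc.integrable_of_hasCompactSupport hs).abs
  have i2 := integrable_sq2 h
  have iH := i2.integrable_convolution (ContinuousLinearMap.mul ℝ ℝ) ik
  have eH := integral_convolution (ContinuousLinearMap.mul ℝ ℝ) i2 ik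
  have hp : ∀ x, mo k n f x ^ 2 ≤ (∫ x, |ker k n x|) * convolution (fun y => f y ^ 2)
      (fun x => |ker k n x|) (ContinuousLinearMap.mul ℝ ℝ) volume x := by
    intro x
    have b : Bdd fun y => |ker k n (x - y)| := ((bdd_W1a hc hs).comp (by fun_prop)).abs
    have i0 := (integrable_mul2 (mem_W1a hc hs x) h).abs
    have h1 := csw (w := fun y => |ker k n (x - y)|) (f := fun _ => 1) (g := fun y => |f y|)
      (fun _ => abs_nonneg _) (by simpa only [one_mul, ← abs_mul] using i0)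
      (by simpa only [one_pow, mul_one] using ik.comp_sub_left x)
      (by simpa only [sq_abs] using integrable_bdd_mul i2 b)
    simp only [one_mul, ← abs_mul, one_pow, mul_one, sq_abs] at h1
    rw [integral_sub_left_eq_self (fun y => |ker k n y|) volume x] at h1
    refine le_trans ?_ (h1.trans_eq ?_)
    · rw [← sq_abs]
      exact pow_le_pow_left₀ (abs_nonneg _) abs_integral_le_integral_abs 2
    · simp only [convolution_def, ContinuousLinearMap.mul_apply', mul_comm]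
  have hm : Continuous (mo k n f) :=
    continuous_iff_continuousAt.2 fun x => (der_W1a k n f x h).continuousAt
  have iM : Integrable fun x => mo k n f x ^ 2 :=
    (iH.const_mul _).mono' (hm.pow 2).aestronglyMeasurable (Eventually.of_forall fun x => by
      rw [Real.norm_of_nonneg (sq_nonneg _)]; exact hp x)
  refine ⟨iM, (integral_mono iM (iH.const_mul _) hp).trans_eq ?_⟩
  rw [integral_const_mul, eH, ContinuousLinearMap.mul_apply']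
  ring

theorem moA : MoA := by
  have hi : ∀ k n f x, MemLp f 2 volume → Integrable (fun y => ker k n (x - y) * f y) :=
    fun k n f x h => integrable_mul2 (mem_W1a (smooth_W1a k n).continuous (supp_W1a k n) x) h
  have k0 : ∀ n x, 0 ≤ ker 0 n x := fun n x => by rw [zero_W1a]; exact (bump n).nonneg_normed x
  have k1 : ∀ n, ∫ x, ker 0 n x = 1 := fun n => by rw [zero_W1a]; exact (bump n).integral_normed
  refine ⟨smooth_W1a, supp_W1a, fun k n x => ?_, kz_W1a, k0, k1, hi, der_W1a, fun k n f h => ?_,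
    fun k n => ?_, fun n f h => ?_, fun k n f g x h1 h2 => ?_⟩
  · rw [succ_W1a]
    exact ((smooth_W1a k n).differentiable (by simp) x).hasDerivAt
  · have hm : Continuous (mo k n f) :=
      continuous_iff_continuousAt.2 fun x => (der_W1a k n f x h).continuousAt
    exact (memLp_two_iff_integrable_sq hm.aestronglyMeasurable).2 (young_W1a k n f h).1
  · have h0 : 0 ≤ ∫ x, ker k n x ^ 2 := integral_nonneg fun _ => sq_nonneg _
    refine ⟨(∫ x, |ker k n x|) ^ 2 + ∫ x, ker k n x ^ 2, by positivity, fun f h => ?_⟩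
    have h1 : 0 ≤ ∫ x, f x ^ 2 := integral_nonneg fun _ => sq_nonneg _
    refine ⟨(young_W1a k n f h).2.trans (mul_le_mul_of_nonneg_right (by linarith) h1),
      fun x => ?_⟩
    have h2 := cs2 (mem_W1a (smooth_W1a k n).continuous (supp_W1a k n) x) h
    rw [integral_sub_left_eq_self (fun y => ker k n y ^ 2) volume x] at h2
    exact h2.trans (mul_le_mul_of_nonneg_right (le_add_of_nonneg_left (sq_nonneg _)) h1)
  · have h1 := (young_W1a 0 n f h).2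
    simp only [abs_of_nonneg (k0 n _)] at h1
    rwa [k1, one_pow, one_mul] at h1
  · simp only [mo, mul_sub]
    exact integral_sub (hi k n f x h1) (hi k n g x h2)

end Pool.Agent.MP_8339a4_an

end

section

open MeasureTheory Filter Topology Set

namespace Pool.Agent.MP_8339a4_an

theorem dct_W3a {a b B : ℝ} {D : ℕ → ℝ → ℝ} {q : ℝ → ℝ} (hab : a ≤ b)
    (hc : ∀ n, ContinuousOn (D n) (Icc a b)) (hB : ∀ n, ∀ t ∈ Icc a b, |D n t| ≤ B)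
    (hl : ∀ t ∈ Icc a b, Tendsto (fun n => D n t) atTop (𝓝 (q t))) :
    Tendsto (fun n => ∫ t in a..b, D n t) atTop (𝓝 (∫ t in a..b, q t)) := by
  have hs : uIoc a b ⊆ Icc a b := by
    rw [uIoc_of_le hab]
    exact Ioc_subset_Icc_self
  refine intervalIntegral.tendsto_integral_filter_of_dominated_convergence (fun _ => B)
    (Eventually.of_forall fun n => ?_) (Eventually.of_forall fun n => ?_) ?_ ?_
  · exact ((hc n).mono hs).aestronglyMeasurable measurableSet_uIoc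
  · exact Eventually.of_forall fun t ht => hB n t (hs ht)
  · exact intervalIntegrable_const
  · exact Eventually.of_forall fun t ht => hl t (hs ht)

theorem limS : LimS := by
  constructor
  · intro a b B d D d0 q hab hc hd hB hl h0
    have h := dct_W3a hab hc hB hl
    have e : d = fun n => ∫ t in a..b, D n t := funext hd
    rw [e] at h0
    exact tendsto_nhds_unique h0 h
  · intro a b B d D d0 q hab hc hq hd hB hl h0
    obtain ⟨M, hM⟩ := isCompact_Icc.exists_bound_of_continuousOn hq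
    have hc' : ∀ n, ContinuousOn (fun t => max (D n t) (q t)) (Icc a b) := fun n =>
      (hc n).sup hq
    have hB' : ∀ n, ∀ t ∈ Icc a b, |max (D n t) (q t)| ≤ max B M := by
      intro n t ht
      have h1 := abs_le.1 (show |q t| ≤ M from hM t ht)
      have h2 := le_max_right B M
      have h3 := le_max_right (D n t) (q t)
      refine abs_le.2 ⟨by linarith [h1.1], max_le_max (hB n t ht) h1.2⟩
    have hl' : ∀ t ∈ Icc a b, Tendsto (fun n => max (D n t) (q t)) atTop (𝓝 (q t)) := by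
      intro t ht
      refine Metric.tendsto_nhds.2 fun ε hε => ?_
      filter_upwards [hl t ht (ε / 2) (by positivity)] with n hn
      have h3 := le_max_right (D n t) (q t)
      have h4 : max (D n t) (q t) ≤ q t + ε / 2 := max_le hn (by linarith)
      rw [Real.dist_eq, abs_lt]
      constructor <;> linarith
    have h := dct_W3a hab hc' hB' hl'
    refine le_of_tendsto_of_tendsto' h0 h fun n => ?_
    rw [hd n]
    refine intervalIntegral.integral_mono_on hab ((hc n).intervalIntegrable_of_Icc hab)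
      ((hc' n).intervalIntegrable_of_Icc hab) fun t _ => le_max_left _ _

end Pool.Agent.MP_8339a4_an

end
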