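import Pool.Agent.Mg.F8339a4.G1d67fe
import Pool.Agent.Mg.F8339a4.Ge5fdb7
import Pool.Agent.Mg.F8339a4.Gbdfcb2

section

/-! API: the steps `ph`. -/

open MeasureTheory Filter Topology Set

namespace Pool.Agent.MP_8339a4_an

variable {r K : ℝ}

theorem arg_T5b (r A K y : ℝ) : r / K * y + -A / K = (r * y - A) / K := by ring

theorem lin_T5b (r A K y : ℝ) : HasDerivAt (fun y => (r * y - A) / K) (r / K) y := by
  simpa using (((hasDerivAt_id y).const_mul r).sub_const A).div_const K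

theorem der_T5b {F F1 : ℝ → ℝ} (h : ∀ x, HasDerivAt F (F1 x) x) (c r A K y : ℝ) :
    HasDerivAt (fun y => c * F ((r * y - A) / K)) (c * (r / K) * F1 ((r * y - A) / K)) y := by
  have := ((h ((r * y - A) / K)).comp y (lin_T5b r A K y)).const_mul c
  exact this.congr_deriv (by ring)

theorem expD_T5b {F : ℝ → ℝ} (h : ExpD F) (hr : 0 < r) (hK : 0 < K) (c A : ℝ) :
    ExpD (fun y => c * F ((r * y - A) / K)) :=
  ((h.comp_affine (div_pos hr hK).ne' (-A / K)).const_mul c).congr fun y => by rw [arg_T5b]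

theorem gam_T5b : ∫ x : ℝ, Real.exp (-|x|) * |x| ^ 2 = 4 := by
  rw [integral_comp_abs (f := fun x => Real.exp (-x) * x ^ 2)]
  have h := Real.Gamma_eq_integral (s := 3) (by norm_num)
  have h2 : Real.Gamma 3 = 2 := by norm_num
  have h3 : ∀ x : ℝ, x ^ ((3 : ℝ) - 1) = x ^ 2 := fun x => by
    rw [show (3 : ℝ) - 1 = ((2 : ℕ) : ℝ) by norm_num, Real.rpow_natCast]
  simp only [h3] at h
  rw [← h, h2]
  norm_num

theorem sq_T5b : Integrable (fun x => P1 x * x ^ 2) ∧ ∫ x, P1 x * x ^ 2 ≤ 4 := by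
  have i1 : Integrable (fun x => P1 x * x ^ 2) :=
    (expD_P1.id_mul.id_mul.congr fun y => by ring).integrable
  have i2 : Integrable (fun x : ℝ => Real.exp (-|x|) * |x| ^ 2) :=
    ((ExpD.exp_neg_abs one_pos).id_mul.id_mul.congr fun y => by
      rw [sq_abs, one_mul]; ring).integrable
  refine ⟨i1, gam_T5b ▸ integral_mono i1 i2 fun x => ?_⟩
  dsimp only
  rw [sq_abs]
  exact mul_le_mul_of_nonneg_right (P1_le_exp x) (sq_nonneg x)

theorem hasDerivAt_ph (r A K y : ℝ) : HasDerivAt (ph r A K) (ph1 r A K y) y := by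
  have := der_T5b hasDerivAt_P0 1 r A K y
  simp only [one_mul] at this
  exact this
theorem hasDerivAt_ph1 (r A K y : ℝ) : HasDerivAt (ph1 r A K) (ph2 r A K y) y :=
  (der_T5b hasDerivAt_P1 (r / K) r A K y).congr_deriv (by unfold ph2; ring)
theorem hasDerivAt_ph2 (r A K y : ℝ) : HasDerivAt (ph2 r A K) (ph3 r A K y) y :=
  (der_T5b hasDerivAt_P2 ((r / K) ^ 2) r A K y).congr_deriv (by unfold ph3; ring)
theorem hasDerivAt_ph3 (r A K y : ℝ) : HasDerivAt (ph3 r A K) (ph4 r A K y) y :=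
  (der_T5b hasDerivAt_P3 ((r / K) ^ 3) r A K y).congr_deriv (by unfold ph4; ring)
theorem ph_pos (r A K y : ℝ) : 0 < ph r A K y := P0_pos _
theorem ph_lt_one (r A K y : ℝ) : ph r A K y < 1 := P0_lt_one _
theorem bdd_ph (r A K : ℝ) : Bdd (ph r A K) :=
  bdd_P0.comp (g := fun y => (r * y - A) / K) (by fun_prop)
theorem ph1_pos (hr : 0 < r) (hK : 0 < K) (A y : ℝ) : 0 < ph1 r A K y :=
  mul_pos (div_pos hr hK) (P1_pos _)
theorem ph1_eq (r A K y : ℝ) : ph1 r A K y = r / K * (ph r A K y * (1 - ph r A K y)) := rfl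
theorem ph1_le (hr : 0 < r) (hK : 0 < K) (A y : ℝ) : ph1 r A K y ≤ r / K * ph r A K y :=
  mul_le_mul_of_nonneg_left (P1_le_P0 _) (div_pos hr hK).le
theorem abs_ph2_le (hr : 0 < r) (hK : 0 < K) (A y : ℝ) :
    |ph2 r A K y| ≤ r / K * ph1 r A K y := by
  have h := div_pos hr hK
  unfold ph2 ph1
  rw [abs_mul, abs_of_pos (pow_pos h 2), ← mul_assoc, ← sq]
  exact mul_le_mul_of_nonneg_left (abs_P2_le _) (pow_pos h 2).le
theorem abs_ph3_le (hr : 0 < r) (hK : 0 < K) (A y : ℝ) :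
    |ph3 r A K y| ≤ (r / K) ^ 2 * ph1 r A K y := by
  have h := div_pos hr hK
  unfold ph3 ph1
  rw [abs_mul, abs_of_pos (pow_pos h 3), ← mul_assoc, ← pow_succ]
  exact mul_le_mul_of_nonneg_left (abs_P3_le _) (pow_pos h 3).le
theorem abs_ph4_le (hr : 0 < r) (hK : 0 < K) (A y : ℝ) :
    |ph4 r A K y| ≤ 2 * (r / K) ^ 3 * ph1 r A K y := by
  have h := div_pos hr hK
  unfold ph4 ph1
  rw [abs_mul, abs_of_pos (pow_pos h 4)]
  exact (mul_le_mul_of_nonneg_left (abs_P4_le _) (pow_pos h 4).le).trans_eq (by ring)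
theorem expD_ph1 (hr : 0 < r) (hK : 0 < K) (A : ℝ) : ExpD (ph1 r A K) := expD_T5b expD_P1 hr hK _ A
theorem expD_ph2 (hr : 0 < r) (hK : 0 < K) (A : ℝ) : ExpD (ph2 r A K) := expD_T5b expD_P2 hr hK _ A
theorem expD_ph3 (hr : 0 < r) (hK : 0 < K) (A : ℝ) : ExpD (ph3 r A K) := expD_T5b expD_P3 hr hK _ A
theorem expD_ph4 (hr : 0 < r) (hK : 0 < K) (A : ℝ) : ExpD (ph4 r A K) := expD_T5b expD_P4 hr hK _ A
theorem wt_ph (hr : 0 < r) (hK : 0 < K) (A : ℝ) :
    Wt (ph r A K) (ph1 r A K) (ph2 r A K) (ph3 r A K) :=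
  (wt_P0.comp_affine (div_pos hr hK).ne' (-A / K)).congr (fun y => by rw [arg_T5b]; rfl)
    (fun y => by rw [arg_T5b]; rfl) (fun y => by rw [arg_T5b]; rfl) fun y => by rw [arg_T5b]; rfl
theorem test_ph1 (hr : 0 < r) (hK : 0 < K) (A : ℝ) :
    Test (ph1 r A K) (ph2 r A K) (ph3 r A K) (ph4 r A K) :=
  ⟨⟨hasDerivAt_ph1 r A K, hasDerivAt_ph2 r A K, hasDerivAt_ph3 r A K, (expD_ph4 hr hK A).1⟩,
    expD_ph1 hr hK A, expD_ph2 hr hK A, expD_ph3 hr hK A, expD_ph4 hr hK A⟩
theorem tendsto_ph_atTop (hr : 0 < r) (hK : 0 < K) (A : ℝ) : Tendsto (ph r A K) atTop (𝓝 1) :=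
  tendsto_P0_atTop.comp (f := fun y => (r * y - A) / K)
    ((tendsto_atTop_add_const_right _ (-A) (tendsto_id.const_mul_atTop hr)).atTop_div_const hK)
theorem tendsto_ph_atBot (hr : 0 < r) (hK : 0 < K) (A : ℝ) : Tendsto (ph r A K) atBot (𝓝 0) :=
  tendsto_P0_atBot.comp (f := fun y => (r * y - A) / K)
    ((tendsto_atBot_add_const_right _ (-A) (tendsto_id.const_mul_atBot hr)).atBot_div_const hK)
theorem integral_ph1 (hr : 0 < r) (hK : 0 < K) (A : ℝ) : ∫ y, ph1 r A K y = 1 := by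
  rw [(IsPrim.of_hasDerivAt (hasDerivAt_ph r A K) (expD_ph1 hr hK A).1).integral_of_tendsto
    (expD_ph1 hr hK A).integrable (tendsto_ph_atBot hr hK A) (tendsto_ph_atTop hr hK A), sub_zero]
theorem integral_ph3 (hr : 0 < r) (hK : 0 < K) (A : ℝ) : ∫ y, ph3 r A K y = 0 :=
  (IsPrim.of_hasDerivAt (hasDerivAt_ph2 r A K) (expD_ph3 hr hK A).1).integral_eq_zero
    (expD_ph2 hr hK A).integrable (expD_ph3 hr hK A).integrable
theorem integral_ph1_sq (hr : 0 < r) (hK : 0 < K) (A : ℝ) :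
    ∫ y, ph1 r A K y * y ^ 2 ≤ 2 * (A / r) ^ 2 + 8 * (K / r) ^ 2 := by
  have h := div_pos hr hK
  have e1 : ∀ y, ph1 r A K y * y ^ 2 = (fun x => r / K * (P1 x * ((K * x + A) / r) ^ 2))
      (r / K * y + -A / K) := fun y => by
    have : (K * (r / K * y + -A / K) + A) / r = y := by field_simp; ring
    dsimp only
    rw [this, arg_T5b, ph1, mul_assoc]
  simp only [e1]
  rw [integral_comp_affine (fun x => r / K * (P1 x * ((K * x + A) / r) ^ 2)) h,
    integral_const_mul, mul_div_cancel_left₀ _ h.ne']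
  have i0 := expD_P1.integrable
  have i1 : Integrable (fun x => P1 x * ((K * x + A) / r) ^ 2) :=
    ((((expD_P1.id_mul.id_mul.const_mul ((K / r) ^ 2)).add
      (expD_P1.id_mul.const_mul (2 * (K / r) * (A / r)))).add
      (expD_P1.const_mul ((A / r) ^ 2))).congr fun y => by ring).integrable
  have i2 := i0.const_mul (2 * (A / r) ^ 2)
  have i3 := sq_T5b.1.const_mul (2 * (K / r) ^ 2)
  refine (integral_mono i1 (i2.add i3) fun x => ?_).trans ?_
  · have h1 : ((K * x + A) / r) ^ 2 ≤ 2 * (A / r) ^ 2 + 2 * (K / r) ^ 2 * x ^ 2 := by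
      have : (K * x + A) / r = K / r * x + A / r := by ring
      rw [this]
      nlinarith [sq_nonneg (K / r * x - A / r)]
    exact (mul_le_mul_of_nonneg_left h1 (P1_pos x).le).trans_eq (by simp only [Pi.add_apply]; ring)
  · rw [integral_add' i2 i3, integral_const_mul, integral_const_mul, integral_P1]
    nlinarith [sq_T5b.2, sq_nonneg (K / r)]

/-- Time derivative of a moving step. -/
theorem me_ph {ρ a : ℝ → ℝ} {ρ' a' s : ℝ} (hρ : HasDerivAt ρ ρ' s) (ha : HasDerivAt a a' s)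
    (h0 : 0 < ρ s) (hK : 0 < K) :
    ME (fun z y => ph (ρ z) (a z) K y) (fun y => ph1 (ρ s) (a s) K y * ((ρ' * y - a') / ρ s)) s :=
  (me_profile hasDerivAt_P0 expD_P1 (hρ.div_const K) (ha.neg.div_const K)
    (div_pos h0 hK).ne').congr
    (Eventually.of_forall fun z y => by simp only [Pi.neg_apply]; rw [arg_T5b]; rfl) fun y => by
      simp only [Pi.neg_apply]
      rw [arg_T5b, ph1]
      field_simp
      ring
theorem mw_ph {ρ a : ℝ → ℝ} {ρ' a' s : ℝ} (hρ : HasDerivAt ρ ρ' s) (ha : HasDerivAt a a' s)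
    (h0 : 0 < ρ s) (hK : 0 < K) :
    MW (fun z y => ph (ρ z) (a z) K y) (fun y => ph1 (ρ s) (a s) K y * ((ρ' * y - a') / ρ s)) s :=
  (mw_profile hasDerivAt_P0 bdd_P0 expD_P1.bdd expD_P1.id_mul.bdd (hρ.div_const K)
    (ha.neg.div_const K) (div_pos h0 hK).ne').congr
    (Eventually.of_forall fun z y => by simp only [Pi.neg_apply]; rw [arg_T5b]; rfl) fun y => by
      simp only [Pi.neg_apply]
      rw [arg_T5b, ph1]
      field_simp
      ring
theorem me_ph1 {ρ a : ℝ → ℝ} {ρ' a' s : ℝ} (hρ : HasDerivAt ρ ρ' s) (ha : HasDerivAt a a' s)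
    (h0 : 0 < ρ s) (hK : 0 < K) :
    ME (fun z y => ph1 (ρ z) (a z) K y) (fun y => ρ' / ρ s * ph1 (ρ s) (a s) K y
      + ph2 (ρ s) (a s) K y * ((ρ' * y - a') / ρ s)) s :=
  ((me_profile hasDerivAt_P1 expD_P2 (hρ.div_const K) (ha.neg.div_const K)
    (div_pos h0 hK).ne').scalar_mul (expD_P1.comp_affine (div_pos h0 hK).ne' _)
    (hρ.div_const K)).congr
    (Eventually.of_forall fun z y => by simp only [Pi.neg_apply]; rw [arg_T5b]; rfl) fun y => by
      simp only [Pi.neg_apply]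
      rw [arg_T5b, ph1, ph2]
      field_simp
      ring
theorem mw_ph1 {ρ a : ℝ → ℝ} {ρ' a' s : ℝ} (hρ : HasDerivAt ρ ρ' s) (ha : HasDerivAt a a' s)
    (h0 : 0 < ρ s) (hK : 0 < K) :
    MW (fun z y => ph1 (ρ z) (a z) K y) (fun y => ρ' / ρ s * ph1 (ρ s) (a s) K y
      + ph2 (ρ s) (a s) K y * ((ρ' * y - a') / ρ s)) s :=
  ((MW.of_scalar (hρ.div_const K)).mul (mw_profile hasDerivAt_P1 expD_P1.bdd expD_P2.bdd
    expD_P2.id_mul.bdd (hρ.div_const K) (ha.neg.div_const K) (div_pos h0 hK).ne')).congr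
    (Eventually.of_forall fun z y => by simp only [Pi.neg_apply]; rw [arg_T5b]; rfl) fun y => by
      simp only [Pi.neg_apply]
      rw [arg_T5b, ph1, ph2]
      field_simp
      ring

end Pool.Agent.MP_8339a4_an

end

section

/-! API: the function `rho` and the basic envelope. -/

open MeasureTheory Filter Topology Set

namespace Pool.Agent.MP_8339a4_an

theorem LQ_le_T7b (x : ℝ) : |LQ x| ≤ 4 * Real.exp (-(|x| / 2)) := by
  have h1 := Real.add_one_le_exp (|x| / 2)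
  have h2 : Real.exp (|x| / 2) * Real.exp (-|x|) = Real.exp (-(|x| / 2)) := by
    rw [← Real.exp_add]
    congr 1
    ring
  have h3 := abs_nonneg x
  calc |LQ x| ≤ (1 + |x|) * Q x := abs_LQ_le x
    _ ≤ (2 * Real.exp (|x| / 2)) * (2 * Real.exp (-|x|)) :=
      mul_le_mul (by linarith) (Q_le_exp x) (Q_pos x).le (by positivity)
    _ = 4 * Real.exp (-(|x| / 2)) := by rw [← h2]; ring

theorem prim_T7b : IsPrim rho LQ :=
  ⟨fun _ _ => expD_LQ.integrable.intervalIntegrable, fun _ _ =>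
    intervalIntegral.integral_Iic_sub_Iic expD_LQ.integrable.integrableOn
      expD_LQ.integrable.integrableOn⟩

theorem env_le_T7b (y : ℝ) : Real.exp (|y| / 10) * (1 + y ^ 2) * Q y ≤
    2 * ((1 + y ^ 2) * Real.exp (-(9 / 10 * |y|))) := by
  have h2 : Real.exp (|y| / 10) * Real.exp (-|y|) = Real.exp (-(9 / 10 * |y|)) := by
    rw [← Real.exp_add]
    congr 1
    ring
  calc _ ≤ Real.exp (|y| / 10) * (1 + y ^ 2) * (2 * Real.exp (-|y|)) :=
      mul_le_mul_of_nonneg_left (Q_le_exp y) (by positivity)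
    _ = _ := by rw [← h2]; ring

theorem env_pos_T7b (y : ℝ) : 0 < Real.exp (|y| / 10) * (1 + y ^ 2) * Q y :=
  mul_pos (by positivity) (Q_pos y)

theorem sq_le_T7b {x : ℝ} (hx : 0 ≤ x) : x ^ 2 ≤ Real.exp x + Real.exp (-x) - 2 := by
  have h1 : x / 2 ≤ Real.sinh (x / 2) := Real.self_le_sinh_iff.2 (by linarith)
  have h2 := Real.cosh_two_mul (x / 2)
  rw [Real.cosh_sq, show 2 * (x / 2) = x by ring, Real.cosh_eq] at h2
  nlinarith

theorem hasDerivAt_rho (y : ℝ) : HasDerivAt rho (LQ y) y := by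
  have h : rho = fun z => rho 0 + ∫ x in (0 : ℝ)..z, LQ x := by
    funext z
    rw [← prim_T7b.2 0 z]
    ring
  rw [h]
  exact ((expD_LQ.1.integral_hasStrictDerivAt 0 y).hasDerivAt).const_add _
theorem abs_rho_le {y : ℝ} (hy : y ≤ 0) : |rho y| ≤ 8 * Real.exp (-(|y| / 2)) := by
  have h1 : ‖∫ x in Iic y, LQ x‖ ≤ ∫ x in Iic y, 4 * Real.exp (1 / 2 * x) := by
    refine norm_integral_le_of_norm_le
      ((integrableOn_exp_mul_Iic (by norm_num) y).const_mul 4) ?_
    filter_upwards [ae_restrict_mem measurableSet_Iic] with x hx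
    have h2 := LQ_le_T7b x
    rw [abs_of_nonpos (le_trans hx hy), show -(-x / 2) = 1 / 2 * x by ring] at h2
    exact h2
  rw [integral_const_mul, integral_exp_mul_Iic (by norm_num)] at h1
  rw [abs_of_nonpos hy, show -(-y / 2) = 1 / 2 * y by ring]
  calc |rho y| ≤ _ := h1
    _ = _ := by ring
theorem abs_rho_sub_le {y : ℝ} (hy : 0 ≤ y) : |rho y - mm| ≤ 8 * Real.exp (-(|y| / 2)) := by
  have h0 : rho y - mm = -∫ x in Ioi y, LQ x := by
    have := intervalIntegral.integral_Iic_add_Ioi (b := y) expD_LQ.integrable.integrableOn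
      expD_LQ.integrable.integrableOn
    unfold rho mm
    linarith
  have h1 : ‖∫ x in Ioi y, LQ x‖ ≤ ∫ x in Ioi y, 4 * Real.exp (-(1 / 2) * x) := by
    refine norm_integral_le_of_norm_le
      ((integrableOn_exp_mul_Ioi (by norm_num) y).const_mul 4) ?_
    filter_upwards [ae_restrict_mem measurableSet_Ioi] with x hx
    have h2 := LQ_le_T7b x
    rw [abs_of_nonneg (le_trans hy (le_of_lt hx)), show -(x / 2) = -(1 / 2) * x by ring] at h2
    exact h2
  rw [integral_const_mul, integral_exp_mul_Ioi (by norm_num)] at h1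
  rw [h0, abs_neg, abs_of_nonneg hy, show -(y / 2) = -(1 / 2) * y by ring]
  calc |∫ x in Ioi y, LQ x| ≤ _ := h1
    _ = _ := by ring
theorem bdd_rho : Bdd rho := by
  refine ⟨prim_T7b.continuous, 8 + |mm|, fun y => ?_⟩
  have h1 : Real.exp (-(|y| / 2)) ≤ 1 := Real.exp_le_one_iff.2 (by have := abs_nonneg y; linarith)
  rcases le_total y 0 with h | h
  · have := abs_rho_le h
    have := abs_nonneg mm
    linarith
  · have := abs_rho_sub_le h
    have := abs_sub_abs_le_abs_sub (rho y) mm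
    linarith

theorem tendsto_T7b {l : Filter ℝ} (h : Tendsto (fun y : ℝ => |y|) l atTop) :
    Tendsto (fun y : ℝ => 8 * Real.exp (-(|y| / 2))) l (𝓝 0) := by
  have := (Real.tendsto_exp_neg_atTop_nhds_zero.comp (h.atTop_div_const (by norm_num :
    (0 : ℝ) < 2))).const_mul 8
  simpa using this

theorem integral_LQ_rho : ∫ y, LQ y * rho y = mm ^ 2 / 2 := by
  have h1 : Tendsto rho atBot (𝓝 0) :=
    squeeze_zero_norm' ((eventually_le_atBot 0).mono fun y hy => abs_rho_le hy)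
      (tendsto_T7b tendsto_abs_atBot_atTop)
  have h2 : Tendsto rho atTop (𝓝 mm) := tendsto_sub_nhds_zero_iff.1
    (squeeze_zero_norm' ((eventually_ge_atTop 0).mono fun y hy => abs_rho_sub_le hy)
      (tendsto_T7b tendsto_abs_atTop_atTop))
  have h3 : IsPrim (fun y => 1 / 2 * (rho y * rho y)) (fun y => LQ y * rho y) :=
    ((prim_T7b.mul prim_T7b).const_mul (1 / 2)).congr (fun _ => rfl) (fun y => by ring)
  rw [h3.integral_of_tendsto (expD_LQ.mul_bdd bdd_rho).integrable ((h1.mul h1).const_mul _)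
    ((h2.mul h2).const_mul _)]
  ring
theorem integral_Q1_rho : ∫ y, Q1 y * rho y = 0 := by
  rw [isH1_Q.isPrim.ibp prim_T7b (expD_Q.mul_bdd bdd_rho).integrable
    (expD_Q1.mul_bdd bdd_rho).integrable (expD_Q.mul_bdd expD_LQ.bdd).integrable, integral_Q_LQ,
    neg_zero]
theorem test_rho_ph {r K : ℝ} (hr : 0 < r) (hK : 0 < K) (A : ℝ) :
    Test (fun y => rho y - mm * ph r A K y) (fun y => LQ y - mm * ph1 r A K y)
      (fun y => LQ1 y - mm * ph2 r A K y) (fun y => LQ2 y - mm * ph3 r A K y) := by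
  have e3 := expD_LQ2.sub ((expD_ph3 hr hK A).const_mul mm)
  refine ⟨⟨fun y => (hasDerivAt_rho y).sub ((hasDerivAt_ph r A K y).const_mul mm),
    fun y => (hasDerivAt_LQ y).sub ((hasDerivAt_ph1 r A K y).const_mul mm),
    fun y => (hasDerivAt_LQ1 y).sub ((hasDerivAt_ph2 r A K y).const_mul mm), e3.1⟩, ?_,
    expD_LQ.sub ((expD_ph1 hr hK A).const_mul mm),
    expD_LQ1.sub ((expD_ph2 hr hK A).const_mul mm), e3⟩
  have e0 := ((ExpD.exp_neg_abs (c := 1 / 2) (by norm_num)).const_mul 8).add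
    ((ExpD.exp_neg_abs (div_pos hr hK)).const_mul (|mm| * Real.exp (|A| / K)))
  refine e0.of_le (bdd_rho.sub ((bdd_ph r A K).const_mul mm)).1 1 fun y => ?_
  rw [one_mul, show 1 / 2 * |y| = |y| / 2 by ring, mul_assoc, ← Real.exp_add]
  refine le_trans ?_ (le_abs_self _)
  have hA1 : -A / K ≤ |A| / K := div_le_div_of_nonneg_right (neg_le_abs A) hK.le
  have hA2 : A / K ≤ |A| / K := div_le_div_of_nonneg_right (le_abs_self A) hK.le
  rcases le_total y 0 with h | h
  · have h1 : ph r A K y ≤ Real.exp (|A| / K + -(r / K * |y|)) := by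
      refine (P0_le_exp _).trans (Real.exp_le_exp.2 ?_)
      rw [abs_of_nonpos h, show (r * y - A) / K = -A / K + -(r / K * -y) by ring]
      linarith
    refine (abs_sub _ _).trans (add_le_add (abs_rho_le h) ?_)
    rw [abs_mul, abs_of_pos (ph_pos r A K y)]
    exact mul_le_mul_of_nonneg_left h1 (abs_nonneg _)
  · have h1 : 1 - ph r A K y ≤ Real.exp (|A| / K + -(r / K * |y|)) := by
      refine (one_sub_P0_le_exp _).trans (Real.exp_le_exp.2 ?_)
      rw [abs_of_nonneg h, show -((r * y - A) / K) = A / K + -(r / K * y) by ring]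
      linarith
    rw [show rho y - mm * ph r A K y = (rho y - mm) + mm * (1 - ph r A K y) by ring]
    refine (abs_add_le _ _).trans (add_le_add (abs_rho_sub_le h) ?_)
    rw [abs_mul, abs_of_pos (sub_pos.2 (ph_lt_one r A K y))]
    exact mul_le_mul_of_nonneg_left h1 (abs_nonneg _)
/-- The basic integrable envelope. -/
theorem expD_env : ExpD (fun y => Real.exp (|y| / 10) * (1 + y ^ 2) * Q y) := by
  have e0 := ExpD.exp_neg_abs (c := 9 / 10) (by norm_num)
  have hQ := expD_Q.1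
  refine (e0.add e0.id_mul.id_mul).of_le (by fun_prop) 2 fun y => ?_
  rw [abs_of_pos (env_pos_T7b y)]
  refine (env_le_T7b y).trans (mul_le_mul_of_nonneg_left ?_ (by norm_num))
  exact le_trans (le_of_eq (by ring)) (le_abs_self _)
theorem env_le (y : ℝ) : Real.exp (|y| / 10) * (1 + y ^ 2) * Q y ≤ 10 := by
  refine (env_le_T7b y).trans ?_
  have h0 := abs_nonneg y
  have h1 := Real.quadratic_le_exp_of_nonneg (x := 9 / 10 * |y|) (by positivity)
  have h2 : 1 + y ^ 2 ≤ 5 * Real.exp (9 / 10 * |y|) := by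
    rw [mul_pow, sq_abs] at h1
    nlinarith [sq_nonneg y]
  rw [Real.exp_neg, ← div_eq_mul_inv]
  have := (div_le_iff₀ (Real.exp_pos (9 / 10 * |y|))).2 h2
  linarith
theorem integral_env_le : ∫ y, Real.exp (|y| / 10) * (1 + y ^ 2) * Q y ≤ 20 := by
  have i1 := ((ExpD.exp_neg_abs (c := 6 / 10) (by norm_num)).const_mul (200 / 9)).integrable
  have i2 := ((ExpD.exp_neg_abs (c := 12 / 10) (by norm_num)).const_mul (200 / 9)).integrable
  have i3 := ((ExpD.exp_neg_abs (c := 9 / 10) (by norm_num)).const_mul (382 / 9)).integrable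
  have h : ∫ y, Real.exp (|y| / 10) * (1 + y ^ 2) * Q y ≤
      ∫ y : ℝ, (200 / 9 * Real.exp (-(6 / 10 * |y|)) + 200 / 9 * Real.exp (-(12 / 10 * |y|)) -
        382 / 9 * Real.exp (-(9 / 10 * |y|))) := by
    refine integral_mono expD_env.integrable ((i1.add i2).sub i3) fun y => ?_
    refine (env_le_T7b y).trans ?_
    have h0 := abs_nonneg y
    have h1 := sq_le_T7b (x := 3 / 10 * |y|) (by positivity)
    rw [mul_pow, sq_abs] at h1
    have h2 : Real.exp (-(6 / 10 * |y|)) =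
        Real.exp (3 / 10 * |y|) * Real.exp (-(9 / 10 * |y|)) := by
      rw [← Real.exp_add]
      congr 1
      ring
    have h3 : Real.exp (-(12 / 10 * |y|)) =
        Real.exp (-(3 / 10 * |y|)) * Real.exp (-(9 / 10 * |y|)) := by
      rw [← Real.exp_add]
      congr 1
      ring
    have h4 := mul_le_mul_of_nonneg_right h1 (Real.exp_pos (-(9 / 10 * |y|))).le
    rw [h2, h3]
    linarith
  have i12 : Integrable (fun y : ℝ => 200 / 9 * Real.exp (-(6 / 10 * |y|)) +
      200 / 9 * Real.exp (-(12 / 10 * |y|))) := i1.add i2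
  rw [integral_sub i12 i3, integral_add i1 i2, integral_const_mul, integral_const_mul,
    integral_const_mul, integral_exp_neg_abs (by norm_num), integral_exp_neg_abs (by norm_num),
    integral_exp_neg_abs (by norm_num)] at h
  refine h.trans (by norm_num)
theorem N0_nonneg (e : ℝ → ℝ) : 0 ≤ N0 e :=
  integral_nonneg fun y => mul_nonneg (Q_pos y).le (sq_nonneg _)
/-- Linear terms localised near the soliton are controlled by `N0`. -/
theorem sq_integral_le_N0 {e g : ℝ → ℝ} (he : MemLp e 2 volume) (hg : Continuous g) {C : ℝ}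
    (h : ∀ y, |g y| ≤ C * (Real.exp (|y| / 20) * (1 + |y|) * Q y)) :
    (∫ y, e y * g y) ^ 2 ≤ 40 * C ^ 2 * N0 e := by
  have k1 : ∀ y, g y ^ 2 / Q y ≤ 2 * C ^ 2 * (Real.exp (|y| / 10) * (1 + y ^ 2) * Q y) := by
    intro y
    have h1 : g y ^ 2 ≤ (C * (Real.exp (|y| / 20) * (1 + |y|) * Q y)) ^ 2 := by
      rw [← sq_abs (g y)]
      exact pow_le_pow_left₀ (abs_nonneg _) (h y) 2
    have h2 : Real.exp (|y| / 20) ^ 2 = Real.exp (|y| / 10) := by
      rw [sq, ← Real.exp_add]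
      congr 1
      ring
    have h3 : (1 + |y|) ^ 2 ≤ 2 * (1 + y ^ 2) := by
      nlinarith [sq_nonneg (1 - |y|), sq_abs y]
    rw [div_le_iff₀ (Q_pos y)]
    refine h1.trans ?_
    rw [mul_pow, mul_pow, mul_pow, h2]
    calc _ ≤ C ^ 2 * (Real.exp (|y| / 10) * (2 * (1 + y ^ 2)) * Q y ^ 2) := by gcongr
      _ = _ := by ring
  have e2 : ExpD fun y => g y ^ 2 / Q y :=
    expD_env.of_le ((hg.pow 2).div expD_Q.1 fun y => (Q_pos y).ne') (2 * C ^ 2) fun y => by
      rw [abs_of_nonneg (div_nonneg (sq_nonneg _) (Q_pos y).le), abs_of_pos (env_pos_T7b y)]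
      exact k1 y
  have e1 : ExpD g := expD_env.of_le hg (2 * |C|) fun y => by
    have h0 := abs_nonneg y
    have hQ := (Q_pos y).le
    have h3 : 1 + |y| ≤ 2 * (1 + y ^ 2) := by nlinarith [sq_nonneg (1 - |y|), sq_abs y]
    have h4 : Real.exp (|y| / 20) ≤ Real.exp (|y| / 10) := Real.exp_le_exp.2 (by linarith)
    rw [abs_of_pos (env_pos_T7b y)]
    calc |g y| ≤ _ := h y
      _ ≤ |C| * (Real.exp (|y| / 10) * (2 * (1 + y ^ 2)) * Q y) := by
        gcongr
        exact le_abs_self C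
      _ = _ := by ring
  have k2 : ∫ y, g y ^ 2 / Q y ≤ 40 * C ^ 2 := by
    refine (integral_mono e2.integrable (expD_env.const_mul _).integrable k1).trans ?_
    rw [integral_const_mul]
    nlinarith [integral_env_le, sq_nonneg C]
  refine (csd Q_pos (integrable_mul2 he e1.memLp)
    (integrable_bdd_mul (integrable_sq2 he) expD_Q.bdd) e2.integrable).trans ?_
  rw [mul_comm]
  exact mul_le_mul_of_nonneg_right k2 (N0_nonneg e)
theorem mu_sq_le {e : ℝ → ℝ} (he : MemLp e 2 volume) : mu e ^ 2 ≤ 4 * N0 e := by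
  have e0 : (fun y => Q y ^ 2 / Q y) = Q := by
    funext y
    rw [sq, mul_div_assoc, div_self (Q_pos y).ne', mul_one]
  have k2 : ∫ y, Q y ≤ 4 := by
    refine (integral_mono expD_Q.integrable
      ((ExpD.exp_neg_abs one_pos).const_mul 2).integrable fun y => ?_).trans ?_
    · simpa using Q_le_exp y
    · rw [integral_const_mul, integral_exp_neg_abs one_pos]
      norm_num
  have h := csd Q_pos (integrable_mul2 he expD_Q.memLp)
    (integrable_bdd_mul (integrable_sq2 he) expD_Q.bdd) (by rw [e0]; exact expD_Q.integrable)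
  rw [e0, mul_comm] at h
  exact h.trans (mul_le_mul_of_nonneg_right k2 (N0_nonneg e))

end Pool.Agent.MP_8339a4_an

end

section

/-! API: Poincaré inequalities for the steps. -/

open MeasureTheory Filter Topology Set

namespace Pool.Agent.MP_8339a4_an

variable {z zy e ey : ℝ → ℝ} {L p r K : ℝ}

theorem iw_T8b (hr : 0 < r) (hK : 0 < K) (A : ℝ) {f : ℝ → ℝ} (hf : Bdd f) :
    Integrable fun y => ph1 r A K y * f y := ((expD_ph1 hr hK A).mul_bdd hf).integrable

theorem expD_T8b (hL : 0 < L) (p : ℝ) : ExpD fun y => Real.exp (-(|y - p| / L)) :=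
  ((ExpD.exp_neg_abs (inv_pos.2 hL)).comp_affine one_ne_zero (-p)).congr fun y => by
    rw [one_mul, ← sub_eq_add_neg, inv_mul_eq_div]

theorem arg_T8b (hr : 0 < r) (hK : 0 < K) (A y : ℝ) :
    |(r * y - A) / K| = |y - A / r| / (K / r) := by
  rw [← abs_of_pos (div_pos hK hr), ← abs_div]
  congr 1
  field_simp

theorem qf_nonneg (hr : 0 < r) (hK : 0 < K) (A : ℝ) (ey : ℝ → ℝ) : 0 ≤ qf r A K ey :=
  integral_nonneg fun y => mul_nonneg (ph1_pos hr hK A y).le (sq_nonneg _)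
theorem qK_nonneg (r A K : ℝ) (ey : ℝ → ℝ) : 0 ≤ qK r A K ey :=
  integral_nonneg fun y => mul_nonneg (ph_pos r A K y).le (sq_nonneg _)
theorem q6_nonneg (r A K : ℝ) (e : ℝ → ℝ) : 0 ≤ q6 r A K e :=
  integral_nonneg fun y => mul_nonneg (ph_pos r A K y).le (by positivity)
theorem qf_le_qK (hr : 0 < r) (hK : 0 < K) (A : ℝ) (h : MemLp ey 2 volume) :
    qf r A K ey ≤ r / K * qK r A K ey := by
  rw [qK, ← integral_const_mul]
  refine integral_mono (integrable_bdd_mul (integrable_sq2 h) (expD_ph1 hr hK A).bdd)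
    ((integrable_bdd_mul (integrable_sq2 h) (bdd_ph r A K)).const_mul _) fun y => ?_
  dsimp only
  rw [← mul_assoc]
  exact mul_le_mul_of_nonneg_right (ph1_le hr hK A y) (sq_nonneg _)
theorem abs_qa_le (hr : 0 < r) (hK : 0 < K) (A : ℝ) (hc : Continuous e) {δ : ℝ}
    (h : ∀ y, |e y| ≤ δ) : |qa r A K e| ≤ δ := by
  have h1 : ∫ y, δ * ph1 r A K y = δ := by rw [integral_const_mul, integral_ph1 hr hK, mul_one]
  refine abs_integral_le_integral_abs.trans (le_of_le_of_eq (integral_mono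
    ((expD_ph1 hr hK A).bdd_mul ⟨hc, δ, h⟩).integrable.abs
    ((expD_ph1 hr hK A).integrable.const_mul δ) fun y => ?_) h1)
  dsimp only
  rw [abs_mul, abs_of_pos (ph1_pos hr hK A y)]
  exact mul_le_mul_of_nonneg_right (h y) (ph1_pos hr hK A y).le

theorem expand_T8b (hr : 0 < r) (hK : 0 < K) (A : ℝ) (h : IsH1 e ey) (c : ℝ) :
    ∫ y, ph1 r A K y * (e y - c) ^ 2 =
      (∫ y, ph1 r A K y * e y ^ 2) - 2 * c * qa r A K e + c ^ 2 := by
  have i1 := iw_T8b hr hK A (h.bdd.pow 2)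
  have i2 := (((expD_ph1 hr hK A).bdd_mul h.bdd).integrable).const_mul (2 * c)
  have i3 := (expD_ph1 hr hK A).integrable.const_mul (c ^ 2)
  have i4 : Integrable fun y => ph1 r A K y * e y ^ 2 - 2 * c * (e y * ph1 r A K y) := i1.sub i2
  have e1 : ∀ y, ph1 r A K y * (e y - c) ^ 2 =
      ph1 r A K y * e y ^ 2 - 2 * c * (e y * ph1 r A K y) + c ^ 2 * ph1 r A K y := fun y => by ring
  simp only [e1]
  rw [integral_add i4 i3, integral_sub i1 i2, integral_const_mul, integral_const_mul,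
    integral_ph1 hr hK, mul_one, qa]

theorem qa_sq_le (hr : 0 < r) (hK : 0 < K) (A : ℝ) (h : IsH1 e ey) :
    qa r A K e ^ 2 ≤ ∫ y, ph1 r A K y * e y ^ 2 := by
  have h1 := expand_T8b hr hK A h (qa r A K e)
  have h2 : 0 ≤ ∫ y, ph1 r A K y * (e y - qa r A K e) ^ 2 :=
    integral_nonneg fun y => mul_nonneg (ph1_pos hr hK A y).le (sq_nonneg _)
  linarith

/-- Logistic Poincaré inequality, point form. -/
theorem poin_point (hr : 0 < r) (hK : 0 < K) (A : ℝ) (h : IsH1 e ey) :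
    ∫ y, ph1 r A K y * (e y - e (A / r)) ^ 2 ≤ 16 * (K / r) ^ 2 * qf r A K ey := by
  have hL := div_pos hK hr
  have hL' := div_pos hr hK
  have hE := expD_T8b hL (A / r)
  have b1 := (h.bdd.sub (Bdd.const (e (A / r)))).pow 2
  have i2 := integrable_bdd_mul (integrable_sq2 h.2.1) hE.bdd
  have h1 := expHardy (p := A / r) hL h.isPrim (hE.mul_bdd (h.bdd.pow 2)).integrable i2
  have h2 : ∫ y, ph1 r A K y * (e y - e (A / r)) ^ 2 ≤
      r / K * ∫ y, Real.exp (-(|y - A / r| / (K / r))) * (e y - e (A / r)) ^ 2 := by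
    rw [← integral_const_mul]
    refine integral_mono (iw_T8b hr hK A b1) ((hE.mul_bdd b1).integrable.const_mul _) fun y => ?_
    dsimp only
    rw [← mul_assoc, ← arg_T8b hr hK]
    exact mul_le_mul_of_nonneg_right (mul_le_mul_of_nonneg_left (P1_le_exp _) hL'.le) (sq_nonneg _)
  have h3 : r / K * ∫ y, Real.exp (-(|y - A / r| / (K / r))) * ey y ^ 2 ≤ 4 * qf r A K ey := by
    rw [qf, ← integral_const_mul, ← integral_const_mul]
    refine integral_mono (i2.const_mul _)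
      ((integrable_bdd_mul (integrable_sq2 h.2.1) (expD_ph1 hr hK A).bdd).const_mul _) fun y => ?_
    dsimp only
    rw [← mul_assoc, ← mul_assoc, ← arg_T8b hr hK]
    refine mul_le_mul_of_nonneg_right ?_ (sq_nonneg _)
    have := mul_le_mul_of_nonneg_left (exp_le_P1 ((r * y - A) / K)) hL'.le
    unfold ph1
    linarith
  have h4 := mul_le_mul_of_nonneg_left h1 hL'.le
  have h5 := mul_le_mul_of_nonneg_left h3 (by positivity : 0 ≤ 4 * (K / r) ^ 2)
  linarith
/-- Logistic Poincaré inequality, mean form. -/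
theorem poin_mean (hr : 0 < r) (hK : 0 < K) (A : ℝ) (h : IsH1 e ey) :
    ∫ y, ph1 r A K y * (e y - qa r A K e) ^ 2 ≤ 16 * (K / r) ^ 2 * qf r A K ey := by
  have h1 := poin_point hr hK A h
  rw [expand_T8b hr hK A h] at h1 ⊢
  nlinarith [sq_nonneg (e (A / r) - qa r A K e)]
theorem poin_sq (hr : 0 < r) (hK : 0 < K) (A : ℝ) (h : IsH1 e ey) :
    ∫ y, ph1 r A K y * e y ^ 2 ≤ qa r A K e ^ 2 + 16 * (K / r) ^ 2 * qf r A K ey := by
  have h1 := poin_mean hr hK A h
  rw [expand_T8b hr hK A h] at h1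
  linarith
theorem poin_val (hr : 0 < r) (hK : 0 < K) (A : ℝ) (h : IsH1 e ey) :
    e (A / r) ^ 2 ≤ 2 * qa r A K e ^ 2 + 32 * (K / r) ^ 2 * qf r A K ey := by
  have h1 := poin_point hr hK A h
  have h2 := qa_sq_le hr hK A h
  rw [expand_T8b hr hK A h] at h1
  nlinarith [sq_nonneg (e (A / r) - 2 * qa r A K e)]

theorem gen_T8b (hr : 0 < r) (hK : 0 < K) (A : ℝ) (h : IsH1 e ey) {f : ℝ → ℝ} (hf : Bdd f)
    {c1 c2 : ℝ} (h2 : 0 ≤ c2) (hle : ∀ y, f y ≤ c1 + c2 * (e y - qa r A K e) ^ 2) :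
    ∫ y, ph1 r A K y * f y ≤ c1 + c2 * (16 * (K / r) ^ 2 * qf r A K ey) := by
  have i1 := (expD_ph1 hr hK A).integrable.const_mul c1
  have i2 := (iw_T8b hr hK A ((h.bdd.sub (Bdd.const (qa r A K e))).pow 2)).const_mul c2
  have h3 := integral_mono (iw_T8b hr hK A hf) (i1.add i2) fun y => by
    have := mul_le_mul_of_nonneg_left (hle y) (ph1_pos hr hK A y).le
    simp only [Pi.add_apply]
    linarith
  simp only [Pi.add_apply] at h3
  rw [integral_add i1 i2, integral_const_mul, integral_const_mul, integral_ph1 hr hK] at h3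
  have := mul_le_mul_of_nonneg_left (poin_mean hr hK A h) h2
  linarith

theorem dev_T8b (hr : 0 < r) (hK : 0 < K) (A : ℝ) (h : IsH1 e ey) {δ : ℝ}
    (hδ : ∀ y, |e y| ≤ δ) (y : ℝ) : (e y - qa r A K e) ^ 2 ≤ 4 * δ ^ 2 := by
  have h1 := abs_le.1 (abs_qa_le hr hK A h.continuous hδ)
  have h2 := abs_le.1 (hδ y)
  have := sq_le_sq' (a := e y - qa r A K e) (b := 2 * δ) (by linarith) (by linarith)
  linarith

theorem poin_pow4 (hr : 0 < r) (hK : 0 < K) (A : ℝ) (h : IsH1 e ey) {δ : ℝ}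
    (hδ : ∀ y, |e y| ≤ δ) : ∫ y, ph1 r A K y * e y ^ 4
      ≤ 8 * qa r A K e ^ 4 + 512 * δ ^ 2 * (K / r) ^ 2 * qf r A K ey := by
  refine (gen_T8b hr hK A h (h.bdd.pow 4) (c1 := 8 * qa r A K e ^ 4) (c2 := 32 * δ ^ 2)
    (by positivity) fun y => ?_).trans_eq (by ring)
  have h1 := Even.add_pow_le (a := qa r A K e) (b := e y - qa r A K e) (n := 4) (by decide)
  have h2 := mul_le_mul_of_nonneg_right (dev_T8b hr hK A h hδ y) (sq_nonneg (e y - qa r A K e))
  rw [add_sub_cancel] at h1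
  norm_num at h1
  linarith
theorem poin_pow6 (hr : 0 < r) (hK : 0 < K) (A : ℝ) (h : IsH1 e ey) {δ : ℝ}
    (hδ : ∀ y, |e y| ≤ δ) : ∫ y, ph1 r A K y * e y ^ 6
      ≤ 32 * qa r A K e ^ 6 + 8192 * δ ^ 4 * (K / r) ^ 2 * qf r A K ey := by
  refine (gen_T8b hr hK A h (h.bdd.pow 6) (c1 := 32 * qa r A K e ^ 6) (c2 := 512 * δ ^ 4)
    (by positivity) fun y => ?_).trans_eq (by ring)
  have h1 := Even.add_pow_le (a := qa r A K e) (b := e y - qa r A K e) (n := 6) (by decide)
  have h2 := mul_le_mul_of_nonneg_right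
    (pow_le_pow_left₀ (sq_nonneg _) (dev_T8b hr hK A h hδ y) 2) (sq_nonneg (e y - qa r A K e))
  rw [add_sub_cancel] at h1
  norm_num at h1
  linarith

theorem hardy_T8b (hr : 0 < r) (hK : 0 < K) (hL : 0 < L) (A : ℝ) (h : IsH1 e ey) :
    IntegrableOn (fun y => Real.exp (-((y - A / r) / L)) * (e y - e (A / r)) ^ 2) (Ioi (A / r)) ∧
    ∫ y in Ioi (A / r), Real.exp (-((y - A / r) / L)) * (e y - e (A / r)) ^ 2 ≤
      8 * L ^ 2 * qK r A K ey := by
  have hE := expD_T8b hL (A / r)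
  have key : ∀ f : ℝ → ℝ, Integrable (fun y => Real.exp (-(|y - A / r| / L)) * f y) →
      IntegrableOn (fun y => Real.exp (-((y - A / r) / L)) * f y) (Ioi (A / r)) := fun f hf =>
    hf.integrableOn.congr_fun (fun y hy => by
      dsimp only
      rw [abs_of_pos (sub_pos.2 hy)]) measurableSet_Ioi
  have i2 := key _ (integrable_bdd_mul (integrable_sq2 h.2.1) hE.bdd)
  have i3 := (integrable_bdd_mul (integrable_sq2 h.2.1) (bdd_ph r A K)).const_mul 2
  refine ⟨key _ (hE.mul_bdd ((h.bdd.sub (Bdd.const (e (A / r)))).pow 2)).integrable, ?_⟩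
  have h1 := expHardy_Ioi (p := A / r) hL h.isPrim
    (key _ (hE.mul_bdd (h.bdd.pow 2)).integrable) i2
  have h2 : ∫ y in Ioi (A / r), Real.exp (-((y - A / r) / L)) * ey y ^ 2 ≤ 2 * qK r A K ey := by
    rw [qK, ← integral_const_mul]
    refine (setIntegral_mono_on i2 i3.integrableOn measurableSet_Ioi fun y hy => ?_).trans
      (setIntegral_le_integral i3 (Eventually.of_forall fun y =>
        mul_nonneg zero_le_two (mul_nonneg (ph_pos r A K y).le (sq_nonneg _))))
    rw [← mul_assoc]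
    refine mul_le_mul_of_nonneg_right ?_ (sq_nonneg _)
    have t1 : A < y * r := (div_lt_iff₀ hr).1 hy
    have t2 : 1 / 2 ≤ ph r A K y := half_le_P0 (div_nonneg (by linarith) hK.le)
    have t3 : Real.exp (-((y - A / r) / L)) ≤ 1 :=
      Real.exp_le_one_iff.2 (neg_nonpos.2 (div_nonneg (sub_pos.2 hy).le hL.le))
    linarith
  have h3 := mul_le_mul_of_nonneg_left h2 (by positivity : 0 ≤ 4 * L ^ 2)
  linarith

theorem zpt_T8b (hr : 0 < r) (hK : 0 < K) (hL : 0 < L) (A : ℝ) (e : ℝ → ℝ) (c y : ℝ) :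
    ph r A K y * P1 ((r * y - A) / L) * e y ^ 2 ≤ K / r / 2 * (ph1 r A K y * e y ^ 2) +
      2 * c ^ 2 * (L / r) * ph1 r A L y + 2 * (Ioi (A / r)).indicator
        (fun y => Real.exp (-((y - A / r) / (L / r))) * (e y - c) ^ 2) y := by
  have p1 := ph_pos r A K y
  have p2 := ph_lt_one r A K y
  have p3 := P1_pos ((r * y - A) / L)
  have p4 := ph1_pos hr hK A y
  have p5 := sq_nonneg (e y)
  have e1 : 2 * c ^ 2 * (L / r) * ph1 r A L y = 2 * c ^ 2 * P1 ((r * y - A) / L) := by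
    unfold ph1; field_simp
  rw [e1]
  by_cases hy : y ∈ Ioi (A / r)
  · rw [indicator_of_mem hy]
    have t1 := P1_le_exp ((r * y - A) / L)
    rw [arg_T8b hr hL, abs_of_pos (sub_pos.2 hy)] at t1
    have t2 := mul_le_mul_of_nonneg_right t1 (sq_nonneg (e y - c))
    have t3 : 0 ≤ K / r / 2 * (ph1 r A K y * e y ^ 2) := by positivity
    have t4 : e y ^ 2 ≤ 2 * c ^ 2 + 2 * (e y - c) ^ 2 := by nlinarith [sq_nonneg (e y - 2 * c)]
    have t5 := mul_le_mul_of_nonneg_left t4 p3.le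
    have t6 := mul_le_mul_of_nonneg_right p2.le (mul_nonneg p3.le p5)
    linarith
  · rw [indicator_of_notMem hy]
    have t1 : y * r ≤ A := (le_div_iff₀ hr).1 (not_lt.1 hy)
    have t2 : ph r A K y ≤ 1 / 2 :=
      P0_le_half (div_nonpos_of_nonpos_of_nonneg (by linarith) hK.le)
    have t3 : K / r / 2 * (ph1 r A K y * e y ^ 2) =
        ph r A K y * ((1 - ph r A K y) / 2) * e y ^ 2 := by
      rw [ph1_eq]; field_simp
    have t4 : ph r A K y * P1 ((r * y - A) / L) * e y ^ 2 ≤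
        ph r A K y * ((1 - ph r A K y) / 2) * e y ^ 2 :=
      mul_le_mul_of_nonneg_right (mul_le_mul_of_nonneg_left
        (by linarith [P1_le_quarter ((r * y - A) / L)]) p1.le) p5
    have t5 : 0 ≤ 2 * c ^ 2 * P1 ((r * y - A) / L) := by positivity
    linarith

/-- Mass on the right of the step, in a window of size `L`. -/
theorem zlem {r0 r1 : ℝ} (h0 : 0 < r0) (hK : 0 < K) (hL : 0 < L) : ∃ C : ℝ, 0 ≤ C ∧
    ∀ (r A : ℝ) (e ey : ℝ → ℝ), r0 ≤ r → r ≤ r1 → IsH1 e ey →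
      ∫ y, ph r A K y * P1 ((r * y - A) / L) * e y ^ 2
        ≤ C * (qa r A K e ^ 2 + qK r A K ey) := by
  refine ⟨K / r0 / 2 + 4 * (L / r0) + (8 * (K / r0) ^ 2 + 64 * (L / r0 * (K / r0)) +
    16 * (L / r0) ^ 2), by positivity, fun r A e ey hr0 _ h => ?_⟩
  have hr : 0 < r := h0.trans_le hr0
  have hk := div_pos hK hr
  have hl := div_pos hL hr
  have k1 : K / r ≤ K / r0 := div_le_div_of_nonneg_left hK.le h0 hr0
  have l1 : L / r ≤ L / r0 := div_le_div_of_nonneg_left hL.le h0 hr0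
  obtain ⟨j3, h3⟩ := hardy_T8b hr hK hl A h
  have i1 := (iw_T8b hr hK A (h.bdd.pow 2)).const_mul (K / r / 2)
  have i2 := (expD_ph1 hr hL A).integrable.const_mul (2 * e (A / r) ^ 2 * (L / r))
  have i3 := (j3.integrable_indicator measurableSet_Ioi).const_mul 2
  have i4 : Integrable fun y => K / r / 2 * (ph1 r A K y * e y ^ 2) +
      2 * e (A / r) ^ 2 * (L / r) * ph1 r A L y := i1.add i2
  have h4 := integral_mono_of_nonneg (Eventually.of_forall fun y => mul_nonneg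
    (mul_nonneg (ph_pos r A K y).le (P1_pos ((r * y - A) / L)).le) (sq_nonneg (e y))) (i4.add i3)
    (Eventually.of_forall fun y => zpt_T8b hr hK hL A e (e (A / r)) y)
  simp only [Pi.add_apply] at h4
  rw [integral_add i4 i3, integral_add i1 i2, integral_const_mul, integral_const_mul,
    integral_const_mul, integral_ph1 hr hL, integral_indicator measurableSet_Ioi] at h4
  have q0 := qK_nonneg r A K ey
  have a0 := sq_nonneg (qa r A K e)
  have h5 : (K / r) ^ 2 * qf r A K ey ≤ K / r * qK r A K ey := by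
    refine (mul_le_mul_of_nonneg_left (qf_le_qK hr hK A h.2.1) (sq_nonneg _)).trans_eq ?_
    field_simp
  have h6 : ∫ y, ph1 r A K y * e y ^ 2 ≤ qa r A K e ^ 2 + 16 * (K / r * qK r A K ey) := by
    linarith [poin_sq hr hK A h]
  have h7 : e (A / r) ^ 2 ≤ 2 * qa r A K e ^ 2 + 32 * (K / r * qK r A K ey) := by
    linarith [poin_val hr hK A h]
  have h8 := mul_le_mul_of_nonneg_left h6 hk.le
  have h9 := mul_le_mul_of_nonneg_left h7 hl.le
  have g1 := mul_le_mul_of_nonneg_right k1 a0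
  have g2 := mul_le_mul_of_nonneg_right l1 a0
  have g3 := mul_le_mul_of_nonneg_right (pow_le_pow_left₀ hk.le k1 2) q0
  have g4 := mul_le_mul_of_nonneg_right (pow_le_pow_left₀ hl.le l1 2) q0
  have g5 := mul_le_mul_of_nonneg_right (mul_le_mul l1 k1 hk.le (hl.le.trans l1)) q0
  have g6 : 0 ≤ (K / r0 / 2 + 4 * (L / r0)) * qK r A K ey := by positivity
  have g7 : 0 ≤ (8 * (K / r0) ^ 2 + 64 * (L / r0 * (K / r0)) + 16 * (L / r0) ^ 2) *
    qa r A K e ^ 2 := by positivity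
  linarith

end Pool.Agent.MP_8339a4_an

end

section

/-! API: elementary facts on the data `Dat`. -/

open MeasureTheory Filter Topology Set

namespace Pool.Agent.MP_8339a4_an

namespace Dat

variable (X : Dat) {s B : ℝ}

theorem r0_pos : 0 < X.r0 := X.st.hr0
theorem r0_le_r1 : X.r0 ≤ X.r1 :=
  (X.st.rate _ (lt_add_one _)).1.trans (X.st.rate _ (lt_add_one _)).2
theorem r1_pos : 0 < X.r1 := X.r0_pos.trans_le X.r0_le_r1
theorem K_ge : 100 ≤ X.K := by linarith [X.pr.hK, X.r1_pos]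
theorem K_pos : 0 < X.K := by linarith [X.K_ge]
theorem r1_le : 100 * X.r1 ≤ X.K := by linarith [X.pr.hK]
theorem CA_ge : 13 * X.K ≤ X.CA := by nlinarith [X.pr.hCA, X.pr.hκ, X.K_pos]
theorem CA_pos : 0 < X.CA := by linarith [X.CA_ge, X.K_pos]
theorem κ_pos : 0 < X.κ := by linarith [X.pr.hκ]
theorem M_nonneg : 0 ≤ X.M :=
  (integral_nonneg fun _ => sq_nonneg _).trans (X.st.mass _ (lt_add_one _))
theorem B_ge (hB : 1000 * X.CA ≤ B) : 13000 * X.K ≤ B := by linarith [X.CA_ge]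
theorem one_lt (hs : X.s0 < s) : 1 < s := X.st.hs0.trans_lt hs
theorem r_ge (hs : X.s0 < s) : X.r0 ≤ X.r s := (X.st.rate s hs).1
theorem r_le (hs : X.s0 < s) : X.r s ≤ X.r1 := (X.st.rate s hs).2
theorem r_pos (hs : X.s0 < s) : 0 < X.r s := X.r0_pos.trans_le (X.r_ge hs)
theorem r_le_K (hs : X.s0 < s) : 100 * X.r s ≤ X.K := by linarith [X.r_le hs, X.r1_le]
theorem A_nonneg (hs : 1 ≤ s) : 0 ≤ X.A s := mul_nonneg X.CA_pos.le (Real.log_nonneg hs)
theorem h1 (hs : X.s0 < s) : IsH1 (X.e s) (X.ey s) := (X.st.flow s hs).h1t.2.1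
theorem h1U (hs : X.s0 < s) :
    IsH1 (fun y => Q y + X.e s y) (fun y => Q1 y + X.ey s y) :=
  ((X.st.flow s hs).h1t.add_const isH1_Q).2.1
theorem h1tU (hs : X.s0 < s) : H1T (𝓝 s) (fun z y => Q y + X.e z y) (fun z y => Q1 y + X.ey z y)
    (fun y => Q y + X.e s y) (fun y => Q1 y + X.ey s y) :=
  (X.st.flow s hs).h1t.add_const isH1_Q
theorem lam_pos (hs : X.s0 < s) : 0 < X.lam s := (X.st.flow s hs).pos
theorem hasDerivAt_lam (hs : X.s0 < s) : HasDerivAt X.lam (-(X.β s) * X.lam s) s := by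
  have := (X.st.flow s hs).dlam
  rwa [one_mul] at this
theorem hasDerivAt_r (hs : X.s0 < s) : HasDerivAt X.r (X.r s * (-(X.β s) + X.κ / s)) s := by
  have h0 : s ≠ 0 := by linarith [X.one_lt hs]
  have h := (X.hasDerivAt_lam hs).mul (Real.hasDerivAt_rpow_const (p := X.κ) (Or.inl h0))
  refine h.congr_deriv ?_
  rw [Real.rpow_sub_one h0, r, rr]
  ring
theorem hasDerivAt_A (hs : X.s0 < s) : HasDerivAt X.A (X.CA / s) s := by
  have h0 : s ≠ 0 := by linarith [X.one_lt hs]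
  rw [div_eq_mul_inv]
  exact (Real.hasDerivAt_log h0).const_mul X.CA
theorem lam_le (hs : X.s0 < s) : X.lam s ≤ X.r1 * s ^ (-(3 : ℝ) / 2) := by
  have h1 := X.one_lt hs
  have h0 : 0 < s := by linarith
  have h2 : X.lam s = X.r s * s ^ (-X.κ) := by
    rw [r, rr, mul_assoc, ← Real.rpow_add h0, add_neg_cancel, Real.rpow_zero, mul_one]
  rw [h2]
  exact mul_le_mul (X.r_le hs) (Real.rpow_le_rpow_of_exponent_le h1.le (by linarith [X.pr.hκ]))
    (Real.rpow_nonneg h0.le _) X.r1_pos.le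

end Dat



theorem one_le_Lm {s : ℝ} (hs : 1 ≤ s) : 1 ≤ Lm s := Real.one_le_rpow hs (by norm_num)

/-- The integrable envelope for all the tiny terms. -/
theorem integrable_envp {ey : ℝ → ℝ} (h : MemLp ey 2 volume) :
    Integrable (fun y => Real.exp (|y| / 10) * (1 + y ^ 2) * Q y * (1 + ey y ^ 2)) := by
  simp only [mul_add (_ * Q _), mul_one]
  exact expD_env.integrable.add (integrable_bdd_mul (integrable_sq2 h) expD_env.bdd)
theorem integral_envp_le {ey : ℝ → ℝ} (h : MemLp ey 2 volume) (h1 : ∫ y, ey y ^ 2 ≤ 1) :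
    ∫ y, Real.exp (|y| / 10) * (1 + y ^ 2) * Q y * (1 + ey y ^ 2) ≤ 30 := by
  have i2 := integrable_bdd_mul (integrable_sq2 h) expD_env.bdd
  have h2 : ∫ y, Real.exp (|y| / 10) * (1 + y ^ 2) * Q y * ey y ^ 2 ≤ ∫ y, 10 * ey y ^ 2 :=
    integral_mono i2 ((integrable_sq2 h).const_mul 10) fun y =>
      mul_le_mul_of_nonneg_right (env_le y) (sq_nonneg _)
  rw [integral_const_mul] at h2
  simp only [mul_add (_ * Q _), mul_one]
  rw [integral_add expD_env.integrable i2]
  linarith [integral_env_le]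
/-- A function dominated by `c` times the envelope has integral at most `30 c`. -/
theorem abs_integral_le_envp {ey g : ℝ → ℝ} {c : ℝ} (h : MemLp ey 2 volume)
    (h1 : ∫ y, ey y ^ 2 ≤ 1) (hc : 0 ≤ c)
    (hg : ∀ y, |g y| ≤ c * (Real.exp (|y| / 10) * (1 + y ^ 2) * Q y * (1 + ey y ^ 2))) :
    |∫ y, g y| ≤ 30 * c := by
  have h2 := norm_integral_le_of_norm_le (f := g) ((integrable_envp h).const_mul c)
    (Eventually.of_forall hg)
  rw [integral_const_mul] at h2
  exact h2.trans (by nlinarith [integral_envp_le h h1])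

end Pool.Agent.MP_8339a4_an

end

section

/-! API: pointwise facts on the weights. -/

open MeasureTheory Filter Topology Set

namespace Pool.Agent.MP_8339a4_an

/-- Standing assumptions on the parameters of the weights at a fixed time. -/
structure WP (r A K B : ℝ) : Prop where
  hr : 0 < r
  hK : 100 * r ≤ K
  hA : 0 ≤ A
  hB : 2 * K ≤ B

/-- Derivative of `pM`. -/
noncomputable def pM1 (r A K B y : ℝ) : ℝ :=
  WW1 r A B y * (1 - ph r A K y) - WW r A B y * ph1 r A K y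
/-- Second derivative of `om`. -/
noncomputable def om2 (r A K B y : ℝ) : ℝ :=
  WW2 r A B y * ph r A K y + 2 * (WW1 r A B y * ph1 r A K y) + WW r A B y * ph2 r A K y

variable {r A K B : ℝ}

theorem ratio_le_EBa (hr : 0 < r) (hK : 100 * r ≤ K) : r / K ≤ 1 / 100 := by
  have hK0 : 0 < K := by linarith
  rw [div_le_div_iff₀ hK0 (by norm_num)]
  linarith

theorem lin_le_EBa (hr : 0 < r) (hK : 100 * r ≤ K) (y : ℝ) : |r * y / K| ≤ |y| / 100 := by
  have hK0 : 0 < K := by linarith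
  have h1 := ratio_le_EBa hr hK
  have h2 : r * y / K = r / K * y := by ring
  have h3 : 0 < r / K := div_pos hr hK0
  rw [h2, abs_mul, abs_of_pos h3]
  have := mul_le_mul_of_nonneg_right h1 (abs_nonneg y)
  linarith

theorem ph1_le_one_sub_EBa (hr : 0 < r) (hK : 0 < K) (A y : ℝ) :
    ph1 r A K y ≤ r / K * (1 - ph r A K y) := by
  rw [ph1_eq]
  have h1 := ph_pos r A K y
  have h2 := ph_lt_one r A K y
  have h3 : 0 < r / K := div_pos hr hK
  apply mul_le_mul_of_nonneg_left _ h3.le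
  nlinarith

theorem ph_le_exp_EBa (r A K y : ℝ) :
    ph r A K y ≤ Real.exp (-(A / K)) * Real.exp (r * y / K) := by
  rw [← Real.exp_add]
  have h := P0_le_exp ((r * y - A) / K)
  have e : (r * y - A) / K = -(A / K) + r * y / K := by ring
  unfold ph
  rw [← e]
  exact h

theorem one_sub_chi_le_exp_EBa (r A K y : ℝ) :
    1 - ph r (-A) K y ≤ Real.exp (-(A / K)) * Real.exp (-(r * y / K)) := by
  rw [← Real.exp_add]
  have h := one_sub_P0_le_exp ((r * y - -A) / K)
  have e : -((r * y - -A) / K) = -(A / K) + -(r * y / K) := by ring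
  unfold ph
  rw [← e]
  exact h

theorem mul_exp_neg_le_EBa (x : ℝ) : x * Real.exp (-x) ≤ 1 := by
  have h := Real.add_one_le_exp x
  have h2 : Real.exp x * Real.exp (-x) = 1 := by rw [← Real.exp_add]; simp
  have h3 := Real.exp_pos (-x)
  nlinarith

theorem ph_le_tiny (hr : 0 < r) (hK : 100 * r ≤ K) (A y : ℝ) :
    ph r A K y ≤ Real.exp (-(A / K)) * Real.exp (|y| / 100) := by
  refine (ph_le_exp_EBa r A K y).trans ?_
  apply mul_le_mul_of_nonneg_left _ (Real.exp_pos _).le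
  exact Real.exp_le_exp.2 ((le_abs_self _).trans (lin_le_EBa hr hK y))
theorem ph1_le_tiny (hr : 0 < r) (hK : 100 * r ≤ K) (A y : ℝ) :
    ph1 r A K y ≤ Real.exp (-(A / K)) * Real.exp (|y| / 100) := by
  have hK0 : 0 < K := by linarith
  refine le_trans ?_ (ph_le_tiny hr hK A y)
  have h1 := ph1_le hr hK0 A y
  have h2 := ratio_le_EBa hr hK
  have h3 := ph_pos r A K y
  have := mul_le_mul_of_nonneg_right h2 h3.le
  linarith
theorem one_sub_chi_le_tiny (hr : 0 < r) (hK : 100 * r ≤ K) (A y : ℝ) :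
    1 - ph r (-A) K y ≤ Real.exp (-(A / K)) * Real.exp (|y| / 100) := by
  refine (one_sub_chi_le_exp_EBa r A K y).trans ?_
  apply mul_le_mul_of_nonneg_left _ (Real.exp_pos _).le
  exact Real.exp_le_exp.2 ((neg_le_abs _).trans (lin_le_EBa hr hK y))
theorem chi1_le_tiny (hr : 0 < r) (hK : 100 * r ≤ K) (A y : ℝ) :
    ph1 r (-A) K y ≤ Real.exp (-(A / K)) * Real.exp (|y| / 100) := by
  have hK0 : 0 < K := by linarith
  refine le_trans ?_ (one_sub_chi_le_tiny hr hK A y)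
  have h1 := ph1_le_one_sub_EBa hr hK0 (-A) y
  have h2 := ratio_le_EBa hr hK
  have h3 : 0 < 1 - ph r (-A) K y := sub_pos.2 (ph_lt_one r (-A) K y)
  have := mul_le_mul_of_nonneg_right h2 h3.le
  linarith
theorem neg_mul_ph1_le (hr : 0 < r) (hK : 0 < K) (A : ℝ) {y : ℝ} (hy : y ≤ 0) :
    -y * ph1 r A K y ≤ Real.exp (-(A / K)) := by
  have h1 := ph1_le hr hK A y
  have h2 := ph_le_exp_EBa r A K y
  have h3 : 0 < r / K := div_pos hr hK
  have h4 := mul_exp_neg_le_EBa (-(r * y / K))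
  rw [neg_neg] at h4
  have hy' : 0 ≤ -y := by linarith
  have h5 := Real.exp_pos (-(A / K))
  calc -y * ph1 r A K y ≤ -y * (r / K * (Real.exp (-(A / K)) * Real.exp (r * y / K))) :=
        mul_le_mul_of_nonneg_left (h1.trans (mul_le_mul_of_nonneg_left h2 h3.le)) hy'
    _ = Real.exp (-(A / K)) * (-(r * y / K) * Real.exp (r * y / K)) := by ring
    _ ≤ Real.exp (-(A / K)) * 1 := mul_le_mul_of_nonneg_left h4 h5.le
    _ = _ := mul_one _
theorem mul_chi1_le (hr : 0 < r) (hK : 0 < K) (A : ℝ) {y : ℝ} (hy : 0 ≤ y) :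
    y * ph1 r (-A) K y ≤ Real.exp (-(A / K)) := by
  have h1 := ph1_le_one_sub_EBa hr hK (-A) y
  have h2 := one_sub_chi_le_exp_EBa r A K y
  have h3 : 0 < r / K := div_pos hr hK
  have h4 := mul_exp_neg_le_EBa (r * y / K)
  have h5 := Real.exp_pos (-(A / K))
  calc y * ph1 r (-A) K y ≤ y * (r / K * (Real.exp (-(A / K)) * Real.exp (-(r * y / K)))) :=
        mul_le_mul_of_nonneg_left (h1.trans (mul_le_mul_of_nonneg_left h2 h3.le)) hy
    _ = Real.exp (-(A / K)) * (r * y / K * Real.exp (-(r * y / K))) := by ring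
    _ ≤ Real.exp (-(A / K)) * 1 := mul_le_mul_of_nonneg_left h4 h5.le
    _ = _ := mul_one _
theorem ph_le_half (hK : 0 < K) {y : ℝ} (hy : r * y ≤ A) : ph r A K y ≤ 1 / 2 :=
  P0_le_half (div_nonpos_of_nonpos_of_nonneg (by linarith) hK.le)
theorem half_le_ph (hK : 0 < K) {y : ℝ} (hy : A ≤ r * y) : 1 / 2 ≤ ph r A K y :=
  half_le_P0 (div_nonneg (by linarith) hK.le)

theorem WW_pos (r A B y : ℝ) : 0 < WW r A B y := mul_pos (Real.exp_pos _) (ph_pos r A B y)
theorem WW_le (r A B y : ℝ) : WW r A B y ≤ Real.exp (A / B) := by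
  have := mul_le_mul_of_nonneg_left (ph_lt_one r A B y).le (Real.exp_pos (A / B)).le
  unfold WW
  linarith
theorem WW_le_exp (r A B y : ℝ) : WW r A B y ≤ Real.exp (r * y / B) := by
  have h := mul_le_mul_of_nonneg_left (ph_le_exp_EBa r A B y) (Real.exp_pos (A / B)).le
  have e : Real.exp (A / B) * (Real.exp (-(A / B)) * Real.exp (r * y / B))
      = Real.exp (r * y / B) := by
    rw [← mul_assoc, ← Real.exp_add]
    simp
  unfold WW
  linarith
theorem WW_eq (r A K B y : ℝ) : WW r A B y = pM r A K B y + WW r A B y * ph r A K y := by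
  unfold pM
  ring
theorem pM_pos (r A K B y : ℝ) : 0 < pM r A K B y :=
  mul_pos (WW_pos r A B y) (sub_pos.2 (ph_lt_one r A K y))
theorem pM_le_WW (r A K B y : ℝ) : pM r A K B y ≤ WW r A B y := by
  have h := mul_pos (WW_pos r A B y) (ph_pos r A K y)
  have e := WW_eq r A K B y
  linarith
theorem bdd_WW (r A B : ℝ) : Bdd (WW r A B) := (bdd_ph r A B).const_mul (Real.exp (A / B))
theorem bdd_pM (r A K B : ℝ) : Bdd (pM r A K B) :=
  (bdd_WW r A B).mul ((Bdd.const 1).sub (bdd_ph r A K))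
theorem hasDerivAt_pM (r A K B y : ℝ) : HasDerivAt (pM r A K B) (pM1 r A K B y) y := by
  have h1 : HasDerivAt (WW r A B) (WW1 r A B y) y :=
    (hasDerivAt_ph r A B y).const_mul (Real.exp (A / B))
  have h2 := (hasDerivAt_ph r A K y).const_sub 1
  have h3 := h1.mul h2
  have e : pM1 r A K B y = WW1 r A B y * (1 - ph r A K y) + WW r A B y * -ph1 r A K y := by
    unfold pM1
    ring
  rw [e]
  exact h3
theorem continuous_pM1 (r A K B : ℝ) : Continuous (pM1 r A K B) := by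
  have c0 : ∀ L : ℝ, Continuous (ph r A L) := fun L =>
    continuous_iff_continuousAt.2 fun y => (hasDerivAt_ph r A L y).continuousAt
  have c1 : ∀ L : ℝ, Continuous (ph1 r A L) := fun L =>
    continuous_iff_continuousAt.2 fun y => (hasDerivAt_ph1 r A L y).continuousAt
  have w0 : Continuous (WW r A B) := continuous_const.mul (c0 B)
  have w1 : Continuous (WW1 r A B) := continuous_const.mul (c1 B)
  exact (w1.mul (continuous_const.sub (c0 K))).sub (w0.mul (c1 K))
theorem hasDerivAt_WW3 (r A B y : ℝ) : HasDerivAt (WW3 r A B) (WW4 r A B y) y :=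
  (hasDerivAt_ph3 r A B y).const_mul (Real.exp (A / B))
theorem qD_nonneg (r A K B : ℝ) (e ey : ℝ → ℝ) : 0 ≤ qD r A K B e ey :=
  integral_nonneg fun y => mul_nonneg (pM_pos r A K B y).le (by positivity)

theorem wt_WW (hr : 0 < r) (hB : 0 < B) (A : ℝ) :
    Wt (WW r A B) (WW1 r A B) (WW2 r A B) (WW3 r A B) :=
  (wt_ph hr hB A).const_mul (Real.exp (A / B))
theorem bdd_WW4 (hr : 0 < r) (hB : 0 < B) (A : ℝ) : Bdd (WW4 r A B) :=
  (expD_ph4 hr hB A).bdd.const_mul (Real.exp (A / B))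
theorem WW1_pos (hr : 0 < r) (hB : 0 < B) (A y : ℝ) : 0 < WW1 r A B y :=
  mul_pos (Real.exp_pos _) (ph1_pos hr hB A y)
theorem WW1_le (hr : 0 < r) (hB : 0 < B) (A y : ℝ) : WW1 r A B y ≤ r / B * WW r A B y := by
  have h := mul_le_mul_of_nonneg_left (ph1_le hr hB A y) (Real.exp_pos (A / B)).le
  unfold WW1 WW
  linarith
theorem abs_WW2_le (hr : 0 < r) (hB : 0 < B) (A y : ℝ) :
    |WW2 r A B y| ≤ r / B * WW1 r A B y := by
  have h := mul_le_mul_of_nonneg_left (abs_ph2_le hr hB A y) (Real.exp_pos (A / B)).le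
  unfold WW2 WW1
  rw [abs_mul, abs_of_pos (Real.exp_pos _)]
  linarith
theorem abs_WW3_le (hr : 0 < r) (hB : 0 < B) (A y : ℝ) :
    |WW3 r A B y| ≤ (r / B) ^ 2 * WW1 r A B y := by
  have h := mul_le_mul_of_nonneg_left (abs_ph3_le hr hB A y) (Real.exp_pos (A / B)).le
  unfold WW3 WW1
  rw [abs_mul, abs_of_pos (Real.exp_pos _)]
  linarith
theorem wt_om (hr : 0 < r) (hK : 0 < K) (hB : 0 < B) (A : ℝ) :
    Wt (om r A K B) (om1 r A K B) (om2 r A K B) (om3 r A K B) :=
  ((wt_WW hr hB A).mul (wt_ph hr hK A)).congr (fun _ => rfl) (fun _ => rfl) (fun _ => rfl)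
    (fun _ => rfl)

end Pool.Agent.MP_8339a4_an

end
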