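import Pool.Agent.Mg.F8339a4.Ge5fdb7
import Pool.Agent.Mg.F8339a4.G1d67fe
import Pool.Agent.Mg.F8339a4.Gdfdc48

section



end

section

/-! The sharp Gagliardo-Nirenberg inequality on an interval. -/

open MeasureTheory Filter Topology Set

namespace Pool.Agent.MP_8339a4_an

theorem one_NagyI : ∫ x in (0 : ℝ)..1, √(1 - x ^ 2) = Real.pi / 4 := by
  have hc : Continuous fun x : ℝ => √(1 - x ^ 2) := by fun_prop
  have h1 := intervalIntegral.integral_add_adjacent_intervals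
    (hc.intervalIntegrable (μ := volume) (-1) 0) (hc.intervalIntegrable 0 1)
  have h2 := intervalIntegral.integral_comp_neg (a := 0) (b := 1) fun x : ℝ => √(1 - x ^ 2)
  simp only [neg_zero, neg_sq] at h2
  rw [integral_sqrt_one_sub_sq, ← h2] at h1
  linarith

theorem top_NagyI {N : ℝ} (hN : 0 ≤ N) :
    ∫ x in (0 : ℝ)..N, √(N ^ 2 - x ^ 2) = Real.pi / 4 * N ^ 2 := by
  have h := intervalIntegral.mul_integral_comp_mul_left (a := 0) (b := 1) (c := N)
    (f := fun x : ℝ => √(N ^ 2 - x ^ 2))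
  have e : ∀ x : ℝ, √(N ^ 2 - (N * x) ^ 2) = N * √(1 - x ^ 2) := fun x => by
    rw [show N ^ 2 - (N * x) ^ 2 = N ^ 2 * (1 - x ^ 2) by ring, Real.sqrt_mul (sq_nonneg _),
      Real.sqrt_sq hN]
  simp only [e, mul_zero, mul_one, intervalIntegral.integral_const_mul, one_NagyI] at h
  rw [← h]
  ring

theorem le_NagyI {N p : ℝ} (hN : 0 ≤ N) (hp : 0 ≤ p) :
    ∫ x in (0 : ℝ)..p, √(N ^ 2 - x ^ 2) ≤ N * p := by
  have hc : Continuous fun x : ℝ => √(N ^ 2 - x ^ 2) := by fun_prop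
  have := intervalIntegral.integral_mono_on hp (hc.intervalIntegrable (μ := volume) 0 p)
    (intervalIntegrable_const (c := N)) fun x _ =>
      Real.sqrt_le_iff.2 ⟨hN, sub_le_self _ (sq_nonneg x)⟩
  simpa [mul_comm] using this

theorem nagyI : NagyIStmt := by
  intro q m0 hq hm
  have hs : 0 < √q := Real.sqrt_pos.2 hq
  have hθ : 0 < Real.pi / 2 - √q * m0 := sub_pos.2 hm
  refine ⟨√q / (2 * (Real.pi / 2 - √q * m0)), by positivity, fun a b w wy hab hw i2 hm0 => ?_⟩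
  have hc := hw.continuous
  obtain ⟨x, hx, hmax⟩ := isCompact_Icc.exists_isMaxOn (nonempty_Icc.2 hab)
    (hc.pow 2).continuousOn
  obtain ⟨N, hN⟩ : ∃ N, N = w x ^ 2 := ⟨_, rfl⟩
  have hN0 : 0 ≤ N := hN ▸ sq_nonneg _
  have hR : Continuous fun r : ℝ => √(N ^ 2 - r ^ 2) := by fun_prop
  have hP := (hw.pow 1).comp (fun r => (hR.integral_hasStrictDerivAt 0 r).hasDerivAt) hR
  simp only [Nat.cast_one, pow_one, one_add_one_eq_two] at hP
  have i6 : ∀ u v, IntervalIntegrable (fun y => q * w y ^ 6) volume u v := fun u v =>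
    Continuous.intervalIntegrable (by fun_prop) u v
  have i0 : ∀ u v, IntervalIntegrable (fun y => q * N ^ 2 * w y ^ 2) volume u v := fun u v =>
    Continuous.intervalIntegrable (by fun_prop) u v
  have ih : IntervalIntegrable (fun y => wy y ^ 2 - q * w y ^ 6 + q * N ^ 2 * w y ^ 2)
      volume a b := (i2.sub (i6 a b)).add (i0 a b)
  have iax := ih.mono_set (c := a) (d := x) (by
    rw [uIcc_of_le hab, uIcc_of_le hx.1]; exact Icc_subset_Icc_right hx.2)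
  have ixb := ih.mono_set (c := x) (d := b) (by
    rw [uIcc_of_le hab, uIcc_of_le hx.2]; exact Icc_subset_Icc_left hx.1)
  have pt : ∀ ε : ℝ, ε ^ 2 = 1 → ∀ y ∈ Icc a b,
      ε * √q * (√(N ^ 2 - (w y ^ 2) ^ 2) * (2 * w y * wy y)) ≤
        wy y ^ 2 - q * w y ^ 6 + q * N ^ 2 * w y ^ 2 := by
    intro ε hε y hy
    have h1 : w y ^ 2 ≤ N := hN ▸ hmax hy
    have h2 : √(N ^ 2 - (w y ^ 2) ^ 2) ^ 2 = N ^ 2 - (w y ^ 2) ^ 2 :=
      Real.sq_sqrt (sub_nonneg.2 (pow_le_pow_left₀ (sq_nonneg _) h1 2))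
    have h3 : √q ^ 2 = q := Real.sq_sqrt hq.le
    have h4 := sq_nonneg (wy y - ε * √q * w y * √(N ^ 2 - (w y ^ 2) ^ 2))
    have h5 : (ε * √q * w y * √(N ^ 2 - (w y ^ 2) ^ 2)) ^ 2 =
        q * w y ^ 2 * (N ^ 2 - (w y ^ 2) ^ 2) := by
      rw [mul_pow, mul_pow, mul_pow, hε, h2, h3, one_mul]
    rw [sub_sq, h5] at h4
    linarith
  have e1 := intervalIntegral.integral_mono_on hx.1 ((hP.1 a x).const_mul (1 * √q)) iax
    fun y hy => pt 1 (by norm_num) y ⟨hy.1, hy.2.trans hx.2⟩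
  have e2 := intervalIntegral.integral_mono_on hx.2 ((hP.1 x b).const_mul (-1 * √q)) ixb
    fun y hy => pt (-1) (by norm_num) y ⟨hx.1.trans hy.1, hy.2⟩
  rw [intervalIntegral.integral_const_mul, ← hP.2] at e1 e2
  simp only [← hN, top_NagyI hN0] at e1 e2
  have e3 := intervalIntegral.integral_add_adjacent_intervals iax ixb
  rw [intervalIntegral.integral_add (i2.sub (i6 a b)) (i0 a b),
    intervalIntegral.integral_const_mul] at e3
  have e4 := mul_le_mul_of_nonneg_left (le_NagyI hN0 (sq_nonneg (w a))) hs.le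
  have e5 := mul_le_mul_of_nonneg_left (le_NagyI hN0 (sq_nonneg (w b))) hs.le
  have e6 := mul_le_mul_of_nonneg_left hm0 (by positivity : 0 ≤ q * N ^ 2)
  have h3 : √q * √q = q := Real.mul_self_sqrt hq.le
  obtain ⟨θ, hθ'⟩ : ∃ θ, θ = Real.pi / 2 - √q * m0 := ⟨_, rfl⟩
  rw [← hθ'] at hθ ⊢
  have e7 : -((w a ^ 4 + w b ^ 4) / (2 * θ)) ≤ θ * N ^ 2 - N * (w a ^ 2 + w b ^ 2) := by
    rw [neg_le, le_div_iff₀ (by positivity)]
    nlinarith [sq_nonneg (θ * N - w a ^ 2), sq_nonneg (θ * N - w b ^ 2)]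
  have e8 := mul_le_mul_of_nonneg_left e7 hs.le
  have e9 : √q * (θ * N ^ 2) = √q * (Real.pi / 2) * N ^ 2 - q * N ^ 2 * m0 := by
    rw [hθ']
    linear_combination (-m0 * N ^ 2) * h3
  have e10 : √q / (2 * θ) * (w a ^ 4 + w b ^ 4) = √q * ((w a ^ 4 + w b ^ 4) / (2 * θ)) := by
    ring
  linarith

end Pool.Agent.MP_8339a4_an

end

section

/-! Conservation of mass and monotonicity of energy. -/

open MeasureTheory Filter Topology Set

namespace Pool.Agent.MP_8339a4_an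

theorem cons (h1 : P1Stmt) (h2 : P2Stmt) : ConsStmt := by
  intro I u ux hu a b hab hI
  have k1 := h1 I u ux hu a b hab hI _ _ _ _ (Wt.const 1)
  have k2 := h2 I u ux hu a b hab hI _ _ _ _ (Wt.const 1) (fun _ => le_rfl) _ _ IsH1.zero
  simp only [fl1, fl2, mul_one, mul_zero, add_zero, zero_mul, sub_zero, zero_div, integral_zero,
    intervalIntegral.integral_zero] at k1 k2
  exact ⟨by linarith, by linarith⟩

end Pool.Agent.MP_8339a4_an

end

section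

/-! The reflection `(t, x) ↦ (-t, -x)`. -/

open MeasureTheory Filter Topology Set

namespace Pool.Agent.MP_8339a4_an

theorem amgm_Refl {f g : ℝ → ℝ} (hf : MemLp f 2 volume) (hg : MemLp g 2 volume) (S : Set ℝ)
    {c : ℝ} (hc : 0 < c) :
    ∫ y in S, -2 * (f y * g y) ≤ c * (∫ y in S, f y ^ 2) + c⁻¹ * ∫ y in S, g y ^ 2 := by
  have i1 := ((integrable_sq2 hf).const_mul c).integrableOn (s := S)
  have i2 := ((integrable_sq2 hg).const_mul c⁻¹).integrableOn (s := S)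
  rw [← integral_const_mul, ← integral_const_mul, ← integral_add i1 i2]
  refine integral_mono ((integrable_mul2 hf hg).const_mul (-2)).integrableOn (i1.add i2)
    fun y => ?_
  have h : c * f y ^ 2 + c⁻¹ * g y ^ 2 + 2 * (f y * g y) = c⁻¹ * (c * f y + g y) ^ 2 := by
    field_simp
    ring
  have h2 : 0 ≤ c⁻¹ * (c * f y + g y) ^ 2 := by positivity
  show -2 * (f y * g y) ≤ c * f y ^ 2 + c⁻¹ * g y ^ 2
  linarith

theorem mass_Refl {U : ℝ → ℝ} (hU : MemLp U 2 volume) {δ R : ℝ} (hδ : 0 < δ) (hR : 0 < R)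
    (h1 : ∫ y in (-R)..R, (U y - Q y) ^ 2 ≤ δ ^ 2 / 2)
    (h2 : (∫ y, Q y ^ 2) - ∫ y in (-R)..R, Q y ^ 2 ≤ δ ^ 2 / 2) :
    (1 - δ) * ∫ y, (U y - Q y) ^ 2 ≤
      (∫ y, U y ^ 2) - (∫ y, Q y ^ 2) + δ * (∫ y, Q y ^ 2) + δ := by
  have hQ := expD_Q.memLp
  have he : MemLp (fun y => U y - Q y) 2 volume := hU.sub hQ
  have ie := integrable_sq2 he
  have iQ := integrable_sq2 hQ
  have im := (integrable_mul2 he hQ).const_mul (-2)
  rw [intervalIntegral.integral_of_le (by linarith)] at h1 h2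
  have e0 : ∫ y, (U y - Q y) ^ 2 =
      (∫ y, U y ^ 2) - (∫ y, Q y ^ 2) + ∫ y, -2 * ((U y - Q y) * Q y) := by
    have iS : Integrable (fun y => U y ^ 2 - Q y ^ 2) := (integrable_sq2 hU).sub iQ
    rw [← integral_sub (integrable_sq2 hU) iQ, ← integral_add iS im]
    refine integral_congr_ae (Eventually.of_forall fun y => ?_)
    simp only
    ring
  have s1 := integral_add_compl (s := Ioc (-R) R) measurableSet_Ioc ie
  have s2 := integral_add_compl (s := Ioc (-R) R) measurableSet_Ioc iQ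
  have s3 := integral_add_compl (s := Ioc (-R) R) measurableSet_Ioc im
  have a1 := amgm_Refl he hQ (Ioc (-R) R) (inv_pos.2 hδ)
  have a2 := amgm_Refl he hQ (Ioc (-R) R)ᶜ hδ
  rw [inv_inv] at a1
  have n1 : 0 ≤ ∫ y in Ioc (-R) R, (U y - Q y) ^ 2 := integral_nonneg fun y => sq_nonneg _
  have n2 : 0 ≤ ∫ y in (Ioc (-R) R)ᶜ, Q y ^ 2 := integral_nonneg fun y => sq_nonneg _
  have e1 : δ⁻¹ * (δ ^ 2 / 2) = δ / 2 := by field_simp
  have b1 := mul_le_mul_of_nonneg_left h1 (inv_pos.2 hδ).le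
  have b2 := mul_le_mul_of_nonneg_left
    (show ∫ y in (Ioc (-R) R)ᶜ, Q y ^ 2 ≤ δ ^ 2 / 2 by linarith) (inv_pos.2 hδ).le
  have b3 := mul_le_mul_of_nonneg_left
    (show ∫ y in Ioc (-R) R, Q y ^ 2 ≤ ∫ y, Q y ^ 2 by linarith) hδ.le
  have b4 := mul_le_mul_of_nonneg_left
    (show ∫ y in (Ioc (-R) R)ᶜ, (U y - Q y) ^ 2 ≤ ∫ y, (U y - Q y) ^ 2 by linarith) hδ.le
  linarith

theorem scale_Refl {v : ℝ → ℝ} (hv : MemLp v 2 volume) {l : ℝ} (hl : 0 < l) (s x : ℝ) :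
    (∫ y, (Real.sqrt l * v (l * y + s)) ^ 2) = (∫ z, v z ^ 2) ∧
      ∫ z in x..(x + 1), (v z - Q ((z - s) / l) / Real.sqrt l) ^ 2 ≤
        ∫ y, (Real.sqrt l * v (l * y + s) - Q y) ^ 2 := by
  have hs : Real.sqrt l ^ 2 = l := Real.sq_sqrt hl.le
  have hs0 : Real.sqrt l ≠ 0 := (Real.sqrt_pos.2 hl).ne'
  constructor
  · simp only [mul_pow, hs]
    rw [integral_const_mul, integral_comp_affine (fun z => v z ^ 2) hl s]
    field_simp
  · have hq : MemLp (fun z => Q ((z - s) / l) / Real.sqrt l) 2 volume :=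
      (((expD_Q.comp_affine (inv_ne_zero hl.ne') (-s / l)).div_const (Real.sqrt l)).congr
        fun z => by congr 2; ring).memLp
    have hi := integrable_sq2 (f := fun z => v z - Q ((z - s) / l) / Real.sqrt l) (hv.sub hq)
    rw [intervalIntegral.integral_of_le (by linarith)]
    refine (setIntegral_le_integral hi (Eventually.of_forall fun z => sq_nonneg _)).trans
      (le_of_eq ?_)
    have h1 := integral_comp_affine
      (fun z => (v z - Q ((z - s) / l) / Real.sqrt l) ^ 2) hl s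
    rw [eq_div_iff hl.ne', mul_comm, ← integral_const_mul] at h1
    rw [← h1]
    refine integral_congr_ae (Eventually.of_forall fun y => ?_)
    have : (l * y + s - s) / l = y := by field_simp; ring
    simp only [this]
    nth_rewrite 1 [← hs]
    field_simp

theorem single_Refl (hc : ConsStmt) {t0 : ℝ} {u ux : ℝ → ℝ → ℝ} {lam sig : ℝ → ℝ} {x0 : ℝ}
    (h0 : 0 < t0) (hs : IsSol (Ioc 0 t0) u ux) (hb : Bubble t0 u lam sig x0)
    (hm : (∫ x, u t0 x ^ 2) < 2 * ∫ y, Q y ^ 2) : Single u lam sig := by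
  obtain ⟨m, hm'⟩ : ∃ m, m = ∫ x, u t0 x ^ 2 := ⟨_, rfl⟩
  obtain ⟨q, hq⟩ : ∃ q, q = ∫ y, Q y ^ 2 := ⟨_, rfl⟩
  have m0 : 0 ≤ m := hm' ▸ integral_nonneg fun y => sq_nonneg _
  rw [← hm', ← hq] at hm
  have q0 : 0 < 2 * q + 1 := by linarith
  obtain ⟨δ, hδ⟩ : ∃ δ, δ = (2 * q - m) / (2 * (2 * q + 1)) := ⟨_, rfl⟩
  have d0 : 0 < δ := hδ ▸ div_pos (by linarith) (by linarith)
  have d1 : δ * (2 * q + 1) = (2 * q - m) / 2 := by rw [hδ]; field_simp
  have d2 : 0 < 1 - δ := by nlinarith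
  have hT : Tendsto (fun R : ℝ => ∫ y in (-R)..R, Q y ^ 2) atTop (𝓝 (∫ y, Q y ^ 2)) :=
    intervalIntegral_tendsto_integral (integrable_sq2 expD_Q.memLp) tendsto_neg_atTop_atBot
      tendsto_id
  obtain ⟨R, hR1, hR⟩ := ((hT.eventually (lt_mem_nhds
    (show (∫ y, Q y ^ 2) - δ ^ 2 / 2 < ∫ y, Q y ^ 2 by
      have : 0 < δ ^ 2 / 2 := by positivity
      linarith))).and (eventually_gt_atTop 0)).exists
  refine ⟨1, (m - q + δ * q + δ) / (1 - δ), one_pos, ?_, ?_⟩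
  · rw [← hq, div_lt_iff₀ d2]
    nlinarith
  · filter_upwards [(hb.conv R hR).eventually
      (gt_mem_nhds (show (0 : ℝ) < δ ^ 2 / 2 by positivity)), Ioc_mem_nhdsGT h0] with t h1 ht x
    have hv := (hs.h1 t ht).1
    obtain ⟨k1, k2⟩ := scale_Refl hv (hb.pos t ht) (sig t) x
    have k3 := mass_Refl ((memLp_comp_affine hv (hb.pos t ht).ne' (sig t)).const_mul
      (Real.sqrt (lam t))) d0 hR h1.le (by linarith)
    have k4 := (hc _ u ux hs t t0 ht.2 fun z hz => ⟨ht.1.trans_le hz.1, hz.2⟩).1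
    rw [k1, ← k4, ← hm', ← hq] at k3
    refine k2.trans ?_
    rw [le_div_iff₀ d2, mul_comm]
    exact k3

theorem mem_Refl {t0 t : ℝ} (ht : t ∈ Ico (-t0) 0) : -t ∈ Ioc 0 t0 :=
  ⟨neg_pos.2 ht.2, neg_le.1 ht.1⟩

theorem sol_Refl {t0 : ℝ} {u ux : ℝ → ℝ → ℝ} (hs : IsSol (Ioc 0 t0) u ux) :
    IsSol (Ico (-t0) 0) (fun t x => u (-t) (-x)) (fun t x => -ux (-t) (-x)) := by
  refine ⟨fun t ht => ?_, fun t ht => ?_, fun φ h1 h2 a ha b hb => ?_⟩
  · exact ((hs.h1 _ (mem_Refl ht)).comp_affine (a := -1) (by norm_num) 0).congr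
      (fun y => by simp) fun y => by simp
  · have h1 : Tendsto (fun s : ℝ => -s) (𝓝[Ico (-t0) 0] t) (𝓝[Ioc 0 t0] (-t)) :=
      continuous_neg.continuousWithinAt.tendsto_nhdsWithin fun s h => mem_Refl h
    refine ((hs.cont _ (mem_Refl ht)).comp h1).congr fun s => ?_
    rw [Function.comp_apply, ← integral_neg_eq_self]
    refine integral_congr_ae (Eventually.of_forall fun y => ?_)
    ring
  · have hw := hs.weak (fun x => φ (-x)) (h1.comp contDiff_neg)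
      (h2.comp_homeomorph (Homeomorph.neg ℝ)) _ (mem_Refl ha) _ (mem_Refl hb)
    have e1 : ∀ s, (∫ x, u s (-x) * φ x) = ∫ x, u s x * φ (-x) := fun s => by
      rw [← integral_neg_eq_self]
      simp only [neg_neg]
    have e2 : ∀ s, (∫ x, (u s (-x) * iteratedDeriv 3 φ x + u s (-x) ^ 5 * deriv φ x)) =
        -∫ x, (u s x * iteratedDeriv 3 (fun x => φ (-x)) x +
          u s x ^ 5 * deriv (fun x => φ (-x)) x) := fun s => by
      rw [← integral_neg_eq_self, ← integral_neg]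
      refine integral_congr_ae (Eventually.of_forall fun y => ?_)
      simp only [neg_neg, iteratedDeriv_comp_neg, deriv_comp_neg, smul_eq_mul]
      ring
    rw [e1, e1, hw, intervalIntegral.integral_comp_neg fun s =>
      ∫ x, (u s (-x) * iteratedDeriv 3 φ x + u s (-x) ^ 5 * deriv φ x)]
    simp only [e2]
    rw [intervalIntegral.integral_neg, ← intervalIntegral.integral_symm]

theorem refl (hc : ConsStmt) : ReflStmt := by
  intro t0 ν u ux lam sig x0 h0 hs hr hb hm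
  have hS : Single u lam sig := hm.elim (single_Refl hc h0 hs hb) id
  have hn : Tendsto (fun s : ℝ => -s) (𝓝[<] 0) (𝓝[>] 0) := by
    simpa using tendsto_neg_nhdsLT (a := (0 : ℝ))
  have hmap : MapsTo (fun s : ℝ => -s) (Ico (-t0) 0) (Ioc 0 t0) := fun s h => mem_Refl h
  refine ⟨neg_lt_zero.2 h0, sol_Refl hs, ?_, hb.clam.comp continuous_neg.continuousOn hmap,
    (hb.csig.comp continuous_neg.continuousOn hmap).neg, fun t ht => hb.pos _ (mem_Refl ht),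
    hb.lam0.comp hn, (hb.sig0.comp hn).neg, fun R hR => ?_, ?_⟩
  · obtain ⟨c, C, hc0, -, h⟩ := hr
    refine ⟨c, C, hc0, fun t ht => ?_⟩
    have e : (∫ x, (-ux (-t) (-x)) ^ 2) = ∫ x, ux (-t) x ^ 2 := by
      rw [← integral_neg_eq_self]
      simp only [neg_neg, neg_sq]
    rw [e]
    exact h _ (mem_Refl ht)
  · refine ((hb.conv R hR).comp hn).congr fun t => ?_
    have e := intervalIntegral.integral_comp_neg (a := -R) (b := R) fun y =>
      (Real.sqrt (lam (-t)) * u (-t) (lam (-t) * y + sig (-t)) - Q y) ^ 2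
    rw [neg_neg] at e
    rw [Function.comp_apply, ← e]
    refine intervalIntegral.integral_congr fun y _ => ?_
    simp only [Q_neg]
    congr 4
    ring
  · obtain ⟨η, d, hη, hd, h⟩ := hS
    refine ⟨η, d, hη, hd, (hn.eventually h).mono fun t ht x => ?_⟩
    have e := intervalIntegral.integral_comp_neg (a := x) (b := x + η) fun z =>
      (u (-t) z - Q ((z - sig (-t)) / lam (-t)) / Real.sqrt (lam (-t))) ^ 2
    have h1 := ht (-(x + η))
    rw [show -(x + η) + η = -x by ring, ← e] at h1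
    refine le_of_eq_of_le (intervalIntegral.integral_congr fun z _ => ?_) h1
    rw [← Q_neg]
    congr 4
    ring

end Pool.Agent.MP_8339a4_an

end

section

/-! Continuous modulation parameters are differentiable. -/

open MeasureTheory Filter Topology Set

namespace Pool.Agent.MP_8339a4_an

/-- The pairing of `v` with the profile `g` at inverse scale `a` and shift `b`. -/
noncomputable def G_ModB (g v : ℝ → ℝ) (a b : ℝ) : ℝ := Real.sqrt a * ∫ x, v x * g (a * x + b)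

/-- The derivative of the pairing with respect to `a`. -/
noncomputable def A_ModB (θ θ1 v : ℝ → ℝ) (a b : ℝ) : ℝ :=
  (G_ModB θ v a b / 2 + G_ModB (fun y => y * θ1 y) v a b - b * G_ModB θ1 v a b) / a

variable {θ θ1 θ2 θ3 v g : ℝ → ℝ} {u ux : ℝ → ℝ → ℝ} {t T : ℝ}

theorem deriv_ModB (h : Test θ θ1 θ2 θ3) (hv : MemLp v 2 volume) {a b : ℝ → ℝ} {a' b' s : ℝ}
    (ha : HasDerivAt a a' s) (hb : HasDerivAt b b' s) (h0 : 0 < a s) :
    HasDerivAt (fun z => G_ModB θ v (a z) (b z))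
      (a' * A_ModB θ θ1 v (a s) (b s) + b' * G_ModB θ1 v (a s) (b s)) s := by
  have h1 := mov_l2 (ρ := fun _ => v) (L2T.const hv) (me_profile h.sm.d1 h.e1 ha hb h0.ne')
    (h.e0.comp_affine h0.ne' _).memLp (hasDerivAt_const s _)
  have i1 := integrable_mul2 hv (h.e1.id_mul.comp_affine h0.ne' (b s)).memLp
  have i2 := integrable_mul2 hv (h.e1.comp_affine h0.ne' (b s)).memLp
  have h2 : ∫ y, v y * (θ1 (a s * y + b s) * (a' * y + b')) =
      a' / a s * (∫ y, v y * ((a s * y + b s) * θ1 (a s * y + b s))) +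
        (b' - a' * b s / a s) * ∫ y, v y * θ1 (a s * y + b s) := by
    rw [← integral_const_mul, ← integral_const_mul,
      ← integral_add (i1.const_mul _) (i2.const_mul _)]
    refine integral_congr_ae (Eventually.of_forall fun y => ?_)
    field_simp
    ring
  rw [h2] at h1
  refine ((ha.sqrt h0.ne').mul h1).congr_deriv ?_
  have h3 := Real.sqrt_pos.2 h0
  have h4 := Real.mul_self_sqrt h0.le
  simp only [A_ModB, G_ModB]
  generalize Real.sqrt (a s) = r at h3 h4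
  rw [← h4]
  field_simp
  ring

theorem mvt_ModB (h : Test θ θ1 θ2 θ3) (hv : MemLp v 2 volume) {a0 a1 : ℝ} (h0 : 0 < a0)
    (h1 : 0 < a1) (b0 b1 : ℝ) : ∃ s ∈ Icc (0 : ℝ) 1, G_ModB θ v a1 b1 - G_ModB θ v a0 b0 =
      (a1 - a0) * A_ModB θ θ1 v (a0 + s * (a1 - a0)) (b0 + s * (b1 - b0)) +
        (b1 - b0) * G_ModB θ1 v (a0 + s * (a1 - a0)) (b0 + s * (b1 - b0)) := by
  have hl : ∀ c d s : ℝ, HasDerivAt (fun z => c + z * d) d s := fun c d s => by
    simpa using ((hasDerivAt_id s).mul_const d).const_add c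
  have hd := fun s (hs : s ∈ Icc (0 : ℝ) 1) => deriv_ModB h hv (hl a0 (a1 - a0) s)
    (hl b0 (b1 - b0) s) (by
      rcases le_total a0 a1 with h2 | h2
      · nlinarith [mul_nonneg hs.1 (sub_nonneg.2 h2)]
      · nlinarith [mul_nonneg (sub_nonneg.2 hs.2) (sub_nonneg.2 h2)])
  obtain ⟨s, hs, e⟩ := exists_hasDerivAt_eq_slope _ _ zero_lt_one
    (fun s hs => (hd s hs).continuousAt.continuousWithinAt) fun s hs => hd s (Ioo_subset_Icc_self hs)
  exact ⟨s, Ioo_subset_Icc_self hs, by rw [e]; simp⟩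

theorem cont_ModB (hu : L2T (𝓝 t) u (u t)) (hg : ExpD g) {a b : ℝ → ℝ} {a0 b0 : ℝ} (h0 : a0 ≠ 0)
    (ha : Tendsto a (𝓝 t) (𝓝 a0)) (hb : Tendsto b (𝓝 t) (𝓝 b0)) :
    Tendsto (fun z => G_ModB g (u z) (a z) (b z)) (𝓝 t) (𝓝 (G_ModB g (u t) a0 b0)) :=
  ha.sqrt.mul (hu.mul ((L2T.const hg.memLp).comp_affine h0 ha hb)).tendsto_integral

theorem mid_ModB {a s : ℝ → ℝ} (ha : ContinuousAt a t) (hs : ∀ z, s z ∈ Icc (0 : ℝ) 1) :
    Tendsto (fun z => a t + s z * (a z - a t)) (𝓝 t) (𝓝 (a t)) := by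
  have h1 : Tendsto (fun z => s z * (a z - a t)) (𝓝 t) (𝓝 0) := by
    refine squeeze_zero_norm (fun z => ?_) (tendsto_iff_norm_sub_tendsto_zero.1 ha)
    rw [norm_mul, Real.norm_of_nonneg (hs z).1]
    exact mul_le_of_le_one_left (norm_nonneg _) (hs z).2
  simpa using h1.const_add (a t)

theorem car_ModB (h : Test θ θ1 θ2 θ3) (hu : L2T (𝓝 t) u (u t)) {a b : ℝ → ℝ}
    (ha : ContinuousAt a t) (hb : ContinuousAt b t) (h0 : 0 < a t) :
    ∃ α β : ℝ → ℝ, Tendsto α (𝓝 t) (𝓝 (A_ModB θ θ1 (u t) (a t) (b t))) ∧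
      Tendsto β (𝓝 t) (𝓝 (G_ModB θ1 (u t) (a t) (b t))) ∧
      ∀ᶠ z in 𝓝 t, G_ModB θ (u z) (a z) (b z) - G_ModB θ (u z) (a t) (b t) =
        (a z - a t) * α z + (b z - b t) * β z := by
  have key : ∀ z, ∃ s ∈ Icc (0 : ℝ) 1, MemLp (u z) 2 volume → 0 < a z →
      G_ModB θ (u z) (a z) (b z) - G_ModB θ (u z) (a t) (b t) =
      (a z - a t) * A_ModB θ θ1 (u z) (a t + s * (a z - a t)) (b t + s * (b z - b t)) +
        (b z - b t) * G_ModB θ1 (u z) (a t + s * (a z - a t)) (b t + s * (b z - b t)) := fun z => by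
    by_cases h1 : MemLp (u z) 2 volume ∧ 0 < a z
    · obtain ⟨s, hs, e⟩ := mvt_ModB h h1.1 h0 h1.2 (b t) (b z)
      exact ⟨s, hs, fun _ _ => e⟩
    · exact ⟨0, by simp, fun h2 h3 => absurd ⟨h2, h3⟩ h1⟩
  choose s hs e using key
  have ta := mid_ModB ha hs
  have tb := mid_ModB hb hs
  refine ⟨_, _, (((cont_ModB hu h.e0 h0.ne' ta tb).div_const 2).add
    (cont_ModB hu h.e1.id_mul h0.ne' ta tb)).sub (tb.mul (cont_ModB hu h.e1 h0.ne' ta tb)) |>.div
      ta h0.ne', cont_ModB hu h.e1 h0.ne' ta tb, ?_⟩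
  filter_upwards [hu.1, ha.eventually (lt_mem_nhds h0)] with z h1 h2 using e z h1 h2

theorem h1t_ModB (hs : IsSol (Ico T 0) u ux) (ht : t ∈ Ioo T 0) :
    H1T (𝓝 t) u ux (u t) (ux t) := by
  have := hs.h1t (Ioo_subset_Ico_self ht)
  rwa [nhdsWithin_eq_nhds.2 (Ico_mem_nhds ht.1 ht.2)] at this

theorem time_ModB (h0 : P0Stmt) (hs : IsSol (Ico T 0) u ux) (ht : t ∈ Ioo T 0)
    (h : Test θ θ1 θ2 θ3) : DifferentiableAt ℝ (fun z => ∫ x, u z x * θ x) t := by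
  refine (hasDerivAt_of_integral_eq (g := fun z => ∫ x, (u z x * θ3 x + u z x ^ 5 * θ1 x))
    ?_ ?_).differentiableAt <;> filter_upwards [Ioo_mem_nhds ht.1 ht.2] with z hz
  · have h1 := h1t_ModB hs hz
    exact ((h1.l2.mul (L2T.const h.e3.memLp)).add
      ((h1.pow 3).mul_ut (UT.const h.e1.bdd))).tendsto_integral
  · rcases le_total t z with h1 | h1
    · exact h0 _ u ux hs t z h1 (fun x hx => ⟨ht.1.le.trans hx.1, hx.2.trans_lt hz.2⟩) _ _ _ _ h
    · rw [intervalIntegral.integral_symm, ← h0 _ u ux hs z t h1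
        (fun x hx => ⟨hz.1.le.trans hx.1, hx.2.trans_lt ht.2⟩) _ _ _ _ h, neg_sub]

theorem memLp_ModB {lam sig : ℝ → ℝ} (hv : MemLp (u t) 2 volume) (hl : 0 < lam t) :
    MemLp (resc u lam sig t) 2 volume :=
  ((memLp_comp_affine hv hl.ne' (sig t)).const_mul _).sub expD_Q.memLp

theorem cov_ModB {lam sig : ℝ → ℝ} (hv : MemLp (u t) 2 volume) (hl : 0 < lam t) (hg : ExpD g) :
    G_ModB g (u t) (lam t)⁻¹ (-sig t / lam t) =
      (∫ y, Q y * g y) + ∫ y, resc u lam sig t y * g y := by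
  have h1 := integral_comp_affine (fun x => u t x * g ((lam t)⁻¹ * x + -sig t / lam t)) hl (sig t)
  have h2 : ∀ y, (lam t)⁻¹ * (lam t * y + sig t) + -sig t / lam t = y := fun y => by
    field_simp
    ring
  simp only [h2] at h1
  rw [← integral_add (integrable_mul2 expD_Q.memLp hg.memLp)
    (integrable_mul2 (memLp_ModB hv hl) hg.memLp)]
  have h3 : ∀ y, Q y * g y + resc u lam sig t y * g y =
      Real.sqrt (lam t) * (u t (lam t * y + sig t) * g y) := fun y => by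
    rw [resc]
    ring
  simp only [h3]
  rw [integral_const_mul, h1, G_ModB, Real.sqrt_inv, ← Real.sqrt_div_self]
  ring

theorem prod_ModB {F k : ℝ → ℝ} {k0 : ℝ} (hF : DifferentiableAt ℝ F t)
    (hk : Tendsto k (𝓝 t) (𝓝 k0)) : DifferentiableAt ℝ (fun z => (F z - F t) * k z) t := by
  refine HasDerivAt.differentiableAt (f' := deriv F t * k0) (hasDerivAt_iff_tendsto_slope.2 ?_)
  refine ((hasDerivAt_iff_tendsto_slope.1 hF.hasDerivAt).mul
    (hk.mono_left nhdsWithin_le_nhds)).congr fun z => ?_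
  simp only [slope_def_field]
  ring

theorem cramer_ModB {a b F1 F2 α1 α2 β1 β2 : ℝ → ℝ} {p1 p2 q1 q2 : ℝ}
    (h1 : DifferentiableAt ℝ F1 t) (h2 : DifferentiableAt ℝ F2 t)
    (a1 : Tendsto α1 (𝓝 t) (𝓝 p1)) (a2 : Tendsto α2 (𝓝 t) (𝓝 p2))
    (b1 : Tendsto β1 (𝓝 t) (𝓝 q1)) (b2 : Tendsto β2 (𝓝 t) (𝓝 q2)) (hd : p1 * q2 - p2 * q1 ≠ 0)
    (e1 : ∀ᶠ z in 𝓝 t, F1 t - F1 z = (a z - a t) * α1 z + (b z - b t) * β1 z)
    (e2 : ∀ᶠ z in 𝓝 t, F2 t - F2 z = (a z - a t) * α2 z + (b z - b t) * β2 z) :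
    DifferentiableAt ℝ a t := by
  have d := (a1.mul b2).sub (a2.mul b1)
  refine (((prod_ModB h2 (b1.div d hd)).sub (prod_ModB h1 (b2.div d hd))).add_const
    (a t)).congr_of_eventuallyEq ?_
  filter_upwards [e1, e2, d.eventually_ne hd] with z e1 e2 hz
  simp only [Pi.sub_apply, Pi.div_apply]
  rw [← neg_sub (F1 t), ← neg_sub (F2 t), e1, e2, ← mul_div_assoc, ← mul_div_assoc, ← sub_div,
    ← sub_eq_iff_eq_add, eq_div_iff hz]
  ring

theorem small_ModB {I J : ℝ} (hI : 0 < I) (hJ : 0 < J) (m : ℝ) : ∃ η : ℝ, 0 < η ∧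
    ∀ e1 e2 e3 e4 : ℝ, e1 ^ 2 < η ^ 2 → e2 ^ 2 < η ^ 2 → e3 ^ 2 < η ^ 2 → e4 ^ 2 < η ^ 2 →
      (-I + e1) * (-J + e2) - (m + e3) * e4 ≠ 0 := by
  have h1 : Continuous fun p : ℝ × ℝ × ℝ × ℝ =>
      (-I + p.1) * (-J + p.2.1) - (m + p.2.2.1) * p.2.2.2 := by fun_prop
  obtain ⟨η, h2, h3⟩ := Metric.eventually_nhds_iff.1 ((h1.tendsto 0).eventually_ne (b₂ := 0)
    (by simp [hI.ne', hJ.ne']))
  refine ⟨η, h2, fun e1 e2 e3 e4 a1 a2 a3 a4 => h3 (y := (e1, e2, e3, e4)) ?_⟩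
  simp [Prod.norm_def, abs_lt_of_sq_lt_sq a1 h2.le, abs_lt_of_sq_lt_sq a2 h2.le,
    abs_lt_of_sq_lt_sq a3 h2.le, abs_lt_of_sq_lt_sq a4 h2.le]

theorem lin_ModB {e : ℝ → ℝ} (he : MemLp e 2 volume) (hg : ExpD g) (h : ∀ y, |g y| ≤ 6 * Q y) :
    (∫ y, e y * g y) ^ 2 ≤ 40 * 6 ^ 2 * N0 e ∧ (∫ y, e y * (y * g y)) ^ 2 ≤ 40 * 6 ^ 2 * N0 e := by
  have h1 : ∀ y, (1 + |y|) * (6 * Q y) ≤ 6 * (Real.exp (|y| / 20) * (1 + |y|) * Q y) := fun y => by
    have h2 : 0 ≤ (1 + |y|) * Q y := mul_nonneg (by positivity) (Q_pos y).le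
    have h3 : 1 ≤ Real.exp (|y| / 20) := Real.one_le_exp (by positivity)
    nlinarith
  refine ⟨sq_integral_le_N0 he hg.1 fun y => (h y).trans (le_trans ?_ (h1 y)),
    sq_integral_le_N0 he hg.id_mul.1 fun y => le_trans ?_ (h1 y)⟩
  · nlinarith [abs_nonneg y, Q_pos y]
  · rw [abs_mul]
    exact mul_le_mul (by linarith) (h y) (abs_nonneg _) (by positivity)

theorem C1_ModB (y : ℝ) : |C1 y| ≤ 6 * Q y := by
  have h1 := Q_pos y
  have h2 := Q_le y
  have h3 : Q y ^ 2 ≤ 2 := by nlinarith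
  have h4 : |tn y| * Q y ^ 2 ≤ 1 * 2 :=
    mul_le_mul (abs_tn_lt y).le h3 (sq_nonneg _) zero_le_one
  rw [C1, abs_neg, abs_mul, abs_mul, abs_of_pos (pow_pos h1 3), abs_of_pos three_pos]
  nlinarith

theorem QC1_ModB : ∫ y, Q y * C1 y = 0 := by
  have : ∀ y, Q y * C1 y = 3 * (Q1 y * C0 y) := fun y => by
    simp only [C1, Q1, C0]
    ring
  simp only [this]
  rw [integral_const_mul, integral_Q1_C0, mul_zero]

theorem QC0_ModB : (∫ y, Q y * C0 y) / 2 + ∫ y, Q y * (y * C1 y) = -((∫ y, Q y ^ 4) / 4) := by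
  have h1 : ∀ y, Q y * C0 y = Q y ^ 4 := fun y => by
    rw [C0]
    ring
  have h2 : ∀ y, Q y * (y * C1 y) = 3 * (LQ y * C0 y) - 3 / 2 * Q y ^ 4 := fun y => by
    simp only [C1, LQ, Q1, C0]
    ring
  simp only [h1, h2]
  rw [integral_sub ((integrable_mul2 expD_LQ.memLp expD_C0.memLp).const_mul _)
    ((expD_Q.pow 3).integrable.const_mul _), integral_const_mul, integral_const_mul,
    integral_LQ_C0]
  ring

theorem QQ2_ModB : ∫ y, Q y * Q2 y = -∫ y, Q1 y ^ 2 := by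
  simp only [sq]
  rw [test_Q.h1.ibp test_Q.h2, neg_neg]

theorem modB (h0 : P0Stmt) : ModBStmt := by
  obtain ⟨η, hη, hs⟩ := small_ModB (div_pos integral_Q4_pos four_pos) integral_Q1_sq_pos
    (∫ y, Q y * (y * Q2 y))
  refine ⟨η ^ 2 / 2000, by positivity, fun T u ux lam sig t hu t1 t2 hl cl cs ho hN => ?_⟩
  have hH := (h1t_ModB hu ⟨t1, t2⟩).l2
  have ca : ContinuousAt (fun z => (lam z)⁻¹) t := cl.inv₀ hl.ne'
  have cb : ContinuousAt (fun z => -sig z / lam z) t := cs.neg.div cl hl.ne'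
  have ha := inv_pos.2 hl
  obtain ⟨α1, β1, a1, b1, e1⟩ := car_ModB test_C0 hH ca cb ha
  obtain ⟨α2, β2, a2, b2, e2⟩ := car_ModB test_Q1 hH ca cb ha
  have d1 : DifferentiableAt ℝ (fun z => G_ModB C0 (u z) (lam t)⁻¹ (-sig t / lam t)) t :=
    (time_ModB h0 hu ⟨t1, t2⟩ (test_C0.comp_affine ha.ne' _)).const_mul _
  have d2 : DifferentiableAt ℝ (fun z => G_ModB Q1 (u z) (lam t)⁻¹ (-sig t / lam t)) t :=
    (time_ModB h0 hu ⟨t1, t2⟩ (test_Q1.comp_affine ha.ne' _)).const_mul _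
  have hp := cl.eventually (lt_mem_nhds hl)
  have hc : ∀ᶠ z in 𝓝 t, G_ModB C0 (u z) (lam z)⁻¹ (-sig z / lam z) = ∫ y, Q y * C0 y ∧
      G_ModB Q1 (u z) (lam z)⁻¹ (-sig z / lam z) = 0 := by
    filter_upwards [hH.1, hp, ho] with z m n o
    rw [cov_ModB m n expD_C0, cov_ModB m n expD_Q1, o.1, o.2, integral_Q_Q1]
    simp
  have hc0 := hc.self_of_nhds
  have hd : A_ModB C0 C1 (u t) (lam t)⁻¹ (-sig t / lam t) *
      G_ModB Q2 (u t) (lam t)⁻¹ (-sig t / lam t) - A_ModB Q1 Q2 (u t) (lam t)⁻¹ (-sig t / lam t) *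
      G_ModB C1 (u t) (lam t)⁻¹ (-sig t / lam t) ≠ 0 := by
    have he := memLp_ModB (sig := sig) hH.2.1 hl
    have l1 := lin_ModB he expD_C1 C1_ModB
    have l2 := lin_ModB he expD_Q2 fun y => (abs_Q2_le y).trans (by linarith [Q_pos y])
    have l3 : 40 * 6 ^ 2 * N0 (resc u lam sig t) < η ^ 2 := by linarith [pow_pos hη 2]
    have h3 := hs _ _ _ _ (l1.2.trans_lt l3) (l2.1.trans_lt l3) (l2.2.trans_lt l3)
      (l1.1.trans_lt l3)
    rw [← QC0_ModB] at h3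
    rw [A_ModB, A_ModB, hc0.1, hc0.2, cov_ModB hH.2.1 hl expD_C1.id_mul,
      cov_ModB hH.2.1 hl expD_Q2.id_mul, cov_ModB hH.2.1 hl expD_C1, cov_ModB hH.2.1 hl expD_Q2,
      QC1_ModB, QQ2_ModB]
    refine fun h4 => mul_ne_zero hl.ne' h3 (Eq.trans ?_ h4)
    simp only [div_inv_eq_mul]
    ring
  have f1 := e1.and hc |>.mono fun z hz => (hc0.1.trans hz.2.1.symm ▸ hz.1 :)
  have f2 := e2.and hc |>.mono fun z hz => (hc0.2.trans hz.2.2.symm ▸ hz.1 :)
  have da := cramer_ModB d1 d2 a1 a2 b1 b2 hd f1 f2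
  have db := cramer_ModB d1 d2 b1 b2 a1 a2 (fun h => hd (by linarith))
    (f1.mono fun z hz => hz.trans (add_comm _ _)) (f2.mono fun z hz => hz.trans (add_comm _ _))
  have dl : DifferentiableAt ℝ lam t := by simpa using da.fun_inv ha.ne'
  refine ⟨dl, (db.mul dl).neg.congr_of_eventuallyEq ?_⟩
  filter_upwards [hp] with z hz
  simp only [Pi.neg_apply, Pi.mul_apply]
  field_simp

end Pool.Agent.MP_8339a4_an

end

section

/-! The rescaled remainder is continuous in time with values in `H^1`. -/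

open MeasureTheory Filter Topology Set

namespace Pool.Agent.MP_8339a4_an

theorem isH1_resc_FlowH {u ux : ℝ → ℝ → ℝ} {lam sig : ℝ → ℝ} {z : ℝ} (h : IsH1 (u z) (ux z))
    (hl : 0 < lam z) : IsH1 (resc u lam sig z) (rescy ux lam sig z) :=
  (((h.comp_affine hl.ne' (sig z)).const_mul (Real.sqrt (lam z))).sub isH1_Q).congr
    (fun _ => rfl) fun y => by rw [rescy, mul_assoc]

theorem flowH : FlowHStmt := by
  intro T u ux lam sig t hs hT ht hl cl cs
  have h := hs.h1t (t := t) ⟨hT.le, ht⟩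
  rw [nhdsWithin_eq_nhds.2 (Ico_mem_nhds hT ht)] at h
  have hp : ∀ᶠ z in 𝓝 t, 0 < lam z := cl.eventually (lt_mem_nhds hl)
  have c1 : Tendsto (fun z => Real.sqrt (lam z)) (𝓝 t) (𝓝 (Real.sqrt (lam t))) := cl.sqrt
  refine H1T.of_l2 ((h.1.and hp).mono fun z hz => isH1_resc_FlowH hz.1 hz.2)
    (isH1_resc_FlowH h.2.1 hl) ?_ ?_
  · exact ((h.l2.comp_affine hl.ne' cl cs).ut_mul (UT.of_tendsto c1)).sub (L2T.const isH1_Q.1)
  · exact ((h.l2y.comp_affine hl.ne' cl cs).ut_mul (UT.of_tendsto (c1.mul cl))).sub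
      (L2T.const isH1_Q.2.1)

end Pool.Agent.MP_8339a4_an

end

section

/-! The linear law in rescaled variables. -/

open MeasureTheory Filter Topology Set

namespace Pool.Agent.MP_8339a4_an

theorem h1t_Flow0 {T : ℝ} {u ux : ℝ → ℝ → ℝ} (hs : IsSol (Ico T 0) u ux) {t : ℝ} (h1 : T < t)
    (h2 : t < 0) : H1T (𝓝 t) u ux (u t) (ux t) := by
  have h := hs.h1t (t := t) ⟨h1.le, h2⟩
  rwa [nhdsWithin_eq_nhds.2 (Ico_mem_nhds h1 h2)] at h

theorem fixed_Flow0 (h0 : P0Stmt) {T : ℝ} {u ux : ℝ → ℝ → ℝ} (hs : IsSol (Ico T 0) u ux) {t : ℝ}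
    (h1 : T < t) (h2 : t < 0) {θ θ1 θ2 θ3 : ℝ → ℝ} (hθ : Test θ θ1 θ2 θ3) :
    HasDerivAt (fun z => ∫ x, u z x * θ x) (∫ x, (u t x * θ3 x + u t x ^ 5 * θ1 x)) t := by
  have hI : ∀ᶠ z in 𝓝 t, z ∈ Ioo T (0 : ℝ) := Ioo_mem_nhds h1 h2
  refine hasDerivAt_of_integral_eq (f := fun z => ∫ x, u z x * θ x)
    (g := fun z => ∫ x, (u z x * θ3 x + u z x ^ 5 * θ1 x)) ?_ ?_
  · filter_upwards [hI] with z hz
    have H := h1t_Flow0 hs hz.1 hz.2
    exact ((H.l2.mul (L2T.const hθ.e3.memLp)).add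
      ((H.pow 3).mul_ut (UT.const hθ.e1.bdd))).tendsto_integral
  · filter_upwards [hI] with z hz
    rcases le_total t z with h | h
    · exact h0 _ u ux hs t z h (fun x hx => ⟨h1.le.trans hx.1, hx.2.trans_lt hz.2⟩) _ _ _ _ hθ
    · have := h0 _ u ux hs z t h (fun x hx => ⟨hz.1.le.trans hx.1, hx.2.trans_lt h2⟩) _ _ _ _ hθ
      rw [intervalIntegral.integral_symm, ← this]
      ring

theorem cv_Flow0 (A A' : ℝ → ℝ) {L : ℝ} (σ c : ℝ) (hL : 0 < L)
    (h : ∀ y, L * A (L * y + σ) = c * A' y) : ∫ x, A x = c * ∫ y, A' y := by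
  have h1 := integral_comp_affine A hL σ
  have h2 : ∫ x, A x = L * ∫ y, A (L * y + σ) := by
    rw [h1]; field_simp
  rw [h2, ← integral_const_mul, ← integral_const_mul]
  exact integral_congr_ae (Eventually.of_forall h)

theorem conv_Flow0 (β γ : ℝ) {e θ θ1 θ2 θ3 : ℝ → ℝ} (he : Bdd e) (hθ : Test θ θ1 θ2 θ3) :
    (∫ y, ((Q y + e y) * θ3 y + (Q y + e y) ^ 5 * θ1 y))
      + (∫ y, (β * ((Q y + e y) * (θ y / 2 + y * θ1 y)) - (1 + γ) * ((Q y + e y) * θ1 y)))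
      = rhs0 β γ e θ θ1 θ3 := by
  have hU : Bdd (fun y => Q y + e y) := expD_Q.bdd.add he
  have hs : ExpD (fun y => θ y / 2 + y * θ1 y) := (hθ.e0.div_const 2).add hθ.e1.id_mul
  have i1 : ExpD (fun y => (Q y + e y) * θ3 y + (Q y + e y) ^ 5 * θ1 y) :=
    (hθ.e3.bdd_mul hU).add (hθ.e1.bdd_mul (hU.pow 5))
  have i2 : ExpD (fun y => β * ((Q y + e y) * (θ y / 2 + y * θ1 y))
      - (1 + γ) * ((Q y + e y) * θ1 y)) :=
    ((hs.bdd_mul hU).const_mul β).sub ((hθ.e1.bdd_mul hU).const_mul (1 + γ))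
  have hN : Bdd (fun y => NN y (e y)) := by
    unfold NN
    exact ((hU.pow 5).sub (expD_Q.bdd.pow 5)).sub (((expD_Q.bdd.pow 4).const_mul 5).mul he)
  have i3 : ExpD (fun y => e y * (θ3 y - θ1 y + V y * θ1 y) + NN y (e y) * θ1 y
      - β * (LQ y * θ y) + γ * (Q1 y * θ y) + β * (e y * (θ y / 2 + y * θ1 y))
      - γ * (e y * θ1 y)) :=
    (((((((hθ.e3.sub hθ.e1).add (hθ.e1.bdd_mul expD_V.bdd)).bdd_mul he).add
      (hθ.e1.bdd_mul hN)).sub ((hθ.e0.bdd_mul expD_LQ.bdd).const_mul β)).add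
      ((hθ.e0.bdd_mul expD_Q1.bdd).const_mul γ)).add ((hs.bdd_mul he).const_mul β)).sub
      ((hθ.e1.bdd_mul he).const_mul γ)
  have i0 : ExpD (fun y => Q y * θ2 y - Q1 y * θ1 y + β * (y * (Q y * θ y)) - γ * (Q y * θ y)) :=
    (((hθ.e2.bdd_mul expD_Q.bdd).sub (hθ.e1.bdd_mul expD_Q1.bdd)).add
      ((hθ.e0.bdd_mul expD_Q.bdd).id_mul.const_mul β)).sub
      ((hθ.e0.bdd_mul expD_Q.bdd).const_mul γ)
  have hd : ∀ y, HasDerivAt
      (fun y => Q y * θ2 y - Q1 y * θ1 y + β * (y * (Q y * θ y)) - γ * (Q y * θ y))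
      ((Q1 y * θ2 y + Q y * θ3 y) - (Q2 y * θ1 y + Q1 y * θ2 y)
        + β * (1 * (Q y * θ y) + y * (Q1 y * θ y + Q y * θ1 y))
        - γ * (Q1 y * θ y + Q y * θ1 y)) y := fun y =>
    ((((hasDerivAt_Q y).mul (hθ.sm.d3 y)).sub ((hasDerivAt_Q1 y).mul (hθ.sm.d2 y))).add
      (((hasDerivAt_id' y).mul ((hasDerivAt_Q y).mul (hθ.sm.d1 y))).const_mul β)).sub
      (((hasDerivAt_Q y).mul (hθ.sm.d1 y)).const_mul γ)
  have c0 := hθ.e0.1
  have c1 := hθ.e1.1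
  have c2 := hθ.e2.1
  have c3 := hθ.e3.1
  have q0 := expD_Q.1
  have q1 := expD_Q1.1
  have q2 := expD_Q2.1
  have hP := IsPrim.of_hasDerivAt hd (by fun_prop)
  rw [← integral_add i1.integrable i2.integrable]
  unfold rhs0
  refine hP.integral_eq i0.integrable (i1.add i2).integrable i3.integrable fun y => ?_
  simp only [NN, V, LQ, Q2]
  ring

theorem resc_Flow0 {u : ℝ → ℝ → ℝ} {lam sig : ℝ → ℝ} {z : ℝ} (hu : Bdd (u z)) (hl : 0 < lam z)
    {θ : ℝ → ℝ} (hθ : ExpD θ) :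
    ∫ y, resc u lam sig z y * θ y = (∫ x, u z x * ((Real.sqrt (lam z))⁻¹ *
      θ ((lam z)⁻¹ * x + -(sig z * (lam z)⁻¹)))) - ∫ y, Q y * θ y := by
  have hb : Bdd (fun y => Real.sqrt (lam z) * u z (lam z * y + sig z)) :=
    (hu.comp (by fun_prop)).const_mul _
  have hs : 0 < Real.sqrt (lam z) := Real.sqrt_pos.2 hl
  have hq : Real.sqrt (lam z) * Real.sqrt (lam z) = lam z := Real.mul_self_sqrt hl.le
  rw [cv_Flow0 (fun x => u z x * ((Real.sqrt (lam z))⁻¹ *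
      θ ((lam z)⁻¹ * x + -(sig z * (lam z)⁻¹))))
      (fun y => Real.sqrt (lam z) * u z (lam z * y + sig z) * θ y) (sig z) 1 hl ?_, one_mul,
    ← integral_sub (hθ.bdd_mul hb).integrable (hθ.bdd_mul expD_Q.bdd).integrable]
  · refine integral_congr_ae (Eventually.of_forall fun y => ?_)
    simp only [resc]
    ring
  · intro y
    have e : (lam z)⁻¹ * (lam z * y + sig z) + -(sig z * (lam z)⁻¹) = y := by
      field_simp; ring
    rw [e]
    generalize Real.sqrt (lam z) = s at *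
    generalize u z (lam z * y + sig z) = v
    rw [← hq]
    field_simp

theorem flow0 (h0 : P0Stmt) : Flow0Stmt := by
  intro T u ux lam sig t l' s' hs h1 h2 hl dl ds θ θ1 θ2 θ3 hθ
  have hI : ∀ᶠ z in 𝓝 t, z ∈ Ioo T (0 : ℝ) := Ioo_mem_nhds h1 h2
  have hpos : ∀ᶠ z in 𝓝 t, 0 < lam z := dl.continuousAt.eventually (lt_mem_nhds hl)
  have hs0 : 0 < Real.sqrt (lam t) := Real.sqrt_pos.2 hl
  have hq : Real.sqrt (lam t) * Real.sqrt (lam t) = lam t := Real.mul_self_sqrt hl.le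
  have ha0 : (lam t)⁻¹ ≠ 0 := inv_ne_zero hl.ne'
  have da : HasDerivAt (fun z => (lam z)⁻¹) (-l' / lam t ^ 2) t := dl.inv hl.ne'
  have db : HasDerivAt (fun z => -(sig z * (lam z)⁻¹))
      (-(s' * (lam t)⁻¹ + sig t * (-l' / lam t ^ 2))) t := (ds.mul da).neg
  have dk : HasDerivAt (fun z => (Real.sqrt (lam z))⁻¹)
      (-(l' / (2 * Real.sqrt (lam t))) / Real.sqrt (lam t) ^ 2) t := (dl.sqrt hl.ne').inv hs0.ne'
  have hT := (hθ.comp_affine ha0 (-(sig t * (lam t)⁻¹))).const_mul (Real.sqrt (lam t))⁻¹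
  have hM := (me_profile hθ.sm.d1 hθ.e1 da db ha0).scalar_mul
    (hθ.e0.comp_affine ha0 (-(sig t * (lam t)⁻¹))) dk
  have hD := mov_l2 (h1t_Flow0 hs h1 h2).l2 hM hT.e0.memLp (fixed_Flow0 h0 hs h1 h2 hT)
  have hu : Bdd (u t) := (hs.h1 t ⟨h1.le, h2⟩).bdd
  have he : Bdd (resc u lam sig t) := by
    unfold resc
    exact ((hu.comp (by fun_prop)).const_mul _).sub expD_Q.bdd
  have ey : ∀ y, (lam t)⁻¹ * (lam t * y + sig t) + -(sig t * (lam t)⁻¹) = y := fun y => by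
    field_simp; ring
  have eU : ∀ y, Q y + resc u lam sig t y = Real.sqrt (lam t) * u t (lam t * y + sig t) :=
    fun y => by simp only [resc]; ring
  refine ((hD.sub_const (∫ y, Q y * θ y)).congr_of_eventuallyEq ?_).congr_deriv ?_
  · filter_upwards [hI, hpos] with z hz hp
    exact resc_Flow0 (hs.h1 z ⟨hz.1.le, hz.2⟩).bdd hp hθ.e0
  · rw [← conv_Flow0 _ _ he hθ, mul_add]
    congr 1
    · refine cv_Flow0 _ _ (sig t) _ hl fun y => ?_
      rw [ey, eU]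
      generalize Real.sqrt (lam t) = s at *
      generalize u t (lam t * y + sig t) = v
      rw [← hq]
      field_simp
    · refine cv_Flow0 _ _ (sig t) _ hl fun y => ?_
      rw [ey, eU]
      generalize Real.sqrt (lam t) = s at *
      generalize u t (lam t * y + sig t) = v
      rw [← hq]
      field_simp
      ring

end Pool.Agent.MP_8339a4_an

end

section

/-! The local mass law in rescaled variables. -/

open MeasureTheory Filter Topology Set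

namespace Pool.Agent.MP_8339a4_an

theorem h1t_Flow1 {T t : ℝ} {u ux : ℝ → ℝ → ℝ} (hs : IsSol (Ico T 0) u ux) (h1 : T < t)
    (h2 : t < 0) : H1T (𝓝 t) u ux (u t) (ux t) := by
  have h := hs.h1t (t := t) ⟨h1.le, h2⟩
  rwa [nhdsWithin_eq_nhds.2 (Ico_mem_nhds h1 h2)] at h

theorem fixed_Flow1 (h1 : P1Stmt) {T t : ℝ} {u ux : ℝ → ℝ → ℝ} (hs : IsSol (Ico T 0) u ux)
    (hT : T < t) (ht : t < 0) {W W1 W2 W3 : ℝ → ℝ} (hW : Wt W W1 W2 W3) :
    HasDerivAt (fun z => ∫ x, u z x ^ 2 * W x) (∫ x, fl1 (u t x) (ux t x) (W1 x) (W3 x)) t := by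
  refine hasDerivAt_of_integral_eq (g := fun z => ∫ x, fl1 (u z x) (ux z x) (W1 x) (W3 x)) ?_ ?_
  · filter_upwards [Ioo_mem_nhds hT ht] with z hz
    exact ((h1t_Flow1 hs hz.1 hz.2).fl1 hW.b1 hW.b3).tendsto_integral
  · filter_upwards [Ioo_mem_nhds hT ht] with z hz
    rcases le_total t z with h | h
    · exact h1 _ u ux hs t z h (fun x hx => ⟨hT.le.trans hx.1, hx.2.trans_lt hz.2⟩) W W1 W2 W3 hW
    · rw [intervalIntegral.integral_symm,
        ← h1 _ u ux hs z t h (fun x hx => ⟨hz.1.le.trans hx.1, hx.2.trans_lt ht⟩) W W1 W2 W3 hW]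
      ring

theorem chg_Flow1 {F G : ℝ → ℝ} {l k : ℝ} (hl : 0 < l) (s : ℝ)
    (e : ∀ y, G y = k * l * F (l * y + s)) : ∫ y, G y = k * ∫ x, F x := by
  simp only [e]
  rw [integral_const_mul, integral_comp_affine F hl s]
  field_simp

theorem flow1 (h1 : P1Stmt) : Flow1Stmt := by
  intro T u ux lam sig t l' s' hs hT ht hl dl ds W W1 W2 W3 hW
  have hH := h1t_Flow1 hs hT ht
  have da : HasDerivAt (fun z => (lam z)⁻¹) (-l' / lam t ^ 2) t := dl.inv hl.ne'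
  have db : HasDerivAt (fun z => -(sig z * (lam z)⁻¹))
      (-(s' * (lam t)⁻¹ + sig t * (-l' / lam t ^ 2))) t := (ds.mul da).neg
  have hM := mw_profile hW.sm.d1 hW.b0 hW.b1 hW.by1 da db (inv_ne_zero hl.ne')
  have hA := hW.comp_affine (inv_ne_zero hl.ne') (-(sig t * (lam t)⁻¹))
  have h2 := mov_l1 (ρ := fun z x => u z x ^ 2) (hH.pow 0) hM (fixed_Flow1 h1 hs hT ht hA)
  have hy : ∀ z, 0 < lam z → ∀ y,
      (lam z)⁻¹ * (lam z * y + sig z) + -(sig z * (lam z)⁻¹) = y := fun z hz y => by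
    field_simp
    ring
  refine (h2.congr_of_eventuallyEq ?_).congr_deriv ?_
  · filter_upwards [dl.continuousAt.eventually (lt_mem_nhds hl)] with z hz
    rw [chg_Flow1 (k := 1)
      (F := fun x => u z x ^ 2 * W ((lam z)⁻¹ * x + -(sig z * (lam z)⁻¹))) hz (sig z) fun y => ?_,
      one_mul]
    rw [hy z hz, resc, add_sub_cancel, mul_pow, Real.sq_sqrt hz.le]
    ring
  · rw [← integral_add (hH.fl1 hA.b1 hA.b3).2.1 (integrable_mul_bdd (hH.pow 0).2.1 hM.bdd_wt),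
      rhs1, eq_inv_mul_iff_mul_eq₀ (pow_pos hl 3).ne']
    refine (chg_Flow1 hl (sig t) fun y => ?_).symm
    obtain ⟨r, hr⟩ : ∃ r, r = Real.sqrt (lam t) := ⟨_, rfl⟩
    have hr2 : lam t = r ^ 2 := by rw [hr, Real.sq_sqrt hl.le]
    have hr0 : r ≠ 0 := by
      rw [hr]
      exact (Real.sqrt_pos.2 hl).ne'
    simp only [hy t hl, resc, rescy, add_sub_cancel, fl1, ← hr]
    generalize u t (lam t * y + sig t) = p
    generalize ux t (lam t * y + sig t) = q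
    rw [hr2]
    field_simp
    ring

end Pool.Agent.MP_8339a4_an

end

section

/-! The local energy inequality in rescaled variables. -/

open MeasureTheory Filter Topology Set

namespace Pool.Agent.MP_8339a4_an

theorem h1t_Flow2 {T : ℝ} {u ux : ℝ → ℝ → ℝ} (h : IsSol (Ico T 0) u ux) {z : ℝ} (h1 : T < z)
    (h2 : z < 0) : H1T (𝓝 z) u ux (u z) (ux z) := by
  have := h.h1t (t := z) ⟨h1.le, h2⟩
  rwa [nhdsWithin_eq_nhds.2 (Ico_mem_nhds h1 h2)] at this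

theorem en_Flow2 {L r : ℝ} (hL : L = r ^ 2) (p q : ℝ) :
    en (r * p) (r * L * q) = L ^ 3 * en p q := by
  subst hL
  unfold en
  ring

theorem aff_Flow2 {L : ℝ} (hL : L ≠ 0) (σ y : ℝ) : L⁻¹ * (L * y + σ) + -σ * L⁻¹ = y := by
  field_simp
  ring

theorem scale_Flow2 (u ux : ℝ → ℝ → ℝ) (lam sig W : ℝ → ℝ) {z : ℝ} (hz : 0 < lam z) :
    (∫ x, en (u z x) (ux z x) * W ((lam z)⁻¹ * x + -sig z * (lam z)⁻¹)) * lam z ^ 2 =
      ∫ y, en (Q y + resc u lam sig z y) (Q1 y + rescy ux lam sig z y) * W y := by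
  have e : ∀ y, en (Q y + resc u lam sig z y) (Q1 y + rescy ux lam sig z y) * W y =
      lam z ^ 3 * (fun x => en (u z x) (ux z x) * W ((lam z)⁻¹ * x + -sig z * (lam z)⁻¹))
        (lam z * y + sig z) := by
    intro y
    simp only [resc, rescy, add_sub_cancel]
    rw [en_Flow2 (Real.sq_sqrt hz.le).symm, aff_Flow2 hz.ne', mul_assoc]
  simp only [e]
  rw [integral_const_mul, integral_comp_affine
    (fun x => en (u z x) (ux z x) * W ((lam z)⁻¹ * x + -sig z * (lam z)⁻¹)) hz]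
  field_simp

theorem alg_Flow2 {L r : ℝ} (hL : L = r ^ 2) (hr : r ≠ 0) (p q g gy W W1 W2 W3 l' s' y σ : ℝ) :
    fl2 (r * p) (r * L * q) g gy W1 W2 W3
      - L ^ 2 * s' * (en (r * p) (r * L * q) * W1)
      - 2 * -(L ^ 2 * l') * (en (r * p) (r * L * q) * W)
      + -(L ^ 2 * l') * (en (r * p) (r * L * q) * (y * W1)) =
    L ^ 4 * ((fl2 p q ((r ^ 5)⁻¹ * g) ((r ^ 5)⁻¹ * (L⁻¹ * gy)) (L⁻¹ * W1) (L⁻¹ ^ 2 * W2)
        (L⁻¹ ^ 3 * W3) + en p q * (W1 * (-l' / L ^ 2 * (L * y + σ) +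
          (-s' * L⁻¹ + -σ * (-l' / L ^ 2))))) * L ^ 2 + en p q * W * (2 * L * l')) := by
  subst hL
  unfold fl2 en
  field_simp
  ring

theorem fixed_Flow2 (h2 : P2Stmt) {T : ℝ} {u ux : ℝ → ℝ → ℝ} (h : IsSol (Ico T 0) u ux) {t : ℝ}
    (h1 : T < t) (h0 : t < 0) {W W1 W2 W3 : ℝ → ℝ} (hW : Wt W W1 W2 W3) (hp : ∀ y, 0 ≤ W1 y)
    {g gy : ℝ → ℝ} (hg : IsH1 g gy) :
    DiniLe (fun z => ∫ x, en (u z x) (ux z x) * W x) t
      (∫ x, fl2 (u t x) (ux t x) (g x) (gy x) (W1 x) (W2 x) (W3 x)) := by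
  have hI : ∀ᶠ z in 𝓝 t, T < z ∧ z < 0 := (lt_mem_nhds h1).and (gt_mem_nhds h0)
  refine DiniLe.of_integral_le
    (g := fun z => ∫ x, fl2 (u z x) (ux z x) (g x) (gy x) (W1 x) (W2 x) (W3 x)) ?_ ?_
  · filter_upwards [mem_nhdsWithin_of_mem_nhds hI] with z hz
    exact ContinuousAt.continuousWithinAt
      ((h1t_Flow2 h hz.1 hz.2).fl2 hg hW.b1 hW.b2 hW.b3).tendsto_integral
  · filter_upwards [mem_nhdsWithin_of_mem_nhds hI, self_mem_nhdsWithin] with z hz hz'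
    exact h2 _ u ux h t z (le_of_lt hz') (fun x hx => ⟨h1.le.trans hx.1, hx.2.trans_lt hz.2⟩)
      W W1 W2 W3 hW hp g gy hg

theorem fin_Flow2 {A B C Ψ : ℝ → ℝ} (iA : Integrable A) (iB : Integrable B) (iC : Integrable C)
    {L : ℝ} (hL : 0 < L) (σ k : ℝ)
    (e : ∀ y, Ψ y = L ^ 4 * ((A (L * y + σ) + B (L * y + σ)) * L ^ 2 + C (L * y + σ) * k)) :
    ((∫ x, A x) + ∫ x, B x) * L ^ 2 + (∫ x, C x) * k = (L ^ 3)⁻¹ * ∫ y, Ψ y := by
  have iAB : Integrable fun x => A x + B x := iA.add iB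
  simp only [e]
  rw [integral_const_mul, integral_comp_affine (fun x => (A x + B x) * L ^ 2 + C x * k) hL,
    integral_add (iAB.mul_const _) (iC.mul_const _), integral_mul_const, integral_mul_const,
    integral_add iA iB]
  field_simp

theorem flow2 (h2 : P2Stmt) : Flow2Stmt := by
  intro T u ux lam sig t l' s' h h1 h0 hl dl ds W W1 W2 W3 hW hp g gy hg
  have hi : (lam t)⁻¹ ≠ 0 := inv_ne_zero hl.ne'
  have hr : Real.sqrt (lam t) ≠ 0 := (Real.sqrt_pos.2 hl).ne'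
  have hH := h1t_Flow2 h h1 h0
  have hW' := hW.comp_affine hi (-sig t * (lam t)⁻¹)
  have hg' := (hg.comp_affine hi (-sig t * (lam t)⁻¹)).const_mul (Real.sqrt (lam t) ^ 5)⁻¹
  have d1 := fixed_Flow2 h2 h h1 h0 hW' (fun y => mul_nonneg (inv_nonneg.2 hl.le) (hp _)) hg'
  have da : HasDerivAt (fun z => (lam z)⁻¹) (-l' / lam t ^ 2) t := dl.inv hl.ne'
  have db : HasDerivAt (fun z => -sig z * (lam z)⁻¹)
      (-s' * (lam t)⁻¹ + -sig t * (-l' / lam t ^ 2)) t := ds.neg.mul da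
  have hm := mw_profile hW.sm.d1 hW.b0 hW.b1 hW.by1 da db hi
  have d2 := mov_l1_dini (ρ := fun z y => en (u z y) (ux z y)) hH.en hm d1
  have dq : HasDerivAt (fun z => lam z ^ 2) (2 * lam t * l') t := by
    simpa using dl.fun_pow 2
  have d3 := (d2.mul_pos dq (pow_pos hl 2)).congr
    ((dl.continuousAt.eventually (lt_mem_nhds hl)).mono fun z hz => scale_Flow2 u ux lam sig W hz)
  refine d3.mono (le_of_eq ?_)
  have i1 := (hH.fl2 hg' hW'.b1 hW'.b2 hW'.b3).2.1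
  have i2 := integrable_mul_bdd hH.en.2.1 hm.bdd_wt
  have i3 := integrable_mul_bdd hH.en.2.1 hW'.b0
  refine fin_Flow2 i1 i2 i3 hl (sig t) _ fun y => ?_
  simp only [resc, rescy, add_sub_cancel]
  rw [aff_Flow2 hl.ne']
  exact alg_Flow2 (Real.sq_sqrt hl.le).symm hr _ _ _ _ _ _ _ _ _ _ _ _

end Pool.Agent.MP_8339a4_an

end

section

/-! Mass, local mass and energy of the rescaled remainder. -/

open MeasureTheory Filter Topology Set

namespace Pool.Agent.MP_8339a4_an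

theorem mass_Small {f : ℝ → ℝ} (hf : MemLp f 2 volume) {l : ℝ} (hl : 0 < l) (s : ℝ) :
    ∫ y, (Real.sqrt l * f (l * y + s) - Q y) ^ 2 ≤ 2 * (∫ x, f x ^ 2) + 2 * ∫ y, Q y ^ 2 := by
  have h1 : MemLp (fun y => Real.sqrt l * f (l * y + s)) 2 volume :=
    (memLp_comp_affine hf hl.ne' s).const_mul _
  have h2 : ∫ y, (Real.sqrt l * f (l * y + s)) ^ 2 = ∫ x, f x ^ 2 := by
    have e : ∀ y, (Real.sqrt l * f (l * y + s)) ^ 2 = l * (fun x => f x ^ 2) (l * y + s) := by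
      intro y
      simp only [mul_pow, Real.sq_sqrt hl.le]
    simp only [e]
    rw [integral_const_mul, integral_comp_affine (fun x => f x ^ 2) hl s]
    field_simp
  have i1 := integrable_sq2 h1
  have i2 := integrable_sq2 expD_Q.memLp
  rw [← h2, ← integral_const_mul, ← integral_const_mul,
    ← integral_add (i1.const_mul 2) (i2.const_mul 2)]
  refine integral_mono (integrable_sq2 (h1.sub expD_Q.memLp)) ((i1.const_mul 2).add
    (i2.const_mul 2)) (fun y => ?_)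
  simp only
  nlinarith [sq_nonneg (Real.sqrt l * f (l * y + s) + Q y)]

theorem en_Small (f g : ℝ → ℝ) {l : ℝ} (hl : 0 < l) (s : ℝ) :
    ∫ y, en (Q y + (Real.sqrt l * f (l * y + s) - Q y))
      (Q1 y + (Real.sqrt l * l * g (l * y + s) - Q1 y)) = (∫ x, en (f x) (g x)) * l ^ 2 := by
  have e : ∀ y, en (Q y + (Real.sqrt l * f (l * y + s) - Q y))
      (Q1 y + (Real.sqrt l * l * g (l * y + s) - Q1 y))
      = l ^ 3 * (fun x => en (f x) (g x)) (l * y + s) := by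
    intro y
    obtain ⟨r, hr⟩ : ∃ r, r = Real.sqrt l := ⟨_, rfl⟩
    have h2 : l = r ^ 2 := by rw [hr, Real.sq_sqrt hl.le]
    rw [← hr]
    simp only [en, add_sub_cancel]
    generalize f (l * y + s) = a
    generalize g (l * y + s) = b
    rw [h2]
    ring
  simp only [e]
  rw [integral_const_mul, integral_comp_affine (fun x => en (f x) (g x)) hl s]
  field_simp

theorem dy_Small (g : ℝ → ℝ) {l : ℝ} (hl : 0 < l) (s : ℝ) :
    ∫ y, (Q1 y + (Real.sqrt l * l * g (l * y + s) - Q1 y)) ^ 2 = l ^ 2 * ∫ x, g x ^ 2 := by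
  have e : ∀ y, (Q1 y + (Real.sqrt l * l * g (l * y + s) - Q1 y)) ^ 2
      = l ^ 3 * (fun x => g x ^ 2) (l * y + s) := by
    intro y
    simp only [add_sub_cancel, mul_pow, Real.sq_sqrt hl.le]
    ring
  simp only [e]
  rw [integral_const_mul, integral_comp_affine (fun x => g x ^ 2) hl s]
  field_simp

theorem loc_Small {f : ℝ → ℝ} (hf : Continuous f) {l s lt st η d k : ℝ} (hl : 0 < l)
    (hlt : 0 < lt) (hη : 0 < η) (hk : 0 < k)
    (h : ∀ x : ℝ, ∫ z in x..(x + η), (f z - Q ((z - st) / lt) / Real.sqrt lt) ^ 2 ≤ d) :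
    LocM (fun y => Real.sqrt l * f (l * y + s) - Q y) (η / l)
      ((1 + k) * d + (1 + 1 / k) *
        ∫ y, (Real.sqrt (l / lt) * Q (l / lt * y + (s - st) / lt) - Q y) ^ 2) := by
  intro x
  have hQ : Continuous Q := expD_Q.1
  have hx : x ≤ x + η / l := le_add_of_nonneg_right (div_pos hη hl).le
  set F : ℝ → ℝ := fun z => (f z - Q ((z - st) / lt) / Real.sqrt lt) ^ 2 with hF
  set B : ℝ → ℝ := fun y => Real.sqrt (l / lt) * Q (l / lt * y + (s - st) / lt) - Q y with hB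
  have cF : Continuous F := by
    rw [hF]
    fun_prop
  have cB : Continuous B := by
    rw [hB]
    fun_prop
  have mB : MemLp B 2 volume :=
    ((memLp_comp_affine expD_Q.memLp (div_pos hl hlt).ne' _).const_mul _).sub expD_Q.memLp
  have h1 : ∫ y in x..(x + η / l), l * F (l * y + s) ≤ d := by
    rw [intervalIntegral.integral_const_mul, intervalIntegral.mul_integral_comp_mul_add]
    have e : l * (x + η / l) + s = l * x + s + η := by
      field_simp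
      ring
    rw [e]
    exact h _
  have h2 : ∫ y in x..(x + η / l), B y ^ 2 ≤ ∫ y, B y ^ 2 := by
    rw [intervalIntegral.integral_of_le hx]
    exact setIntegral_le_integral (integrable_sq2 mB) (Eventually.of_forall fun y => sq_nonneg _)
  have i1 : IntervalIntegrable (fun y => l * F (l * y + s)) volume x (x + η / l) :=
    Continuous.intervalIntegrable (by fun_prop) _ _
  have i2 : IntervalIntegrable (fun y => B y ^ 2) volume x (x + η / l) :=
    Continuous.intervalIntegrable (by fun_prop) _ _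
  have h3 : ∫ y in x..(x + η / l), (Real.sqrt l * f (l * y + s) - Q y) ^ 2
      ≤ ∫ y in x..(x + η / l), ((1 + k) * (l * F (l * y + s)) + (1 + 1 / k) * B y ^ 2) := by
    refine intervalIntegral.integral_mono_on hx (Continuous.intervalIntegrable (by fun_prop) _ _)
      ((i1.const_mul _).add (i2.const_mul _)) (fun y _ => ?_)
    have e1 : (l * y + s - st) / lt = l / lt * y + (s - st) / lt := by
      field_simp
      ring
    have e2 : l * F (l * y + s) = (Real.sqrt l * (f (l * y + s)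
        - Q (l / lt * y + (s - st) / lt) / Real.sqrt lt)) ^ 2 := by
      rw [mul_pow, Real.sq_sqrt hl.le, hF]
      simp only [e1]
    have e3 : Real.sqrt l * f (l * y + s) - Q y = Real.sqrt l * (f (l * y + s)
        - Q (l / lt * y + (s - st) / lt) / Real.sqrt lt) + B y := by
      rw [hB]
      simp only [Real.sqrt_div hl.le]
      ring
    rw [e2, e3]
    generalize Real.sqrt l * (f (l * y + s)
        - Q (l / lt * y + (s - st) / lt) / Real.sqrt lt) = a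
    generalize B y = b
    have e4 : (1 + k) * a ^ 2 + (1 + 1 / k) * b ^ 2 - (a + b) ^ 2 = (k * a - b) ^ 2 / k := by
      field_simp
      ring
    have h5 : 0 ≤ (k * a - b) ^ 2 / k := by positivity
    linarith
  rw [intervalIntegral.integral_add (i1.const_mul _) (i2.const_mul _),
    intervalIntegral.integral_const_mul (1 + k), intervalIntegral.integral_const_mul (1 + 1 / k)]
    at h3
  have h4 := mul_le_mul_of_nonneg_left h1 (by positivity : 0 ≤ 1 + k)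
  have h5 := mul_le_mul_of_nonneg_left h2 (by positivity : 0 ≤ 1 + 1 / k)
  exact h3.trans (add_le_add h4 h5)

theorem small (hc : ConsStmt) : SmallStmt := by
  intro T ν u ux lt st x0 lam sig hP hl hs
  have hI : ∀ᶠ t in 𝓝[<] (0 : ℝ), t ∈ Ico T 0 := Ico_mem_nhdsLT hP.neg
  have hlt : ∀ᶠ t in 𝓝[<] (0 : ℝ), 0 < lt t := hI.mono fun t ht => hP.pos t ht
  have hlam : ∀ᶠ t in 𝓝[<] (0 : ℝ), 0 < lam t := by
    filter_upwards [hlt, hl.eventually (lt_mem_nhds one_pos)] with t h1 h2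
    exact (div_pos_iff_of_pos_right h1).1 h2
  refine ⟨?_, ?_, ?_⟩
  · have := hl.mul hP.lt0
    rw [mul_zero] at this
    refine this.congr' ?_
    filter_upwards [hlt] with t h1
    field_simp
  · have := hP.st0.add (hs.mul hP.lt0)
    rw [mul_zero, add_zero] at this
    refine this.congr' ?_
    filter_upwards [hlt] with t h1
    field_simp
    ring
  obtain ⟨η, d, hη, hd, hS⟩ := hP.single
  have hm : 0 < ∫ y, Q y ^ 2 := by
    rw [integral_Q_sq]
    have := Real.pi_pos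
    positivity
  obtain ⟨d0, hd0, hd1, hd2⟩ : ∃ d0 : ℝ, 0 ≤ d0 ∧ d ≤ d0 ∧ d0 < ∫ y, Q y ^ 2 :=
    ⟨max d 0, le_max_right _ _, le_max_left _ _, max_lt hd hm⟩
  obtain ⟨g, hg, hg1⟩ : ∃ g : ℝ, 0 < g ∧ d0 + 2 * g < ∫ y, Q y ^ 2 :=
    ⟨((∫ y, Q y ^ 2) - d0) / 3, by linarith, by linarith⟩
  have hk : 0 < g / (d0 + 1) := by positivity
  have hk1 : (1 + g / (d0 + 1)) * d0 ≤ d0 + g := by
    have : g / (d0 + 1) * d0 ≤ g := by
      rw [div_mul_eq_mul_div, div_le_iff₀ (by positivity)]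
      nlinarith
    linarith
  have hB : Tendsto (fun t => ∫ y, (Real.sqrt (lam t / lt t) *
      Q (lam t / lt t * y + (sig t - st t) / lt t) - Q y) ^ 2) (𝓝[<] 0) (𝓝 0) := by
    have h1 := ((L2T.const (l := 𝓝[<] (0 : ℝ)) expD_Q.memLp).comp_affine one_ne_zero hl hs).ut_mul
      (UT.of_tendsto hl.sqrt)
    simpa using h1.2.2
  have hB' := hB.const_mul (1 + 1 / (g / (d0 + 1)))
  rw [mul_zero] at hB'
  refine ⟨2 * (∫ x, u T x ^ 2) + 2 * ∫ y, Q y ^ 2, ∫ x, en (u T x) (ux T x), η, d0 + 2 * g,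
    hη, hg1, ?_⟩
  filter_upwards [hI, hlt, hlam, hS, hB'.eventually (gt_mem_nhds hg)] with t ht h1 h2 h3 h4
  have hH := hP.sol.h1 t ht
  obtain ⟨c1, c2⟩ := hc _ u ux hP.sol T t ht.1 (fun z hz => ⟨hz.1, hz.2.trans_lt ht.2⟩)
  refine ⟨?_, ?_, ?_, ?_⟩
  · rw [← c1]
    exact mass_Small hH.1 h2 (sig t)
  · intro x
    refine (loc_Small (s := sig t) hH.continuous h2 h1 hη hk (fun z => (h3 z).trans hd1) x).trans ?_
    linarith
  · refine (en_Small (u t) (ux t) h2 (sig t)).trans_le ?_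
    exact mul_le_mul_of_nonneg_right c2 (sq_nonneg _)
  · exact dy_Small (ux t) h2 (sig t)

end Pool.Agent.MP_8339a4_an

end

section

/-! Change of the time variable in the modulated flow. -/

open Filter Topology

namespace Pool.Agent.MP_8339a4_an

theorem time : TimeStmt := by
  intro e ey lam β γ τ w s τ' h H hτ
  have hc : Tendsto τ (𝓝 s) (𝓝 (τ s)) := H.continuousAt
  refine ⟨h.h1t.comp hc, h.pos, ?_, hc.eventually h.orth, ?_, ?_, ?_⟩
  · rw [mul_right_comm]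
    exact h.dlam.comp s H
  · intro θ θ1 θ2 θ3 hθ
    rw [mul_right_comm]
    exact (h.d0 θ θ1 θ2 θ3 hθ).comp s H
  · intro W W1 W2 W3 hW
    rw [mul_right_comm]
    exact (h.d1 W W1 W2 W3 hW).comp s H
  · intro W W1 W2 W3 hW h0 g gy hg
    rw [mul_right_comm]
    exact DiniLe.comp (f := fun z => ∫ y, en (Q y + e z y) (Q1 y + ey z y) * W y)
      (h.d2 W W1 W2 W3 hW h0 g gy hg) H hτ

end Pool.Agent.MP_8339a4_an

end

section

/-! Assembly of the modulated flow in physical time. -/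

open MeasureTheory Filter Topology Set

namespace Pool.Agent.MP_8339a4_an

theorem rate_FinA {k l S p cr Cr : ℝ} (hl : 0 < l) (hp : 0 < p) (hcr : 0 < cr)
    (hCr : 0 < Cr) (h1 : cr * p⁻¹ ≤ S) (h2 : S ≤ Cr * p⁻¹) (h3 : k / 2 ≤ l * S)
    (h4 : l * S ≤ 2 * k) : k / (2 * Cr) * p ≤ l ∧ l ≤ 2 * k / cr * p := by
  have e1 : cr ≤ S * p := by
    have := mul_le_mul_of_nonneg_right h1 hp.le
    rwa [mul_assoc, inv_mul_cancel₀ hp.ne', mul_one] at this
  have e2 : S * p ≤ Cr := by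
    have := mul_le_mul_of_nonneg_right h2 hp.le
    rwa [mul_assoc, inv_mul_cancel₀ hp.ne', mul_one] at this
  constructor
  · rw [div_mul_eq_mul_div, div_le_iff₀ (by positivity)]
    have a1 := mul_le_mul_of_nonneg_right h3 hp.le
    have a2 := mul_le_mul_of_nonneg_left e2 hl.le
    nlinarith
  · rw [div_mul_eq_mul_div, le_div_iff₀ hcr]
    have a1 := mul_le_mul_of_nonneg_right h4 hp.le
    have a2 := mul_le_mul_of_nonneg_left e1 hl.le
    nlinarith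

theorem tendsto_of_sq_FinA {α : Type} {l : Filter α} {f g : α → ℝ} (hg : Tendsto g l (𝓝 0))
    (h : ∀ᶠ z in l, f z ^ 2 ≤ 4 * g z) : Tendsto f l (𝓝 0) := by
  have h1 : Tendsto (fun z => Real.sqrt (4 * g z)) l (𝓝 0) := by
    have := (hg.const_mul 4).sqrt
    simpa using this
  refine squeeze_zero_norm' ?_ h1
  filter_upwards [h] with z hz
  rw [Real.norm_eq_abs]
  exact Real.abs_le_sqrt hz

theorem finA (hA : ModAStmt) (hB : ModBStmt) (hH : FlowHStmt) (h0 : Flow0Stmt) (h1 : Flow1Stmt)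
    (h2 : Flow2Stmt) (hS : SmallStmt) (hG : G0Stmt) (hP : ParStmt) : FinAStmt := by
  intro T ν u ux lt st x0 hPh
  obtain ⟨T1, lam, sig, hT1, hT1n, hmod, hl, hs, hN⟩ := hA T ν u ux lt st x0 hPh
  obtain ⟨δB, hδB, hB'⟩ := hB
  obtain ⟨δP, CP, hδP, hCP, hP'⟩ := hP
  obtain ⟨hlam0, hsig0, M, E, η, d, hη, hd, hev⟩ := hS T ν u ux lt st x0 lam sig hPh hl hs
  obtain ⟨c, C, hc, hC, hG'⟩ := hG M d hd
  obtain ⟨cr, Cr, hcr, hrate⟩ := hPh.rate
  have hCr : 0 < Cr := by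
    obtain ⟨a1, a2⟩ := hrate T ⟨le_rfl, hPh.neg⟩
    have hx : 0 < (-T) ^ (-ν) := Real.rpow_pos_of_pos (by linarith [hPh.neg]) _
    have := lt_of_lt_of_le (mul_pos hcr hx) (a1.trans a2)
    exact (mul_pos_iff_of_pos_right hx).1 this
  have hI : ∀ᶠ t in 𝓝[<] (0 : ℝ), t ∈ Ioo T1 (0 : ℝ) := Ioo_mem_nhdsLT hT1n
  have hH1T : ∀ t ∈ Ioo T1 (0 : ℝ), H1T (𝓝 t) (resc u lam sig) (rescy ux lam sig)
      (resc u lam sig t) (rescy ux lam sig t) := fun t ht =>
    hH T u ux lam sig t hPh.sol (lt_of_le_of_lt hT1 ht.1) ht.2 (hmod t ht).1 (hmod t ht).2.1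
      (hmod t ht).2.2.1
  have hh1 : ∀ t ∈ Ioo T1 (0 : ℝ), IsH1 (resc u lam sig t) (rescy ux lam sig t) :=
    fun t ht => (hH1T t ht).2.1
  have horth : ∀ t ∈ Ioo T1 (0 : ℝ), ∀ᶠ z in 𝓝 t, (∫ y, resc u lam sig z y * C0 y) = 0 ∧
      (∫ y, resc u lam sig z y * Q1 y) = 0 := fun t ht => by
    filter_upwards [isOpen_Ioo.mem_nhds ht] with z hz
    exact (hmod z hz).2.2.2
  -- the coercivity bound
  have hGb : ∀ᶠ t in 𝓝[<] (0 : ℝ), c * ∫ y, rescy ux lam sig t y ^ 2 ≤ E * lam t ^ 2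
      + 2 * mu (resc u lam sig t) + C * (lam t ^ 2 / η ^ 2 + N0 (resc u lam sig t)) := by
    filter_upwards [hI, hev] with t ht hv
    have hlp := (hmod t ht).1
    have := hG' (η / lam t) _ _ (div_pos hη hlp) (hh1 t ht) hv.1 hv.2.1
    have e1 : 1 / (η / lam t) ^ 2 = lam t ^ 2 / η ^ 2 := by field_simp
    rw [e1] at this
    linarith [hv.2.2.1]
  have hmu0 : Tendsto (fun t => mu (resc u lam sig t)) (𝓝[<] 0) (𝓝 0) := by
    refine tendsto_of_sq_FinA hN ?_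
    filter_upwards [hI] with t ht
    exact mu_sq_le (hh1 t ht).1
  have hey0 : Tendsto (fun t => ∫ y, rescy ux lam sig t y ^ 2) (𝓝[<] 0) (𝓝 0) := by
    have hR : Tendsto (fun t => (E * lam t ^ 2 + 2 * mu (resc u lam sig t)
        + C * (lam t ^ 2 / η ^ 2 + N0 (resc u lam sig t))) / c) (𝓝[<] 0) (𝓝 0) := by
      have := ((((hlam0.pow 2).const_mul E).add (hmu0.const_mul 2)).add
        ((((hlam0.pow 2).div_const (η ^ 2)).add hN).const_mul C)).div_const c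
      simpa using this
    refine squeeze_zero' (Eventually.of_forall fun t => integral_nonneg fun y => sq_nonneg _) ?_ hR
    filter_upwards [hGb] with t ht
    rw [le_div_iff₀ hc]
    linarith
  have hsup : ∀ᶠ t in 𝓝[<] (0 : ℝ), ∀ y, |resc u lam sig t y| ≤ 1 := by
    have hR : Tendsto (fun t => 2 * (Real.sqrt M * Real.sqrt (∫ y, rescy ux lam sig t y ^ 2)))
        (𝓝[<] 0) (𝓝 0) := by
      have := (hey0.sqrt.const_mul (Real.sqrt M)).const_mul 2
      simpa using this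
    filter_upwards [hI, hev, hR.eventually (ge_mem_nhds one_pos)] with t ht hv hle y
    have a1 := (hh1 t ht).sq_le y
    have a2 := mul_le_mul_of_nonneg_right (Real.sqrt_le_sqrt hv.1)
      (Real.sqrt_nonneg (∫ y, rescy ux lam sig t y ^ 2))
    rw [← sq_le_one_iff_abs_le_one]
    linarith
  -- the rate
  have hk : 0 < Real.sqrt (∫ y, Q1 y ^ 2) := Real.sqrt_pos.2 integral_Q1_sq_pos
  have hlimq : Tendsto (fun t => Real.sqrt (∫ y, (Q1 y + rescy ux lam sig t y) ^ 2)) (𝓝[<] 0)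
      (𝓝 (Real.sqrt (∫ y, Q1 y ^ 2))) := by
    have b1 : L2T (𝓝[<] (0 : ℝ)) (rescy ux lam sig) (fun _ => 0) := by
      refine ⟨?_, MemLp.zero', ?_⟩
      · filter_upwards [hI] with t ht
        exact (hh1 t ht).2.1
      · simpa using hey0
    have b2 := ((L2T.const (l := 𝓝[<] (0 : ℝ)) expD_Q1.memLp).add b1).sq.tendsto_integral
    simp only [add_zero] at b2
    exact b2.sqrt
  have hrt : ∀ᶠ t in 𝓝[<] (0 : ℝ), Real.sqrt (∫ y, Q1 y ^ 2) / (2 * Cr) * (-t) ^ ν ≤ lam t ∧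
      lam t ≤ 2 * Real.sqrt (∫ y, Q1 y ^ 2) / cr * (-t) ^ ν := by
    filter_upwards [hI, hev, hlimq.eventually (le_mem_nhds (half_lt_self hk)),
      hlimq.eventually (ge_mem_nhds (lt_two_mul_self hk))] with t ht hv b1 b2
    have hlp := (hmod t ht).1
    have ht0 : 0 < -t := by linarith [ht.2]
    obtain ⟨a1, a2⟩ := hrate t ⟨hT1.trans ht.1.le, ht.2⟩
    rw [Real.rpow_neg ht0.le] at a1 a2
    rw [hv.2.2.2, Real.sqrt_mul (sq_nonneg _), Real.sqrt_sq hlp.le] at b1 b2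
    exact rate_FinA hlp (Real.rpow_pos_of_pos ht0 ν) hcr hCr a1 a2 b1 b2
  have hall := hI.and (hev.and (hGb.and (hsup.and (hrt.and
    ((hN.eventually (ge_mem_nhds hδB)).and (hN.eventually (ge_mem_nhds hδP)))))))
  obtain ⟨T2, hT2, hsub⟩ := mem_nhdsLT_iff_exists_Ioo_subset.1 hall
  have hdiff : ∀ t ∈ Ioo T2 (0 : ℝ), DifferentiableAt ℝ lam t ∧ DifferentiableAt ℝ sig t := by
    intro t ht
    obtain ⟨ht1, -, -, -, -, hb, -⟩ := hsub ht
    exact hB' T u ux lam sig t hPh.sol (lt_of_le_of_lt hT1 ht1.1) ht1.2 (hmod t ht1).1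
      (hmod t ht1).2.1 (hmod t ht1).2.2.1 (horth t ht1) hb
  have hflow : ∀ t ∈ Ioo T2 (0 : ℝ), FlowAt (resc u lam sig) (rescy ux lam sig) lam
      (fun z => -(lam z ^ 2 * deriv lam z)) (fun z => lam z ^ 2 * deriv sig z - 1)
      (lam t ^ 3)⁻¹ t := by
    intro t ht
    have ht1 := (hsub ht).1
    have hlp := (hmod t ht1).1
    have hTt := lt_of_le_of_lt hT1 ht1.1
    have d1 := (hdiff t ht).1.hasDerivAt
    have d2 := (hdiff t ht).2.hasDerivAt
    refine ⟨hH1T t ht1, hlp, ?_, horth t ht1, h0 T u ux lam sig t _ _ hPh.sol hTt ht1.2 hlp d1 d2,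
      h1 T u ux lam sig t _ _ hPh.sol hTt ht1.2 hlp d1 d2,
      h2 T u ux lam sig t _ _ hPh.sol hTt ht1.2 hlp d1 d2⟩
    have e1 : (lam t ^ 3)⁻¹ * (-(-(lam t ^ 2 * deriv lam t)) * lam t) = deriv lam t := by
      field_simp
    show HasDerivAt lam ((lam t ^ 3)⁻¹ * (-(-(lam t ^ 2 * deriv lam t)) * lam t)) t
    rw [e1]
    exact d1
  have hCe : 0 ≤ C / η ^ 2 := by positivity
  refine ⟨T2, Real.sqrt (∫ y, Q1 y ^ 2) / (2 * Cr), 2 * Real.sqrt (∫ y, Q1 y ^ 2) / cr, M, η, d,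
    CP + |E| + C / η ^ 2 + C, resc u lam sig, rescy ux lam sig, lam,
    fun z => -(lam z ^ 2 * deriv lam z), fun z => lam z ^ 2 * deriv sig z - 1, sig,
    ⟨hT2, by positivity, hη, hd, hflow, fun t ht => (hsub ht).2.2.2.2.1,
      fun t ht => (hsub ht).2.1.1, fun t ht => (hsub ht).2.1.2.1, hN, hey0, ?_, ?_⟩, ?_, hsig0⟩
  · intro t ht
    obtain ⟨ht1, -, -, hsp, -, -, hb⟩ := hsub ht
    have hlp := (hmod t ht1).1
    have a1 := hP' _ _ _ _ _ _ _ (hflow t ht) (by positivity) hsp hb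
    have a2 := N0_nonneg (resc u lam sig t)
    have a3 : 0 ≤ (|E| + C / η ^ 2 + C) * N0 (resc u lam sig t) := by positivity
    nlinarith
  · intro t ht
    obtain ⟨-, -, hg, -⟩ := hsub ht
    have a0 : 0 ≤ c * ∫ y, rescy ux lam sig t y ^ 2 :=
      mul_nonneg hc.le (integral_nonneg fun y => sq_nonneg _)
    have a2 := N0_nonneg (resc u lam sig t)
    have a3 := mul_le_mul_of_nonneg_right (le_abs_self E) (sq_nonneg (lam t))
    have a4 : C * (lam t ^ 2 / η ^ 2) = C / η ^ 2 * lam t ^ 2 := by ring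
    have a5 : 0 ≤ (2 * CP + |E| + C / η ^ 2 + 2 * C) * lam t ^ 2 := by positivity
    have a6 : 0 ≤ (2 * CP + 2 * |E| + 2 * (C / η ^ 2) + C) * N0 (resc u lam sig t) := by positivity
    nlinarith
  · intro t ht
    have hlp := (hmod t (hsub ht).1).1
    have e1 : (1 + (lam t ^ 2 * deriv sig t - 1)) / lam t ^ 2 = deriv sig t := by
      field_simp
      ring
    show HasDerivAt sig ((1 + (lam t ^ 2 * deriv sig t - 1)) / lam t ^ 2) t
    rw [e1]
    exact (hdiff t ht).2.hasDerivAt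

end Pool.Agent.MP_8339a4_an

end

section

/-! The blow-up exponent lies strictly between one third and one half. -/

open MeasureTheory Filter Topology Set

namespace Pool.Agent.MP_8339a4_an

theorem mono_FinB {f f' : ℝ → ℝ} (h : ∀ᶠ t in 𝓝[<] (0 : ℝ), HasDerivAt f (f' t) t ∧ 0 ≤ f' t) :
    ∀ᶠ s in 𝓝[<] (0 : ℝ), ∀ᶠ t in 𝓝[<] (0 : ℝ), f s ≤ f t := by
  obtain ⟨a, ha, hs⟩ := mem_nhdsLT_iff_exists_Ioo_subset.1 h
  have hm : MonotoneOn f (Ioo a 0) := by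
    refine monotoneOn_of_deriv_nonneg (convex_Ioo a 0)
      (fun t ht => (hs ht).1.continuousAt.continuousWithinAt) ?_ ?_
    · rw [interior_Ioo]
      exact fun t ht => (hs ht).1.differentiableAt.differentiableWithinAt
    · rw [interior_Ioo]
      intro t ht
      rw [(hs ht).1.deriv]
      exact (hs ht).2
  filter_upwards [Ioo_mem_nhdsLT ha] with s hs'
  filter_upwards [Ioo_mem_nhdsLT hs'.2] with t ht
  exact hm hs' ⟨hs'.1.trans ht.1, ht.2⟩ ht.1.le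

theorem small_FinB {l : Filter ℝ} {x n : ℝ → ℝ} {C : ℝ} (hn : Tendsto n l (𝓝 0))
    (h : ∀ᶠ t in l, x t ^ 2 ≤ C * n t) {ε : ℝ} (hε : 0 < ε) : ∀ᶠ t in l, |x t| < ε := by
  have h1 : Tendsto (fun t => C * n t) l (𝓝 0) := by simpa using hn.const_mul C
  filter_upwards [h, h1.eventually (gt_mem_nhds (pow_pos hε 2))] with t h2 h3
  exact abs_lt_of_sq_lt_sq (h2.trans_lt h3) hε.le

theorem finB : FinBStmt := by
  intro T1 ν c0 c1 M η d Cp e ey lam β γ sig x0 hν P hs hx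
  have hI : ∀ᶠ t in 𝓝[<] (0 : ℝ), t ∈ Ioo T1 0 := Ioo_mem_nhdsLT P.neg
  have hJ : ∀ᶠ t in 𝓝[<] (0 : ℝ), t ∈ Ioo (-1 : ℝ) 0 := Ioo_mem_nhdsLT (by norm_num)
  have hβ : ∀ ε : ℝ, 0 < ε → ∀ᶠ t in 𝓝[<] (0 : ℝ), |β t| < ε := fun ε hε =>
    small_FinB (C := Cp) P.n0 (hI.mono fun t ht => by
      nlinarith [P.par t ht, sq_nonneg (γ t)]) hε
  have hγ : ∀ ε : ℝ, 0 < ε → ∀ᶠ t in 𝓝[<] (0 : ℝ), |γ t| < ε := fun ε hε =>
    small_FinB (C := Cp) P.n0 (hI.mono fun t ht => by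
      nlinarith [P.par t ht, sq_nonneg (β t)]) hε
  have hc0 := P.hc0
  constructor
  · by_contra hcon
    have hle : ν ≤ 1 / 3 := not_lt.1 hcon
    have hid : Tendsto (fun t : ℝ => t) (𝓝[<] 0) (𝓝 0) := tendsto_id.mono_left nhdsWithin_le_nhds
    have hl0 : Tendsto lam (𝓝[<] 0) (𝓝 0) := by
      have h1 : Tendsto (fun t : ℝ => (-t) ^ ν) (𝓝[<] 0) (𝓝 0) :=
        Tendsto.rpow_const_nhds_zero (by simpa using hid.neg) hν
      have h2 : Tendsto (fun t : ℝ => c1 * (-t) ^ ν) (𝓝[<] 0) (𝓝 0) := by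
        simpa using h1.const_mul c1
      exact squeeze_zero' (hI.mono fun t ht => (P.flow t ht).pos.le)
        (hI.mono fun t ht => (P.rate t ht).2) h2
    have hε : 0 < c0 ^ 3 / 6 := by positivity
    have hm := mono_FinB (f := fun t => lam t ^ 3 + c0 ^ 3 / 2 * t)
      (f' := fun t => -3 * β t + c0 ^ 3 / 2) (by
        filter_upwards [hI, hβ _ hε] with t ht hb
        refine ⟨?_, by linarith [(abs_lt.1 hb).2]⟩
        have hp := (P.flow t ht).pos.ne'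
        have h1 := ((P.flow t ht).dlam.pow 3).add ((hasDerivAt_id t).const_mul (c0 ^ 3 / 2))
        refine h1.congr_deriv ?_
        simp only [Nat.cast_ofNat, Nat.add_one_sub_one, mul_one]
        field_simp)
    have hf : Tendsto (fun t => lam t ^ 3 + c0 ^ 3 / 2 * t) (𝓝[<] 0) (𝓝 0) := by
      simpa using (hl0.pow 3).add (hid.const_mul (c0 ^ 3 / 2))
    obtain ⟨s, hsI, hsJ, hs3⟩ := (hI.and (hJ.and hm)).exists
    have h1 : lam s ^ 3 + c0 ^ 3 / 2 * s ≤ 0 := ge_of_tendsto hf hs3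
    have hp : 0 < -s := neg_pos.2 hsI.2
    have h2 : (-s) ^ ((1 : ℝ) / 3) ≤ (-s) ^ ν :=
      Real.rpow_le_rpow_of_exponent_ge hp (by linarith [hsJ.1]) hle
    have h3 : c0 * (-s) ^ ((1 : ℝ) / 3) ≤ lam s :=
      (mul_le_mul_of_nonneg_left h2 hc0.le).trans (P.rate s hsI).1
    have h4 := pow_le_pow_left₀ (by positivity) h3 3
    have h5 : ((-s) ^ ((1 : ℝ) / 3)) ^ 3 = -s := by
      rw [← Real.rpow_natCast, ← Real.rpow_mul hp.le]
      norm_num
    rw [mul_pow, h5] at h4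
    nlinarith [mul_pos hε hp]
  · by_contra hcon
    have hle : 1 / 2 ≤ ν := not_lt.1 hcon
    obtain ⟨s0, hs0⟩ := hI.exists
    have hc1 : 0 < c1 := by
      have h1 := (P.flow s0 hs0).pos.trans_le (P.rate s0 hs0).2
      exact (mul_pos_iff_of_pos_right (Real.rpow_pos_of_pos (neg_pos.2 hs0.2) _)).1 h1
    have hk : 0 < 1 / (2 * c1 ^ 2) := by positivity
    have hm := mono_FinB (f := fun t => sig t + 1 / (2 * c1 ^ 2) * Real.log t)
      (f' := fun t => (1 + γ t) / lam t ^ 2 + 1 / (2 * c1 ^ 2) * t⁻¹) (by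
        filter_upwards [hI, hJ, hγ _ one_half_pos] with t ht htJ hg
        refine ⟨(hs t ht).add ((Real.hasDerivAt_log ht.2.ne).const_mul _), ?_⟩
        have hp : 0 < -t := neg_pos.2 ht.2
        have hl := (P.flow t ht).pos
        have h2 : (-t) ^ ν ≤ (-t) ^ ((1 : ℝ) / 2) :=
          Real.rpow_le_rpow_of_exponent_ge hp (by linarith [htJ.1]) hle
        have h3 : lam t ≤ c1 * (-t) ^ ((1 : ℝ) / 2) :=
          (P.rate t ht).2.trans (mul_le_mul_of_nonneg_left h2 hc1.le)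
        have h4 := pow_le_pow_left₀ hl.le h3 2
        have h5 : ((-t) ^ ((1 : ℝ) / 2)) ^ 2 = -t := by
          rw [← Real.rpow_natCast, ← Real.rpow_mul hp.le]
          norm_num
        rw [mul_pow, h5] at h4
        have h6 : (1 / 2) / (c1 ^ 2 * -t) ≤ (1 + γ t) / lam t ^ 2 :=
          div_le_div₀ (by linarith [(abs_lt.1 hg).1]) (by linarith [(abs_lt.1 hg).1])
            (by positivity) h4
        have h7 : 1 / (2 * c1 ^ 2) * t⁻¹ = -((1 / 2) / (c1 ^ 2 * -t)) := by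
          have := ht.2.ne
          field_simp
        linarith)
    have hl : Tendsto Real.log (𝓝[<] 0) atBot :=
      Real.tendsto_log_nhdsNE_zero.mono_left (nhdsWithin_mono _ fun t ht => ne_of_lt ht)
    have hf : Tendsto (fun t => sig t + 1 / (2 * c1 ^ 2) * Real.log t) (𝓝[<] 0) atBot :=
      hx.add_atBot (hl.const_mul_atBot hk)
    obtain ⟨s, hs3⟩ := hm.exists
    obtain ⟨t, h1, h2⟩ := (hs3.and (hf.eventually (eventually_lt_atBot _))).exists
    exact absurd h1 (not_le.2 h2)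

end Pool.Agent.MP_8339a4_an

end

section

/-! Passage from the physical time to the rescaled time. -/

open MeasureTheory Filter Topology Set

namespace Pool.Agent.MP_8339a4_an

noncomputable section

theorem mono_FinC {T1 : ℝ} {f f' : ℝ → ℝ} (hf : ∀ t ∈ Ioo T1 (0 : ℝ), HasDerivAt f (f' t) t)
    (h0 : ∀ t ∈ Ioo T1 (0 : ℝ), 0 ≤ f' t) : MonotoneOn f (Ioo T1 0) := by
  refine monotoneOn_of_deriv_nonneg (convex_Ioo T1 0)
    (fun t ht => (hf t ht).continuousAt.continuousWithinAt) ?_ ?_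
  · intro t ht
    rw [interior_Ioo] at ht
    exact (hf t ht).differentiableAt.differentiableWithinAt
  · intro t ht
    rw [interior_Ioo] at ht
    rw [(hf t ht).deriv]
    exact h0 t ht

theorem dU_FinC {p t : ℝ} (ht : t < 0) :
    HasDerivAt (fun x : ℝ => (-x) ^ (-p)) (p * (-t) ^ (-p - 1)) t := by
  have h1 : HasDerivAt (fun x : ℝ => -x) (-1) t := (hasDerivAt_id t).neg
  have h2 := h1.rpow_const (p := -p) (Or.inl (by linarith : (-t) ≠ 0))
  have e : -1 * -p * (-t) ^ (-p - 1) = p * (-t) ^ (-p - 1) := by ring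
  rw [e] at h2
  exact h2

theorem cube_FinC {ν t : ℝ} (ht : t < 0) :
    (((-t) ^ ν) ^ 3)⁻¹ = (-t) ^ (-(3 * ν - 1) - 1) := by
  have h : 0 ≤ -t := by linarith
  rw [← Real.rpow_natCast, ← Real.rpow_mul h, ← Real.rpow_neg h]
  congr 1
  push_cast
  ring

/-- The primitive of `lam^(-3)` and its two-sided bounds. -/
theorem prim_FinC {T1 ν c0 c1 : ℝ} {lam : ℝ → ℝ} (hT : T1 < 0) (hν : 1 / 3 < ν) (hc0 : 0 < c0)
    (hc : ∀ t ∈ Ioo T1 (0 : ℝ), ContinuousAt lam t)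
    (hr : ∀ t ∈ Ioo T1 (0 : ℝ), c0 * (-t) ^ ν ≤ lam t ∧ lam t ≤ c1 * (-t) ^ ν) :
    ∃ (S : ℝ → ℝ) (a b K : ℝ), 0 < a ∧ 0 < b ∧ S (T1 / 2) = 1 ∧
      (∀ t ∈ Ioo T1 (0 : ℝ), HasDerivAt S (lam t ^ 3)⁻¹ t) ∧
      ∀ t ∈ Ioo (T1 / 2) (0 : ℝ), a * (-t) ^ (-(3 * ν - 1)) - K ≤ S t ∧
        S t ≤ 1 + b * (-t) ^ (-(3 * ν - 1)) := by
  have hT2 : T1 / 2 ∈ Ioo T1 (0 : ℝ) := ⟨by linarith, by linarith⟩
  have hpw : ∀ t ∈ Ioo T1 (0 : ℝ), 0 < (-t) ^ ν := fun t ht =>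
    Real.rpow_pos_of_pos (by linarith [ht.2]) ν
  have hpos : ∀ t ∈ Ioo T1 (0 : ℝ), 0 < lam t := fun t ht =>
    lt_of_lt_of_le (mul_pos hc0 (hpw t ht)) (hr t ht).1
  have hc1 : 0 < c1 := by
    have h1 := lt_of_lt_of_le (hpos _ hT2) (hr _ hT2).2
    exact (mul_pos_iff_of_pos_right (hpw _ hT2)).1 h1
  have hg : ∀ t ∈ Ioo T1 (0 : ℝ), ContinuousAt (fun x => (lam x ^ 3)⁻¹) t := fun t ht =>
    ((hc t ht).pow 3).inv₀ (pow_pos (hpos t ht) 3).ne'
  have hgo : ContinuousOn (fun x => (lam x ^ 3)⁻¹) (Ioo T1 0) := fun t ht =>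
    (hg t ht).continuousWithinAt
  have hp : 0 < 3 * ν - 1 := by linarith
  set p := 3 * ν - 1 with hpdef
  have hS : ∀ t ∈ Ioo T1 (0 : ℝ),
      HasDerivAt (fun t => 1 + ∫ x in (T1 / 2)..t, (lam x ^ 3)⁻¹) (lam t ^ 3)⁻¹ t := by
    intro t ht
    have hi : IntervalIntegrable (fun x => (lam x ^ 3)⁻¹) volume (T1 / 2) t := by
      refine (hgo.mono ?_).intervalIntegrable
      exact (ordConnected_Ioo).uIcc_subset hT2 ht
    have hm : StronglyMeasurableAtFilter (fun x => (lam x ^ 3)⁻¹) (𝓝 t) volume :=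
      hgo.stronglyMeasurableAtFilter isOpen_Ioo t ht
    exact (intervalIntegral.integral_hasDerivAt_right hi hm (hg t ht)).const_add 1
  have hlo : ∀ t ∈ Ioo T1 (0 : ℝ), (c1 ^ 3)⁻¹ * (-t) ^ (-p - 1) ≤ (lam t ^ 3)⁻¹ := by
    intro t ht
    rw [hpdef, ← cube_FinC ht.2, ← mul_inv, ← mul_pow]
    exact inv_anti₀ (pow_pos (hpos t ht) 3) (pow_le_pow_left₀ (hpos t ht).le (hr t ht).2 3)
  have hhi : ∀ t ∈ Ioo T1 (0 : ℝ), (lam t ^ 3)⁻¹ ≤ (c0 ^ 3)⁻¹ * (-t) ^ (-p - 1) := by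
    intro t ht
    rw [hpdef, ← cube_FinC ht.2, ← mul_inv, ← mul_pow]
    have h0 := mul_pos hc0 (hpw t ht)
    exact inv_anti₀ (pow_pos h0 3) (pow_le_pow_left₀ h0.le (hr t ht).1 3)
  refine ⟨fun t => 1 + ∫ x in (T1 / 2)..t, (lam x ^ 3)⁻¹, (c1 ^ 3)⁻¹ / p, (c0 ^ 3)⁻¹ / p,
    (c1 ^ 3)⁻¹ / p * (-(T1 / 2)) ^ (-p), by positivity, by positivity, by simp, hS, ?_⟩
  intro t ht
  have ht' : t ∈ Ioo T1 (0 : ℝ) := ⟨by linarith [ht.1], ht.2⟩
  constructor
  · have hm := mono_FinC (T1 := T1)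
      (f := fun t => (1 + ∫ x in (T1 / 2)..t, (lam x ^ 3)⁻¹) - (c1 ^ 3)⁻¹ / p * (-t) ^ (-p))
      (f' := fun t => (lam t ^ 3)⁻¹ - (c1 ^ 3)⁻¹ / p * (p * (-t) ^ (-p - 1)))
      (fun t ht => (hS t ht).sub ((dU_FinC ht.2).const_mul _))
      (fun t ht => by
        have h1 := hlo t ht
        have e : (c1 ^ 3)⁻¹ / p * (p * (-t) ^ (-p - 1)) = (c1 ^ 3)⁻¹ * (-t) ^ (-p - 1) := by
          field_simp
        rw [e]
        linarith)
    have h2 := hm hT2 ht' ht.1.le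
    simp only [intervalIntegral.integral_same] at h2
    linarith
  · have hm := mono_FinC (T1 := T1)
      (f := fun t => (c0 ^ 3)⁻¹ / p * (-t) ^ (-p) - (1 + ∫ x in (T1 / 2)..t, (lam x ^ 3)⁻¹))
      (f' := fun t => (c0 ^ 3)⁻¹ / p * (p * (-t) ^ (-p - 1)) - (lam t ^ 3)⁻¹)
      (fun t ht => ((dU_FinC ht.2).const_mul _).sub (hS t ht))
      (fun t ht => by
        have h1 := hhi t ht
        have e : (c0 ^ 3)⁻¹ / p * (p * (-t) ^ (-p - 1)) = (c0 ^ 3)⁻¹ * (-t) ^ (-p - 1) := by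
          field_simp
        rw [e]
        linarith)
    have h2 := hm hT2 ht' ht.1.le
    simp only [intervalIntegral.integral_same] at h2
    have h3 : 0 ≤ (c0 ^ 3)⁻¹ / p * (-(T1 / 2)) ^ (-p) := by
      have : 0 ≤ -(T1 / 2) := by linarith
      positivity
    linarith

/-- The inverse of an increasing differentiable function that blows up at `0`. -/
theorem inv_FinC {T1 p a K : ℝ} {S g : ℝ → ℝ} (hT : T1 < 0) (hp : 0 < p) (ha : 0 < a)
    (h1 : S (T1 / 2) = 1) (hS : ∀ t ∈ Ioo T1 (0 : ℝ), HasDerivAt S (g t) t)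
    (hg : ∀ t ∈ Ioo T1 (0 : ℝ), 0 < g t)
    (hlo : ∀ t ∈ Ioo (T1 / 2) (0 : ℝ), a * (-t) ^ (-p) - K ≤ S t) :
    ∃ τ : ℝ → ℝ, (∀ s, 1 < s → τ s ∈ Ioo (T1 / 2) (0 : ℝ) ∧ S (τ s) = s ∧
      HasDerivAt τ (g (τ s))⁻¹ s) ∧ Tendsto τ atTop (𝓝[<] 0) := by
  have hT2 : T1 / 2 ∈ Ioo T1 (0 : ℝ) := ⟨by linarith, by linarith⟩
  have hsm : StrictMonoOn S (Ioo T1 0) := by
    refine strictMonoOn_of_deriv_pos (convex_Ioo T1 0)
      (fun t ht => (hS t ht).continuousAt.continuousWithinAt) ?_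
    intro t ht
    rw [interior_Ioo] at ht
    rw [(hS t ht).deriv]
    exact hg t ht
  have htop : Tendsto (fun t : ℝ => a * (-t) ^ (-p) - K) (𝓝[<] 0) atTop := by
    have h2 : Tendsto (fun t : ℝ => -t) (𝓝[<] 0) (𝓝[>] 0) := by
      have := tendsto_neg_nhdsLT (a := (0 : ℝ))
      rwa [neg_zero] at this
    have h3 := (tendsto_rpow_neg_nhdsGT_zero (y := -p) (by linarith)).comp h2
    exact tendsto_atTop_add_const_right _ (-K) (h3.const_mul_atTop ha)
  have hex : ∀ s, 1 < s → ∃ t ∈ Ioo T1 (0 : ℝ), S t = s := by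
    intro s hs
    have h4 : ∀ᶠ t in 𝓝[<] (0 : ℝ), t ∈ Ioo (T1 / 2) (0 : ℝ) := Ioo_mem_nhdsLT hT2.2
    obtain ⟨t, ht, ht2⟩ := (h4.and (htop.eventually_ge_atTop s)).exists
    have hsub : Icc (T1 / 2) t ⊆ Ioo T1 0 := fun x hx =>
      ⟨by linarith [hx.1, hT2.1], by linarith [hx.2, ht.2]⟩
    have hcont : ContinuousOn S (Icc (T1 / 2) t) := fun x hx =>
      (hS x (hsub hx)).continuousAt.continuousWithinAt
    obtain ⟨x, hx, hx2⟩ := intermediate_value_Icc ht.1.le hcont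
      (show s ∈ Icc (S (T1 / 2)) (S t) from ⟨by linarith, le_trans ht2 (hlo t ht)⟩)
    exact ⟨x, hsub hx, hx2⟩
  have hmem : ∀ s, 1 < s → Function.invFunOn S (Ioo T1 0) s ∈ Ioo T1 (0 : ℝ) := fun s hs =>
    Function.invFunOn_mem (hex s hs)
  have heq : ∀ s, 1 < s → S (Function.invFunOn S (Ioo T1 0) s) = s := fun s hs =>
    Function.invFunOn_eq (hex s hs)
  have hleft : ∀ t ∈ Ioo T1 (0 : ℝ), Function.invFunOn S (Ioo T1 0) (S t) = t := fun t ht =>
    hsm.injOn.leftInvOn_invFunOn ht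
  generalize Function.invFunOn S (Ioo T1 0) = τ at hmem heq hleft
  have hgt : ∀ t ∈ Ioo T1 (0 : ℝ), ∀ s, 1 < s → S t < s → t < τ s := by
    intro t ht s hs hlt
    rw [← heq s hs] at hlt
    exact (hsm.lt_iff_lt ht (hmem s hs)).1 hlt
  have hmem2 : ∀ s, 1 < s → τ s ∈ Ioo (T1 / 2) (0 : ℝ) := fun s hs =>
    ⟨hgt _ hT2 s hs (by linarith), (hmem s hs).2⟩
  have hmono : MonotoneOn τ (Ioi 1) := by
    intro s hs s' hs' hss
    rw [← heq s hs, ← heq s' hs'] at hss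
    exact (hsm.le_iff_le (hmem s hs) (hmem s' hs')).1 hss
  have himg : Ioo (T1 / 2) (0 : ℝ) ⊆ τ '' Ioi 1 := by
    intro t ht
    have ht' : t ∈ Ioo T1 (0 : ℝ) := ⟨by linarith [ht.1, hT2.1], ht.2⟩
    refine ⟨S t, ?_, hleft t ht'⟩
    have := hsm hT2 ht' ht.1
    rw [h1] at this
    exact this
  refine ⟨τ, fun s hs => ⟨hmem2 s hs, heq s hs, ?_⟩, ?_⟩
  · have hct : ContinuousAt τ s :=
      continuousAt_of_monotoneOn_of_image_mem_nhds hmono (Ioi_mem_nhds hs)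
        (mem_of_superset (Ioo_mem_nhds (hmem2 s hs).1 (hmem2 s hs).2) himg)
    refine HasDerivAt.of_local_left_inverse hct (hS _ (hmem s hs)) (hg _ (hmem s hs)).ne' ?_
    filter_upwards [Ioi_mem_nhds hs] with y hy using heq y hy
  · refine tendsto_nhdsWithin_iff.2 ⟨?_, ?_⟩
    · refine tendsto_order.2 ⟨fun t ht => ?_, fun t ht => ?_⟩
      · have hm : max t (T1 / 2) ∈ Ioo T1 (0 : ℝ) :=
          ⟨lt_of_lt_of_le hT2.1 (le_max_right _ _), max_lt ht hT2.2⟩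
        filter_upwards [eventually_gt_atTop 1, eventually_gt_atTop (S (max t (T1 / 2)))]
          with s hs hs2
        exact lt_of_le_of_lt (le_max_left _ _) (hgt _ hm s hs hs2)
      · filter_upwards [eventually_gt_atTop 1] with s hs
        exact lt_trans (hmem s hs).2 ht
    · filter_upwards [eventually_gt_atTop 1] with s hs
      exact (hmem s hs).2

theorem pw_FinC {ν p t s : ℝ} (ht : t < 0) (hp : 0 < p) (hs : 0 ≤ s) :
    (-t) ^ ν * s ^ (ν / p) = (s / (-t) ^ (-p)) ^ (ν / p) := by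
  have h : 0 ≤ -t := by linarith
  rw [Real.rpow_neg h, div_inv_eq_mul, Real.mul_rpow hs (Real.rpow_nonneg h p),
    ← Real.rpow_mul h, mul_comm]
  congr 2
  field_simp

theorem clock_FinC {T1 ν c0 c1 : ℝ} {lam : ℝ → ℝ} (hT : T1 < 0) (hν : 1 / 3 < ν) (hc0 : 0 < c0)
    (hc : ∀ t ∈ Ioo T1 (0 : ℝ), ContinuousAt lam t)
    (hr : ∀ t ∈ Ioo T1 (0 : ℝ), c0 * (-t) ^ ν ≤ lam t ∧ lam t ≤ c1 * (-t) ^ ν) :
    ∃ (s0 r0 r1 : ℝ) (τ : ℝ → ℝ), 1 ≤ s0 ∧ 0 < r0 ∧
      (∀ s, s0 < s → τ s ∈ Ioo T1 (0 : ℝ) ∧ HasDerivAt τ (lam (τ s) ^ 3) s ∧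
        r0 ≤ lam (τ s) * s ^ (ν / (3 * ν - 1)) ∧ lam (τ s) * s ^ (ν / (3 * ν - 1)) ≤ r1) ∧
      Tendsto τ atTop (𝓝[<] 0) := by
  obtain ⟨S, a, b, K, ha, hb, h1, hS, hbd⟩ := prim_FinC hT hν hc0 hc hr
  have hp : 0 < 3 * ν - 1 := by linarith
  have hpw : ∀ t ∈ Ioo T1 (0 : ℝ), 0 < (-t) ^ ν := fun t ht =>
    Real.rpow_pos_of_pos (by linarith [ht.2]) ν
  have hpos : ∀ t ∈ Ioo T1 (0 : ℝ), 0 < lam t := fun t ht =>
    lt_of_lt_of_le (mul_pos hc0 (hpw t ht)) (hr t ht).1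
  obtain ⟨τ, hτ, hlim⟩ := inv_FinC (g := fun t => (lam t ^ 3)⁻¹) hT hp ha h1 hS
    (fun t ht => inv_pos.2 (pow_pos (hpos t ht) 3)) (fun t ht => (hbd t ht).1)
  set p := 3 * ν - 1 with hpdef
  have hκ : 0 ≤ ν / p := div_nonneg (by linarith) hp.le
  refine ⟨max 2 K, c0 * (a / 2) ^ (ν / p), c1 * (2 * b) ^ (ν / p), τ,
    le_trans (by norm_num) (le_max_left _ _), by positivity, fun s hs => ?_, hlim⟩
  have hs2 : 2 < s := lt_of_le_of_lt (le_max_left _ _) hs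
  have hsK : K < s := lt_of_le_of_lt (le_max_right _ _) hs
  obtain ⟨hm, he, hd⟩ := hτ s (by linarith)
  have hm' : τ s ∈ Ioo T1 (0 : ℝ) := ⟨by linarith [hm.1], hm.2⟩
  have hc1 : 0 < c1 := by
    have h1 := lt_of_lt_of_le (hpos _ hm') (hr _ hm').2
    exact (mul_pos_iff_of_pos_right (hpw _ hm')).1 h1
  have hu : 0 < (-τ s) ^ (-p) := Real.rpow_pos_of_pos (by linarith [hm.2]) _
  have hb1 := (hbd _ hm).1
  have hb2 := (hbd _ hm).2
  rw [he] at hb1 hb2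
  have hq1 : a / 2 ≤ s / (-τ s) ^ (-p) := by
    rw [le_div_iff₀ hu]
    linarith
  have hq2 : s / (-τ s) ^ (-p) ≤ 2 * b := by
    rw [div_le_iff₀ hu]
    linarith
  have hsk : 0 ≤ s ^ (ν / p) := Real.rpow_nonneg (by linarith) _
  have hid := pw_FinC (ν := ν) hm.2 hp (show 0 ≤ s by linarith)
  rw [inv_inv] at hd
  refine ⟨hm', hd, ?_, ?_⟩
  · calc c0 * (a / 2) ^ (ν / p) ≤ c0 * (s / (-τ s) ^ (-p)) ^ (ν / p) :=
          mul_le_mul_of_nonneg_left (Real.rpow_le_rpow (by positivity) hq1 hκ) hc0.le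
      _ = c0 * (-τ s) ^ ν * s ^ (ν / p) := by rw [← hid, mul_assoc]
      _ ≤ _ := mul_le_mul_of_nonneg_right (hr _ hm').1 hsk
  · calc lam (τ s) * s ^ (ν / p) ≤ c1 * (-τ s) ^ ν * s ^ (ν / p) :=
          mul_le_mul_of_nonneg_right (hr _ hm').2 hsk
      _ = c1 * (s / (-τ s) ^ (-p)) ^ (ν / p) := by rw [← hid, mul_assoc]
      _ ≤ _ := mul_le_mul_of_nonneg_left
          (Real.rpow_le_rpow (le_trans (by positivity) hq1) hq2 hκ) hc1.le

theorem finC (hT : TimeStmt) : FinCStmt := by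
  intro T1 ν c0 c1 M η d Cp e ey lam β γ hν P
  obtain ⟨s0, r0, r1, τ, hs0, hr0, hτ, hlim⟩ := clock_FinC P.neg hν P.hc0
    (fun t ht => (P.flow t ht).dlam.continuousAt) P.rate
  refine ⟨s0, r0, r1, fun z => e (τ z), fun z => ey (τ z), fun z => lam (τ z), fun z => β (τ z),
    fun z => γ (τ z), hs0, hr0, P.hη, P.hd, fun s hs => ?_, fun s hs => (hτ s hs).2.2,
    fun s hs => P.mass _ (hτ s hs).1, fun s hs => P.loc _ (hτ s hs).1, P.n0.comp hlim,
    P.ey0.comp hlim, fun s hs => P.par _ (hτ s hs).1, fun s hs => P.mulo _ (hτ s hs).1⟩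
  have hf := P.flow _ (hτ s hs).1
  have h3 := pow_pos hf.pos 3
  have h := hT e ey lam β γ τ _ s _ hf (hτ s hs).2.1 h3
  rw [inv_mul_cancel₀ h3.ne'] at h
  exact h

end

end Pool.Agent.MP_8339a4_an

end
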