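import Pool.Agent.Mg.F8339a4.Ge5fdb7
import Pool.Agent.Mg.F8339a4.G1d67fe

section

/-! Step S1, tools: power bounds at large times inside a set, and Dini comparison lemmas. -/

open MeasureTheory Filter Topology Set

namespace Pool.Agent.MP_8339a4_an

/-- Large times inside the set `R`. -/
def FR (R : Set ℝ) : Filter ℝ := atTop ⊓ 𝓟 R

/-- `f = O(s^p)` at large times inside `R`. -/
def OP (R : Set ℝ) (f : ℝ → ℝ) (p : ℝ) : Prop := ∃ K : ℝ, ∀ᶠ s in FR R, |f s| ≤ K * s ^ p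

variable {R R' : Set ℝ} {P : ℝ → Prop} {f g : ℝ → ℝ} {p q r : ℝ}

theorem FR.ev (h : ∀ᶠ s in atTop, P s) : ∀ᶠ s in FR R, P s := h.filter_mono inf_le_left

theorem FR.mem (R : Set ℝ) : ∀ᶠ s in FR R, s ∈ R := mem_inf_of_right (mem_principal_self R)

theorem FR.out (h : ∀ᶠ s in FR R, P s) : ∀ᶠ s in atTop, s ∈ R → P s :=
  eventually_inf_principal.1 h

theorem FR.top (h : ∀ᶠ s in FR univ, P s) : ∀ᶠ s in atTop, P s :=
  (FR.out h).mono fun _ hs => hs (mem_univ _)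

theorem FR.gt (R : Set ℝ) (b : ℝ) : ∀ᶠ s in FR R, b < s := FR.ev (eventually_gt_atTop b)

theorem FR.of_ev (hR : ∀ᶠ s in FR R', s ∈ R) (h : ∀ᶠ s in FR R, P s) : ∀ᶠ s in FR R', P s := by
  filter_upwards [hR, FR.ev (R := R') (FR.out h)] with s h1 h2 using h2 h1

theorem OP.of_ev (h : OP R f p) (hR : ∀ᶠ s in FR R', s ∈ R) : OP R' f p := by
  obtain ⟨K, hK⟩ := h
  exact ⟨K, FR.of_ev hR hK⟩

theorem OP.ex (h : OP R f p) : ∃ K : ℝ, 0 < K ∧ ∀ᶠ s in FR R, |f s| ≤ K * s ^ p := by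
  obtain ⟨K, hK⟩ := h
  refine ⟨|K| + 1, by positivity, ?_⟩
  filter_upwards [hK, FR.gt R 0] with s h1 h2
  have := Real.rpow_pos_of_pos h2 p
  have := le_abs_self K
  nlinarith

theorem OP.pw (R : Set ℝ) (p : ℝ) : OP R (fun s => s ^ p) p := by
  refine ⟨1, ?_⟩
  filter_upwards [FR.gt R 0] with s h2
  rw [abs_of_pos (Real.rpow_pos_of_pos h2 p), one_mul]

theorem OP.const (R : Set ℝ) (k : ℝ) : OP R (fun _ => k) 0 :=
  ⟨|k|, Eventually.of_forall fun s => by simp⟩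

theorem OP.inv (R : Set ℝ) : OP R (fun s => 1 / s) (-1) := by
  refine ⟨1, ?_⟩
  filter_upwards [FR.gt R 0] with s h2
  rw [abs_of_pos (by positivity), one_mul, Real.rpow_neg_one, one_div]

theorem OP.mono (h : OP R f p) (hpq : p ≤ q) : OP R f q := by
  obtain ⟨K, hK0, hK⟩ := h.ex
  refine ⟨K, ?_⟩
  filter_upwards [hK, FR.gt R 1] with s h1 h2
  exact h1.trans (mul_le_mul_of_nonneg_left (Real.rpow_le_rpow_of_exponent_le h2.le hpq) hK0.le)

theorem OP.of_le (h : OP R g p) (H : ∀ᶠ s in FR R, |f s| ≤ g s) : OP R f p := by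
  obtain ⟨K, hK⟩ := h
  refine ⟨K, ?_⟩
  filter_upwards [hK, H] with s h1 h2
  exact h2.trans ((le_abs_self _).trans h1)

theorem OP.congr (h : OP R g p) (H : ∀ᶠ s in FR R, f s = g s) : OP R f p := by
  obtain ⟨K, hK⟩ := h
  refine ⟨K, ?_⟩
  filter_upwards [hK, H] with s h1 h2
  rwa [h2]

theorem OP.abs (h : OP R f p) : OP R (fun s => |f s|) p := by
  obtain ⟨K, hK⟩ := h
  exact ⟨K, hK.mono fun s hs => by rwa [abs_abs]⟩

theorem OP.add (h : OP R f p) (H : OP R g p) : OP R (fun s => f s + g s) p := by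
  obtain ⟨K, hK⟩ := h
  obtain ⟨L, hL⟩ := H
  refine ⟨K + L, ?_⟩
  filter_upwards [hK, hL] with s h1 h2
  have := abs_add_le (f s) (g s)
  linarith

theorem OP.sub (h : OP R f p) (H : OP R g p) : OP R (fun s => f s - g s) p := by
  obtain ⟨K, hK⟩ := h
  obtain ⟨L, hL⟩ := H
  refine ⟨K + L, ?_⟩
  filter_upwards [hK, hL] with s h1 h2
  have := abs_sub (f s) (g s)
  linarith

theorem OP.mul (h : OP R f p) (H : OP R g q) (hr : p + q ≤ r) :
    OP R (fun s => f s * g s) r := by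
  obtain ⟨K, hK0, hK⟩ := h.ex
  obtain ⟨L, hL⟩ := H
  refine OP.mono ⟨K * L, ?_⟩ hr
  filter_upwards [hK, hL, FR.gt R 0] with s h1 h2 h3
  rw [abs_mul, Real.rpow_add h3]
  have := Real.rpow_pos_of_pos h3 p
  calc |f s| * |g s| ≤ (K * s ^ p) * (L * s ^ q) :=
        mul_le_mul h1 h2 (abs_nonneg _) (by positivity)
    _ = _ := by ring

theorem OP.cmul (k : ℝ) (h : OP R f p) : OP R (fun s => k * f s) p :=
  (OP.const R k).mul h (by simp)

theorem OP.sq (h : OP R f p) (hr : 2 * p ≤ r) : OP R (fun s => f s ^ 2) r :=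
  (h.mul h (by linarith)).congr (Eventually.of_forall fun s => by ring)

theorem OP.of_sq (h : OP R g q) (H : ∀ᶠ s in FR R, f s ^ 2 ≤ g s) (hr : q ≤ 2 * p) :
    OP R f p := by
  obtain ⟨K, hK0, hK⟩ := (h.mono hr).ex
  refine ⟨Real.sqrt K, ?_⟩
  filter_upwards [hK, H, FR.gt R 0] with s h1 h2 h3
  have h4 := Real.rpow_pos_of_pos h3 p
  apply abs_le_of_sq_le_sq' _ (by positivity) |> abs_le.2
  have e : s ^ (2 * p) = (s ^ p) ^ 2 := by
    rw [← Real.rpow_natCast, ← Real.rpow_mul h3.le]; congr 1; push_cast; ring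
  rw [mul_pow, Real.sq_sqrt hK0.le, ← e]
  exact h2.trans ((le_abs_self _).trans h1)

theorem OP.sqrt (h : OP R g q) (hr : q ≤ 2 * p) : OP R (fun s => Real.sqrt (g s)) p :=
  h.abs.of_sq (Eventually.of_forall fun s => by
    rw [Real.sq_sqrt']
    exact max_le (le_abs_self _) (abs_nonneg _)) hr

theorem OP.small (h : OP R f p) (hpq : p < q) {ε : ℝ} (hε : 0 < ε) :
    ∀ᶠ s in FR R, |f s| < ε * s ^ q := by
  obtain ⟨K, hK0, hK⟩ := h.ex
  have h0 : Tendsto (fun s : ℝ => K * s ^ (-(q - p))) atTop (𝓝 (K * 0)) :=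
    (tendsto_rpow_neg_atTop (by linarith)).const_mul K
  rw [mul_zero] at h0
  filter_upwards [hK, FR.ev (h0.eventually (gt_mem_nhds hε)), FR.gt R 0] with s h1 h2 h3
  have e : s ^ p = s ^ (-(q - p)) * s ^ q := by rw [← Real.rpow_add h3]; congr 1; ring
  have h4 := Real.rpow_pos_of_pos h3 q
  calc |f s| ≤ K * s ^ p := h1
    _ = (K * s ^ (-(q - p))) * s ^ q := by rw [e]; ring
    _ < ε * s ^ q := mul_lt_mul_of_pos_right h2 h4

theorem OP.small0 (h : OP R f p) (hp : p < 0) {ε : ℝ} (hε : 0 < ε) :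
    ∀ᶠ s in FR R, |f s| < ε := by
  filter_upwards [h.small hp hε] with s hs
  simpa using hs

theorem OP.lm (R : Set ℝ) : OP R Lm (1 / 100) := OP.pw R _

theorem OP.u32 (R : Set ℝ) : OP R (fun s => s ^ (-(3 : ℝ) / 2)) (-3 / 2) := OP.pw R _

theorem OP.Lu (R : Set ℝ) : OP R (fun s => Lm s * s ^ (-(3 : ℝ) / 2)) (-149 / 100) :=
  (OP.lm R).mul (OP.u32 R) (by norm_num)

/-! ### Dini lemmas -/

theorem dini_abs_s1 {s k : ℝ} (h : HasDerivAt f k s) : DiniLe (fun z => |f z|) s |k| := by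
  intro r hr
  have h1 : Tendsto (fun z => |slope f s z|) (𝓝[>] s) (𝓝 |k|) :=
    ((hasDerivAt_iff_tendsto_slope.1 h).mono_left (nhdsGT_le_nhdsNE s)).abs
  filter_upwards [h1.eventually (gt_mem_nhds hr), self_mem_nhdsWithin] with z h2 h3
  have h4 : 0 < z - s := sub_pos.2 h3
  refine lt_of_le_of_lt ?_ h2
  rw [slope_def_field, slope_def_field, abs_div, abs_of_pos h4]
  exact div_le_div_of_nonneg_right (abs_sub_abs_le_abs_sub _ _) h4.le

theorem dini_const_s1 {a b k : ℝ} (hab : a ≤ b) (hf : ∀ x ∈ Icc a b, ContinuousAt f x)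
    (h : ∀ x ∈ Ico a b, DiniLe f x k) : f b - f a ≤ k * (b - a) := by
  have := dini_le_integral (g := fun _ => k) hab
    (fun x hx => (hf x hx).continuousWithinAt) continuousOn_const h
  simpa [mul_comm] using this

theorem dini_bdd_s1 (h : ∀ᶠ s in atTop, ContinuousAt f s ∧ DiniLe f s 0) :
    ∃ K, ∀ᶠ s in atTop, f s ≤ K := by
  obtain ⟨S, hS⟩ := eventually_atTop.1 h
  refine ⟨f S, ?_⟩
  filter_upwards [eventually_ge_atTop S] with s hs
  have := dini_const_s1 hs (fun x hx => (hS x hx.1).1) (fun x hx => (hS x hx.1).2)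
  linarith

theorem dini_drop_s1 {δ : ℝ} (hδ : 0 < δ) (hp : p ≤ 0)
    (h : ∀ᶠ s in atTop, ContinuousAt f s ∧ DiniLe f s (-(δ * s ^ p)))
    (hf : OP univ f q) (hq : q < p + 1) : False := by
  obtain ⟨S, hS⟩ := eventually_atTop.1 h
  obtain ⟨K, hK0, hK⟩ := hf.ex
  obtain ⟨T, hT⟩ := eventually_atTop.1 (FR.top hK)
  have h2 : (0 : ℝ) < δ * 2 ^ p := by positivity
  have h3 := FR.top ((OP.cmul (K * (1 + 2 ^ q)) (OP.pw univ q)).small hq h2)
  obtain ⟨s, ⟨h4, h5⟩, h6, h7⟩ := ((h3.and (eventually_ge_atTop S)).and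
    ((eventually_ge_atTop T).and (eventually_gt_atTop 0))).exists
  have h8 := dini_const_s1 (k := -(δ * (2 * s) ^ p)) (by linarith : s ≤ 2 * s)
    (fun x hx => (hS x (h5.trans hx.1)).1) (fun x hx => (hS x (h5.trans hx.1)).2.mono (by
      have : (2 * s) ^ p ≤ x ^ p :=
        Real.rpow_le_rpow_of_nonpos (h7.trans_le hx.1) hx.2.le hp
      nlinarith))
  have h9 := hT s h6
  have h10 := hT (2 * s) (by linarith)
  rw [Real.mul_rpow (by norm_num) h7.le] at h8 h10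
  rw [Real.rpow_add h7, Real.rpow_one] at h4
  have := le_abs_self (K * (1 + 2 ^ q) * s ^ q)
  have := le_abs_self (f s)
  have := neg_abs_le (f (2 * s))
  nlinarith

theorem dini_right_s1 {s k : ℝ} (hc : ContinuousAt f s) (h0 : f s ≤ 0) (hk : k < 0)
    (h : DiniLe f s k) : ∀ᶠ z in 𝓝[>] s, f z ≤ 0 := by
  filter_upwards [h 0 hk, self_mem_nhdsWithin] with z h2 h3
  have h4 : 0 < z - s := sub_pos.2 h3
  rw [slope_def_field, div_lt_iff₀ h4] at h2
  linarith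

theorem region_s1 (hc : ∀ᶠ s in atTop, ContinuousAt f s ∧ ContinuousAt g s)
    (hfr : ∃ᶠ s in atTop, f s ≤ 0 ∧ g s ≤ 0)
    (hd : ∀ᶠ s in atTop, f s ≤ 0 ∧ g s ≤ 0 →
      (f s = 0 → ∃ k < 0, DiniLe f s k) ∧ (g s = 0 → ∃ k < 0, DiniLe g s k)) :
    ∀ᶠ s in atTop, f s ≤ 0 ∧ g s ≤ 0 := by
  obtain ⟨S, hS⟩ := eventually_atTop.1 (hc.and hd)
  obtain ⟨a, ha, h0⟩ := frequently_atTop.1 hfr S
  filter_upwards [eventually_ge_atTop a] with b hb
  have key : ∀ {u : ℝ → ℝ} {x : ℝ}, ContinuousAt u x → u x ≤ 0 →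
      (u x = 0 → ∃ k < 0, DiniLe u x k) → ∀ᶠ z in 𝓝[>] x, u z ≤ 0 := by
    intro u x h1 h2 h3
    rcases h2.lt_or_eq with h4 | h4
    · exact mem_nhdsWithin_of_mem_nhds ((h1.eventually (gt_mem_nhds h4)).mono fun z hz => hz.le)
    · obtain ⟨k, hk, h5⟩ := h3 h4
      exact dini_right_s1 h1 h2 hk h5
  have hcl : IsClosed ({x | f x ≤ 0 ∧ g x ≤ 0} ∩ Icc a b) := by
    have c1 : ContinuousOn f (Icc a b) := fun x hx =>
      (hS x (ha.trans hx.1)).1.1.continuousWithinAt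
    have c2 : ContinuousOn g (Icc a b) := fun x hx =>
      (hS x (ha.trans hx.1)).1.2.continuousWithinAt
    have := (c1.preimage_isClosed_of_isClosed isClosed_Icc (isClosed_Iic (a := (0 : ℝ)))).inter
      (c2.preimage_isClosed_of_isClosed isClosed_Icc (isClosed_Iic (a := (0 : ℝ))))
    convert this using 1
    ext x
    simp only [mem_inter_iff, mem_setOf_eq, mem_preimage, mem_Iic]
    tauto
  refine hcl.Icc_subset_of_forall_mem_nhdsWithin h0 (fun x hx => ?_) (right_mem_Icc.2 hb)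
  obtain ⟨⟨c1, c2⟩, h3⟩ := hS x (ha.trans hx.2.1)
  exact (key c1 hx.1.1 (h3 hx.1).1).and (key c2 hx.1.2 (h3 hx.1).2)

/-- A bounded function cannot decrease at rate `δ / s`. -/
theorem dini_log_s1 {δ : ℝ} (hδ : 0 < δ) (hf : OP univ f 0)
    (h : ∀ᶠ s in atTop, ∃ k, HasDerivAt f k s ∧ k ≤ -(δ * (1 / s))) : False := by
  obtain ⟨K, hK⟩ := hf
  obtain ⟨L, hL⟩ := dini_bdd_s1 (f := fun s => f s + δ * Real.log s) (by
    filter_upwards [h, eventually_gt_atTop 0] with s ⟨k, h1, h2⟩ h3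
    have h4 := h1.add ((Real.hasDerivAt_log h3.ne').const_mul δ)
    refine ⟨h4.continuousAt, (DiniLe.of_hasDerivAt h4).mono ?_⟩
    rw [one_div] at h2
    linarith)
  have h5 := (Real.tendsto_log_atTop.const_mul_atTop hδ).eventually_gt_atTop (K + L)
  obtain ⟨s, h6, h7, h8⟩ := ((FR.top hK).and (hL.and h5)).exists
  rw [Real.rpow_zero, mul_one] at h6
  have := neg_abs_le (f s)
  linarith

/-- The hypotheses of step S1. -/
structure S1H (κ m c C r0 r1 s1 v : ℝ) (lam β μ D a aL JR JL M Φ : ℝ → ℝ) : Prop where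
  hκ : 3 / 2 ≤ κ
  hm : m ≠ 0
  hc : 0 < c
  hr0 : 0 < r0
  hs1 : 1 ≤ s1
  hlam : ∀ s, s1 < s →
    HasDerivAt lam (-(β s) * lam s) s ∧ r0 ≤ lam s * s ^ κ ∧ lam s * s ^ κ ≤ r1
  hD : ∀ s, s1 < s → ContinuousAt D s ∧ 0 ≤ D s ∧ D s ≤ C * Lm s ∧ β s ^ 2 ≤ C * D s
  hμ0 : Tendsto μ atTop (𝓝 0)
  hμ : ∀ s, s1 < s → (∃ μ' : ℝ, HasDerivAt μ μ' s ∧ |μ'| ≤ C * D s) ∧
    -(C * (D s + s ^ (-(3 : ℝ) / 2))) ≤ μ s
  ha : ∀ s, s1 < s → (∃ a' : ℝ, HasDerivAt a a' s ∧ |a'| ≤ C * (D s + s ^ (-(3 : ℝ) / 2))) ∧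
    a s ^ 2 ≤ C * lam s
  hv : Tendsto (fun s => (a s / Real.sqrt (lam s) - v) * s ^ ((κ - 1) / 2)) atTop (𝓝 0)
  hJ : ∀ s, s1 < s → JR s ^ 2 + JL s ^ 2 ≤ C * (Lm s * D s) ∧
    |M s - 2 * μ s| ≤ C * (Lm s * D s + s ^ (-(3 : ℝ) / 2))
  hΦ : ∀ s, s1 < s → ContinuousAt Φ s ∧ c * D s - C * (Lm s * s ^ (-(3 : ℝ) / 2)) ≤ Φ s ∧
    Φ s ≤ C * (D s + Lm s * s ^ (-(3 : ℝ) / 2)) ∧
    DiniLe Φ s (-(c * D s) + C * (μ s ^ 2 + Lm s * s ^ (-(3 : ℝ) / 2)))
  hR : ∀ s, s1 < s → ∃ J' : ℝ, HasDerivAt JR J' s ∧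
    |J' - (2 * μ s - m ^ 2 / 2 * β s + m * a s + β s * JR s / 2)|
      ≤ C * (D s + s ^ (-(3 : ℝ) / 2))
  hL : ∀ s, s1 < s → ∃ J' : ℝ, HasDerivAt JL J' s ∧
    |J' - (2 * μ s + m ^ 2 / 2 * β s + m * aL s)| ≤ C * (Lm s * D s + s ^ (-(3 : ℝ) / 2))
  hM : ∀ s, s1 < s → ∃ M' : ℝ, HasDerivAt M M' s ∧ ∀ ω : ℝ,
    M' ≤ a s ^ 2 + ω ^ 2 - 2 * ω * aL s + C * (s ^ (-(9 : ℝ) / 4)
      + Lm s * ((Real.sqrt (D s) + 1 / s) * (D s + s ^ (-(3 : ℝ) / 2)) + D s ^ 2))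

variable {κ m c C r0 r1 s1 v : ℝ} {lam β μ D a aL JR JL M Φ : ℝ → ℝ}
  (H : S1H κ m c C r0 r1 s1 v lam β μ D a aL JR JL M Φ)
include H

theorem S1H.pos {s : ℝ} (hs : s1 < s) : 0 < s := by linarith [H.hs1]

theorem S1H.Lm_pos {s : ℝ} (hs : s1 < s) : 0 < Lm s := Real.rpow_pos_of_pos (H.pos hs) _

theorem S1H.u_pos {s : ℝ} (hs : s1 < s) : 0 < s ^ (-(3 : ℝ) / 2) :=
  Real.rpow_pos_of_pos (H.pos hs) _

theorem S1H.C0 : 0 ≤ C := by
  have hs : s1 < s1 + 1 := by linarith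
  obtain ⟨-, h1, h2, -⟩ := H.hD _ hs
  exact nonneg_of_mul_nonneg_left (h1.trans h2) (H.Lm_pos hs)

theorem S1H.lam_pos {s : ℝ} (hs : s1 < s) : 0 < lam s :=
  (mul_pos_iff_of_pos_right (Real.rpow_pos_of_pos (H.pos hs) κ)).1
    (H.hr0.trans_le (H.hlam s hs).2.1)

theorem S1H.Olam (R : Set ℝ) : OP R lam (-κ) := by
  refine ⟨r1, ?_⟩
  filter_upwards [FR.gt R s1] with s hs
  have h1 := Real.rpow_pos_of_pos (H.pos hs) κ
  rw [abs_of_pos (H.lam_pos hs), Real.rpow_neg (H.pos hs).le, ← div_eq_mul_inv, le_div_iff₀ h1]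
  exact (H.hlam s hs).2.2

theorem S1H.Oinv (R : Set ℝ) : OP R (fun s => (lam s)⁻¹) κ := by
  refine ⟨r0⁻¹, ?_⟩
  filter_upwards [FR.gt R s1] with s hs
  have h1 := H.lam_pos hs
  have h2 := (H.hlam s hs).2.1
  have h3 := H.hr0
  rw [abs_of_pos (inv_pos.2 h1), ← div_eq_inv_mul, le_div_iff₀ h3, ← div_eq_inv_mul,
    div_le_iff₀ h1]
  linarith

theorem S1H.Oa (R : Set ℝ) : OP R a (-3 / 4) :=
  (OP.cmul C (H.Olam R)).of_sq ((FR.gt R s1).mono fun s hs => (H.ha s hs).2)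
    (by linarith [H.hκ])

theorem S1H.OD (R : Set ℝ) : OP R D (1 / 100) :=
  (OP.cmul C (OP.lm R)).of_le ((FR.gt R s1).mono fun s hs => by
    rw [abs_of_nonneg (H.hD s hs).2.1]; exact (H.hD s hs).2.2.1)

theorem S1H.OJR (hD : OP R D p) (hq : 1 / 100 + p ≤ 2 * q) : OP R JR q :=
  (OP.cmul C ((OP.lm R).mul hD le_rfl)).of_sq ((FR.gt R s1).mono fun s hs => by
    nlinarith [(H.hJ s hs).1, sq_nonneg (JL s)]) hq

theorem S1H.OJL (hD : OP R D p) (hq : 1 / 100 + p ≤ 2 * q) : OP R JL q :=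
  (OP.cmul C ((OP.lm R).mul hD le_rfl)).of_sq ((FR.gt R s1).mono fun s hs => by
    nlinarith [(H.hJ s hs).1, sq_nonneg (JR s)]) hq

theorem S1H.Oβ (hD : OP R D p) (hq : p ≤ 2 * q) : OP R β q :=
  (OP.cmul C hD).of_sq ((FR.gt R s1).mono fun s hs => (H.hD s hs).2.2.2) hq

end Pool.Agent.MP_8339a4_an

end

section

/-! Step S1: there are arbitrarily large times where `Φ` and `μ` are small. -/

open MeasureTheory Filter Topology Set

namespace Pool.Agent.MP_8339a4_an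

variable {κ m c C r0 r1 s1 v : ℝ} {lam β μ D a aL JR JL M Φ : ℝ → ℝ}
  (H : S1H κ m c C r0 r1 s1 v lam β μ D a aL JR JL M Φ)
include H

theorem S1H.rho_deriv {s : ℝ} (hs : s1 < s) :
    HasDerivAt (fun z => Real.sqrt (lam z * z ^ κ))
      (Real.sqrt (lam s * s ^ κ) * (-(β s) / 2 + κ / 2 * (1 / s))) s := by
  have h0 := H.pos hs
  have h1 := H.hr0.trans_le (H.hlam s hs).2.1
  have h2 := ((H.hlam s hs).1.fun_mul
    (Real.hasDerivAt_rpow_const (p := κ) (Or.inl h0.ne'))).sqrt h1.ne'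
  refine h2.congr_deriv (Eq.symm ?_)
  have h3 := Real.sqrt_pos.2 h1
  have h4 := Real.mul_self_sqrt h1.le
  rw [Real.rpow_sub_one h0.ne', eq_div_iff (by positivity)]
  calc _ = (Real.sqrt (lam s * s ^ κ) * Real.sqrt (lam s * s ^ κ)) * (-(β s) + κ * (1 / s)) := by
        ring
    _ = _ := by rw [h4]; field_simp

theorem S1H.OΦ : OP univ Φ (1 / 100) := by
  have hC := H.C0
  refine (OP.cmul C ((H.OD univ).add ((OP.Lu univ).mono (by norm_num)))).of_le ?_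
  filter_upwards [FR.gt univ s1] with s hs
  obtain ⟨-, h1, h2, -⟩ := H.hΦ s hs
  have h3 := (H.hD s hs).2.1
  have h4 := H.hc
  rw [abs_le]
  constructor <;> nlinarith [mul_nonneg hC h3, mul_nonneg h4.le h3]

theorem S1H.step1 : ∃ᶠ s in atTop, D s + |μ s| ≤ s ^ (-(149 : ℝ) / 200) := by
  by_contra hcon
  rw [not_frequently] at hcon
  have hC := H.C0
  have hc := H.hc
  have hq0 : 0 < Real.sqrt r0 := Real.sqrt_pos.2 H.hr0
  have hq1 : 0 ≤ Real.sqrt r1 := Real.sqrt_nonneg _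
  obtain ⟨ε, hε, hε1⟩ : ∃ ε : ℝ, 0 < ε ∧ 5 * ε * Real.sqrt r1 * C ≤ c / 2 := by
    refine ⟨c / (10 * (Real.sqrt r1 * C + 1)), by positivity, ?_⟩
    have : 0 < Real.sqrt r1 * C + 1 := by positivity
    calc 5 * (c / (10 * (Real.sqrt r1 * C + 1))) * Real.sqrt r1 * C
        = c / 2 * (Real.sqrt r1 * C / (Real.sqrt r1 * C + 1)) := by field_simp; ring
      _ ≤ c / 2 * 1 := by
        gcongr
        rw [div_le_one this]; linarith
      _ = c / 2 := mul_one _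
  have hc3 : 0 < min (c / 2) (ε * Real.sqrt r0) := lt_min (by positivity) (by positivity)
  have hJ : OP univ JR (1 / 100) := H.OJR (H.OD univ) (by norm_num)
  have hJ' : OP univ (fun s => JR s - m ^ 2) (1 / 100) :=
    hJ.sub ((OP.const univ _).mono (by norm_num))
  have hρ : OP univ (fun s => Real.sqrt (lam s * s ^ κ)) 0 :=
    ((H.Olam univ).mul (OP.pw univ κ) (r := 0) (by simp)).sqrt (by simp)
  have hX : OP univ (fun s => m * a s + κ / 2 * (1 / s * (JR s - m ^ 2))) (-3 / 4) :=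
    (OP.cmul m (H.Oa univ)).add (OP.cmul _ ((OP.inv univ).mul hJ' (by norm_num)))
  have hE : OP univ (fun s => C * (Lm s * s ^ (-(3 : ℝ) / 2))
      + 5 * ε * Real.sqrt r1 * C * s ^ (-(3 : ℝ) / 2)
      + ε * Real.sqrt r1 * |m * a s + κ / 2 * (1 / s * (JR s - m ^ 2))|) (-3 / 4) :=
    ((OP.cmul C ((OP.Lu univ).mono (by norm_num))).add
      (OP.cmul _ ((OP.u32 univ).mono (by norm_num)))).add (OP.cmul _ hX.abs)
  have hμ : ∀ᶠ s in atTop, C * |μ s| < ε * Real.sqrt r0 := by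
    have := (H.hμ0.abs.const_mul C).eventually (gt_mem_nhds (a := ε * Real.sqrt r0) (by
      simp only [abs_zero, mul_zero]; positivity))
    exact this
  refine dini_drop_s1 (f := fun s => Φ s - ε * (Real.sqrt (lam s * s ^ κ) * (JR s - m ^ 2)))
    (half_pos hc3) (p := -(149 : ℝ) / 200) (by norm_num) ?_
    (H.OΦ.sub (OP.cmul ε (hρ.mul hJ' (by norm_num)))) (by norm_num)
  filter_upwards [hcon, hμ, eventually_gt_atTop s1,
    FR.top (hE.small (q := -(149 : ℝ) / 200) (by norm_num) (half_pos hc3))] with s h1 h2 hs h3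
  obtain ⟨J', hJd, hJe⟩ := H.hR s hs
  obtain ⟨hΦc, -, -, hΦd⟩ := H.hΦ s hs
  have hY := ((H.rho_deriv hs).mul (hJd.sub_const (m ^ 2))).const_mul ε
  refine ⟨hΦc.sub hY.continuousAt, (hΦd.sub_hasDerivAt hY).mono ?_⟩
  have hρ0 : Real.sqrt r0 ≤ Real.sqrt (lam s * s ^ κ) := Real.sqrt_le_sqrt (H.hlam s hs).2.1
  have hρ1 : Real.sqrt (lam s * s ^ κ) ≤ Real.sqrt r1 := Real.sqrt_le_sqrt (H.hlam s hs).2.2
  have hD0 := (H.hD s hs).2.1
  have hu := H.u_pos hs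
  have hμl := (H.hμ s hs).2
  have h4 := (le_abs_self _).trans h3.le
  push Not at h1
  set ρ := Real.sqrt (lam s * s ^ κ)
  set u := s ^ (-(3 : ℝ) / 2)
  set X := m * a s + κ / 2 * (1 / s * (JR s - m ^ 2)) with hXd
  set e := J' - (2 * μ s - m ^ 2 / 2 * β s + m * a s + β s * JR s / 2) with he
  set w := s ^ (-(149 : ℝ) / 200)
  set k := min (c / 2) (ε * Real.sqrt r0)
  have e1 : ρ * (-(β s) / 2 + κ / 2 * (1 / s)) * (JR s - m ^ 2) + ρ * J'
      = ρ * (2 * μ s + e + X) := by rw [he, hXd]; ring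
  have hDu : 0 ≤ C * (D s + u) := by positivity
  have h5 : -(2 * μ s + e + X) ≤ -(2 * |μ s|) + (5 * (C * (D s + u)) + |X|) := by
    have := neg_abs_le e
    have := neg_abs_le X
    rcases abs_cases (μ s) with h | h <;> linarith [h.1]
  have h6 : -(ρ * (2 * μ s + e + X))
      ≤ -(2 * Real.sqrt r0 * |μ s|) + Real.sqrt r1 * (5 * (C * (D s + u)) + |X|) := by
    have a1 := mul_le_mul_of_nonneg_left h5 (hq0.le.trans hρ0)
    have a2 := mul_le_mul_of_nonneg_right hρ0 (abs_nonneg (μ s))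
    have a3 := mul_le_mul_of_nonneg_right hρ1
      (by positivity : 0 ≤ 5 * (C * (D s + u)) + |X|)
    linarith
  have h7 := mul_le_mul_of_nonneg_left h6 hε.le
  have h8 : C * μ s ^ 2 ≤ ε * Real.sqrt r0 * |μ s| := by
    rw [← sq_abs]; nlinarith [abs_nonneg (μ s)]
  have h9 := mul_le_mul_of_nonneg_right hε1 hD0
  have h10 : k * D s ≤ c / 2 * D s := mul_le_mul_of_nonneg_right (min_le_left _ _) hD0
  have h11 : k * |μ s| ≤ ε * Real.sqrt r0 * |μ s| :=
    mul_le_mul_of_nonneg_right (min_le_right _ _) (abs_nonneg _)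
  have h12 := mul_le_mul_of_nonneg_left h1.le hc3.le
  rw [e1]
  linarith

theorem S1H.part1 :
    ∃ᶠ s in atTop, Φ s ≤ s ^ (-(7 : ℝ) / 5) ∧ |μ s| ≤ s ^ (-(73 : ℝ) / 100) := by
  by_contra hcon
  rw [not_frequently] at hcon
  have hC := H.C0
  have hc := H.hc
  obtain ⟨δ, hδ, hδ1⟩ : ∃ δ : ℝ, 0 < δ ∧ δ * (C + 1) = c / 2 :=
    ⟨c / 2 / (C + 1), by positivity, by field_simp⟩
  set G : ℝ → ℝ := fun s => Φ s + δ * |μ s| with hG
  set R : Set ℝ := {s | G s - s ^ (-(37 : ℝ) / 50) ≤ 0} with hR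
  have hGl : ∀ s, s1 < s → δ * |μ s| - C * (Lm s * s ^ (-(3 : ℝ) / 2)) ≤ G s := fun s hs => by
    have := (H.hΦ s hs).2.1
    have := mul_nonneg hc.le (H.hD s hs).2.1
    simp only [hG]; linarith
  have hLu : ∀ S : Set ℝ, OP S (fun s => s ^ (-(37 : ℝ) / 50)
      + C * (Lm s * s ^ (-(3 : ℝ) / 2))) (-37 / 50) := fun S =>
    (OP.pw S _).add (OP.cmul C ((OP.Lu S).mono (by norm_num)))
  have hμ : OP R μ (-37 / 50) := by
    refine (OP.cmul δ⁻¹ (hLu R)).of_le ?_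
    filter_upwards [FR.mem R, FR.gt R s1] with s h1 hs
    have h2 := hGl s hs
    rw [← div_eq_inv_mul, le_div_iff₀ hδ]
    simp only [hR, mem_setOf_eq] at h1
    linarith
  have hE : OP R (fun s => δ * C * (Lm s * s ^ (-(3 : ℝ) / 2))
      + C * (μ s ^ 2 + Lm s * s ^ (-(3 : ℝ) / 2))) (-37 / 25) :=
    (OP.cmul _ ((OP.Lu R).mono (by norm_num))).add
      (OP.cmul C ((hμ.sq (by norm_num)).add ((OP.Lu R).mono (by norm_num))))
  have hGc : ∀ s, s1 < s → ContinuousAt G s := fun s hs => by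
    obtain ⟨⟨μ', h1, -⟩, -⟩ := H.hμ s hs
    exact (H.hΦ s hs).1.add (continuousAt_const.mul h1.continuousAt.abs)
  have hGd : ∀ᶠ s in FR R, DiniLe G s (-(δ / 2 * s ^ (-(7 : ℝ) / 5))) := by
    filter_upwards [FR.ev hcon, FR.gt R s1, hμ.small (q := -(73 : ℝ) / 100) (by norm_num) one_pos,
      hE.small (q := -(7 : ℝ) / 5) (by norm_num) (half_pos hδ)] with s h1 hs h2 h3
    obtain ⟨⟨μ', h4, h5⟩, -⟩ := H.hμ s hs
    obtain ⟨-, -, h6, h7⟩ := H.hΦ s hs
    have h8 : s ^ (-(7 : ℝ) / 5) < Φ s := by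
      by_contra h
      exact h1 ⟨not_lt.1 h, by linarith⟩
    have h9 := dini_abs_s1 (h4.const_mul δ)
    have h10 := (h7.add h9).congr (g := G) (Eventually.of_forall fun z => by
      simp only [hG, abs_mul, abs_of_pos hδ])
    refine h10.mono ?_
    rw [abs_mul, abs_of_pos hδ]
    have hD0 := (H.hD s hs).2.1
    have h11 := mul_le_mul_of_nonneg_left h5 hδ.le
    have h12 := mul_le_mul_of_nonneg_left (h8.le.trans h6) hδ.le
    have h13 := (le_abs_self _).trans h3.le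
    have h14 : δ * (C + 1) * D s = c / 2 * D s := by rw [hδ1]
    have h15 := mul_nonneg hδ.le hD0
    linarith
  have hpw : ∀ s, s1 < s → HasDerivAt (fun z : ℝ => z ^ (-(37 : ℝ) / 50))
      (-(37 : ℝ) / 50 * s ^ (-(37 : ℝ) / 50 - 1)) s := fun s hs =>
    Real.hasDerivAt_rpow_const (Or.inl (H.pos hs).ne')
  have hfr : ∃ᶠ s in atTop, s ∈ R := by
    set R1 : Set ℝ := {s | D s + |μ s| ≤ s ^ (-(149 : ℝ) / 200)} with hR1
    have h1 : OP R1 (fun s => (C + δ) * s ^ (-(149 : ℝ) / 200)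
        + C * (Lm s * s ^ (-(3 : ℝ) / 2))) (-149 / 200) :=
      (OP.cmul _ (OP.pw R1 _)).add (OP.cmul C ((OP.Lu R1).mono (by norm_num)))
    have h2 : ∀ᶠ s in FR R1, s ∈ R := by
      filter_upwards [FR.mem R1, FR.gt R1 s1,
        h1.small (q := -(37 : ℝ) / 50) (by norm_num) one_pos] with s h3 hs h4
      have h5 := (H.hΦ s hs).2.2.1
      have hD0 := (H.hD s hs).2.1
      simp only [hR1, mem_setOf_eq] at h3
      have h6 := mul_le_mul_of_nonneg_left h3 (add_nonneg hC hδ.le)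
      have h7 := (le_abs_self _).trans h4.le
      have h8 := mul_nonneg hδ.le hD0
      have h9 := mul_nonneg hC (abs_nonneg (μ s))
      simp only [hR, hG, mem_setOf_eq]
      linarith
    exact (H.step1.and_eventually (FR.out h2)).mono fun s hs => hs.2 hs.1
  have hd : ∀ᶠ s in FR R, ∃ k < 0, DiniLe (fun z => G z - z ^ (-(37 : ℝ) / 50)) s k := by
    filter_upwards [hGd, FR.gt R s1, (OP.cmul (-(37 : ℝ) / 50) (OP.pw R (-(37 : ℝ) / 50 - 1))).small
      (q := -(7 : ℝ) / 5) (by norm_num) (half_pos hδ)] with s h1 hs h2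
    refine ⟨_, ?_, h1.sub_hasDerivAt (hpw s hs)⟩
    have := neg_abs_le (-(37 : ℝ) / 50 * s ^ (-(37 : ℝ) / 50 - 1))
    linarith
  have hall : ∀ᶠ s in atTop, s ∈ R := by
    have := region_s1 (f := fun z => G z - z ^ (-(37 : ℝ) / 50))
      (g := fun z => G z - z ^ (-(37 : ℝ) / 50))
      ((eventually_gt_atTop s1).mono fun s hs =>
        ⟨(hGc s hs).sub (hpw s hs).continuousAt, (hGc s hs).sub (hpw s hs).continuousAt⟩)
      (hfr.mono fun s hs => ⟨hs, hs⟩)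
      ((FR.out hd).mono fun s hs h => ⟨fun _ => hs h.1, fun _ => hs h.1⟩)
    exact this.mono fun s hs => hs.1
  have hGO : OP univ G (-37 / 50) := by
    refine (hLu univ).of_le ?_
    filter_upwards [FR.ev hall, FR.gt univ s1] with s h1 hs
    have h2 := hGl s hs
    have h3 := mul_nonneg hδ.le (abs_nonneg (μ s))
    have h4 := mul_nonneg hC (mul_pos (H.Lm_pos hs) (H.u_pos hs)).le
    have h5 := Real.rpow_pos_of_pos (H.pos hs) (-(37 : ℝ) / 50)
    simp only [hR, mem_setOf_eq] at h1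
    rw [abs_le]
    constructor <;> linarith
  refine dini_drop_s1 (half_pos hδ) (p := -(7 : ℝ) / 5) (by norm_num) ?_ hGO (by norm_num)
  filter_upwards [hall, FR.out hGd, eventually_gt_atTop s1] with s h1 h2 hs
  exact ⟨hGc s hs, h2 h1⟩

end Pool.Agent.MP_8339a4_an

end

section

/-! Step S1: the invariant region, and the decay of `D` and `μ`. -/

open MeasureTheory Filter Topology Set

namespace Pool.Agent.MP_8339a4_an

/-- The corrected mass quantity. -/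
noncomputable def ThS (m : ℝ) (μ a JR JL M : ℝ → ℝ) (s : ℝ) : ℝ :=
  M s - 2 / m * (a s * (JL s + JR s)) - 8 / m ^ 2 * (μ s * JL s)

variable {κ m c C r0 r1 s1 v p : ℝ} {lam β μ D a aL JR JL M Φ : ℝ → ℝ} {R : Set ℝ}
  (H : S1H κ m c C r0 r1 s1 v lam β μ D a aL JR JL M Φ)
include H

theorem S1H.OD_of (h : ∀ᶠ s in FR R, Φ s ≤ s ^ (-(7 : ℝ) / 5)) : OP R D (-7 / 5) := by
  refine (OP.cmul c⁻¹ ((OP.pw R (-(7 : ℝ) / 5)).add
    (OP.cmul C ((OP.Lu R).mono (by norm_num))))).of_le ?_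
  filter_upwards [h, FR.gt R s1] with s h1 hs
  rw [abs_of_nonneg (H.hD s hs).2.1, ← div_eq_inv_mul, le_div_iff₀ H.hc]
  linarith [(H.hΦ s hs).2.1]

omit H in
theorem ODu_s1 (hD : OP R D (-7 / 5)) :
    OP R (fun s => C * (D s + s ^ (-(3 : ℝ) / 2))) (-7 / 5) :=
  OP.cmul C (hD.add ((OP.u32 R).mono (by norm_num)))

omit H in
theorem OLDu_s1 (hD : OP R D (-7 / 5)) :
    OP R (fun s => C * (Lm s * D s + s ^ (-(3 : ℝ) / 2))) (-139 / 100) :=
  OP.cmul C (((OP.lm R).mul hD (by norm_num)).add ((OP.u32 R).mono (by norm_num)))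

theorem S1H.OX (hD : OP R D (-7 / 5)) :
    OP R (fun s => (M s - 2 * μ s) - 2 / m * (a s * (JL s + JR s))) (-139 / 100) :=
  ((OLDu_s1 hD).of_le ((FR.gt R s1).mono fun s hs => (H.hJ s hs).2)).sub
    (OP.cmul _ ((H.Oa R).mul ((H.OJL hD (q := -139 / 200) (by norm_num)).add
      (H.OJR hD (by norm_num))) (by norm_num)))

theorem S1H.Oμ_of (hD : OP R D (-7 / 5)) {u : ℝ → ℝ} (hu : OP R u p) (hp : -139 / 100 ≤ p)
    (h : ∀ᶠ s in FR R, ThS m μ a JR JL M s ≤ u s) : OP R μ p := by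
  refine ((hu.abs.add ((H.OX hD).abs.mono hp)).add
    ((ODu_s1 (C := C) hD).mono (by linarith))).of_le ?_
  filter_upwards [h, FR.gt R s1, (OP.cmul (8 / m ^ 2) (H.OJL hD (q := -139 / 200)
    (by norm_num))).small0 (by norm_num) one_pos] with s h1 hs h2
  have h3 := (H.hμ s hs).2
  have h4 : 0 ≤ C * (D s + s ^ (-(3 : ℝ) / 2)) :=
    mul_nonneg H.C0 (add_nonneg (H.hD s hs).2.1 (H.u_pos hs).le)
  have h5 := le_abs_self (u s)
  have h6 := neg_abs_le ((M s - 2 * μ s) - 2 / m * (a s * (JL s + JR s)))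
  have h7 := abs_nonneg (u s)
  have h8 := abs_nonneg ((M s - 2 * μ s) - 2 / m * (a s * (JL s + JR s)))
  rcases abs_cases (μ s) with h9 | h9
  · have h10 := mul_le_mul_of_nonneg_left ((le_abs_self _).trans h2.le) h9.2
    unfold ThS at h1
    linarith [h9.1]
  · linarith [h9.1]

theorem S1H.OTh (hD : OP R D (-7 / 5)) (hμ : OP R μ (-7 / 10)) :
    OP R (fun s => ThS m μ a JR JL M s - 2 * μ s) (-139 / 100) :=
  ((H.OX hD).sub (OP.cmul (8 / m ^ 2) (hμ.mul (H.OJL hD (q := -139 / 200) (by norm_num))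
    (by norm_num)))).congr (Eventually.of_forall fun s => by unfold ThS; ring)

theorem S1H.Th_deriv {s : ℝ} (hs : s1 < s) :
    HasDerivAt (fun z => ThS m μ a JR JL M z * (lam z)⁻¹ ^ 2)
      ((deriv M s - 2 / m * (deriv a s * (JL s + JR s) + a s * (deriv JL s + deriv JR s))
        - 8 / m ^ 2 * (deriv μ s * JL s + μ s * deriv JL s) + 2 * β s * ThS m μ a JR JL M s)
        * (lam s)⁻¹ ^ 2) s := by
  obtain ⟨⟨_, h1, -⟩, -⟩ := H.hμ s hs
  obtain ⟨⟨_, h2, -⟩, -⟩ := H.ha s hs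
  obtain ⟨_, h3, -⟩ := H.hR s hs
  obtain ⟨_, h4, -⟩ := H.hL s hs
  obtain ⟨_, h5, -⟩ := H.hM s hs
  have h6 := H.lam_pos hs
  have h7 := ((H.hlam s hs).1.fun_inv h6.ne').fun_pow 2
  have h8 : HasDerivAt (ThS m μ a JR JL M) _ s :=
    (h5.fun_sub ((h2.fun_mul (h4.fun_add h3)).const_mul (2 / m))).fun_sub
      ((h1.fun_mul h4).const_mul (8 / m ^ 2))
  refine (h8.fun_mul h7).congr_deriv ?_
  rw [h1.deriv, h2.deriv, h3.deriv, h4.deriv, h5.deriv, show 2 - 1 = 1 from rfl, pow_one]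
  have h9 := h6.ne'
  field_simp
  ring

theorem S1H.dTh (hD : OP R D (-7 / 5)) (hμ : OP R μ (-7 / 10)) :
    ∃ E : ℝ → ℝ, OP R E (2 * κ - 209 / 100) ∧ ∀ s, s1 < s →
      ∃ k, HasDerivAt (fun z => ThS m μ a JR JL M z * (lam z)⁻¹ ^ 2) k s ∧ k ≤ E s := by
  have hJL := H.OJL hD (q := -139 / 200) (by norm_num)
  have hJR := H.OJR hD (q := -139 / 200) (by norm_num)
  have hβ := H.Oβ hD (q := -7 / 10) (by norm_num)
  have heR : OP R (fun s => deriv JR s
      - (2 * μ s - m ^ 2 / 2 * β s + m * a s + β s * JR s / 2)) (-7 / 5) :=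
    (ODu_s1 hD).of_le ((FR.gt R s1).mono fun s hs => by
      obtain ⟨_, h1, h2⟩ := H.hR s hs
      rw [h1.deriv]; exact h2)
  have heL : OP R (fun s => deriv JL s - (2 * μ s + m ^ 2 / 2 * β s + m * aL s)) (-139 / 100) :=
    (OLDu_s1 hD).of_le ((FR.gt R s1).mono fun s hs => by
      obtain ⟨_, h1, h2⟩ := H.hL s hs
      rw [h1.deriv]; exact h2)
  have ha' : OP R (deriv a) (-7 / 5) :=
    (ODu_s1 hD).of_le ((FR.gt R s1).mono fun s hs => by
      obtain ⟨⟨_, h1, h2⟩, -⟩ := H.ha s hs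
      rw [h1.deriv]; exact h2)
  have hμ' : OP R (deriv μ) (-7 / 5) :=
    (OP.cmul C hD).of_le ((FR.gt R s1).mono fun s hs => by
      obtain ⟨⟨_, h1, h2⟩, -⟩ := H.hμ s hs
      rw [h1.deriv]; exact h2)
  have hE1 : OP R (fun s => C * (s ^ (-(9 : ℝ) / 4) + Lm s * ((Real.sqrt (D s) + 1 / s)
      * (D s + s ^ (-(3 : ℝ) / 2)) + D s ^ 2))) (-209 / 100) :=
    OP.cmul C (((OP.pw R _).mono (by norm_num)).add ((OP.lm R).mul (q := -21 / 10)
      ((((hD.sqrt (p := -7 / 10) (by norm_num)).add ((OP.inv R).mono (by norm_num))).mul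
        (hD.add ((OP.u32 R).mono (by norm_num))) (by norm_num)).add (hD.sq (by norm_num)))
      (by norm_num)))
  have hE2 := (H.Oa R).mul (r := -209 / 100) (((OP.cmul (1 / 2) (hβ.mul (r := -139 / 100) hJR
    (by norm_num))).add (heR.mono (by norm_num))).add heL) (by norm_num)
  have hE := ((((OP.cmul 2 (hβ.mul (r := -209 / 100) (H.OTh hD hμ) (by norm_num))).add hE1).sub
    (OP.cmul (2 / m) hE2)).sub (OP.cmul (8 / m ^ 2) (hμ.mul heL (by norm_num)))).sub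
    ((OP.cmul (2 / m) (ha'.mul (hJL.add hJR) (by norm_num))).add
      (OP.cmul (8 / m ^ 2) (hμ'.mul hJL (by norm_num))))
  refine ⟨_, hE.mul ((H.Oinv R).sq le_rfl) (by linarith), fun s hs => ⟨_, H.Th_deriv hs, ?_⟩⟩
  refine mul_le_mul_of_nonneg_right ?_ (sq_nonneg _)
  obtain ⟨M', h1, h2⟩ := H.hM s hs
  have h3 := h2 (-(a s) - 4 * μ s / m)
  rw [h1.deriv]
  have hm := H.hm
  refine le_of_sub_nonneg (le_of_le_of_eq (sub_nonneg.2 h3) ?_)
  field_simp
  ring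

theorem S1H.part2
    (hfr : ∃ᶠ s in atTop, Φ s ≤ s ^ (-(7 : ℝ) / 5) ∧ |μ s| ≤ s ^ (-(73 : ℝ) / 100)) :
    OP univ D (-7 / 5) ∧ OP univ μ (-21 / 20) := by
  have hC := H.C0
  have hc := H.hc
  have hκ := H.hκ
  set T : ℝ → ℝ := fun z => ThS m μ a JR JL M z * (lam z)⁻¹ ^ 2 with hT
  have hTh : ∀ s, s1 < s → ∀ w, T s ≤ w → ThS m μ a JR JL M s ≤ lam s ^ 2 * w := by
    intro s hs w h
    have h1 := H.lam_pos hs
    have h2 := mul_le_mul_of_nonneg_left h (sq_nonneg (lam s))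
    refine le_of_eq_of_le ?_ h2
    simp only [hT]
    field_simp
  set R : Set ℝ := {s | Φ s - s ^ (-(7 : ℝ) / 5) ≤ 0 ∧ T s - s ^ (2 * κ - 18 / 25) ≤ 0} with hR
  have hpw : ∀ (q s : ℝ), s1 < s → HasDerivAt (fun z : ℝ => z ^ q) (q * s ^ (q - 1)) s :=
    fun q s hs => Real.hasDerivAt_rpow_const (Or.inl (H.pos hs).ne')
  have hfr' : ∃ᶠ s in atTop, s ∈ R := by
    set R1 : Set ℝ := {s | Φ s ≤ s ^ (-(7 : ℝ) / 5) ∧ |μ s| ≤ s ^ (-(73 : ℝ) / 100)} with hR1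
    have hD : OP R1 D (-7 / 5) := H.OD_of ((FR.mem R1).mono fun s hs => hs.1)
    have hμ : OP R1 μ (-73 / 100) := (OP.pw R1 _).of_le ((FR.mem R1).mono fun s hs => hs.2)
    have h1 : OP R1 (ThS m μ a JR JL M) (-73 / 100) :=
      (((H.OTh hD (hμ.mono (by norm_num))).mono (by norm_num)).add (OP.cmul 2 hμ)).congr
        (Eventually.of_forall fun s => by ring)
    have h2 : OP R1 T (2 * κ - 73 / 100) := h1.mul ((H.Oinv R1).sq le_rfl) (by linarith)
    have h3 : ∀ᶠ s in FR R1, s ∈ R := by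
      filter_upwards [FR.mem R1, h2.small (q := 2 * κ - 18 / 25) (by linarith) one_pos]
        with s h4 h5
      exact ⟨sub_nonpos.2 h4.1, by linarith [le_abs_self (T s)]⟩
    exact (hfr.and_eventually (FR.out h3)).mono fun s hs => hs.2 hs.1
  have hD : OP R D (-7 / 5) := H.OD_of ((FR.mem R).mono fun s hs => sub_nonpos.1 hs.1)
  have hμ : OP R μ (-18 / 25) := by
    refine H.Oμ_of hD (((H.Olam R).sq le_rfl).mul (OP.pw R (2 * κ - 18 / 25)) (by linarith))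
      (by norm_num) ?_
    filter_upwards [FR.mem R, FR.gt R s1] with s h1 hs
    exact hTh s hs _ (sub_nonpos.1 h1.2)
  obtain ⟨E, hE, hEd⟩ := H.dTh hD (hμ.mono (by norm_num))
  obtain ⟨δ, hδ, hδ1⟩ : ∃ δ : ℝ, 0 < δ ∧ δ * (C + 1) = c :=
    ⟨c / (C + 1), by positivity, by field_simp⟩
  have hF : OP R (fun s => δ * C * (Lm s * s ^ (-(3 : ℝ) / 2))
      + C * (μ s ^ 2 + Lm s * s ^ (-(3 : ℝ) / 2))
      - -(7 : ℝ) / 5 * s ^ (-(7 : ℝ) / 5 - 1)) (-36 / 25) :=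
    ((OP.cmul _ ((OP.Lu R).mono (by norm_num))).add
      (OP.cmul C ((hμ.sq (by norm_num)).add ((OP.Lu R).mono (by norm_num))))).sub
      (OP.cmul _ ((OP.pw R _).mono (by norm_num)))
  have hd : ∀ᶠ s in FR R, (Φ s - s ^ (-(7 : ℝ) / 5) = 0 →
      ∃ k < 0, DiniLe (fun z => Φ z - z ^ (-(7 : ℝ) / 5)) s k) ∧
      (T s - s ^ (2 * κ - 18 / 25) = 0 →
        ∃ k < 0, DiniLe (fun z => T z - z ^ (2 * κ - 18 / 25)) s k) := by
    filter_upwards [FR.gt R s1, hF.small (q := -(7 : ℝ) / 5) (by norm_num) hδ,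
      hE.small (q := 2 * κ - 18 / 25 - 1) (by linarith) (by linarith : 0 < 2 * κ - 18 / 25)]
      with s hs h1 h2
    obtain ⟨-, -, h3, h4⟩ := H.hΦ s hs
    obtain ⟨k, h5, h6⟩ := hEd s hs
    refine ⟨fun h => ⟨_, ?_, h4.sub_hasDerivAt (hpw _ s hs)⟩,
      fun _ => ⟨_, ?_, DiniLe.of_hasDerivAt (h5.fun_sub (hpw _ s hs))⟩⟩
    · have hD0 := (H.hD s hs).2.1
      have h7 := mul_le_mul_of_nonneg_left h3 hδ.le
      have h8 := (le_abs_self _).trans_lt h1
      have h9 : δ * (C + 1) * D s = c * D s := by rw [hδ1]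
      have h10 := mul_nonneg hδ.le hD0
      rw [sub_eq_zero.1 h] at h7
      linarith
    · linarith [le_abs_self (E s)]
  have hall : ∀ᶠ s in atTop, s ∈ R :=
    region_s1 (f := fun z => Φ z - z ^ (-(7 : ℝ) / 5)) (g := fun z => T z - z ^ (2 * κ - 18 / 25))
      ((eventually_gt_atTop s1).mono fun s hs =>
        ⟨(H.hΦ s hs).1.sub (hpw _ s hs).continuousAt,
          (H.Th_deriv hs).continuousAt.sub (hpw _ s hs).continuousAt⟩) hfr' (FR.out hd)
  have hD' : OP univ D (-7 / 5) := hD.of_ev (FR.ev hall)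
  refine ⟨hD', ?_⟩
  obtain ⟨K, hK⟩ := dini_bdd_s1 (f := fun z => T z - z ^ (2 * κ - 21 / 20)) (by
    filter_upwards [eventually_gt_atTop s1, FR.top ((hE.of_ev (FR.ev hall)).small
      (q := 2 * κ - 21 / 20 - 1) (by linarith) (by linarith : 0 < 2 * κ - 21 / 20))] with s hs h1
    obtain ⟨k, h5, h6⟩ := hEd s hs
    have h7 := h5.fun_sub (hpw (2 * κ - 21 / 20) s hs)
    exact ⟨h7.continuousAt, (DiniLe.of_hasDerivAt h7).mono (by linarith [le_abs_self (E s)])⟩)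
  refine H.Oμ_of hD' (((H.Olam univ).sq le_rfl).mul (((OP.const univ K).mono (by linarith)).add
    (OP.pw univ (2 * κ - 21 / 20))) (by linarith)) (by norm_num) ?_
  filter_upwards [FR.ev hK, FR.gt univ s1] with s h1 hs
  exact hTh s hs _ (by linarith)

end Pool.Agent.MP_8339a4_an

end

section

/-! Step S1: the exponent equals two. -/

open MeasureTheory Filter Topology Set

namespace Pool.Agent.MP_8339a4_an

section

variable {κ m c C r0 r1 s1 v : ℝ} {lam β μ D a aL JR JL M Φ : ℝ → ℝ}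
  (H : S1H κ m c C r0 r1 s1 v lam β μ D a aL JR JL M Φ)
include H

theorem S1H.small_a {η : ℝ} (hη : 0 < η) :
    ∀ᶠ s in atTop, |m * (a s - v * Real.sqrt (lam s))| ≤ η * (1 / s) := by
  obtain ⟨K, hK0, hK⟩ := (OP.cmul m (((H.Olam univ).sqrt (p := -κ / 2) (by linarith)).mul
    (OP.pw univ (-((κ - 1) / 2))) (r := -1) (by linarith [H.hκ]))).ex
  have h0 := (H.hv.abs.mul_const K).eventually (gt_mem_nhds (a := η) (by simpa using hη))
  filter_upwards [FR.top hK, h0, eventually_gt_atTop s1] with s h1 h2 hs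
  have h3 := H.pos hs
  have h4 := Real.sqrt_pos.2 (H.lam_pos hs)
  have h5 := Real.rpow_pos_of_pos h3 ((κ - 1) / 2)
  have e : m * (a s - v * Real.sqrt (lam s))
      = ((a s / Real.sqrt (lam s) - v) * s ^ ((κ - 1) / 2))
        * (m * (Real.sqrt (lam s) * s ^ (-((κ - 1) / 2)))) := by
    rw [Real.rpow_neg h3.le]
    field_simp
  rw [e, abs_mul]
  rw [Real.rpow_neg_one, ← one_div] at h1
  calc _ ≤ |(a s / Real.sqrt (lam s) - v) * s ^ ((κ - 1) / 2)| * (K * (1 / s)) :=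
        mul_le_mul_of_nonneg_left h1 (abs_nonneg _)
    _ = (|(a s / Real.sqrt (lam s) - v) * s ^ ((κ - 1) / 2)| * K) * (1 / s) := by ring
    _ ≤ η * (1 / s) := mul_le_mul_of_nonneg_right h2.le (by positivity)

theorem S1H.step3 (hD : OP univ D (-7 / 5)) (hμ : OP univ μ (-21 / 20)) : κ = 2 := by
  have hκ := H.hκ
  have hm := H.hm
  have hJR := H.OJR hD (q := -139 / 200) (by norm_num)
  have hβ := H.Oβ hD (q := -7 / 10) (by norm_num)
  set W : ℝ → ℝ := fun s => JR s - m ^ 2 / 2 * Real.log (lam s * s ^ κ) with hW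
  have hWO : OP univ W 0 := by
    refine (hJR.mono (by norm_num)).sub (OP.cmul _
      ((OP.const univ (|Real.log r0| + |Real.log r1|)).of_le ?_))
    filter_upwards [FR.gt univ s1] with s hs
    obtain ⟨-, h1, h2⟩ := H.hlam s hs
    have h3 := Real.log_le_log H.hr0 h1
    have h4 := Real.log_le_log (H.hr0.trans_le h1) h2
    rw [abs_le]
    constructor <;>
      linarith [neg_abs_le (Real.log r0), le_abs_self (Real.log r1), abs_nonneg (Real.log r0),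
        abs_nonneg (Real.log r1)]
  have heR : OP univ (fun s => deriv JR s
      - (2 * μ s - m ^ 2 / 2 * β s + m * a s + β s * JR s / 2)) (-7 / 5) :=
    (ODu_s1 hD).of_le ((FR.gt univ s1).mono fun s hs => by
      obtain ⟨_, h1, h2⟩ := H.hR s hs
      rw [h1.deriv]; exact h2)
  have hE := ((OP.cmul 2 hμ).add (OP.cmul (1 / 2) (hβ.mul hJR (by norm_num)))).add
    (heR.mono (by norm_num))
  obtain ⟨δ, hδ, hδ1⟩ : ∃ δ : ℝ, 0 < δ ∧ 4 * δ = m ^ 2 / 2 * κ :=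
    ⟨m ^ 2 / 2 * κ / 4, by positivity, by ring⟩
  have hWd : ∀ᶠ s in atTop, ∃ k, HasDerivAt W k s ∧
      |k - (m * v * Real.sqrt (lam s) - 4 * δ * (1 / s))| ≤ 2 * δ * (1 / s) := by
    filter_upwards [eventually_gt_atTop s1, H.small_a hδ,
      FR.top (hE.small (q := -1) (by norm_num) hδ)] with s hs h1 h2
    obtain ⟨J', h3, -⟩ := H.hR s hs
    have h0 := H.pos hs
    have h4 := H.hr0.trans_le (H.hlam s hs).2.1
    have h5 := ((H.hlam s hs).1.fun_mul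
      (Real.hasDerivAt_rpow_const (p := κ) (Or.inl h0.ne'))).log h4.ne'
    refine ⟨_, h3.fun_sub (h5.const_mul (m ^ 2 / 2)), ?_⟩
    have e : (-β s * lam s * s ^ κ + lam s * (κ * s ^ (κ - 1))) / (lam s * s ^ κ)
        = -β s + κ * (1 / s) := by
      have h6 := (H.lam_pos hs).ne'
      have h7 := (Real.rpow_pos_of_pos h0 κ).ne'
      rw [Real.rpow_sub_one h0.ne']
      field_simp
    rw [Real.rpow_neg_one, ← one_div, h3.deriv] at h2
    rw [e, hδ1]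
    have h8 := abs_le.1 h1
    have h9 := abs_lt.1 h2
    rw [abs_le]
    constructor <;> linarith [h8.1, h8.2, h9.1, h9.2]
  have key : (∀ᶠ s in atTop, m * v * Real.sqrt (lam s) ≤ δ * (1 / s)) → False := fun h => by
    refine dini_log_s1 hδ hWO ?_
    filter_upwards [h, hWd] with s h1 ⟨k, h2, h3⟩
    exact ⟨k, h2, by linarith [(abs_le.1 h3).2]⟩
  by_contra hne
  rcases lt_or_gt_of_ne hne with h | h
  · rcases le_or_gt (m * v) 0 with h' | h'
    · refine key ?_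
      filter_upwards [eventually_gt_atTop 0] with s hs
      exact (mul_nonpos_of_nonpos_of_nonneg h' (Real.sqrt_nonneg _)).trans (by positivity)
    · refine dini_log_s1 hδ (OP.cmul (-1) hWO) ?_
      filter_upwards [hWd, eventually_gt_atTop s1, FR.top (((H.Oinv univ).sqrt (p := κ / 2)
        (by linarith)).small (q := 1) (by linarith) (by positivity : 0 < m * v / (7 * δ)))]
        with s ⟨k, h2, h3⟩ hs h4
      refine ⟨_, h2.const_mul (-1), ?_⟩
      have h5 := H.pos hs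
      have h6 := Real.sqrt_pos.2 (H.lam_pos hs)
      rw [Real.rpow_one, Real.sqrt_inv, abs_of_pos (inv_pos.2 h6), inv_lt_iff_one_lt_mul₀ h6] at h4
      have h7 : 7 * δ * (1 / s) ≤ m * v * Real.sqrt (lam s) := by
        rw [mul_one_div, div_le_iff₀ h5]
        have := mul_lt_mul_of_pos_left h4 (by positivity : 0 < 7 * δ)
        have e : 7 * δ * (m * v / (7 * δ) * s * Real.sqrt (lam s))
            = m * v * Real.sqrt (lam s) * s := by field_simp
        linarith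
      linarith [(abs_le.1 h3).1]
  · refine key ?_
    filter_upwards [FR.top ((OP.cmul (m * v) ((H.Olam univ).sqrt (p := -κ / 2)
      (by linarith))).small (q := -1) (by linarith) hδ)] with s h1
    rw [Real.rpow_neg_one, ← one_div] at h1
    exact (le_abs_self _).trans h1.le

end

theorem s1 : S1Stmt := by
  intro κ m c C r0 r1 s1 v lam β μ D a aL JR JL M Φ h1 h2 h3 h4 h5 h6 h7 h8 h9 h10 h11 h12 h13
    h14 h15 h16
  have H : S1H κ m c C r0 r1 s1 v lam β μ D a aL JR JL M Φ :=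
    ⟨h1, h2, h3, h4, h5, h6, h7, h8, h9, h10, h11, h12, h13, h14, h15, h16⟩
  exact H.step3 (H.part2 H.part1).1 (H.part2 H.part1).2

end Pool.Agent.MP_8339a4_an

end

section

open MeasureTheory Filter Topology Set

namespace Pool.Agent.MP_8339a4_an

theorem h5_W4 {f fy : ℝ → ℝ} (h : IsH1 f fy) :
    IsH1 (fun y => f y ^ 5) (fun y => 5 * f y ^ 4 * fy y) :=
  (h.pow 4).congr (fun _ => rfl) (fun y => by norm_num)

theorem time_W4 (B : MoB) (TA : TimA) (TB : TimB) {I : Set ℝ} {u ux : ℝ → ℝ → ℝ}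
    (hs : IsSol I u ux) {a b : ℝ} (hab : a ≤ b) (hI : Icc a b ⊆ I) {W : ℝ → ℝ} (hW : Bdd W)
    (n : ℕ) :
    ContinuousOn (fun t => ∫ x, 2 * (mo 0 n (u t) x * VV 0 n (u t) x) * W x) (Icc a b) ∧
    (∫ x, mo 0 n (u b) x ^ 2 * W x) - (∫ x, mo 0 n (u a) x ^ 2 * W x) =
      ∫ t in a..b, ∫ x, 2 * (mo 0 n (u t) x * VV 0 n (u t) x) * W x := by
  obtain ⟨-, h1, -, h3⟩ := TA I u ux hs a b hI
  have c0 : ∀ t ∈ Icc a b, L2T (𝓝[Icc a b] t) (fun z => mo 0 n (u z)) (mo 0 n (u t)) :=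
    fun t ht => B.cl2 0 n _ u _ (h1 t ht).l2
  have cD : ContinuousOn (fun t => ∫ x, 2 * (mo 0 n (u t) x * VV 0 n (u t) x) * W x) (Icc a b) :=
    fun t ht => ((((c0 t ht).mul (h3 0 n t ht).1).const_mul 2).mul_ut (UT.const hW)).tendsto_integral
  have cJ : ContinuousOn (fun t => ∫ x, mo 0 n (u t) x ^ 2 * W x) (Icc a b) :=
    fun t ht => ((c0 t ht).sq.mul_ut (UT.const hW)).tendsto_integral
  refine ⟨cD, (intervalIntegral.integral_eq_sub_of_hasDerivAt_of_le hab cJ (fun t ht => ?_)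
    (cD.intervalIntegrable_of_Icc hab)).symm⟩
  rw [hasDerivAt_iff_tendsto_slope]
  have hn : 𝓝[≠] t ≤ 𝓝[Icc a b] t :=
    nhdsWithin_le_nhds.trans (nhdsWithin_eq_nhds.2 (Icc_mem_nhds ht.1 ht.2)).ge
  have c1 : L2T (𝓝[≠] t) (fun z => mo 0 n (u z)) (mo 0 n (u t)) :=
    B.cl2 0 n _ u _ ((h1 t (Ioo_subset_Icc_self ht)).mono hn).l2
  have h := (((TB I u ux hs a b hI 0 n t ht).mul (c1.add (L2T.const c1.2.1))).mul_ut
    (UT.const hW)).tendsto_integral
  have e : (∫ x, 2 * (mo 0 n (u t) x * VV 0 n (u t) x) * W x) =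
      ∫ y, VV 0 n (u t) y * (mo 0 n (u t) y + mo 0 n (u t) y) * W y :=
    integral_congr_ae (Eventually.of_forall fun y => by ring)
  rw [e]
  refine h.congr' (c1.1.mono fun z hz => ?_)
  have i1 := integrable_mul_bdd (integrable_sq2 hz) hW
  have i2 := integrable_mul_bdd (integrable_sq2 c1.2.1) hW
  rw [slope_def_field, ← integral_sub i1 i2, ← integral_div]
  exact integral_congr_ae (Eventually.of_forall fun y => by ring)

theorem space_W4 (A : MoA) (B : MoB) {f fy W W1 W2 W3 : ℝ → ℝ} (h : IsH1 f fy)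
    (hW : Wt W W1 W2 W3) (n : ℕ) :
    ∫ x, 2 * (mo 0 n f x * VV 0 n f x) * W x =
      ∫ x, (mo 0 n f x ^ 2 * W3 x - 3 * (mo 0 n fy x ^ 2 * W1 x) -
        2 * (mo 0 n f x * mo 0 n (fun y => 5 * f y ^ 4 * fy y) x * W x)) := by
  have m := fun k => A.mem k n f h.1
  have p := fun k => (B.h1 k n f h.1).isPrim
  have h5 := h5_W4 h
  have mF := A.mem 0 n _ h5.2.1
  have e1 : ∀ x, mo 0 n fy x = mo 1 n f x := fun x => (B.prim 0 n f fy x h).symm
  have e5 : ∀ x, mo 1 n (fun y => f y ^ 5) x = mo 0 n (fun y => 5 * f y ^ 4 * fy y) x :=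
    fun x => B.prim 0 n _ _ x h5
  have q0 := IsPrim.of_hasDerivAt hW.sm.d1 hW.sm.c1
  have q1 := IsPrim.of_hasDerivAt hW.sm.d2 hW.sm.c2
  have q2 := IsPrim.of_hasDerivAt hW.sm.d3 hW.sm.c3
  have I : ∀ (j k : ℕ) {w : ℝ → ℝ}, Bdd w → Integrable (fun y => mo j n f y * mo k n f y * w y) :=
    fun j k w hw => integrable_mul_bdd (integrable_mul2 (m j) (m k)) hw
  have IF := integrable_mul_bdd (integrable_mul2 (m 0) mF) hW.b0
  have P := ((((((p 0).mul (p 2)).mul q0).const_mul (-2)).add (((p 1).mul (p 1)).mul q0)).add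
    ((((p 0).mul (p 1)).mul q1).const_mul 2)).sub (((p 0).mul (p 0)).mul q2)
  refine P.integral_eq ?_ ?_ ?_ fun y => ?_
  · exact ((((I 0 2 hW.b0).const_mul (-2)).add (I 1 1 hW.b0)).add
      ((I 0 1 hW.b1).const_mul 2)).sub (I 0 0 hW.b2)
  · refine (((I 0 3 hW.b0).add IF).const_mul (-2)).congr (Eventually.of_forall fun y => ?_)
    simp only [VV, Pi.add_apply, zero_add, e5]
    ring
  · refine (((I 0 0 hW.b3).sub ((I 1 1 hW.b1).const_mul 3)).sub (IF.const_mul 2)).congr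
      (Eventually.of_forall fun y => ?_)
    simp only [Pi.sub_apply, e1]
    ring
  · simp only [VV, zero_add, e5, e1, Nat.reduceAdd]
    ring

theorem lim_W4 (B : MoB) {f fy W W1 W2 W3 : ℝ → ℝ} (h : IsH1 f fy) (hW : Wt W W1 W2 W3) :
    Tendsto (fun n => ∫ x, (mo 0 n f x ^ 2 * W3 x - 3 * (mo 0 n fy x ^ 2 * W1 x) -
        2 * (mo 0 n f x * mo 0 n (fun y => 5 * f y ^ 4 * fy y) x * W x))) atTop
      (𝓝 (∫ x, fl1 (f x) (fy x) (W1 x) (W3 x))) := by
  have h5 := h5_W4 h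
  have l0 := B.l2t f h.1
  have l1 := B.l2t fy h.2.1
  have l5 := B.l2t _ h5.2.1
  have H := ((l0.sq.mul_ut (UT.const hW.b3)).sub ((l1.sq.mul_ut (UT.const hW.b1)).const_mul 3)).sub
    (((l0.mul l5).mul_ut (UT.const hW.b0)).const_mul 2)
  have q0 := IsPrim.of_hasDerivAt hW.sm.d1 hW.sm.c1
  have P := ((h.isPrim.pow 5).mul q0).const_mul (-(5 / 3))
  have i6 := h.integrable_pow 4
  have e := P.integral_eq (G := fun x => fl1 (f x) (fy x) (W1 x) (W3 x))
    ((integrable_mul_bdd i6 hW.b0).const_mul _) H.2.1 (by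
      refine ((((integrable_mul_bdd (integrable_sq2 h.2.1) hW.b1).const_mul (-3)).add
        (integrable_mul_bdd (integrable_sq2 h.1) hW.b3)).add
        ((integrable_mul_bdd i6 hW.b1).const_mul (5 / 3))).congr (Eventually.of_forall fun y => ?_)
      simp only [fl1, Pi.add_apply]
      ring) (fun y => by
      simp only [fl1]
      push_cast
      ring)
  rw [← e]
  exact H.tendsto_integral

theorem bd_W4 (A : MoA) {W W1 W2 W3 : ℝ → ℝ} (hW : Wt W W1 W2 W3) (K : ℝ) :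
    ∃ C : ℝ, ∀ (n : ℕ) (f fy : ℝ → ℝ), IsH1 f fy → (∫ x, f x ^ 2) ≤ K → (∫ x, fy x ^ 2) ≤ K →
      (∀ x, |f x| ≤ K) → |∫ x, (mo 0 n f x ^ 2 * W3 x - 3 * (mo 0 n fy x ^ 2 * W1 x) -
        2 * (mo 0 n f x * mo 0 n (fun y => 5 * f y ^ 4 * fy y) x * W x))| ≤ C := by
  obtain ⟨C0, h0⟩ := hW.b0.2
  obtain ⟨C1, h1⟩ := hW.b1.2
  obtain ⟨C3, h3⟩ := hW.b3.2
  have n0 : 0 ≤ C0 := (abs_nonneg _).trans (h0 0)
  have n1 : 0 ≤ C1 := (abs_nonneg _).trans (h1 0)
  have n3 : 0 ≤ C3 := (abs_nonneg _).trans (h3 0)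
  refine ⟨(C3 + C0) * K + 3 * C1 * K + C0 * (25 * K ^ 8 * K), fun n f fy h k0 k1 k2 => ?_⟩
  have h5 := h5_W4 h
  have i0 := integrable_sq2 (A.mem 0 n f h.1)
  have i1 := integrable_sq2 (A.mem 0 n fy h.2.1)
  have i5 := integrable_sq2 (A.mem 0 n _ h5.2.1)
  have b0 := (A.sq0 n f h.1).trans k0
  have b1 := (A.sq0 n fy h.2.1).trans k1
  have b5 : (∫ x, mo 0 n (fun y => 5 * f y ^ 4 * fy y) x ^ 2) ≤ 25 * K ^ 8 * K := by
    refine (A.sq0 n _ h5.2.1).trans ?_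
    have : (∫ x, (5 * f x ^ 4 * fy x) ^ 2) ≤ ∫ x, 25 * K ^ 8 * fy x ^ 2 := by
      refine integral_mono (integrable_sq2 h5.2.1) ((integrable_sq2 h.2.1).const_mul _) fun x => ?_
      have e : f x ^ 8 ≤ K ^ 8 := by
        rw [← Even.pow_abs (by decide : Even 8)]
        exact pow_le_pow_left₀ (abs_nonneg _) (k2 x) 8
      have := mul_le_mul_of_nonneg_right e (sq_nonneg (fy x))
      show (5 * f x ^ 4 * fy x) ^ 2 ≤ 25 * K ^ 8 * fy x ^ 2
      nlinarith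
    rw [integral_const_mul] at this
    exact this.trans (mul_le_mul_of_nonneg_left k1 (by positivity))
  have ib := ((i0.const_mul (C3 + C0)).add (i1.const_mul (3 * C1))).add (i5.const_mul C0)
  have key := norm_integral_le_of_norm_le (f := fun x => mo 0 n f x ^ 2 * W3 x -
      3 * (mo 0 n fy x ^ 2 * W1 x) -
      2 * (mo 0 n f x * mo 0 n (fun y => 5 * f y ^ 4 * fy y) x * W x)) ib
    (Eventually.of_forall fun x => by
      simp only [Real.norm_eq_abs, Pi.add_apply]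
      generalize mo 0 n f x = p
      generalize mo 0 n fy x = q
      generalize mo 0 n (fun y => 5 * f y ^ 4 * fy y) x = r
      obtain ⟨a0, a0'⟩ := abs_le.1 (h0 x)
      obtain ⟨a1, a1'⟩ := abs_le.1 (h1 x)
      obtain ⟨a3, a3'⟩ := abs_le.1 (h3 x)
      have s1 := mul_nonneg (sq_nonneg p) (sub_nonneg.2 a3)
      have s2 := mul_nonneg (sq_nonneg p) (sub_nonneg.2 a3')
      have s3 := mul_nonneg (sq_nonneg q) (sub_nonneg.2 a1)
      have s4 := mul_nonneg (sq_nonneg q) (sub_nonneg.2 a1')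
      have s5 := mul_nonneg (sq_nonneg (p + r)) (sub_nonneg.2 a0)
      have s6 := mul_nonneg (sq_nonneg (p + r)) (sub_nonneg.2 a0')
      have s7 := mul_nonneg (sq_nonneg (p - r)) (sub_nonneg.2 a0)
      have s8 := mul_nonneg (sq_nonneg (p - r)) (sub_nonneg.2 a0')
      rw [abs_le]
      constructor <;> nlinarith)
  rw [Real.norm_eq_abs] at key
  refine key.trans ?_
  rw [integral_add' ((i0.const_mul (C3 + C0)).add (i1.const_mul (3 * C1))) (i5.const_mul C0),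
    integral_add' (i0.const_mul (C3 + C0)) (i1.const_mul (3 * C1)), integral_const_mul,
    integral_const_mul, integral_const_mul]
  gcongr

theorem p1_of (A : MoA) (B : MoB) (TA : TimA) (TB : TimB) (L : LimS) : P1Stmt := by
  intro I u ux hs a b hab hI W W1 W2 W3 hW
  obtain ⟨⟨K, -, hK⟩, -⟩ := TA I u ux hs a b hI
  obtain ⟨C, hC⟩ := bd_W4 A hW K
  have T := time_W4 B TA TB hs hab hI hW.b0
  have hh : ∀ t ∈ Icc a b, IsH1 (u t) (ux t) := fun t ht => hs.h1 t (hI ht)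
  have lj : ∀ t ∈ Icc a b, Tendsto (fun n => ∫ x, mo 0 n (u t) x ^ 2 * W x) atTop
      (𝓝 (∫ x, u t x ^ 2 * W x)) := fun t ht =>
    ((B.l2t _ (hh t ht).1).sq.mul_ut (UT.const hW.b0)).tendsto_integral
  refine L.eq a b C _ (fun n t => ∫ x, 2 * (mo 0 n (u t) x * VV 0 n (u t) x) * W x) _ _ hab
    (fun n => (T n).1) (fun n => (T n).2) (fun n t ht => ?_) (fun t ht => ?_)
    ((lj b (right_mem_Icc.2 hab)).sub (lj a (left_mem_Icc.2 hab)))
  · rw [space_W4 A B (hh t ht) hW n]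
    exact hC n _ _ (hh t ht) (hK t ht).1 (hK t ht).2.1 (hK t ht).2.2
  · exact (lim_W4 B (hh t ht) hW).congr fun n => (space_W4 A B (hh t ht) hW n).symm

end Pool.Agent.MP_8339a4_an

end

section

open MeasureTheory Filter Topology Set

namespace Pool.Agent.MP_8339a4_an

theorem pt_W5d {θ η μ w M c p q G : ℝ} (hθ : 0 < θ) (hη : 0 < η) (hμ : 0 ≤ μ) (hw : |w| ≤ M)
    (hq : |q| ≤ 10 * (c * μ) * G) :
    -(3 * θ * (μ * p ^ 2)) + 2 * (w * (p * q)) ≤
      M ^ 2 / (3 * θ) * (1 + 100 * c ^ 2) / η * q ^ 2 +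
        M ^ 2 / (3 * θ) * (1 + 100 * c ^ 2) * η * G ^ 2 := by
  obtain ⟨s, rfl, hs⟩ : ∃ s, q = μ * s ∧ s ^ 2 ≤ 100 * c ^ 2 * G ^ 2 := by
    rcases hμ.eq_or_lt with h | h
    · subst h
      exact ⟨0, by simpa using hq, by nlinarith [sq_nonneg (c * G)]⟩
    · refine ⟨q / μ, by field_simp, ?_⟩
      have h1 : |q / μ| ≤ 10 * c * G := by
        rw [abs_div, abs_of_pos h, div_le_iff₀ h]
        linarith
      have h2 := sq_le_sq' (abs_le.1 h1).1 (abs_le.1 h1).2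
      linarith
  have hw2 : w ^ 2 ≤ M ^ 2 := sq_le_sq' (abs_le.1 hw).1 (abs_le.1 hw).2
  have hD : 0 ≤ M ^ 2 / (3 * θ) := by positivity
  have h1 : -(3 * θ * p ^ 2) + 2 * (w * (p * s)) ≤ M ^ 2 / (3 * θ) * s ^ 2 := by
    rw [div_mul_eq_mul_div, le_div_iff₀ (by positivity)]
    nlinarith [sq_nonneg (3 * θ * p - w * s), mul_le_mul_of_nonneg_right hw2 (sq_nonneg s)]
  have h2 : μ ≤ μ ^ 2 / η + η := by
    rw [div_add' _ _ _ hη.ne', le_div_iff₀ hη]
    nlinarith [sq_nonneg (μ - η), mul_nonneg hμ hη.le]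
  generalize M ^ 2 / (3 * θ) = D at *
  have h3 := mul_le_mul_of_nonneg_left h1 hμ
  have h4 := mul_le_mul_of_nonneg_right h2 (mul_nonneg hD (sq_nonneg s))
  have h5 := mul_le_mul_of_nonneg_left hs (mul_nonneg hD hη.le)
  have h6 : 0 ≤ D * (100 * c ^ 2) / η * (μ * s) ^ 2 := by positivity
  have h7 : 0 ≤ D * η * G ^ 2 := by positivity
  have e1 : D * (1 + 100 * c ^ 2) / η * (μ * s) ^ 2 =
      μ ^ 2 / η * (D * s ^ 2) + D * (100 * c ^ 2) / η * (μ * s) ^ 2 := by ring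
  rw [e1]
  nlinarith

theorem int_W5d {f fy g gy W1 W2 W3 : ℝ → ℝ} (h : IsH1 f fy) (hg : IsH1 g gy) (b1 : Bdd W1)
    (b2 : Bdd W2) (b3 : Bdd W3) :
    Integrable (fun y => fl2 (f y) (fy y) (g y) (gy y) (W1 y) (W2 y) (W3 y)) :=
  (H1T.fl2 (l := (⊥ : Filter ℕ)) (f := fun _ => f) (fy := fun _ => fy)
    ⟨eventually_bot, h, tendsto_bot⟩ hg b1 b2 b3).2.1

theorem enC (A : MoA) (B : MoB) (EB : EnB) (CM : CmS) : EnC := by
  intro W W1 W2 W3 Φ Φ1 Φ2 Φ3 g gy c θ hW hW1 hΦ hg hc hθ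
  have hS : Wb (fun x => W x + θ * Φ x) (fun x => W1 x + θ * Φ1 x) (fun x => W2 x + θ * Φ2 x)
      (fun x => W3 x + θ * Φ3 x) :=
    ⟨hW.sm.add (hΦ.sm.const_mul θ), hW.b0.add (hΦ.b0.const_mul θ),
      hW.b1.add (hΦ.b1.const_mul θ), hW.b2.add (hΦ.b2.const_mul θ),
      hW.b3.add (hΦ.b3.const_mul θ)⟩
  obtain ⟨M, hM⟩ := hS.b0.2
  refine ⟨M ^ 2 / (3 * θ) * (1 + 100 * c ^ 2), by positivity, ?_⟩
  intro η f fy hη hf hloc hΦ1 n
  have hK : 0 ≤ M ^ 2 / (3 * θ) * (1 + 100 * c ^ 2) := by positivity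
  have hp := fun x => pt_W5d (p := mo 2 n f x) hθ hη (hΦ1 x) (hM x)
    (CM.loc n f fy (c * Φ1 x) x hf (hloc x))
  generalize M ^ 2 / (3 * θ) * (1 + 100 * c ^ 2) = K at *
  rw [EB f fy _ _ _ _ hf hS n]
  have h0 := B.h1 0 n f hf.1
  have h1 := B.h1 1 n f hf.1
  have mq := CM.mem n f fy hf
  have ma : MemLp (fun y => |fy y|) 2 volume := hf.2.1.abs
  have mG := A.mem 0 n _ ma
  have hG : (∫ x, mo 0 n (fun y => |fy y|) x ^ 2) ≤ ∫ x, fy x ^ 2 := by
    simpa only [sq_abs] using A.sq0 n _ ma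
  generalize mo 0 n (fun y => |fy y|) = G at *
  simp only [zero_add, Nat.reduceAdd] at h0 h1
  generalize mo 0 n f = v0 at *
  generalize mo 1 n f = v1 at *
  generalize mo 2 n f = v2 at *
  generalize cm n f = q at *
  have hgW := hg.mul_bdd hW.sm.d2 hW.b1 hW.b2
  have z := hgW.ibp h1
  have i1 := int_W5d h0 hg hW.b1 hW.b2 hW.b3
  have i2 := int_W5d h0 IsH1.zero hΦ.b1 hΦ.b2 hΦ.b3
  have i3 : Integrable (fun x => 2 * ((W x + θ * Φ x) * v0 x ^ 5 + (W1 x + θ * Φ1 x) * v1 x) *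
      q x) :=
    integrable_mul2 (((memLp_bdd_mul (h0.memLp_pow 4) hS.b0).add
      (memLp_bdd_mul h1.1 hS.b1)).const_mul 2) mq
  have i4 := integrable_mul2 hgW.2.1 h1.1
  have i5 := integrable_mul2 hgW.1 h1.2.1
  have i6 : Integrable (fun x => -(3 * (W1 x * (v2 x - g x) ^ 2)) +
      (-(3 * θ * (Φ1 x * v2 x ^ 2)) + 2 * ((W x + θ * Φ x) * (v2 x * q x)))) :=
    ((integrable_bdd_mul (integrable_sq2 (h1.2.1.sub hg.1)) hW.b1).const_mul 3).neg.add
      (((integrable_bdd_mul (integrable_sq2 h1.2.1) hΦ.b1).const_mul _).neg.add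
        ((integrable_bdd_mul (integrable_mul2 h1.2.1 mq) hS.b0).const_mul 2))
  have iq := (integrable_sq2 mq).const_mul (K / η)
  have iG := (integrable_sq2 mG).const_mul (K * η)
  have e6 := integral_mono i6 (iq.add iG) fun x => by
    have := hp x
    have := mul_nonneg (hW1 x) (sq_nonneg (v2 x - g x))
    show _ ≤ K / η * q x ^ 2 + K * η * G x ^ 2
    linarith
  have e7 := integral_add iq iG
  rw [integral_const_mul, integral_const_mul] at e7
  have j2 := i2.const_mul θ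
  have j4 := i4.const_mul (-6)
  have j5 := i5.const_mul (-6)
  have s1 := integral_add i1 j2
  have s2 := integral_add (i1.add j2) i3
  have s3 := integral_add ((i1.add j2).add i3) j4
  have s4 := integral_add (((i1.add j2).add i3).add j4) j5
  have s5 := integral_add ((((i1.add j2).add i3).add j4).add j5) i6
  simp only [Pi.add_apply] at s2 s3 s4 s5 e6
  rw [s4, s3, s2, s1, integral_const_mul, integral_const_mul, integral_const_mul, z] at s5
  have hG' := mul_le_mul_of_nonneg_left hG (mul_nonneg hK hη.le)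
  refine le_trans (le_of_eq (Eq.trans (integral_congr_ae (Eventually.of_forall fun x => ?_)) s5))
    (by linarith)
  simp only [fl2]
  ring

end Pool.Agent.MP_8339a4_an

end
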