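import Pool.Agent.Mg.F8339a4.G868eae
import Pool.Agent.Mg.F8339a4.Gaa52d0
import Pool.Agent.Mg.F8339a4.G26954e
import Pool.Agent.Mg.F8339a4.G11dee8
import Pool.Agent.Mg.F8339a4.G78f317
import Pool.Agent.Mg.F8339a4.G0f240b
import Pool.Agent.Mg.F8339a4.G5be20a
import Pool.Agent.Mg.F8339a4.Gdaf163
import Pool.Agent.Mg.F8339a4.G100cd9
import Pool.Agent.Mg.F8339a4.G336140
import Pool.Agent.Mg.F8339a4.Ga50f8f
import Pool.Agent.Mg.F8339a4.Gffd5fc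
import Pool.Agent.Mg.F8339a4.Ge93b90

/-! Glue: everything except the W and G blocks. -/

open MeasureTheory Filter Topology Set

namespace Pool.Agent.MP_8339a4_an

theorem mainE_Glue (hG : GSStmt) : MainEStmt :=
  mainE cont r1 r2 r3 (r4 (nagyW nagyI)) s2 s1 (e2 hh) i1 i2 i3 i4 i5 bdJ bdM hG jrJ (jlJ bdJ)
    mmJ muJ (e4 (c1w c1))

theorem phys_Glue (p0 : P0Stmt) (p1 : P1Stmt) (p2 : P2Stmt) (hG : GSStmt) {T ν : ℝ}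
    {u ux : ℝ → ℝ → ℝ} {lt st : ℝ → ℝ} {x0 : ℝ} (hν : 0 < ν) (h : Phys T ν u ux lt st x0) :
    ν = 2 / 5 ∨ (3 / 7 < ν ∧ ν < 1 / 2) := by
  have hc := cons p1 p2
  obtain ⟨T1, c0, c1', M, η, d, Cp, e, ey, lam, β, γ, sig, hP, hsig, hx⟩ :=
    finA (modA hc) (modB p0) flowH (flow0 p0) (flow1 p1) (flow2 p2) (small hc)
      (g0 (nagyG nagyI)) parJ T ν u ux lt st x0 h
  obtain ⟨h3, h2⟩ := finB _ _ _ _ _ _ _ _ _ _ _ _ _ _ x0 hν hP hsig hx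
  by_cases h7 : 3 / 7 < ν
  · exact Or.inr ⟨h7, h2⟩
  left
  obtain ⟨s0, r0, r1', e', ey', lam', β', γ', hS⟩ := finC time _ _ _ _ _ _ _ _ _ _ _ _ _ h3 hP
  have hp : 0 < 3 * ν - 1 := by linarith
  have hκ := mainE_Glue hG _ _ _ _ _ _ _ _ _ _ _ _ _ hS (by rw [le_div_iff₀ hp]; linarith)
  rw [div_eq_iff hp.ne'] at hκ
  linarith

theorem main_Glue (p0 : P0Stmt) (p1 : P1Stmt) (p2 : P2Stmt) (hG : GSStmt) (t0 ν : ℝ)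
    (u ux : ℝ → ℝ → ℝ) (lam sig : ℝ → ℝ) (x0 : ℝ) (ht0 : 0 < t0) (hν : 0 < ν)
    (hsol : IsSol (Ioc 0 t0) u ux) (hrate : PowerRate t0 ν ux) (hb : Bubble t0 u lam sig x0)
    (hs : (∫ x, u t0 x ^ 2) < 2 * ∫ y, Q y ^ 2 ∨ Single u lam sig) :
    ν = 2 / 5 ∨ (3 / 7 < ν ∧ ν < 1 / 2) :=
  phys_Glue p0 p1 p2 hG hν (refl (cons p1 p2) t0 ν u ux lam sig x0 ht0 hsol hrate hb hs)

end Pool.Agent.MP_8339a4_an
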