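import Pool.Agent.Mg.F8339a4.G100cd9

/-! The Lyapunov functional. -/

open MeasureTheory Filter Topology Set

namespace Pool.Agent.MP_8339a4_an

theorem Z_nonneg_MainF (X : Dat) {s : ℝ} (hs : X.s0 < s) : 0 ≤ X.Z s := by
  unfold Dat.Z
  have := X.Kf_nonneg s; have := X.k6_nonneg s
  have := X.tau_pos (show 0 < s by have := X.one_lt hs; linarith)
  positivity

theorem phi_MainF (hC : ContStmt) (h2 : E2Stmt) (i1 : I1Stmt) (i2 : I2Stmt) (i3 : I3Stmt)
    (i4 : I4Stmt) (i5 : I5Stmt) (hM : BdMStmt) (hG : GSStmt) (X : Dat) {c4 : ℝ} (hc4 : 0 < c4)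
    (h4 : ∀ B : ℝ, 1000 * X.CA ≤ B → ∃ C : ℝ, ∀ᶠ s in atTop,
      c4 * X.D B s - C * (Lm s * X.Z s) ≤ X.F B s ∧ X.F B s ≤ C * (X.D B s + Lm s * X.Z s)) :
    ∃ (B c C : ℝ) (Φ : ℝ → ℝ), 1000 * X.CA ≤ B ∧ 0 < c ∧ 0 ≤ C ∧ ∀ᶠ s in atTop,
      ContinuousAt Φ s ∧ c * X.D B s - C * (Lm s * X.Z s) ≤ Φ s ∧
      Φ s ≤ C * (X.D B s + Lm s * X.Z s) ∧
      DiniLe Φ s (-(c * X.D B s) + C * (X.μ s ^ 2 + Lm s * X.Z s)) := by
  obtain ⟨C1, hC1, e1⟩ := i1 X
  obtain ⟨C2, hC2, e2⟩ := i2 X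
  have r0 := X.r0_pos
  have r1 := X.r1_pos
  set C0 := C1 + C2 + 1 with hC0
  have C0p : 0 < C0 := by linarith
  obtain ⟨Ca, b0, hCa, hb0, eG⟩ := hG _ _ _ _ _ _ _ _ _ _ _ _ _ X.st (X.r0 / (64 * C0))
    (by positivity)
  set B := max (1000 * X.CA) (max (b0 * X.r1) (8 * C0 * Ca / c4)) with hB
  have hB1 : 1000 * X.CA ≤ B := le_max_left _ _
  have hB2 : b0 * X.r1 ≤ B := (le_max_left _ _).trans (le_max_right _ _)
  have hB3 : 8 * C0 * Ca / c4 ≤ B := (le_max_right _ _).trans (le_max_right _ _)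
  have Bp : 0 < B := by have := X.CA_pos; linarith
  obtain ⟨G, eG⟩ := eG (B / X.r1) (by rw [le_div_iff₀ r1]; exact hB2)
  obtain ⟨D2, e2⟩ := e2 B hB1
  obtain ⟨D3, e3⟩ := i3 X B hB1
  obtain ⟨D4, e4⟩ := i4 X B hB1
  obtain ⟨D5, e5⟩ := i5 X B hB1
  obtain ⟨D6, e6⟩ := hM X B hB1
  obtain ⟨D7, e7⟩ := h4 B hB1
  set k := C0 / B with hk
  have kp : 0 < k := by positivity
  have kCa : 4 * (k * Ca) ≤ c4 / 2 := by
    rw [div_le_iff₀ hc4] at hB3
    have : k * B = C0 := by rw [hk]; field_simp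
    have h' : 8 * (k * Ca) * B ≤ c4 * B := by nlinarith
    have := le_of_mul_le_mul_right h' Bp
    linarith
  set θ := X.r0 / (64 * C0) with hθ
  have θp : 0 < θ := by positivity
  set ρ := X.r0 / B with hρ
  have ρp : 0 < ρ := by positivity
  have kθ : k * θ = ρ / 64 := by rw [hk, hθ, hρ]; field_simp
  set C := |D2| + |D3| + |D4| + |D5| + |D7| + k * θ * |D6| + k * Ca * |D6| + 4 * (k * Ca)
    with hCdef
  have n2 := abs_nonneg D2
  have n3 := abs_nonneg D3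
  have n4 := abs_nonneg D4
  have n5 := abs_nonneg D5
  have n7 := abs_nonneg D7
  have n6 : 0 ≤ k * θ * |D6| := by positivity
  have n8 : 0 ≤ k * Ca * |D6| := by positivity
  have n9 : 0 ≤ k * Ca := by positivity
  refine ⟨B, min (ρ / 8) (c4 / 2), C, fun s => X.F B s + k * G s, hB1, by positivity,
    by linarith, ?_⟩
  filter_upwards [e1 B hB1, e2, e3 (ρ / 32) (by positivity), e4 (ρ / 32) (by positivity), e5, e6,
    e7, eG, X.ev_gt] with s a1 a2 a3 a4 a5 a6 a7 aG g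
  obtain ⟨aG, G', dG, bG⟩ := aG
  obtain ⟨-, -, aN⟩ := a6
  have D0 := X.D_nonneg B s
  have Z0 := Z_nonneg_MainF X g
  have L1 := one_le_Lm (X.one_lt g).le
  have N0' := X.N_nonneg s
  set Y := Lm s * X.Z s with hY
  have ZY : X.Z s ≤ Y := by nlinarith
  have Y0 : 0 ≤ Y := by linarith
  set W := Nw (B / X.r1) (X.e s) (X.ey s) with hW
  have aN' : W ≤ 4 * X.D B s + |D6| * Y := by
    have := mul_le_mul (le_abs_self D6) ZY Z0 (abs_nonneg _)
    linarith
  have m1 : min (ρ / 8) (c4 / 2) * X.D B s ≤ ρ / 8 * X.D B s :=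
    mul_le_mul_of_nonneg_right (min_le_left _ _) D0
  have m2 : min (ρ / 8) (c4 / 2) * X.D B s ≤ c4 / 2 * X.D B s :=
    mul_le_mul_of_nonneg_right (min_le_right _ _) D0
  have gk : k * |G s| ≤ 4 * (k * Ca) * X.D B s + k * Ca * |D6| * Y := by
    calc _ ≤ k * (Ca * (4 * X.D B s + |D6| * Y)) :=
          mul_le_mul_of_nonneg_left (aG.trans (mul_le_mul_of_nonneg_left aN' hCa)) kp.le
      _ = _ := by ring
  have g1 : k * G s ≤ k * |G s| := mul_le_mul_of_nonneg_left (le_abs_self _) kp.le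
  have g2 : -(k * |G s|) ≤ k * G s := by
    have := mul_le_mul_of_nonneg_left (neg_abs_le (G s)) kp.le
    linarith
  have y7 : D7 * Y ≤ |D7| * Y := mul_le_mul_of_nonneg_right (le_abs_self _) Y0
  have y7' : D7 * (X.D B s + Y) ≤ |D7| * (X.D B s + Y) :=
    mul_le_mul_of_nonneg_right (le_abs_self _) (by linarith)
  have kD : 4 * (k * Ca) * X.D B s ≤ c4 / 2 * X.D B s := mul_le_mul_of_nonneg_right kCa D0
  have cY : (|D7| + k * Ca * |D6|) * Y ≤ C * Y :=
    mul_le_mul_of_nonneg_right (by linarith) Y0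
  have cD : (|D7| + 4 * (k * Ca)) * X.D B s ≤ C * X.D B s :=
    mul_le_mul_of_nonneg_right (by linarith) D0
  refine ⟨(hC X B Bp s g).2.2.2.add (continuousAt_const.mul dG.continuousAt), ?_, ?_, ?_⟩
  · have := a7.1
    linarith
  · have := a7.2
    linarith
  · refine ((h2 X B Bp s g).add_hasDerivAt (dG.const_mul k)).mono ?_
    have b1 : k * G' ≤ -(k * X.N s) + k * θ * (4 * X.D B s + |D6| * Y) := by
      have := mul_le_mul_of_nonneg_left bG kp.le
      have h' := mul_le_mul_of_nonneg_left aN' (show 0 ≤ k * θ by positivity)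
      unfold Dat.N
      nlinarith
    have b2 : C1 / B * X.N s + C2 / B * X.N s ≤ k * X.N s := by
      rw [← add_mul, ← add_div]
      exact mul_le_mul_of_nonneg_right (div_le_div_of_nonneg_right (by linarith) Bp.le) N0'
    have b3 : X.r0 / (4 * B) = ρ / 4 := by rw [hρ]; field_simp
    have y3 : D3 * Y ≤ |D3| * Y := mul_le_mul_of_nonneg_right (le_abs_self _) Y0
    have y4 : D4 * Y ≤ |D4| * Y := mul_le_mul_of_nonneg_right (le_abs_self _) Y0
    have y5 : D5 * Y ≤ |D5| * Y := mul_le_mul_of_nonneg_right (le_abs_self _) Y0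
    have y2 : D2 * X.μ s ^ 2 ≤ C * X.μ s ^ 2 :=
      mul_le_mul_of_nonneg_right (by have := le_abs_self D2; linarith) (sq_nonneg _)
    have cY' : (|D3| + |D4| + |D5| + k * θ * |D6|) * Y ≤ C * Y :=
      mul_le_mul_of_nonneg_right (by linarith) Y0
    rw [b3] at a1
    rw [kθ] at b1 cY'
    linarith

end Pool.Agent.MP_8339a4_an
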