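import Pool.Agent.Mg.F8339a4.G95e266
import Pool.Agent.Mg.F8339a4.Gb7696a

/-! Assembly in rescaled time. -/

open MeasureTheory Filter Topology Set

namespace Pool.Agent.MP_8339a4_an

theorem mono_MainG {c C x : ℝ} (h : |c| ≤ C) (hx : 0 ≤ x) : c * x ≤ C * x :=
  mul_le_mul_of_nonneg_right ((le_abs_self c).trans h) hx

theorem consts_MainG (A0 A1 A2 A3 A4 A5 A6 A7 A8 A9 A10 k : ℝ) (h0 : 0 ≤ A0) (h2 : 0 ≤ A2)
    (h10 : 0 ≤ A10) (hk : 0 ≤ k) : ∃ T κ1 C : ℝ, 1 ≤ T ∧ A0 ≤ T ∧ |A1| ≤ T ∧ A2 ≤ T ∧ |A3| ≤ T ∧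
      |A4| ≤ T ∧ |A5| ≤ T ∧ |A6| ≤ T ∧ |A7| ≤ T ∧ |A8| ≤ T ∧ |A9| ≤ T ∧ A10 ≤ T ∧ 1 ≤ κ1 ∧
      k + 1 ≤ κ1 ∧ 2 * k + 1 ≤ κ1 ∧ k ^ 2 ≤ κ1 ∧ 10 * T ≤ C ∧ 0 ≤ C ∧ T * κ1 ≤ C ∧
      T * (k + 1) + k ≤ C ∧ A0 * k ≤ C ∧ T * (2 * k + 1) ≤ C := by
  have n1 := abs_nonneg A1
  have n3 := abs_nonneg A3
  have n4 := abs_nonneg A4
  have n5 := abs_nonneg A5
  have n6 := abs_nonneg A6
  have n7 := abs_nonneg A7
  have n8 := abs_nonneg A8
  have n9 := abs_nonneg A9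
  obtain ⟨T, hT⟩ : ∃ T, T = A0 + |A1| + A2 + |A3| + |A4| + |A5| + |A6| + |A7| + |A8| + |A9|
    + A10 + 1 := ⟨_, rfl⟩
  have T1 : 1 ≤ T := by linarith
  have T0 : A0 ≤ T := by linarith
  have k1 : 1 ≤ (k + 1) ^ 2 := by nlinarith only [hk]
  have k3 : 2 * k + 1 ≤ (k + 1) ^ 2 := by nlinarith only [hk]
  have a1 : T * (2 * k + 1) ≤ T * (k + 1) ^ 2 := mul_le_mul_of_nonneg_left k3 (by linarith)
  have a2 : k ≤ T * k := by nlinarith only [hk, T1]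
  have a3 : A0 * k ≤ T * k := mul_le_mul_of_nonneg_right T0 hk
  refine ⟨T, (k + 1) ^ 2, 10 * T * (k + 1) ^ 2, T1, T0, by linarith, by linarith, by linarith,
    by linarith, by linarith, by linarith, by linarith, by linarith, by linarith, by linarith, k1,
    by linarith, k3, by nlinarith only [hk], by nlinarith only [k1, T1], by positivity,
    by nlinarith only [k1, T1], by nlinarith only [a1, a2, hk, T1],
    by nlinarith only [a1, a2, a3, hk, T1], by nlinarith only [a1, a2, hk, T1]⟩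

theorem dat_MainG (hC : ContStmt) (r1 : R1Stmt) (r2 : R2Stmt) (r3 : R3Stmt) (r4 : R4Stmt)
    (hS2 : S2Stmt) (hS1 : S1Stmt) (h2 : E2Stmt) (i1 : I1Stmt) (i2 : I2Stmt) (i3 : I3Stmt)
    (i4 : I4Stmt) (i5 : I5Stmt) (hJ : BdJStmt) (hM : BdMStmt) (hG : GSStmt) (jr : JRStmt)
    (jl : JLStmt) (hMM : MMStmt) (hMu : MuStmt) (X : Dat) {c4 : ℝ} (hc4 : 0 < c4)
    (h4 : ∀ B : ℝ, 1000 * X.CA ≤ B → ∃ C : ℝ, ∀ᶠ s in atTop,
      c4 * X.D B s - C * (Lm s * X.Z s) ≤ X.F B s ∧ X.F B s ≤ C * (X.D B s + Lm s * X.Z s)) :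
    X.κ = 2 := by
  obtain ⟨C', v, hC', eR, hv⟩ := right_MainE hC r1 r2 r3 r4 hS2 X
  obtain ⟨k, hk, eS⟩ := small_MainE X hC' eR
  obtain ⟨B, c, A0, Φ, hB, hc, hA0, eΦ⟩ := phi_MainF hC h2 i1 i2 i3 i4 i5 hM hG X hc4 h4
  have Bp : 0 < B := by have := X.CA_pos; linarith
  obtain ⟨A1, e1⟩ := r1 X
  obtain ⟨A2, hA2, e2⟩ := X.par_le
  obtain ⟨A3, e3⟩ := hJ X B hB
  obtain ⟨A4, e4⟩ := hM X B hB
  obtain ⟨A5, e5⟩ := jr X B hB
  obtain ⟨A6, e6⟩ := jl X B hB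
  obtain ⟨A7, e7⟩ := hMM X B hB
  obtain ⟨hμ, A8, e8⟩ := hMu X
  obtain ⟨T, κ1, C, T1, t0', t1, t2, t3, t4, t5, t6, t7, t8, t9, t10, k1, k2, k3, k4, CT, C0, TK,
    TK1, TK2, TK3⟩ := consts_MainG A0 A1 A2 A3 A4 A5 A6 A7 A8 X.Cp C' k hA0 hA2 hC' hk
  obtain ⟨s2, hs2⟩ := eventually_atTop.1 (eR.and (eS.and (eΦ.and (e1.and (e3.and (e4.and
    (e5.and (e6.and (e7.and (e8.and X.ev_gt))))))))))
  have hs : ∀ s, max s2 1 < s → s2 ≤ s := fun s h => (le_max_left _ _).trans h.le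
  clear eR eS eΦ e1 e3 e4 e5 e6 e7 e8 h4 r1 r2 r3 r4 hS2 h2 i1 i2 i3 i4 i5 hJ hM hG jr jl hMM hMu
  have ND : ∀ s, X.s0 < s → X.N s ≤ 8 * X.D B s := fun s g => (X.wp g hB).N0_le (X.h1 g)
  have pp : ∀ s, X.s0 < s → 0 < s ^ (-(3 : ℝ) / 2) ∧ s ^ (-(3 : ℝ) / 2) ≤ 1 := fun s g =>
    ⟨Real.rpow_pos_of_pos (by have := X.one_lt g; linarith) _,
      Real.rpow_le_one_of_one_le_of_nonpos (X.one_lt g).le (by norm_num)⟩
  have bD : ∀ s, X.s0 < s → X.β s ^ 2 ≤ 8 * T * X.D B s := fun s g => by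
    have h1 := e2 s g
    have h2 := mul_le_mul_of_nonneg_left (ND s g) hA2
    have h3 : A2 * X.D B s ≤ T * X.D B s :=
      mul_le_mul_of_nonneg_right (by linarith) (X.D_nonneg B s)
    linarith only [h1, h2, h3, sq_nonneg (X.γ s)]
  refine hS1 X.κ mm c C X.r0 X.r1 (max s2 1) v X.lam X.β X.μ (X.D B) X.a X.aL X.JR X.JL X.MM Φ
    X.pr.hκ mm_ne hc X.r0_pos (le_max_right _ _) ?_ ?_ hμ ?_ ?_ hv ?_ ?_ ?_ ?_ ?_
  · intro s h
    have g := (hs2 s (hs s h)).2.2.2.2.2.2.2.2.2.2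
    exact ⟨X.hasDerivAt_lam g, X.st.rate s g⟩
  · intro s h
    obtain ⟨-, -, -, -, -, a4, -, -, -, -, g⟩ := hs2 s (hs s h)
    have L1 := one_le_Lm (X.one_lt g).le
    refine ⟨(hC X B Bp s g).2.2.1, X.D_nonneg B s,
      a4.1.trans (mono_MainG (by linarith) (by linarith)), (bD s g).trans ?_⟩
    exact mul_le_mul_of_nonneg_right (by linarith) (X.D_nonneg B s)
  · intro s h
    obtain ⟨-, aS, -, -, -, -, -, -, -, ⟨μ', d8, a8⟩, g⟩ := hs2 s (hs s h)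
    have D0 := X.D_nonneg B s
    have N0' := X.N_nonneg s
    have nd := ND s g
    obtain ⟨p0, p1⟩ := pp s g
    refine ⟨⟨μ', d8, a8.trans ?_⟩, ?_⟩
    · have h1 : A8 * X.N s ≤ T * X.N s := mono_MainG (by linarith) N0'
      have h2 : T * X.N s ≤ T * (8 * X.D B s) := mul_le_mul_of_nonneg_left nd (by linarith)
      have h3 : 8 * T * X.D B s ≤ C * X.D B s := mul_le_mul_of_nonneg_right (by linarith) D0
      linarith
    · have h0 := X.st.mulo s g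
      have hl := X.lam_pos g
      have l2 : X.lam s ^ 2 ≤ κ1 * s ^ (-(3 : ℝ) / 2) := by
        have h1 := pow_le_pow_left₀ hl.le aS.2.2.2.2.2.1 2
        have h2 : (k * s ^ (-(3 : ℝ) / 2)) ^ 2 ≤ κ1 * s ^ (-(3 : ℝ) / 2) := by
          rw [mul_pow]
          exact mul_le_mul k4 (by nlinarith only [p0, p1]) (by positivity) (by linarith)
        linarith
      have h1 : X.Cp * (X.lam s ^ 2 + N0 (X.e s)) ≤ T * (X.lam s ^ 2 + X.N s) :=
        mono_MainG (by linarith) (add_nonneg (sq_nonneg _) N0')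
      have h2 : T * (X.lam s ^ 2 + X.N s) ≤ T * (κ1 * s ^ (-(3 : ℝ) / 2) + 8 * X.D B s) :=
        mul_le_mul_of_nonneg_left (by linarith) (by linarith)
      have h3 : 8 * T * X.D B s ≤ C * X.D B s := mul_le_mul_of_nonneg_right (by linarith) D0
      have h4 : T * κ1 * s ^ (-(3 : ℝ) / 2) ≤ C * s ^ (-(3 : ℝ) / 2) :=
        mul_le_mul_of_nonneg_right TK p0.le
      unfold Dat.μ
      linarith
  · intro s h
    obtain ⟨aR, aS, -, ⟨a', d1, a1⟩, -, -, -, -, -, -, g⟩ := hs2 s (hs s h)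
    have D0 := X.D_nonneg B s
    obtain ⟨p0, p1⟩ := pp s g
    refine ⟨⟨a', d1, ?_⟩, aR.2.trans (mul_le_mul_of_nonneg_right (by linarith) (X.lam_pos g).le)⟩
    have t0 := X.tau_pos (show 0 < s by have := X.one_lt g; linarith)
    have h1 : A1 * (Real.sqrt (X.f s) + X.tau s) ≤ T * (Real.sqrt (X.f s) + X.tau s) :=
      mono_MainG (by linarith) (by positivity)
    have h2 : T * (Real.sqrt (X.f s) + X.tau s) ≤ T * ((k + 1) * s ^ (-(3 : ℝ) / 2)) :=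
      mul_le_mul_of_nonneg_left (by have := aS.2.2.1; have := aS.2.2.2.2.1; linarith)
        (by linarith)
    have h3 : |X.β s * X.a s / 2| ≤ X.β s ^ 2 + X.a s ^ 2 := by
      rw [abs_le]; constructor <;>
        nlinarith only [sq_nonneg (X.β s + X.a s), sq_nonneg (X.β s - X.a s)]
    have h4 : |a'| ≤ |a' + X.β s * X.a s / 2| + |X.β s * X.a s / 2| := by
      have := abs_sub (a' + X.β s * X.a s / 2) (X.β s * X.a s / 2)
      simpa using this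
    have h5 := bD s g
    have h6 := aS.2.1
    have h7 : 8 * T * X.D B s ≤ C * X.D B s := mul_le_mul_of_nonneg_right (by linarith) D0
    have h8 : (T * (k + 1) + k) * s ^ (-(3 : ℝ) / 2) ≤ C * s ^ (-(3 : ℝ) / 2) :=
      mul_le_mul_of_nonneg_right TK1 p0.le
    linarith
  · intro s h
    obtain ⟨-, aS, -, -, a3, a4, -, -, -, -, g⟩ := hs2 s (hs s h)
    have D0 := X.D_nonneg B s
    have L1 := one_le_Lm (X.one_lt g).le
    obtain ⟨p0, p1⟩ := pp s g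
    have t0 := X.tau_pos (show 0 < s by have := X.one_lt g; linarith)
    have LD : 0 ≤ Lm s * X.D B s := by positivity
    refine ⟨a3.trans (mono_MainG (by linarith) LD), a4.2.1.trans ?_⟩
    have h1 : A4 * (Lm s * X.D B s + X.tau s) ≤ C * (Lm s * X.D B s + X.tau s) :=
      mono_MainG (by linarith) (by linarith)
    exact h1.trans (mul_le_mul_of_nonneg_left (by have := aS.2.2.2.2.1; linarith) C0)
  · intro s h
    obtain ⟨-, aS, aΦ, -, -, -, -, -, -, -, g⟩ := hs2 s (hs s h)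
    have D0 := X.D_nonneg B s
    have L1 := one_le_Lm (X.one_lt g).le
    obtain ⟨p0, p1⟩ := pp s g
    have h1 : Lm s * X.Z s ≤ k * (Lm s * s ^ (-(3 : ℝ) / 2)) := by
      have := mul_le_mul_of_nonneg_left aS.1 (show 0 ≤ Lm s by linarith)
      linarith
    have LP : 0 ≤ Lm s * s ^ (-(3 : ℝ) / 2) := by positivity
    have h2 : A0 * (Lm s * X.Z s) ≤ C * (Lm s * s ^ (-(3 : ℝ) / 2)) := by
      have h3 := mul_le_mul_of_nonneg_left h1 hA0
      have h4 : A0 * k * (Lm s * s ^ (-(3 : ℝ) / 2)) ≤ C * (Lm s * s ^ (-(3 : ℝ) / 2)) :=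
        mul_le_mul_of_nonneg_right TK2 LP
      linarith
    have h5 : A0 * X.D B s ≤ C * X.D B s := mul_le_mul_of_nonneg_right (by linarith) D0
    have h6 : A0 * X.μ s ^ 2 ≤ C * X.μ s ^ 2 :=
      mul_le_mul_of_nonneg_right (by linarith) (sq_nonneg _)
    refine ⟨aΦ.1, ?_, ?_, aΦ.2.2.2.mono ?_⟩
    · have := aΦ.2.1; linarith
    · have := aΦ.2.2.1; linarith
    · linarith
  · intro s h
    obtain ⟨-, aS, -, -, -, -, ⟨J', d5, a5⟩, -, -, -, g⟩ := hs2 s (hs s h)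
    have D0 := X.D_nonneg B s
    obtain ⟨p0, p1⟩ := pp s g
    refine ⟨J', d5, a5.trans ?_⟩
    have h1 := mono_MainG (show |A5| ≤ T by linarith) (show 0 ≤ X.D B s + X.a s ^ 2
      + Real.sqrt (X.f s) + s ^ (-(3 : ℝ) / 2) by positivity)
    have h2 : T * (X.D B s + X.a s ^ 2 + Real.sqrt (X.f s) + s ^ (-(3 : ℝ) / 2))
        ≤ T * (X.D B s + (2 * k + 1) * s ^ (-(3 : ℝ) / 2)) :=
      mul_le_mul_of_nonneg_left (by have := aS.2.1; have := aS.2.2.1; linarith) (by linarith)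
    have h3 : T * X.D B s ≤ C * X.D B s := mul_le_mul_of_nonneg_right (by linarith) D0
    have h4 : T * (2 * k + 1) * s ^ (-(3 : ℝ) / 2) ≤ C * s ^ (-(3 : ℝ) / 2) :=
      mul_le_mul_of_nonneg_right TK3 p0.le
    linarith
  · intro s h
    obtain ⟨-, -, -, -, -, -, -, ⟨J', d6, a6⟩, -, -, g⟩ := hs2 s (hs s h)
    have D0 := X.D_nonneg B s
    have L1 := one_le_Lm (X.one_lt g).le
    obtain ⟨p0, p1⟩ := pp s g
    exact ⟨J', d6, a6.trans (mono_MainG (by linarith) (by positivity))⟩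
  · intro s h
    obtain ⟨-, aS, -, -, -, -, -, -, ⟨M', d7, a7⟩, -, g⟩ := hs2 s (hs s h)
    have D0 := X.D_nonneg B s
    have s1 := X.one_lt g
    have L1 := one_le_Lm s1.le
    obtain ⟨p0, p1⟩ := pp s g
    refine ⟨M', d7, fun ω => (a7 ω).trans ?_⟩
    have t0 := X.tau_pos (show 0 < s by linarith)
    have f0 := X.f_nonneg g
    have q0 : 0 < s ^ (-(9 : ℝ) / 4) := Real.rpow_pos_of_pos (by linarith) _
    set w := Real.sqrt (X.D B s) + 1 / s with hw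
    have w0 : 0 ≤ w := by have : 0 < s := by linarith
                          positivity
    have h1 := mono_MainG (show |A7| ≤ T by linarith) (show 0 ≤ Real.sqrt (X.f s) * |X.a s|
      + X.f s + X.tau s + Lm s * (w * (X.D B s + X.a s ^ 2 + X.f s) + X.D B s ^ 2) by positivity)
    have h2 : X.D B s + X.a s ^ 2 + X.f s ≤ κ1 * (X.D B s + s ^ (-(3 : ℝ) / 2)) := by
      have := aS.2.1; have := aS.2.2.2.1
      have h3 : (2 * k + 1) * s ^ (-(3 : ℝ) / 2) ≤ κ1 * s ^ (-(3 : ℝ) / 2) :=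
        mul_le_mul_of_nonneg_right k3 p0.le
      have h4 : 1 * X.D B s ≤ κ1 * X.D B s := mul_le_mul_of_nonneg_right k1 D0
      linarith
    have h3 : w * (X.D B s + X.a s ^ 2 + X.f s) + X.D B s ^ 2
        ≤ κ1 * (w * (X.D B s + s ^ (-(3 : ℝ) / 2)) + X.D B s ^ 2) := by
      have := mul_le_mul_of_nonneg_left h2 w0
      have h4 : 1 * X.D B s ^ 2 ≤ κ1 * X.D B s ^ 2 := mul_le_mul_of_nonneg_right k1 (sq_nonneg _)
      linarith
    have h4 := mul_le_mul_of_nonneg_left h3 (show 0 ≤ Lm s by linarith)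
    have h5 : k * s ^ (-(9 : ℝ) / 4) ≤ κ1 * s ^ (-(9 : ℝ) / 4) :=
      mul_le_mul_of_nonneg_right (by linarith) q0.le
    have h6 := aS.2.2.2.2.2.2
    set R := s ^ (-(9 : ℝ) / 4) + Lm s * (w * (X.D B s + s ^ (-(3 : ℝ) / 2)) + X.D B s ^ 2)
      with hR
    have R0 : 0 ≤ R := by positivity
    have h7 : Real.sqrt (X.f s) * |X.a s| + X.f s + X.tau s
        + Lm s * (w * (X.D B s + X.a s ^ 2 + X.f s) + X.D B s ^ 2) ≤ κ1 * R := by
      rw [hR]; linarith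
    have h8 := mul_le_mul_of_nonneg_left h7 (show 0 ≤ T by linarith)
    have h9 : T * κ1 * R ≤ C * R := mul_le_mul_of_nonneg_right TK R0
    linarith

theorem mainE (hC : ContStmt) (r1 : R1Stmt) (r2 : R2Stmt) (r3 : R3Stmt) (r4 : R4Stmt)
    (hS2 : S2Stmt) (hS1 : S1Stmt) (h2 : E2Stmt) (i1 : I1Stmt) (i2 : I2Stmt) (i3 : I3Stmt)
    (i4 : I4Stmt) (i5 : I5Stmt) (hJ : BdJStmt) (hM : BdMStmt) (hG : GSStmt) (jr : JRStmt)
    (jl : JLStmt) (hMM : MMStmt) (hMu : MuStmt) (h4 : E4Stmt) : MainEStmt := by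
  intro κ s0 r0 r1' M η d Cp e ey lam β γ st hκ
  obtain ⟨c, ε0, hc, hε, h4⟩ := h4
  set K := max (100 * (r1' + 1)) (r1' / ε0) with hK
  have pr : Par κ r1' K ((2 * κ + 10) * K) := ⟨hκ, le_max_left _ _, le_rfl⟩
  let X : Dat := ⟨κ, s0, r0, r1', M, η, d, Cp, K, (2 * κ + 10) * K, e, ey, lam, β, γ, st, pr⟩
  have hX : X.r1 ≤ ε0 * X.K := by
    have : r1' / ε0 ≤ K := le_max_right _ _
    rw [div_le_iff₀ hε] at this
    show r1' ≤ ε0 * K
    linarith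
  exact dat_MainG hC r1 r2 r3 r4 hS2 hS1 h2 i1 i2 i3 i4 i5 hJ hM hG jr jl hMM hMu X hc (h4 X hX)

end Pool.Agent.MP_8339a4_an
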