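import Pool.Agent.Mg.F8339a4.G21cb39

section

/-! G block: the resolvent kernel. -/

open MeasureTheory Filter Topology Set

namespace Pool.Agent.MP_8339a4_an

variable {a A c : ℝ} {f : ℝ → ℝ}

theorem GA_shift (g : ℝ → ℝ) (y : ℝ) :
    ∫ x in Ioi (0 : ℝ), g (y + x) = ∫ x in Ioi y, g x := by
  rw [← integral_indicator measurableSet_Ioi, ← integral_indicator measurableSet_Ioi,
    ← integral_add_left_eq_self (fun x => (Ioi y).indicator g x) y]
  congr 1
  ext x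
  by_cases hx : 0 < x
  · rw [indicator_of_mem (show x ∈ Ioi (0 : ℝ) from hx),
      indicator_of_mem (show y + x ∈ Ioi y from by simpa using hx)]
  · rw [indicator_of_notMem (show x ∉ Ioi (0 : ℝ) from hx),
      indicator_of_notMem (show y + x ∉ Ioi y from by simpa using hx)]

theorem GA_eq (ha : 0 < a) (f : ℝ → ℝ) (y : ℝ) :
    Jk a f y = Real.exp (y / a) * (a⁻¹ * ∫ x in Ioi y, Real.exp (-a⁻¹ * x) * f x) := by
  have h1 := integral_comp_mul_left_Ioi
    (fun x => Real.exp (-a⁻¹ * (y + x)) * f (y + x)) 0 ha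
  rw [mul_zero, GA_shift (fun x => Real.exp (-a⁻¹ * x) * f x) y, smul_eq_mul] at h1
  rw [← h1, ← integral_const_mul]
  unfold Jk
  congr 1
  ext t
  rw [← mul_assoc, ← Real.exp_add]
  congr 2
  field_simp
  ring

theorem GA_int (ha : 0 < a) (hf : Bdd f) (y : ℝ) :
    IntegrableOn (fun x => Real.exp (-a⁻¹ * x) * f x) (Ioi y) := by
  obtain ⟨hc, C, hC⟩ := hf
  have h0 : IntegrableOn (fun x => Real.exp (-a⁻¹ * x)) (Ioi y) :=
    integrableOn_exp_mul_Ioi (by have := inv_pos.mpr ha; linarith) y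
  exact h0.mul_bdd (c := C) hc.aestronglyMeasurable (Eventually.of_forall fun x => hC x)

theorem GA_pos (ha : 0 < a) (hf : Bdd f) (y : ℝ) :
    HasDerivAt (Jk a f) ((Jk a f y - f y) / a) y := by
  have hg : Continuous fun x => Real.exp (-a⁻¹ * x) * f x := by
    have := hf.1
    fun_prop
  have h1 : HasDerivAt (fun u => ∫ x in Ioi u, Real.exp (-a⁻¹ * x) * f x)
      (-(Real.exp (-a⁻¹ * y) * f y)) y := by
    have h2 := (hg.integral_hasStrictDerivAt 0 y).hasDerivAt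
    have h3 : (fun u => ∫ x in Ioi u, Real.exp (-a⁻¹ * x) * f x) = fun u =>
        (∫ x in Ioi (0 : ℝ), Real.exp (-a⁻¹ * x) * f x)
          - ∫ x in (0 : ℝ)..u, Real.exp (-a⁻¹ * x) * f x := by
      ext u
      rw [← intervalIntegral.integral_Ioi_sub_Ioi' (GA_int ha hf 0) (GA_int ha hf u)]
      ring
    rw [h3]
    exact h2.const_sub _
  have h4 : HasDerivAt (fun u => Real.exp (u / a)) (Real.exp (y / a) * (1 / a)) y :=
    ((hasDerivAt_id y).div_const a).exp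
  have h5 := h4.mul (h1.const_mul a⁻¹)
  have h6 : Jk a f = fun u => Real.exp (u / a)
      * (a⁻¹ * ∫ x in Ioi u, Real.exp (-a⁻¹ * x) * f x) := funext (GA_eq ha f)
  have h7 : Real.exp (y / a) * Real.exp (-a⁻¹ * y) = 1 := by
    rw [← Real.exp_add]
    have : y / a + -a⁻¹ * y = 0 := by field_simp; ring
    rw [this, Real.exp_zero]
  rw [GA_eq ha f y, h6]
  refine h5.congr_deriv ?_
  have h8 : Real.exp (y / a) * (a⁻¹ * -(Real.exp (-a⁻¹ * y) * f y)) = -(f y) / a := by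
    have : Real.exp (y / a) * (a⁻¹ * -(Real.exp (-a⁻¹ * y) * f y))
        = -((Real.exp (y / a) * Real.exp (-a⁻¹ * y)) * f y) / a := by ring
    rw [this, h7, one_mul]
  rw [h8]
  ring

theorem hasDerivAt_Jk (ha : a ≠ 0) (hf : Bdd f) (y : ℝ) :
    HasDerivAt (Jk a f) ((Jk a f y - f y) / a) y := by
  rcases lt_or_gt_of_ne ha with h | h
  · have hb : Bdd fun x => f (-x) := by
      obtain ⟨hc, C, hC⟩ := hf
      exact ⟨hc.comp continuous_neg, C, fun x => hC _⟩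
    have he : ∀ u, Jk a f u = Jk (-a) (fun x => f (-x)) (-u) := by
      intro u
      unfold Jk
      congr 1
      ext t
      congr 2
      ring
    have h1 := (GA_pos (neg_pos.mpr h) hb (-y)).comp y (hasDerivAt_neg y)
    have h2 : Jk a f = (Jk (-a) fun x => f (-x)) ∘ Neg.neg := funext he
    rw [he y, h2]
    refine h1.congr_deriv ?_
    simp only [neg_neg]
    field_simp
  · exact GA_pos h hf y

theorem abs_Jk_le (hf : Continuous f) (hc : |c| * |a| ≤ 1 / 2)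
    (h : ∀ y, |f y| ≤ A * Real.exp (c * |y|)) (y : ℝ) :
    |Jk a f y| ≤ 2 * A * Real.exp (c * |y|) := by
  have hA : 0 ≤ A := by
    have := h 0
    simp only [abs_zero, mul_zero, Real.exp_zero, mul_one] at this
    exact (abs_nonneg _).trans this
  have h0 : IntegrableOn (fun t : ℝ => A * Real.exp (c * |y|) * Real.exp (-(1 / 2) * t))
      (Ioi 0) := (integrableOn_exp_mul_Ioi (by norm_num) 0).const_mul _
  have h1 : ‖Jk a f y‖ ≤ ∫ t in Ioi (0 : ℝ), A * Real.exp (c * |y|) * Real.exp (-(1 / 2) * t) := by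
    refine norm_integral_le_of_norm_le h0 ?_
    refine (ae_restrict_iff' measurableSet_Ioi).2 (Eventually.of_forall fun t ht => ?_)
    have ht' : 0 < t := ht
    rw [Real.norm_eq_abs, abs_mul, abs_of_pos (Real.exp_pos _)]
    have h2 : c * |y + a * t| ≤ c * |y| + t / 2 := by
      have h3 : abs (|y + a * t| - |y|) ≤ |a| * t := by
        have := abs_abs_sub_abs_le_abs_sub (y + a * t) y
        rwa [add_sub_cancel_left, abs_mul, abs_of_pos ht'] at this
      have h4 : c * (|y + a * t| - |y|) ≤ |c| * (|a| * t) :=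
        (le_abs_self _).trans (by rw [abs_mul]; exact mul_le_mul_of_nonneg_left h3 (abs_nonneg _))
      have h5 : |c| * (|a| * t) ≤ 1 / 2 * t := by
        rw [← mul_assoc]; exact mul_le_mul_of_nonneg_right hc ht'.le
      linarith
    calc Real.exp (-t) * |f (y + a * t)|
        ≤ Real.exp (-t) * (A * Real.exp (c * |y| + t / 2)) := by
          refine mul_le_mul_of_nonneg_left ((h _).trans ?_) (Real.exp_pos _).le
          exact mul_le_mul_of_nonneg_left (Real.exp_le_exp.2 h2) hA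
      _ = A * Real.exp (c * |y|) * (Real.exp (-t) * Real.exp (t / 2)) := by
          rw [Real.exp_add]; ring
      _ = A * Real.exp (c * |y|) * Real.exp (-(1 / 2) * t) := by
          rw [← Real.exp_add]; congr 2; ring
  rw [integral_const_mul, integral_exp_mul_Ioi (by norm_num), Real.norm_eq_abs] at h1
  refine h1.trans (le_of_eq ?_)
  simp only [mul_zero, Real.exp_zero]
  ring

theorem abs_X0_le (ha : 0 < a) (hf : Continuous f) (hc : |c| * a ≤ 1 / 2)
    (h : ∀ y, |f y| ≤ A * Real.exp (c * |y|)) (y : ℝ) :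
    |X0 a f y| ≤ 2 * A * Real.exp (c * |y|) := by
  have h1 := abs_Jk_le (a := a) hf (by rwa [abs_of_pos ha]) h y
  have h2 := abs_Jk_le (a := -a) hf (by rwa [abs_neg, abs_of_pos ha]) h y
  unfold X0
  rw [abs_le] at h1 h2 ⊢
  constructor <;> linarith [h1.1, h1.2, h2.1, h2.2]

theorem abs_X1_le (ha : 0 < a) (hf : Continuous f) (hc : |c| * a ≤ 1 / 2)
    (h : ∀ y, |f y| ≤ A * Real.exp (c * |y|)) (y : ℝ) :
    |X1 a f y| ≤ 2 * A / a * Real.exp (c * |y|) := by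
  have h1 := abs_Jk_le (a := a) hf (by rwa [abs_of_pos ha]) h y
  have h2 := abs_Jk_le (a := -a) hf (by rwa [abs_neg, abs_of_pos ha]) h y
  unfold X1
  have h3 : |Jk a f y - Jk (-a) f y| ≤ 4 * A * Real.exp (c * |y|) := by
    rw [abs_le] at h1 h2 ⊢
    constructor <;> linarith [h1.1, h1.2, h2.1, h2.2]
  rw [abs_div, abs_of_pos (by positivity : 0 < 2 * a), div_le_iff₀ (by positivity)]
  refine h3.trans (le_of_eq ?_)
  field_simp
  ring

theorem GA_d0 (ha : 0 < a) (hf : Bdd f) (y : ℝ) : HasDerivAt (X0 a f) (X1 a f y) y := by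
  have h1 := ((hasDerivAt_Jk ha.ne' hf y).add
    (hasDerivAt_Jk (neg_ne_zero.mpr ha.ne') hf y)).div_const 2
  refine h1.congr_deriv ?_
  unfold X1
  field_simp
  ring

theorem GA_d1 (ha : 0 < a) (hf : Bdd f) (y : ℝ) :
    HasDerivAt (X1 a f) ((X0 a f y - f y) / a ^ 2) y := by
  have h1 := ((hasDerivAt_Jk ha.ne' hf y).sub
    (hasDerivAt_Jk (neg_ne_zero.mpr ha.ne') hf y)).div_const (2 * a)
  refine h1.congr_deriv ?_
  unfold X0
  field_simp
  ring

theorem res_X (ha : 0 < a) (hf : Bdd f) : Res a f (X0 a f) (X1 a f) := by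
  obtain ⟨C, hC⟩ := hf.2
  have hC' : ∀ y, |f y| ≤ C * Real.exp (0 * |y|) := fun y => by simpa using hC y
  have h0 : |(0 : ℝ)| * a ≤ 1 / 2 := by simp
  refine ⟨GA_d0 ha hf, GA_d1 ha hf, hf, ⟨?_, 2 * C, fun y => ?_⟩, ⟨?_, 2 * C / a, fun y => ?_⟩⟩
  · exact continuous_iff_continuousAt.2 fun y => (GA_d0 ha hf y).continuousAt
  · simpa using abs_X0_le ha hf.1 h0 hC' y
  · exact continuous_iff_continuousAt.2 fun y => (GA_d1 ha hf y).continuousAt
  · simpa using abs_X1_le ha hf.1 h0 hC' y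

theorem GA_rate (ha : 0 < a) (hf : ExpD f) : Bdd f ∧ ∃ C c : ℝ, 0 < c ∧ |-c| * a ≤ 1 / 2 ∧
    ∀ y, |f y| ≤ C * Real.exp (-c * |y|) := by
  obtain ⟨hc, C, c, hc0, h⟩ := hf
  have hC : 0 ≤ C := by
    have := h 0
    simp only [abs_zero, mul_zero, neg_zero, Real.exp_zero, mul_one] at this
    exact (abs_nonneg _).trans this
  have hm : 0 < min c (1 / (2 * a)) := lt_min hc0 (by positivity)
  refine ⟨⟨hc, C, fun y => (h y).trans ?_⟩, C, min c (1 / (2 * a)), hm, ?_, fun y => (h y).trans ?_⟩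
  · refine mul_le_of_le_one_right hC (Real.exp_le_one_iff.2 ?_)
    have := mul_nonneg hc0.le (abs_nonneg y)
    linarith
  · rw [abs_neg, abs_of_pos hm]
    calc min c (1 / (2 * a)) * a ≤ 1 / (2 * a) * a :=
          mul_le_mul_of_nonneg_right (min_le_right _ _) ha.le
      _ = 1 / 2 := by field_simp
  · refine mul_le_mul_of_nonneg_left (Real.exp_le_exp.2 ?_) hC
    have := mul_le_mul_of_nonneg_right (min_le_left c (1 / (2 * a))) (abs_nonneg y)
    linarith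

theorem expD_X0 (ha : 0 < a) (hf : ExpD f) : ExpD (X0 a f) := by
  obtain ⟨hb, C, c, hc0, hc, h⟩ := GA_rate ha hf
  refine ⟨(res_X ha hb).b0.1, 2 * C, c, hc0, fun y => ?_⟩
  simpa only [neg_mul] using abs_X0_le ha hb.1 hc h y

theorem expD_X1 (ha : 0 < a) (hf : ExpD f) : ExpD (X1 a f) := by
  obtain ⟨hb, C, c, hc0, hc, h⟩ := GA_rate ha hf
  refine ⟨(res_X ha hb).b1.1, 2 * C / a, c, hc0, fun y => ?_⟩
  simpa only [neg_mul] using abs_X1_le ha hb.1 hc h y

end Pool.Agent.MP_8339a4_an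

end

section

/-! G block: energy estimates for the resolvent. -/

open MeasureTheory Filter Topology Set

namespace Pool.Agent.MP_8339a4_an

variable {a : ℝ} {w f fy u u1 ψ ψ1 ψ2 : ℝ → ℝ}

theorem GC_le {p q r g : ℝ → ℝ} {A B c : ℝ} (ip : Integrable p) (iq : Integrable q)
    (ir : Integrable r) (ig : Integrable g) (hg : ∫ y, g y = 0)
    (H : ∀ y, p y + A * q y ≤ B * r y + c * g y) :
    (∫ y, p y) + A * ∫ y, q y ≤ B * ∫ y, r y := by
  have h := integral_mono (ip.add (iq.const_mul A)) ((ir.const_mul B).add (ig.const_mul c)) H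
  have e1 : ∫ y, (p + fun y => A * q y) y = (∫ y, p y) + A * ∫ y, q y := by
    rw [← integral_const_mul, ← integral_add ip (iq.const_mul A)]
    rfl
  have e2 : ∫ y, ((fun y => B * r y) + fun y => c * g y) y = B * (∫ y, r y) + c * ∫ y, g y := by
    rw [← integral_const_mul, ← integral_const_mul,
      ← integral_add (ir.const_mul B) (ig.const_mul c)]
    rfl
  rw [e1, e2, hg] at h
  linarith

theorem GC_pt {p p1 : ℝ} (h : |p1| ≤ 4 * p) (x y : ℝ) :
    0 ≤ p * (8 * x ^ 2 + y ^ 2 / 2) + p1 * (x * y) := by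
  obtain ⟨h1, h2⟩ := abs_le.1 h
  have e : p * (8 * x ^ 2 + y ^ 2 / 2) + p1 * (x * y) =
      ((4 * p + p1) * (4 * x + y) ^ 2 + (4 * p - p1) * (4 * x - y) ^ 2) / 16 := by ring
  rw [e]
  have h3 : 0 ≤ 4 * p + p1 := by linarith
  have h4 : 0 ≤ 4 * p - p1 := by linarith
  positivity

theorem GC_w1 (hw : SW w) : ∃ w1 : ℝ → ℝ, ExpD w1 ∧ (∀ y, HasDerivAt w (w1 y) y) ∧
    ∀ y, |w1 y| ≤ 4 * w y := by
  obtain ⟨w1, h1, h2, h3⟩ := hw.dr
  refine ⟨w1, hw.ex.of_le h1 4 fun y => ?_, h2, h3⟩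
  rw [abs_of_nonneg (hw.nn y)]
  exact h3 y

theorem GC_sq (ha : 0 < a) (ha8 : a ≤ 1 / 8) : 0 < a ^ 2 ∧ a ^ 2 ≤ 1 / 64 :=
  ⟨by positivity, by nlinarith⟩

theorem Res.green (h : Res a f u u1) (ha : a ≠ 0) (hψ : D2 ψ ψ1 ψ2) :
    ∫ y, u y * (ψ y - a ^ 2 * ψ2 y) = ∫ y, f y * ψ y := by
  have e1 : ExpD fun y => u y * (ψ y - a ^ 2 * ψ2 y) :=
    (hψ.e0.sub (hψ.e2.const_mul _)).bdd_mul h.b0
  have e2 : ExpD fun y => f y * ψ y := hψ.e0.bdd_mul h.bf
  have e3 : ExpD fun y => a ^ 2 * (u1 y * ψ y - u y * ψ1 y) :=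
    ((hψ.e0.bdd_mul h.b1).sub (hψ.e1.bdd_mul h.b0)).const_mul _
  have hd : ∀ y, HasDerivAt (fun y => a ^ 2 * (u1 y * ψ y - u y * ψ1 y))
      (u y * (ψ y - a ^ 2 * ψ2 y) - f y * ψ y) y := by
    intro y
    refine ((((h.d1 y).mul (hψ.d0 y)).sub ((h.d0 y).mul (hψ.d1 y))).const_mul
      (a ^ 2)).congr_deriv ?_
    field_simp
    ring
  have := int_deriv_zero hd e3 (e1.sub e2)
  rw [integral_sub e1.integrable e2.integrable] at this
  linarith

theorem Res.energy (h : Res a f u u1) (ha : 0 < a) (ha8 : a ≤ 1 / 8) (hw : SW w) :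
    wn w u + a ^ 2 * wn w u1 ≤ 2 * wn w f := by
  obtain ⟨w1, x1, d1, l1⟩ := GC_w1 hw
  obtain ⟨s1, s2⟩ := GC_sq ha ha8
  have e1 : ExpD fun y => a ^ 2 * (w y * (u y * u1 y)) :=
    (hw.ex.mul_bdd (h.b0.mul h.b1)).const_mul _
  have e2 : ExpD fun y => a ^ 2 * (w1 y * (u y * u1 y)) + a ^ 2 * (w y * u1 y ^ 2) +
      w y * (u y * (u y - f y)) :=
    (((x1.mul_bdd (h.b0.mul h.b1)).const_mul _).add
      ((hw.ex.mul_bdd (h.b1.pow 2)).const_mul _)).add (hw.ex.mul_bdd (h.b0.mul (h.b0.sub h.bf)))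
  have hd : ∀ y, HasDerivAt (fun y => a ^ 2 * (w y * (u y * u1 y)))
      (a ^ 2 * (w1 y * (u y * u1 y)) + a ^ 2 * (w y * u1 y ^ 2) + w y * (u y * (u y - f y))) y := by
    intro y
    refine (((d1 y).mul ((h.d0 y).mul (h.d1 y))).const_mul (a ^ 2)).congr_deriv ?_
    simp only [Pi.mul_apply]
    field_simp
    ring
  refine GC_le (c := 2) (hw.int_sq h.b0) (hw.int_sq h.b1) (hw.int_sq h.bf) e2.integrable
    (int_deriv_zero hd e1 e2) fun y => ?_
  have p1 := mul_nonneg s1.le (GC_pt (l1 y) (u y) (u1 y))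
  have p2 := mul_nonneg (hw.nn y) (sq_nonneg (f y - u y / 2))
  have p3 := mul_nonneg (sub_nonneg.2 s2) (mul_nonneg (hw.nn y) (sq_nonneg (u y)))
  have p4 := mul_nonneg (hw.nn y) (sq_nonneg (u y))
  nlinarith

theorem GC_H (h : Res a f u u1) (ha : 0 < a) (ha8 : a ≤ 1 / 8) (hw : SW w) (hf : IsPrim f fy)
    (i1 : Integrable fun y => w y * (u1 y * fy y)) (i2 : Integrable fun y => w y * fy y ^ 2) :
    wn w (fun y => f y - u y) + a ^ 2 * wn w u1 ≤ 2 * a ^ 2 * wn w fy := by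
  obtain ⟨w1, x1, d1, l1⟩ := GC_w1 hw
  obtain ⟨s1, s2⟩ := GC_sq ha ha8
  have bv : Bdd fun y => u y - f y := h.b0.sub h.bf
  have q0 : IsPrim w w1 := IsPrim.of_hasDerivAt d1 x1.1
  have q1 : IsPrim u u1 := IsPrim.of_hasDerivAt h.d0 h.b1.1
  have q2 : IsPrim u1 fun y => (u y - f y) / a ^ 2 :=
    IsPrim.of_hasDerivAt h.d1 (bv.div_const _).1
  have q3 : IsPrim (fun y => a ^ 2 * (w y * (u1 y * (u y - f y))))
      (fun y => a ^ 2 * (w1 y * (u1 y * (u y - f y))) + w y * (u y - f y) ^ 2 +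
        a ^ 2 * (w y * u1 y ^ 2) - a ^ 2 * (w y * (u1 y * fy y))) := by
    refine ((q0.mul (q2.mul (q1.sub hf))).const_mul (a ^ 2)).congr (fun _ => rfl) fun y => ?_
    field_simp
    ring
  have j1 : Integrable fun y => a ^ 2 * (w1 y * (u1 y * (u y - f y))) + w y * (u y - f y) ^ 2 +
      a ^ 2 * (w y * u1 y ^ 2) - a ^ 2 * (w y * (u1 y * fy y)) :=
    ((((x1.mul_bdd (h.b1.mul bv)).const_mul _).add (hw.ex.mul_bdd (bv.pow 2))).add
      ((hw.ex.mul_bdd (h.b1.pow 2)).const_mul _)).integrable.sub (i1.const_mul _)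
  refine GC_le (c := 2) (hw.int_sq (h.bf.sub h.b0)) (hw.int_sq h.b1) i2 j1
    (q3.integral_eq_zero ((hw.ex.mul_bdd (h.b1.mul bv)).const_mul _).integrable j1) fun y => ?_
  have p1 := GC_pt (l1 y) (a ^ 2 * u1 y) (u y - f y)
  have p2 := mul_nonneg s1.le (mul_nonneg (hw.nn y) (sq_nonneg (fy y - u1 y / 2)))
  have p4 := mul_nonneg s1.le (mul_nonneg (hw.nn y) (sq_nonneg (u1 y)))
  have p3 := mul_nonneg (sub_nonneg.2 s2) p4
  nlinarith

theorem Res.energyH (h : Res a f u u1) (ha : 0 < a) (ha8 : a ≤ 1 / 8) (hw : SW w)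
    (hf : IsH1 f fy) :
    wn w (fun y => f y - u y) + a ^ 2 * wn w u1 ≤ 2 * a ^ 2 * wn w fy := by
  refine GC_H h ha ha8 hw hf.isPrim ?_ (hw.int_sq2 hf.2.1)
  simpa only [mul_assoc] using integrable_mul2 (hw.ex.mul_bdd h.b1).memLp hf.2.1

/-- The derivative solves the same equation. -/
theorem Res.deriv (h : Res a f u u1) (hf : ∀ y, HasDerivAt f (fy y) y) (hb : Bdd fy) :
    Res a fy u1 (fun y => (u y - f y) / a ^ 2) :=
  ⟨h.d1, fun y => ((h.d0 y).sub (hf y)).div_const _, hb, h.b1, (h.b0.sub h.bf).div_const _⟩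

theorem Res.energyD (h : Res a f u u1) (ha : 0 < a) (ha8 : a ≤ 1 / 8) (hw : SW w)
    (hf : ∀ y, HasDerivAt f (fy y) y) (hb : Bdd fy) :
    wn w (fun y => f y - u y) + a ^ 2 * wn w u1 ≤ 2 * a ^ 2 * wn w fy :=
  GC_H h ha ha8 hw (IsPrim.of_hasDerivAt hf hb.1) (hw.int_mul h.b1 hb) (hw.int_sq hb)

theorem GC_mem {g : ℝ → ℝ} {K : ℝ} (hg : Bdd g) (H : ∀ b : ℝ, 1 ≤ b → wn (Pb b) g ≤ K) :
    MemLp g 2 volume := by
  rw [memLp_two_iff_integrable_sq hg.1.aestronglyMeasurable]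
  have c2 : Continuous fun y => g y ^ 2 := hg.1.pow 2
  refine integrable_of_intervalIntegral_norm_bounded (l := atTop) (a := fun R : ℝ => -R)
    (b := fun R : ℝ => R) (4 * Real.exp 1 * K)
    (fun R => (c2.integrableOn_Icc).mono_set Ioc_subset_Icc_self) tendsto_neg_atTop_atBot
    tendsto_id ?_
  filter_upwards [eventually_ge_atTop (1 : ℝ)] with R hR
  have hs := sw_Pb hR
  have i1 := (hs.int_sq hg).const_mul (4 * Real.exp 1)
  have h1 : ∫ x in (-R)..R, ‖g x ^ 2‖ ≤ ∫ x in (-R)..R, 4 * Real.exp 1 * (Pb R x * g x ^ 2) := by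
    refine intervalIntegral.integral_mono_on (by linarith) (c2.norm.intervalIntegrable _ _)
      i1.intervalIntegrable fun x hx => ?_
    have h2 := exp_le_Pb (b := R) (by linarith) x
    have h3 : Real.exp (-1) ≤ Real.exp (-(|x| / R)) := by
      apply Real.exp_le_exp.2
      have : |x| / R ≤ 1 := (div_le_one (by linarith)).2 (abs_le.2 hx)
      linarith
    have h4 : Real.exp 1 * Real.exp (-1) = 1 := by
      rw [← Real.exp_add]
      simp
    have h5 : 1 ≤ 4 * Real.exp 1 * Pb R x := by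
      have := mul_le_mul_of_nonneg_left (h3.trans h2) (Real.exp_pos 1).le
      linarith
    rw [Real.norm_eq_abs, abs_of_nonneg (sq_nonneg _), ← mul_assoc]
    exact le_mul_of_one_le_left (sq_nonneg _) h5
  refine h1.trans ?_
  rw [intervalIntegral.integral_of_le (by linarith)]
  refine (setIntegral_le_integral i1 (Eventually.of_forall fun x => ?_)).trans ?_
  · exact mul_nonneg (by positivity) (mul_nonneg (hs.nn x) (sq_nonneg _))
  · rw [integral_const_mul]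
    exact mul_le_mul_of_nonneg_left (H R hR) (by positivity)

theorem Res.isH1 (h : Res a f u u1) (ha : 0 < a) (ha8 : a ≤ 1 / 8) (hf : MemLp f 2 volume) :
    IsH1 u u1 := by
  have key : ∀ b : ℝ, 1 ≤ b → wn (Pb b) u + a ^ 2 * wn (Pb b) u1 ≤ 2 * ∫ y, f y ^ 2 := by
    intro b hb
    refine (h.energy ha ha8 (sw_Pb hb)).trans (mul_le_mul_of_nonneg_left ?_ zero_le_two)
    refine integral_mono ((sw_Pb hb).int_sq h.bf) (integrable_sq2 hf) fun y => ?_
    have : Pb b y ≤ 1 := (P1_le_quarter _).trans (by norm_num)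
    exact mul_le_of_le_one_left (sq_nonneg _) this
  have s1 : 0 < a ^ 2 := by positivity
  refine IsH1.of_isPrim (IsPrim.of_hasDerivAt h.d0 h.b1.1)
    (GC_mem (K := 2 * ∫ y, f y ^ 2) h.b0 fun b hb => ?_)
    (GC_mem (K := (2 * ∫ y, f y ^ 2) / a ^ 2) h.b1 fun b hb => ?_)
  · have := mul_nonneg s1.le (wn_nonneg (sw_Pb hb) u1)
    linarith [key b hb]
  · rw [le_div_iff₀ s1]
    linarith [key b hb, wn_nonneg (sw_Pb hb) u]

end Pool.Agent.MP_8339a4_an

end

section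

/-! G block: regularity and decay of the auxiliary functions. -/

open MeasureTheory Filter Topology Set

namespace Pool.Agent.MP_8339a4_an

variable {a b : ℝ} {e ey : ℝ → ℝ}

theorem bdd_hA (ha : 0 < a) (he : Bdd e) : Bdd (hA a e) :=
  ((he.sub (res_X ha he).b0).div_const (a ^ 2)).add (res_X ha (bdd_one_sub_V.mul he)).b0
theorem res_hB (ha : 0 < a) (he : Bdd e) : Res a (hA a e) (hB a e) (hC a e) :=
  res_X ha (bdd_hA ha he)
theorem bdd_hD (ha : 0 < a) (he : Bdd e) : Bdd (hD a e) :=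
  ((res_hB ha he).b0.sub (bdd_hA ha he)).div_const (a ^ 2)
theorem hasDerivAt_hC (ha : 0 < a) (he : Bdd e) (y : ℝ) : HasDerivAt (hC a e) (hD a e y) y :=
  (res_hB ha he).d1 y
theorem isH1_hB (ha : 0 < a) (ha8 : a ≤ 1 / 8) (he : IsH1 e ey) : IsH1 (hB a e) (hC a e) := by
  have m1 : MemLp (X0 a e) 2 volume := ((res_X ha he.bdd).isH1 ha ha8 he.1).1
  have m2 : MemLp (X0 a (fun x => (1 - V x) * e x)) 2 volume :=
    ((res_X ha (bdd_one_sub_V.mul he.bdd)).isH1 ha ha8 (memLp_bdd_mul he.1 bdd_one_sub_V)).1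
  have m3 : MemLp (fun y => e y - X0 a e y) 2 volume := he.1.sub m1
  have m4 : MemLp (fun y => (e y - X0 a e y) * (a ^ 2)⁻¹) 2 volume :=
    memLp_mul_bdd m3 (Bdd.const _)
  have m5 : MemLp (fun y => (e y - X0 a e y) * (a ^ 2)⁻¹ + X0 a (fun x => (1 - V x) * e x) y)
      2 volume := m4.add m2
  have e5 : hA a e
      = fun y => (e y - X0 a e y) * (a ^ 2)⁻¹ + X0 a (fun x => (1 - V x) * e x) y := by
    funext y
    unfold hA
    rw [div_eq_mul_inv]
  exact (res_hB ha he.bdd).isH1 ha ha8 (e5 ▸ m5)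
theorem d2_gg (ha : 0 < a) (hb : 0 < b) (he : Bdd e) :
    D2 (gg a b e) (gg1 a b e) (gg2 a b e) := by
  have m := test_mw hb
  have r := res_hB ha he
  refine ⟨fun y => (m.sm.d1 y).mul (r.d0 y), fun y => ?_, m.e0.mul_bdd r.b0,
    (m.e1.mul_bdd r.b0).add (m.e0.mul_bdd r.b1),
    ((m.e2.mul_bdd r.b0).add ((m.e1.mul_bdd r.b1).const_mul 2)).add (m.e0.mul_bdd (bdd_hD ha he))⟩
  have h := ((m.sm.d2 y).fun_mul (r.d0 y)).fun_add ((m.sm.d1 y).fun_mul (hasDerivAt_hC ha he y))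
  refine h.congr_deriv ?_
  unfold gg2
  ring
theorem res_kA (ha : 0 < a) (hb : 0 < b) (he : Bdd e) :
    Res a (gg a b e) (kA a b e) (kA1 a b e) := res_X ha (d2_gg ha hb he).e0.bdd
theorem res_kB (ha : 0 < a) (hb : 0 < b) (he : Bdd e) :
    Res a (kA a b e) (kB a b e) (kB1 a b e) := res_X ha (res_kA ha hb he).b0
theorem test_kA (ha : 0 < a) (hb : 0 < b) (he : Bdd e) :
    Test (kA a b e) (kA1 a b e) (kA2 a b e) (kA3 a b e) := by
  have g := d2_gg ha hb he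
  have r := res_kA ha hb he
  have e0 : ExpD (kA a b e) := expD_X0 ha g.e0
  have e1 : ExpD (kA1 a b e) := expD_X1 ha g.e0
  have e2 : ExpD (kA2 a b e) := (e0.sub g.e0).div_const (a ^ 2)
  have e3 : ExpD (kA3 a b e) := (e1.sub g.e1).div_const (a ^ 2)
  exact ⟨⟨r.d0, r.d1, fun y => ((r.d0 y).fun_sub (g.d0 y)).div_const (a ^ 2), e3.1⟩, e0, e1, e2, e3⟩
theorem test_kB (ha : 0 < a) (hb : 0 < b) (he : Bdd e) :
    Test (kB a b e) (kB1 a b e) (kB2 a b e) (kB3 a b e) := by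
  have g := test_kA ha hb he
  have r := res_kB ha hb he
  have e0 : ExpD (kB a b e) := expD_X0 ha g.e0
  have e1 : ExpD (kB1 a b e) := expD_X1 ha g.e0
  have e2 : ExpD (kB2 a b e) := (e0.sub g.e0).div_const (a ^ 2)
  have e3 : ExpD (kB3 a b e) := (e1.sub g.e1).div_const (a ^ 2)
  exact ⟨⟨r.d0, r.d1, fun y => ((r.d0 y).fun_sub (g.sm.d1 y)).div_const (a ^ 2), e3.1⟩,
    e0, e1, e2, e3⟩
theorem GT_dA3 (ha : 0 < a) (hb : 0 < b) (he : Bdd e) (y : ℝ) :
    HasDerivAt (kA3 a b e) (kA4 a b e y) y :=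
  (((test_kA ha hb he).sm.d2 y).fun_sub ((d2_gg ha hb he).d1 y)).div_const (a ^ 2)
theorem GT_dB3 (ha : 0 < a) (hb : 0 < b) (he : Bdd e) (y : ℝ) :
    HasDerivAt (kB3 a b e) (kB4 a b e y) y :=
  (((test_kB ha hb he).sm.d2 y).fun_sub ((test_kA ha hb he).sm.d2 y)).div_const (a ^ 2)
theorem GT_eA4 (ha : 0 < a) (hb : 0 < b) (he : Bdd e) : ExpD (kA4 a b e) :=
  ((test_kA ha hb he).e2.sub (d2_gg ha hb he).e2).div_const (a ^ 2)
theorem GT_eB4 (ha : 0 < a) (hb : 0 < b) (he : Bdd e) : ExpD (kB4 a b e) :=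
  ((test_kB ha hb he).e2.sub (test_kA ha hb he).e2).div_const (a ^ 2)
theorem GT_dV (y : ℝ) : HasDerivAt (fun y => 1 - V y) (-V1 y) y :=
  (hasDerivAt_V y).const_sub 1
theorem test_th (ha : 0 < a) (hb : 0 < b) (he : Bdd e) :
    Test (th0 a b e) (th1 a b e) (th2 a b e) (th3 a b e) := by
  have A := test_kA ha hb he
  have B := test_kB ha hb he
  have e0 : ExpD (th0 a b e) :=
    ((A.e0.sub B.e0).div_const (a ^ 2)).add (B.e0.bdd_mul bdd_one_sub_V)
  have e1 : ExpD (th1 a b e) :=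
    (((A.e1.sub B.e1).div_const (a ^ 2)).sub (B.e0.bdd_mul expD_V1.bdd)).add
      (B.e1.bdd_mul bdd_one_sub_V)
  have e2 : ExpD (th2 a b e) :=
    ((((A.e2.sub B.e2).div_const (a ^ 2)).sub (B.e0.bdd_mul expD_V2.bdd)).sub
      ((B.e1.bdd_mul expD_V1.bdd).const_mul 2)).add (B.e2.bdd_mul bdd_one_sub_V)
  have e3 : ExpD (th3 a b e) :=
    (((((A.e3.sub B.e3).div_const (a ^ 2)).sub (B.e0.bdd_mul expD_V3.bdd)).sub
      ((B.e1.bdd_mul expD_V2.bdd).const_mul 3)).sub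
      ((B.e2.bdd_mul expD_V1.bdd).const_mul 3)).add (B.e3.bdd_mul bdd_one_sub_V)
  refine ⟨⟨fun y => ?_, fun y => ?_, fun y => ?_, e3.1⟩, e0, e1, e2, e3⟩
  · have h := (((A.sm.d1 y).fun_sub (B.sm.d1 y)).div_const (a ^ 2)).fun_add
      ((GT_dV y).fun_mul (B.sm.d1 y))
    refine h.congr_deriv ?_
    unfold th1
    ring
  · have h := ((((A.sm.d2 y).fun_sub (B.sm.d2 y)).div_const (a ^ 2)).fun_sub
      ((hasDerivAt_V1 y).fun_mul (B.sm.d1 y))).fun_add ((GT_dV y).fun_mul (B.sm.d2 y))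
    refine h.congr_deriv ?_
    unfold th2
    ring
  · have h := (((((A.sm.d3 y).fun_sub (B.sm.d3 y)).div_const (a ^ 2)).fun_sub
      ((hasDerivAt_V2 y).fun_mul (B.sm.d1 y))).fun_sub
      (((hasDerivAt_V1 y).fun_mul (B.sm.d2 y)).const_mul 2)).fun_add
      ((GT_dV y).fun_mul (B.sm.d3 y))
    refine h.congr_deriv ?_
    unfold th3
    ring
theorem hasDerivAt_th3 (ha : 0 < a) (hb : 0 < b) (he : Bdd e) (y : ℝ) :
    HasDerivAt (th3 a b e) (th4 a b e y) y := by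
  have B := test_kB ha hb he
  have h := ((((((GT_dA3 ha hb he y).fun_sub (GT_dB3 ha hb he y)).div_const (a ^ 2)).fun_sub
    ((hasDerivAt_V3 y).fun_mul (B.sm.d1 y))).fun_sub
    (((hasDerivAt_V2 y).fun_mul (B.sm.d2 y)).const_mul 3)).fun_sub
    (((hasDerivAt_V1 y).fun_mul (B.sm.d3 y)).const_mul 3)).fun_add
    ((GT_dV y).fun_mul (GT_dB3 ha hb he y))
  refine h.congr_deriv ?_
  unfold th4
  ring
theorem expD_th4 (ha : 0 < a) (hb : 0 < b) (he : Bdd e) : ExpD (th4 a b e) := by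
  have B := test_kB ha hb he
  exact (((((((GT_eA4 ha hb he).sub (GT_eB4 ha hb he)).div_const (a ^ 2)).sub
    (B.e0.bdd_mul expD_V4.bdd)).sub ((B.e1.bdd_mul expD_V3.bdd).const_mul 4)).sub
    ((B.e2.bdd_mul expD_V2.bdd).const_mul 6)).sub
    ((B.e3.bdd_mul expD_V1.bdd).const_mul 4)).add ((GT_eB4 ha hb he).bdd_mul bdd_one_sub_V)
theorem expD_Er (ha : 0 < a) (hb : 0 < b) (he : Bdd e) : ExpD (Er a b e) := by
  have A := test_kA ha hb he
  have B := test_kB ha hb he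
  exact ((((((A.e0.bdd_mul expD_V2.bdd).const_mul 6).add
    ((A.e1.bdd_mul expD_V1.bdd).const_mul 4)).sub ((B.e0.bdd_mul expD_V2.bdd).const_mul 4)).sub
    ((B.e0.bdd_mul expD_V4.bdd).const_mul (a ^ 2))).sub
    ((B.e1.bdd_mul expD_V3.bdd).const_mul (4 * a ^ 2))).const_mul (a ^ 2)
theorem th0_eq (a b : ℝ) (e : ℝ → ℝ) (y : ℝ) :
    th0 a b e y = -kB2 a b e y + (1 - V y) * kB a b e y := by
  unfold th0 kB2
  ring
theorem th_ident (ha : 0 < a) (b : ℝ) (e : ℝ → ℝ) (y : ℝ) :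
    th0 a b e y - 2 * a ^ 2 * th2 a b e y + a ^ 4 * th4 a b e y
      = (-gg2 a b e y + (1 - V y) * gg a b e y) + Er a b e y := by
  have h := ha.ne'
  unfold th0 th2 th4 Er kB4 kA4 kB3 kB2 kA2
  field_simp
  ring

end Pool.Agent.MP_8339a4_an

end

section

/-! G block: duality identities and weighted bounds. -/

open MeasureTheory Filter Topology Set

namespace Pool.Agent.MP_8339a4_an

variable {a b : ℝ} {e ey f w ψ ψ1 ψ2 : ℝ → ℝ}

theorem dual_hA (ha : 0 < a) (he : Bdd e) (hψ : D2 ψ ψ1 ψ2) :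
    ∫ y, hA a e y * (ψ y - a ^ 2 * ψ2 y) = ∫ y, e y * (-ψ2 y + (1 - V y) * ψ y) := by
  have r1 := res_X ha he
  have r2 := res_X ha (bdd_one_sub_V.mul he)
  have g1 := r1.green ha.ne' hψ
  have g2 := r2.green ha.ne' hψ
  have eφ : ExpD fun y => ψ y - a ^ 2 * ψ2 y := hψ.e0.sub (hψ.e2.const_mul _)
  have i1 := ((hψ.e0.bdd_mul he).integrable).const_mul (a ^ 2)⁻¹
  have i2 := (hψ.e2.bdd_mul he).integrable
  have i3 := ((eφ.bdd_mul r1.b0).integrable).const_mul (a ^ 2)⁻¹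
  have i4 := (eφ.bdd_mul r2.b0).integrable
  have i5 := (hψ.e0.bdd_mul (bdd_one_sub_V.mul he)).integrable
  have e1 : ∫ y, hA a e y * (ψ y - a ^ 2 * ψ2 y) =
      ∫ y, ((a ^ 2)⁻¹ * (e y * ψ y) - (a ^ 2)⁻¹ * (X0 a e y * (ψ y - a ^ 2 * ψ2 y))) +
        (X0 a (fun x => (1 - V x) * e x) y * (ψ y - a ^ 2 * ψ2 y) - e y * ψ2 y) := by
    refine integral_congr_ae (Eventually.of_forall fun y => ?_)
    simp only [hA]
    field_simp
    ring
  have e2 : ∫ y, e y * (-ψ2 y + (1 - V y) * ψ y) = ∫ y, (1 - V y) * e y * ψ y - e y * ψ2 y := by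
    refine integral_congr_ae (Eventually.of_forall fun y => ?_)
    simp only
    ring
  have j1 : Integrable fun y =>
      (a ^ 2)⁻¹ * (e y * ψ y) - (a ^ 2)⁻¹ * (X0 a e y * (ψ y - a ^ 2 * ψ2 y)) := i1.sub i3
  have j2 : Integrable fun y =>
      X0 a (fun x => (1 - V x) * e x) y * (ψ y - a ^ 2 * ψ2 y) - e y * ψ2 y := i4.sub i2
  rw [e1, e2, integral_add j1 j2, integral_sub i1 i3, integral_sub i4 i2, integral_sub i5 i2,
    integral_const_mul, integral_const_mul, g1, g2, sub_self, zero_add]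

theorem bilin (ha : 0 < a) (hb : 0 < b) (he : Bdd e) (hf : Bdd f) :
    ∫ y, mw b y * (hB a e y * hB a f y) = ∫ y, f y * th0 a b e y := by
  have g1 := (res_hB ha hf).green ha.ne' (test_kA ha hb he).d2
  have g2 := dual_hA ha hf (test_kB ha hb he).d2
  have e1 : ∀ y, kA a b e y - a ^ 2 * kA2 a b e y = mw b y * hB a e y := fun y => by
    simp only [kA2, gg]
    field_simp
    ring
  have e2 : ∀ y, kB a b e y - a ^ 2 * kB2 a b e y = kA a b e y := fun y => by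
    simp only [kB2]
    field_simp
    ring
  simp only [e1] at g1
  simp only [e2, ← th0_eq] at g2
  rw [← g2, ← g1]
  refine integral_congr_ae (Eventually.of_forall fun y => ?_)
  simp only
  ring

theorem wn_hA (ha : 0 < a) (ha8 : a ≤ 1 / 8) (hw : SW w) (he : IsH1 e ey) :
    a ^ 2 * wn w (hA a e) ≤ 20 * (wn w e + wn w ey) := by
  have r1 := res_X ha he.bdd
  have r2 := res_X ha (bdd_one_sub_V.mul he.bdd)
  have d0 : 0 < a ^ 2 := by positivity
  have d1 : a ^ 2 ≤ 1 / 64 := by nlinarith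
  have h1 := wn_le2 hw (bdd_hA ha he.bdd) (he.bdd.sub r1.b0) r2.b0 (A := 2 * ((a ^ 2)⁻¹) ^ 2)
    (B := 2) fun y => by
      rw [hA, div_eq_mul_inv]
      nlinarith [sq_nonneg ((e y - X0 a e y) * (a ^ 2)⁻¹ - X0 a (fun x => (1 - V x) * e x) y)]
  have h2 := r1.energyH ha ha8 hw he
  have h3 := r2.energy ha ha8 hw
  have h4 := wn_le1 hw (bdd_one_sub_V.mul he.bdd) he.bdd (A := 196) fun y => by
    rw [mul_pow]
    refine mul_le_mul_of_nonneg_right ?_ (sq_nonneg _)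
    have := abs_le.1 (abs_one_sub_V_le y)
    nlinarith
  have n1 := mul_nonneg d0.le (wn_nonneg hw (X1 a e))
  have n2 := mul_nonneg d0.le (wn_nonneg hw (X1 a fun x => (1 - V x) * e x))
  have n3 := wn_nonneg hw e
  have n4 := wn_nonneg hw ey
  have h5 : a ^ 2 * (2 * ((a ^ 2)⁻¹) ^ 2 * wn w fun y => e y - X0 a e y) ≤ 4 * wn w ey := by
    have : a ^ 2 * (2 * ((a ^ 2)⁻¹) ^ 2 * wn w fun y => e y - X0 a e y) =
        2 * (wn w fun y => e y - X0 a e y) / a ^ 2 := by field_simp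
    rw [this, div_le_iff₀ d0]
    linarith
  have h6 := mul_le_mul_of_nonneg_left h1 d0.le
  have h7 := mul_le_mul d1 (show wn w (X0 a fun x => (1 - V x) * e x) ≤ 392 * wn w e by linarith)
    (wn_nonneg hw _) (by norm_num)
  linarith

theorem wn_hB (ha : 0 < a) (ha8 : a ≤ 1 / 8) (hw : SW w) (he : IsH1 e ey) :
    a ^ 2 * wn w (hB a e) + a ^ 4 * wn w (hC a e) ≤ 40 * (wn w e + wn w ey) := by
  have h1 := mul_le_mul_of_nonneg_left ((res_hB ha he.bdd).energy ha ha8 hw) (sq_nonneg a)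
  have h2 := wn_hA ha ha8 hw he
  linarith

theorem wn_kA (ha : 0 < a) (ha8 : a ≤ 1 / 8) (hb : 0 < b) (hw : SW w) (he : Bdd e) :
    wn w (kA a b e) + a ^ 2 * wn w (kA1 a b e) ≤ 2 * wn w (hB a e) := by
  have h1 := (res_kA ha hb he).energy ha ha8 hw
  have h2 := wn_le1 hw (res_kA ha hb he).bf (res_hB ha he).b0 (A := 1) fun y => by
    rw [gg, mul_pow]
    exact mul_le_mul_of_nonneg_right ((sq_le_one_iff_abs_le_one _).2
      ((abs_mw_le_chi b y).trans (chi_le_one b y))) (sq_nonneg _)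
  linarith

theorem wn_kB (ha : 0 < a) (ha8 : a ≤ 1 / 8) (hb : 0 < b) (hw : SW w) (he : Bdd e) :
    wn w (kB a b e) + a ^ 2 * wn w (kB1 a b e) ≤ 4 * wn w (hB a e) := by
  have h1 := (res_kB ha hb he).energy ha ha8 hw
  have h2 := wn_kA ha ha8 hb hw he
  have h3 := mul_nonneg (sq_nonneg a) (wn_nonneg hw (kA1 a b e))
  linarith

theorem abs_GG_le (ha : 0 < a) (ha8 : a ≤ 1 / 8) (hb : 1 ≤ b) (he : IsH1 e ey) :
    |GG a b e| ≤ 640 / a ^ 2 * Nw b e ey := by
  have hb0 : 0 < b := one_pos.trans_le hb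
  have hw := sw_Pb hb
  have bB := (res_hB ha he.bdd).b0
  have h1 : |GG a b e| ≤ 16 * wn (Pb b) (hB a e) := by
    rw [GG, wn, ← integral_const_mul]
    refine abs_integral_le_integral_abs.trans (integral_mono
      ((test_mw hb0).e0.mul_bdd (bB.pow 2)).integrable.abs ((hw.int_sq bB).const_mul _) fun y => ?_)
    simp only [abs_mul, abs_sq, ← mul_assoc]
    exact mul_le_mul_of_nonneg_right ((abs_mw_le_chi b y).trans (chi_le_Pb hb0 y)) (sq_nonneg _)
  have h2 := wn_hB ha ha8 hw he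
  have h3 := mul_nonneg (pow_pos ha 4).le (wn_nonneg hw (hC a e))
  have d0 : 0 < a ^ 2 := by positivity
  rw [Nw_eq hb he, div_mul_eq_mul_div, le_div_iff₀ d0]
  nlinarith

/-- The main term of the derivative. -/
theorem main_id (ha : 0 < a) (hb : 0 < b) (he : Bdd e) :
    ∫ y, e y * (th3 a b e y - th1 a b e y + V y * th1 a b e y)
      = (∫ y, hC a e y * (-gg2 a b e y + (1 - V y) * gg a b e y)) + ∫ y, hC a e y * Er a b e y := by
  have T := test_th ha hb he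
  have R := res_hB ha he
  have G := d2_gg ha hb he
  have g1 := dual_hA ha he T.d2'
  have x1 : ExpD fun y => th0 a b e y - a ^ 2 * th2 a b e y := T.e0.sub (T.e2.const_mul _)
  have x2 : ExpD fun y => th1 a b e y - a ^ 2 * th3 a b e y := T.e1.sub (T.e3.const_mul _)
  have x3 : ExpD fun y => -gg2 a b e y + (1 - V y) * gg a b e y :=
    G.e2.neg.add (G.e0.bdd_mul bdd_one_sub_V)
  have y1 := x2.bdd_mul (bdd_hA ha he)
  have y2 := x3.bdd_mul R.b1
  have y3 := (expD_Er ha hb he).bdd_mul R.b1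
  have y4 := y2.add y3
  have g2 := int_deriv_zero (f := fun y => hB a e y * (th0 a b e y - a ^ 2 * th2 a b e y) -
      a ^ 2 * (hC a e y * (th1 a b e y - a ^ 2 * th3 a b e y))) (fun y => by
    refine (((R.d0 y).mul ((T.sm.d1 y).sub ((T.sm.d3 y).const_mul (a ^ 2)))).sub
      (((hasDerivAt_hC ha he y).mul ((T.sm.d2 y).sub
        ((hasDerivAt_th3 ha hb he y).const_mul (a ^ 2)))).const_mul (a ^ 2))).congr_deriv ?_
    rw [← mul_add, ← th_ident ha]
    simp only [hD, Pi.sub_apply]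
    field_simp
    ring) ((x1.bdd_mul R.b0).sub ((x2.bdd_mul R.b1).const_mul _)) (y1.add y4)
  rw [integral_add y1.integrable y4.integrable, integral_add y2.integrable y3.integrable, g1] at g2
  rw [← add_eq_zero_iff_neg_eq.1 g2, ← integral_neg]
  refine integral_congr_ae (Eventually.of_forall fun y => ?_)
  simp only
  ring

end Pool.Agent.MP_8339a4_an

end

section

/-! G block: the commutator error and the orthogonality defect. -/

open MeasureTheory Filter Topology Set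

namespace Pool.Agent.MP_8339a4_an

theorem GP3_term {k v a m : ℝ} (x y : ℝ) (hk : |k| ≤ a) (hv : |v| ≤ m) :
    k * (v * (x * y)) ≤ a * m * (x ^ 2 + y ^ 2) := by
  have h1 : |x * y| ≤ x ^ 2 + y ^ 2 := by
    rw [abs_le]
    constructor <;> nlinarith [sq_nonneg (x + y), sq_nonneg (x - y)]
  have ha : 0 ≤ a := (abs_nonneg _).trans hk
  have hm : 0 ≤ m := (abs_nonneg _).trans hv
  calc k * (v * (x * y)) ≤ |k * (v * (x * y))| := le_abs_self _
    _ = |k| * |v| * |x * y| := by rw [abs_mul, abs_mul, mul_assoc]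
    _ ≤ a * m * (x ^ 2 + y ^ 2) :=
      mul_le_mul (mul_le_mul hk hv (abs_nonneg _) ha) h1 (abs_nonneg _) (mul_nonneg ha hm)

theorem GP3_pt {a : ℝ} (b : ℝ) (e : ℝ → ℝ) (ha : 0 < a) (ha8 : a ≤ 1 / 8) (h y : ℝ) :
    h * Er a b e y ≤ 72960 * a * (sc y * h ^ 2 + (sc y * kA a b e y ^ 2
      + a ^ 2 * (sc y * kA1 a b e y ^ 2)) + (sc y * kB a b e y ^ 2
      + a ^ 2 * (sc y * kB1 a b e y ^ 2))) := by
  have hs := sc_pos y
  have v1 : |V1 y| ≤ 3840 * sc y := (abs_V1_le_sc y).trans (by linarith)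
  have v2 : |V2 y| ≤ 3840 * sc y := (abs_V2_le_sc y).trans (by linarith)
  have v3 : |V3 y| ≤ 3840 * sc y := (abs_V3_le_sc y).trans (by linarith)
  have v4 : |V4 y| ≤ 3840 * sc y := abs_V4_le_sc y
  have a1 : a ≤ 1 := by linarith
  have p : ∀ n : ℕ, a ^ (n + 1) ≤ a := fun n => by
    rw [pow_succ]
    exact mul_le_of_le_one_left ha.le (pow_le_one₀ ha.le a1)
  have k1 : |a| ≤ a := (abs_of_pos ha).le
  have k2 : |a ^ 2| ≤ a := by rw [abs_of_pos (by positivity)]; exact p 1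
  have k2' : |-a ^ 2| ≤ a := by rw [abs_neg]; exact k2
  have k3 : |-a ^ 3| ≤ a := by rw [abs_neg, abs_of_pos (by positivity)]; exact p 2
  have k4 : |-a ^ 4| ≤ a := by rw [abs_neg, abs_of_pos (by positivity)]; exact p 3
  unfold Er
  generalize kA a b e y = A
  generalize kA1 a b e y = A1
  generalize kB a b e y = B
  generalize kB1 a b e y = B1
  have t1 := GP3_term h A k2 v2
  have t2 := GP3_term h (a * A1) k1 v1
  have t3 := GP3_term h B k2' v2
  have t4 := GP3_term h B k4 v4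
  have t5 := GP3_term h (a * B1) k3 v3
  have n1 : 0 ≤ a * sc y * A ^ 2 := by positivity
  have n2 : 0 ≤ a * sc y * (a * A1) ^ 2 := by positivity
  have n3 : 0 ≤ a * sc y * B ^ 2 := by positivity
  have n4 : 0 ≤ a * sc y * (a * B1) ^ 2 := by positivity
  linarith

theorem err_le : ∃ C : ℝ, 0 ≤ C ∧ ∀ (a b : ℝ) (e : ℝ → ℝ), 0 < a → a ≤ 1 / 8 → 0 < b → Bdd e →
    ∫ y, hC a e y * Er a b e y ≤ C * a * (wn sc (hB a e) + wn sc (hC a e)) := by
  refine ⟨72960 * 6, by norm_num, fun a b e ha ha8 hb he => ?_⟩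
  have rB := res_hB ha he
  have rA := res_kA ha hb he
  have rK := res_kB ha hb he
  have i0 := sw_sc.int_sq rB.b1
  have i1 := sw_sc.int_sq rA.b0
  have i2 := (sw_sc.int_sq rA.b1).const_mul (a ^ 2)
  have i3 := sw_sc.int_sq rK.b0
  have i4 := (sw_sc.int_sq rK.b1).const_mul (a ^ 2)
  have i12 : Integrable (fun y => sc y * kA a b e y ^ 2 + a ^ 2 * (sc y * kA1 a b e y ^ 2)) :=
    i1.add i2
  have i34 : Integrable (fun y => sc y * kB a b e y ^ 2 + a ^ 2 * (sc y * kB1 a b e y ^ 2)) :=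
    i3.add i4
  have i012 : Integrable (fun y => sc y * hC a e y ^ 2
      + (sc y * kA a b e y ^ 2 + a ^ 2 * (sc y * kA1 a b e y ^ 2))) := i0.add i12
  have h1 : ∫ y, hC a e y * Er a b e y ≤ ∫ y, 72960 * a * (sc y * hC a e y ^ 2
      + (sc y * kA a b e y ^ 2 + a ^ 2 * (sc y * kA1 a b e y ^ 2)) + (sc y * kB a b e y ^ 2
      + a ^ 2 * (sc y * kB1 a b e y ^ 2))) :=
    integral_mono ((expD_Er ha hb he).bdd_mul rB.b1).integrable
      ((i012.add i34).const_mul _) fun y => GP3_pt b e ha ha8 _ y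
  rw [integral_const_mul, integral_add i012 i34, integral_add i0 i12, integral_add i1 i2,
    integral_add i3 i4, integral_const_mul, integral_const_mul] at h1
  have h2 := wn_kA ha ha8 hb sw_sc he
  have h3 := wn_kB ha ha8 hb sw_sc he
  have h4 := wn_nonneg sw_sc (hC a e)
  unfold wn at h2 h3 h4 ⊢
  refine h1.trans ?_
  have h5 : (0 : ℝ) ≤ 72960 * a := by positivity
  rw [show ∀ X : ℝ, 72960 * 6 * a * X = 72960 * a * (6 * X) from fun X => by ring]
  exact mul_le_mul_of_nonneg_left (by linarith) h5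

theorem GP3_C2 (y : ℝ) : |C2 y| ≤ 16 * ((1 + |y|) * Q y) := by
  have h0 := Q_pos y
  have h1 := Q_le y
  have h2 := V_nonneg y
  have h3 := V_le y
  have h4 : |9 - V y| ≤ 9 := abs_le.2 ⟨by linarith, by linarith⟩
  have h5 : Q y ^ 2 ≤ 16 / 9 := by nlinarith
  have h6 : Q y ^ 3 ≤ 16 / 9 * Q y := by nlinarith
  have h7 : Q y ≤ (1 + |y|) * Q y := by nlinarith [abs_nonneg y]
  unfold C2
  rw [abs_mul, abs_of_pos (pow_pos h0 3)]
  calc |9 - V y| * Q y ^ 3 ≤ 9 * (16 / 9 * Q y) :=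
        mul_le_mul h4 h6 (pow_pos h0 3).le (by norm_num)
    _ ≤ _ := by linarith

theorem GP3_split {f : ℝ → ℝ} (hf : Bdd f) (d : ℝ) :
    ∫ y, f y * (C0 y - d * C2 y) = (∫ y, f y * C0 y) - d * ∫ y, f y * C2 y := by
  rw [← integral_const_mul, ← integral_sub (expD_C0.bdd_mul hf).integrable
    ((expD_C2.bdd_mul hf).integrable.const_mul d)]
  exact integral_congr_ae (Eventually.of_forall fun y => by ring)

theorem orth_C0 : ∃ C : ℝ, 0 ≤ C ∧ ∀ (a b : ℝ) (e ey : ℝ → ℝ), 0 < a → a ≤ 1 / 8 → 1 ≤ b →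
    IsH1 e ey → (∫ y, e y * C0 y) = 0 →
    (∫ y, hB a e y * C0 y) ^ 2 ≤ C * a ^ 2 * Nw b e ey := by
  refine ⟨9830400, by norm_num, fun a b e ey ha ha8 hb he h0 => ?_⟩
  have rB := res_hB ha he.bdd
  have g1 := rB.green ha.ne' test_C0.d2
  have g2 := dual_hA ha he.bdd test_C0.d2
  have g3 : ∫ y, e y * (-C2 y + (1 - V y) * C0 y) = -8 * ∫ y, e y * C0 y := by
    rw [← integral_const_mul]
    refine integral_congr_ae (Eventually.of_forall fun y => ?_)
    have := L_C0 y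
    simp only
    rw [show -C2 y + (1 - V y) * C0 y = -8 * C0 y by linarith]
    ring
  rw [GP3_split rB.b0] at g1
  rw [GP3_split rB.bf, g3, h0] at g2
  have l1 := lin_le hb rB.bf expD_C2.1 GP3_C2
  have l2 := lin_le hb rB.b0 expD_C2.1 GP3_C2
  have w1 := wn_hA ha ha8 (sw_Pb hb) he
  have w2 := wn_hB ha ha8 (sw_Pb hb) he
  have w3 : 0 ≤ a ^ 4 * wn (Pb b) (hC a e) :=
    mul_nonneg (by positivity) (wn_nonneg (sw_Pb hb) _)
  rw [Nw_eq hb he]
  have e1 : ∫ y, hB a e y * C0 y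
      = a ^ 2 * ((∫ y, hA a e y * C2 y) + ∫ y, hB a e y * C2 y) := by linarith
  rw [e1]
  generalize (∫ y, hA a e y * C2 y) = X at *
  generalize (∫ y, hB a e y * C2 y) = Y at *
  generalize wn (Pb b) e + wn (Pb b) ey = N at *
  generalize wn (Pb b) (hA a e) = wA at *
  generalize wn (Pb b) (hB a e) = wB at *
  have d0 : 0 < a ^ 2 := by positivity
  have s1 : (X + Y) ^ 2 ≤ 163840 * (wA + wB) := by nlinarith [sq_nonneg (X - Y)]
  have s2 : a ^ 2 * (X + Y) ^ 2 ≤ 9830400 * N := by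
    have := mul_le_mul_of_nonneg_left s1 d0.le
    linarith
  have s3 := mul_le_mul_of_nonneg_left s2 d0.le
  calc (a ^ 2 * (X + Y)) ^ 2 = a ^ 2 * (a ^ 2 * (X + Y) ^ 2) := by ring
    _ ≤ a ^ 2 * (9830400 * N) := s3
    _ = 9830400 * a ^ 2 * N := by ring

end Pool.Agent.MP_8339a4_an

end

section

/-! G block: the terms linear in the parameters. -/

open MeasureTheory Filter Topology Set

namespace Pool.Agent.MP_8339a4_an

theorem int_LQ_th0 {a b : ℝ} {e : ℝ → ℝ} (ha : 0 < a) (hb : 0 < b) (he : Bdd e) :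
    ∫ y, LQ y * th0 a b e y = -2 * ∫ y, Q y * kB a b e y := by
  have h := d2_LQ.selfadj (test_kB ha hb he).d2
  simp only [th0_eq]
  rw [h, ← integral_const_mul]
  refine integral_congr_ae (ae_of_all _ fun y => ?_)
  simp only
  linear_combination kB a b e y * L_LQ y

theorem int_Q1_th0 {a b : ℝ} {e : ℝ → ℝ} (ha : 0 < a) (hb : 0 < b) (he : Bdd e) :
    ∫ y, Q1 y * th0 a b e y = 0 := by
  have h := test_Q1.d2.selfadj (test_kB ha hb he).d2
  simp only [th0_eq]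
  rw [h]
  refine integral_eq_zero_of_ae (ae_of_all _ fun y => ?_)
  simp only [Pi.zero_apply]
  linear_combination kB a b e y * L_Q1 y

theorem GP4_split {u ψ ψ2 : ℝ → ℝ} (d : ℝ) (hu : Bdd u) (h0 : ExpD ψ) (h2 : ExpD ψ2) :
    ∫ y, u y * (ψ y - d * ψ2 y) = (∫ y, u y * ψ y) - d * ∫ y, u y * ψ2 y := by
  rw [← integral_const_mul, ← integral_sub (h0.bdd_mul hu).integrable
    ((h2.bdd_mul hu).integrable.const_mul d)]
  refine integral_congr_ae (ae_of_all _ fun y => ?_)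
  simp only
  ring

theorem GP4_id {a b : ℝ} {e : ℝ → ℝ} (ha : 0 < a) (hb : 0 < b) (he : Bdd e) :
    ∫ y, Q y * kB a b e y = (∫ y, hB a e y * (Q y * (mw b y - tn y)))
      - a ^ 2 * (∫ y, hA a e y * Q3 y) - a ^ 2 * (∫ y, hB a e y * Q3 y)
      + a ^ 2 * (∫ y, kA a b e y * Q2 y) + a ^ 2 * ∫ y, kB a b e y * Q2 y := by
  have rB := res_kB ha hb he
  have rA := res_kA ha hb he
  have rh := res_hB ha he
  have h1 := rB.green ha.ne' test_Q.d2
  have h2 := rA.green ha.ne' test_Q.d2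
  have h3 := rh.green ha.ne' test_Q1.d2
  have h4 := dual_hA ha he test_Q1.d2
  rw [GP4_split _ rB.b0 expD_Q expD_Q2] at h1
  rw [GP4_split _ rA.b0 expD_Q expD_Q2] at h2
  rw [GP4_split _ rh.b0 expD_Q1 expD_Q3] at h3
  rw [GP4_split _ rh.bf expD_Q1 expD_Q3] at h4
  have h5 : ∫ y, e y * (-Q3 y + (1 - V y) * Q1 y) = 0 := by
    refine integral_eq_zero_of_ae (ae_of_all _ fun y => ?_)
    simp only [Pi.zero_apply]
    linear_combination e y * L_Q1 y
  have h6 : ∫ y, gg a b e y * Q y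
      = (∫ y, hB a e y * (Q y * (mw b y - tn y))) - ∫ y, hB a e y * Q1 y := by
    rw [← integral_sub ((expD_Q.mul_bdd ((test_mw hb).e0.bdd.sub bdd_tn)).bdd_mul rh.b0).integrable
      (expD_Q1.bdd_mul rh.b0).integrable]
    refine integral_congr_ae (ae_of_all _ fun y => ?_)
    simp only [gg, Q1]
    ring
  have h7 : ∫ y, Q y * kB a b e y = ∫ y, kB a b e y * Q y := by simp only [mul_comm]
  linarith

theorem GP4_env {φ : ℝ → ℝ} {C : ℝ} (hC : 0 ≤ C) (h : ∀ y, |φ y| ≤ C * Q y) (y : ℝ) :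
    |φ y| ≤ C * ((1 + |y|) * Q y) := by
  refine (h y).trans (mul_le_mul_of_nonneg_left ?_ hC)
  nlinarith [abs_nonneg y, Q_pos y]

theorem GP4_alg {d b N t1 t2 t3 t4 t5 wA wB kA kB : ℝ} (hd : 0 < d) (hb : 0 < b) (hN : 0 ≤ N)
    (h1 : t1 ^ 2 ≤ 320 * (2 / b) ^ 2 * wB) (h2 : t2 ^ 2 ≤ 320 * 14 ^ 2 * wA)
    (h3 : t3 ^ 2 ≤ 320 * 14 ^ 2 * wB) (h4 : t4 ^ 2 ≤ 320 * 2 ^ 2 * kA)
    (h5 : t5 ^ 2 ≤ 320 * 2 ^ 2 * kB) (w1 : d * wA ≤ 20 * N) (w2 : d * wB ≤ 40 * N)
    (w3 : kA ≤ 2 * wB) (w4 : kB ≤ 4 * wB) :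
    (t1 - d * t2 - d * t3 + d * t4 + d * t5) ^ 2 ≤ 10 ^ 8 * (d + 1 / (d * b ^ 2)) * N := by
  have s0 : (t1 - d * t2 - d * t3 + d * t4 + d * t5) ^ 2
      ≤ 5 * (t1 ^ 2 + d ^ 2 * (t2 ^ 2 + t3 ^ 2 + t4 ^ 2 + t5 ^ 2)) := by
    nlinarith [sq_nonneg (t1 + d * t2), sq_nonneg (t1 + d * t3), sq_nonneg (t1 - d * t4),
      sq_nonneg (t1 - d * t5), sq_nonneg (d * t2 - d * t3), sq_nonneg (d * t2 + d * t4),
      sq_nonneg (d * t2 + d * t5), sq_nonneg (d * t3 + d * t4), sq_nonneg (d * t3 + d * t5),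
      sq_nonneg (d * t4 - d * t5)]
  have s1 : t1 ^ 2 ≤ 51200 * (1 / (d * b ^ 2) * N) := by
    have e1 : 320 * (2 / b) ^ 2 * wB = 1280 * (1 / (d * b ^ 2)) * (d * wB) := by
      field_simp
      ring
    have e2 := mul_le_mul_of_nonneg_left w2 (by positivity : 0 ≤ 1280 * (1 / (d * b ^ 2)))
    linarith
  have s2 : d * (t2 ^ 2 + t3 ^ 2 + t4 ^ 2 + t5 ^ 2) ≤ 5000000 * N := by
    have e1 : t2 ^ 2 + t3 ^ 2 + t4 ^ 2 + t5 ^ 2 ≤ 62720 * wA + 70400 * wB := by linarith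
    have e2 := mul_le_mul_of_nonneg_left e1 hd.le
    linarith
  have s3 := mul_le_mul_of_nonneg_left s2 hd.le
  have s4 : 0 ≤ d * N := by positivity
  have s5 : 0 ≤ 1 / (d * b ^ 2) * N := by positivity
  nlinarith

theorem QkB_le : ∃ C : ℝ, 0 ≤ C ∧ ∀ (a b : ℝ) (e ey : ℝ → ℝ), 0 < a → a ≤ 1 / 8 → 1 ≤ b →
    IsH1 e ey →
    (∫ y, Q y * kB a b e y) ^ 2 ≤ C * (a ^ 2 + 1 / (a ^ 2 * b ^ 2)) * Nw b e ey := by
  refine ⟨10 ^ 8, by norm_num, fun a b e ey ha ha8 hb he => ?_⟩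
  have hb0 : 0 < b := by linarith
  have hw := sw_Pb hb
  have rB := res_kB ha hb0 he.bdd
  have rA := res_kA ha hb0 he.bdd
  have rh := res_hB ha he.bdd
  have h1 := lin_le (C := 2 / b) hb rh.b0
    (expD_Q.mul_bdd ((test_mw hb0).e0.bdd.sub bdd_tn)).1 fun y => by
      have a1 := abs_mw_sub_tn_le hb0 y
      have a2 := Q_pos y
      rw [abs_mul, abs_of_pos a2]
      have a3 : 2 * |y| / b ≤ 2 / b * (1 + |y|) := by
        have : 0 ≤ 2 / b := by positivity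
        have e : 2 * |y| / b = 2 / b * |y| := by ring
        rw [e]
        linarith
      calc Q y * |mw b y - tn y| ≤ Q y * (2 / b * (1 + |y|)) :=
            mul_le_mul_of_nonneg_left (a1.trans a3) a2.le
        _ = 2 / b * ((1 + |y|) * Q y) := by ring
  have h2 := lin_le hb rh.bf expD_Q3.1 (GP4_env (by norm_num) abs_Q3_le)
  have h3 := lin_le hb rh.b0 expD_Q3.1 (GP4_env (by norm_num) abs_Q3_le)
  have h4 := lin_le hb rA.b0 expD_Q2.1 (GP4_env (by norm_num) abs_Q2_le)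
  have h5 := lin_le hb rB.b0 expD_Q2.1 (GP4_env (by norm_num) abs_Q2_le)
  have w1 := wn_hA ha ha8 hw he
  have w2 := wn_hB ha ha8 hw he
  have w3 := wn_kA ha ha8 hb0 hw he.bdd
  have w4 := wn_kB ha ha8 hb0 hw he.bdd
  have n2 := mul_nonneg (pow_pos ha 4).le (wn_nonneg hw (hC a e))
  have n3 := mul_nonneg (pow_pos ha 2).le (wn_nonneg hw (kA1 a b e))
  have n4 := mul_nonneg (pow_pos ha 2).le (wn_nonneg hw (kB1 a b e))
  rw [GP4_id ha hb0 he.bdd, Nw_eq hb he]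
  exact GP4_alg (pow_pos ha 2) hb0 (add_nonneg (wn_nonneg hw e) (wn_nonneg hw ey)) h1 h2 h3 h4 h5
    w1 (by linarith) (by linarith) (by linarith)

end Pool.Agent.MP_8339a4_an

end

section

/-! G block: pointwise bounds for the test function. -/

open MeasureTheory Filter Topology Set

namespace Pool.Agent.MP_8339a4_an

/-- Exponential bound with rate `σ / (2 b)`, uniform in the data. -/
def GP5_B (σ : ℝ) (F : ℝ → (ℝ → ℝ) → ℝ → ℝ) : Prop :=
  ∃ C : ℝ, 0 ≤ C ∧ ∀ (b A : ℝ) (e : ℝ → ℝ), 1 ≤ b → Bdd e →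
    (∀ y, |e y| ≤ A * Real.exp (1 / (2 * b) * |y|)) →
    ∀ y, |F b e y| ≤ C * A * Real.exp (σ / (2 * b) * |y|)

variable {σ a : ℝ} {F G : ℝ → (ℝ → ℝ) → ℝ → ℝ}

theorem GP5_id : GP5_B 1 fun _ e y => e y :=
  ⟨1, zero_le_one, fun b A e _ _ h y => by rw [one_mul]; exact h y⟩

theorem GP5_B.add (h : GP5_B σ F) (H : GP5_B σ G) : GP5_B σ fun b e y => F b e y + G b e y := by
  obtain ⟨C, hC, h⟩ := h
  obtain ⟨D, hD, H⟩ := H
  refine ⟨C + D, add_nonneg hC hD, fun b A e hb he hA y => (abs_add_le _ _).trans ?_⟩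
  rw [add_mul, add_mul]
  exact add_le_add (h b A e hb he hA y) (H b A e hb he hA y)

theorem GP5_B.mul (h : GP5_B σ F) {φ : ℝ → ℝ} (H : Bdd φ) :
    GP5_B σ fun b e y => φ y * F b e y := by
  obtain ⟨C, hC, h⟩ := h
  obtain ⟨-, D, H⟩ := H
  have hD : 0 ≤ D := (abs_nonneg _).trans (H 0)
  refine ⟨D * C, mul_nonneg hD hC, fun b A e hb he hA y => ?_⟩
  rw [abs_mul, mul_assoc, mul_assoc, ← mul_assoc C]
  exact mul_le_mul (H y) (h b A e hb he hA y) (abs_nonneg _) hD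

theorem GP5_B.cm (h : GP5_B σ F) (c : ℝ) : GP5_B σ fun b e y => c * F b e y :=
  h.mul (Bdd.const c)

theorem GP5_B.sub (h : GP5_B σ F) (H : GP5_B σ G) : GP5_B σ fun b e y => F b e y - G b e y := by
  simpa only [neg_one_mul, ← sub_eq_add_neg] using h.add (H.cm (-1))

theorem GP5_B.div (h : GP5_B σ F) (c : ℝ) : GP5_B σ fun b e y => F b e y / c := by
  simpa only [← div_eq_inv_mul] using h.cm c⁻¹

theorem GP5_rate (ha : 0 < a) (ha8 : a ≤ 1 / 8) (hσ : |σ| ≤ 3) {b : ℝ} (hb : 1 ≤ b) :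
    |σ / (2 * b)| * a ≤ 1 / 2 := by
  have h : |σ / (2 * b)| ≤ 3 := by
    rw [abs_div, abs_of_pos (by linarith : 0 < 2 * b), div_le_iff₀ (by linarith)]
    linarith
  nlinarith [abs_nonneg (σ / (2 * b))]

theorem GP5_B.x0 (h : GP5_B σ F) (ha : 0 < a) (ha8 : a ≤ 1 / 8) (hσ : |σ| ≤ 3)
    (hc : ∀ b e, 0 < b → Bdd e → Continuous (F b e)) :
    GP5_B σ fun b e y => X0 a (F b e) y := by
  obtain ⟨C, hC, h⟩ := h
  refine ⟨2 * C, by positivity, fun b A e hb he hA y => ?_⟩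
  rw [mul_assoc 2 C]
  exact abs_X0_le ha (hc b e (by linarith) he) (GP5_rate ha ha8 hσ hb) (h b A e hb he hA) y

theorem GP5_B.x1 (h : GP5_B σ F) (ha : 0 < a) (ha8 : a ≤ 1 / 8) (hσ : |σ| ≤ 3)
    (hc : ∀ b e, 0 < b → Bdd e → Continuous (F b e)) :
    GP5_B σ fun b e y => X1 a (F b e) y := by
  obtain ⟨C, hC, h⟩ := h
  refine ⟨2 * C / a, by positivity, fun b A e hb he hA y => ?_⟩
  rw [show 2 * C / a * A = 2 * (C * A) / a by ring]
  exact abs_X1_le ha (hc b e (by linarith) he) (GP5_rate ha ha8 hσ hb) (h b A e hb he hA) y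

theorem GP5_B.wt (h : GP5_B 1 F) {m : ℝ → ℝ → ℝ} (H : ∀ b y, 1 ≤ b → |m b y| ≤ 4 * chi b y) :
    GP5_B (-3) fun b e y => m b y * F b e y := by
  obtain ⟨C, hC, h⟩ := h
  refine ⟨16 * C, by positivity, fun b A e hb he hA y => ?_⟩
  have h1 : |m b y| ≤ 16 * Real.exp (-(2 / b) * |y|) := by
    have := chi_le_exp (by linarith : 0 < b) y
    linarith [H b y hb]
  have h2 : -3 / (2 * b) * |y| = -(2 / b) * |y| + 1 / (2 * b) * |y| := by
    field_simp
    ring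
  rw [abs_mul, h2, Real.exp_add]
  refine (mul_le_mul h1 (h b A e hb he hA y) (abs_nonneg _) (by positivity)).trans_eq ?_
  ring

theorem theta_exp {a : ℝ} (ha : 0 < a) (ha8 : a ≤ 1 / 8) : ∃ C : ℝ, 0 ≤ C ∧
    ∀ (b A : ℝ) (e : ℝ → ℝ), 1 ≤ b → Bdd e →
      (∀ y, |e y| ≤ A * Real.exp (1 / (2 * b) * |y|)) → ∀ y,
        |th0 a b e y| ≤ C * A * Real.exp (-(3 / (2 * b)) * |y|) ∧
        |th1 a b e y| ≤ C * A * Real.exp (-(3 / (2 * b)) * |y|) ∧
        |th3 a b e y| ≤ C * A * Real.exp (-(3 / (2 * b)) * |y|) := by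
  have s1 : |(1 : ℝ)| ≤ 3 := by norm_num
  have s3 : |(-3 : ℝ)| ≤ 3 := by norm_num
  have v0 := bdd_one_sub_V
  have v1 : Bdd V1 := expD_V1.bdd
  have v2 := expD_V2.bdd
  have v3 := expD_V3.bdd
  have a0 : GP5_B 1 fun _ e y => hA a e y :=
    ((GP5_id.sub (GP5_id.x0 ha ha8 s1 fun _ _ _ h => h.1)).div _).add
      ((GP5_id.mul v0).x0 ha ha8 s1 fun _ _ _ h => (v0.mul h).1)
  have b0 : GP5_B 1 fun _ e y => hB a e y := a0.x0 ha ha8 s1 fun _ _ _ h => (bdd_hA ha h).1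
  have b1 : GP5_B 1 fun _ e y => hC a e y := a0.x1 ha ha8 s1 fun _ _ _ h => (bdd_hA ha h).1
  have m0 : ∀ b y, 1 ≤ b → |mw b y| ≤ 4 * chi b y := fun b y _ => by
    linarith [abs_mw_le_chi b y, chi_pos b y]
  have g0 : GP5_B (-3) fun b e y => gg a b e y := b0.wt m0
  have g1 : GP5_B (-3) fun b e y => gg1 a b e y :=
    (b0.wt fun b y hb => abs_mw1_le_chi hb y).add (b1.wt m0)
  have k0 : GP5_B (-3) fun b e y => kA a b e y :=
    g0.x0 ha ha8 s3 fun _ _ hb h => (d2_gg ha hb h).e0.1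
  have k1 : GP5_B (-3) fun b e y => kA1 a b e y :=
    g0.x1 ha ha8 s3 fun _ _ hb h => (d2_gg ha hb h).e0.1
  have k3 : GP5_B (-3) fun b e y => kA3 a b e y := (k1.sub g1).div _
  have l0 : GP5_B (-3) fun b e y => kB a b e y :=
    k0.x0 ha ha8 s3 fun _ _ hb h => (test_kA ha hb h).e0.1
  have l1 : GP5_B (-3) fun b e y => kB1 a b e y :=
    k0.x1 ha ha8 s3 fun _ _ hb h => (test_kA ha hb h).e0.1
  have l2 : GP5_B (-3) fun b e y => kB2 a b e y := (l0.sub k0).div _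
  have l3 : GP5_B (-3) fun b e y => kB3 a b e y := (l1.sub k1).div _
  obtain ⟨C0, c0, t0⟩ : GP5_B (-3) fun b e y => th0 a b e y := ((k0.sub l0).div _).add (l0.mul v0)
  obtain ⟨C1, c1, t1⟩ : GP5_B (-3) fun b e y => th1 a b e y :=
    (((k1.sub l1).div _).sub (l0.mul v1)).add (l1.mul v0)
  obtain ⟨C3, c3, t3⟩ : GP5_B (-3) fun b e y => th3 a b e y :=
    (((((k3.sub l3).div _).sub (l0.mul v3)).sub ((l1.mul v2).cm 3)).sub ((l2.mul v1).cm 3)).add
      (l3.mul v0)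
  refine ⟨C0 + C1 + C3, by positivity, fun b A e hb he hA y => ?_⟩
  have hA0 : 0 ≤ A := by simpa using (abs_nonneg _).trans (hA 0)
  have key : ∀ C, C ≤ C0 + C1 + C3 → C * A * Real.exp (-3 / (2 * b) * |y|) ≤
      (C0 + C1 + C3) * A * Real.exp (-(3 / (2 * b)) * |y|) := fun C hC => by
    rw [neg_div]
    gcongr
  exact ⟨(t0 b A e hb he hA y).trans (key _ (by linarith)),
    (t1 b A e hb he hA y).trans (key _ (by linarith)),
    (t3 b A e hb he hA y).trans (key _ (by linarith))⟩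

end Pool.Agent.MP_8339a4_an

end

section

/-! G block: the small terms. -/

open MeasureTheory Filter Topology Set

namespace Pool.Agent.MP_8339a4_an

theorem GP6_mul {x y A B : ℝ} (hx : |x| ≤ A) (hy : |y| ≤ B) : |x * y| ≤ A * B := by
  rw [abs_mul]
  exact mul_le_mul hx hy (abs_nonneg y) ((abs_nonneg x).trans hx)

theorem GP6_env {c : ℝ} (hc : 0 < c) :
    Integrable fun y : ℝ => (1 + |y|) * Real.exp (-(c * |y|)) := by
  have h := ExpD.exp_neg_abs hc
  refine (h.add h.id_mul.abs).integrable.congr (Eventually.of_forall fun y => ?_)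
  simp only
  rw [abs_mul, abs_of_pos (Real.exp_pos _)]
  ring

theorem GP6_int {c K : ℝ} (hc : 0 < c) {F : ℝ → ℝ}
    (h : ∀ y, |F y| ≤ K * ((1 + |y|) * Real.exp (-(c * |y|)))) :
    |∫ y, F y| ≤ K * ∫ y : ℝ, (1 + |y|) * Real.exp (-(c * |y|)) := by
  rw [← integral_const_mul]
  exact norm_integral_le_of_norm_le (f := F) ((GP6_env hc).const_mul K) (Eventually.of_forall h)

theorem GP6_dil {t0 t1 T : ℝ} (y : ℝ) (h0 : |t0| ≤ T) (h1 : |t1| ≤ T) :
    |t0 / 2 + y * t1| ≤ (1 + |y|) * T := by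
  have a1 := GP6_mul (le_refl |y|) h1
  have a2 := abs_add_le (t0 / 2) (y * t1)
  rw [abs_div, abs_two] at a2
  linarith [abs_nonneg t0]

theorem GP6_small {n e t0 t1 σ X T : ℝ} (y β γ : ℝ) (hn : |n| ≤ 50 * e ^ 2) (he : |e| ≤ σ)
    (hX : |e| ≤ X) (h0 : |t0| ≤ T) (h1 : |t1| ≤ T) :
    |n * t1 + β * (e * (t0 / 2 + y * t1)) - γ * (e * t1)| ≤
      50 * (|β| + |γ| + σ) * (X * T) * (1 + |y|) := by
  have hσ := (abs_nonneg e).trans he
  have hXT := mul_nonneg ((abs_nonneg e).trans hX) ((abs_nonneg t0).trans h0)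
  have a0 : e ^ 2 ≤ σ * X := by
    rw [sq]
    exact (le_abs_self _).trans (GP6_mul he hX)
  have a1 := GP6_mul (hn.trans (show 50 * e ^ 2 ≤ 50 * (σ * X) by linarith)) h1
  have a2 := GP6_mul (le_refl |β|) (GP6_mul hX (GP6_dil y h0 h1))
  have a3 := GP6_mul (le_refl |γ|) (GP6_mul hX h1)
  have b1 := abs_sub (n * t1 + β * (e * (t0 / 2 + y * t1))) (γ * (e * t1))
  have b2 := abs_add_le (n * t1) (β * (e * (t0 / 2 + y * t1)))
  have c1 := mul_nonneg (mul_nonneg hσ hXT) (abs_nonneg y)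
  have c2 := mul_nonneg (abs_nonneg β) hXT
  have c3 := mul_nonneg c2 (abs_nonneg y)
  have c4 := mul_nonneg (abs_nonneg γ) hXT
  have c5 := mul_nonneg c4 (abs_nonneg y)
  nlinarith

theorem GP6_rough {e t0 t1 t3 T β γ : ℝ} (y : ℝ) (he : |e| ≤ 1) (hβ : |β| ≤ 1) (hγ : |γ| ≤ 1)
    (h0 : |t0| ≤ T) (h1 : |t1| ≤ T) (h3 : |t3| ≤ T) :
    |e * (t3 - t1 + V y * t1) + NN y e * t1 - β * (LQ y * t0) + γ * (Q1 y * t0)
      + β * (e * (t0 / 2 + y * t1)) - γ * (e * t1)| ≤ 80 * T * (1 + |y|) := by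
  have hT := (abs_nonneg t0).trans h0
  have hy := abs_nonneg y
  have hV : |V y| ≤ 15 := by
    rw [abs_of_nonneg (V_nonneg y)]
    exact V_le y
  have hN : |NN y e| ≤ 50 := by
    have := abs_NN_le y he
    have h2 : e ^ 2 ≤ 1 := (sq_le_one_iff_abs_le_one e).2 he
    linarith
  have hL : |LQ y| ≤ (1 + |y|) * (4 / 3) :=
    (abs_LQ_le y).trans (mul_le_mul_of_nonneg_left (Q_le y) (by linarith))
  have a0 : |t3 - t1 + V y * t1| ≤ 17 * T := by
    have := GP6_mul hV h1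
    have := abs_add_le (t3 - t1) (V y * t1)
    have := abs_sub t3 t1
    linarith
  have a1 := abs_le.1 (GP6_mul he a0)
  have a2 := abs_le.1 (GP6_mul hN h1)
  have a3 := abs_le.1 (GP6_mul hβ (GP6_mul hL h0))
  have a4 := abs_le.1 (GP6_mul hγ (GP6_mul ((abs_Q1_le y).trans (Q_le y)) h0))
  have a5 := abs_le.1 (GP6_mul hβ (GP6_mul he (GP6_dil y h0 h1)))
  have a6 := abs_le.1 (GP6_mul hγ (GP6_mul he h1))
  have c1 := mul_nonneg hT hy
  rw [abs_le]
  constructor <;> nlinarith [a1.1, a1.2, a2.1, a2.2, a3.1, a3.2, a4.1, a4.2, a5.1, a5.2, a6.1, a6.2]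

theorem small_le {a b : ℝ} (ha : 0 < a) (ha8 : a ≤ 1 / 8) (hb : 1 ≤ b) : ∃ C : ℝ, 0 ≤ C ∧
    ∀ (e ey : ℝ → ℝ) (β γ σ : ℝ), IsH1 e ey → (∀ y, |e y| ≤ σ) → σ ≤ 1 →
      |∫ y, (NN y (e y) * th1 a b e y + β * (e y * (th0 a b e y / 2 + y * th1 a b e y))
        - γ * (e y * th1 a b e y))| ≤ C * (|β| + |γ| + σ) * Nw b e ey := by
  obtain ⟨C, hC, H⟩ := theta_exp ha ha8
  have hc : 0 < 1 / b := by positivity
  have hI : 0 ≤ ∫ y : ℝ, (1 + |y|) * Real.exp (-(1 / b * |y|)) :=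
    integral_nonneg fun y => by positivity
  refine ⟨400 * C * ∫ y : ℝ, (1 + |y|) * Real.exp (-(1 / b * |y|)), by positivity, ?_⟩
  intro e ey β γ σ he hσ h1
  have hN : 0 ≤ Nw b e ey := integral_nonneg fun y => mul_nonneg (P1_pos _).le (by positivity)
  have hA := abs_le_sqrt_Nw hb he
  have hsq : Real.sqrt (8 * Nw b e ey) * Real.sqrt (8 * Nw b e ey) = 8 * Nw b e ey :=
    Real.mul_self_sqrt (by positivity)
  have key := GP6_int (K := 400 * C * (|β| + |γ| + σ) * Nw b e ey) hc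
    (F := fun y => NN y (e y) * th1 a b e y + β * (e y * (th0 a b e y / 2 + y * th1 a b e y))
      - γ * (e y * th1 a b e y)) fun y => by
      obtain ⟨h0, h1', -⟩ := H b _ e hb he.bdd hA y
      refine (GP6_small y β γ (abs_NN_le y ((hσ y).trans h1)) (hσ y) (hA y) h0 h1').trans
        (le_of_eq ?_)
      have e1 : Real.exp (-(1 / b * |y|)) =
          Real.exp (1 / (2 * b) * |y|) * Real.exp (-(3 / (2 * b)) * |y|) := by
        rw [← Real.exp_add]
        congr 1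
        field_simp
        ring
      rw [e1]
      linear_combination (50 * (|β| + |γ| + σ) * C * (1 + |y|) * Real.exp (1 / (2 * b) * |y|) *
        Real.exp (-(3 / (2 * b)) * |y|)) * hsq
  refine key.trans (le_of_eq ?_)
  ring

theorem rough_le {a b : ℝ} (ha : 0 < a) (ha8 : a ≤ 1 / 8) (hb : 1 ≤ b) : ∃ C : ℝ, 0 ≤ C ∧
    ∀ (e f : ℝ → ℝ) (β γ σ : ℝ), Bdd f → (∀ y, |e y| ≤ 1) → |β| ≤ 1 → |γ| ≤ 1 →
      (∀ y, |f y| ≤ σ) → |rhs0 β γ e (th0 a b f) (th1 a b f) (th3 a b f)| ≤ C * σ := by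
  obtain ⟨C, hC, H⟩ := theta_exp ha ha8
  have hc : 0 < 3 / (2 * b) := by positivity
  have hI : 0 ≤ ∫ y : ℝ, (1 + |y|) * Real.exp (-(3 / (2 * b) * |y|)) :=
    integral_nonneg fun y => by positivity
  refine ⟨80 * C * ∫ y : ℝ, (1 + |y|) * Real.exp (-(3 / (2 * b) * |y|)), by positivity, ?_⟩
  intro e f β γ σ hf he hβ hγ hσ
  have hA : ∀ y, |f y| ≤ σ * Real.exp (1 / (2 * b) * |y|) := fun y =>
    (hσ y).trans (le_mul_of_one_le_right ((abs_nonneg _).trans (hσ y))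
      (Real.one_le_exp (by positivity)))
  refine (GP6_int (K := 80 * C * σ) hc fun y => ?_).trans (le_of_eq (by ring))
  obtain ⟨h0, h1, h3⟩ := H b σ f hb hf hA y
  refine (GP6_rough y (he y) hβ hγ h0 h1 h3).trans (le_of_eq ?_)
  rw [neg_mul]
  ring

/-- Splitting of the right-hand side. -/
theorem rhs0_split {β γ : ℝ} {e θ θ1 θ2 θ3 : ℝ → ℝ} (he : Bdd e) (h : Test θ θ1 θ2 θ3) :
    rhs0 β γ e θ θ1 θ3 = (∫ y, e y * (θ3 y - θ1 y + V y * θ1 y))
      + (∫ y, (NN y (e y) * θ1 y + β * (e y * (θ y / 2 + y * θ1 y)) - γ * (e y * θ1 y)))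
      - β * (∫ y, LQ y * θ y) + γ * ∫ y, Q1 y * θ y := by
  have bQ := expD_Q.bdd
  have bN : Bdd fun y => NN y (e y) :=
    (((bQ.add he).pow 5).sub (bQ.pow 5)).sub (((bQ.pow 4).const_mul 5).mul he)
  have i1 : Integrable fun y => e y * (θ3 y - θ1 y + V y * θ1 y) :=
    (((h.e3.sub h.e1).add (h.e1.bdd_mul expD_V.bdd)).bdd_mul he).integrable
  have i2 : Integrable fun y =>
      NN y (e y) * θ1 y + β * (e y * (θ y / 2 + y * θ1 y)) - γ * (e y * θ1 y) :=
    (((h.e1.bdd_mul bN).add ((((h.e0.div_const 2).add h.e1.id_mul).bdd_mul he).const_mul β)).sub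
      ((h.e1.bdd_mul he).const_mul γ)).integrable
  have i3 : Integrable fun y => β * (LQ y * θ y) :=
    ((h.e0.bdd_mul expD_LQ.bdd).const_mul β).integrable
  have i4 : Integrable fun y => γ * (Q1 y * θ y) :=
    ((h.e0.bdd_mul expD_Q1.bdd).const_mul γ).integrable
  have i12 : Integrable fun y => e y * (θ3 y - θ1 y + V y * θ1 y) +
      (NN y (e y) * θ1 y + β * (e y * (θ y / 2 + y * θ1 y)) - γ * (e y * θ1 y)) := i1.add i2
  have i123 : Integrable fun y => e y * (θ3 y - θ1 y + V y * θ1 y) +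
      (NN y (e y) * θ1 y + β * (e y * (θ y / 2 + y * θ1 y)) - γ * (e y * θ1 y))
      - β * (LQ y * θ y) := i12.sub i3
  rw [← integral_const_mul, ← integral_const_mul, ← integral_add i1 i2, ← integral_sub i12 i3,
    ← integral_add i123 i4]
  unfold rhs0
  refine integral_congr_ae (Eventually.of_forall fun y => ?_)
  simp only
  ring

end Pool.Agent.MP_8339a4_an

end

section

/-! G block: the time derivative of the virial functional. -/

open MeasureTheory Filter Topology Set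

namespace Pool.Agent.MP_8339a4_an

theorem GP8_symm {a b : ℝ} {u v : ℝ → ℝ} (ha : 0 < a) (hb : 0 < b) (hu : Bdd u) (hv : Bdd v) :
    ∫ y, v y * th0 a b u y = ∫ y, u y * th0 a b v y := by
  rw [← bilin ha hb hu hv, ← bilin ha hb hv hu]
  simp only [mul_comm (hB a u _)]

theorem GP8_sub {a b : ℝ} {u v w : ℝ → ℝ} (ha : 0 < a) (hb : 0 < b) (hu : Bdd u) (hv : Bdd v)
    (hw : Bdd w) : ∫ y, (u y - v y) * th0 a b w y
      = (∫ y, u y * th0 a b w y) - ∫ y, v y * th0 a b w y := by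
  have e0 := (test_th ha hb hw).e0
  rw [← integral_sub (e0.bdd_mul hu).integrable (e0.bdd_mul hv).integrable]
  simp only [sub_mul]

theorem GP8_expand {a b : ℝ} {u v : ℝ → ℝ} (ha : 0 < a) (hb : 0 < b) (hu : Bdd u) (hv : Bdd v) :
    GG a b u = 2 * (∫ y, u y * th0 a b v y) - (∫ y, v y * th0 a b v y)
      + ∫ y, (u y - v y) * th0 a b (fun x => u x - v x) y := by
  have hd := hu.sub hv
  have h0 : GG a b u = ∫ y, u y * th0 a b u y := by
    rw [← bilin ha hb hu hu, GG]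
    simp only [sq]
  have h1 := GP8_sub ha hb hu hv hu
  have h2 := GP8_sub ha hb hu hv hv
  have h3 := GP8_sub ha hb hu hv hd
  have h4 := GP8_symm ha hb hu hv
  have h5 := GP8_symm ha hb hu hd
  have h6 := GP8_symm ha hb hv hd
  linarith

theorem hasDerivAt_GG {a b s : ℝ} {e ey : ℝ → ℝ → ℝ} {lam β γ : ℝ → ℝ} (ha : 0 < a)
    (ha8 : a ≤ 1 / 8) (hb : 1 ≤ b)
    (h : ∀ᶠ t in 𝓝 s, FlowAt e ey lam β γ 1 t ∧ (∀ y, |e t y| ≤ 1) ∧ |β t| ≤ 1 ∧ |γ t| ≤ 1) :
    HasDerivAt (fun z => GG a b (e z))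
      (2 * rhs0 (β s) (γ s) (e s) (th0 a b (e s)) (th1 a b (e s)) (th3 a b (e s))) s := by
  have hb0 : 0 < b := one_pos.trans_le hb
  obtain ⟨C, hC, hr⟩ := rough_le ha ha8 hb
  have hs := h.self_of_nhds.1
  have bs : Bdd (e s) := hs.h1t.2.1.bdd
  obtain ⟨δ, hδ, hball⟩ := Metric.eventually_nhds_iff_ball.1 h
  have h1 := hs.d0 _ _ _ _ (test_th ha hb0 bs)
  rw [one_mul] at h1
  have h2 : HasDerivAt (fun z => ∫ y, (e z y - e s y) * th0 a b (fun x => e z x - e s x) y) 0 s := by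
    rw [hasDerivAt_iff_isLittleO, Asymptotics.isLittleO_iff]
    intro c hc
    have hσ : 0 < c / (C + 1) := by positivity
    filter_upwards [hs.h1t.ut.2.2 _ hσ, Metric.ball_mem_nhds s hδ] with z hz hzb
    have bz : Bdd (e z) := (hball z hzb).1.h1t.2.1.bdd
    have bd := bz.sub bs
    have h3 := Convex.norm_image_sub_le_of_norm_hasDerivWithin_le
      (f := fun t => ∫ y, e t y * th0 a b (fun x => e z x - e s x) y)
      (f' := fun t => rhs0 (β t) (γ t) (e t) (th0 a b fun x => e z x - e s x)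
        (th1 a b fun x => e z x - e s x) (th3 a b fun x => e z x - e s x))
      (C := C * (c / (C + 1))) (s := Metric.ball s δ)
      (fun t ht => by
        have h4 := (hball t ht).1.d0 _ _ _ _ (test_th ha hb0 bd)
        rw [one_mul] at h4
        exact h4.hasDerivWithinAt)
      (fun t ht => hr _ _ _ _ _ bd (hball t ht).2.1 (hball t ht).2.2.1 (hball t ht).2.2.2 hz)
      (convex_ball s δ) (Metric.mem_ball_self hδ) hzb
    rw [GP8_sub ha hb0 bz bs bd]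
    simp only [sub_self, zero_mul, integral_zero, smul_zero, sub_zero]
    refine h3.trans (mul_le_mul_of_nonneg_right ?_ (norm_nonneg _))
    rw [← mul_div_assoc, div_le_iff₀ (by positivity)]
    nlinarith
  have h3 := ((h1.const_mul 2).sub_const (∫ y, e s y * th0 a b (e s) y)).add h2
  rw [add_zero] at h3
  refine h3.congr_of_eventuallyEq ?_
  filter_upwards [h] with z hz
  exact GP8_expand ha hb0 hz.1.h1t.2.1.bdd bs

end Pool.Agent.MP_8339a4_an

end
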