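import Pool.Agent.Mg.F8339a4.G21cb39
import Pool.Agent.Mg.F8339a4.Gfb6c48

section

/-! G block: link between the virial quantity and the localised mass. -/

open MeasureTheory Filter Topology Set

namespace Pool.Agent.MP_8339a4_an

section
variable {a : ℝ} {e ey w u u1 : ℝ → ℝ}

theorem GP10_bdd (h0 : Bdd u) (h1 : Bdd u1) : Bdd (fun y => V2 y * u y + 2 * (V1 y * u1 y)) :=
  (expD_V2.bdd.mul h0).add ((expD_V1.bdd.mul h1).const_mul 2)

theorem GP10_pot (hw : SW w) (h0 : Bdd u) (h1 : Bdd u1) :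
    wn w (fun y => V2 y * u y + 2 * (V1 y * u1 y)) ≤ 115200 * wn w u + 28800 * wn w u1 := by
  refine wn_le2 hw (GP10_bdd h0 h1) h0 h1 fun y => ?_
  have k0 := sc_le_one y
  have k1 : V2 y ^ 2 ≤ 240 ^ 2 := sq_le_sq' (by linarith [(abs_le.1 (abs_V2_le_sc y)).1])
    (by linarith [(abs_le.1 (abs_V2_le_sc y)).2])
  have k2 : V1 y ^ 2 ≤ 60 ^ 2 := sq_le_sq' (by linarith [(abs_le.1 (abs_V1_le_sc y)).1])
    (by linarith [(abs_le.1 (abs_V1_le_sc y)).2])
  have k3 := mul_le_mul_of_nonneg_right k1 (sq_nonneg (u y))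
  have k4 := mul_le_mul_of_nonneg_right k2 (sq_nonneg (u1 y))
  nlinarith [sq_nonneg (V2 y * u y - 2 * (V1 y * u1 y))]

theorem GP10_res1 (ha : 0 < a) (he : Bdd e) :
    Res a (fun y => -a ^ 2 * (V2 y * X0 a e y + 2 * (V1 y * X1 a e y)))
      (fun y => X0 a (fun x => (1 - V x) * e x) y - (1 - V y) * X0 a e y)
      (fun y => X1 a (fun x => (1 - V x) * e x) y + V1 y * X0 a e y - (1 - V y) * X1 a e y) := by
  have q := res_X ha he
  have r := res_X ha (bdd_one_sub_V.mul he)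
  refine ⟨fun y => ?_, fun y => ?_, (GP10_bdd q.b0 q.b1).const_mul _,
    r.b0.sub (bdd_one_sub_V.mul q.b0),
    (r.b1.add (expD_V1.bdd.mul q.b0)).sub (bdd_one_sub_V.mul q.b1)⟩
  · refine ((r.d0 y).fun_sub (((hasDerivAt_V y).const_sub 1).fun_mul (q.d0 y))).congr_deriv ?_
    ring
  · refine (((r.d1 y).fun_add ((hasDerivAt_V1 y).fun_mul (q.d0 y))).fun_sub
      (((hasDerivAt_V y).const_sub 1).fun_mul (q.d1 y))).congr_deriv ?_
    field_simp
    ring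

theorem GP10_res2 (ha : 0 < a) (he : Bdd e) :
    Res a (fun y => (X0 a (fun x => (1 - V x) * e x) y - (1 - V y) * X0 a e y)
        - a ^ 2 * (V2 y * X0 a (X0 a e) y + 2 * (V1 y * X1 a (X0 a e) y)))
      (fun y => hB a e y - (-((X0 a (X0 a e) y - X0 a e y) / a ^ 2)
        + (1 - V y) * X0 a (X0 a e) y))
      (fun y => hC a e y - (-((X1 a (X0 a e) y - X1 a e y) / a ^ 2)
        + (-(V1 y * X0 a (X0 a e) y) + (1 - V y) * X1 a (X0 a e) y))) := by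
  have q := res_X ha he
  have p := res_X ha q.b0
  have h := res_hB ha he
  refine ⟨fun y => ?_, fun y => ?_,
    (GP10_res1 ha he).b0.sub ((GP10_bdd p.b0 p.b1).const_mul _),
    h.b0.sub (((p.b0.sub q.b0).div_const _).neg.add (bdd_one_sub_V.mul p.b0)),
    h.b1.sub (((p.b1.sub q.b1).div_const _).neg.add
      ((expD_V1.bdd.mul p.b0).neg.add (bdd_one_sub_V.mul p.b1)))⟩
  · refine ((h.d0 y).fun_sub ((((p.d0 y).fun_sub (q.d0 y)).div_const (a ^ 2)).fun_neg.fun_add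
      (((hasDerivAt_V y).const_sub 1).fun_mul (p.d0 y)))).congr_deriv ?_
    ring
  · refine ((h.d1 y).fun_sub ((((p.d1 y).fun_sub (q.d1 y)).div_const (a ^ 2)).fun_neg.fun_add
      (((hasDerivAt_V1 y).fun_mul (p.d0 y)).fun_neg.fun_add
        (((hasDerivAt_V y).const_sub 1).fun_mul (p.d1 y))))).congr_deriv ?_
    unfold hA
    field_simp
    ring

theorem GP10_en (ha : 0 < a) (ha8 : a ≤ 1 / 8) (hw : SW w) (he : IsH1 e ey) :
    wn w (X0 a e) ≤ 2 * wn w e ∧ wn w (X1 a e) ≤ 2 * wn w ey ∧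
    wn w (X0 a (X0 a e)) ≤ 4 * wn w e ∧ wn w (X1 a (X0 a e)) ≤ 4 * wn w ey ∧
    wn w (fun y => e y - X0 a (X0 a e) y) ≤ 12 * a ^ 2 * wn w ey := by
  have q := res_X ha he.bdd
  have p := res_X ha q.b0
  have hd : 0 < a ^ 2 := pow_pos ha 2
  have k1 := q.energy ha ha8 hw
  have k2 := q.energyH ha ha8 hw he
  have k3 := p.energy ha ha8 hw
  have k4 := p.energyD ha ha8 hw q.d0 q.b1
  have n1 := mul_nonneg hd.le (wn_nonneg hw (X1 a e))
  have n2 := mul_nonneg hd.le (wn_nonneg hw (X1 a (X0 a e)))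
  have n3 := wn_nonneg hw (fun y => e y - X0 a e y)
  have n4 := wn_nonneg hw (fun y => X0 a e y - X0 a (X0 a e) y)
  have k5 : wn w (X1 a e) ≤ 2 * wn w ey := le_of_mul_le_mul_left (by linarith) hd
  have k6 : wn w (X1 a (X0 a e)) ≤ 2 * wn w (X1 a e) := le_of_mul_le_mul_left (by linarith) hd
  have k7 := wn_le2 (A := 2) (B := 2) hw (he.bdd.sub p.b0) (he.bdd.sub q.b0) (q.b0.sub p.b0)
    (fun y => by nlinarith [sq_nonneg (e y - 2 * X0 a e y + X0 a (X0 a e) y)])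
  have k8 := mul_le_mul_of_nonneg_left k5 hd.le
  exact ⟨by linarith, k5, by linarith, by linarith, by linarith⟩

theorem GP10_C0 (y : ℝ) : |C0 y| ≤ 2 * ((1 + |y|) * Q y) := by
  have h0 := Q_pos y
  have h1 := Q_le y
  have h2 := mul_nonneg (abs_nonneg y) h0.le
  have h3 : Q y ^ 2 ≤ 2 := by nlinarith
  unfold C0
  rw [abs_of_pos (pow_pos h0 3)]
  nlinarith

theorem GP10_Q1 (y : ℝ) : |Q1 y| ≤ 1 * ((1 + |y|) * Q y) := by
  have h2 := mul_nonneg (abs_nonneg y) (Q_pos y).le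
  have h3 := abs_Q1_le y
  linarith

theorem GP10_int {p φ : ℝ → ℝ} (he : Bdd e) (hp : Bdd p) (hφ : ExpD φ)
    (h : (∫ y, e y * φ y) = 0) : (∫ y, p y * φ y) ^ 2 = (∫ y, (e y - p y) * φ y) ^ 2 := by
  simp only [sub_mul]
  rw [integral_sub (hφ.bdd_mul he).integrable (hφ.bdd_mul hp).integrable, h]
  ring

end

/-- Commutator estimate: `X X L e` is close to `L X X e`. -/
theorem comm_le : ∃ C : ℝ, 0 ≤ C ∧ ∀ (a : ℝ) (e ey w : ℝ → ℝ), 0 < a → a ≤ 1 / 8 → SW w →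
    IsH1 e ey → wn w (fun y => hB a e y - (-((X0 a (X0 a e) y - X0 a e y) / a ^ 2)
      + (1 - V y) * X0 a (X0 a e) y)) ≤ C * a ^ 4 * (wn w e + wn w ey) := by
  refine ⟨4000000, by norm_num, fun a e ey w ha ha8 hw he => ?_⟩
  have q := res_X ha he.bdd
  have p := res_X ha q.b0
  have r1 := GP10_res1 ha he.bdd
  have r2 := GP10_res2 ha he.bdd
  obtain ⟨k1, k2, k3, k4, -⟩ := GP10_en ha ha8 hw he
  have t1 := GP10_pot hw q.b0 q.b1
  have t2 := GP10_pot hw p.b0 p.b1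
  have e1 := r1.energy ha ha8 hw
  have e2 := r2.energy ha ha8 hw
  have f1 := wn_le1 (A := a ^ 4) hw r1.bf (GP10_bdd q.b0 q.b1) (fun y => le_of_eq (by ring))
  have f2 := wn_le2 (A := 2) (B := 2 * a ^ 4) hw r2.bf r1.b0 (GP10_bdd p.b0 p.b1) (fun y => by
    nlinarith [sq_nonneg ((X0 a (fun x => (1 - V x) * e x) y - (1 - V y) * X0 a e y)
      + a ^ 2 * (V2 y * X0 a (X0 a e) y + 2 * (V1 y * X1 a (X0 a e) y)))])
  have n1 := mul_nonneg (sq_nonneg a) (wn_nonneg hw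
    (fun y => X1 a (fun x => (1 - V x) * e x) y + V1 y * X0 a e y - (1 - V y) * X1 a e y))
  have n2 := mul_nonneg (sq_nonneg a) (wn_nonneg hw
    (fun y => hC a e y - (-((X1 a (X0 a e) y - X1 a e y) / a ^ 2)
      + (-(V1 y * X0 a (X0 a e) y) + (1 - V y) * X1 a (X0 a e) y))))
  have n3 := wn_nonneg hw e
  have n4 := wn_nonneg hw ey
  have h4 : 0 ≤ a ^ 4 := by positivity
  have s1 := mul_le_mul_of_nonneg_left (t1.trans
    (by linarith : _ ≤ 230400 * (wn w e + wn w ey))) h4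
  have s2 := mul_le_mul_of_nonneg_left (t2.trans
    (by linarith : _ ≤ 460800 * (wn w e + wn w ey))) h4
  have s3 := mul_nonneg h4 (add_nonneg n3 n4)
  linarith

theorem link (h1 : C1wStmt) {η : ℝ} (hη : 0 < η) : ∃ K b0 : ℝ, 0 < K ∧ 1 ≤ b0 ∧
    ∀ (a b : ℝ) (e ey : ℝ → ℝ), 0 < a → a ≤ 1 / 8 → b0 ≤ b → IsH1 e ey →
      (∫ y, e y * C0 y) = 0 → (∫ y, e y * Q1 y) = 0 →
      N0 e ≤ K * wn sc (hB a e) + (η + K * a ^ 2) * Nw b e ey := by
  obtain ⟨K, b0, hK, hb0, hs⟩ := static_link h1 (η := η / 8) (by positivity)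
  obtain ⟨C, hC, hc⟩ := comm_le
  have hKC := mul_nonneg hK hC
  refine ⟨4 * K + K * C + 38400 * K + 192, b0, by positivity, hb0,
    fun a b e ey ha ha8 hb he o1 o2 => ?_⟩
  have hb1 : 1 ≤ b := hb0.trans hb
  have hP := sw_Pb hb1
  have q := res_X ha he.bdd
  have p := res_X ha q.b0
  have hq := q.isH1 ha ha8 he.1
  have hp := p.isH1 ha ha8 hq.1
  have b2 : Bdd (fun y => (X0 a (X0 a e) y - X0 a e y) / a ^ 2) := (p.b0.sub q.b0).div_const _
  have s0 := hs b _ _ _ hb p.d0 p.d1 p.b1 b2 hp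
  obtain ⟨-, -, k3, k4, k5⟩ := GP10_en ha ha8 hP he
  have bd := he.bdd.sub p.b0
  have l1 := lin_le hb1 bd expD_C0.1 GP10_C0
  have l2 := lin_le hb1 bd expD_Q1.1 GP10_Q1
  rw [← GP10_int he.bdd p.b0 expD_C0 o1] at l1
  rw [← GP10_int he.bdd p.b0 expD_Q1 o2] at l2
  have c1 := hc a e ey sc ha ha8 sw_sc he
  have m1 := wn_mono sw_sc hP (sc_le_Pb hb1) he.bdd
  have m2 := wn_mono2 sw_sc hP (sc_le_Pb hb1) he.2.1
  have m3 := wn_mono sw_Q hP (Q_le_Pb hb1) bd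
  have t1 := wn_le2 (A := 2) (B := 2) sw_Q he.bdd p.b0 bd
    (fun y => by nlinarith [sq_nonneg (e y - 2 * X0 a (X0 a e) y)])
  have t2 := wn_le2 (A := 2) (B := 2) sw_sc (b2.neg.add (bdd_one_sub_V.mul p.b0))
    (res_hB ha he.bdd).b0 (GP10_res2 ha he.bdd).b0
    (fun y => by nlinarith [sq_nonneg (2 * hB a e y - (-((X0 a (X0 a e) y - X0 a e y) / a ^ 2)
      + (1 - V y) * X0 a (X0 a e) y))])
  rw [N0_eq, Nw_eq hb1 he]
  have n1 := wn_nonneg hP e
  have n2 := wn_nonneg hP ey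
  have n3 := wn_nonneg sw_sc (hB a e)
  have hd : 0 ≤ a ^ 2 := sq_nonneg a
  have hd' : a ^ 2 ≤ 1 / 64 := by nlinarith
  generalize wn (Pb b) e = E at *
  generalize wn (Pb b) ey = F at *
  generalize wn sc (hB a e) = H at *
  have n5 := mul_nonneg hd n1
  have n6 := mul_nonneg hd n2
  have u1 : C * a ^ 4 * (wn sc e + wn sc ey) ≤ C * (a ^ 2 * (E + F) / 4) := by
    rw [mul_assoc]
    refine mul_le_mul_of_nonneg_left ?_ hC
    have v1 := mul_le_mul_of_nonneg_left (by linarith : wn sc e + wn sc ey ≤ 16 * (E + F))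
      (by positivity : 0 ≤ a ^ 4)
    have v2 := mul_le_mul_of_nonneg_right hd' (add_nonneg n5 n6)
    nlinarith
  have u2 := mul_le_mul_of_nonneg_left (t2.trans (by linarith :
    _ ≤ 2 * H + 2 * (C * (a ^ 2 * (E + F) / 4)))) hK
  have u3 := mul_le_mul_of_nonneg_left ((add_le_add l1 l2).trans (by linarith :
    _ ≤ 19200 * (a ^ 2 * (E + F)))) hK
  have u4 := mul_le_mul_of_nonneg_left (add_le_add k3 k4) (by positivity : 0 ≤ η / 8)
  have u5 := mul_nonneg hKC n3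
  have u6 := mul_nonneg hK n3
  have u7 := mul_nonneg hK (add_nonneg n5 n6)
  linarith

end Pool.Agent.MP_8339a4_an

end

section

/-! G block: the virial estimate. -/

open MeasureTheory Filter Topology Set

namespace Pool.Agent.MP_8339a4_an

theorem GS_Nw_nonneg {b : ℝ} {e ey : ℝ → ℝ} (hb : 1 ≤ b) (h : IsH1 e ey) : 0 ≤ Nw b e ey := by
  rw [Nw_eq hb h]
  exact add_nonneg (wn_nonneg (sw_Pb hb) _) (wn_nonneg (sw_Pb hb) _)

theorem GS_N0_le {b : ℝ} {e ey : ℝ → ℝ} (hb : 1 ≤ b) (h : IsH1 e ey) :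
    N0 e ≤ 8 * Nw b e ey := by
  rw [Nw_eq hb h, N0_eq]
  have h1 := wn_mono sw_Q (sw_Pb hb) (Q_le_Pb hb) h.bdd
  have h2 := wn_nonneg (sw_Pb hb) ey
  linarith

theorem GS_lin {a b β Z p N Cq : ℝ} (ha : 0 < a) (ha1 : a ≤ 1) (hb : 1 ≤ b) (hCq : 0 ≤ Cq)
    (hN : 0 ≤ N) (hβ : β ^ 2 ≤ p * N) (q : Z ^ 2 ≤ Cq * (a ^ 2 + 1 / (a ^ 2 * b ^ 2)) * N) :
    4 * (β * Z) ≤ 2 * p * a * N + (2 * Cq * a + 2 * Cq * (1 / (a ^ 4 * b))) * N := by
  have hb0 : 0 < b := by linarith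
  set u := 1 / (a ^ 4 * b) with hu
  have h1 : 4 * (β * Z) ≤ 2 * (a * β ^ 2) + 2 * (Z ^ 2 / a) := by
    have : 0 ≤ (a * β - Z) ^ 2 / a := by positivity
    have h : (a * β - Z) ^ 2 / a = a * β ^ 2 - 2 * (β * Z) + Z ^ 2 / a := by
      field_simp; ring
    linarith
  have h2 : a * β ^ 2 ≤ a * (p * N) := mul_le_mul_of_nonneg_left hβ ha.le
  have h3 : Z ^ 2 / a ≤ Cq * (a + u) * N := by
    rw [div_le_iff₀ ha]
    refine q.trans ?_
    have h4 : 1 / (a ^ 2 * b ^ 2) ≤ u * a := by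
      rw [hu, div_mul_eq_mul_div, one_mul, div_le_div_iff₀ (by positivity) (by positivity)]
      have h5 : a ≤ b := by linarith
      have : a ^ 3 * b * a ≤ a ^ 3 * b * b := mul_le_mul_of_nonneg_left h5 (by positivity)
      linarith
    have h6 : a ^ 2 + 1 / (a ^ 2 * b ^ 2) ≤ (a + u) * a := by linarith
    have := mul_le_mul_of_nonneg_right (mul_le_mul_of_nonneg_left h6 hCq) hN
    linarith
  linarith

/-- The static estimate for the derivative of the virial functional. -/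
theorem GS_deriv (h2 : C2Stmt) : ∃ c C : ℝ, 0 < c ∧ 0 ≤ C ∧ ∀ a b : ℝ, 0 < a → a ≤ 1 / 8 →
    C * a ≤ c → 1 ≤ b → ∃ C' : ℝ, 0 ≤ C' ∧ ∀ (e ey : ℝ → ℝ) (β γ σ p : ℝ), IsH1 e ey →
      (∫ y, e y * C0 y) = 0 → (∀ y, |e y| ≤ σ) → σ ≤ 1 → β ^ 2 ≤ p * Nw b e ey →
      2 * rhs0 β γ e (th0 a b e) (th1 a b e) (th3 a b e)
        ≤ -(c * wn sc (hB a e))
          + (C * a + 2 * p * a + C / (a ^ 4 * b) + C' * (|β| + |γ| + σ)) * Nw b e ey := by
  obtain ⟨c2, C2', hc2, hC2, H2⟩ := h2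
  obtain ⟨Cv, hCv, Hv⟩ := virial
  obtain ⟨Ce, hCe, He⟩ := err_le
  obtain ⟨Co, hCo, Ho⟩ := orth_C0
  obtain ⟨Cq, hCq, Hq⟩ := QkB_le
  refine ⟨3 * c2, 2 * Ce + 6 * C2' * Co + 40 * Cv + 2 * Cq, by positivity, by positivity,
    fun a b ha ha8 hCa hb => ?_⟩
  obtain ⟨Cs, hCs, Hs⟩ := small_le ha ha8 hb
  refine ⟨2 * Cs, by positivity, fun e ey β γ σ p he ho hσ hσ1 hβ => ?_⟩
  have hb0 : 0 < b := by linarith
  have ha1 : a ≤ 1 := by linarith
  have be := he.bdd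
  have R := res_hB ha be
  have hN := GS_Nw_nonneg hb he
  set N := Nw b e ey with hNdef
  rw [rhs0_split be (test_th ha hb0 be), main_id ha hb0 be, int_LQ_th0 ha hb0 be,
    int_Q1_th0 ha hb0 be]
  have v := Hv b (hB a e) (hC a e) (hD a e) hb R.d0 (hasDerivAt_hC ha be) R.b0 R.b1 (bdd_hD ha be)
  have v' : 2 * ∫ y, hC a e y * (-gg2 a b e y + (1 - V y) * gg a b e y)
      ≤ -6 * (∫ y, sc y * (hC a e y + tn y * hB a e y) ^ 2)
        + Cv / b * (wn (Pb b) (hB a e) + wn (Pb b) (hC a e)) := v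
  have c := H2 _ _ (isH1_hB ha ha8 he)
  have cs : ∫ y, sc y * (hB a e y ^ 2 + hC a e y ^ 2) = wn sc (hB a e) + wn sc (hC a e) := by
    unfold wn
    rw [← integral_add (sw_sc.int_sq R.b0) (sw_sc.int_sq R.b1)]
    congr 1; funext y; ring
  rw [cs] at c
  have er := He a b e ha ha8 hb0 be
  have o := Ho a b e ey ha ha8 hb he ho
  have q := Hq a b e ey ha ha8 hb he
  have s := (abs_le.mp (Hs e ey β γ σ he hσ hσ1)).2
  have nB := wn_hB ha ha8 (sw_Pb hb) he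
  rw [← Nw_eq hb he, ← hNdef] at nB
  have n1 := wn_nonneg (sw_Pb hb) (hB a e)
  have n2 := wn_nonneg (sw_Pb hb) (hC a e)
  have n3 := wn_nonneg sw_sc (hB a e)
  have n4 := wn_nonneg sw_sc (hC a e)
  rw [← hNdef] at o q s
  set S1 := wn sc (hB a e)
  set S2 := wn sc (hC a e)
  set T1 := wn (Pb b) (hB a e)
  set T2 := wn (Pb b) (hC a e)
  set Z := ∫ y, Q y * kB a b e y
  set O := ∫ y, hB a e y * C0 y
  set u := 1 / (a ^ 4 * b) with hu
  have hu0 : 0 < u := by positivity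
  have a2 : a ^ 2 ≤ a := pow_le_of_le_one ha.le ha1 (by norm_num)
  -- the cut-off error
  have e1 : Cv / b * (T1 + T2) ≤ 40 * Cv * u * N := by
    have h4 : a ^ 4 ≤ a ^ 2 := pow_le_pow_of_le_one ha.le ha1 (by norm_num)
    have h5 : a ^ 4 * (T1 + T2) ≤ 40 * N := by
      have := mul_le_mul_of_nonneg_right h4 n1
      linarith
    have h6 : Cv / b * (T1 + T2) = Cv * u * (a ^ 4 * (T1 + T2)) := by
      rw [hu]; field_simp
    rw [h6]
    have := mul_le_mul_of_nonneg_left h5 (mul_nonneg hCv hu0.le)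
    linarith
  -- the orthogonality defect
  have e2 : 6 * (C2' * O ^ 2) ≤ 6 * C2' * Co * a * N := by
    have h1 : Co * a ^ 2 * N ≤ Co * a * N :=
      mul_le_mul_of_nonneg_right (mul_le_mul_of_nonneg_left a2 hCo) hN
    have := mul_le_mul_of_nonneg_left (o.trans h1) hC2
    linarith
  have e3 := GS_lin ha ha1 hb hCq hN hβ q
  rw [← hu] at e3
  have e4 : 2 * (Ce * a * (S1 + S2)) ≤ 3 * c2 * (S1 + S2) := by
    have h1 : 2 * Ce * a ≤ 3 * c2 := by
      have : 0 ≤ (6 * C2' * Co + 40 * Cv + 2 * Cq) * a := by positivity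
      linarith
    have := mul_le_mul_of_nonneg_right h1 (add_nonneg n3 n4)
    linarith
  have e5 : (2 * Ce + 6 * C2' * Co + 40 * Cv + 2 * Cq) / (a ^ 4 * b)
      = (2 * Ce + 6 * C2' * Co + 40 * Cv + 2 * Cq) * u := by rw [hu]; ring
  rw [e5]
  have p1 : 0 ≤ (2 * Ce + 40 * Cv) * a * N := by positivity
  have p2 : 0 ≤ (2 * Ce + 6 * C2' * Co) * u * N := by positivity
  have p3 : 0 ≤ c2 * S2 := by positivity
  linarith

section

variable {κ s0 r0 r1 M η d Cp : ℝ} {e ey : ℝ → ℝ → ℝ} {lam β γ : ℝ → ℝ}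

theorem GS_ev_sup (st : Setup κ s0 r0 r1 M η d Cp e ey lam β γ) {δ : ℝ} (hδ : 0 < δ) :
    ∀ᶠ s in atTop, ∀ y, |e s y| ≤ δ := by
  have h1 : Tendsto (fun s => 2 * (Real.sqrt M * Real.sqrt (∫ y, ey s y ^ 2))) atTop
      (𝓝 0) := by
    have := (st.ey0.sqrt.const_mul (Real.sqrt M)).const_mul 2
    simpa using this
  filter_upwards [h1.eventually (gt_mem_nhds (pow_pos hδ 2)), eventually_gt_atTop s0]
    with s hs hs0 y
  have h2 := (st.flow s hs0).h1t.2.1.sq_le y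
  have h3 : Real.sqrt (∫ y, e s y ^ 2) ≤ Real.sqrt M := Real.sqrt_le_sqrt (st.mass s hs0)
  have h4 := mul_le_mul_of_nonneg_right h3 (Real.sqrt_nonneg (∫ y, ey s y ^ 2))
  exact abs_le_of_sq_le_sq (by linarith) hδ.le

theorem GS_ev_par (st : Setup κ s0 r0 r1 M η d Cp e ey lam β γ) {δ : ℝ} (hδ : 0 < δ) :
    ∀ᶠ s in atTop, |β s| ≤ δ ∧ |γ s| ≤ δ := by
  have h1 : Tendsto (fun s => Cp * N0 (e s)) atTop (𝓝 0) := by
    simpa using st.n0.const_mul Cp
  filter_upwards [h1.eventually (gt_mem_nhds (pow_pos hδ 2)), eventually_gt_atTop s0]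
    with s hs hs0
  have h2 := st.par s hs0
  exact ⟨abs_le_of_sq_le_sq (by nlinarith [sq_nonneg (γ s)]) hδ.le,
    abs_le_of_sq_le_sq (by nlinarith [sq_nonneg (β s)]) hδ.le⟩

end

theorem gs (h1 : C1wStmt) (h2 : C2Stmt) : GSStmt := by
  intro κ s0 r0 r1 M η d Cp e ey lam β γ st θ hθ
  obtain ⟨c, C, hc, hC, HD⟩ := GS_deriv h2
  obtain ⟨K, b1, hK, hb1, HL⟩ := link h1 (η := θ / 4) (by positivity)
  set p := 8 * |Cp| with hp
  have hp0 : 0 ≤ p := by positivity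
  set Mg := K / c with hMg
  have hMg0 : 0 < Mg := by positivity
  set T := K + Mg * (C + 2 * p) with hT
  have hT0 : 0 ≤ T := by positivity
  obtain ⟨a, ha, ha8, haC, haT⟩ : ∃ a : ℝ, 0 < a ∧ a ≤ 1 / 8 ∧ C * a ≤ c ∧ T * a ≤ θ / 4 := by
    refine ⟨min (1 / 8) (min (c / (C + 1)) (θ / 4 / (T + 1))), by positivity, min_le_left _ _,
      ?_, ?_⟩
    · have h : min (1 / 8) (min (c / (C + 1)) (θ / 4 / (T + 1))) ≤ c / (C + 1) :=
        (min_le_right _ _).trans (min_le_left _ _)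
      refine (mul_le_mul_of_nonneg_left h hC).trans ?_
      rw [mul_div_assoc', div_le_iff₀ (by positivity)]
      nlinarith
    · have h : min (1 / 8) (min (c / (C + 1)) (θ / 4 / (T + 1))) ≤ θ / 4 / (T + 1) :=
        (min_le_right _ _).trans (min_le_right _ _)
      refine (mul_le_mul_of_nonneg_left h hT0).trans ?_
      rw [mul_div_assoc', div_le_iff₀ (by positivity)]
      nlinarith
  refine ⟨Mg * (640 / a ^ 2), max b1 (4 * Mg * C / (θ * a ^ 4)), by positivity,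
    lt_max_of_lt_left (by linarith), fun b hb => ?_⟩
  have hbb1 : b1 ≤ b := (le_max_left _ _).trans hb
  have hb' : 1 ≤ b := hb1.trans hbb1
  have hb2 : Mg * (C / (a ^ 4 * b)) ≤ θ / 4 := by
    have h := (le_max_right _ _).trans hb
    rw [div_le_iff₀ (by positivity)] at h
    rw [mul_div_assoc', div_le_iff₀ (by positivity)]
    nlinarith
  obtain ⟨C', hC', HD'⟩ := HD a b ha ha8 haC hb'
  obtain ⟨δ, hδ, hδ1, hδ2⟩ : ∃ δ : ℝ, 0 < δ ∧ δ ≤ 1 ∧ Mg * (C' * (3 * δ)) ≤ θ / 4 := by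
    refine ⟨min 1 (θ / 4 / (3 * Mg * C' + 1)), by positivity, min_le_left _ _, ?_⟩
    have h : min 1 (θ / 4 / (3 * Mg * C' + 1)) ≤ θ / 4 / (3 * Mg * C' + 1) := min_le_right _ _
    have h3 : 0 ≤ 3 * Mg * C' := by positivity
    have h4 := mul_le_mul_of_nonneg_left h h3
    have h5 : 3 * Mg * C' * (θ / 4 / (3 * Mg * C' + 1)) ≤ θ / 4 := by
      rw [mul_div_assoc', div_le_iff₀ (by positivity)]
      nlinarith
    linarith
  refine ⟨fun s => Mg * GG a b (e s), ?_⟩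
  have ev : ∀ᶠ s in atTop, s0 < s ∧ (∀ y, |e s y| ≤ δ) ∧ |β s| ≤ δ ∧ |γ s| ≤ δ := by
    filter_upwards [eventually_gt_atTop s0, GS_ev_sup st hδ, GS_ev_par st hδ] with s u1 u2 u3
    exact ⟨u1, u2, u3⟩
  obtain ⟨S, hS⟩ := eventually_atTop.mp ev
  filter_upwards [eventually_gt_atTop S] with s hs
  obtain ⟨u1, u2, u3, u4⟩ := hS s hs.le
  have fl := st.flow s u1
  have he : IsH1 (e s) (ey s) := fl.h1t.2.1
  have ho := fl.orth.self_of_nhds
  have hN := GS_Nw_nonneg hb' he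
  refine ⟨?_, _, (hasDerivAt_GG (lam := lam) (ey := ey) (β := β) (γ := γ) ha ha8 hb' ?_).const_mul Mg,
    ?_⟩
  · rw [abs_mul, abs_of_pos hMg0, mul_assoc]
    exact mul_le_mul_of_nonneg_left (abs_GG_le ha ha8 hb' he) hMg0.le
  · filter_upwards [lt_mem_nhds hs] with t ht
    obtain ⟨v1, v2, v3, v4⟩ := hS t ht.le
    exact ⟨st.flow t v1, fun y => (v2 y).trans hδ1, v3.trans hδ1, v4.trans hδ1⟩
  · have hβ : β s ^ 2 ≤ p * Nw b (e s) (ey s) := by
      have w1 := st.par s u1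
      have w2 := GS_N0_le hb' he
      have w3 := N0_nonneg (e s)
      have w4 : Cp * N0 (e s) ≤ |Cp| * N0 (e s) := mul_le_mul_of_nonneg_right (le_abs_self _) w3
      have w5 := mul_le_mul_of_nonneg_left w2 (abs_nonneg Cp)
      rw [hp]
      linarith [sq_nonneg (γ s)]
    have d1 := mul_le_mul_of_nonneg_left (HD' (e s) (ey s) (β s) (γ s) δ p he ho.1 u2 hδ1 hβ)
      hMg0.le
    have d2 := HL a b (e s) (ey s) ha ha8 hbb1 he ho.1 ho.2
    have d3 : Mg * c = K := by rw [hMg]; field_simp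
    set N := Nw b (e s) (ey s)
    set W := wn sc (hB a (e s))
    have d4 : Mg * (C' * (|β s| + |γ s| + δ)) ≤ θ / 4 :=
      (mul_le_mul_of_nonneg_left (mul_le_mul_of_nonneg_left (by linarith) hC') hMg0.le).trans hδ2
    have d5 : K * a ^ 2 + Mg * (C * a + 2 * p * a) ≤ θ / 4 := by
      have : K * a ^ 2 ≤ K * a :=
        mul_le_mul_of_nonneg_left (pow_le_of_le_one ha.le (by linarith) (by norm_num)) hK.le
      rw [hT] at haT
      linarith
    have d6 : (θ / 4 + K * a ^ 2 + Mg * (C * a + 2 * p * a + C / (a ^ 4 * b)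
        + C' * (|β s| + |γ s| + δ))) * N ≤ θ * N :=
      mul_le_mul_of_nonneg_right (by linarith) hN
    have d7 : Mg * (c * W) = K * W := by rw [← d3]; ring
    linarith

end Pool.Agent.MP_8339a4_an

end
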