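import Pool.Agent.Mg.F8339a4.G100cd9

/-! Assembly of the E, G and S blocks. -/

open MeasureTheory Filter Topology Set

namespace Pool.Agent.MP_8339a4_an

/-- The R block: bounds on the right of the step. -/
theorem right_MainE (hC : ContStmt) (h1 : R1Stmt) (h2 : R2Stmt) (h3 : R3Stmt) (h4 : R4Stmt)
    (hS : S2Stmt) (X : Dat) :
    ∃ C' v : ℝ, 0 ≤ C' ∧ (∀ᶠ s in atTop, X.Kf s + X.k6 s ≤ C' * X.lam s ^ 2 ∧
      X.a s ^ 2 ≤ C' * X.lam s) ∧
    Tendsto (fun s => (X.a s / Real.sqrt (X.lam s) - v) * s ^ ((X.κ - 1) / 2)) atTop (𝓝 0) := by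
  obtain ⟨C1, e1⟩ := h1 X
  obtain ⟨C2, e2⟩ := h2 X
  obtain ⟨C3, e3⟩ := h3 X
  obtain ⟨c, C4, hc, e4⟩ := h4 X
  set C := |C1| + |C2| + |C3| + |C4| with hCdef
  have l1 : C1 ≤ C := by
    have := le_abs_self C1; have := abs_nonneg C2; have := abs_nonneg C3; have := abs_nonneg C4
    linarith
  have l2 : C2 ≤ C := by
    have := le_abs_self C2; have := abs_nonneg C1; have := abs_nonneg C3; have := abs_nonneg C4
    linarith
  have l3 : C3 ≤ C := by
    have := le_abs_self C3; have := abs_nonneg C1; have := abs_nonneg C2; have := abs_nonneg C4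
    linarith
  have l4 : C4 ≤ C := by
    have := le_abs_self C4; have := abs_nonneg C1; have := abs_nonneg C2; have := abs_nonneg C3
    linarith
  obtain ⟨s2, hs2⟩ := eventually_atTop.1 (e1.and (e2.and (e3.and (e4.and X.ev_gt))))
  have hs : ∀ s, max s2 1 < s → s2 ≤ s := fun s h => (le_max_left _ _).trans h.le
  have tp : ∀ s, max s2 1 < s → 0 ≤ X.tau s := fun s h =>
    (X.tau_pos (by have := le_max_right s2 1; linarith)).le
  obtain ⟨C', v, hb, hv⟩ := hS X.κ c C X.r0 X.r1 (max s2 1) X.lam X.β X.a X.f X.m X.E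
    (fun s => X.Kf s + X.k6 s) X.pr.hκ hc X.r0_pos (le_max_right _ _)
    (fun s h => by
      have g := (hs2 s (hs s h)).2.2.2.2
      exact ⟨X.hasDerivAt_lam g, X.st.rate s g⟩)
    (fun s h => by
      obtain ⟨⟨a', ha', hb'⟩, -, -, -, g⟩ := hs2 s (hs s h)
      refine ⟨(hC X 1 one_pos s g).1, X.f_nonneg g, a', ha', hb'.trans ?_⟩
      exact mul_le_mul_of_nonneg_right l1 (add_nonneg (Real.sqrt_nonneg _) (tp s h)))
    (fun s h => by
      obtain ⟨-, ⟨hm, m', hm', hb'⟩, -, -, g⟩ := hs2 s (hs s h)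
      refine ⟨hm, m', hm', hb'.trans ?_⟩
      have := mul_le_mul_of_nonneg_right l2 (tp s h)
      unfold Dat.tau at this hb' ⊢
      linarith)
    (fun s h => by
      obtain ⟨-, -, hd, -, g⟩ := hs2 s (hs s h)
      refine ⟨(hC X 1 one_pos s g).2.1, hd.mono ?_⟩
      have := mul_le_mul_of_nonneg_right l3
        (add_nonneg (show 0 ≤ X.a s ^ 6 by positivity) (tp s h))
      unfold Dat.tau at this ⊢
      linarith)
    (fun s h => by
      obtain ⟨-, -, -, hd, g⟩ := hs2 s (hs s h)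
      refine ⟨add_nonneg (X.Kf_nonneg s) (X.k6_nonneg s), hd.trans ?_⟩
      have := mul_le_mul_of_nonneg_right l4
        (add_nonneg (show 0 ≤ X.lam s ^ 2 + X.a s ^ 4 by positivity) (tp s h))
      unfold Dat.tau at this ⊢
      linarith)
  refine ⟨|C'|, v, abs_nonneg _, ?_, hv⟩
  filter_upwards [hb, X.ev_gt] with s h g
  have hl := X.lam_pos g
  exact ⟨h.1.trans (mul_le_mul_of_nonneg_right (le_abs_self _) (sq_nonneg _)),
    h.2.trans (mul_le_mul_of_nonneg_right (le_abs_self _) hl.le)⟩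

/-- Consequences of the R block in terms of powers of `s`. -/
theorem small_MainE (X : Dat) {C' : ℝ} (hC' : 0 ≤ C')
    (h : ∀ᶠ s in atTop, X.Kf s + X.k6 s ≤ C' * X.lam s ^ 2 ∧ X.a s ^ 2 ≤ C' * X.lam s) :
    ∃ C : ℝ, 0 ≤ C ∧ ∀ᶠ s in atTop, X.Z s ≤ C * s ^ (-(3 : ℝ) / 2) ∧
      X.a s ^ 2 ≤ C * s ^ (-(3 : ℝ) / 2) ∧ Real.sqrt (X.f s) ≤ C * s ^ (-(3 : ℝ) / 2) ∧
      X.f s ≤ C * s ^ (-(3 : ℝ) / 2) ∧ X.tau s ≤ s ^ (-(3 : ℝ) / 2) ∧
      X.lam s ≤ C * s ^ (-(3 : ℝ) / 2) ∧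
      Real.sqrt (X.f s) * |X.a s| + X.f s + X.tau s ≤ C * s ^ (-(9 : ℝ) / 4) := by
  have hr := X.r1_pos
  set k := (C' + 1) * (X.r1 + 1) ^ 2 with hk
  have hk1 : 1 ≤ k := by nlinarith [sq_nonneg X.r1]
  refine ⟨3 * k + 1, by linarith, ?_⟩
  filter_upwards [h, X.ev_gt] with s hs g
  obtain ⟨hK, ha⟩ := hs
  have s1 := X.one_lt g
  have s0 : 0 < s := by linarith
  have hl := X.lam_pos g
  have hle := X.lam_le g
  set p := s ^ (-(3 : ℝ) / 2) with hp
  set q := s ^ (-(3 : ℝ) / 4) with hq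
  have q0 : 0 < q := Real.rpow_pos_of_pos s0 _
  have q1 : q ≤ 1 := Real.rpow_le_one_of_one_le_of_nonpos s1.le (by norm_num)
  have pq : p = q ^ 2 := by
    rw [hp, hq, ← Real.rpow_natCast, ← Real.rpow_mul s0.le]; norm_num
  have p9 : s ^ (-(9 : ℝ) / 4) = q ^ 3 := by
    rw [hq, ← Real.rpow_natCast, ← Real.rpow_mul s0.le]; norm_num
  have p0 : 0 < p := by rw [pq]; positivity
  have p1 : p ≤ 1 := by rw [pq]; nlinarith
  have t1 : X.tau s ≤ p := X.tau_le s1.le (by norm_num)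
  have t2 : X.tau s ≤ q ^ 3 := by rw [← p9]; exact X.tau_le s1.le (by norm_num)
  have f0 := X.f_nonneg g
  have fK := X.f_le_Kf g
  have k6 := X.k6_nonneg s
  have K0 := X.Kf_nonneg s
  have l2 : X.lam s ^ 2 ≤ X.r1 ^ 2 * p ^ 2 := by
    rw [← mul_pow]; exact pow_le_pow_left₀ hl.le hle 2
  have r2 : C' * X.r1 ^ 2 ≤ k := by nlinarith [sq_nonneg X.r1]
  have r1' : C' * X.r1 ≤ k := by nlinarith [sq_nonneg X.r1]
  have r1'' : X.r1 ≤ k := by nlinarith [sq_nonneg X.r1]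
  have bK : X.Kf s + X.k6 s ≤ k * p ^ 2 := by
    calc _ ≤ C' * X.lam s ^ 2 := hK
      _ ≤ C' * (X.r1 ^ 2 * p ^ 2) := mul_le_mul_of_nonneg_left l2 hC'
      _ = C' * X.r1 ^ 2 * p ^ 2 := by ring
      _ ≤ k * p ^ 2 := mul_le_mul_of_nonneg_right r2 (sq_nonneg _)
  have ba : X.a s ^ 2 ≤ k * p := by
    calc _ ≤ C' * X.lam s := ha
      _ ≤ C' * (X.r1 * p) := mul_le_mul_of_nonneg_left hle hC'
      _ = C' * X.r1 * p := by ring
      _ ≤ k * p := mul_le_mul_of_nonneg_right r1' p0.le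
  have pp : k * p ^ 2 ≤ k * p := mul_le_mul_of_nonneg_left (by nlinarith) (by linarith)
  have kp : 0 ≤ k * p := by positivity
  have bf : X.f s ≤ k * p ^ 2 := by linarith
  have bs : Real.sqrt (X.f s) ≤ Real.sqrt k * p := by
    rw [← Real.sqrt_sq p0.le, ← Real.sqrt_mul (by linarith)]
    exact Real.sqrt_le_sqrt bf
  have sk : Real.sqrt k ≤ k := by
    rw [Real.sqrt_le_left (by linarith)]; nlinarith
  have ba' : |X.a s| ≤ Real.sqrt k * q := by
    rw [← Real.sqrt_sq q0.le, ← Real.sqrt_mul (by linarith), ← pq]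
    exact Real.abs_le_sqrt ba
  have kk : Real.sqrt k * Real.sqrt k = k := Real.mul_self_sqrt (by linarith)
  have b1 : Real.sqrt (X.f s) * |X.a s| ≤ k * q ^ 3 := by
    calc _ ≤ (Real.sqrt k * p) * (Real.sqrt k * q) :=
          mul_le_mul bs ba' (abs_nonneg _) (by positivity)
      _ = (Real.sqrt k * Real.sqrt k) * q ^ 3 := by rw [pq]; ring
      _ = k * q ^ 3 := by rw [kk]
  have b2 : k * p ^ 2 ≤ k * q ^ 3 := by
    apply mul_le_mul_of_nonneg_left _ (by linarith)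
    rw [pq]; nlinarith [pow_pos q0 3]
  have skp : Real.sqrt k * p ≤ k * p := mul_le_mul_of_nonneg_right sk p0.le
  have q3 : 0 ≤ k * q ^ 3 := by positivity
  have lk : X.r1 * p ≤ k * p := mul_le_mul_of_nonneg_right r1'' p0.le
  refine ⟨?_, by nlinarith, by nlinarith, by nlinarith, t1, by nlinarith, ?_⟩
  · unfold Dat.Z; nlinarith
  · rw [p9]; nlinarith

end Pool.Agent.MP_8339a4_an
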