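import Pool.Agent.Mg.F8339a4.Ge5fdb7
import Pool.Agent.Mg.F8339a4.G1d67fe
import Pool.Agent.Mg.F8339a4.Gdaf163

section

open MeasureTheory Filter Topology Set

namespace Pool.Agent.MP_8339a4_an

/-- Almost everywhere convergence of the mollifications. -/
theorem ae_tendsto_W1b {f : ℝ → ℝ} (hf : MemLp f 2 volume) :
    ∀ᵐ x, Tendsto (fun n => mo 0 n f x) atTop (𝓝 (f x)) := by
  have h1 : Tendsto (fun n : ℕ => (bump n).rOut) atTop (𝓝 0) :=
    tendsto_one_div_add_atTop_nhds_zero_nat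
  have h2 : ∀ᶠ n : ℕ in atTop, (bump n).rOut ≤ 2 * (bump n).rIn := by
    refine Eventually.of_forall fun n => le_of_eq ?_
    show 1 / ((n : ℝ) + 1) = 2 * (1 / (2 * ((n : ℝ) + 1)))
    field_simp
  have h3 := ContDiffBump.ae_convolution_tendsto_right_of_locallyIntegrable h1 h2
    (hf.locallyIntegrable (by norm_num))
  filter_upwards [h3] with x hx
  refine hx.congr fun n => ?_
  rw [convolution_lsmul_swap]
  simp only [mo, ker, iteratedDeriv_zero, smul_eq_mul]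

/-- Almost everywhere convergence with a bound on the norms gives convergence in `L^2`. -/
theorem l2_of_ae_W1b {g : ℕ → ℝ → ℝ} {f : ℝ → ℝ} (hf : MemLp f 2 volume)
    (hg : ∀ n, MemLp (g n) 2 volume) (hle : ∀ n, (∫ x, g n x ^ 2) ≤ ∫ x, f x ^ 2)
    (hae : ∀ᵐ x, Tendsto (fun n => g n x) atTop (𝓝 (f x))) :
    Tendsto (fun n => ∫ y, (g n y - f y) ^ 2) atTop (𝓝 0) := by
  have ip : ∀ n, Integrable (fun y => (g n y + f y) ^ 2) := fun n =>
    integrable_sq2 ((hg n).add hf)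
  have i4 : Integrable (fun y => 4 * f y ^ 2) := (integrable_sq2 hf).const_mul 4
  have par : ∀ n, ∫ y, (g n y - f y) ^ 2 ≤ 4 * (∫ y, f y ^ 2) - ∫ y, (g n y + f y) ^ 2 := by
    intro n
    have a1 : ∫ y, (g n y - f y) ^ 2
        = ∫ y, ((2 * g n y ^ 2 + 2 * f y ^ 2) - (g n y + f y) ^ 2) :=
      integral_congr_ae (ae_of_all _ fun y => by ring)
    have j1 := (integrable_sq2 (hg n)).const_mul 2
    have j2 := (integrable_sq2 hf).const_mul 2
    have j3 : Integrable (fun y => 2 * g n y ^ 2 + 2 * f y ^ 2) := j1.add j2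
    rw [a1, integral_sub j3 (ip n), integral_add j1 j2, integral_const_mul, integral_const_mul]
    linarith [hle n]
  have fat : ENNReal.ofReal (4 * ∫ y, f y ^ 2)
      ≤ liminf (fun n => ENNReal.ofReal (∫ y, (g n y + f y) ^ 2)) atTop := by
    have a1 := lintegral_liminf_le' (μ := volume) (u := atTop)
      (f := fun n y => ENNReal.ofReal ((g n y + f y) ^ 2))
      (fun n => (ip n).aemeasurable.ennreal_ofReal)
    have a2 : ∫⁻ y, liminf (fun n => ENNReal.ofReal ((g n y + f y) ^ 2)) atTop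
        = ∫⁻ y, ENNReal.ofReal (4 * f y ^ 2) := by
      refine lintegral_congr_ae ?_
      filter_upwards [hae] with y hy
      have b1 : Tendsto (fun n => (g n y + f y) ^ 2) atTop (𝓝 (4 * f y ^ 2)) := by
        have b2 := (hy.add_const (f y)).pow 2
        have b3 : (f y + f y) ^ 2 = 4 * f y ^ 2 := by ring
        rwa [b3] at b2
      exact (ENNReal.tendsto_ofReal b1).liminf_eq
    rw [a2, ← ofReal_integral_eq_lintegral_ofReal i4 (ae_of_all _ fun y => by positivity),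
      integral_const_mul] at a1
    refine a1.trans (le_of_eq ?_)
    congr 1
    funext n
    rw [ofReal_integral_eq_lintegral_ofReal (ip n) (ae_of_all _ fun y => sq_nonneg _)]
  rw [tendsto_order]
  refine ⟨fun a ha => Eventually.of_forall fun n =>
    ha.trans_le (integral_nonneg fun y => sq_nonneg _), fun ε hε => ?_⟩
  by_cases hI : 4 * (∫ y, f y ^ 2) < ε
  · refine Eventually.of_forall fun n => ?_
    have a1 : 0 ≤ ∫ y, (g n y + f y) ^ 2 := integral_nonneg fun y => sq_nonneg _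
    linarith [par n]
  · have a1 : ENNReal.ofReal (4 * (∫ y, f y ^ 2) - ε) < ENNReal.ofReal (4 * ∫ y, f y ^ 2) :=
      (ENNReal.ofReal_lt_ofReal_iff (by linarith)).2 (by linarith)
    filter_upwards [eventually_lt_of_lt_liminf (a1.trans_le fat)] with n hn
    have a2 := (ENNReal.ofReal_lt_ofReal_iff'.1 hn).1
    linarith [par n]

theorem moL (A : MoA) :
    ∀ f : ℝ → ℝ, MemLp f 2 volume → L2T atTop (fun n => mo 0 n f) f := fun f hf =>
  ⟨Eventually.of_forall fun n => A.mem 0 n f hf, hf,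
    l2_of_ae_W1b hf (fun n => A.mem 0 n f hf) (fun n => A.sq0 n f hf) (ae_tendsto_W1b hf)⟩

end Pool.Agent.MP_8339a4_an

end

section

open MeasureTheory Filter Topology Set

namespace Pool.Agent.MP_8339a4_an

theorem le_W1c (A : MoA) (n : ℕ) {f G : ℝ → ℝ} {x : ℝ}
    (hi : Integrable fun y => ker 0 n (x - y) * G y) (h : ∀ y, |y - x| ≤ 1 → |f y| ≤ G y) :
    |mo 0 n f x| ≤ ∫ y, ker 0 n (x - y) * G y := by
  refine norm_integral_le_of_norm_le (f := fun y => ker 0 n (x - y) * f y) hi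
    (ae_of_all _ fun y => ?_)
  rw [Real.norm_eq_abs, abs_mul, abs_of_nonneg (A.k0 n _)]
  by_cases e : |y - x| ≤ 1
  · exact mul_le_mul_of_nonneg_left (h y e) (A.k0 n _)
  · have h1 : 1 / ((n : ℝ) + 1) ≤ 1 :=
      (div_le_one (by positivity)).2 (le_add_of_nonneg_left n.cast_nonneg)
    rw [A.kz 0 n _ (h1.trans (abs_sub_comm x y ▸ (not_le.1 e).le)), zero_mul, zero_mul]

theorem cont_W1c (A : MoA) (k n : ℕ) {f : ℝ → ℝ} (hf : MemLp f 2 volume) :
    Continuous (mo k n f) :=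
  continuous_iff_continuousAt.2 fun x => (A.der k n f x hf).continuousAt

theorem bdd_W1c (A : MoA) (k n : ℕ) {f : ℝ → ℝ} (hf : MemLp f 2 volume) : Bdd (mo k n f) := by
  obtain ⟨C, -, hC⟩ := A.sq k n
  exact ⟨cont_W1c A k n hf, _, fun x => Real.abs_le_sqrt ((hC f hf).2 x)⟩

theorem h1_W1c (A : MoA) (k n : ℕ) {f : ℝ → ℝ} (hf : MemLp f 2 volume) :
    IsH1 (mo k n f) (mo (k + 1) n f) :=
  IsH1.of_isPrim (IsPrim.of_hasDerivAt (fun x => A.der k n f x hf) (cont_W1c A _ n hf))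
    (A.mem _ _ f hf) (A.mem _ _ f hf)

theorem prim_W1c (A : MoA) (k n : ℕ) {f g : ℝ → ℝ} (x : ℝ) (h : IsH1 f g) :
    mo (k + 1) n f x = mo k n g x := by
  have h1 : IsPrim (fun y => ker k n (x - y)) fun y => -ker (k + 1) n (x - y) :=
    IsPrim.of_hasDerivAt (fun y => (A.kd k n (x - y)).comp_const_sub x y)
      ((A.smooth (k + 1) n).continuous.comp (continuous_const.sub continuous_id)).neg
  refine (h1.mul h.isPrim).neg.integral_eq (A.int k n f x h.1).neg (A.int (k + 1) n f x h.1)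
    (A.int k n g x h.2.1) fun y => ?_
  ring

theorem moB (A : MoA)
    (hl : ∀ f : ℝ → ℝ, MemLp f 2 volume → L2T atTop (fun n => mo 0 n f) f) : MoB := by
  refine ⟨fun k n f hf => bdd_W1c A k n hf, fun k n f hf => h1_W1c A k n hf,
    fun k n f g x h => prim_W1c A k n x h, hl, fun f g h => ?_, fun n f G c x _ hG h => ?_,
    fun n f c x _ h => ?_, fun k n l f g h => ?_, fun k n l f g h => ?_⟩
  · exact H1T.of_l2 (Eventually.of_forall fun n => h1_W1c A 0 n h.1) h (hl f h.1)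
      ((hl g h.2.1).congr (Eventually.of_forall fun n y => (prim_W1c A 0 n y h).symm) fun _ => rfl)
  · have e : (fun y => ker 0 n (x - y) * (c * |G y|)) = fun y => c * (ker 0 n (x - y) * |G y|) :=
      funext fun y => mul_left_comm _ _ _
    have := le_W1c A n (G := fun y => c * |G y|) (e ▸ (A.int 0 n _ x hG.abs).const_mul c) h
    rwa [e, integral_const_mul] at this
  · have i := (A.smooth 0 n).continuous.integrable_of_hasCompactSupport (μ := volume) (A.supp 0 n)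
    have := le_W1c A n (G := fun _ => c) ((i.comp_sub_left x).mul_const c) h
    rwa [integral_mul_const, integral_sub_left_eq_self (ker 0 n), A.k1, one_mul] at this
  · obtain ⟨C, -, hC⟩ := A.sq k n
    refine l2_of_le_T3a (h.1.mono fun z hz => A.mem k n _ hz) (A.mem k n g h.2.1)
      (r := fun z => C * ∫ y, (f z y - g y) ^ 2) (by simpa using h.2.2.const_mul C)
      (h.1.mono fun z hz => ?_)
    simp only [← A.sub k n (f z) g _ hz h.2.1]
    exact (hC _ (hz.sub h.2.1)).1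
  · obtain ⟨C, -, hC⟩ := A.sq k n
    refine of_rate_T3a (h.1.mono fun z hz => bdd_W1c A k n hz) (bdd_W1c A k n h.2.1)
      (r := fun z => Real.sqrt (C * ∫ y, (f z y - g y) ^ 2))
      (by simpa using (h.2.2.const_mul C).sqrt) (h.1.mono fun z hz y => ?_)
    rw [← A.sub k n (f z) g _ hz h.2.1]
    exact Real.abs_le_sqrt ((hC _ (hz.sub h.2.1)).2 y)

end Pool.Agent.MP_8339a4_an

end

section

open MeasureTheory Filter Topology Set

namespace Pool.Agent.MP_8339a4_an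

theorem timA (A : MoA) (B : MoB) : TimA := by
  intro I u ux hu a b hI
  have h1 : ∀ t ∈ Icc a b, H1T (𝓝[Icc a b] t) u ux (u t) (ux t) := fun t ht =>
    (hu.h1t (hI ht)).mono (nhdsWithin_mono _ hI)
  have h5 : ∀ t ∈ Icc a b, L2T (𝓝[Icc a b] t) (fun z y => u z y ^ 5) (fun y => u t y ^ 5) :=
    fun t ht => ((h1 t ht).l2.mul_ut ((h1 t ht).ut.pow 4)).congr
      (Eventually.of_forall fun _ _ => by ring) fun _ => by ring
  refine ⟨?_, h1, h5, fun k n t ht => ⟨?_, ?_⟩⟩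
  · obtain ⟨C, hC⟩ := (isCompact_Icc (a := a) (b := b)).exists_bound_of_continuousOn
      (f := fun t => ∫ x, u t x ^ 2) fun t ht => (h1 t ht).l2.sq.tendsto_integral
    obtain ⟨D, hD⟩ := (isCompact_Icc (a := a) (b := b)).exists_bound_of_continuousOn
      (f := fun t => ∫ x, ux t x ^ 2) fun t ht => (h1 t ht).l2y.sq.tendsto_integral
    refine ⟨1 + |C| + |D|, by positivity, fun t ht => ?_⟩
    have k1 : (∫ x, u t x ^ 2) ≤ |C| := ((le_abs_self _).trans (hC t ht)).trans (le_abs_self C)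
    have k2 : (∫ x, ux t x ^ 2) ≤ |D| := ((le_abs_self _).trans (hD t ht)).trans (le_abs_self D)
    have k3 := abs_nonneg C
    have k4 := abs_nonneg D
    refine ⟨by linarith, by linarith, fun x => ?_⟩
    have h := hu.h1 t (hI ht)
    have k5 := h.sq_le' x
    rw [integral_add (integrable_sq2 h.1) (integrable_sq2 h.2.1), ← sq_abs] at k5
    nlinarith [sq_nonneg (|u t x| - 1)]
  · exact (((B.cl2 (k + 3) n _ _ _ (h1 t ht).l2).add (B.cl2 (k + 1) n _ _ _ (h5 t ht))).const_mul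
      (-1)).congr (Eventually.of_forall fun _ _ => by simp only [VV]; ring) fun _ => by
        simp only [VV]; ring
  · exact (((B.cut (k + 3) n _ _ _ (h1 t ht).l2).add (B.cut (k + 1) n _ _ _ (h5 t ht))).const_mul
      (-1)).congr (Eventually.of_forall fun _ _ => by simp only [VV]; ring) fun _ => by
        simp only [VV]; ring

end Pool.Agent.MP_8339a4_an

end

section

open MeasureTheory Filter Topology Set

namespace Pool.Agent.MP_8339a4_an

theorem deriv_W2b (A : MoA) (k n : ℕ) (x c : ℝ) :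
    deriv (fun y => c * ker k n (x - y)) = fun y => -c * ker (k + 1) n (x - y) := by
  funext y
  have h := ((A.kd k n (x - y)).comp y ((hasDerivAt_id' y).const_sub x)).const_mul c
  refine h.deriv.trans ?_
  ring

theorem point_W2b (A : MoA) {I : Set ℝ} {u ux : ℝ → ℝ → ℝ} (hs : IsSol I u ux) {t z : ℝ}
    (hI : uIcc t z ⊆ I) (k n : ℕ) (x : ℝ) :
    mo k n (u z) x - mo k n (u t) x = ∫ τ in t..z, VV k n (u τ) x := by
  have h := hs.weak (fun y => 1 * ker k n (x - y))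
    (contDiff_const.mul ((A.smooth k n).comp (contDiff_const.sub contDiff_id)))
    ((A.supp k n).comp_homeomorph (Homeomorph.subLeft x)).mul_left t (hI left_mem_uIcc) z
    (hI right_mem_uIcc)
  rw [iteratedDeriv_succ, iteratedDeriv_succ, iteratedDeriv_one] at h
  simp only [deriv_W2b A] at h
  have e : ∀ s, mo k n (u s) x = ∫ y, u s y * (1 * ker k n (x - y)) := fun s => by
    simp only [mo, one_mul, mul_comm]
  rw [e, e, h]
  refine intervalIntegral.integral_congr fun τ hτ => ?_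
  have h1 := hs.h1 τ (hI hτ)
  simp only [VV, mo]
  rw [← integral_add (A.int _ n _ x h1.1) (A.int _ n _ x (h1.memLp_pow 4)), ← integral_neg]
  refine integral_congr_ae (Eventually.of_forall fun y => ?_)
  ring

theorem cs_W2b {g : ℝ → ℝ} (hg : Continuous g) {p q : ℝ} (h : p < q) :
    ((∫ τ in p..q, g τ) / (q - p)) ^ 2 ≤ (∫ τ in p..q, g τ ^ 2) / (q - p) := by
  have hr : 0 < q - p := sub_pos.2 h
  obtain ⟨m, hm⟩ : ∃ m, m = (∫ τ in p..q, g τ) / (q - p) := ⟨_, rfl⟩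
  have h1 : 0 ≤ ∫ τ in p..q, (g τ ^ 2 - 2 * m * g τ + m ^ 2) :=
    intervalIntegral.integral_nonneg h.le fun τ _ => by nlinarith [sq_nonneg (g τ - m)]
  have i1 : IntervalIntegrable (fun τ => g τ ^ 2) volume p q := (hg.pow 2).intervalIntegrable p q
  have i2 : IntervalIntegrable (fun τ => 2 * m * g τ) volume p q :=
    (continuous_const.mul hg).intervalIntegrable p q
  rw [intervalIntegral.integral_add (i1.sub i2) intervalIntegrable_const,
    intervalIntegral.integral_sub i1 i2, intervalIntegral.integral_const_mul,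
    intervalIntegral.integral_const, smul_eq_mul] at h1
  have h2 : ∫ τ in p..q, g τ = m * (q - p) := by rw [hm, div_mul_cancel₀ _ hr.ne']
  rw [← hm, le_div_iff₀ hr]
  rw [h2] at h1
  nlinarith

theorem avg_W2b {D : ℝ → ℝ → ℝ} (hD : Continuous fun w : ℝ × ℝ => D w.1 w.2) {p q ε : ℝ}
    (h : p < q) (h1 : ∀ τ ∈ Icc p q, Integrable (fun y => D τ y ^ 2) ∧ ∫ y, D τ y ^ 2 ≤ ε) :
    ∫ y, ((∫ τ in p..q, D τ y) / (q - p)) ^ 2 ≤ ε := by
  have hr : 0 < q - p := sub_pos.2 h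
  have hm : AEStronglyMeasurable (fun w : ℝ × ℝ => D w.1 w.2 ^ 2)
      ((volume.restrict (Ioc p q)).prod volume) := (hD.pow 2).aestronglyMeasurable
  have hae : ∀ᵐ τ ∂volume.restrict (Ioc p q),
      Integrable (fun y => D τ y ^ 2) ∧ ∫ y, D τ y ^ 2 ≤ ε :=
    (ae_restrict_iff' measurableSet_Ioc).2
      (Eventually.of_forall fun τ hτ => h1 τ (Ioc_subset_Icc_self hτ))
  have hi : Integrable (fun w : ℝ × ℝ => D w.1 w.2 ^ 2)
      ((volume.restrict (Ioc p q)).prod volume) := by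
    refine (integrable_prod_iff hm).2 ⟨hae.mono fun τ h => h.1, ?_⟩
    refine Integrable.of_bound hm.norm.integral_prod_right' ε (hae.mono fun τ h => ?_)
    simp only [Real.norm_eq_abs, abs_sq]
    rw [abs_of_nonneg (integral_nonneg fun y => sq_nonneg _)]
    exact h.2
  calc ∫ y, ((∫ τ in p..q, D τ y) / (q - p)) ^ 2
      ≤ ∫ y, (∫ τ in Ioc p q, D τ y ^ 2) / (q - p) := by
        refine integral_mono_of_nonneg (Eventually.of_forall fun y => sq_nonneg _)
          (hi.integral_prod_right.div_const _) (Eventually.of_forall fun y => ?_)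
        have h2 := cs_W2b (g := fun τ => D τ y) (hD.comp (Continuous.prodMk_left y)) h
        rwa [intervalIntegral.integral_of_le (f := fun τ => D τ y ^ 2) h.le] at h2
    _ = (∫ τ in Ioc p q, ∫ y, D τ y ^ 2) / (q - p) := by
        rw [integral_div, integral_integral_swap (f := fun τ y => D τ y ^ 2) hi]
    _ ≤ ε := by
        rw [div_le_iff₀ hr]
        refine (integral_mono_ae hi.integral_prod_left (integrable_const ε)
          (hae.mono fun τ h => h.2)).trans (le_of_eq ?_)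
        rw [setIntegral_const, Real.volume_real_Ioc_of_le h.le, smul_eq_mul, mul_comm]

theorem joint_W2b {V : ℝ → ℝ → ℝ} {S : Set ℝ} (hV : ∀ t ∈ S, UT (𝓝[S] t) V (V t)) {c : ℝ → ℝ}
    (hc : Continuous c) (hS : ∀ τ, c τ ∈ S) : Continuous fun w : ℝ × ℝ => V (c w.1) w.2 := by
  refine continuous_iff_continuousAt.2 fun w => Metric.tendsto_nhds.2 fun ε hε => ?_
  obtain ⟨-, h1, h2⟩ := hV _ (hS w.1)
  have h3 : Tendsto (fun v : ℝ × ℝ => c v.1) (𝓝 w) (𝓝[S] (c w.1)) :=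
    tendsto_nhdsWithin_iff.2 ⟨(hc.comp continuous_fst).continuousAt,
      Eventually.of_forall fun v => hS v.1⟩
  have h4 := Metric.tendsto_nhds.1
    ((h1.1.comp (continuous_snd (X := ℝ))).continuousAt (x := w)).tendsto (ε / 2) (half_pos hε)
  filter_upwards [h3.eventually (h2 (ε / 2) (half_pos hε)), h4] with v h5 h6
  have h7 := dist_triangle (V (c v.1) v.2) (V (c w.1) v.2) (V (c w.1) w.2)
  have h8 : dist (V (c v.1) v.2) (V (c w.1) v.2) ≤ ε / 2 := h5 v.2
  have h9 : dist (V (c w.1) v.2) (V (c w.1) w.2) < ε / 2 := h6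
  exact h7.trans_lt (by linarith)

theorem timB (A : MoA) (B : MoB) (TA : TimA) : TimB := by
  intro I u ux hs a b hI k n t ht
  obtain ⟨-, -, -, hV⟩ := TA I u ux hs a b hI
  have ht' : t ∈ Icc a b := Ioo_subset_Icc_self ht
  have hn : Icc a b ∈ 𝓝 t := Icc_mem_nhds ht.1 ht.2
  have hab : a ≤ b := ht'.1.trans ht'.2
  have hL := (hV k n t ht').1
  refine ⟨?_, hL.2.1, ?_⟩
  · filter_upwards [mem_nhdsWithin_of_mem_nhds hn] with z hz
    simp only [div_eq_mul_inv]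
    exact ((A.mem k n _ (hs.h1 z (hI hz)).1).sub (A.mem k n _ (hs.h1 t (hI ht')).1)).mul_const _
  have hc : Continuous fun τ : ℝ => max a (min τ b) := by fun_prop
  have hj := joint_W2b (V := fun z => VV k n (u z)) (fun τ hτ => (hV k n τ hτ).2) hc
    fun τ => ⟨le_max_left _ _, max_le hab (min_le_right _ _)⟩
  have hD : Continuous fun w : ℝ × ℝ => VV k n (u (max a (min w.1 b))) w.2 - VV k n (u t) w.2 :=
    hj.sub ((hV k n t ht').2.2.1.1.comp continuous_snd)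
  have hcl : ∀ τ ∈ Icc a b, max a (min τ b) = τ := fun τ hτ => by
    rw [min_eq_left hτ.2, max_eq_right hτ.1]
  refine Metric.tendsto_nhds.2 fun ε hε => ?_
  have h1 := Metric.tendsto_nhds.1 hL.2.2 (ε / 2) (half_pos hε)
  rw [nhdsWithin_eq_nhds.2 hn] at h1
  obtain ⟨δ, hδ, h2⟩ := Metric.eventually_nhds_iff_ball.1 (h1.and hn)
  filter_upwards [mem_nhdsWithin_of_mem_nhds (Metric.ball_mem_nhds t hδ), self_mem_nhdsWithin]
    with z hz hzt
  have hsub : uIcc t z ⊆ Metric.ball t δ :=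
    (convex_ball t δ).ordConnected.uIcc_subset (Metric.mem_ball_self hδ) hz
  have h3 : ∀ τ ∈ uIcc t z,
      Integrable (fun y => (VV k n (u (max a (min τ b))) y - VV k n (u t) y) ^ 2) ∧
      ∫ y, (VV k n (u (max a (min τ b))) y - VV k n (u t) y) ^ 2 ≤ ε / 2 := fun τ hτ => by
    obtain ⟨h4, h5⟩ := h2 τ (hsub hτ)
    rw [hcl τ h5]
    exact ⟨integrable_sq2 ((hV k n τ h5).1.2.1.sub hL.2.1),
      (le_abs_self _).trans (by simpa [Real.dist_eq] using h4.le)⟩
  have hne : z - t ≠ 0 := sub_ne_zero.2 hzt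
  have h4 : ∀ y, (mo k n (u z) y - mo k n (u t) y) / (z - t) - VV k n (u t) y =
      (∫ τ in t..z, (VV k n (u (max a (min τ b))) y - VV k n (u t) y)) / (z - t) := fun y => by
    have i1 : IntervalIntegrable (fun τ => VV k n (u (max a (min τ b))) y) volume t z :=
      (hj.comp (Continuous.prodMk_left y)).intervalIntegrable t z
    rw [point_W2b A hs (fun τ hτ => hI (h2 τ (hsub hτ)).2), intervalIntegral.integral_sub i1
      intervalIntegrable_const, intervalIntegral.integral_const, smul_eq_mul, sub_div,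
      mul_div_cancel_left₀ _ hne]
    congr 2
    exact intervalIntegral.integral_congr fun τ hτ => by
      simp only [hcl τ (h2 τ (hsub hτ)).2]
  simp only [h4]
  rw [Real.dist_eq, sub_zero, abs_of_nonneg (integral_nonneg fun y => sq_nonneg _)]
  refine lt_of_le_of_lt ?_ (half_lt_self hε)
  rcases lt_or_gt_of_ne hzt with h | h
  · have h5 := avg_W2b (D := fun τ y => VV k n (u (max a (min τ b))) y - VV k n (u t) y) hD h
      fun τ hτ => h3 τ (by rwa [uIcc_of_ge h.le])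
    refine le_of_eq_of_le (integral_congr_ae (Eventually.of_forall fun y => ?_)) h5
    simp only
    rw [intervalIntegral.integral_symm, ← neg_sub t z, neg_div_neg_eq]
  · exact avg_W2b (D := fun τ y => VV k n (u (max a (min τ b))) y - VV k n (u t) y) hD h
      fun τ hτ => h3 τ (by rwa [uIcc_of_le h.le])

end Pool.Agent.MP_8339a4_an

end

section

open MeasureTheory Filter Topology Set

namespace Pool.Agent.MP_8339a4_an

theorem pair_W3b {α : Type} {l : Filter α} {f : α → ℝ → ℝ} {g θ : ℝ → ℝ} (h : L2T l f g)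
    (hθ : MemLp θ 2 volume) : Tendsto (fun z => ∫ y, f z y * θ y) l (𝓝 (∫ y, g y * θ y)) :=
  (h.mul (L2T.const hθ)).tendsto_integral

theorem ibp_W3b (A : MoA) (B : MoB) {θ θ1 θ2 θ3 f : ℝ → ℝ} (hT : Test θ θ1 θ2 θ3) (n : ℕ)
    (h : MemLp f 2 volume) (h5 : MemLp (fun y => f y ^ 5) 2 volume) :
    ∫ x, VV 0 n f x * θ x =
      (∫ x, mo 0 n f x * θ3 x) + ∫ x, mo 0 n (fun y => f y ^ 5) x * θ1 x := by
  have e1 := (B.h1 2 n f h).ibp hT.h1
  have e2 := (B.h1 1 n f h).ibp hT.h2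
  have e3 := (B.h1 0 n f h).ibp hT.h3
  have e4 := (B.h1 0 n _ h5).ibp hT.h1
  have e5 : ∫ x, VV 0 n f x * θ x =
      -((∫ x, mo 3 n f x * θ x) + ∫ x, mo 1 n (fun y => f y ^ 5) x * θ x) := by
    rw [← integral_add (integrable_mul2 (A.mem 3 n f h) hT.e0.memLp)
      (integrable_mul2 (A.mem 1 n _ h5) hT.e0.memLp), ← integral_neg]
    refine integral_congr_ae (Eventually.of_forall fun x => ?_)
    simp only [VV]
    ring
  simp only [Nat.reduceAdd] at e1 e2 e3 e4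
  linarith

theorem bd_W3b (A : MoA) {f θ : ℝ → ℝ} {K : ℝ} (n : ℕ) (h : MemLp f 2 volume)
    (hθ : MemLp θ 2 volume) (hK : ∫ x, f x ^ 2 ≤ K) :
    |∫ x, mo 0 n f x * θ x| ≤ Real.sqrt K * Real.sqrt (∫ x, θ x ^ 2) :=
  (cs2_abs (A.mem 0 n f h) hθ).trans (mul_le_mul_of_nonneg_right
    (Real.sqrt_le_sqrt ((A.sq0 n f h).trans hK)) (Real.sqrt_nonneg _))

theorem p0_of (A : MoA) (B : MoB) (TA : TimA) (TB : TimB) (L : LimS) : P0Stmt := by
  intro I u ux hs a b hab hI θ θ1 θ2 θ3 hT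
  obtain ⟨⟨K, K0, hK⟩, t1, t2, -⟩ := TA I u ux hs a b hI
  have m1 : ∀ t ∈ Icc a b, MemLp (u t) 2 volume := fun t ht => (hs.h1 t (hI ht)).1
  have m5 : ∀ t ∈ Icc a b, MemLp (fun y => u t y ^ 5) 2 volume :=
    fun t ht => (hs.h1 t (hI ht)).memLp_pow 4
  have cD : ∀ n, ContinuousOn (fun t => (∫ x, mo 0 n (u t) x * θ3 x) +
      ∫ x, mo 0 n (fun y => u t y ^ 5) x * θ1 x) (Icc a b) := fun n t ht =>
    (pair_W3b (B.cl2 0 n _ _ _ (t1 t ht).l2) hT.e3.memLp).add
      (pair_W3b (B.cl2 0 n _ _ _ (t2 t ht)) hT.e1.memLp)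
  refine L.eq a b (Real.sqrt K * Real.sqrt (∫ x, θ3 x ^ 2) +
      Real.sqrt (K ^ 8 * K) * Real.sqrt (∫ x, θ1 x ^ 2))
    (fun n => (∫ x, mo 0 n (u b) x * θ x) - ∫ x, mo 0 n (u a) x * θ x) _ _ _ hab cD
    (fun n => ?_) (fun n t ht => ?_) (fun t ht => ?_)
    ((pair_W3b (B.l2t _ (m1 b ⟨hab, le_rfl⟩)) hT.e0.memLp).sub
      (pair_W3b (B.l2t _ (m1 a ⟨le_rfl, hab⟩)) hT.e0.memLp))
  · refine (intervalIntegral.integral_eq_sub_of_hasDerivAt_of_le
      (f := fun t => ∫ x, mo 0 n (u t) x * θ x) hab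
      (fun t ht => pair_W3b (B.cl2 0 n _ _ _ (t1 t ht).l2) hT.e0.memLp) (fun t ht => ?_)
      ((cD n).intervalIntegrable_of_Icc hab)).symm
    have ht' := Ioo_subset_Icc_self ht
    rw [← ibp_W3b A B hT n (m1 t ht') (m5 t ht'), hasDerivAt_iff_tendsto_slope]
    refine (pair_W3b (TB I u ux hs a b hI 0 n t ht) hT.e0.memLp).congr' ?_
    filter_upwards [mem_nhdsWithin_of_mem_nhds (Icc_mem_nhds ht.1 ht.2)] with z hz
    rw [slope_def_field, ← integral_sub (integrable_mul2 (A.mem 0 n _ (m1 z hz)) hT.e0.memLp)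
      (integrable_mul2 (A.mem 0 n _ (m1 t ht')) hT.e0.memLp), ← integral_div]
    refine integral_congr_ae (Eventually.of_forall fun x => ?_)
    simp only
    ring
  · refine (abs_add_le _ _).trans (add_le_add (bd_W3b A n (m1 t ht) hT.e3.memLp (hK t ht).1)
      (bd_W3b A n (m5 t ht) hT.e1.memLp ?_))
    refine le_trans ?_ (mul_le_mul_of_nonneg_left (hK t ht).1 (pow_nonneg K0 8))
    rw [← integral_const_mul]
    refine integral_mono (integrable_sq2 (m5 t ht)) ((integrable_sq2 (m1 t ht)).const_mul _)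
      fun x => ?_
    have h1 := pow_le_pow_left₀ (abs_nonneg _) ((hK t ht).2.2 x) 8
    rw [Even.pow_abs (by decide)] at h1
    calc (u t x ^ 5) ^ 2 = u t x ^ 8 * u t x ^ 2 := by ring
      _ ≤ K ^ 8 * u t x ^ 2 := mul_le_mul_of_nonneg_right h1 (sq_nonneg _)
  · rw [integral_add (integrable_mul2 (m1 t ht) hT.e3.memLp)
      (integrable_mul2 (m5 t ht) hT.e1.memLp)]
    exact (pair_W3b (B.l2t _ (m1 t ht)) hT.e3.memLp).add
      (pair_W3b (B.l2t _ (m5 t ht)) hT.e1.memLp)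

end Pool.Agent.MP_8339a4_an

end

section

open MeasureTheory Filter Topology Set

namespace Pool.Agent.MP_8339a4_an

theorem en_W5a {l : Filter ℝ} {v0 v1 : ℝ → ℝ → ℝ} {g0 g1 W : ℝ → ℝ} (h0 : L2T l v0 g0)
    (u0 : UT l v0 g0) (h1 : L2T l v1 g1) (hW : Bdd W) :
    L1T l (fun z y => en (v0 z y) (v1 z y) * W y) (fun y => en (g0 y) (g1 y) * W y) :=
  ((h1.sq.sub ((h0.sq.mul_ut (u0.pow 4)).const_mul (1 / 3))).mul_ut (UT.const hW)).congr
    (Eventually.of_forall fun z y => by unfold en; ring) fun y => by unfold en; ring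

theorem der_W5a {t : ℝ} {v0 v1 : ℝ → ℝ → ℝ} {V0 V1 W : ℝ → ℝ} (h0 : L2T (𝓝[≠] t) v0 (v0 t))
    (u0 : UT (𝓝[≠] t) v0 (v0 t)) (h1 : L2T (𝓝[≠] t) v1 (v1 t)) (hW : Bdd W)
    (s0 : L2T (𝓝[≠] t) (fun z y => (v0 z y - v0 t y) / (z - t)) V0)
    (s1 : L2T (𝓝[≠] t) (fun z y => (v1 z y - v1 t y) / (z - t)) V1) :
    HasDerivAt (fun z => ∫ y, en (v0 z y) (v1 z y) * W y)
      (∫ y, (2 * v1 t y * V1 y - 2 * v0 t y ^ 5 * V0 y) * W y) t := by
  have c0 : UT (𝓝[≠] t) (fun _ => v0 t) (v0 t) := UT.const u0.2.1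
  have P := ((((u0.pow 4).add ((u0.pow 3).mul c0)).add ((u0.pow 2).mul (c0.pow 2))).add
    (u0.mul (c0.pow 3))).add (c0.pow 4)
  have R := (h0.mul_ut P).add ((L2T.const h0.2.1).mul_ut (c0.pow 4))
  have S := (((s1.mul (h1.add (L2T.const h1.2.1))).sub ((s0.mul R).const_mul (1 / 3))).mul_ut
    (UT.const hW)).tendsto_integral
  have E := en_W5a h0 u0 h1 hW
  rw [hasDerivAt_iff_tendsto_slope]
  refine (S.congr' ?_).trans_eq (congrArg _ (integral_congr_ae (Eventually.of_forall fun y => ?_)))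
  · filter_upwards [E.1] with z hz
    rw [slope_def_field, ← integral_sub hz E.2.1, ← integral_div]
    refine integral_congr_ae (Eventually.of_forall fun y => ?_)
    simp only [en]
    ring
  · simp only
    ring

theorem enA (A : MoA) (B : MoB) (TA : TimA) (TB : TimB) : EnA := by
  intro I u ux hs a b hab hI W hW n
  obtain ⟨-, hH, -, hV⟩ := TA I u ux hs a b hI
  have hc : ContinuousOn (fun t => Dn n (u t) W) (Icc a b) := fun t ht => by
    have h := (hH t ht).l2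
    have S := (((((B.cl2 1 n _ _ _ h).mul (hV 1 n t ht).1).const_mul 2).sub
      (((((B.cl2 0 n _ _ _ h).mul_ut ((B.cut 0 n _ _ _ h).pow 4)).mul
        (hV 0 n t ht).1)).const_mul 2)).mul_ut (UT.const hW)).congr
      (F := fun z x => (2 * mo 1 n (u z) x * VV 1 n (u z) x -
        2 * mo 0 n (u z) x ^ 5 * VV 0 n (u z) x) * W x)
      (G := fun x => (2 * mo 1 n (u t) x * VV 1 n (u t) x -
        2 * mo 0 n (u t) x ^ 5 * VV 0 n (u t) x) * W x)
      (Eventually.of_forall fun z y => by ring) fun y => by ring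
    exact S.tendsto_integral
  refine ⟨hc, (intervalIntegral.integral_eq_sub_of_hasDerivAt_of_le hab
    (f := fun z => ∫ x, en (mo 0 n (u z) x) (mo 1 n (u z) x) * W x) (fun t ht => ?_)
    (fun t ht => ?_) (hc.intervalIntegrable_of_Icc hab)).symm⟩
  · have h := (hH t ht).l2
    exact (en_W5a (B.cl2 0 n _ _ _ h) (B.cut 0 n _ _ _ h) (B.cl2 1 n _ _ _ h) hW).tendsto_integral
  · have h := ((hH t (Ioo_subset_Icc_self ht)).mono (l' := 𝓝[≠] t) (by
      rw [nhdsWithin_eq_nhds.2 (Icc_mem_nhds ht.1 ht.2)]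
      exact nhdsWithin_le_nhds)).l2
    exact der_W5a (v0 := fun z => mo 0 n (u z)) (v1 := fun z => mo 1 n (u z))
      (B.cl2 0 n _ _ _ h) (B.cut 0 n _ _ _ h) (B.cl2 1 n _ _ _ h) hW
      (TB I u ux hs a b hI 0 n t ht) (TB I u ux hs a b hI 1 n t ht)

end Pool.Agent.MP_8339a4_an

end

section

open MeasureTheory Filter Topology Set

namespace Pool.Agent.MP_8339a4_an

theorem key_W5b {v0 v1 v2 v3 v4 F1 F2 W W1 W2 W3 : ℝ → ℝ} (h0 : IsH1 v0 v1) (h1 : IsH1 v1 v2)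
    (h2 : IsH1 v2 v3) (h3 : IsH1 v3 v4) (hF : IsH1 F1 F2) (hW : Wb W W1 W2 W3) :
    ∫ x, (2 * v1 x * -(v4 x + F2 x) - 2 * v0 x ^ 5 * -(v3 x + F1 x)) * W x =
      ∫ x, (-3 * W1 x * v2 x ^ 2 + fl2 (v0 x) (v1 x) 0 0 (W1 x) (W2 x) (W3 x) +
        2 * (W x * (v2 x + v0 x ^ 5) + W1 x * v1 x) * (F1 x - 5 * v0 x ^ 4 * v1 x)) := by
  have w0 := IsPrim.of_hasDerivAt hW.sm.d1 hW.sm.c1
  have w1 := IsPrim.of_hasDerivAt hW.sm.d2 hW.sm.c2
  have w2 := IsPrim.of_hasDerivAt hW.sm.d3 hW.sm.c3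
  have pa := ((h1.isPrim.mul (h3.isPrim.add hF.isPrim)).const_mul (-2)).add
    ((h2.isPrim.add (h0.isPrim.pow 4)).pow 1)
  have pb := (h1.isPrim.mul (h2.isPrim.sub (h0.isPrim.pow 4))).const_mul 2
  have pc := ((h0.isPrim.pow 5).const_mul (1 / 3)).sub (h1.isPrim.pow 1)
  have p5 : MemLp (fun y => v0 y ^ 5) 2 volume := h0.memLp_pow 4
  have m3 : MemLp (fun y => v3 y + F1 y) 2 volume := h3.1.add hF.1
  have m4 : MemLp (fun y => v4 y + F2 y) 2 volume := h3.2.1.add hF.2.1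
  have m5 : MemLp (fun y => v2 y + v0 y ^ 5) 2 volume := h2.1.add p5
  have m6 : MemLp (fun y => v2 y - v0 y ^ 5) 2 volume := h2.1.sub p5
  have m7 : MemLp (fun y => W y * (v2 y + v0 y ^ 5) + W1 y * v1 y) 2 volume :=
    (memLp_bdd_mul m5 hW.b0).add (memLp_bdd_mul h1.1 hW.b1)
  have m8 : MemLp (fun y => F1 y - 5 * (v0 y ^ 4 * v1 y)) 2 volume :=
    hF.1.sub ((memLp_bdd_mul h1.1 (h0.bdd.pow 4)).const_mul 5)
  have i6 : Integrable (fun y => v0 y ^ 6) := h0.integrable_pow 4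
  have i10 : Integrable (fun y => v0 y ^ 10) := h0.integrable_pow 8
  have ia : Integrable (fun y => -2 * (v1 y * (v3 y + F1 y)) + (v2 y + v0 y ^ 5) ^ 2) :=
    ((integrable_mul2 h1.1 m3).const_mul (-2)).add (integrable_sq2 m5)
  have ib : Integrable (fun y => 2 * (v1 y * (v2 y - v0 y ^ 5))) :=
    (integrable_mul2 h1.1 m6).const_mul 2
  have ic : Integrable (fun y => 1 / 3 * v0 y ^ 6 - v1 y ^ 2) :=
    (i6.const_mul (1 / 3)).sub (integrable_sq2 h1.1)
  have il : Integrable (fun y => -2 * (v1 y * (v4 y + F2 y)) + 2 * (v0 y ^ 5 * (v3 y + F1 y))) :=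
    ((integrable_mul2 h1.1 m4).const_mul (-2)).add ((integrable_mul2 p5 m3).const_mul 2)
  have ir1 : Integrable (fun y => -3 * v2 y ^ 2 + 20 * (v0 y ^ 4 * v1 y ^ 2) - v0 y ^ 10) :=
    (((integrable_sq2 h2.1).const_mul (-3)).add
      ((integrable_bdd_mul (integrable_sq2 h1.1) (h0.bdd.pow 4)).const_mul 20)).sub i10
  refine (((w0.mul pa).add (w1.mul pb)).add (w2.mul pc)).integral_eq
    (((integrable_bdd_mul ia hW.b0).add (integrable_bdd_mul ib hW.b1)).add
      (integrable_bdd_mul ic hW.b2))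
    ((integrable_mul_bdd il hW.b0).congr (ae_of_all _ fun y => ?_))
    ((((integrable_bdd_mul ir1 hW.b1).sub (integrable_bdd_mul ic hW.b3)).add
      ((integrable_mul2 m7 m8).const_mul 2)).congr (ae_of_all _ fun y => ?_)) fun y => ?_
  · beta_reduce
    ring
  · simp only [Pi.add_apply, Pi.sub_apply, fl2]
    ring
  · simp only [fl2]
    push_cast
    ring

theorem enB (A : MoA) (B : MoB) : EnB := by
  intro f fy W W1 W2 W3 hf hW n
  have h5 : MemLp (fun y => f y ^ 5) 2 volume := hf.memLp_pow 4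
  exact key_W5b (B.h1 0 n f hf.1) (B.h1 1 n f hf.1) (B.h1 2 n f hf.1) (B.h1 3 n f hf.1)
    (B.h1 1 n _ h5) hW

end Pool.Agent.MP_8339a4_an

end

section

open MeasureTheory Filter Topology Set

namespace Pool.Agent.MP_8339a4_an

theorem h5_W5c {f fy : ℝ → ℝ} (h : IsH1 f fy) :
    IsH1 (fun y => f y ^ 5) (fun y => 5 * f y ^ 4 * fy y) :=
  (h.pow 4).congr (fun _ => rfl) (fun y => by push_cast; ring)

theorem cm_eq_W5c (B : MoB) (n : ℕ) {f fy : ℝ → ℝ} (h : IsH1 f fy) (x : ℝ) :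
    cm n f x = mo 0 n (fun y => 5 * f y ^ 4 * fy y) x - 5 * mo 0 n f x ^ 4 * mo 0 n fy x := by
  rw [← B.prim 0 n _ _ x (h5_W5c h), ← B.prim 0 n _ _ x h]
  rfl

theorem sq_le_W5c {w g : ℝ → ℝ} {K : ℝ} (hw : Bdd w) (hg : MemLp g 2 volume)
    (hK : ∀ x, |w x| ≤ K) :
    ∫ x, (5 * w x ^ 4 * g x) ^ 2 ≤ 25 * K ^ 8 * ∫ x, g x ^ 2 := by
  rw [← integral_const_mul]
  refine integral_mono (integrable_sq2 (memLp_bdd_mul hg ((hw.pow 4).const_mul 5)))
    ((integrable_sq2 hg).const_mul _) fun x => ?_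
  have h1 : w x ^ 8 ≤ K ^ 8 := by
    have := pow_le_pow_left₀ (abs_nonneg _) (hK x) 8
    rwa [Even.pow_abs (by norm_num)] at this
  have h2 : (5 * w x ^ 4 * g x) ^ 2 = 25 * w x ^ 8 * g x ^ 2 := by ring
  simp only
  rw [h2]
  exact mul_le_mul_of_nonneg_right (by linarith) (sq_nonneg _)

theorem mem_W5c (A : MoA) (B : MoB) (n : ℕ) {f fy : ℝ → ℝ} (h : IsH1 f fy) :
    MemLp (cm n f) 2 volume :=
  (A.mem 1 n _ (h5_W5c h).1).sub
    (memLp_bdd_mul (A.mem 1 n f h.1) (((B.bdd 0 n f h.1).pow 4).const_mul 5))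

theorem cmS (A : MoA) (B : MoB) : CmS := by
  refine ⟨fun n f fy h => mem_W5c A B n h, ?_, ?_, ?_⟩
  · intro n f fy K h h1 h2
    have hK : 0 ≤ K := (abs_nonneg _).trans (h2 0)
    have hG := (h5_W5c h).2.1
    have ma := A.mem 0 n _ hG
    have mv := A.mem 0 n _ h.2.1
    have bv := B.bdd 0 n f h.1
    have mb := memLp_bdd_mul mv ((bv.pow 4).const_mul 5)
    have e1 := (A.sq0 n _ hG).trans (sq_le_W5c h.bdd h.2.1 h2)
    have e2 := sq_le_W5c bv mv (fun x => B.loc n f K x h.1 fun y _ => h2 y)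
    have e3 := A.sq0 n _ h.2.1
    have e4 : (∫ x, cm n f x ^ 2) ≤ ∫ x, (2 * mo 0 n (fun y => 5 * f y ^ 4 * fy y) x ^ 2
        + 2 * (5 * mo 0 n f x ^ 4 * mo 0 n fy x) ^ 2) := by
      refine integral_mono (integrable_sq2 (mem_W5c A B n h))
        (((integrable_sq2 ma).const_mul 2).add ((integrable_sq2 mb).const_mul 2)) fun x => ?_
      simp only
      rw [cm_eq_W5c B n h x]
      nlinarith [sq_nonneg (mo 0 n (fun y => 5 * f y ^ 4 * fy y) x
        + 5 * mo 0 n f x ^ 4 * mo 0 n fy x)]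
    rw [integral_add ((integrable_sq2 ma).const_mul 2) ((integrable_sq2 mb).const_mul 2),
      integral_const_mul, integral_const_mul] at e4
    have p8 : 0 ≤ 25 * K ^ 8 := by positivity
    have e5 := mul_le_mul_of_nonneg_left h1 p8
    have e6 := mul_le_mul_of_nonneg_left (e3.trans h1) p8
    have e7 : 25 * K ^ 8 * K = 25 * K ^ 9 := by ring
    linarith
  · intro f fy h
    have H := (B.l2t _ (h5_W5c h).2.1).sub
      ((B.l2t _ h.2.1).ut_mul ((((B.h1t f fy h).ut).pow 4).const_mul 5))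
    refine H.2.2.congr fun n => integral_congr_ae (Eventually.of_forall fun x => ?_)
    simp only
    rw [cm_eq_W5c B n h x, sub_self, sub_zero]
  · intro n f fy c x h hc
    have c0 : 0 ≤ c := le_trans (by positivity) (hc x (by simp))
    have e1 := B.dom n (fun y => 5 * f y ^ 4 * fy y) fy (5 * c) x (h5_W5c h).2.1 h.2.1
      fun y hy => by
        rw [abs_mul, abs_of_nonneg (by positivity : (0 : ℝ) ≤ 5 * f y ^ 4)]
        exact mul_le_mul_of_nonneg_right (by linarith [hc y hy]) (abs_nonneg _)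
    have e2 := B.dom n fy fy 1 x h.2.1 h.2.1 fun y _ => by rw [one_mul]
    rw [one_mul] at e2
    have e3 := B.loc n f (Real.sqrt (Real.sqrt c)) x h.1 fun y hy =>
      Real.abs_le_sqrt ((le_abs_self _).trans (Real.abs_le_sqrt (by
        have := hc y hy
        nlinarith)))
    have e4 : mo 0 n f x ^ 4 ≤ c := by
      have h1 := pow_le_pow_left₀ (abs_nonneg _) e3 4
      rw [Even.pow_abs (by norm_num)] at h1
      have h2 : Real.sqrt (Real.sqrt c) ^ 4 = c := by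
        rw [show (4 : ℕ) = 2 * 2 from rfl, pow_mul, Real.sq_sqrt (Real.sqrt_nonneg _),
          Real.sq_sqrt c0]
      rwa [h2] at h1
    have e5 : |5 * mo 0 n f x ^ 4 * mo 0 n fy x| ≤ 5 * c * mo 0 n (fun y => |fy y|) x := by
      rw [abs_mul, abs_of_nonneg (by positivity : (0 : ℝ) ≤ 5 * mo 0 n f x ^ 4)]
      exact mul_le_mul (by linarith) e2 (abs_nonneg _) (by positivity)
    rw [cm_eq_W5c B n h x]
    refine (abs_sub _ _).trans ?_
    linarith

end Pool.Agent.MP_8339a4_an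

end

section

open MeasureTheory Filter Topology Set

namespace Pool.Agent.MP_8339a4_an

theorem int_le_W5e {F G : ℝ → ℝ} (h : ∀ x, F x ≤ G x) (hG : Integrable G) (h0 : ∀ x, 0 ≤ G x) :
    ∫ x, F x ≤ ∫ x, G x := by
  by_cases hF : Integrable F
  · exact integral_mono hF hG h
  · rw [integral_undef hF]
    exact integral_nonneg h0

theorem mul_le_W5e {a w M : ℝ} (ha : 0 ≤ a) (hw : |w| ≤ M) : a * w ≤ M * a ∧ -(a * w) ≤ M * a := by
  have := abs_le.1 hw
  constructor <;> nlinarith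

theorem cross_le_W5e {a b w M : ℝ} (hw : |w| ≤ M) : 2 * (a * w * b) ≤ M * (a ^ 2 + b ^ 2) := by
  have := abs_le.1 hw
  nlinarith [mul_nonneg (sub_nonneg.2 this.1) (sq_nonneg (a - b)),
    mul_nonneg (sub_nonneg.2 this.2) (sq_nonneg (a + b))]

theorem pow_le_W5e {v K : ℝ} (hv : |v| ≤ K) : v ^ 4 ≤ K ^ 4 ∧ v ^ 8 ≤ K ^ 8 := by
  have h4 := pow_le_pow_left₀ (abs_nonneg v) hv 4
  have h8 := pow_le_pow_left₀ (abs_nonneg v) hv 8
  rw [Even.pow_abs (by decide)] at h4 h8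
  exact ⟨h4, h8⟩

theorem fl2_pt_W5e {v p g gy w1 w2 w3 M K : ℝ} (hv : |v| ≤ K) (h1 : |w1| ≤ M) (h2 : |w2| ≤ M)
    (h3 : |w3| ≤ M) : fl2 v p g gy w1 w2 w3 ≤
      3 * M * gy ^ 2 + 6 * M * g ^ 2 + (7 + 20 * K ^ 4) * M * p ^ 2 + (K ^ 8 + K ^ 4) * M * v ^ 2 := by
  have hM : 0 ≤ M := (abs_nonneg _).trans h1
  obtain ⟨k4, k8⟩ := pow_le_W5e hv
  have a1 := cross_le_W5e (a := gy) (b := p) h1
  have a2 := cross_le_W5e (a := g) (b := p) h2
  have a3 := (mul_le_W5e (sq_nonneg g) h1).1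
  have a4 := (mul_le_W5e (a := v ^ 4 * p ^ 2) (by positivity) h1).1
  have a4' : M * (v ^ 4 * p ^ 2) ≤ M * (K ^ 4 * p ^ 2) :=
    mul_le_mul_of_nonneg_left (mul_le_mul_of_nonneg_right k4 (sq_nonneg p)) hM
  have a5 := (mul_le_W5e (a := v ^ 8 * v ^ 2) (by positivity) h1).2
  have a5' : M * (v ^ 8 * v ^ 2) ≤ M * (K ^ 8 * v ^ 2) :=
    mul_le_mul_of_nonneg_left (mul_le_mul_of_nonneg_right k8 (sq_nonneg v)) hM
  have a6 := (mul_le_W5e (a := v ^ 4 * v ^ 2) (by positivity) h3).2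
  have a6' : M * (v ^ 4 * v ^ 2) ≤ M * (K ^ 4 * v ^ 2) :=
    mul_le_mul_of_nonneg_left (mul_le_mul_of_nonneg_right k4 (sq_nonneg v)) hM
  have a6'' : 0 ≤ M * (K ^ 4 * v ^ 2) := by positivity
  have a7 := (mul_le_W5e (sq_nonneg p) h3).1
  unfold fl2
  nlinarith

theorem fl2_bd_W5e {W1 W2 W3 g gy : ℝ → ℝ} (b1 : Bdd W1) (b2 : Bdd W2) (b3 : Bdd W3)
    (hg : IsH1 g gy) (K : ℝ) : ∃ B : ℝ, ∀ v p : ℝ → ℝ, MemLp v 2 volume → MemLp p 2 volume →
      (∫ x, v x ^ 2) ≤ K → (∫ x, p x ^ 2) ≤ K → (∀ x, |v x| ≤ K) →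
      (∫ x, fl2 (v x) (p x) (g x) (gy x) (W1 x) (W2 x) (W3 x)) ≤ B := by
  obtain ⟨-, M1, h1⟩ := b1
  obtain ⟨-, M2, h2⟩ := b2
  obtain ⟨-, M3, h3⟩ := b3
  set M := max M1 (max M2 M3) with hM
  have k1 : ∀ x, |W1 x| ≤ M := fun x => (h1 x).trans (le_max_left _ _)
  have k2 : ∀ x, |W2 x| ≤ M := fun x => (h2 x).trans ((le_max_left _ _).trans (le_max_right _ _))
  have k3 : ∀ x, |W3 x| ≤ M := fun x => (h3 x).trans ((le_max_right _ _).trans (le_max_right _ _))
  have hM0 : 0 ≤ M := (abs_nonneg _).trans (k1 0)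
  refine ⟨3 * M * (∫ x, gy x ^ 2) + 6 * M * (∫ x, g x ^ 2) + (7 + 20 * K ^ 4) * M * K +
    (K ^ 8 + K ^ 4) * M * K, fun v p mv mp hv hp hK => ?_⟩
  have i1 := (integrable_sq2 hg.2.1).const_mul (3 * M)
  have i2 := (integrable_sq2 hg.1).const_mul (6 * M)
  have i3 := (integrable_sq2 mp).const_mul ((7 + 20 * K ^ 4) * M)
  have i4 := (integrable_sq2 mv).const_mul ((K ^ 8 + K ^ 4) * M)
  have i12 : Integrable fun x => 3 * M * gy x ^ 2 + 6 * M * g x ^ 2 := i1.add i2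
  have i123 : Integrable fun x => 3 * M * gy x ^ 2 + 6 * M * g x ^ 2 +
      (7 + 20 * K ^ 4) * M * p x ^ 2 := i12.add i3
  refine (int_le_W5e (fun x => fl2_pt_W5e (hK x) (k1 x) (k2 x) (k3 x)) (i123.add i4)
    fun x => by positivity).trans ?_
  rw [integral_add i123 i4, integral_add i12 i3, integral_add i1 i2, integral_const_mul,
    integral_const_mul, integral_const_mul, integral_const_mul]
  have e1 := mul_le_mul_of_nonneg_left hp (by positivity : 0 ≤ (7 + 20 * K ^ 4) * M)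
  have e2 := mul_le_mul_of_nonneg_left hv (by positivity : 0 ≤ (K ^ 8 + K ^ 4) * M)
  linarith

theorem cm_pt_W5e {v p q a b M K : ℝ} (hv : |v| ≤ K) (ha : |a| ≤ M) (hb : |b| ≤ M) :
    2 * (a * v ^ 5 + b * p) * q ≤ M * K ^ 8 * v ^ 2 + M * p ^ 2 + 2 * M * q ^ 2 := by
  have hM : 0 ≤ M := (abs_nonneg _).trans ha
  have a1 := cross_le_W5e (a := v ^ 5) (b := q) ha
  have a2 := cross_le_W5e (a := p) (b := q) hb
  have a3 : M * (v ^ 8 * v ^ 2) ≤ M * (K ^ 8 * v ^ 2) :=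
    mul_le_mul_of_nonneg_left (mul_le_mul_of_nonneg_right (pow_le_W5e hv).2 (sq_nonneg v)) hM
  nlinarith

theorem cm_bd_W5e {a b : ℝ → ℝ} (ba : Bdd a) (bb : Bdd b) (K L : ℝ) :
    ∃ B : ℝ, ∀ v p q : ℝ → ℝ, MemLp v 2 volume → MemLp p 2 volume → MemLp q 2 volume →
      (∫ x, v x ^ 2) ≤ K → (∫ x, p x ^ 2) ≤ K → (∫ x, q x ^ 2) ≤ L → (∀ x, |v x| ≤ K) →
      (∫ x, 2 * (a x * v x ^ 5 + b x * p x) * q x) ≤ B := by
  obtain ⟨-, M1, h1⟩ := ba
  obtain ⟨-, M2, h2⟩ := bb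
  set M := max M1 M2 with hM
  have k1 : ∀ x, |a x| ≤ M := fun x => (h1 x).trans (le_max_left _ _)
  have k2 : ∀ x, |b x| ≤ M := fun x => (h2 x).trans (le_max_right _ _)
  have hM0 : 0 ≤ M := (abs_nonneg _).trans (k1 0)
  refine ⟨M * K ^ 8 * K + M * K + 2 * M * L, fun v p q mv mp mq hv hp hq hK => ?_⟩
  have i1 := (integrable_sq2 mv).const_mul (M * K ^ 8)
  have i2 := (integrable_sq2 mp).const_mul M
  have i3 := (integrable_sq2 mq).const_mul (2 * M)
  have i12 : Integrable fun x => M * K ^ 8 * v x ^ 2 + M * p x ^ 2 := i1.add i2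
  refine (int_le_W5e (fun x => cm_pt_W5e (hK x) (k1 x) (k2 x)) (i12.add i3)
    fun x => by positivity).trans ?_
  rw [integral_add i12 i3, integral_add i1 i2, integral_const_mul, integral_const_mul,
    integral_const_mul]
  have e1 := mul_le_mul_of_nonneg_left hv (by positivity : 0 ≤ M * K ^ 8)
  have e2 := mul_le_mul_of_nonneg_left hp hM0
  have e3 := mul_le_mul_of_nonneg_left hq (by positivity : 0 ≤ 2 * M)
  linarith

theorem enD (A : MoA) (B : MoB) (CM : CmS) (EC : EnC) : EnD := by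
  intro W W1 W2 W3 Φ Φ1 Φ2 Φ3 g gy c θ K hW hW1 hΦ hΦ1 hg hc hθ
  obtain ⟨C, hC, hE⟩ := EC W W1 W2 W3 Φ Φ1 Φ2 Φ3 g gy c θ hW hW1 hΦ hg hc hθ
  have ba : Bdd fun x => W x + θ * Φ x := hW.b0.add (hΦ.b0.const_mul θ)
  have bb : Bdd fun x => W1 x + θ * Φ1 x := hW.b1.add (hΦ.b1.const_mul θ)
  obtain ⟨B1, h1⟩ := fl2_bd_W5e hW.b1 hW.b2 hW.b3 hg K
  obtain ⟨B2, h2⟩ := fl2_bd_W5e hΦ.b1 hΦ.b2 hΦ.b3 IsH1.zero K
  obtain ⟨B3, h3⟩ := cm_bd_W5e ba bb K (100 * K ^ 9)
  refine ⟨B1 + θ * B2 + B3 + C * (100 * K ^ 9) + C * K, fun f fy hf k0 k1 k2 hl => ⟨fun n => ?_,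
    fun ε hε => ?_⟩⟩
  · have m0 := A.mem 0 n f hf.1
    have m1 := A.mem 1 n f hf.1
    have s0 := (A.sq0 n f hf.1).trans k0
    have s1 : (∫ x, mo 1 n f x ^ 2) ≤ K := by
      have e : ∀ x, mo 1 n f x = mo 0 n fy x := fun x => B.prim 0 n f fy x hf
      simp only [e]
      exact (A.sq0 n fy hf.2.1).trans k1
    have s2 : ∀ x, |mo 0 n f x| ≤ K := fun x => B.loc n f K x hf.1 fun y _ => k2 y
    have s3 := CM.bd n f fy K hf k1 k2
    have e0 := hE 1 f fy one_pos hf hl hΦ1 n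
    have e1 := h1 _ _ m0 m1 s0 s1 s2
    have e2 := mul_le_mul_of_nonneg_left (h2 _ _ m0 m1 s0 s1 s2) hθ.le
    have e3 := h3 _ _ _ m0 m1 (CM.mem n f fy hf) s0 s1 s3 s2
    have e4 := mul_le_mul_of_nonneg_left s3 hC
    have e5 := mul_le_mul_of_nonneg_left k1 hC
    rw [div_one, mul_one] at e0
    linarith
  · have hK : 0 ≤ K := (abs_nonneg _).trans (k2 0)
    have hCK : 0 < C * K + 1 := by positivity
    have hη : 0 < ε / (2 * (C * K + 1)) := by positivity
    have H := B.h1t f fy hf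
    have t1 := (H.fl2 hg hW.b1 hW.b2 hW.b3).tendsto_integral
    have t2 := (H.fl2 IsH1.zero hΦ.b1 hΦ.b2 hΦ.b3).tendsto_integral.const_mul θ
    have t4 := CM.lim f fy hf
    have l0 : L2T atTop (fun n => cm n f) (fun _ => 0) :=
      ⟨Eventually.of_forall fun n => CM.mem n f fy hf, MemLp.zero', by simpa using t4⟩
    have l1 := ((((H.l2.mul_ut (H.ut.pow 4)).ut_mul (UT.const ba)).add
      (H.l2y.ut_mul (UT.const bb))).const_mul 2).mul l0
    have t3 : Tendsto (fun n => ∫ x, 2 * ((W x + θ * Φ x) * mo 0 n f x ^ 5 +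
        (W1 x + θ * Φ1 x) * mo 1 n f x) * cm n f x) atTop (𝓝 0) := by
      have := l1.tendsto_integral
      simp only [mul_zero, integral_zero] at this
      refine this.congr fun n => integral_congr_ae (Eventually.of_forall fun x => ?_)
      ring
    have t := ((t1.add t2).add t3).add (t4.const_mul (C / (ε / (2 * (C * K + 1)))))
    rw [mul_zero, add_zero, add_zero] at t
    filter_upwards [t.eventually (gt_mem_nhds (lt_add_of_pos_right _ (half_pos hε)))] with n hn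
    have e0 := hE _ f fy hη hf hl hΦ1 n
    have e1 : C * (ε / (2 * (C * K + 1))) * ∫ x, fy x ^ 2 ≤ ε / 2 := by
      calc C * (ε / (2 * (C * K + 1))) * ∫ x, fy x ^ 2 ≤ C * (ε / (2 * (C * K + 1))) * K :=
            mul_le_mul_of_nonneg_left k1 (by positivity)
        _ = ε / 2 * (C * K / (C * K + 1)) := by field_simp
        _ ≤ ε / 2 * 1 := mul_le_mul_of_nonneg_left
            ((div_le_one hCK).2 (by linarith)) (half_pos hε).le
        _ = ε / 2 := mul_one _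
    linarith

end Pool.Agent.MP_8339a4_an

end

section

open MeasureTheory Filter Topology Set

namespace Pool.Agent.MP_8339a4_an

theorem shift_W6a {k : ℝ → ℝ} (hk : Bdd k) (x : ℝ) : Bdd fun y => k (x - y) := by
  obtain ⟨h1, C, h2⟩ := hk
  exact ⟨h1.comp (continuous_const.sub continuous_id), C, fun y => h2 _⟩

theorem ptw_W6a {k : ℝ → ℝ} {C : ℝ} (hC : ∀ y, |k y| ≤ C) (u v : ℝ) : ‖k u * v‖ ≤ C * |v| := by
  rw [Real.norm_eq_abs, abs_mul]
  exact mul_le_mul_of_nonneg_right (hC u) (abs_nonneg v)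

theorem cont_W6a {a b : ℝ} {F : ℝ → ℝ → ℝ} {k : ℝ → ℝ}
    (hF : ∀ t ∈ Icc a b, L1T (𝓝[Icc a b] t) F (F t)) (hk : Bdd k) (x : ℝ) :
    ContinuousOn (fun t => ∫ y, k (x - y) * F t y) (Icc a b) := fun t ht =>
  ((hF t ht).ut_mul (UT.const (shift_W6a hk x))).tendsto_integral

theorem mass_W6a {a b : ℝ} {F : ℝ → ℝ → ℝ}
    (hF : ∀ t ∈ Icc a b, L1T (𝓝[Icc a b] t) F (F t)) :
    ∃ M : ℝ, ∀ t ∈ Icc a b, ∫ y, |F t y| ≤ M := by
  have h1 : ContinuousOn (fun t => ∫ y, |F t y|) (Icc a b) := by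
    intro t ht
    have h := hF t ht
    have h2 : L1T (𝓝[Icc a b] t) (fun z y => |F z y|) (fun y => |F t y|) := by
      refine l1_of_le_T3a (h.1.mono fun z hz => hz.abs) h.2.1.abs h.2.2 ?_
      filter_upwards [h.1] with z hz
      exact integral_mono_of_nonneg (Eventually.of_forall fun _ => abs_nonneg _)
        (hz.sub h.2.1).abs (Eventually.of_forall fun y => abs_abs_sub_abs_le_abs_sub _ _)
    exact h2.tendsto_integral
  obtain ⟨M, hM⟩ := isCompact_Icc.bddAbove_image h1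
  exact ⟨M, fun t ht => hM ⟨t, ht, rfl⟩⟩

theorem bound_W6a {f k : ℝ → ℝ} {C M : ℝ} (hf : Integrable f) (hC : ∀ y, |k y| ≤ C)
    (hM : ∫ y, |f y| ≤ M) (x : ℝ) : ‖∫ y, k (x - y) * f y‖ ≤ C * M := by
  have h0 : 0 ≤ C := (abs_nonneg _).trans (hC 0)
  refine (norm_integral_le_of_norm_le (hf.abs.const_mul C)
    (Eventually.of_forall fun y => ptw_W6a hC _ _)).trans ?_
  rw [integral_const_mul]
  exact mul_le_mul_of_nonneg_left hM h0

theorem contx_W6a {f k : ℝ → ℝ} (hf : Integrable f) (hk : Bdd k) :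
    Continuous fun x => ∫ y, k (x - y) * f y := by
  obtain ⟨C, hC⟩ := hk.2
  refine continuous_of_dominated (bound := fun y => C * |f y|)
    (fun x => (integrable_bdd_mul hf (shift_W6a hk x)).aestronglyMeasurable)
    (fun x => Eventually.of_forall fun y => ptw_W6a hC _ _) (hf.abs.const_mul C)
    (Eventually.of_forall fun y => ?_)
  exact (hk.1.comp (continuous_id.sub continuous_const)).mul continuous_const

theorem der_W6a {f k0 k1 : ℝ → ℝ} (hf : Integrable f) (h0 : Bdd k0) (h1 : Bdd k1)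
    (hd : ∀ x, HasDerivAt k0 (k1 x) x) (x : ℝ) :
    HasDerivAt (fun x => ∫ y, k0 (x - y) * f y) (∫ y, k1 (x - y) * f y) x := by
  obtain ⟨C, hC⟩ := h1.2
  refine (hasDerivAt_integral_of_dominated_loc_of_deriv_le (s := univ)
    (F := fun x y => k0 (x - y) * f y) (F' := fun x y => k1 (x - y) * f y)
    (bound := fun y => C * |f y|) univ_mem
    (Eventually.of_forall fun z => (integrable_bdd_mul hf (shift_W6a h0 z)).aestronglyMeasurable)
    (integrable_bdd_mul hf (shift_W6a h0 x))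
    (integrable_bdd_mul hf (shift_W6a h1 x)).aestronglyMeasurable
    (Eventually.of_forall fun y z _ => ptw_W6a hC _ _) (hf.abs.const_mul C)
    (Eventually.of_forall fun y z _ => ?_)).2
  exact ((hd (z - y)).comp_sub_const z y).mul_const (f y)

theorem kerS : KerS := by
  intro a b F k0 k1 hab hF h0
  obtain ⟨M, hM⟩ := mass_W6a hF
  have sub : uIoc a b ⊆ Icc a b := by
    rw [uIoc_of_le hab]
    exact Ioc_subset_Icc_self
  have ii : ∀ {k : ℝ → ℝ}, Bdd k → ∀ x,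
      IntervalIntegrable (fun t => ∫ y, k (x - y) * F t y) volume a b := fun hk x =>
    (cont_W6a hF hk x).intervalIntegrable_of_Icc hab
  have me : ∀ {k : ℝ → ℝ}, Bdd k → ∀ x,
      AEStronglyMeasurable (fun t => ∫ y, k (x - y) * F t y) (volume.restrict (uIoc a b)) :=
    fun hk x => (intervalIntegrable_iff.1 (ii hk x)).aestronglyMeasurable
  refine ⟨⟨⟨?_, ?_⟩, cont_W6a hF h0⟩, fun hd h1 x => ?_⟩
  · obtain ⟨C, hC⟩ := h0.2
    exact intervalIntegral.continuous_of_dominated_interval (bound := fun _ => C * M) (me h0)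
      (fun x => Eventually.of_forall fun t ht =>
        bound_W6a (hF t (sub ht)).2.1 hC (hM t (sub ht)) x)
      intervalIntegrable_const
      (Eventually.of_forall fun t ht => contx_W6a (hF t (sub ht)).2.1 h0)
  · obtain ⟨C, hC⟩ := h0.2
    exact ⟨C * M * |b - a|, fun x => intervalIntegral.norm_integral_le_of_norm_le_const
      fun t ht => bound_W6a (hF t (sub ht)).2.1 hC (hM t (sub ht)) x⟩
  · obtain ⟨C, hC⟩ := h1.2
    exact (intervalIntegral.hasDerivAt_integral_of_dominated_loc_of_deriv_le (s := univ)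
      (F := fun x t => ∫ y, k0 (x - y) * F t y) (F' := fun x t => ∫ y, k1 (x - y) * F t y)
      (bound := fun _ => C * M) univ_mem (Eventually.of_forall (me h0)) (ii h0 x) (me h1 x)
      (Eventually.of_forall fun t ht z _ => bound_W6a (hF t (sub ht)).2.1 hC (hM t (sub ht)) z)
      intervalIntegrable_const
      (Eventually.of_forall fun t ht z _ => der_W6a (hF t (sub ht)).2.1 h0 h1 hd z)).2

end Pool.Agent.MP_8339a4_an

end

section

open MeasureTheory Filter Topology Set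

namespace Pool.Agent.MP_8339a4_an

theorem wb_conv_W6b (KS : KerS) {a b : ℝ} {F : ℝ → ℝ → ℝ} (hab : a ≤ b)
    (hF : ∀ t ∈ Icc a b, L1T (𝓝[Icc a b] t) F (F t)) :
    Wb (fun x => ∫ t in a..b, ∫ y, P0 (x - y) * F t y)
      (fun x => ∫ t in a..b, ∫ y, P1 (x - y) * F t y)
      (fun x => ∫ t in a..b, ∫ y, P2 (x - y) * F t y)
      (fun x => ∫ t in a..b, ∫ y, P3 (x - y) * F t y) := by
  have k0 := KS a b F P0 P1 hab hF bdd_P0
  have k1 := KS a b F P1 P2 hab hF expD_P1.bdd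
  have k2 := KS a b F P2 P3 hab hF expD_P2.bdd
  have k3 := KS a b F P3 P4 hab hF expD_P3.bdd
  exact ⟨⟨k0.2 hasDerivAt_P0 expD_P1.bdd, k1.2 hasDerivAt_P1 expD_P2.bdd,
    k2.2 hasDerivAt_P2 expD_P3.bdd, k3.1.1.1⟩, k0.1.1, k1.1.1, k2.1.1, k3.1.1⟩

theorem wb_add_W6b {f f1 f2 f3 g g1 g2 g3 : ℝ → ℝ} (h : Wb f f1 f2 f3) (H : Wb g g1 g2 g3)
    (c : ℝ) : Wb (fun y => f y + c * g y) (fun y => f1 y + c * g1 y) (fun y => f2 y + c * g2 y)
      (fun y => f3 y + c * g3 y) :=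
  ⟨h.sm.add (H.sm.const_mul c), h.b0.add (H.b0.const_mul c), h.b1.add (H.b1.const_mul c),
    h.b2.add (H.b2.const_mul c), h.b3.add (H.b3.const_mul c)⟩

theorem sup_W6b {f g : ℝ → ℝ} {K : ℝ} (h : IsH1 f g) (h0 : ∫ x, f x ^ 2 ≤ K)
    (h1 : ∫ x, g x ^ 2 ≤ K) (x y : ℝ) (hy : |y - x| ≤ 1) :
    f y ^ 4 ≤ 16 * K / (Real.exp (-1) / 4) ^ 4 * ∫ z, f z ^ 2 * P1 (z - x) := by
  have b1 : Bdd (fun z => P1 (z - x)) := expD_P1.bdd.comp (g := fun z => z - x) (by fun_prop)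
  have b2 : Bdd (fun z => P2 (z - x)) := expD_P2.bdd.comp (g := fun z => z - x) (by fun_prop)
  have hw := h.mul_bdd (F := fun z => P1 (z - x)) (G := fun z => P2 (z - x))
    (fun z => (hasDerivAt_P1 (z - x)).comp_sub_const z x) b1 b2
  have s0 := integrable_sq2 h.1
  have s1 := integrable_sq2 h.2.1
  have p1 : ∀ z, P1 z ≤ 1 := fun z => (P1_le_quarter z).trans (by norm_num)
  have hA : ∫ z, (f z * P1 (z - x)) ^ 2 ≤ ∫ z, f z ^ 2 * P1 (z - x) := by
    refine integral_mono (integrable_sq2 hw.1) (integrable_mul_bdd s0 b1) fun z => ?_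
    have k1 := mul_le_mul_of_nonneg_left (p1 (z - x))
      (mul_nonneg (sq_nonneg (f z)) (P1_pos (z - x)).le)
    change (f z * P1 (z - x)) ^ 2 ≤ f z ^ 2 * P1 (z - x)
    linarith
  have hB : ∫ z, (g z * P1 (z - x) + f z * P2 (z - x)) ^ 2 ≤ 4 * K := by
    have k0 : ∫ z, (g z * P1 (z - x) + f z * P2 (z - x)) ^ 2
        ≤ ∫ z, (2 * g z ^ 2 + 2 * f z ^ 2) := by
      refine integral_mono (integrable_sq2 hw.2.1) ((s1.const_mul 2).add (s0.const_mul 2))
        fun z => ?_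
      have k1 : P1 (z - x) ^ 2 ≤ 1 := pow_le_one₀ (P1_pos _).le (p1 _)
      have k2 : P2 (z - x) ^ 2 ≤ 1 :=
        (sq_le_one_iff_abs_le_one _).2 ((abs_P2_le _).trans (p1 _))
      have k3 := mul_le_mul_of_nonneg_left k1 (sq_nonneg (g z))
      have k4 := mul_le_mul_of_nonneg_left k2 (sq_nonneg (f z))
      have k5 := sq_nonneg (g z * P1 (z - x) - f z * P2 (z - x))
      change (g z * P1 (z - x) + f z * P2 (z - x)) ^ 2 ≤ 2 * g z ^ 2 + 2 * f z ^ 2
      linarith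
    rw [integral_add (s1.const_mul 2) (s0.const_mul 2), integral_const_mul,
      integral_const_mul] at k0
    linarith
  have hA0 : 0 ≤ ∫ z, (f z * P1 (z - x)) ^ 2 := integral_nonneg fun z => sq_nonneg _
  have hB0 : 0 ≤ ∫ z, (g z * P1 (z - x) + f z * P2 (z - x)) ^ 2 :=
    integral_nonneg fun z => sq_nonneg _
  have hs := pow_le_pow_left₀ (sq_nonneg _) (hw.sq_le y) 2
  rw [mul_pow 2, mul_pow (Real.sqrt _), Real.sq_sqrt hA0, Real.sq_sqrt hB0] at hs
  have hm := mul_le_mul hA hB hB0 (hA0.trans hA)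
  have hδ : Real.exp (-1) / 4 ≤ P1 (y - x) :=
    le_trans (div_le_div_of_nonneg_right (Real.exp_le_exp.2 (neg_le_neg hy)) (by norm_num))
      (exp_le_P1 _)
  have h4 := mul_le_mul_of_nonneg_left (pow_le_pow_left₀ (by positivity) hδ 4)
    (show 0 ≤ f y ^ 4 by positivity)
  rw [div_mul_eq_mul_div, le_div_iff₀ (by positivity)]
  linarith

theorem fl1_W6b {K : ℝ} (u p z : ℝ) (hu : |u| ≤ K) :
    |fl1 u p (P2 z) (P4 z)| ≤ (5 + 2 * K ^ 4) * (P1 (-z) * (u ^ 2 + p ^ 2)) := by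
  have h2 := abs_le.1 (abs_P2_le z)
  have h4 := abs_le.1 (abs_P4_le z)
  have hP := (P1_pos z).le
  have k0 : u ^ 4 ≤ K ^ 4 := by
    have := pow_le_pow_left₀ (abs_nonneg u) hu 4
    rwa [Even.pow_abs (by decide)] at this
  have k1 := mul_le_mul_of_nonneg_left k0 (mul_nonneg hP (sq_nonneg u))
  have a1 := mul_le_mul_of_nonneg_left h2.1 (sq_nonneg p)
  have a2 := mul_le_mul_of_nonneg_left h2.2 (sq_nonneg p)
  have a3 := mul_le_mul_of_nonneg_left h4.1 (sq_nonneg u)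
  have a4 := mul_le_mul_of_nonneg_left h4.2 (sq_nonneg u)
  have a5 := mul_le_mul_of_nonneg_left h2.1 (show 0 ≤ u ^ 6 by positivity)
  have a6 := mul_le_mul_of_nonneg_left h2.2 (show 0 ≤ u ^ 6 by positivity)
  have n1 : 0 ≤ P1 z * u ^ 2 := by positivity
  have n2 : 0 ≤ P1 z * p ^ 2 := by positivity
  have n3 : 0 ≤ K ^ 4 * (P1 z * u ^ 2) := by positivity
  have n4 : 0 ≤ K ^ 4 * (P1 z * p ^ 2) := by positivity
  rw [P1_neg, abs_le]
  unfold fl1
  constructor <;> linarith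

theorem phiS (TA : TimA) (P : P1Stmt) (KS : KerS) : PhiS := by
  intro I u ux hu a b hab hI
  obtain ⟨⟨K, hK, hb⟩, ht, -, -⟩ := TA I u ux hu a b hI
  have ha : a ∈ Icc a b := left_mem_Icc.2 hab
  have hF : ∀ t ∈ Icc a b, L1T (𝓝[Icc a b] t) (fun z y => u z y ^ 2 + ux z y ^ 2)
      (fun y => u t y ^ 2 + ux t y ^ 2) := fun t h => (ht t h).l2.sq.add (ht t h).l2y.sq
  have hG : ∀ t ∈ Icc (0 : ℝ) 1, L1T (𝓝[Icc 0 1] t) (fun _ y => u a y ^ 2)
      (fun y => u a y ^ 2) := fun t _ => L1T.const (integrable_sq2 (hu.h1 a (hI ha)).1)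
  have hC : 0 ≤ 5 + 2 * K ^ 4 := by positivity
  have hn : ∀ x t : ℝ, 0 ≤ ∫ y, P1 (x - y) * (u t y ^ 2 + ux t y ^ 2) := fun x t =>
    integral_nonneg fun y => mul_nonneg (P1_pos _).le (by positivity)
  refine ⟨_, _, _, _, 16 * K / (Real.exp (-1) / 4) ^ 4,
    wb_add_W6b (wb_conv_W6b KS zero_le_one hG) (wb_conv_W6b KS hab hF) (5 + 2 * K ^ 4),
    fun x => ?_, by positivity, fun t htm x y hy => ?_⟩
  · exact add_nonneg (intervalIntegral.integral_nonneg zero_le_one fun t _ =>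
      integral_nonneg fun y => mul_nonneg (P1_pos _).le (sq_nonneg _))
      (mul_nonneg hC (intervalIntegral.integral_nonneg hab fun t _ => hn x t))
  refine (sup_W6b (hu.h1 t (hI htm)) (hb t htm).1 (hb t htm).2.1 x y hy).trans
    (mul_le_mul_of_nonneg_left ?_ (by positivity))
  have hW : Wt (fun z => P1 (z - x)) (fun z => P2 (z - x)) (fun z => P3 (z - x))
      (fun z => P4 (z - x)) :=
    (test_P1.comp_affine one_ne_zero (-x)).wt.congr (fun z => by simp [sub_eq_add_neg])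
      (fun z => by simp [sub_eq_add_neg]) (fun z => by simp [sub_eq_add_neg])
      (fun z => by simp [sub_eq_add_neg])
  have hsub : Icc a t ⊆ Icc a b := Icc_subset_Icc_right htm.2
  have h1 := P I u ux hu a t htm.1 (hsub.trans hI) _ _ _ _ hW
  have hc := (KS a b _ P1 P2 hab hF expD_P1.bdd).1.2 x
  have bx : Bdd (fun z => P1 (x - z)) := expD_P1.bdd.comp (g := fun z => x - z) (by fun_prop)
  have h2 : ‖∫ s in a..t, ∫ z, fl1 (u s z) (ux s z) (P2 (z - x)) (P4 (z - x))‖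
      ≤ ∫ s in a..t, (5 + 2 * K ^ 4) * ∫ z, P1 (x - z) * (u s z ^ 2 + ux s z ^ 2) := by
    refine intervalIntegral.norm_integral_le_of_norm_le htm.1 (Eventually.of_forall fun s hs => ?_)
      (((hc.mono hsub).intervalIntegrable_of_Icc htm.1).const_mul _)
    have hs' : s ∈ Icc a b := hsub (Ioc_subset_Icc_self hs)
    rw [← integral_const_mul]
    refine norm_integral_le_of_norm_le ((integrable_bdd_mul (hF s hs').2.1 bx).const_mul _)
      (Eventually.of_forall fun z => ?_)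
    have k := fl1_W6b (u s z) (ux s z) (z - x) ((hb s hs').2.2 z)
    rwa [neg_sub] at k
  rw [intervalIntegral.integral_const_mul] at h2
  have h3 : (∫ s in a..t, ∫ z, P1 (x - z) * (u s z ^ 2 + ux s z ^ 2))
      ≤ ∫ s in a..b, ∫ z, P1 (x - z) * (u s z ^ 2 + ux s z ^ 2) :=
    intervalIntegral.integral_mono_interval le_rfl htm.1 htm.2
      (Eventually.of_forall fun s => hn x s) (hc.intervalIntegrable_of_Icc hab)
  have h4 := mul_le_mul_of_nonneg_left h3 hC
  have h5 : (∫ _ in (0 : ℝ)..1, ∫ z, P1 (x - z) * u a z ^ 2) = ∫ z, u a z ^ 2 * P1 (z - x) := by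
    rw [intervalIntegral.integral_const, sub_zero, one_smul]
    refine integral_congr_ae (Eventually.of_forall fun z => ?_)
    change P1 (x - z) * u a z ^ 2 = u a z ^ 2 * P1 (z - x)
    rw [← neg_sub, P1_neg, mul_comm]
  have h6 := (le_abs_self _).trans h2
  change _ ≤ (∫ _ in (0 : ℝ)..1, ∫ z, P1 (x - z) * u a z ^ 2) +
    (5 + 2 * K ^ 4) * ∫ s in a..b, ∫ z, P1 (x - z) * (u s z ^ 2 + ux s z ^ 2)
  rw [h5]
  linarith

end Pool.Agent.MP_8339a4_an

end

section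

open MeasureTheory Filter Topology Set

namespace Pool.Agent.MP_8339a4_an

theorem aff_W7 {X Y X1 Y1 : ℝ} (h : ∀ θ : ℝ, 0 < θ → X + θ * X1 ≤ Y + θ * Y1) : X ≤ Y := by
  have h1 : Tendsto (fun θ : ℝ => X + θ * X1) (𝓝[>] 0) (𝓝 (X + 0 * X1)) :=
    ((by fun_prop : Continuous fun θ : ℝ => X + θ * X1).tendsto 0).mono_left nhdsWithin_le_nhds
  have h2 : Tendsto (fun θ : ℝ => Y + θ * Y1) (𝓝[>] 0) (𝓝 (Y + 0 * Y1)) :=
    ((by fun_prop : Continuous fun θ : ℝ => Y + θ * Y1).tendsto 0).mono_left nhdsWithin_le_nhds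
  have h3 := le_of_tendsto_of_tendsto h1 h2 (eventually_mem_nhdsWithin.mono h)
  simpa using h3

theorem lim_W7 (B : MoB) {f fy W Φ : ℝ → ℝ} (h : IsH1 f fy) (hW : Bdd W) (hΦ : Bdd Φ) (θ : ℝ) :
    Tendsto (fun n => ∫ x, en (mo 0 n f x) (mo 1 n f x) * (W x + θ * Φ x)) atTop
      (𝓝 ((∫ x, en (f x) (fy x) * W x) + θ * ∫ x, en (f x) (fy x) * Φ x)) := by
  have h1 := (B.h1t f fy h).en
  have h2 := (h1.mul_ut (UT.const (hW.add (hΦ.const_mul θ)))).tendsto_integral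
  have e : ∫ x, en (f x) (fy x) * (W x + θ * Φ x)
      = (∫ x, en (f x) (fy x) * W x) + θ * ∫ x, en (f x) (fy x) * Φ x := by
    rw [← integral_const_mul, ← integral_add (integrable_mul_bdd h1.2.1 hW)
      ((integrable_mul_bdd h1.2.1 hΦ).const_mul θ)]
    refine integral_congr_ae (ae_of_all _ fun x => ?_)
    simp only
    ring
  rw [← e]
  exact h2

theorem p2_of (A : MoA) (B : MoB) (TA : TimA) (L : LimS) (EA : EnA) (ED : EnD) (PH : PhiS) :
    P2Stmt := by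
  intro I u ux hs a b hab hI W W1 W2 W3 hW hW1 g gy hg
  obtain ⟨Φ, Φ1, Φ2, Φ3, c, hΦ, hΦ1, hc, hdom⟩ := PH I u ux hs a b hab hI
  obtain ⟨⟨K, -, hK⟩, hT, -⟩ := TA I u ux hs a b hI
  have hWb : Wb W W1 W2 W3 := ⟨hW.sm, hW.b0, hW.b1, hW.b2, hW.b3⟩
  have c1 : ContinuousOn
      (fun t => ∫ x, fl2 (u t x) (ux t x) (g x) (gy x) (W1 x) (W2 x) (W3 x)) (Icc a b) :=
    fun t ht => ((hT t ht).fl2 hg hW.b1 hW.b2 hW.b3).tendsto_integral
  have c2 : ContinuousOn
      (fun t => ∫ x, fl2 (u t x) (ux t x) 0 0 (Φ1 x) (Φ2 x) (Φ3 x)) (Icc a b) :=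
    fun t ht => ((hT t ht).fl2 IsH1.zero hΦ.b1 hΦ.b2 hΦ.b3).tendsto_integral
  have ha : a ∈ Icc a b := left_mem_Icc.2 hab
  have hb : b ∈ Icc a b := right_mem_Icc.2 hab
  refine aff_W7 (X1 := (∫ x, en (u b x) (ux b x) * Φ x) - ∫ x, en (u a x) (ux a x) * Φ x)
    (Y1 := ∫ t in a..b, ∫ x, fl2 (u t x) (ux t x) 0 0 (Φ1 x) (Φ2 x) (Φ3 x)) fun θ hθ => ?_
  obtain ⟨B0, hB⟩ := ED W W1 W2 W3 Φ Φ1 Φ2 Φ3 g gy c θ K hWb hW1 hΦ hΦ1 hg hc hθ
  have hB' := fun t (ht : t ∈ Icc a b) => hB (u t) (ux t) (hs.h1 t (hI ht)) (hK t ht).1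
    (hK t ht).2.1 (hK t ht).2.2 (hdom t ht)
  have hE := EA I u ux hs a b hab hI (fun x => W x + θ * Φ x) (hW.b0.add (hΦ.b0.const_mul θ))
  have key := L.le a b B0 _ (fun n t => Dn n (u t) (fun x => W x + θ * Φ x)) _
    (fun t => (∫ x, fl2 (u t x) (ux t x) (g x) (gy x) (W1 x) (W2 x) (W3 x)) +
      θ * ∫ x, fl2 (u t x) (ux t x) 0 0 (Φ1 x) (Φ2 x) (Φ3 x)) hab (fun n => (hE n).1)
    (c1.add (continuousOn_const.mul c2)) (fun n => (hE n).2) (fun n t ht => (hB' t ht).1 n)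
    (fun t ht => (hB' t ht).2)
    ((lim_W7 B (hs.h1 b (hI hb)) hW.b0 hΦ.b0 θ).sub (lim_W7 B (hs.h1 a (hI ha)) hW.b0 hΦ.b0 θ))
  rw [intervalIntegral.integral_add (c1.intervalIntegrable_of_Icc hab)
    ((c2.intervalIntegrable_of_Icc hab).const_mul θ), intervalIntegral.integral_const_mul] at key
  linarith

end Pool.Agent.MP_8339a4_an

end

section

/-! W block: the three local laws for `H^1` weak solutions. -/

namespace Pool.Agent.MP_8339a4_an

theorem moB' : MoB := moB moA (moL moA)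
theorem timA' : TimA := timA moA moB'
theorem timB' : TimB := timB moA moB' timA'
theorem cmS' : CmS := cmS moA moB'

theorem p0 : P0Stmt := p0_of moA moB' timA' timB' limS
theorem p1 : P1Stmt := p1_of moA moB' timA' timB' limS
theorem p2 : P2Stmt := p2_of moA moB' timA' limS (enA moA moB' timA' timB')
  (enD moA moB' cmS' (enC moA moB' (enB moA moB') cmS')) (phiS timA' p1 kerS)

end Pool.Agent.MP_8339a4_an

end
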